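import Mathlib

/-!
# Squad WTW: definitions
A W^{2,1} homeomorphism of R^9 that is not a W^{2,1} limit of diffeomorphisms.
-/

namespace Pool.Agent.Wtw

open MeasureTheory Set Filter Topology
open scoped ENNReal

/-! ## Coordinates -/

/-- two groups of four coordinates -/
abbrev Idx := Fin 2 × Fin 4
/-- `R^8` (sup norm) -/
abbrev Z8 := Idx → ℝ
/-- one group -/
abbrev W4 := Fin 4 → ℝ
/-- the plane of the rotation -/
abbrev V2 := Fin 2 → ℝ
/-- `R x R^8`, the space on which the map acts -/
abbrev E9 := ℝ × Z8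

/-- the weights `1, 2, 3, 4` -/
def nn (i : Fin 4) : ℝ := (i : ℕ) + 1

/-- the group `g` of `z` -/
def grp (z : Z8) (g : Fin 2) : W4 := fun i => z (g, i)

/-- translation along the two directions `N_1, N_2` -/
def shift (c : V2) : Z8 := fun k => nn k.2 * c k.1

/-- rotation by the angle `t` -/
noncomputable def rot (t : ℝ) (v : V2) : V2 :=
  ![Real.cos t * v 0 - Real.sin t * v 1, Real.sin t * v 0 + Real.cos t * v 1]

/-! ## Digits -/

/-- digit sequences -/
abbrev Dg := ℕ → Bool

/-- a fair coin -/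
noncomputable def coin : Measure Bool := (PMF.uniformOfFintype Bool).toMeasure

/-- fair digits -/
noncomputable def PD : Measure Dg := Measure.infinitePi fun _ => coin

/-- the point with the given digits in base 256 -/
noncomputable def beta (x : Dg) : ℝ := ∑' k : ℕ, (if x k then (1 : ℝ) else 0) / 256 ^ (k + 1)

/-- the thin Cantor set -/
def CC : Set ℝ := range beta

/-- the largest distance of a coordinate of `z` to the Cantor set -/
noncomputable def dlt (z : Z8) : ℝ :=
  Finset.univ.sup' Finset.univ_nonempty fun k : Idx => Metric.infDist (z k) CC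

/-! ## The robust mean -/

/-- coefficient of `n` in the coordinates of `T` -/
noncomputable def lamT (T : Finset (Fin 4)) (w : W4) : ℝ :=
  (∑ i ∈ T, nn i * w i) / ∑ i ∈ T, nn i ^ 2

/-- squared distance to the line `R n` in the coordinates of `T` -/
noncomputable def QT (T : Finset (Fin 4)) (w : W4) : ℝ :=
  ∑ i ∈ T, (w i - lamT T w * nn i) ^ 2

/-- index space of the robust mean: an omitted coordinate and digits of four numbers -/
abbrev A4 := Fin 4 × (Fin 4 → Dg)

/-- its measure (total mass 4) -/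
noncomputable def PA : Measure A4 := (Measure.count : Measure (Fin 4)).prod (Measure.pi fun _ => PD)

/-- the four numbers -/
noncomputable def zet (x : Fin 4 → Dg) : W4 := fun i => beta (x i)

noncomputable def lamA (α : A4) (w : W4) : ℝ := lamT (Finset.univ.erase α.1) (w - zet α.2)

noncomputable def rhoSq (α : A4) (w : W4) (s : ℝ) : ℝ :=
  s ^ 2 + QT (Finset.univ.erase α.1) (w - zet α.2)

noncomputable def rho (α : A4) (w : W4) (s : ℝ) : ℝ := Real.sqrt (rhoSq α w s)

/-- the robust mean -/
noncomputable def mu (w : W4) (s : ℝ) : ℝ :=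
  (∫ α, lamA α w / rhoSq α w s ∂PA) / ∫ α, 1 / rhoSq α w s ∂PA

/-- both robust means -/
noncomputable def mu2 (z : Z8) (s : ℝ) : V2 := fun g => mu (grp z g) s

/-- smallest `rho` -/
noncomputable def dmu (w : W4) (s : ℝ) : ℝ := ⨅ α : A4, rho α w s

/-! ## The scale function -/

/-- index space for the potential -/
noncomputable def P8 : Measure (Idx → Dg) := Measure.pi fun _ => PD

noncomputable def vSq (x : Idx → Dg) (z : Z8) (m : V2) (s : ℝ) : ℝ :=
  s ^ 2 + (m 0 ^ 2 + m 1 ^ 2) + ∑ g : Fin 2, QT Finset.univ fun i => z (g, i) - beta (x (g, i))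

/-- potential -/
noncomputable def UU (z : Z8) (m : V2) (s : ℝ) : ℝ := ∫ x, 1 / vSq x z m s ∂P8

/-- distance to the singular set -/
noncomputable def dv (z : Z8) (m : V2) (s : ℝ) : ℝ := ⨅ x : Idx → Dg, Real.sqrt (vSq x z m s)

noncomputable def sigma (c1 : ℝ) (z : Z8) (m : V2) (s : ℝ) : ℝ :=
  c1 / (1 + (UU z m s) ^ (5 / 4 : ℝ))

noncomputable def Xi (c1 : ℝ) (z : Z8) (s : ℝ) : ℝ := sigma c1 z (mu2 z s) s

open Classical in
/-- the scale at `z` -/
noncomputable def sz (c1 : ℝ) (z : Z8) : ℝ :=
  if h : ∃ s, 0 < s ∧ s ≤ 1 ∧ Xi c1 z s = s then h.choose else 0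

open Classical in
/-- the centre at `z` -/
noncomputable def mz (c1 : ℝ) (z : Z8) : V2 :=
  if sz c1 z = 0 then 0 else mu2 z (sz c1 z)

/-! ## The function p -/

noncomputable def kk (t : ℝ) : ℝ := (max (1 - t ^ 2) 0) ^ 64

/-- primitive of the normalised kernel -/
noncomputable def K0 (x : ℝ) : ℝ := (∫ t in (-1 : ℝ)..x, kk t) / ∫ t in (-1 : ℝ)..1, kk t

open Classical in
noncomputable def pp (z s : ℝ) : ℝ :=
  if 0 < s then z + ∫ x, K0 ((z - beta x) / s) ∂PD else z + (PD {x | beta x ≤ z}).toReal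

end Pool.Agent.Wtw
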