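import Mathlib
import Pool.Agent.Wtw.Defs

/-!
# Squad WTW: the interface between the construction (parts I-V) and the conclusion (parts VI-VIII)
-/

namespace Pool.Agent.Wtw

open MeasureTheory Set Filter Topology
open scoped ENNReal

/-- what the construction gives: a homeomorphism `f` of `R x R^8`, identity off `{0 < u < 1}` and
on `R x K`, of class `C^2` with invertible derivative off `{0} x K`, with second derivative integrable
on bounded sets, and whose derivative along the line `R x {y*}` is a rotation loop. -/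
structure FData (f : E9 → E9) (K : Set Z8) : Prop where
  homeo : IsHomeomorph f
  compact : IsCompact K
  vol_pos : 0 < volume K
  sub : ∀ y ∈ K, ∀ k, |y k| ≤ 3
  id_neg : ∀ u y, u ≤ 0 → f (u, y) = (u, y)
  id_one : ∀ u y, 1 ≤ u → f (u, y) = (u, y)
  id_K : ∀ u y, y ∈ K → f (u, y) = (u, y)
  smooth : ∀ u y, ¬ (u = 0 ∧ y ∈ K) → ContDiffAt ℝ 2 f (u, y)
  inv : ∀ u y, ¬ (u = 0 ∧ y ∈ K) → ∃ e : E9 ≃L[ℝ] E9, HasFDerivAt f (e : E9 →L[ℝ] E9) (u, y)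
  DK : ∀ u y, y ∈ K → u ≠ 0 → HasFDerivAt f (ContinuousLinearMap.id ℝ E9) (u, y)
  int1 : ∀ R : ℝ, ∫⁻ t in Metric.closedBall (0 : E9) R, ‖fderiv ℝ f t‖ₑ < ∞
  int2 : ∀ R : ℝ, ∫⁻ t in Metric.closedBall (0 : E9) R, ‖fderiv ℝ (fderiv ℝ f) t‖ₑ < ∞
  loop : ∃ ys : Z8, 5 < ys (0, 0) ∧
    ∃ (A : Z8 ≃L[ℝ] Z8) (N : V2 →L[ℝ] Z8) (M : Z8 →L[ℝ] V2) (θ : ℝ → ℝ),
      Continuous θ ∧ (∀ u ≤ 0, θ u = 0) ∧ (∀ u, 1 ≤ u → θ u = 2 * Real.pi) ∧
      (∀ c, M (N c) = c) ∧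
      ∀ u v w, fderiv ℝ f (u, ys) (v, w) =
        (v, A (A.symm w + N (rot (θ u) (M (A.symm w)) - M (A.symm w))))

end Pool.Agent.Wtw
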