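import Mathlib
import Pool.Agent.Wtw.FD

/-!
# FDQ: the interface with the powers of the derivatives
-/

namespace Pool.Agent.Wtw

open MeasureTheory Set Filter Topology
open scoped ENNReal

/-- `FData` together with the integrability of the powers `1 <= r < 480/477` of the first and second
derivatives on bounded sets -/
structure FDataQ (f : E9 → E9) (K : Set Z8) : Prop extends FData f K where
  intq1 : ∀ r : ℝ, 1 ≤ r → r < 480 / 477 → ∀ R : ℝ,
    ∫⁻ t in Metric.closedBall (0 : E9) R, ‖fderiv ℝ f t‖ₑ ^ r < ∞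
  intq2 : ∀ r : ℝ, 1 ≤ r → r < 480 / 477 → ∀ R : ℝ,
    ∫⁻ t in Metric.closedBall (0 : E9) R, ‖fderiv ℝ (fderiv ℝ f) t‖ₑ ^ r < ∞

end Pool.Agent.Wtw
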