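import Mathlib

/-!
# Chain2: second order chain rules

Convention: `fderiv ℝ (fderiv ℝ f) x v w` (derivative of `x ↦ fderiv f x w` in direction `v`); symmetric for
`C^2` functions.  All by differentiating the first order rules, which hold in a neighbourhood of `x`
(`ContDiffAt ℝ 2` implies differentiability near `x`).
-/

namespace Pool.Agent.Wtw

open MeasureTheory Set Filter Topology
open scoped ENNReal

variable {E F G : Type*} [NormedAddCommGroup E] [NormedSpace ℝ E] [NormedAddCommGroup F]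
  [NormedSpace ℝ F] [NormedAddCommGroup G] [NormedSpace ℝ G]

theorem Chain2_d {f : E → F} {x : E} (hf : ContDiffAt ℝ 2 f x) : DifferentiableAt ℝ f x :=
  hf.differentiableAt (by norm_num)

theorem Chain2_ev {f : E → F} {x : E} (hf : ContDiffAt ℝ 2 f x) :
    ∀ᶠ t in 𝓝 x, DifferentiableAt ℝ f t := by
  have h := hf.eventually (by simp)
  filter_upwards [h] with t ht using ht.differentiableAt (by norm_num)

theorem Chain2_dd {f : E → F} {x : E} (hf : ContDiffAt ℝ 2 f x) :
    DifferentiableAt ℝ (fderiv ℝ f) x := by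
  have h : ContDiffAt ℝ 1 (fderiv ℝ f) x := hf.fderiv_right (m := 1) (by norm_num)
  exact h.differentiableAt (by norm_num)

/-- germs: the second derivative depends only on the function near `x` -/
theorem fderiv2_congr {f g : E → F} {x : E} (h : f =ᶠ[𝓝 x] g) :
    fderiv ℝ (fderiv ℝ f) x = fderiv ℝ (fderiv ℝ g) x := by
  exact (h.fderiv).fderiv_eq

theorem fderiv2_comp {f : F → G} {h : E → F} {x : E} (hf : ContDiffAt ℝ 2 f (h x))
    (hh : ContDiffAt ℝ 2 h x) (v w : E) :
    fderiv ℝ (fderiv ℝ fun t => f (h t)) x v w =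
      fderiv ℝ (fderiv ℝ f) (h x) (fderiv ℝ h x v) (fderiv ℝ h x w) +
        fderiv ℝ f (h x) (fderiv ℝ (fderiv ℝ h) x v w) := by
  have e1 : (fderiv ℝ fun t => f (h t)) =ᶠ[𝓝 x] fun t => (fderiv ℝ f (h t)).comp (fderiv ℝ h t) := by
    have h1 := hh.continuousAt.eventually (Chain2_ev hf)
    filter_upwards [h1, Chain2_ev hh] with t ht ht'
    exact fderiv_comp t ht ht'
  rw [e1.fderiv_eq]
  have h1 : HasFDerivAt (fun t => fderiv ℝ f (h t)) ((fderiv ℝ (fderiv ℝ f) (h x)).comp (fderiv ℝ h x)) x :=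
    (Chain2_dd hf).hasFDerivAt.comp x (Chain2_d hh).hasFDerivAt
  have h2 := (Chain2_dd hh).hasFDerivAt
  have h3 := h1.clm_comp h2
  rw [h3.fderiv]
  simp [add_comm]

theorem fderiv2_symm {f : E → F} {x : E} (hf : ContDiffAt ℝ 2 f x) (v w : E) :
    fderiv ℝ (fderiv ℝ f) x v w = fderiv ℝ (fderiv ℝ f) x w v := by
  exact (hf.isSymmSndFDerivAt (by simp)) v w

theorem fderiv2_add {f g : E → F} {x : E} (hf : ContDiffAt ℝ 2 f x) (hg : ContDiffAt ℝ 2 g x)
    (v w : E) : fderiv ℝ (fderiv ℝ fun t => f t + g t) x v w =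
      fderiv ℝ (fderiv ℝ f) x v w + fderiv ℝ (fderiv ℝ g) x v w := by
  have e1 : (fderiv ℝ fun t => f t + g t) =ᶠ[𝓝 x] fun t => fderiv ℝ f t + fderiv ℝ g t := by
    filter_upwards [Chain2_ev hf, Chain2_ev hg] with t ht ht'
    exact fderiv_fun_add ht ht'
  rw [e1.fderiv_eq, fderiv_fun_add (Chain2_dd hf) (Chain2_dd hg)]
  simp

theorem fderiv2_sub {f g : E → F} {x : E} (hf : ContDiffAt ℝ 2 f x) (hg : ContDiffAt ℝ 2 g x)
    (v w : E) : fderiv ℝ (fderiv ℝ fun t => f t - g t) x v w =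
      fderiv ℝ (fderiv ℝ f) x v w - fderiv ℝ (fderiv ℝ g) x v w := by
  have e1 : (fderiv ℝ fun t => f t - g t) =ᶠ[𝓝 x] fun t => fderiv ℝ f t - fderiv ℝ g t := by
    filter_upwards [Chain2_ev hf, Chain2_ev hg] with t ht ht'
    exact fderiv_fun_sub ht ht'
  rw [e1.fderiv_eq, fderiv_fun_sub (Chain2_dd hf) (Chain2_dd hg)]
  simp

/-- first order rule for `smul` as a derivative at `x` -/
theorem Chain2_smul_d {f : E → ℝ} {g : E → F} {t : E} (hf : DifferentiableAt ℝ f t)
    (hg : DifferentiableAt ℝ g t) :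
    fderiv ℝ (fun t => f t • g t) t = f t • fderiv ℝ g t + (fderiv ℝ f t).smulRight (g t) :=
  (hf.hasFDerivAt.smul hg.hasFDerivAt).fderiv

theorem fderiv2_smul {f : E → ℝ} {g : E → F} {x : E} (hf : ContDiffAt ℝ 2 f x)
    (hg : ContDiffAt ℝ 2 g x) (v w : E) : fderiv ℝ (fderiv ℝ fun t => f t • g t) x v w =
      fderiv ℝ (fderiv ℝ f) x v w • g x + fderiv ℝ f x v • fderiv ℝ g x w +
        fderiv ℝ f x w • fderiv ℝ g x v + f x • fderiv ℝ (fderiv ℝ g) x v w := by
  have e1 : (fderiv ℝ fun t => f t • g t) =ᶠ[𝓝 x]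
      fun t => f t • fderiv ℝ g t + (fderiv ℝ f t).smulRight (g t) := by
    filter_upwards [Chain2_ev hf, Chain2_ev hg] with t ht ht'
    exact Chain2_smul_d ht ht'
  rw [e1.fderiv_eq]
  have h1 : HasFDerivAt (fun t => f t • fderiv ℝ g t)
      (f x • fderiv ℝ (fderiv ℝ g) x + (fderiv ℝ f x).smulRight (fderiv ℝ g x)) x :=
    (Chain2_d hf).hasFDerivAt.smul (Chain2_dd hg).hasFDerivAt
  -- the second summand applied to `w`
  have h2d : DifferentiableAt ℝ (fun t => (fderiv ℝ f t).smulRight (g t)) x := by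
    have h2e := DifferentiableAt.comp (𝕜 := ℝ) x
      ((ContinuousLinearMap.smulRightL ℝ E F).isBoundedBilinearMap.differentiableAt
      (fderiv ℝ f x, g x)) ((Chain2_dd hf).prodMk (Chain2_d hg))
    exact h2e
  have h2 : HasFDerivAt (fun t => (fderiv ℝ f t).smulRight (g t)) _ x := h2d.hasFDerivAt
  have h3 := h1.add h2
  have e2 : fderiv ℝ (fun t => f t • fderiv ℝ g t + (fderiv ℝ f t).smulRight (g t)) x = _ := h3.fderiv
  rw [e2]
  have h4 : fderiv ℝ (fun t => (fderiv ℝ f t).smulRight (g t)) x v w =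
      fderiv ℝ (fun t => (fderiv ℝ f t w) • g t) x v := by
    have h5 : HasFDerivAt (fun t => (fderiv ℝ f t).smulRight (g t) w) _ x :=
      h2.clm_apply (hasFDerivAt_const w x)
    have h6 : (fun t => (fderiv ℝ f t).smulRight (g t) w) = fun t => (fderiv ℝ f t w) • g t := by
      ext t; simp
    rw [← h6, h5.fderiv]
    simp
  have h7 : HasFDerivAt (fun t => (fderiv ℝ f t w) • g t)
      ((fderiv ℝ f x w) • fderiv ℝ g x + ((fderiv ℝ (fderiv ℝ f) x).flip w).smulRight (g x)) x := by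
    have h8 : HasFDerivAt (fun t => fderiv ℝ f t w) ((fderiv ℝ (fderiv ℝ f) x).flip w) x := by
      have h9 := (Chain2_dd hf).hasFDerivAt.clm_apply (hasFDerivAt_const w x)
      refine h9.congr_fderiv ?_
      ext u; simp
    exact h8.smul (Chain2_d hg).hasFDerivAt
  simp only [_root_.add_apply, h4, h7.fderiv, ContinuousLinearMap.smul_apply,
    ContinuousLinearMap.smulRight_apply, ContinuousLinearMap.flip_apply]
  abel

theorem fderiv2_mul {f g : E → ℝ} {x : E} (hf : ContDiffAt ℝ 2 f x)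
    (hg : ContDiffAt ℝ 2 g x) (v w : E) : fderiv ℝ (fderiv ℝ fun t => f t * g t) x v w =
      fderiv ℝ (fderiv ℝ f) x v w * g x + fderiv ℝ f x v * fderiv ℝ g x w +
        fderiv ℝ f x w * fderiv ℝ g x v + f x * fderiv ℝ (fderiv ℝ g) x v w := by
  simpa only [smul_eq_mul] using fderiv2_smul hf hg v w

/-- composition with a continuous linear map on the left -/
theorem fderiv2_clm (L : F →L[ℝ] G) {f : E → F} {x : E} (hf : ContDiffAt ℝ 2 f x) (v w : E) :
    fderiv ℝ (fderiv ℝ fun t => L (f t)) x v w = L (fderiv ℝ (fderiv ℝ f) x v w) := by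
  have e1 : (fderiv ℝ fun t => L (f t)) =ᶠ[𝓝 x] fun t => L.comp (fderiv ℝ f t) := by
    filter_upwards [Chain2_ev hf] with t ht
    exact (L.hasFDerivAt.comp t ht.hasFDerivAt).fderiv
  rw [e1.fderiv_eq]
  have h3 := (hasFDerivAt_const L x).clm_comp (Chain2_dd hf).hasFDerivAt
  rw [h3.fderiv]
  simp

/-- the second derivative of a continuous linear map is zero -/
theorem fderiv2_lin (L : E →L[ℝ] F) (x : E) : fderiv ℝ (fderiv ℝ fun t => L t) x = 0 := by
  have e1 : (fderiv ℝ fun t => L t) = fun _ => L := by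
    ext1 t
    exact L.fderiv
  rw [e1]
  simp

/-- composition with a continuous affine map on the right -/
theorem fderiv2_comp_lin {f : F → G} (L : E →L[ℝ] F) (b : F) {x : E} (hf : ContDiffAt ℝ 2 f (L x + b))
    (v w : E) : fderiv ℝ (fderiv ℝ fun t => f (L t + b)) x v w =
      fderiv ℝ (fderiv ℝ f) (L x + b) (L v) (L w) := by
  have h1 : ContDiffAt ℝ 2 (fun t => L t + b) x := (L.contDiff.contDiffAt).add contDiffAt_const
  rw [fderiv2_comp (h := fun t => L t + b) hf h1]
  have h2 : fderiv ℝ (fun t => L t + b) = fun _ => L := by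
    ext1 t
    exact (L.hasFDerivAt.add_const b).fderiv
  rw [h2]
  simp

theorem fderiv2_prod {f : E → F} {g : E → G} {x : E} (hf : ContDiffAt ℝ 2 f x)
    (hg : ContDiffAt ℝ 2 g x) (v w : E) : fderiv ℝ (fderiv ℝ fun t => (f t, g t)) x v w =
      (fderiv ℝ (fderiv ℝ f) x v w, fderiv ℝ (fderiv ℝ g) x v w) := by
  have hfg : ContDiffAt ℝ 2 (fun t => (f t, g t)) x := hf.prodMk hg
  have h1 := fderiv2_clm (ContinuousLinearMap.fst ℝ F G) hfg v w
  have h2 := fderiv2_clm (ContinuousLinearMap.snd ℝ F G) hfg v w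
  simp only [ContinuousLinearMap.coe_fst', ContinuousLinearMap.coe_snd'] at h1 h2
  exact Prod.ext h1.symm h2.symm

theorem fderiv2_pi {ι : Type*} [Fintype ι] {f : E → ι → ℝ} {x : E} (hf : ContDiffAt ℝ 2 f x)
    (v w : E) (i : ι) : fderiv ℝ (fderiv ℝ f) x v w i =
      fderiv ℝ (fderiv ℝ fun t => f t i) x v w := by
  have h1 := fderiv2_clm (ContinuousLinearMap.proj (R := ℝ) (φ := fun _ : ι => ℝ) i) hf v w
  simp only [ContinuousLinearMap.proj_apply] at h1
  exact h1.symm

theorem fderiv_pi_apply' {ι : Type*} [Fintype ι] {f : E → ι → ℝ} {x : E}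
    (hf : DifferentiableAt ℝ f x) (v : E) (i : ι) :
    fderiv ℝ f x v i = fderiv ℝ (fun t => f t i) x v := by
  have h1 : HasFDerivAt (fun t => f t i)
      ((ContinuousLinearMap.proj (R := ℝ) (φ := fun _ : ι => ℝ) i).comp (fderiv ℝ f x)) x :=
    (ContinuousLinearMap.proj (R := ℝ) (φ := fun _ : ι => ℝ) i).hasFDerivAt.comp x hf.hasFDerivAt
  rw [h1.fderiv]
  simp

/-- composition of a real function with a `C^2` function -/
theorem fderiv2_real {φ : ℝ → ℝ} {h : E → ℝ} {x : E} (hf : ContDiffAt ℝ 2 φ (h x))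
    (hh : ContDiffAt ℝ 2 h x) (v w : E) :
    fderiv ℝ (fderiv ℝ fun t => φ (h t)) x v w =
      deriv (deriv φ) (h x) * fderiv ℝ h x v * fderiv ℝ h x w +
        deriv φ (h x) * fderiv ℝ (fderiv ℝ h) x v w := by
  rw [fderiv2_comp hf hh]
  have h1 : ∀ t a : ℝ, fderiv ℝ φ t a = a * deriv φ t := by
    intro t a
    rw [← fderiv_apply_one_eq_deriv]
    have := (fderiv ℝ φ t).map_smul a 1
    simpa using this
  have h2 : ∀ a b : ℝ, fderiv ℝ (fderiv ℝ φ) (h x) a b = a * b * deriv (deriv φ) (h x) := by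
    intro a b
    have h3 : HasFDerivAt (fun t => fderiv ℝ φ t b) ((fderiv ℝ (fderiv ℝ φ) (h x)).flip b) (h x) := by
      have h9 := (Chain2_dd hf).hasFDerivAt.clm_apply (hasFDerivAt_const b (h x))
      refine h9.congr_fderiv ?_
      ext u; simp
    have h4 : (fun t => fderiv ℝ φ t b) = fun t => b * deriv φ t := by
      ext t; exact h1 t b
    rw [h4] at h3
    have h5 : DifferentiableAt ℝ (deriv φ) (h x) := by
      have h6 : HasFDerivAt (fun t => fderiv ℝ φ t 1) ((fderiv ℝ (fderiv ℝ φ) (h x)).flip 1) (h x) := by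
        have h9 := (Chain2_dd hf).hasFDerivAt.clm_apply (hasFDerivAt_const (1 : ℝ) (h x))
        refine h9.congr_fderiv ?_
        ext; simp
      have h7 : (fun t => fderiv ℝ φ t 1) = deriv φ := by
        ext t; rw [h1]; ring
      rw [h7] at h6
      exact h6.differentiableAt
    have h6 : HasDerivAt (fun t => b * deriv φ t) (b * deriv (deriv φ) (h x)) (h x) :=
      h5.hasDerivAt.const_mul b
    have h7 := h3.unique h6.hasFDerivAt
    have h8 := congrArg (fun T => T a) h7
    simp only [ContinuousLinearMap.flip_apply] at h8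
    rw [h8]
    simp
    ring
  rw [h1, h2]
  ring

end Pool.Agent.Wtw
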