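import Mathlib
import Pool.Agent.Wtw.Defs

/-!
# Squad WTW: abstract interfaces

`SData s m A`: the properties of the scale function `s` and the centre `m` (functions on the thin
space `Z8`), `PData p A`: the properties of the function `p z s`.  Parts III-VII use only these.
-/

namespace Pool.Agent.Wtw

open MeasureTheory Set Filter Topology
open scoped ENNReal

/-- weight of a vector when the coordinate `x` is cheap (`r` small) -/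
noncomputable def nuB (x : Idx) (r : ℝ) (ξ : Z8) : ℝ := max (r * |ξ x|) ‖Function.update ξ x 0‖

/-- all coordinates except possibly `x` are within `s z` of the Cantor set -/
def GoodBut (s : Z8 → ℝ) (z : Z8) (x : Idx) : Prop := ∀ k, k ≠ x → Metric.infDist (z k) CC ≤ s z

/-- in each group all coordinates except possibly one are within `s z` of the Cantor set -/
def GoodGrp (s : Z8 → ℝ) (z : Z8) : Prop :=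
  ∀ g : Fin 2, ∃ e : Fin 4, ∀ i, i ≠ e → Metric.infDist (z (g, i)) CC ≤ s z

structure SData (s : Z8 → ℝ) (m : Z8 → V2) (A : ℝ) : Prop where
  one_le : 1 ≤ A
  nonneg : ∀ z, 0 ≤ s z
  le_half : ∀ z, s z ≤ 1 / 2
  zero_iff : ∀ z, s z = 0 ↔ ∀ k, z k ∈ CC
  m_zero : ∀ z, s z = 0 → m z = 0
  lip : ∀ z z', |s z - s z'| ≤ ‖z - z'‖ / 32
  smooth_s : ∀ z, s z ≠ 0 → ContDiffAt ℝ 2 s z
  smooth_m : ∀ z, s z ≠ 0 → ContDiffAt ℝ 2 m z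
  small : ∀ z, s z ≤ dlt z / 32
  up : ∀ z, s z ≤ A * dlt z ^ (5 / 4 : ℝ)
  low : ∀ z, dlt z ≤ 1 → dlt z ^ (5 / 4 : ℝ) ≤ A * s z
  m_le : ∀ z, ‖m z‖ ≤ A * dlt z
  m_good : ∀ z, GoodGrp s z → ‖m z‖ ≤ A * s z
  ds : ∀ z, s z ≠ 0 → dlt z ≤ 1 → ∀ ξ, |fderiv ℝ s z ξ| ≤ A * dlt z ^ (1 / 4 : ℝ) * ‖ξ‖
  dds : ∀ z, s z ≠ 0 → dlt z ≤ 1 → ∀ ξ η,
    |fderiv ℝ (fderiv ℝ s) z ξ η| ≤ A * dlt z ^ (1 / 4 : ℝ) / s z * ‖ξ‖ * ‖η‖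
  dm : ∀ z, s z ≠ 0 → dlt z ≤ 1 → ∀ ξ, ‖fderiv ℝ m z ξ‖ ≤ A * ‖ξ‖
  ddm : ∀ z, s z ≠ 0 → dlt z ≤ 1 → ∀ ξ η,
    ‖fderiv ℝ (fderiv ℝ m) z ξ η‖ ≤ A / s z * ‖ξ‖ * ‖η‖
  bs : ∀ z x, s z ≠ 0 → dlt z ≤ 1 → GoodBut s z x → ∀ ξ,
    |fderiv ℝ s z ξ| ≤ A * nuB x (dlt z ^ (1 / 4 : ℝ)) ξ
  bbs : ∀ z x, s z ≠ 0 → dlt z ≤ 1 → GoodBut s z x → ∀ ξ η,
    |fderiv ℝ (fderiv ℝ s) z ξ η| ≤
      A / s z * nuB x (dlt z ^ (1 / 4 : ℝ)) ξ * nuB x (dlt z ^ (1 / 4 : ℝ)) η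
  bm : ∀ z x, s z ≠ 0 → dlt z ≤ 1 → GoodBut s z x → ∀ ξ,
    ‖fderiv ℝ m z ξ‖ ≤ A * nuB x (dlt z ^ (1 / 4 : ℝ)) ξ
  bbm : ∀ z x, s z ≠ 0 → dlt z ≤ 1 → GoodBut s z x → ∀ ξ η,
    ‖fderiv ℝ (fderiv ℝ m) z ξ η‖ ≤
      A / s z * nuB x (dlt z ^ (1 / 4 : ℝ)) ξ * nuB x (dlt z ^ (1 / 4 : ℝ)) η
  equiv : ∀ z t, s (z + shift (rot t (m z) - m z)) = s z ∧
    m (z + shift (rot t (m z) - m z)) = rot t (m z)
  base : ∃ z, s z ≠ 0 ∧ m z = 0 ∧ 10 ≤ z (0, 0) ∧ z (0, 0) ≤ 30 ∧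
    (∀ k, k ≠ (0, 0) → |z k| ≤ 3) ∧
    (∀ c, fderiv ℝ s z (shift c) = 0) ∧ ∀ c, fderiv ℝ m z (shift c) = c

/-- `p` as a function on the plane -/
def PP (p : ℝ → ℝ → ℝ) : ℝ × ℝ → ℝ := fun t => p t.1 t.2

/-- the derivative in the first variable -/
noncomputable def pz (p : ℝ → ℝ → ℝ) (z s : ℝ) : ℝ := fderiv ℝ (PP p) (z, s) (1, 0)

/-- the derivative in the second variable -/
noncomputable def ps (p : ℝ → ℝ → ℝ) (z s : ℝ) : ℝ := fderiv ℝ (PP p) (z, s) (0, 1)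

structure PData (p : ℝ → ℝ → ℝ) (A : ℝ) : Prop where
  one_le : 1 ≤ A
  smooth : ∀ z s, 0 < s → ContDiffAt ℝ 2 (PP p) (z, s)
  ge_one : ∀ z s, 0 < s → 1 ≤ pz p z s
  le : ∀ z s, 0 < s → s ≤ 1 → pz p z s ≤ A * s ^ (-(7 / 8) : ℝ)
  ps_le : ∀ z s, 0 < s → |ps p z s| ≤ pz p z s
  dd : ∀ z s, 0 < s → s ≤ 1 → ∀ a b : ℝ × ℝ,
    |fderiv ℝ (fderiv ℝ (PP p)) (z, s) a b| ≤ A * s ^ (-(65 / 64) : ℝ) * pz p z s * ‖a‖ * ‖b‖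
  far : ∀ z s, 0 < s → s < Metric.infDist z CC →
    pz p z s = 1 ∧ ps p z s = 0 ∧ fderiv ℝ (fderiv ℝ (PP p)) (z, s) = 0
  maj : ∀ B, 1 ≤ B → ∀ R : ℝ, ∃ M : ℝ, ∀ s1, 0 < s1 → s1 ≤ 1 → ∃ r : ℝ → ℝ≥0∞, Measurable r ∧
    (∀ z s, s1 ≤ s → s ≤ B * s1 → ENNReal.ofReal (pz p z s) ≤ r z) ∧
    ∫⁻ z in Icc (-R) R, r z ≤ ENNReal.ofReal M
  zero : ∀ z s, 0 < s → p (z - s) s ≤ p z 0 ∧ p z 0 ≤ p (z + s) s
  cont0 : Continuous fun z => p z 0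
  mono0 : StrictMono fun z => p z 0
  bd : ∀ z s, 0 ≤ s → z ≤ p z s ∧ p z s ≤ z + 1
  pos : 0 < volume ((fun z => p z 0) '' CC)

/-! ## The map -/

noncomputable def GG (p : ℝ → ℝ → ℝ) (s : Z8 → ℝ) (z : Z8) : Z8 := fun k => p (z k) (s z)

/-- the inverse of `GG` -/
noncomputable def Gi (p : ℝ → ℝ → ℝ) (s : Z8 → ℝ) : Z8 → Z8 := Function.invFun (GG p s)

noncomputable def eps (s : ℝ) : ℝ := s ^ (4 / 5 : ℝ)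

noncomputable def th (u s : ℝ) : ℝ := 2 * Real.pi * Real.smoothTransition (u / eps s)

noncomputable def cc (s : Z8 → ℝ) (m : Z8 → V2) (u : ℝ) (z : Z8) : V2 :=
  rot (th u (s z)) (m z) - m z

noncomputable def RR (s : Z8 → ℝ) (m : Z8 → V2) (u : ℝ) (z : Z8) : Z8 := z + shift (cc s m u z)

/-- `G(R(u,z))` -/
noncomputable def Phi (p : ℝ → ℝ → ℝ) (s : Z8 → ℝ) (m : Z8 → V2) (u : ℝ) (z : Z8) : Z8 :=
  GG p s (RR s m u z)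

/-- the homeomorphism -/
noncomputable def ff (p : ℝ → ℝ → ℝ) (s : Z8 → ℝ) (m : Z8 → V2) (t : E9) : E9 :=
  (t.1, Phi p s m t.1 (Gi p s t.2))

end Pool.Agent.Wtw
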