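import Mathlib
import Pool.Agent.Wtw.Abs

/-!
# Qinv: the function `p` and its inverse in the first variable (from `PData`)

* `p_diag`: for `0 < σ <= σ'`: `t ↦ p (z + t) (σ + t)` has derivative `pz + ps >= 0` and
  `t ↦ p (z - t) (σ + t)` has derivative `-pz + ps <= 0` (`ps_le`); for `σ = 0` it is the field `zero`.
* `p_grow`: for `σ > 0` mean value theorem with `pz >= 1`; for `σ = 0`:
  `p z 0 >= p (z - s) s >= p (z' + s) s + (z - z' - 2 s) >= p z' 0 + (z - z' - 2 s)`, `s → 0`.
* so `p . σ` is strictly increasing, continuous, unbounded in both directions (`bd`): bijective.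
* `qq y σ` = inverse. `|qq y σ - qq y' σ| <= |y - y'|` by `p_grow`; `|qq y σ - qq y σ'| <= |σ - σ'|` by `p_diag`
  (`z = qq y σ`: `p (z - (σ'-σ)) σ' <= y <= p (z + (σ'-σ)) σ'`).
* `p_joint`: continuity on `{σ >= 0}`: at `σ > 0` by `smooth`; at `(z0, 0)`:
  `p (z - σ) 0 <= p z σ <= p (z + σ) 0` (from `p_diag`) and `cont0`.
-/

namespace Pool.Agent.Wtw

open MeasureTheory Set Filter Topology
open scoped ENNReal

variable {p : ℝ → ℝ → ℝ} {A : ℝ}

/-- the inverse of `p . σ` -/
noncomputable def qq (p : ℝ → ℝ → ℝ) (y σ : ℝ) : ℝ := Function.invFun (fun z => p z σ) y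

theorem Qinv_deriv (h : PData p A) (z σ a b t : ℝ) (ht : 0 < σ + b * t) :
    HasDerivAt (fun t => p (z + a * t) (σ + b * t))
      (a * pz p (z + a * t) (σ + b * t) + b * ps p (z + a * t) (σ + b * t)) t := by
  have h1 : HasFDerivAt (PP p) (fderiv ℝ (PP p) (z + a * t, σ + b * t)) (z + a * t, σ + b * t) :=
    ((h.smooth (z + a * t) (σ + b * t) ht).differentiableAt (by norm_num)).hasFDerivAt
  have h2 : HasDerivAt (fun t : ℝ => (z + a * t, σ + b * t)) ((a, b) : ℝ × ℝ) t := by
    have h3 : HasDerivAt (fun t : ℝ => z + a * t) a t := by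
      simpa using ((hasDerivAt_id t).const_mul a).const_add z
    have h4 : HasDerivAt (fun t : ℝ => σ + b * t) b t := by
      simpa using ((hasDerivAt_id t).const_mul b).const_add σ
    exact h3.prodMk h4
  have h5 := h1.comp_hasDerivAt t h2
  have e : fderiv ℝ (PP p) (z + a * t, σ + b * t) (a, b) =
      a * pz p (z + a * t) (σ + b * t) + b * ps p (z + a * t) (σ + b * t) := by
    have : ((a, b) : ℝ × ℝ) = a • ((1, 0) : ℝ × ℝ) + b • ((0, 1) : ℝ × ℝ) := by simp
    rw [this, map_add, map_smul, map_smul]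
    rfl
  rw [← e]
  exact h5

theorem Qinv_mono (h : PData p A) (z σ a b c r : ℝ) (hr : 0 ≤ r) (hpos : ∀ t ∈ Icc 0 r, 0 < σ + b * t)
    (hd : ∀ t ∈ Icc 0 r, c ≤ a * pz p (z + a * t) (σ + b * t) + b * ps p (z + a * t) (σ + b * t)) :
    c * r ≤ p (z + a * r) (σ + b * r) - p z σ := by
  have h1 : MonotoneOn (fun t => p (z + a * t) (σ + b * t) - c * t) (Icc 0 r) := by
    have hder : ∀ t ∈ Icc 0 r, HasDerivAt (fun t => p (z + a * t) (σ + b * t) - c * t)
        (a * pz p (z + a * t) (σ + b * t) + b * ps p (z + a * t) (σ + b * t) - c) t := by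
      intro t ht
      have h3 : HasDerivAt (fun t : ℝ => c * t) c t := by
        simpa using (hasDerivAt_id t).const_mul c
      exact (Qinv_deriv h z σ a b t (hpos t ht)).sub h3
    refine monotoneOn_of_deriv_nonneg (convex_Icc 0 r) ?_ ?_ ?_
    · exact fun t ht => (hder t ht).continuousAt.continuousWithinAt
    · exact fun t ht => (hder t (interior_subset ht)).differentiableAt.differentiableWithinAt
    · intro t ht
      rw [(hder t (interior_subset ht)).deriv]
      linarith [hd t (interior_subset ht)]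
  have h2 := h1 (left_mem_Icc.2 hr) (right_mem_Icc.2 hr) hr
  simp only [mul_zero, add_zero, sub_zero] at h2
  linarith

theorem p_diag (h : PData p A) (z σ σ' : ℝ) (h0 : 0 ≤ σ) (h1 : σ ≤ σ') :
    p (z - (σ' - σ)) σ' ≤ p z σ ∧ p z σ ≤ p (z + (σ' - σ)) σ' := by
  rcases h0.eq_or_lt with h0 | h0
  · subst h0
    rcases h1.eq_or_lt with h1 | h1
    · subst h1
      simp
    · rw [sub_zero]
      exact h.zero z σ' h1
  · have hr : 0 ≤ σ' - σ := sub_nonneg.2 h1
    have hpos : ∀ t ∈ Icc 0 (σ' - σ), 0 < σ + 1 * t := fun t ht => by linarith [ht.1]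
    constructor
    · -- use the path `z - (σ'-σ) + t` backwards: derivative of `p (z - t) (σ + t)` is `≤ 0`
      have h3 : MonotoneOn (fun t => -p (z + (-1) * t) (σ + 1 * t)) (Icc 0 (σ' - σ)) := by
        have hder : ∀ t ∈ Icc 0 (σ' - σ), HasDerivAt (fun t => -p (z + (-1) * t) (σ + 1 * t))
            (-((-1) * pz p (z + (-1) * t) (σ + 1 * t) + 1 * ps p (z + (-1) * t) (σ + 1 * t))) t :=
          fun t ht => (Qinv_deriv h z σ (-1) 1 t (hpos t ht)).neg
        refine monotoneOn_of_deriv_nonneg (convex_Icc 0 _) ?_ ?_ ?_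
        · exact fun t ht => (hder t ht).continuousAt.continuousWithinAt
        · exact fun t ht => (hder t (interior_subset ht)).differentiableAt.differentiableWithinAt
        · intro t ht
          rw [(hder t (interior_subset ht)).deriv]
          have := h.ps_le (z + (-1) * t) (σ + 1 * t) (hpos t (interior_subset ht))
          linarith [(abs_le.1 this).2]
      have h4 := h3 (left_mem_Icc.2 hr) (right_mem_Icc.2 hr) hr
      simp only [mul_zero, add_zero, one_mul, add_sub_cancel] at h4
      have e : z + (-1) * (σ' - σ) = z - (σ' - σ) := by ring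
      rw [e] at h4
      linarith
    · have h3 := Qinv_mono h z σ 1 1 0 (σ' - σ) hr hpos (fun t ht => by
        have := h.ps_le (z + 1 * t) (σ + 1 * t) (hpos t ht)
        linarith [(abs_le.1 this).1])
      simp only [one_mul, zero_mul, add_sub_cancel] at h3
      linarith

theorem p_grow (h : PData p A) (z z' σ : ℝ) (h0 : 0 ≤ σ) (hz : z' ≤ z) :
    z - z' ≤ p z σ - p z' σ := by
  have key : ∀ σ, 0 < σ → ∀ z z', z' ≤ z → z - z' ≤ p z σ - p z' σ := by
    intro σ hσ z z' hz
    have h3 := Qinv_mono h z' σ 1 0 1 (z - z') (sub_nonneg.2 hz) (fun t _ => by linarith)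
      (fun t _ => by
        have := h.ge_one (z' + 1 * t) (σ + 0 * t) (by linarith)
        linarith)
    simp only [one_mul, zero_mul, add_zero, add_sub_cancel] at h3
    exact h3
  rcases h0.eq_or_lt with h0 | h0
  · subst h0
    rcases hz.eq_or_lt with hz | hz
    · subst hz; simp
    · refine le_of_forall_pos_le_add fun ε hε => ?_
      set s := min (ε / 2) ((z - z') / 2) with hs
      have hs0 : 0 < s := lt_min (by linarith) (by linarith)
      have hs1 : s ≤ ε / 2 := min_le_left _ _
      have hs2 : s ≤ (z - z') / 2 := min_le_right _ _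
      have h3 := (h.zero z s hs0).1
      have h4 := (h.zero z' s hs0).2
      have h5 := key s hs0 (z - s) (z' + s) (by linarith)
      linarith
  · exact key σ h0 z z' hz

theorem p_strict (h : PData p A) (σ : ℝ) (h0 : 0 ≤ σ) : StrictMono fun z => p z σ := by
  intro z' z hz
  have := p_grow h z z' σ h0 hz.le
  show p z' σ < p z σ
  linarith

theorem p_joint (h : PData p A) : ContinuousOn (PP p) {t | 0 ≤ t.2} := by
  rintro ⟨z0, σ0⟩ h0
  have h0 : 0 ≤ σ0 := h0
  rcases h0.eq_or_lt with h0 | h0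
  · subst h0
    have c1 : Continuous fun t : ℝ × ℝ => p (t.1 - t.2) 0 :=
      h.cont0.comp (continuous_fst.sub continuous_snd)
    have c2 : Continuous fun t : ℝ × ℝ => p (t.1 + t.2) 0 :=
      h.cont0.comp (continuous_fst.add continuous_snd)
    have t1 : Tendsto (fun t : ℝ × ℝ => p (t.1 - t.2) 0) (𝓝[{t | 0 ≤ t.2}] (z0, 0))
        (𝓝 (PP p (z0, 0))) := by
      have := c1.tendsto (z0, 0)
      simp only [sub_zero] at this
      exact this.mono_left nhdsWithin_le_nhds
    have t2 : Tendsto (fun t : ℝ × ℝ => p (t.1 + t.2) 0) (𝓝[{t | 0 ≤ t.2}] (z0, 0))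
        (𝓝 (PP p (z0, 0))) := by
      have := c2.tendsto (z0, 0)
      simp only [add_zero] at this
      exact this.mono_left nhdsWithin_le_nhds
    refine tendsto_of_tendsto_of_tendsto_of_le_of_le' t1 t2 ?_ ?_
    · filter_upwards [self_mem_nhdsWithin] with t ht
      have := (p_diag h (t.1 - t.2) 0 t.2 le_rfl ht).2
      rw [sub_zero, sub_add_cancel] at this
      exact this
    · filter_upwards [self_mem_nhdsWithin] with t ht
      have := (p_diag h (t.1 + t.2) 0 t.2 le_rfl ht).1
      rw [sub_zero, add_sub_cancel_right] at this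
      exact this
  · exact (h.smooth z0 σ0 h0).continuousAt.continuousWithinAt

theorem Qinv_cont (h : PData p A) (σ : ℝ) (h0 : 0 ≤ σ) : Continuous fun z => p z σ := by
  have h1 : Continuous fun z : ℝ => ((z, σ) : ℝ × ℝ) := by fun_prop
  exact (p_joint h).comp_continuous h1 (fun z => h0)

theorem p_bij (h : PData p A) (σ : ℝ) (h0 : 0 ≤ σ) : Function.Bijective fun z => p z σ := by
  refine ⟨(p_strict h σ h0).injective, (Qinv_cont h σ h0).surjective ?_ ?_⟩
  · exact tendsto_atTop_mono (fun z => (h.bd z σ h0).1) tendsto_id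
  · exact tendsto_atBot_mono (fun z => (h.bd z σ h0).2)
      (tendsto_atBot_add_const_right _ 1 tendsto_id)

theorem p_qq (h : PData p A) (y σ : ℝ) (h0 : 0 ≤ σ) : p (qq p y σ) σ = y :=
  Function.rightInverse_invFun (p_bij h σ h0).2 y

theorem qq_p (h : PData p A) (z σ : ℝ) (h0 : 0 ≤ σ) : qq p (p z σ) σ = z :=
  Function.leftInverse_invFun (p_bij h σ h0).1 z

theorem qq_lip (h : PData p A) (y y' σ σ' : ℝ) (h0 : 0 ≤ σ) (h0' : 0 ≤ σ') :
    |qq p y σ - qq p y' σ'| ≤ |y - y'| + |σ - σ'| := by
  have h1 : ∀ y y', |qq p y σ - qq p y' σ| ≤ |y - y'| := by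
    intro y y'
    have e := p_qq h y σ h0
    have e' := p_qq h y' σ h0
    rcases le_total (qq p y' σ) (qq p y σ) with hz | hz
    · have := p_grow h _ _ σ h0 hz
      rw [e, e'] at this
      rw [abs_of_nonneg (by linarith)]
      exact this.trans (le_abs_self _)
    · have := p_grow h _ _ σ h0 hz
      rw [e, e'] at this
      rw [abs_of_nonpos (by linarith), abs_sub_comm]
      exact (by linarith : -(qq p y σ - qq p y' σ) ≤ y' - y).trans (le_abs_self _)
  have h2 : ∀ y σ σ', 0 ≤ σ → σ ≤ σ' → |qq p y σ - qq p y σ'| ≤ σ' - σ := by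
    intro y σ σ' h0 hle
    have h0' : 0 ≤ σ' := h0.trans hle
    have e := p_qq h y σ h0
    have e' := p_qq h y σ' h0'
    have h3 := p_diag h (qq p y σ) σ σ' h0 hle
    rw [e] at h3
    have h4 : qq p y σ - (σ' - σ) ≤ qq p y σ' := by
      refine (p_strict h σ' h0').le_iff_le.1 ?_
      show p _ σ' ≤ p _ σ'
      rw [e']; exact h3.1
    have h5 : qq p y σ' ≤ qq p y σ + (σ' - σ) := by
      refine (p_strict h σ' h0').le_iff_le.1 ?_
      show p _ σ' ≤ p _ σ'
      rw [e']; exact h3.2
    rw [abs_le]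
    constructor <;> linarith
  have h3 : |qq p y' σ - qq p y' σ'| ≤ |σ - σ'| := by
    rcases le_total σ σ' with hle | hle
    · refine (h2 y' σ σ' h0 hle).trans ?_
      rw [abs_sub_comm]; exact le_abs_self _
    · rw [abs_sub_comm]
      exact (h2 y' σ' σ h0' hle).trans (le_abs_self _)
  calc |qq p y σ - qq p y' σ'| ≤ |qq p y σ - qq p y' σ| + |qq p y' σ - qq p y' σ'| :=
        abs_sub_le _ _ _
    _ ≤ |y - y'| + |σ - σ'| := add_le_add (h1 y y') h3

end Pool.Agent.Wtw
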