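import Mathlib
import Pool.Agent.Wtw.Qinv

/-!
# Gbij: `GG z k = p (z k) (s z)` is a homeomorphism of `Z8` with Lipschitz inverse

* continuity: `p_joint`, `s` continuous (`lip`), `s >= 0`.
* `z_k = qq (y_k) (s z)` if `y = GG z`, so `|z_k - z'_k| <= |y_k - y'_k| + |s z - s z'| <= |y - y'| + |z - z'|/32`:
  injective, and the inverse is 2-Lipschitz.
* surjective: for given `y` the map `σ ↦ s (k ↦ qq (y_k) σ)` of `[0, ∞)` is a contraction (`qq_lip`, `lip`);
  its fixed point `σ` gives `z = (qq (y_k) σ)_k`, `s z = σ`, `GG z = y`.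
-/

namespace Pool.Agent.Wtw

open MeasureTheory Set Filter Topology
open scoped ENNReal

variable {p : ℝ → ℝ → ℝ} {A B : ℝ} {s : Z8 → ℝ} {m : Z8 → V2}

theorem s_cont (hs : SData s m B) : Continuous s := by
  have : LipschitzWith (1 / 32) s := by
    apply LipschitzWith.of_dist_le_mul
    intro z z'
    rw [Real.dist_eq, dist_eq_norm]
    have := hs.lip z z'
    push_cast
    linarith
  exact this.continuous

theorem GG_cont (hp : PData p A) (hs : SData s m B) : Continuous (GG p s) := by
  apply continuous_pi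
  intro k
  have h1 : Continuous fun z : Z8 => (z k, s z) := (continuous_apply k).prodMk (s_cont hs)
  exact (p_joint hp).comp_continuous h1 (fun z => hs.nonneg z)

theorem GG_low (hp : PData p A) (hs : SData s m B) (z z' : Z8) :
    ‖z - z'‖ ≤ 2 * ‖GG p s z - GG p s z'‖ := by
  have h1 : ‖z - z'‖ ≤ ‖GG p s z - GG p s z'‖ + ‖z - z'‖ / 32 := by
    apply (pi_norm_le_iff_of_nonneg (by positivity)).2
    intro k
    have e1 : z k = qq p (GG p s z k) (s z) := (qq_p hp (z k) (s z) (hs.nonneg z)).symm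
    have e2 : z' k = qq p (GG p s z' k) (s z') := (qq_p hp (z' k) (s z') (hs.nonneg z')).symm
    have h2 := qq_lip hp (GG p s z k) (GG p s z' k) (s z) (s z') (hs.nonneg z) (hs.nonneg z')
    rw [← e1, ← e2] at h2
    have h3 := hs.lip z z'
    have h4 : |GG p s z k - GG p s z' k| ≤ ‖GG p s z - GG p s z'‖ :=
      norm_le_pi_norm (GG p s z - GG p s z') k
    rw [Real.norm_eq_abs]
    show |z k - z' k| ≤ _
    linarith
  have h2 := norm_nonneg (z - z')
  linarith

theorem GG_inj (hp : PData p A) (hs : SData s m B) : Function.Injective (GG p s) := by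
  intro z z' h
  have := GG_low hp hs z z'
  rw [h, sub_self, norm_zero, mul_zero] at this
  exact sub_eq_zero.1 (norm_le_zero_iff.1 this)

theorem GG_surj (hp : PData p A) (hs : SData s m B) : Function.Surjective (GG p s) := by
  intro y
  have hq : ∀ k, ContinuousOn (fun σ => qq p (y k) σ) (Icc 0 (1 / 2)) := by
    intro k
    have : LipschitzOnWith 1 (fun σ => qq p (y k) σ) (Icc 0 (1 / 2)) := by
      apply LipschitzOnWith.of_dist_le_mul
      intro a ha b hb
      have := qq_lip hp (y k) (y k) a b ha.1 hb.1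
      rw [Real.dist_eq, Real.dist_eq]
      simpa using this
    exact this.continuousOn
  have hT : ContinuousOn (fun σ => s fun k => qq p (y k) σ) (Icc 0 (1 / 2)) :=
    (s_cont hs).comp_continuousOn (continuousOn_pi.2 hq)
  obtain ⟨σ, hσ, hfix⟩ := exists_mem_Icc_isFixedPt_of_mapsTo hT (by norm_num : (0 : ℝ) ≤ 1 / 2)
    (fun σ _ => ⟨hs.nonneg _, hs.le_half _⟩)
  refine ⟨fun k => qq p (y k) σ, ?_⟩
  have hfix' : (s fun k => qq p (y k) σ) = σ := hfix
  funext k
  show p (qq p (y k) σ) (s fun k => qq p (y k) σ) = y k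
  rw [hfix']
  exact p_qq hp (y k) σ hσ.1

theorem GG_bij (hp : PData p A) (hs : SData s m B) : Function.Bijective (GG p s) :=
  ⟨GG_inj hp hs, GG_surj hp hs⟩

theorem Gi_GG (hp : PData p A) (hs : SData s m B) (z : Z8) : Gi p s (GG p s z) = z :=
  Function.leftInverse_invFun (GG_inj hp hs) z

theorem GG_Gi (hp : PData p A) (hs : SData s m B) (y : Z8) : GG p s (Gi p s y) = y :=
  Function.rightInverse_invFun (GG_surj hp hs) y

theorem Gi_lip (hp : PData p A) (hs : SData s m B) (y y' : Z8) :
    ‖Gi p s y - Gi p s y'‖ ≤ 2 * ‖y - y'‖ := by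
  have := GG_low hp hs (Gi p s y) (Gi p s y')
  rwa [GG_Gi hp hs, GG_Gi hp hs] at this

theorem Gi_cont (hp : PData p A) (hs : SData s m B) : Continuous (Gi p s) := by
  have : LipschitzWith 2 (Gi p s) := by
    apply LipschitzWith.of_dist_le_mul
    intro y y'
    rw [dist_eq_norm, dist_eq_norm]
    exact Gi_lip hp hs y y'
  exact this.continuous

theorem GG_near (hp : PData p A) (hs : SData s m B) (z : Z8) (k : Idx) :
    z k ≤ GG p s z k ∧ GG p s z k ≤ z k + 1 :=
  hp.bd (z k) (s z) (hs.nonneg z)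

theorem Gi_near (hp : PData p A) (hs : SData s m B) (y : Z8) : ‖Gi p s y - y‖ ≤ 1 := by
  apply (pi_norm_le_iff_of_nonneg zero_le_one).2
  intro k
  have h := GG_near hp hs (Gi p s y) k
  rw [GG_Gi hp hs] at h
  rw [Real.norm_eq_abs]
  show |Gi p s y k - y k| ≤ 1
  rw [abs_le]
  constructor <;> linarith [h.1, h.2]

end Pool.Agent.Wtw
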