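import Mathlib
import Pool.Agent.Wtw.Gbij

/-!
# GDer: the derivative of `GG` at points with `s z /= 0`

`GG z k = PP p (z k, s z)`. `D GG z ξ k = pz ξ_k + ps Ds ξ` at `(z k, s z)`. `|Ds ξ| <= |ξ|/32` from `lip`.
If `D GG z ξ = v`: `ξ_k = v_k/pz_k - (ps_k/pz_k) Ds ξ`, `|ps_k/pz_k| <= 1`, so `|ξ| <= max |v_k|/pz_k + |ξ|/32`.
Hence injective, an isomorphism.
-/

namespace Pool.Agent.Wtw

open MeasureTheory Set Filter Topology
open scoped ENNReal

variable {p : ℝ → ℝ → ℝ} {A B : ℝ} {s : Z8 → ℝ} {m : Z8 → V2}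

theorem s_pos (hs : SData s m B) (z : Z8) (hz : s z ≠ 0) : 0 < s z :=
  lt_of_le_of_ne (hs.nonneg z) (Ne.symm hz)

theorem GDer_s_diff (hs : SData s m B) (z : Z8) (hz : s z ≠ 0) : HasFDerivAt s (fderiv ℝ s z) z :=
  ((hs.smooth_s z hz).differentiableAt (by norm_num)).hasFDerivAt

theorem ds_lip (hs : SData s m B) (z : Z8) (hz : s z ≠ 0) (ξ : Z8) :
    |fderiv ℝ s z ξ| ≤ ‖ξ‖ / 32 := by
  have h1 : ‖fderiv ℝ s z‖ ≤ 1 / 32 := by
    refine (GDer_s_diff hs z hz).le_of_lip' (by norm_num) (Filter.Eventually.of_forall fun x => ?_)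
    have := hs.lip x z
    rw [Real.norm_eq_abs]
    linarith
  have h2 := (fderiv ℝ s z).le_opNorm ξ
  rw [Real.norm_eq_abs] at h2
  have h3 := mul_le_mul_of_nonneg_right h1 (norm_nonneg ξ)
  linarith

theorem GG_smooth (hp : PData p A) (hs : SData s m B) (z : Z8) (hz : s z ≠ 0) :
    ContDiffAt ℝ 2 (GG p s) z := by
  rw [contDiffAt_pi]
  intro k
  have h1 : ContDiffAt ℝ 2 (PP p) (z k, s z) := hp.smooth _ _ (s_pos hs z hz)
  have h2 : ContDiffAt ℝ 2 (fun x : Z8 => (x k, s x)) z :=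
    (contDiff_apply ℝ ℝ k).contDiffAt.prodMk (hs.smooth_s z hz)
  exact ContDiffAt.comp z h1 h2

theorem GG_d (hp : PData p A) (hs : SData s m B) (z : Z8) (hz : s z ≠ 0) (ξ : Z8) (k : Idx) :
    fderiv ℝ (GG p s) z ξ k = pz p (z k) (s z) * ξ k + ps p (z k) (s z) * fderiv ℝ s z ξ := by
  have h0 : HasFDerivAt (GG p s) (fderiv ℝ (GG p s) z) z :=
    ((GG_smooth hp hs z hz).differentiableAt (by norm_num)).hasFDerivAt
  have h1 : HasFDerivAt (PP p) (fderiv ℝ (PP p) (z k, s z)) (z k, s z) :=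
    ((hp.smooth _ _ (s_pos hs z hz)).differentiableAt (by norm_num)).hasFDerivAt
  have h2 : HasFDerivAt (fun x : Z8 => (x k, s x))
      ((ContinuousLinearMap.proj (R := ℝ) (φ := fun _ : Idx => ℝ) k).prod (fderiv ℝ s z)) z :=
    (hasFDerivAt_apply k z).prodMk (GDer_s_diff hs z hz)
  have h3 : HasFDerivAt (fun x : Z8 => GG p s x k)
      ((fderiv ℝ (PP p) (z k, s z)).comp
        ((ContinuousLinearMap.proj (R := ℝ) (φ := fun _ : Idx => ℝ) k).prod (fderiv ℝ s z))) z :=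
    HasFDerivAt.comp (g := PP p) (f := fun x : Z8 => (x k, s x)) z h1 h2
  have h4 : HasFDerivAt (fun x : Z8 => GG p s x k)
      ((ContinuousLinearMap.proj (R := ℝ) (φ := fun _ : Idx => ℝ) k).comp
        (fderiv ℝ (GG p s) z)) z := (hasFDerivAt_pi'.1 h0) k
  have h5 := h4.unique h3
  have h6 := congrArg (fun L => L ξ) h5
  simp only [ContinuousLinearMap.comp_apply, ContinuousLinearMap.proj_apply,
    ContinuousLinearMap.prod_apply] at h6
  rw [h6]
  have h7 : ((ξ k, fderiv ℝ s z ξ) : ℝ × ℝ) =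
      (ξ k) • ((1, 0) : ℝ × ℝ) + (fderiv ℝ s z ξ) • ((0, 1) : ℝ × ℝ) := by
    simp
  rw [h7, map_add, map_smul, map_smul]
  simp only [smul_eq_mul, pz, ps]
  ring

/-- bound of the inverse with weights -/
theorem GG_d_low (hp : PData p A) (hs : SData s m B) (z : Z8) (hz : s z ≠ 0) (ξ : Z8) (r : ℝ)
    (h : ∀ k, |fderiv ℝ (GG p s) z ξ k| ≤ r * pz p (z k) (s z)) : ‖ξ‖ ≤ 2 * r := by
  have hpos := s_pos hs z hz
  have hpz : ∀ k, 1 ≤ pz p (z k) (s z) := fun k => hp.ge_one _ _ hpos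
  have hr : 0 ≤ r := by
    have h1 := (abs_nonneg _).trans (h (0, 0))
    have h2 := hpz (0, 0)
    by_contra hneg
    push Not at hneg
    nlinarith
  have hξ0 := norm_nonneg ξ
  have hds := ds_lip hs z hz ξ
  have key : ∀ k, |ξ k| ≤ r + ‖ξ‖ / 32 := by
    intro k
    have h1 := GG_d hp hs z hz ξ k
    have h2 := h k
    have h3 := hp.ps_le (z k) (s z) hpos
    have h4 := hpz k
    have h5 : pz p (z k) (s z) * ξ k =
        fderiv ℝ (GG p s) z ξ k - ps p (z k) (s z) * fderiv ℝ s z ξ := by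
      rw [h1]; ring
    have h6 : pz p (z k) (s z) * |ξ k| ≤ pz p (z k) (s z) * (r + ‖ξ‖ / 32) := by
      have h7 : pz p (z k) (s z) * |ξ k| = |pz p (z k) (s z) * ξ k| := by
        rw [abs_mul, abs_of_pos (show 0 < pz p (z k) (s z) by linarith)]
      rw [h7, h5]
      refine (abs_sub _ _).trans ?_
      rw [abs_mul]
      have h8 : |ps p (z k) (s z)| * |fderiv ℝ s z ξ| ≤ pz p (z k) (s z) * (‖ξ‖ / 32) :=
        mul_le_mul h3 hds (abs_nonneg _) (by linarith)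
      nlinarith
    exact le_of_mul_le_mul_left h6 (by linarith)
  have h2 : ‖ξ‖ ≤ r + ‖ξ‖ / 32 := by
    rw [pi_norm_le_iff_of_nonneg (by positivity)]
    intro k
    rw [Real.norm_eq_abs]
    exact key k
  linarith

theorem GG_d_up (hp : PData p A) (hs : SData s m B) (z : Z8) (hz : s z ≠ 0) (ξ : Z8) (k : Idx) :
    |fderiv ℝ (GG p s) z ξ k| ≤ 2 * pz p (z k) (s z) * ‖ξ‖ := by
  have hpos := s_pos hs z hz
  have hpz : 1 ≤ pz p (z k) (s z) := hp.ge_one _ _ hpos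
  have hξ0 := norm_nonneg ξ
  rw [GG_d hp hs z hz ξ k]
  refine (abs_add_le _ _).trans ?_
  rw [abs_mul, abs_mul, abs_of_pos (show 0 < pz p (z k) (s z) by linarith)]
  have h1 : |ξ k| ≤ ‖ξ‖ := by
    rw [← Real.norm_eq_abs]
    exact norm_le_pi_norm ξ k
  have h2 : |ps p (z k) (s z)| * |fderiv ℝ s z ξ| ≤ pz p (z k) (s z) * (‖ξ‖ / 32) :=
    mul_le_mul (hp.ps_le _ _ hpos) (ds_lip hs z hz ξ) (abs_nonneg _) (by linarith)
  nlinarith

theorem GG_equiv (hp : PData p A) (hs : SData s m B) (z : Z8) (hz : s z ≠ 0) :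
    ∃ e : Z8 ≃L[ℝ] Z8, (e : Z8 →L[ℝ] Z8) = fderiv ℝ (GG p s) z := by
  have hinj : Function.Injective (fderiv ℝ (GG p s) z : Z8 →ₗ[ℝ] Z8) := by
    rw [← LinearMap.ker_eq_bot, LinearMap.ker_eq_bot']
    intro ξ hξ
    have h1 := GG_d_low hp hs z hz ξ 0 (fun k => by
      have h2 : fderiv ℝ (GG p s) z ξ = 0 := hξ
      rw [h2]
      simp)
    have h3 : ‖ξ‖ = 0 := le_antisymm (by linarith) (norm_nonneg _)
    exact norm_eq_zero.1 h3
  refine ⟨(LinearEquiv.ofInjectiveEndo _ hinj).toContinuousLinearEquiv, ?_⟩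
  ext ξ k
  rfl

end Pool.Agent.Wtw
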