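import Mathlib
import Pool.Agent.Wtw.GDer
import Pool.Agent.Wtw.Chain2

/-!
# GiSm: `Gi` is `C^2` near `y` with `s (Gi y) /= 0`

Inverse function theorem (`ContDiffAt.to_localInverse` and continuity of `Gi`, or
`Homeomorph`/`OpenPartialHomeomorph.contDiffAt_symm`): `GG` is `C^2` at `Gi y` with invertible derivative
(`GG_equiv`), `Gi` is its continuous inverse.
-/

namespace Pool.Agent.Wtw

open MeasureTheory Set Filter Topology
open scoped ENNReal

variable {p : ℝ → ℝ → ℝ} {A B : ℝ} {s : Z8 → ℝ} {m : Z8 → V2}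

theorem Gi_smooth (hp : PData p A) (hs : SData s m B) (y : Z8) (hy : s (Gi p s y) ≠ 0) :
    ContDiffAt ℝ 2 (Gi p s) y := by
  obtain ⟨e, he⟩ := GG_equiv hp hs (Gi p s y) hy
  have hsm : ContDiffAt ℝ 2 (GG p s) (Gi p s y) := GG_smooth hp hs _ hy
  let H : Z8 ≃ₜ Z8 :=
    { toFun := GG p s
      invFun := Gi p s
      left_inv := Gi_GG hp hs
      right_inv := GG_Gi hp hs
      continuous_toFun := GG_cont hp hs
      continuous_invFun := Gi_cont hp hs }
  have hd : HasFDerivAt (GG p s) (e : Z8 →L[ℝ] Z8) (Gi p s y) := by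
    rw [he]
    exact (hsm.differentiableAt (by norm_num)).hasFDerivAt
  exact H.toOpenPartialHomeomorph.contDiffAt_symm (a := y) (f₀' := e) trivial hd hsm

theorem Gi_d (hp : PData p A) (hs : SData s m B) (y : Z8) (hy : s (Gi p s y) ≠ 0) (v : Z8) :
    fderiv ℝ (GG p s) (Gi p s y) (fderiv ℝ (Gi p s) y v) = v := by
  have h1 : DifferentiableAt ℝ (GG p s) (Gi p s y) :=
    (GG_smooth hp hs _ hy).differentiableAt (by norm_num)
  have h2 : DifferentiableAt ℝ (Gi p s) y :=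
    (Gi_smooth hp hs _ hy).differentiableAt (by norm_num)
  have h3 : HasFDerivAt (fun t => GG p s (Gi p s t))
      ((fderiv ℝ (GG p s) (Gi p s y)).comp (fderiv ℝ (Gi p s) y)) y :=
    h1.hasFDerivAt.comp y h2.hasFDerivAt
  have h4 : (fun t => GG p s (Gi p s t)) = id := funext (GG_Gi hp hs)
  rw [h4] at h3
  have h5 := h3.unique (hasFDerivAt_id y)
  have h6 := congrArg (fun L : Z8 →L[ℝ] Z8 => L v) h5
  simpa using h6

theorem Gi_d' (hp : PData p A) (hs : SData s m B) (y : Z8) (hy : s (Gi p s y) ≠ 0) (v : Z8) :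
    fderiv ℝ (Gi p s) y (fderiv ℝ (GG p s) (Gi p s y) v) = v := by
  have h1 : DifferentiableAt ℝ (GG p s) (Gi p s y) :=
    (GG_smooth hp hs _ hy).differentiableAt (by norm_num)
  have h2 : DifferentiableAt ℝ (Gi p s) (GG p s (Gi p s y)) := by
    rw [GG_Gi hp hs]
    exact (Gi_smooth hp hs _ hy).differentiableAt (by norm_num)
  have h3 : HasFDerivAt (fun t => Gi p s (GG p s t))
      ((fderiv ℝ (Gi p s) (GG p s (Gi p s y))).comp (fderiv ℝ (GG p s) (Gi p s y)))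
      (Gi p s y) :=
    h2.hasFDerivAt.comp (Gi p s y) h1.hasFDerivAt
  have h4 : (fun t => Gi p s (GG p s t)) = id := funext (Gi_GG hp hs)
  rw [h4, GG_Gi hp hs] at h3
  have h5 := h3.unique (hasFDerivAt_id _)
  have h6 := congrArg (fun L : Z8 →L[ℝ] Z8 => L v) h5
  simpa using h6

/-- second derivative of the inverse: `D^2 g v w = - Dg (D^2 G (Dg v) (Dg w))` -/
theorem Gi_dd (hp : PData p A) (hs : SData s m B) (y : Z8) (hy : s (Gi p s y) ≠ 0) (v w : Z8) :
    fderiv ℝ (fderiv ℝ (Gi p s)) y v w =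
      -fderiv ℝ (Gi p s) y (fderiv ℝ (fderiv ℝ (GG p s)) (Gi p s y)
        (fderiv ℝ (Gi p s) y v) (fderiv ℝ (Gi p s) y w)) := by
  have h1 := fderiv2_comp (GG_smooth hp hs _ hy) (Gi_smooth hp hs _ hy) v w
  have h4 : (fun t => GG p s (Gi p s t)) = fun t => (ContinuousLinearMap.id ℝ Z8) t :=
    funext (GG_Gi hp hs)
  rw [h4, fderiv2_lin (ContinuousLinearMap.id ℝ Z8) y] at h1
  have h2 : fderiv ℝ (GG p s) (Gi p s y) (fderiv ℝ (fderiv ℝ (Gi p s)) y v w) =
      -fderiv ℝ (fderiv ℝ (GG p s)) (Gi p s y)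
        (fderiv ℝ (Gi p s) y v) (fderiv ℝ (Gi p s) y w) := by
    have h1' : (0 : Z8) = fderiv ℝ (fderiv ℝ (GG p s)) (Gi p s y) (fderiv ℝ (Gi p s) y v)
        (fderiv ℝ (Gi p s) y w) +
        fderiv ℝ (GG p s) (Gi p s y) (fderiv ℝ (fderiv ℝ (Gi p s)) y v w) := by
      simpa using h1
    exact eq_neg_of_add_eq_zero_right h1'.symm
  have h3 := Gi_d' hp hs y hy (fderiv ℝ (fderiv ℝ (Gi p s)) y v w)
  rw [← h3, h2, map_neg]

end Pool.Agent.Wtw
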