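import Mathlib
import Pool.Agent.Wtw.Abs

/-!
# Dig1: the Cantor set `CC` (base 256, digits 0 and 1)

`beta` is continuous on the compact space `Dg = ℕ → Bool` (uniformly convergent series, terms
`<= 256^-(k+1)`), so `CC = range beta` is compact and nonempty, contained in `[0, 1/255]`.

First difference: if `x, y` agree before `k` and differ at `k` then
`|beta x - beta y| = 256^-(k+1) +- (tail <= 256^-(k+1)/255)`.
-/

namespace Pool.Agent.Wtw

open MeasureTheory Set Filter Topology
open scoped ENNReal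

theorem Dig1_hasSum (k : ℕ) : HasSum (fun j : ℕ => (1 : ℝ) / 256 ^ (j + k + 1)) (1 / 255 / 256 ^ k) := by
  have h := hasSum_geometric_of_lt_one (r := (1 / 256 : ℝ)) (by norm_num) (by norm_num)
  have h2 := h.mul_left ((1 : ℝ) / 256 ^ (k + 1))
  have e : (fun j : ℕ => (1 : ℝ) / 256 ^ (j + k + 1)) =
      fun j : ℕ => (1 : ℝ) / 256 ^ (k + 1) * (1 / 256) ^ j := by
    funext j
    rw [show j + k + 1 = (k + 1) + j by ring, pow_add, div_pow, one_pow]
    field_simp
  have e2 : (1 : ℝ) / 255 / 256 ^ k = 1 / 256 ^ (k + 1) * (1 - 1 / 256)⁻¹ := by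
    have : (1 - 1 / 256 : ℝ)⁻¹ = 256 / 255 := by norm_num
    rw [this, pow_succ]
    field_simp
  rw [e, e2]
  exact h2

theorem Dig1_tail (f : ℕ → ℝ) (hf : ∀ j, |f j| ≤ 1 / 256 ^ (j + 1)) (k : ℕ) :
    |∑' j, f (j + k)| ≤ 1 / 255 / 256 ^ k := by
  have h := Dig1_hasSum k
  have := tsum_of_norm_bounded (f := fun j => f (j + k)) h (fun j => by
    rw [Real.norm_eq_abs]
    exact hf (j + k))
  simpa [Real.norm_eq_abs] using this

theorem Dig1_summable (f : ℕ → ℝ) (hf : ∀ j, |f j| ≤ 1 / 256 ^ (j + 1)) : Summable f := by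
  apply Summable.of_norm_bounded (g := fun j : ℕ => (1 : ℝ) / 256 ^ (j + 1))
  · have := (Dig1_hasSum 0).summable
    simpa using this
  · intro j
    rw [Real.norm_eq_abs]
    exact hf j

theorem Dig1_term (b : Bool) (k : ℕ) :
    0 ≤ (if b then (1 : ℝ) else 0) / 256 ^ (k + 1) ∧
      |(if b then (1 : ℝ) else 0) / 256 ^ (k + 1)| ≤ 1 / 256 ^ (k + 1) := by
  have hp : (0 : ℝ) < 256 ^ (k + 1) := by positivity
  cases b
  · simp
  · simp

theorem beta_cont : Continuous beta := by
  unfold beta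
  apply continuous_tsum (u := fun j : ℕ => (1 : ℝ) / 256 ^ (j + 1))
  · intro k
    apply Continuous.div_const
    exact (continuous_of_discreteTopology (f := fun b : Bool => if b then (1 : ℝ) else 0)).comp
      (continuous_apply k)
  · have := (Dig1_hasSum 0).summable
    simpa using this
  · intro k x
    rw [Real.norm_eq_abs]
    exact (Dig1_term (x k) k).2

theorem beta_mem (x : Dg) : 0 ≤ beta x ∧ beta x ≤ 1 / 255 := by
  constructor
  · exact tsum_nonneg fun k => (Dig1_term (x k) k).1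
  · have := Dig1_tail (fun k => (if x k then (1 : ℝ) else 0) / 256 ^ (k + 1))
      (fun k => (Dig1_term (x k) k).2) 0
    have h2 := le_abs_self (∑' j : ℕ, (if x (j + 0) then (1 : ℝ) else 0) / 256 ^ (j + 0 + 1))
    have h3 := h2.trans this
    simpa [beta] using h3

theorem CC_compact : IsCompact CC := isCompact_range beta_cont

theorem CC_nonempty : CC.Nonempty := ⟨beta fun _ => false, mem_range_self _⟩

theorem zero_mem_CC : (0 : ℝ) ∈ CC := ⟨fun _ => false, by simp [beta]⟩

theorem CC_sub : CC ⊆ Icc 0 (1 / 255) := by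
  rintro _ ⟨x, rfl⟩
  exact beta_mem x

theorem Dig1_sub (x y : Dg) : beta x - beta y =
    ∑' k : ℕ, ((if x k then (1 : ℝ) else 0) / 256 ^ (k + 1) -
      (if y k then (1 : ℝ) else 0) / 256 ^ (k + 1)) := by
  unfold beta
  rw [Summable.tsum_sub]
  · exact Dig1_summable _ fun k => (Dig1_term (x k) k).2
  · exact Dig1_summable _ fun k => (Dig1_term (y k) k).2

theorem Dig1_d (a b : Bool) (k : ℕ) : |(if a then (1 : ℝ) else 0) / 256 ^ (k + 1) -
      (if b then (1 : ℝ) else 0) / 256 ^ (k + 1)| ≤ 1 / 256 ^ (k + 1) := by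
  have hp : (0 : ℝ) < 256 ^ (k + 1) := by positivity
  cases a <;> cases b <;> simp

/-- first difference at `k` -/
theorem beta_diff (x y : Dg) (k : ℕ) (h : ∀ j < k, x j = y j) (hk : x k ≠ y k) :
    254 / 255 / 256 ^ (k + 1) ≤ |beta x - beta y| ∧ |beta x - beta y| ≤ 256 / 255 / 256 ^ (k + 1) := by
  set f : ℕ → ℝ := fun k => ((if x k then (1 : ℝ) else 0) / 256 ^ (k + 1) -
      (if y k then (1 : ℝ) else 0) / 256 ^ (k + 1)) with hf
  have hfb : ∀ j, |f j| ≤ 1 / 256 ^ (j + 1) := fun j => Dig1_d _ _ _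
  have h1 : beta x - beta y = f k + ∑' j, f (j + (k + 1)) := by
    rw [Dig1_sub, ← (Dig1_summable f hfb).sum_add_tsum_nat_add (k + 1), Finset.sum_range_succ]
    have : ∑ j ∈ Finset.range k, f j = 0 := by
      apply Finset.sum_eq_zero
      intro j hj
      rw [hf]
      simp only
      rw [h j (Finset.mem_range.mp hj)]
      ring
    rw [this, zero_add]
  have h2 := Dig1_tail f hfb (k + 1)
  have h3 : |f k| = 1 / 256 ^ (k + 1) := by
    have hp : (0 : ℝ) < 256 ^ (k + 1) := by positivity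
    rw [hf]
    simp only
    cases hx : x k <;> cases hy : y k
    · rw [hx, hy] at hk; exact absurd rfl hk
    · simp
    · simp
    · rw [hx, hy] at hk; exact absurd rfl hk
  have h4 : |beta x - beta y| ≤ |f k| + |∑' j, f (j + (k + 1))| := by
    rw [h1]; exact abs_add_le _ _
  have h5 : |f k| - |∑' j, f (j + (k + 1))| ≤ |beta x - beta y| := by
    rw [h1]
    have := abs_sub_abs_le_abs_sub (f k) (-∑' j, f (j + (k + 1)))
    rw [abs_neg, sub_neg_eq_add] at this
    exact this
  have h6 : (254 : ℝ) / 255 / 256 ^ (k + 1) = 1 / 256 ^ (k + 1) - 1 / 255 / 256 ^ (k + 1) := by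
    field_simp; norm_num
  have h7 : (256 : ℝ) / 255 / 256 ^ (k + 1) = 1 / 256 ^ (k + 1) + 1 / 255 / 256 ^ (k + 1) := by
    field_simp; norm_num
  rw [h6, h7]
  rw [h3] at h4 h5
  constructor <;> linarith

/-- agreement of the first `k` digits -/
theorem beta_agree (x y : Dg) (k : ℕ) (h : ∀ j < k, x j = y j) :
    |beta x - beta y| ≤ 1 / 255 / 256 ^ k := by
  set f : ℕ → ℝ := fun k => ((if x k then (1 : ℝ) else 0) / 256 ^ (k + 1) -
      (if y k then (1 : ℝ) else 0) / 256 ^ (k + 1)) with hf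
  have hfb : ∀ j, |f j| ≤ 1 / 256 ^ (j + 1) := fun j => Dig1_d _ _ _
  have h1 : beta x - beta y = ∑' j, f (j + k) := by
    rw [Dig1_sub, ← (Dig1_summable f hfb).sum_add_tsum_nat_add k]
    have : ∑ j ∈ Finset.range k, f j = 0 := by
      apply Finset.sum_eq_zero
      intro j hj
      rw [hf]
      simp only
      rw [h j (Finset.mem_range.mp hj)]
      ring
    rw [this, zero_add]
  rw [h1]
  exact Dig1_tail f hfb k

/-- `infDist` to `CC` is attained -/
theorem CC_near (z : ℝ) : ∃ x : Dg, |z - beta x| = Metric.infDist z CC := by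
  obtain ⟨y, ⟨x, rfl⟩, hy⟩ := CC_compact.exists_infDist_eq_dist CC_nonempty z
  exact ⟨x, by rw [hy, Real.dist_eq]⟩

end Pool.Agent.Wtw
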