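import Mathlib
import Pool.Agent.Wtw.Defs

/-!
# Alg: linear algebra of `lamT` and `QT`

`lamT T w` is the coefficient of the orthogonal projection of `(w_i)_{i in T}` to the line of
`(n_i)_{i in T}`, `QT T w` the squared distance to that line (for `T` nonempty).
`LA T (w, s)` is the linear map with `|LA T (w,s)|^2 = s^2 + QT T w`.
Everything is finite sums; Cauchy-Schwarz / Minkowski through `LA` (Euclidean norm).
-/

namespace Pool.Agent.Wtw

open MeasureTheory Set Filter Topology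
open scoped ENNReal

theorem nn_bd (i : Fin 4) : 1 ≤ nn i ∧ nn i ≤ 4 := by
  fin_cases i <;> norm_num [nn]

theorem nn_inj (i j : Fin 4) (h : i ≠ j) : 1 ≤ |nn i - nn j| := by
  have h1 : nn i - nn j = (((i : ℕ) : ℤ) - ((j : ℕ) : ℤ) : ℤ) := by
    simp [nn]
  rw [h1, ← Int.cast_abs]
  have h2 : (1 : ℤ) ≤ |((i : ℕ) : ℤ) - ((j : ℕ) : ℤ)| := by
    apply Int.one_le_abs
    intro h3
    apply h
    apply Fin.ext
    omega
  exact_mod_cast h2

theorem Alg_den_pos (T : Finset (Fin 4)) (hT : T.Nonempty) : 0 < ∑ i ∈ T, nn i ^ 2 :=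
  Finset.sum_pos (fun i _ => by
    have := (nn_bd i).1
    positivity) hT

theorem lamT_add (T : Finset (Fin 4)) (w w' : W4) : lamT T (w + w') = lamT T w + lamT T w' := by
  simp only [lamT, Pi.add_apply, mul_add, Finset.sum_add_distrib, add_div]

theorem lamT_smul (T : Finset (Fin 4)) (c : ℝ) (w : W4) : lamT T (c • w) = c * lamT T w := by
  simp only [lamT, Pi.smul_apply, smul_eq_mul]
  rw [← mul_div_assoc, Finset.mul_sum]
  congr 1
  exact Finset.sum_congr rfl fun i _ => by ring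

theorem lamT_nn (T : Finset (Fin 4)) (hT : T.Nonempty) : lamT T nn = 1 := by
  have := Alg_den_pos T hT
  unfold lamT
  rw [div_eq_one_iff_eq this.ne']
  exact Finset.sum_congr rfl fun i _ => by ring

/-- `|sum n_i w_i| <= |w| sum n_i <= |w| sum n_i^2` -/
theorem lamT_le (T : Finset (Fin 4)) (w : W4) (r : ℝ) (hr : 0 ≤ r) (h : ∀ i ∈ T, |w i| ≤ r) :
    |lamT T w| ≤ r := by
  rcases T.eq_empty_or_nonempty with hT | hT
  · subst hT
    simpa [lamT] using hr
  · have hD := Alg_den_pos T hT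
    unfold lamT
    rw [abs_div, abs_of_pos hD, div_le_iff₀ hD, Finset.mul_sum]
    refine (Finset.abs_sum_le_sum_abs _ _).trans (Finset.sum_le_sum fun i hi => ?_)
    have h1 := (nn_bd i).1
    have h2 := h i hi
    rw [abs_mul, abs_of_nonneg (by linarith : (0 : ℝ) ≤ nn i)]
    have h3 : nn i ≤ nn i ^ 2 := by nlinarith
    calc nn i * |w i| ≤ nn i ^ 2 * r := mul_le_mul h3 h2 (abs_nonneg _) (by positivity)
      _ = r * nn i ^ 2 := by ring

theorem lamT_congr (T : Finset (Fin 4)) (w w' : W4) (h : ∀ i ∈ T, w i = w' i) :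
    lamT T w = lamT T w' := by
  unfold lamT
  congr 1
  exact Finset.sum_congr rfl fun i hi => by rw [h i hi]

theorem QT_congr (T : Finset (Fin 4)) (w w' : W4) (h : ∀ i ∈ T, w i = w' i) :
    QT T w = QT T w' := by
  unfold QT
  rw [lamT_congr T w w' h]
  exact Finset.sum_congr rfl fun i hi => by rw [h i hi]

theorem QT_nonneg (T : Finset (Fin 4)) (w : W4) : 0 ≤ QT T w :=
  Finset.sum_nonneg fun _ _ => sq_nonneg _

/-- least squares: `lamT T w` is the minimiser -/
theorem QT_min (T : Finset (Fin 4)) (w : W4) (c : ℝ) : QT T w ≤ ∑ i ∈ T, (w i - c * nn i) ^ 2 := by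
  rcases T.eq_empty_or_nonempty with hT | hT
  · subst hT
    simp [QT]
  · have hD := Alg_den_pos T hT
    have hl : lamT T w * ∑ i ∈ T, nn i ^ 2 = ∑ i ∈ T, nn i * w i := by
      unfold lamT
      field_simp
    have e1 : ∀ a : ℝ, ∑ i ∈ T, (w i - a * nn i) ^ 2 =
        ∑ i ∈ T, w i ^ 2 - 2 * a * ∑ i ∈ T, nn i * w i + a ^ 2 * ∑ i ∈ T, nn i ^ 2 := by
      intro a
      rw [Finset.mul_sum, Finset.mul_sum, ← Finset.sum_sub_distrib, ← Finset.sum_add_distrib]
      exact Finset.sum_congr rfl fun i _ => by ring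
    unfold QT
    rw [e1, e1, ← hl]
    nlinarith [mul_nonneg hD.le (sq_nonneg (c - lamT T w))]

theorem QT_le (T : Finset (Fin 4)) (w : W4) (r : ℝ) (h : ∀ i ∈ T, |w i| ≤ r) :
    QT T w ≤ 4 * r ^ 2 := by
  refine (QT_min T w 0).trans ?_
  have h1 : ∀ i ∈ T, (w i - 0 * nn i) ^ 2 ≤ r ^ 2 := by
    intro i hi
    rw [zero_mul, sub_zero]
    have h2 := h i hi
    have h3 := abs_nonneg (w i)
    rw [← sq_abs]
    gcongr
  refine (Finset.sum_le_card_nsmul T _ _ h1).trans ?_
  rw [nsmul_eq_mul]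
  have h4 : (T.card : ℝ) ≤ 4 := by
    have := Finset.card_le_univ T
    rw [Fintype.card_fin] at this
    exact_mod_cast this
  exact mul_le_mul_of_nonneg_right h4 (sq_nonneg r)

theorem QT_coord (T : Finset (Fin 4)) (w : W4) (i : Fin 4) (hi : i ∈ T) :
    |w i - lamT T w * nn i| ≤ Real.sqrt (QT T w) := by
  apply Real.abs_le_sqrt
  unfold QT
  exact Finset.single_le_sum (f := fun i => (w i - lamT T w * nn i) ^ 2)
    (fun _ _ => sq_nonneg _) hi

theorem lamT_shift (T : Finset (Fin 4)) (hT : T.Nonempty) (w : W4) (c : ℝ) :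
    lamT T (w + c • nn) = lamT T w + c := by
  rw [lamT_add, lamT_smul, lamT_nn T hT, mul_one]

theorem QT_shift (T : Finset (Fin 4)) (hT : T.Nonempty) (w : W4) (c : ℝ) :
    QT T (w + c • nn) = QT T w := by
  unfold QT
  rw [lamT_shift T hT]
  refine Finset.sum_congr rfl fun i _ => ?_
  simp only [Pi.add_apply, Pi.smul_apply, smul_eq_mul]
  ring

theorem QT_mono (T T' : Finset (Fin 4)) (h : T ⊆ T') (w : W4) : QT T w ≤ QT T' w := by
  refine (QT_min T w (lamT T' w)).trans ?_
  unfold QT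
  exact Finset.sum_le_sum_of_subset_of_nonneg h fun _ _ _ => sq_nonneg _

/-- the linear map with `|LA T (w, s)|^2 = s^2 + QT T w` -/
noncomputable def LA (T : Finset (Fin 4)) : (W4 × ℝ) →L[ℝ] EuclideanSpace ℝ (Option (Fin 4)) :=
  LinearMap.toContinuousLinearMap
    { toFun := fun p => WithLp.toLp 2 fun o =>
        o.elim p.2 fun i => if i ∈ T then p.1 i - lamT T p.1 * nn i else 0
      map_add' := by
        intro p q
        ext o
        cases o with
        | none => simp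
        | some i =>
          by_cases h : i ∈ T
          · simp [h, lamT_add]; ring
          · simp [h]
      map_smul' := by
        intro c p
        ext o
        cases o with
        | none => simp
        | some i =>
          by_cases h : i ∈ T
          · simp [h, lamT_smul]; ring
          · simp [h] }

theorem Alg_LA_none (T : Finset (Fin 4)) (p : W4 × ℝ) : LA T p none = p.2 := rfl

theorem Alg_LA_some (T : Finset (Fin 4)) (p : W4 × ℝ) (i : Fin 4) :
    LA T p (some i) = if i ∈ T then p.1 i - lamT T p.1 * nn i else 0 := rfl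

theorem LA_sq (T : Finset (Fin 4)) (w : W4) (s : ℝ) : ‖LA T (w, s)‖ ^ 2 = s ^ 2 + QT T w := by
  rw [EuclideanSpace.norm_sq_eq, Fintype.sum_option]
  simp only [Alg_LA_none, Alg_LA_some, Real.norm_eq_abs, sq_abs]
  congr 1
  unfold QT
  rw [← Finset.sum_filter_add_sum_filter_not Finset.univ (· ∈ T)]
  have h1 : ∑ x ∈ Finset.univ.filter (fun x => ¬ x ∈ T),
      (if x ∈ T then w x - lamT T w * nn x else 0) ^ 2 = 0 := by
    apply Finset.sum_eq_zero
    intro x hx
    rw [if_neg (Finset.mem_filter.1 hx).2]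
    ring
  rw [h1, add_zero]
  have h2 : Finset.univ.filter (fun x => x ∈ T) = T := by
    ext x; simp
  rw [h2]
  exact Finset.sum_congr rfl fun i hi => by rw [if_pos hi]

theorem Alg_LA_eq (T : Finset (Fin 4)) (w : W4) (s : ℝ) :
    ‖LA T (w, s)‖ = Real.sqrt (s ^ 2 + QT T w) := by
  rw [← LA_sq, Real.sqrt_sq (norm_nonneg _)]

theorem LA_le (T : Finset (Fin 4)) (v : W4 × ℝ) (r : ℝ) (h2 : |v.2| ≤ r) (h : ∀ i ∈ T, |v.1 i| ≤ r) :
    ‖LA T v‖ ≤ 3 * r := by
  have hr : 0 ≤ r := (abs_nonneg _).trans h2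
  have h3 := LA_sq T v.1 v.2
  have h4 := QT_le T v.1 r h
  have h5 : v.2 ^ 2 ≤ r ^ 2 := by
    rw [← sq_abs]
    have := abs_nonneg v.2
    gcongr
  have h6 : ‖LA T v‖ ^ 2 ≤ (3 * r) ^ 2 := by
    have : (v.1, v.2) = v := rfl
    rw [this] at h3
    rw [h3]
    nlinarith [sq_nonneg r]
  exact le_of_sq_le_sq h6 (by positivity)

theorem rhoSq_eq (α : A4) (w : W4) (s : ℝ) :
    rhoSq α w s = ‖LA (Finset.univ.erase α.1) (w, s) - LA (Finset.univ.erase α.1) (zet α.2, 0)‖ ^ 2 := by
  rw [← map_sub, Prod.mk_sub_mk, sub_zero, LA_sq]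
  rfl

theorem rho_eq (α : A4) (w : W4) (s : ℝ) :
    rho α w s = ‖LA (Finset.univ.erase α.1) (w, s) - LA (Finset.univ.erase α.1) (zet α.2, 0)‖ := by
  unfold rho
  rw [rhoSq_eq, Real.sqrt_sq (norm_nonneg _)]

theorem rho_ge (α : A4) (w : W4) (s : ℝ) : |s| ≤ rho α w s := by
  unfold rho rhoSq
  apply Real.abs_le_sqrt
  have := QT_nonneg (Finset.univ.erase α.1) (w - zet α.2)
  linarith

theorem rho_sq (α : A4) (w : W4) (s : ℝ) : rho α w s ^ 2 = rhoSq α w s := by
  rw [rho_eq, rhoSq_eq]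

/-- comparison of two digit tuples with the same omitted index -/
theorem rho_le_rho (e : Fin 4) (x x' : Fin 4 → Dg) (w : W4) (s r : ℝ)
    (h : ∀ i, i ≠ e → |beta (x i) - beta (x' i)| ≤ r) :
    rho (e, x') w s ≤ rho (e, x) w s + 2 * r := by
  have hr : 0 ≤ r := by
    obtain ⟨i, hi⟩ : ∃ i : Fin 4, i ≠ e := exists_ne e
    exact (abs_nonneg _).trans (h i hi)
  rw [rho_eq, rho_eq]
  simp only
  have h1 : LA (Finset.univ.erase e) (w, s) - LA (Finset.univ.erase e) (zet x', 0) =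
      (LA (Finset.univ.erase e) (w, s) - LA (Finset.univ.erase e) (zet x, 0)) +
        LA (Finset.univ.erase e) (zet x - zet x', 0) := by
    have : ((zet x - zet x', 0) : W4 × ℝ) = (zet x, 0) - (zet x', 0) := by
      rw [Prod.mk_sub_mk, sub_zero]
    rw [this, map_sub]
    abel
  rw [h1]
  refine (norm_add_le _ _).trans ?_
  have h2 : ‖LA (Finset.univ.erase e) (zet x - zet x', 0)‖ ≤ 2 * r := by
    rw [Alg_LA_eq]
    have h3 : QT (Finset.univ.erase e) (zet x - zet x') ≤ 4 * r ^ 2 := by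
      apply QT_le
      intro i hi
      exact h i (Finset.ne_of_mem_erase hi)
    calc Real.sqrt (0 ^ 2 + QT (Finset.univ.erase e) (zet x - zet x'))
        ≤ Real.sqrt ((2 * r) ^ 2) := by
          apply Real.sqrt_le_sqrt
          nlinarith
      _ = 2 * r := Real.sqrt_sq (by positivity)
  linarith

theorem Alg_rho_bdd (w : W4) (s : ℝ) : BddBelow (range fun α : A4 => rho α w s) :=
  ⟨|s|, by rintro _ ⟨α, rfl⟩; exact rho_ge α w s⟩

instance Alg_A4_ne : Nonempty A4 := ⟨(0, fun _ _ => false)⟩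

/-- `dmu` is at most every `rho`, and is nearly attained -/
theorem dmu_le (α : A4) (w : W4) (s : ℝ) : dmu w s ≤ rho α w s :=
  ciInf_le (Alg_rho_bdd w s) α

theorem le_dmu (w : W4) (s : ℝ) : |s| ≤ dmu w s :=
  le_ciInf fun α => rho_ge α w s

theorem dmu_near (w : W4) (s : ℝ) (hs : 0 < s) : ∃ α : A4, rho α w s ≤ 3 / 2 * dmu w s := by
  have h := le_dmu w s
  rw [abs_of_pos hs] at h
  have h1 : (⨅ α : A4, rho α w s) < 3 / 2 * dmu w s := by
    have : (⨅ α : A4, rho α w s) = dmu w s := rfl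
    rw [this]; linarith
  obtain ⟨α, hα⟩ := exists_lt_of_ciInf_lt h1
  exact ⟨α, hα.le⟩

/-! ## the same for `vSq` -/

theorem Alg_sumQ_nonneg (x : Idx → Dg) (z : Z8) :
    0 ≤ ∑ g : Fin 2, QT Finset.univ fun i => z (g, i) - beta (x (g, i)) :=
  Finset.sum_nonneg fun _ _ => QT_nonneg _ _

theorem vSq_nonneg (x : Idx → Dg) (z : Z8) (m : V2) (s : ℝ) : 0 ≤ vSq x z m s := by
  have := Alg_sumQ_nonneg x z
  unfold vSq
  positivity

theorem vSq_ge (x : Idx → Dg) (z : Z8) (m : V2) (s : ℝ) :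
    |s| ≤ Real.sqrt (vSq x z m s) ∧ (∀ g, |m g| ≤ Real.sqrt (vSq x z m s)) ∧
      ∀ g i, |z (g, i) - beta (x (g, i)) -
        lamT Finset.univ (fun j => z (g, j) - beta (x (g, j))) * nn i| ≤ Real.sqrt (vSq x z m s) := by
  have h0 := Alg_sumQ_nonneg x z
  have h1 := sq_nonneg s
  have h2 := sq_nonneg (m 0)
  have h3 := sq_nonneg (m 1)
  refine ⟨?_, ?_, ?_⟩
  · apply Real.abs_le_sqrt
    unfold vSq
    linarith
  · intro g
    apply Real.abs_le_sqrt
    unfold vSq
    fin_cases g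
    · simp only [Fin.zero_eta]; linarith
    · simp only [Fin.mk_one]; linarith
  · intro g i
    refine (QT_coord Finset.univ (fun j => z (g, j) - beta (x (g, j))) i (Finset.mem_univ i)).trans ?_
    apply Real.sqrt_le_sqrt
    have : QT Finset.univ (fun j => z (g, j) - beta (x (g, j))) ≤
        ∑ g : Fin 2, QT Finset.univ fun i => z (g, i) - beta (x (g, i)) :=
      Finset.single_le_sum (f := fun g : Fin 2 => QT Finset.univ fun i => z (g, i) - beta (x (g, i)))
        (fun _ _ => QT_nonneg _ _) (Finset.mem_univ g)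
    unfold vSq
    linarith

/-- the vector whose Euclidean norm is `sqrt vSq` -/
noncomputable def Alg_V (x : Idx → Dg) (z : Z8) (m : V2) (s : ℝ) :
    EuclideanSpace ℝ (Option (Fin 2) ⊕ Idx) :=
  WithLp.toLp 2 fun o => o.elim (fun a => a.elim s m) fun k =>
    z k - beta (x k) - lamT Finset.univ (fun j => z (k.1, j) - beta (x (k.1, j))) * nn k.2

theorem Alg_V_norm (x : Idx → Dg) (z : Z8) (m : V2) (s : ℝ) :
    ‖Alg_V x z m s‖ = Real.sqrt (vSq x z m s) := by
  rw [EuclideanSpace.norm_eq]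
  congr 1
  rw [Fintype.sum_sum_type, Fintype.sum_option, Fintype.sum_prod_type]
  simp only [Alg_V, Sum.elim_inl, Sum.elim_inr, Option.elim_none, Option.elim_some,
    Real.norm_eq_abs, sq_abs, Fin.sum_univ_two]
  unfold vSq QT
  rw [Fin.sum_univ_two]

theorem vSq_near (x x' : Idx → Dg) (z : Z8) (m : V2) (s r : ℝ) 
    (h : ∀ k, |beta (x k) - beta (x' k)| ≤ r) :
    Real.sqrt (vSq x' z m s) ≤ Real.sqrt (vSq x z m s) + 3 * r := by
  have hr : 0 ≤ r := (abs_nonneg _).trans (h (0, 0))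
  rw [← Alg_V_norm, ← Alg_V_norm]
  have h1 : ‖Alg_V x' z m s‖ ≤ ‖Alg_V x z m s‖ + ‖Alg_V x' z m s - Alg_V x z m s‖ := by
    have : Alg_V x' z m s = Alg_V x z m s + (Alg_V x' z m s - Alg_V x z m s) := by abel
    calc ‖Alg_V x' z m s‖ = ‖Alg_V x z m s + (Alg_V x' z m s - Alg_V x z m s)‖ := by rw [← this]
      _ ≤ _ := norm_add_le _ _
  refine h1.trans ?_
  have h2 : ‖Alg_V x' z m s - Alg_V x z m s‖ ≤ 3 * r := by
    rw [EuclideanSpace.norm_eq]
    have e : ∀ g : Fin 2, ∀ i : Fin 4,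
        (z (g, i) - beta (x' (g, i)) -
          lamT Finset.univ (fun j => z (g, j) - beta (x' (g, j))) * nn i) -
        (z (g, i) - beta (x (g, i)) -
          lamT Finset.univ (fun j => z (g, j) - beta (x (g, j))) * nn i) =
        (beta (x (g, i)) - beta (x' (g, i))) -
          lamT Finset.univ (fun j => beta (x (g, j)) - beta (x' (g, j))) * nn i := by
      intro g i
      have : (fun j => z (g, j) - beta (x' (g, j))) =
          (fun j => z (g, j) - beta (x (g, j))) + fun j => beta (x (g, j)) - beta (x' (g, j)) := by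
        funext j
        simp only [Pi.add_apply]
        ring
      rw [this, lamT_add]
      ring
    have h3 : ∑ o, ‖(Alg_V x' z m s - Alg_V x z m s) o‖ ^ 2 =
        ∑ g : Fin 2, QT Finset.univ (fun i => beta (x (g, i)) - beta (x' (g, i))) := by
      rw [Fintype.sum_sum_type, Fintype.sum_option, Fintype.sum_prod_type]
      simp only [Alg_V, PiLp.sub_apply, Sum.elim_inl, Sum.elim_inr, Option.elim_none,
        Option.elim_some, Real.norm_eq_abs, sq_abs, sub_self, e]
      unfold QT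
      simp
    rw [h3]
    calc Real.sqrt (∑ g : Fin 2, QT Finset.univ (fun i => beta (x (g, i)) - beta (x' (g, i))))
        ≤ Real.sqrt ((3 * r) ^ 2) := by
          apply Real.sqrt_le_sqrt
          rw [Fin.sum_univ_two]
          have q0 := QT_le Finset.univ (fun i => beta (x (0, i)) - beta (x' (0, i))) r
            fun i _ => h (0, i)
          have q1 := QT_le Finset.univ (fun i => beta (x (1, i)) - beta (x' (1, i))) r
            fun i _ => h (1, i)
          nlinarith [sq_nonneg r]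
      _ = 3 * r := Real.sqrt_sq (by positivity)
  linarith

theorem Alg_v_bdd (z : Z8) (m : V2) (s : ℝ) :
    BddBelow (range fun x : Idx → Dg => Real.sqrt (vSq x z m s)) :=
  ⟨0, by rintro _ ⟨x, rfl⟩; exact Real.sqrt_nonneg _⟩

theorem dv_le (x : Idx → Dg) (z : Z8) (m : V2) (s : ℝ) : dv z m s ≤ Real.sqrt (vSq x z m s) :=
  ciInf_le (Alg_v_bdd z m s) x

theorem le_dv (z : Z8) (m : V2) (s : ℝ) : |s| ≤ dv z m s ∧ ∀ g, |m g| ≤ dv z m s :=
  ⟨le_ciInf fun x => (vSq_ge x z m s).1, fun g => le_ciInf fun x => (vSq_ge x z m s).2.1 g⟩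

theorem dv_near (z : Z8) (m : V2) (s : ℝ) (hs : 0 < s) :
    ∃ x : Idx → Dg, Real.sqrt (vSq x z m s) ≤ 3 / 2 * dv z m s := by
  have h := (le_dv z m s).1
  rw [abs_of_pos hs] at h
  have h1 : (⨅ x : Idx → Dg, Real.sqrt (vSq x z m s)) < 3 / 2 * dv z m s := by
    have : (⨅ x : Idx → Dg, Real.sqrt (vSq x z m s)) = dv z m s := rfl
    rw [this]; linarith
  obtain ⟨α, hα⟩ := exists_lt_of_ciInf_lt h1
  exact ⟨α, hα.le⟩

/-! ## rotations and shifts -/

theorem rot_zero (v : V2) : rot 0 v = v := by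
  ext i
  fin_cases i <;> simp [rot]

theorem rot_add (a b : ℝ) (v : V2) : rot a (rot b v) = rot (a + b) v := by
  ext i
  fin_cases i <;> simp [rot, Real.cos_add, Real.sin_add] <;> ring

theorem rot_sq (t : ℝ) (v : V2) : rot t v 0 ^ 2 + rot t v 1 ^ 2 = v 0 ^ 2 + v 1 ^ 2 := by
  have h := Real.sin_sq_add_cos_sq t
  have h1 : rot t v 0 = Real.cos t * v 0 - Real.sin t * v 1 := rfl
  have h2 : rot t v 1 = Real.sin t * v 0 + Real.cos t * v 1 := rfl
  rw [h1, h2]
  linear_combination (v 0 ^ 2 + v 1 ^ 2) * h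

theorem rot_norm_le (t : ℝ) (v : V2) : ‖rot t v‖ ≤ 2 * ‖v‖ := by
  rw [pi_norm_le_iff_of_nonneg (by positivity)]
  have hc := Real.abs_cos_le_one t
  have hs := Real.abs_sin_le_one t
  have h0 : |v 0| ≤ ‖v‖ := norm_le_pi_norm v 0
  have h1 : |v 1| ≤ ‖v‖ := norm_le_pi_norm v 1
  have key : ∀ a b p q : ℝ, |a| ≤ 1 → |b| ≤ 1 → |p| ≤ ‖v‖ → |q| ≤ ‖v‖ → |a * p| + |b * q| ≤ 2 * ‖v‖ := by
    intro a b p q ha hb hp hq
    rw [abs_mul, abs_mul]
    have := mul_le_mul ha hp (abs_nonneg _) zero_le_one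
    have := mul_le_mul hb hq (abs_nonneg _) zero_le_one
    linarith
  intro i
  rw [Real.norm_eq_abs]
  fin_cases i
  · have h2 : rot t v 0 = Real.cos t * v 0 - Real.sin t * v 1 := rfl
    show |rot t v 0| ≤ _
    rw [h2]
    exact (abs_sub _ _).trans (key _ _ _ _ hc hs h0 h1)
  · have h2 : rot t v 1 = Real.sin t * v 0 + Real.cos t * v 1 := rfl
    show |rot t v 1| ≤ _
    rw [h2]
    exact (abs_add_le _ _).trans (key _ _ _ _ hs hc h0 h1)

theorem shift_add (c c' : V2) : shift (c + c') = shift c + shift c' := by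
  ext k
  simp only [shift, Pi.add_apply]
  ring

theorem shift_norm (c : V2) : ‖shift c‖ ≤ 4 * ‖c‖ ∧ ‖c‖ ≤ ‖shift c‖ := by
  constructor
  · rw [pi_norm_le_iff_of_nonneg (by positivity)]
    intro k
    have h1 : ‖c k.1‖ ≤ ‖c‖ := norm_le_pi_norm c k.1
    have h2 := nn_bd k.2
    simp only [shift, norm_mul, Real.norm_eq_abs]
    rw [abs_of_nonneg (by linarith : (0 : ℝ) ≤ nn k.2)]
    rw [Real.norm_eq_abs] at h1
    exact mul_le_mul h2.2 h1 (abs_nonneg _) (by norm_num)
  · rw [pi_norm_le_iff_of_nonneg (by positivity)]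
    intro g
    have h1 : ‖shift c (g, 0)‖ ≤ ‖shift c‖ := norm_le_pi_norm (shift c) (g, 0)
    have h2 : shift c (g, 0) = c g := by
      simp [shift, nn]
    rwa [h2] at h1

theorem grp_shift (z : Z8) (c : V2) (g : Fin 2) : grp (z + shift c) g = grp z g + c g • nn := by
  ext i
  simp only [grp, shift, Pi.add_apply, Pi.smul_apply, smul_eq_mul]
  ring

theorem vSq_shift (x : Idx → Dg) (z : Z8) (m : V2) (s t : ℝ) (c : V2) :
    vSq x (z + shift c) (rot t m) s = vSq x z m s := by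
  unfold vSq
  rw [rot_sq]
  congr 1
  refine Finset.sum_congr rfl fun g _ => ?_
  have : (fun i => (z + shift c) (g, i) - beta (x (g, i))) =
      (fun i => z (g, i) - beta (x (g, i))) + c g • nn := by
    funext i
    simp only [shift, Pi.add_apply, Pi.smul_apply, smul_eq_mul]
    ring
  rw [this, QT_shift Finset.univ Finset.univ_nonempty]

end Pool.Agent.Wtw
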