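import Mathlib
import Pool.Agent.Wtw.Abs
import Pool.Agent.Wtw.Alg

/-!
# Rot: the maps `RR s m u` (rotation by the angle `th u (s z)` around the centre)

* `s (RR u z) = s z`, `m (RR u z) = rot (th u (s z)) (m z)` (`equiv`).
* with `RI u z = z + shift (rot (-th u (s z)) (m z) - m z)`: `RR u (RI u z) = z = RI u (RR u z)`.
* `RR u z = z` if `u <= 0` (`th = 0`), or `eps (s z) <= u` (`th = 2π`, or `s z = 0` and `m z = 0`).
* joint continuity: at `s z /= 0` composition; at `s z0 = 0`: `|RR u z - z| <= 4 |rot m - m| <= 12 |m z| <= 12 B dlt z`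
  tends to 0 = `dlt z0` (`dlt` is 1-Lipschitz: prove it here or import Geo).
-/

namespace Pool.Agent.Wtw

open MeasureTheory Set Filter Topology
open scoped ENNReal

variable {B : ℝ} {s : Z8 → ℝ} {m : Z8 → V2}

/-- the inverse of `RR` -/
noncomputable def RI (s : Z8 → ℝ) (m : Z8 → V2) (u : ℝ) (z : Z8) : Z8 :=
  z + shift (rot (-th u (s z)) (m z) - m z)

theorem Rot_shift_zero : shift 0 = 0 := by
  funext k; simp [shift]

theorem Rot_rot_zero_vec (t : ℝ) : rot t 0 = 0 := by
  funext i; fin_cases i <;> simp [rot]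

theorem s_RR (hs : SData s m B) (u : ℝ) (z : Z8) : s (RR s m u z) = s z :=
  (hs.equiv z (th u (s z))).1

theorem m_RR (hs : SData s m B) (u : ℝ) (z : Z8) : m (RR s m u z) = rot (th u (s z)) (m z) :=
  (hs.equiv z (th u (s z))).2

theorem s_RI (hs : SData s m B) (u : ℝ) (z : Z8) : s (RI s m u z) = s z :=
  (hs.equiv z (-th u (s z))).1

theorem Rot_m_RI (hs : SData s m B) (u : ℝ) (z : Z8) :
    m (RI s m u z) = rot (-th u (s z)) (m z) :=
  (hs.equiv z (-th u (s z))).2

theorem RI_RR (hs : SData s m B) (u : ℝ) (z : Z8) : RI s m u (RR s m u z) = z := by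
  unfold RI
  rw [s_RR hs, m_RR hs, rot_add, neg_add_cancel, rot_zero]
  unfold RR cc
  rw [add_assoc, ← shift_add]
  have : rot (th u (s z)) (m z) - m z + (m z - rot (th u (s z)) (m z)) = 0 := by abel
  rw [this, Rot_shift_zero, add_zero]

theorem RR_RI (hs : SData s m B) (u : ℝ) (z : Z8) : RR s m u (RI s m u z) = z := by
  unfold RR cc
  rw [s_RI hs, Rot_m_RI hs, rot_add, add_neg_cancel, rot_zero]
  unfold RI
  rw [add_assoc, ← shift_add]
  have : rot (-th u (s z)) (m z) - m z + (m z - rot (-th u (s z)) (m z)) = 0 := by abel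
  rw [this, Rot_shift_zero, add_zero]

theorem Rot_eps_nonneg (hs : SData s m B) (z : Z8) : 0 ≤ eps (s z) :=
  Real.rpow_nonneg (hs.nonneg z) _

theorem RR_zero (hs : SData s m B) (u : ℝ) (z : Z8) (h : s z = 0) : RR s m u z = z := by
  unfold RR cc
  rw [hs.m_zero z h, Rot_rot_zero_vec, sub_zero, Rot_shift_zero, add_zero]

theorem Rot_RI_zero (hs : SData s m B) (u : ℝ) (z : Z8) (h : s z = 0) : RI s m u z = z := by
  unfold RI
  rw [hs.m_zero z h, Rot_rot_zero_vec, sub_zero, Rot_shift_zero, add_zero]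

theorem RR_neg (hs : SData s m B) (u : ℝ) (hu : u ≤ 0) (z : Z8) : RR s m u z = z := by
  have h1 : th u (s z) = 0 := by
    unfold th
    rw [Real.smoothTransition.zero_of_nonpos (div_nonpos_of_nonpos_of_nonneg hu
      (Rot_eps_nonneg hs z)), mul_zero]
  unfold RR cc
  rw [h1, rot_zero, sub_self, Rot_shift_zero, add_zero]

theorem Rot_two_pi (v : V2) : rot (2 * Real.pi) v = v := by
  funext i
  fin_cases i <;> simp [rot]

theorem RR_far (hs : SData s m B) (u : ℝ) (z : Z8) (h : eps (s z) ≤ u) : RR s m u z = z := by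
  by_cases h0 : s z = 0
  · exact RR_zero hs u z h0
  · have hpos : 0 < eps (s z) := Real.rpow_pos_of_pos ((hs.nonneg z).lt_of_ne' h0) _
    have h1 : th u (s z) = 2 * Real.pi := by
      unfold th
      rw [Real.smoothTransition.one_of_one_le ((one_le_div hpos).2 h), mul_one]
    unfold RR cc
    rw [h1, Rot_two_pi, sub_self, Rot_shift_zero, add_zero]

theorem eps_lt_one (hs : SData s m B) (z : Z8) : eps (s z) < 1 := by
  refine Real.rpow_lt_one (hs.nonneg z) ?_ (by norm_num)
  linarith [hs.le_half z]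

theorem Rot_dlt_le (z z0 : Z8) (h : ∀ k, z0 k ∈ CC) : dlt z ≤ ‖z - z0‖ := by
  refine Finset.sup'_le _ _ fun k _ => ?_
  refine (Metric.infDist_le_dist_of_mem (h k)).trans ?_
  rw [Real.dist_eq]
  have := norm_le_pi_norm (z - z0) k
  simpa using this

theorem Rot_s_cont (hs : SData s m B) : Continuous s := by
  refine continuous_iff_continuousAt.2 fun z0 => ?_
  refine continuousAt_of_locally_lipschitz (r := 1) one_pos (1 / 32) fun z _ => ?_
  rw [Real.dist_eq, dist_eq_norm]
  have := hs.lip z z0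
  linarith

theorem Rot_cont_rot : Continuous fun t : ℝ × V2 => rot t.1 t.2 := by
  refine continuous_pi fun i => ?_
  fin_cases i
  · show Continuous fun t : ℝ × V2 => Real.cos t.1 * t.2 0 - Real.sin t.1 * t.2 1
    fun_prop
  · show Continuous fun t : ℝ × V2 => Real.sin t.1 * t.2 0 + Real.cos t.1 * t.2 1
    fun_prop

theorem Rot_cont_shift : Continuous shift := by
  refine continuous_pi fun k => ?_
  show Continuous fun c : V2 => nn k.2 * c k.1
  fun_prop

/-- the common part: `z + shift (rot (c * th u (s z)) (m z) - m z)` is continuous -/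
theorem Rot_cont_gen (hs : SData s m B) (c : ℝ) :
    Continuous fun t : ℝ × Z8 => t.2 + shift (rot (c * th t.1 (s t.2)) (m t.2) - m t.2) := by
  refine continuous_iff_continuousAt.2 fun t0 => ?_
  obtain ⟨u0, z0⟩ := t0
  by_cases h0 : s z0 = 0
  · have hz : ∀ k, z0 k ∈ CC := (hs.zero_iff z0).1 h0
    have hm0 : m z0 = 0 := hs.m_zero z0 h0
    refine continuousAt_of_locally_lipschitz (r := 1) one_pos (12 * B + 1) fun t _ => ?_
    obtain ⟨u, z⟩ := t
    have e0 : z0 + shift (rot (c * th u0 (s z0)) (m z0) - m z0) = z0 := by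
      rw [hm0, Rot_rot_zero_vec, sub_zero, Rot_shift_zero, add_zero]
    simp only [dist_eq_norm]
    rw [e0]
    have h1 : ‖shift (rot (c * th u (s z)) (m z) - m z)‖ ≤ 12 * B * ‖z - z0‖ := by
      calc ‖shift (rot (c * th u (s z)) (m z) - m z)‖
          ≤ 4 * ‖rot (c * th u (s z)) (m z) - m z‖ := (shift_norm _).1
        _ ≤ 4 * (2 * ‖m z‖ + ‖m z‖) := by
            gcongr
            exact (norm_sub_le _ _).trans (add_le_add (rot_norm_le _ _) le_rfl)
        _ = 12 * ‖m z‖ := by ring
        _ ≤ 12 * (B * dlt z) := by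
            gcongr
            exact hs.m_le z
        _ ≤ 12 * (B * ‖z - z0‖) := by
            have hB : 0 ≤ B := by linarith [hs.one_le]
            gcongr
            exact Rot_dlt_le z z0 hz
        _ = 12 * B * ‖z - z0‖ := by ring
    have h2 : ‖z - z0‖ ≤ ‖((u, z) : ℝ × Z8) - (u0, z0)‖ := by
      have := norm_snd_le (((u, z) : ℝ × Z8) - (u0, z0))
      simpa using this
    have hB : 0 ≤ B := by linarith [hs.one_le]
    calc ‖z + shift (rot (c * th u (s z)) (m z) - m z) - z0‖
        = ‖(z - z0) + shift (rot (c * th u (s z)) (m z) - m z)‖ := by congr 1; abel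
      _ ≤ ‖z - z0‖ + ‖shift (rot (c * th u (s z)) (m z) - m z)‖ := norm_add_le _ _
      _ ≤ ‖z - z0‖ + 12 * B * ‖z - z0‖ := by linarith
      _ = (12 * B + 1) * ‖z - z0‖ := by ring
      _ ≤ (12 * B + 1) * ‖((u, z) : ℝ × Z8) - (u0, z0)‖ := by gcongr
  · have hpos : 0 < s z0 := (hs.nonneg z0).lt_of_ne' h0
    have hepos : 0 < eps (s z0) := Real.rpow_pos_of_pos hpos _
    have c1 : ContinuousAt (fun t : ℝ × Z8 => s t.2) (u0, z0) :=
      ((Rot_s_cont hs).comp continuous_snd).continuousAt
    have c2 : ContinuousAt (fun t : ℝ × Z8 => eps (s t.2)) (u0, z0) :=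
      c1.rpow_const (Or.inl h0)
    have c3 : ContinuousAt (fun t : ℝ × Z8 => t.1 / eps (s t.2)) (u0, z0) :=
      continuousAt_fst.div c2 hepos.ne'
    have c4 : ContinuousAt (fun t : ℝ × Z8 => c * th t.1 (s t.2)) (u0, z0) := by
      unfold th
      exact continuousAt_const.mul (continuousAt_const.mul
        (Real.smoothTransition.continuous.continuousAt.comp c3))
    have c5 : ContinuousAt (fun t : ℝ × Z8 => m t.2) (u0, z0) :=
      ContinuousAt.comp (f := fun t : ℝ × Z8 => t.2) (g := m) (x := (u0, z0))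
        (hs.smooth_m z0 h0).continuousAt continuousAt_snd
    have c6 : ContinuousAt (fun t : ℝ × Z8 => rot (c * th t.1 (s t.2)) (m t.2)) (u0, z0) :=
      ContinuousAt.comp (g := fun t : ℝ × V2 => rot t.1 t.2)
        (f := fun t : ℝ × Z8 => (c * th t.1 (s t.2), m t.2)) (x := (u0, z0))
        Rot_cont_rot.continuousAt (c4.prodMk c5)
    have c7 : ContinuousAt (fun t : ℝ × Z8 => rot (c * th t.1 (s t.2)) (m t.2) - m t.2) (u0, z0) :=
      c6.sub c5
    have c8 : ContinuousAt (fun t : ℝ × Z8 =>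
        shift (rot (c * th t.1 (s t.2)) (m t.2) - m t.2)) (u0, z0) :=
      ContinuousAt.comp (g := shift)
        (f := fun t : ℝ × Z8 => rot (c * th t.1 (s t.2)) (m t.2) - m t.2) (x := (u0, z0))
        Rot_cont_shift.continuousAt c7
    exact continuousAt_snd.add c8

theorem RR_cont (hs : SData s m B) : Continuous fun t : ℝ × Z8 => RR s m t.1 t.2 := by
  have := Rot_cont_gen hs 1
  simp only [one_mul] at this
  exact this

theorem RI_cont (hs : SData s m B) : Continuous fun t : ℝ × Z8 => RI s m t.1 t.2 := by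
  have := Rot_cont_gen hs (-1)
  simp only [neg_mul, one_mul] at this
  exact this

end Pool.Agent.Wtw
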