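import Mathlib
import Pool.Agent.Wtw.Gbij
import Pool.Agent.Wtw.Rot
import Pool.Agent.Wtw.Dig1

/-!
# Homeo: `ff` is a homeomorphism, identity off `0 < u < 1` and on `R x K`

Inverse: `(u,y) ↦ (u, GG (RI u (Gi y)))`; continuity from `GG_cont`, `Gi_cont`, `RR_cont`, `RI_cont`.
`KK = GG '' {z | s z = 0}`, `y ∈ KK ↔ s (Gi y) = 0`. `KK = {y | ∀ k, y k ∈ (p . 0) '' CC}` (a product), compact,
volume `= (vol (p . 0 '' CC))^8 > 0` (`Measure.pi` of a product), bounded (`CC_sub`, `bd`).
Near `(u0, y0)` with `y0 ∈ KK`, `u0 /= 0`: if `u0 < 0` clear; if `u0 > 0`: `eps (s (Gi y)) < u` near, `RR_far`.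
-/

namespace Pool.Agent.Wtw

open MeasureTheory Set Filter Topology
open scoped ENNReal

variable {p : ℝ → ℝ → ℝ} {A B : ℝ} {s : Z8 → ℝ} {m : Z8 → V2}

/-- the singular set -/
def KK (p : ℝ → ℝ → ℝ) (s : Z8 → ℝ) : Set Z8 := {y | s (Gi p s y) = 0}

private theorem Homeo_ff_eq (u : ℝ) (y : Z8) :
    ff p s m (u, y) = (u, GG p s (RR s m u (Gi p s y))) := rfl

theorem ff_homeo (hp : PData p A) (hs : SData s m B) : IsHomeomorph (ff p s m) := by
  have hG := GG_cont hp hs
  have hGi := Gi_cont hp hs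
  let h : E9 ≃ₜ E9 :=
    { toFun := ff p s m
      invFun := fun t => (t.1, GG p s (RI s m t.1 (Gi p s t.2)))
      left_inv := by
        rintro ⟨u, y⟩
        show (u, GG p s (RI s m u (Gi p s (GG p s (RR s m u (Gi p s y)))))) = (u, y)
        rw [Gi_GG hp hs, RI_RR hs, GG_Gi hp hs]
      right_inv := by
        rintro ⟨u, y⟩
        show (u, GG p s (RR s m u (Gi p s (GG p s (RI s m u (Gi p s y)))))) = (u, y)
        rw [Gi_GG hp hs, RR_RI hs, GG_Gi hp hs]
      continuous_toFun := by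
        show Continuous fun t : E9 => (t.1, GG p s (RR s m t.1 (Gi p s t.2)))
        refine continuous_fst.prodMk (hG.comp ?_)
        exact (RR_cont hs).comp (continuous_fst.prodMk (hGi.comp continuous_snd))
      continuous_invFun := by
        refine continuous_fst.prodMk (hG.comp ?_)
        exact (RI_cont hs).comp (continuous_fst.prodMk (hGi.comp continuous_snd)) }
  exact h.isHomeomorph

theorem ff_neg (hp : PData p A) (hs : SData s m B) (u : ℝ) (y : Z8) (hu : u ≤ 0) :
    ff p s m (u, y) = (u, y) := by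
  rw [Homeo_ff_eq, RR_neg hs u hu, GG_Gi hp hs]

theorem ff_far (hp : PData p A) (hs : SData s m B) (u : ℝ) (y : Z8) (hu : eps (s (Gi p s y)) ≤ u) :
    ff p s m (u, y) = (u, y) := by
  rw [Homeo_ff_eq, RR_far hs u _ hu, GG_Gi hp hs]

theorem ff_one (hp : PData p A) (hs : SData s m B) (u : ℝ) (y : Z8) (hu : 1 ≤ u) :
    ff p s m (u, y) = (u, y) :=
  ff_far hp hs u y ((eps_lt_one hs _).le.trans hu)

theorem ff_K (hp : PData p A) (hs : SData s m B) (u : ℝ) (y : Z8) (hy : y ∈ KK p s) :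
    ff p s m (u, y) = (u, y) := by
  rw [Homeo_ff_eq, RR_zero hs u _ hy, GG_Gi hp hs]

private theorem Homeo_KK_image (hp : PData p A) (hs : SData s m B) :
    KK p s = GG p s '' Set.pi univ (fun _ : Idx => CC) := by
  ext y
  constructor
  · intro hy
    refine ⟨Gi p s y, ?_, GG_Gi hp hs y⟩
    intro k _
    exact (hs.zero_iff _).1 hy k
  · rintro ⟨z, hz, rfl⟩
    show s (Gi p s (GG p s z)) = 0
    rw [Gi_GG hp hs]
    exact (hs.zero_iff z).2 (fun k => hz k (mem_univ k))

private theorem Homeo_KK_pi (hp : PData p A) (hs : SData s m B) :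
    KK p s = Set.pi univ (fun _ : Idx => (fun z => p z 0) '' CC) := by
  rw [Homeo_KK_image hp hs]
  ext y
  constructor
  · rintro ⟨z, hz, rfl⟩
    have h0 : s z = 0 := (hs.zero_iff z).2 (fun k => hz k (mem_univ k))
    intro k _
    refine ⟨z k, hz k (mem_univ k), ?_⟩
    show p (z k) 0 = p (z k) (s z)
    rw [h0]
  · intro hy
    choose z hz hz' using fun k => hy k (mem_univ k)
    have h0 : s z = 0 := (hs.zero_iff z).2 hz
    refine ⟨z, fun k _ => hz k, ?_⟩
    funext k
    show p (z k) (s z) = y k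
    rw [h0]
    exact hz' k

theorem KK_compact (hp : PData p A) (hs : SData s m B) : IsCompact (KK p s) := by
  rw [Homeo_KK_image hp hs]
  exact (isCompact_univ_pi fun _ => CC_compact).image (GG_cont hp hs)

theorem KK_pos (hp : PData p A) (hs : SData s m B) : 0 < volume (KK p s) := by
  rw [Homeo_KK_pi hp hs, volume_pi_pi, pos_iff_ne_zero, Finset.prod_ne_zero_iff]
  intro k _
  exact hp.pos.ne'

theorem KK_sub (hp : PData p A) (hs : SData s m B) (y : Z8) (hy : y ∈ KK p s) (k : Idx) :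
    |y k| ≤ 3 := by
  rw [Homeo_KK_pi hp hs] at hy
  obtain ⟨z, hz, hzk⟩ := hy k (mem_univ k)
  have h1 := CC_sub hz
  have h2 := hp.bd z 0 le_rfl
  simp only at hzk
  rw [hzk] at h2
  rw [abs_le]
  constructor
  · linarith [h1.1, h2.1]
  · linarith [h1.2, h2.2]

/-- `ff` is the identity near `(u, y)` for `u < 0` or `u > eps (s (Gi y))` -/
theorem ff_near_out (hp : PData p A) (hs : SData s m B) (u : ℝ) (y : Z8)
    (hu : u < 0 ∨ eps (s (Gi p s y)) < u) : ff p s m =ᶠ[𝓝 (u, y)] id := by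
  rcases hu with hu | hu
  · have h1 : ∀ᶠ t : E9 in 𝓝 (u, y), t.1 < 0 :=
      continuous_fst.continuousAt.eventually_lt continuousAt_const hu
    filter_upwards [h1] with t ht
    exact ff_neg hp hs t.1 t.2 ht.le
  · have hc : Continuous fun t : E9 => eps (s (Gi p s t.2)) := by
      unfold eps
      exact (Real.continuous_rpow_const (by norm_num)).comp
        ((s_cont hs).comp ((Gi_cont hp hs).comp continuous_snd))
    have h1 : ∀ᶠ t : E9 in 𝓝 (u, y), eps (s (Gi p s t.2)) < t.1 :=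
      hc.continuousAt.eventually_lt continuous_fst.continuousAt hu
    filter_upwards [h1] with t ht
    exact ff_far hp hs t.1 t.2 ht.le

/-- `ff` is the identity near `(u, y)`, `y ∈ KK`, `u /= 0` -/
theorem ff_near_K (hp : PData p A) (hs : SData s m B) (u : ℝ) (y : Z8) (hy : y ∈ KK p s)
    (hu : u ≠ 0) : ff p s m =ᶠ[𝓝 (u, y)] id := by
  apply ff_near_out hp hs
  rcases lt_or_gt_of_ne hu with h | h
  · exact Or.inl h
  · right
    have hy' : s (Gi p s y) = 0 := hy
    rw [hy']
    unfold eps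
    rw [Real.zero_rpow (by norm_num)]
    exact h

end Pool.Agent.Wtw
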