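import Mathlib
import Pool.Agent.Wtw.Rot

/-!
# RSm: smoothness of the rotations in `(u, z)` where `s z /= 0`

`th u σ = 2π smoothTransition (u / σ^(4/5))` is smooth in `(u, σ)` for `σ > 0`; `rot t v` is smooth.
-/

namespace Pool.Agent.Wtw

open MeasureTheory Set Filter Topology
open scoped ENNReal

variable {B : ℝ} {s : Z8 → ℝ} {m : Z8 → V2}

/-- `th` as a function of the pair -/
noncomputable def thF : ℝ × ℝ → ℝ := fun t => th t.1 t.2

theorem RSm_thF : thF = fun t : ℝ × ℝ =>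
    2 * Real.pi * Real.smoothTransition (t.1 / t.2 ^ (4 / 5 : ℝ)) := rfl

theorem th_smooth (u σ : ℝ) (h : 0 < σ) : ContDiffAt ℝ 2 thF (u, σ) := by
  rw [RSm_thF]
  have h1 : ContDiffAt ℝ 2 (fun t : ℝ × ℝ => t.2 ^ (4 / 5 : ℝ)) (u, σ) :=
    contDiffAt_snd.rpow_const_of_ne h.ne'
  have h2 : ContDiffAt ℝ 2 (fun t : ℝ × ℝ => t.1 / t.2 ^ (4 / 5 : ℝ)) (u, σ) :=
    contDiffAt_fst.div h1 (Real.rpow_pos_of_pos h _).ne'
  exact contDiffAt_const.mul (Real.smoothTransition.contDiff.contDiffAt.comp (u, σ) h2)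

theorem rot_smooth : ContDiff ℝ 2 fun t : ℝ × V2 => rot t.1 t.2 := by
  rw [contDiff_pi]
  have hc : ContDiff ℝ 2 fun t : ℝ × V2 => Real.cos t.1 := Real.contDiff_cos.comp contDiff_fst
  have hs : ContDiff ℝ 2 fun t : ℝ × V2 => Real.sin t.1 := Real.contDiff_sin.comp contDiff_fst
  have h0 : ∀ i : Fin 2, ContDiff ℝ 2 fun t : ℝ × V2 => t.2 i := fun i =>
    (contDiff_apply ℝ ℝ i).comp contDiff_snd
  intro i
  fin_cases i
  · show ContDiff ℝ 2 fun t : ℝ × V2 => Real.cos t.1 * t.2 0 - Real.sin t.1 * t.2 1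
    exact (hc.mul (h0 0)).sub (hs.mul (h0 1))
  · show ContDiff ℝ 2 fun t : ℝ × V2 => Real.sin t.1 * t.2 0 + Real.cos t.1 * t.2 1
    exact (hs.mul (h0 0)).add (hc.mul (h0 1))

theorem RSm_shift : ContDiff ℝ 2 shift := by
  unfold shift
  rw [contDiff_pi]
  intro k
  exact contDiff_const.mul (contDiff_apply ℝ ℝ k.1)

/-- `cc` as a function of `(u, z)` -/
noncomputable def ccF (s : Z8 → ℝ) (m : Z8 → V2) : ℝ × Z8 → V2 := fun t => cc s m t.1 t.2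

theorem RSm_th (hs : SData s m B) (u : ℝ) (z : Z8) (hz : s z ≠ 0) :
    ContDiffAt ℝ 2 (fun t : ℝ × Z8 => th t.1 (s t.2)) (u, z) := by
  have h0 : 0 < s z := lt_of_le_of_ne (hs.nonneg z) (Ne.symm hz)
  have h1 : ContDiffAt ℝ 2 (fun t : ℝ × Z8 => s t.2) (u, z) :=
    (hs.smooth_s z hz).comp (u, z) contDiffAt_snd
  have h2 : ContDiffAt ℝ 2 (fun t : ℝ × Z8 => (t.1, s t.2)) (u, z) := contDiffAt_fst.prodMk h1
  have h3 : ContDiffAt ℝ 2 (thF ∘ fun t : ℝ × Z8 => (t.1, s t.2)) (u, z) :=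
    ContDiffAt.comp (u, z) (th_smooth u (s z) h0) h2
  exact h3

theorem RSm_m (hs : SData s m B) (u : ℝ) (z : Z8) (hz : s z ≠ 0) :
    ContDiffAt ℝ 2 (fun t : ℝ × Z8 => m t.2) (u, z) :=
  (hs.smooth_m z hz).comp (u, z) contDiffAt_snd

theorem cc_smooth (hs : SData s m B) (u : ℝ) (z : Z8) (hz : s z ≠ 0) :
    ContDiffAt ℝ 2 (ccF s m) (u, z) := by
  have h1 := (RSm_th hs u z hz).prodMk (RSm_m hs u z hz)
  have h2 := rot_smooth.contDiffAt.comp (u, z) h1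
  exact h2.sub (RSm_m hs u z hz)

theorem RR_smooth (hs : SData s m B) (u : ℝ) (z : Z8) (hz : s z ≠ 0) :
    ContDiffAt ℝ 2 (fun t : ℝ × Z8 => RR s m t.1 t.2) (u, z) := by
  have h1 := cc_smooth hs u z hz
  exact contDiffAt_snd.add (RSm_shift.contDiffAt.comp (u, z) h1)

theorem RI_smooth (hs : SData s m B) (u : ℝ) (z : Z8) (hz : s z ≠ 0) :
    ContDiffAt ℝ 2 (fun t : ℝ × Z8 => RI s m t.1 t.2) (u, z) := by
  have h1 := (RSm_th hs u z hz).neg.prodMk (RSm_m hs u z hz)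
  have h2 := rot_smooth.contDiffAt.comp (u, z) h1
  have h3 := h2.sub (RSm_m hs u z hz)
  exact contDiffAt_snd.add (RSm_shift.contDiffAt.comp (u, z) h3)

end Pool.Agent.Wtw
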