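import Mathlib
import Pool.Agent.Wtw.GiSm
import Pool.Agent.Wtw.RSm
import Pool.Agent.Wtw.Homeo

/-!
# FSm: `ff` is `C^2` with invertible derivative where `s (Gi y) /= 0`

`ff (u,y) = (u, GG (RR u (Gi y)))`, inverse `fI (u,y) = (u, GG (RI u (Gi y)))`, both `C^2` at such points
(`s (RR u z) = s z`); differentiating `fI ∘ ff = id`, `ff ∘ fI = id` gives the inverse of the derivative.
`PhF` is `Phi` as a function of `(u, z)`.
-/

namespace Pool.Agent.Wtw

open MeasureTheory Set Filter Topology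
open scoped ENNReal

variable {p : ℝ → ℝ → ℝ} {A B : ℝ} {s : Z8 → ℝ} {m : Z8 → V2}

noncomputable def PhF (p : ℝ → ℝ → ℝ) (s : Z8 → ℝ) (m : Z8 → V2) : ℝ × Z8 → Z8 :=
  fun t => Phi p s m t.1 t.2

theorem PhF_smooth (hp : PData p A) (hs : SData s m B) (u : ℝ) (z : Z8) (hz : s z ≠ 0) :
    ContDiffAt ℝ 2 (PhF p s m) (u, z) := by
  have h1 : ContDiffAt ℝ 2 (GG p s) (RR s m u z) :=
    GG_smooth hp hs _ (by rw [s_RR hs]; exact hz)
  exact ContDiffAt.comp
    (f := fun t : ℝ × Z8 => RR s m t.1 t.2) (g := GG p s) ((u, z) : ℝ × Z8) h1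
    (RR_smooth hs u z hz)

private lemma FSm_pair (hp : PData p A) (hs : SData s m B) {F : ℝ × Z8 → Z8} (u : ℝ) (y : Z8)
    (hy : s (Gi p s y) ≠ 0) (hF : ContDiffAt ℝ 2 F (u, Gi p s y)) :
    ContDiffAt ℝ 2 (fun t : E9 => ((t.1, F (t.1, Gi p s t.2)) : E9)) (u, y) := by
  have h1 : ContDiffAt ℝ 2 (fun t : E9 => Gi p s t.2) ((u, y) : E9) :=
    ContDiffAt.comp (f := fun t : E9 => t.2) (g := Gi p s) ((u, y) : E9)
      (Gi_smooth hp hs y hy) contDiffAt_snd
  have h2 : ContDiffAt ℝ 2 (fun t : E9 => ((t.1, Gi p s t.2) : ℝ × Z8)) ((u, y) : E9) :=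
    contDiffAt_fst.prodMk h1
  have h3 : ContDiffAt ℝ 2 (fun t : E9 => F (t.1, Gi p s t.2)) ((u, y) : E9) :=
    ContDiffAt.comp (f := fun t : E9 => ((t.1, Gi p s t.2) : ℝ × Z8))
      (g := F) ((u, y) : E9) hF h2
  exact contDiffAt_fst.prodMk h3

theorem ff_smooth (hp : PData p A) (hs : SData s m B) (u : ℝ) (y : Z8)
    (hy : s (Gi p s y) ≠ 0) : ContDiffAt ℝ 2 (ff p s m) (u, y) :=
  FSm_pair hp hs (F := PhF p s m) u y hy (PhF_smooth hp hs u _ hy)

/-- the inverse map -/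
noncomputable def FSm_inv (p : ℝ → ℝ → ℝ) (s : Z8 → ℝ) (m : Z8 → V2) (t : E9) : E9 :=
  (t.1, GG p s (RI s m t.1 (Gi p s t.2)))

private lemma FSm_inv_smooth (hp : PData p A) (hs : SData s m B) (u : ℝ) (y : Z8)
    (hy : s (Gi p s y) ≠ 0) : ContDiffAt ℝ 2 (FSm_inv p s m) (u, y) := by
  refine FSm_pair hp hs (F := fun t : ℝ × Z8 => GG p s (RI s m t.1 t.2)) u y hy ?_
  have h1 : ContDiffAt ℝ 2 (GG p s) (RI s m u (Gi p s y)) :=
    GG_smooth hp hs _ (by rw [s_RI hs]; exact hy)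
  exact ContDiffAt.comp
    (f := fun t : ℝ × Z8 => RI s m t.1 t.2) (g := GG p s) ((u, Gi p s y) : ℝ × Z8) h1
    (RI_smooth hs u _ hy)

theorem ff_inv (hp : PData p A) (hs : SData s m B) (u : ℝ) (y : Z8) (hy : s (Gi p s y) ≠ 0) :
    ∃ e : E9 ≃L[ℝ] E9, HasFDerivAt (ff p s m) (e : E9 →L[ℝ] E9) (u, y) := by
  have hl : ∀ t : E9, FSm_inv p s m (ff p s m t) = t := by
    intro t
    simp only [FSm_inv, ff, Phi, Gi_GG hp hs, RI_RR hs, GG_Gi hp hs]
  have hr : ∀ t : E9, ff p s m (FSm_inv p s m t) = t := by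
    intro t
    simp only [FSm_inv, ff, Phi, Gi_GG hp hs, RR_RI hs, GG_Gi hp hs]
  set x : E9 := (u, y) with hx
  set x' : E9 := ff p s m x with hx'
  have hy' : s (Gi p s x'.2) ≠ 0 := by
    simp only [hx', hx, ff, Phi, Gi_GG hp hs, s_RR hs]
    exact hy
  have h1 : DifferentiableAt ℝ (ff p s m) x := (ff_smooth hp hs u y hy).differentiableAt (by norm_num)
  have h2 : DifferentiableAt ℝ (FSm_inv p s m) x' :=
    (FSm_inv_smooth hp hs x'.1 x'.2 hy').differentiableAt (by norm_num)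
  have hxx : FSm_inv p s m x' = x := hl x
  have h3 : HasFDerivAt (fun t => FSm_inv p s m (ff p s m t))
      ((fderiv ℝ (FSm_inv p s m) x').comp (fderiv ℝ (ff p s m) x)) x :=
    HasFDerivAt.comp (g := FSm_inv p s m) (f := ff p s m) x h2.hasFDerivAt h1.hasFDerivAt
  have h1' : DifferentiableAt ℝ (ff p s m) (FSm_inv p s m x') := by rw [hxx]; exact h1
  have h4 : HasFDerivAt (fun t => ff p s m (FSm_inv p s m t))
      ((fderiv ℝ (ff p s m) (FSm_inv p s m x')).comp (fderiv ℝ (FSm_inv p s m) x')) x' :=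
    HasFDerivAt.comp (g := ff p s m) (f := FSm_inv p s m) x' h1'.hasFDerivAt h2.hasFDerivAt
  rw [show (fun t => FSm_inv p s m (ff p s m t)) = id from funext hl] at h3
  rw [show (fun t => ff p s m (FSm_inv p s m t)) = id from funext hr, hxx] at h4
  have e3 := h3.unique (hasFDerivAt_id x)
  have e4 := h4.unique (hasFDerivAt_id x')
  let e : E9 ≃L[ℝ] E9 := ContinuousLinearEquiv.equivOfInverse (fderiv ℝ (ff p s m) x)
    (fderiv ℝ (FSm_inv p s m) x')
    (fun v => by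
      have := congrArg (fun L : E9 →L[ℝ] E9 => L v) e3
      simpa using this)
    (fun v => by
      have := congrArg (fun L : E9 →L[ℝ] E9 => L v) e4
      simpa using this)
  refine ⟨e, ?_⟩
  have he : (e : E9 →L[ℝ] E9) = fderiv ℝ (ff p s m) x := by
    ext v <;> rfl
  rw [he]
  exact h1.hasFDerivAt

end Pool.Agent.Wtw
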