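import Mathlib
import Pool.Agent.Wtw.FSm

/-!
# FLoop: the loop at the base point

`z` from `SData.base`, `ys = GG z` (`ys (0,0) >= z (0,0) >= 10`), `A = D GG z` (`GG_equiv`), `N = shift` (as a
continuous linear map), `M = D m z`, `θ u = th u (s z)`.  `RR u z = z` since `m z = 0`, and
`D RR (u,z) (v, ξ) = ξ + shift (rot θ (Dm ξ) - Dm ξ)` (all terms with derivatives of `θ` are multiplied by
`m z = 0`); chain rule for `ff = (u, GG (RR u (Gi y)))`.
`θ u = 2π` for `u >= 1` since `eps (s z) < 1`.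
-/

namespace Pool.Agent.Wtw

open MeasureTheory Set Filter Topology
open scoped ENNReal

variable {p : ℝ → ℝ → ℝ} {A B : ℝ} {s : Z8 → ℝ} {m : Z8 → V2}

/-- `shift` as a continuous linear map -/
noncomputable def FLoop_N : V2 →L[ℝ] Z8 :=
  LinearMap.toContinuousLinearMap
    { toFun := shift
      map_add' := by
        intro a b
        funext k
        simp only [shift, Pi.add_apply]
        ring
      map_smul' := by
        intro a b
        funext k
        simp only [shift, Pi.smul_apply, smul_eq_mul, RingHom.id_apply]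
        ring }

theorem FLoop_N_apply (c : V2) : FLoop_N c = shift c := rfl

/-- `rot t` as a continuous linear map -/
noncomputable def FLoop_R (t : ℝ) : V2 →L[ℝ] V2 :=
  LinearMap.toContinuousLinearMap
    { toFun := rot t
      map_add' := by
        intro a b
        funext k
        fin_cases k <;> simp [rot] <;> ring
      map_smul' := by
        intro a b
        funext k
        fin_cases k <;> simp [rot] <;> ring }

theorem FLoop_R_apply (t : ℝ) (c : V2) : FLoop_R t c = rot t c := rfl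

theorem FLoop_th_cont (σ : ℝ) : Continuous fun u : ℝ => th u σ := by
  unfold th
  exact continuous_const.mul (Real.smoothTransition.continuous.comp (continuous_id.div_const _))

theorem FLoop_rot (hs : SData s m B) (z : Z8) (hz : s z ≠ 0) (hm : m z = 0) (u : ℝ) :
    HasFDerivAt (fun t : ℝ × Z8 => rot (th t.1 (s t.2)) (m t.2))
      ((FLoop_R (th u (s z))).comp ((fderiv ℝ m z).comp (ContinuousLinearMap.snd ℝ ℝ Z8)))
      (u, z) := by
  have hsp : 0 < s z := lt_of_le_of_ne (hs.nonneg z) (Ne.symm hz)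
  have h1 : DifferentiableAt ℝ (fun t : ℝ × Z8 => th t.1 (s t.2)) (u, z) := by
    have a1 : DifferentiableAt ℝ thF (u, s z) :=
      (th_smooth u (s z) hsp).differentiableAt (by norm_num)
    have a2 : DifferentiableAt ℝ s z := (hs.smooth_s z hz).differentiableAt (by norm_num)
    have a3 : DifferentiableAt ℝ (fun t : ℝ × Z8 => (t.1, s t.2)) (u, z) := by
      apply DifferentiableAt.prodMk
      · exact differentiableAt_fst
      · exact DifferentiableAt.comp (u, z) (g := s) (f := Prod.snd) a2 differentiableAt_snd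
    exact DifferentiableAt.comp (u, z) (g := thF) (f := fun t : ℝ × Z8 => (t.1, s t.2)) a1 a3
  have h2 : HasFDerivAt (fun t : ℝ × Z8 => m t.2)
      ((fderiv ℝ m z).comp (ContinuousLinearMap.snd ℝ ℝ Z8)) (u, z) := by
    have a2 : HasFDerivAt m (fderiv ℝ m z) z :=
      ((hs.smooth_m z hz).differentiableAt (by norm_num)).hasFDerivAt
    exact HasFDerivAt.comp (u, z) (g := m) (f := Prod.snd) a2 hasFDerivAt_snd
  have hc := (h1.hasFDerivAt.cos)
  have hsn := (h1.hasFDerivAt.sin)
  have h20 := (hasFDerivAt_pi'.1 h2) 0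
  have h21 := (hasFDerivAt_pi'.1 h2) 1
  rw [hasFDerivAt_pi']
  intro i
  fin_cases i
  · have := (hc.mul h20).sub (hsn.mul h21)
    refine this.congr_fderiv ?_
    ext w <;> simp [hm, FLoop_R_apply, rot]
  · have := (hsn.mul h20).add (hc.mul h21)
    refine this.congr_fderiv ?_
    ext w <;> simp [hm, FLoop_R_apply, rot]

theorem FLoop_RR (hs : SData s m B) (z : Z8) (hz : s z ≠ 0) (hm : m z = 0) (u : ℝ) :
    HasFDerivAt (fun t : ℝ × Z8 => RR s m t.1 t.2)
      (ContinuousLinearMap.snd ℝ ℝ Z8 + FLoop_N.comp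
        ((FLoop_R (th u (s z))).comp ((fderiv ℝ m z).comp (ContinuousLinearMap.snd ℝ ℝ Z8)) -
          (fderiv ℝ m z).comp (ContinuousLinearMap.snd ℝ ℝ Z8))) (u, z) := by
  have h1 := FLoop_rot hs z hz hm u
  have h2 : HasFDerivAt (fun t : ℝ × Z8 => m t.2)
      ((fderiv ℝ m z).comp (ContinuousLinearMap.snd ℝ ℝ Z8)) (u, z) := by
    have a2 : HasFDerivAt m (fderiv ℝ m z) z :=
      ((hs.smooth_m z hz).differentiableAt (by norm_num)).hasFDerivAt
    exact HasFDerivAt.comp (u, z) (g := m) (f := Prod.snd) a2 hasFDerivAt_snd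
  have h3 := FLoop_N.hasFDerivAt.comp (u, z) (h1.sub h2)
  exact (hasFDerivAt_snd (𝕜 := ℝ) (p := ((u, z) : ℝ × Z8))).add h3


theorem ff_loop (hp : PData p A) (hs : SData s m B) : ∃ ys : Z8, 5 < ys (0, 0) ∧
    ∃ (A : Z8 ≃L[ℝ] Z8) (N : V2 →L[ℝ] Z8) (M : Z8 →L[ℝ] V2) (θ : ℝ → ℝ),
      Continuous θ ∧ (∀ u ≤ 0, θ u = 0) ∧ (∀ u, 1 ≤ u → θ u = 2 * Real.pi) ∧
      (∀ c, M (N c) = c) ∧
      ∀ u v w, fderiv ℝ (ff p s m) (u, ys) (v, w) =
        (v, A (A.symm w + N (rot (θ u) (M (A.symm w)) - M (A.symm w)))) := by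
  obtain ⟨z, hz, hm, h10, -, -, -, hMN⟩ := hs.base
  have hsp : 0 < s z := lt_of_le_of_ne (hs.nonneg z) (Ne.symm hz)
  have hep : 0 < eps (s z) := by unfold eps; positivity
  have he1 : eps (s z) < 1 := eps_lt_one hs z
  obtain ⟨e, he⟩ := GG_equiv hp hs z hz
  have hG : Gi p s (GG p s z) = z := Gi_GG hp hs z
  refine ⟨GG p s z, ?_, e, FLoop_N, fderiv ℝ m z, fun u => th u (s z), FLoop_th_cont _, ?_, ?_, ?_, ?_⟩
  · have := (GG_near hp hs z (0, 0)).1
    linarith
  · intro u hu
    simp only [th]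
    rw [Real.smoothTransition.zero_of_nonpos (div_nonpos_of_nonpos_of_nonneg hu hep.le)]
    ring
  · intro u hu
    simp only [th]
    rw [Real.smoothTransition.one_of_one_le ((one_le_div hep).2 (by linarith))]
    ring
  · intro c
    rw [FLoop_N_apply]
    exact hMN c
  · intro u v w
    have hGs : s (Gi p s (GG p s z)) ≠ 0 := by rw [hG]; exact hz
    have hGi : HasFDerivAt (Gi p s) (fderiv ℝ (Gi p s) (GG p s z)) (GG p s z) :=
      ((Gi_smooth hp hs _ hGs).differentiableAt (by norm_num)).hasFDerivAt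
    have hGG : HasFDerivAt (GG p s) (fderiv ℝ (GG p s) z) z :=
      ((GG_smooth hp hs z hz).differentiableAt (by norm_num)).hasFDerivAt
    have hw : fderiv ℝ (Gi p s) (GG p s z) w = e.symm w := by
      have h := Gi_d hp hs (GG p s z) hGs w
      rw [hG, ← he] at h
      rw [ContinuousLinearEquiv.eq_symm_apply]
      exact h
    have hRz : RR s m u z = z := by
      simp only [RR, cc, hm]
      have : shift (rot (th u (s z)) 0 - 0) = 0 := by
        funext k
        obtain ⟨i, j⟩ := k
        fin_cases i <;> simp [shift, rot]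
      rw [this, add_zero]
    have k1 : HasFDerivAt (fun t : E9 => ((t.1, Gi p s t.2) : ℝ × Z8))
        ((ContinuousLinearMap.fst ℝ ℝ Z8).prod
          ((fderiv ℝ (Gi p s) (GG p s z)).comp (ContinuousLinearMap.snd ℝ ℝ Z8)))
        (u, GG p s z) := by
      apply HasFDerivAt.prodMk
      · exact hasFDerivAt_fst
      · exact HasFDerivAt.comp (u, GG p s z) (g := Gi p s) (f := Prod.snd) hGi hasFDerivAt_snd
    have k2 := FLoop_RR hs z hz hm u
    have k2' : HasFDerivAt (fun t : ℝ × Z8 => RR s m t.1 t.2)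
      (ContinuousLinearMap.snd ℝ ℝ Z8 + FLoop_N.comp
        ((FLoop_R (th u (s z))).comp ((fderiv ℝ m z).comp (ContinuousLinearMap.snd ℝ ℝ Z8)) -
          (fderiv ℝ m z).comp (ContinuousLinearMap.snd ℝ ℝ Z8)))
          ((fun t : E9 => ((t.1, Gi p s t.2) : ℝ × Z8)) (u, GG p s z)) := by
      show HasFDerivAt _ _ (u, Gi p s (GG p s z))
      rw [hG]
      exact k2
    have k3 := HasFDerivAt.comp (u, GG p s z) k2' k1
    have k4 : HasFDerivAt (GG p s) (fderiv ℝ (GG p s) z)
        (((fun t : ℝ × Z8 => RR s m t.1 t.2) ∘ (fun t : E9 => ((t.1, Gi p s t.2) : ℝ × Z8)))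
          (u, GG p s z)) := by
      show HasFDerivAt _ _ (RR s m u (Gi p s (GG p s z)))
      rw [hG, hRz]
      exact hGG
    have k5 := HasFDerivAt.comp (u, GG p s z) k4 k3
    have k6 := (hasFDerivAt_fst (𝕜 := ℝ) (p := ((u, GG p s z) : ℝ × Z8))).prodMk k5
    have k7 : HasFDerivAt (ff p s m) _ (u, GG p s z) := k6
    rw [k7.fderiv]
    simp only [ContinuousLinearMap.prod_apply, ContinuousLinearMap.comp_apply,
      ContinuousLinearMap.add_apply, ContinuousLinearMap.sub_apply, ContinuousLinearMap.coe_fst',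
      ContinuousLinearMap.coe_snd', hw, FLoop_R_apply]
    rw [← he]
    rfl

end Pool.Agent.Wtw
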