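import Mathlib
import Pool.Agent.Wtw.Dig1

/-!
# Dig3: the digit measure

`PD` is a probability measure; the cylinder of sequences with prescribed first `k` digits has measure
`2^-k` (`Measure.infinitePi_cylinder`).  Hence (256^(1/8) = 2):

* `PD {|beta - w| <= t} <= 4 t^(1/8)`: if `2 t < 254/255 * 256^-k` all its points agree on the first `k`
  digits (`beta_diff`), so the measure is `<= 2^-k`; take the largest such `k`.
* `PD {|beta - beta x0| <= t} >= t^(1/8) / 4` for `0 < t <= 1`: it contains the cylinder of the first `k`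
  digits of `x0` if `256^-k / 255 <= t` (`beta_agree`); take the smallest such `k`.
-/

namespace Pool.Agent.Wtw

open MeasureTheory Set Filter Topology
open scoped ENNReal

instance coin_prob : IsProbabilityMeasure coin := by
  unfold coin; infer_instance

instance PD_prob : IsProbabilityMeasure PD := by
  unfold PD; infer_instance

theorem Dig3_coin (b : Bool) : coin {b} = (2 : ℝ≥0∞)⁻¹ := by
  unfold coin
  rw [PMF.toMeasure_apply_singleton _ _ (MeasurableSet.singleton b)]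
  simp

theorem PD_cyl (x : Dg) (k : ℕ) : PD {y | ∀ j < k, y j = x j} = (2 : ℝ≥0∞)⁻¹ ^ k := by
  have h : {y : Dg | ∀ j < k, y j = x j} = Set.pi (Finset.range k : Set ℕ) (fun j => {x j}) := by
    ext y
    simp [Set.mem_pi]
  rw [h, PD, Measure.infinitePi_pi _ (fun i _ => MeasurableSet.singleton _)]
  simp [Dig3_coin]

/-- two sequences at distance less than `254/255/256^k` agree on the first `k` digits -/
theorem Dig3_agree (x y : Dg) (k : ℕ) (h : |beta x - beta y| < 254 / 255 / 256 ^ k) :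
    ∀ j < k, x j = y j := by
  classical
  by_contra hcon
  have hex : ∃ j, j < k ∧ x j ≠ y j := by
    push Not at hcon
    exact hcon
  have hspec := Nat.find_spec hex
  have hmin : ∀ j < Nat.find hex, x j = y j := by
    intro j hj
    by_contra hne
    exact Nat.find_min hex hj ⟨lt_trans hj hspec.1, hne⟩
  have h1 := (beta_diff x y _ hmin hspec.2).1
  have h2 : (254 : ℝ) / 255 / 256 ^ k ≤ 254 / 255 / 256 ^ (Nat.find hex + 1) := by
    apply div_le_div_of_nonneg_left (by norm_num) (by positivity)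
    exact pow_le_pow_right₀ (by norm_num) hspec.1
  linarith

theorem Dig3_le_cyl (w t : ℝ) (k : ℕ) (h : 2 * t < 254 / 255 / 256 ^ k) :
    PD {x | |beta x - w| ≤ t} ≤ (2 : ℝ≥0∞)⁻¹ ^ k := by
  by_cases hne : ({x : Dg | |beta x - w| ≤ t}).Nonempty
  · obtain ⟨x0, hx0⟩ := hne
    rw [← PD_cyl x0 k]
    apply measure_mono
    intro y hy
    apply Dig3_agree
    have h1 : |beta y - w| ≤ t := hy
    have h2 : |beta x0 - w| ≤ t := hx0
    rw [abs_le] at h1 h2
    apply lt_of_le_of_lt _ h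
    rw [abs_le]
    constructor <;> linarith [h1.1, h1.2, h2.1, h2.2]
  · rw [Set.not_nonempty_iff_eq_empty] at hne
    rw [hne]
    simp

theorem Dig3_half (k : ℕ) : (2 : ℝ≥0∞)⁻¹ ^ k = ENNReal.ofReal ((1 / 2) ^ k) := by
  rw [ENNReal.ofReal_pow (by norm_num)]
  congr 1
  rw [one_div, ENNReal.ofReal_inv_of_pos (by norm_num)]
  simp

theorem Dig3_rpow (k : ℕ) : ((1 : ℝ) / 256 ^ k) ^ (1 / 8 : ℝ) = (1 / 2) ^ k := by
  have h1 : (1 : ℝ) / 256 ^ k = ((1 / 2) ^ k) ^ (8 : ℕ) := by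
    rw [← pow_mul, mul_comm k 8, pow_mul]
    norm_num
    rw [← one_div, one_div_pow]
  rw [h1, ← Real.rpow_natCast, ← Real.rpow_mul (by positivity)]
  norm_num

theorem PD_ball_le (w t : ℝ) (ht : 0 < t) :
    PD {x | |beta x - w| ≤ t} ≤ ENNReal.ofReal (4 * t ^ (1 / 8 : ℝ)) := by
  classical
  have hex : ∃ k : ℕ, (254 : ℝ) / 255 / 256 ^ k ≤ 2 * t := by
    have h1 : Tendsto (fun k : ℕ => (254 : ℝ) / 255 * (1 / 256) ^ k) atTop (𝓝 (254 / 255 * 0)) :=
      (tendsto_pow_atTop_nhds_zero_of_lt_one (by norm_num) (by norm_num)).const_mul _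
    rw [mul_zero] at h1
    obtain ⟨k, hk⟩ := (h1.eventually (gt_mem_nhds (show (0:ℝ) < 2 * t by linarith))).exists
    refine ⟨k, ?_⟩
    rw [one_div_pow] at hk
    have : (254 : ℝ) / 255 / 256 ^ k = 254 / 255 * (1 / 256 ^ k) := by ring
    rw [this]
    exact hk.le
  have hspec := Nat.find_spec hex
  set K := Nat.find hex with hK
  have h0 : (1 : ℝ) / 2 ≤ (127 / 255 : ℝ) ^ (1 / 8 : ℝ) := by
    have h1 : (1 / 2 : ℝ) = ((1 / 256 : ℝ)) ^ (1 / 8 : ℝ) := by
      have := Dig3_rpow 1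
      simpa using this.symm
    rw [h1]
    apply Real.rpow_le_rpow (by norm_num) (by norm_num) (by norm_num)
  have hle : (1 / 2 : ℝ) ^ K ≤ 2 * t ^ (1 / 8 : ℝ) := by
    have h2 : (127 / 255 : ℝ) * (1 / 256 ^ K) ≤ t := by
      have : (254 : ℝ) / 255 / 256 ^ K = 2 * (127 / 255 * (1 / 256 ^ K)) := by ring
      rw [this] at hspec
      linarith
    have h3 : ((127 / 255 : ℝ) * (1 / 256 ^ K)) ^ (1 / 8 : ℝ) ≤ t ^ (1 / 8 : ℝ) :=
      Real.rpow_le_rpow (by positivity) h2 (by norm_num)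
    rw [Real.mul_rpow (by norm_num) (by positivity), Dig3_rpow] at h3
    have h4 : (1 / 2 : ℝ) * (1 / 2) ^ K ≤ (127 / 255 : ℝ) ^ (1 / 8 : ℝ) * (1 / 2) ^ K :=
      mul_le_mul_of_nonneg_right h0 (by positivity)
    linarith
  rcases Nat.eq_zero_or_pos K with hK0 | hKpos
  · rw [hK0] at hle
    calc PD {x | |beta x - w| ≤ t} ≤ 1 := prob_le_one
      _ = ENNReal.ofReal 1 := by simp
      _ ≤ ENNReal.ofReal (4 * t ^ (1 / 8 : ℝ)) := by
        apply ENNReal.ofReal_le_ofReal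
        have : (0 : ℝ) ≤ t ^ (1 / 8 : ℝ) := by positivity
        simp at hle
        linarith
  · obtain ⟨k, hk⟩ : ∃ k, K = k + 1 := ⟨K - 1, by omega⟩
    have hmin : ¬ (254 : ℝ) / 255 / 256 ^ k ≤ 2 * t := by
      apply Nat.find_min hex
      omega
    push Not at hmin
    calc PD {x | |beta x - w| ≤ t} ≤ (2 : ℝ≥0∞)⁻¹ ^ k := Dig3_le_cyl w t k hmin
      _ = ENNReal.ofReal ((1 / 2) ^ k) := Dig3_half k
      _ ≤ ENNReal.ofReal (4 * t ^ (1 / 8 : ℝ)) := by
        apply ENNReal.ofReal_le_ofReal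
        rw [hk, pow_succ] at hle
        linarith

theorem PD_ball_ge (x0 : Dg) (t : ℝ) (ht : 0 < t) (ht1 : t ≤ 1) :
    ENNReal.ofReal (t ^ (1 / 8 : ℝ) / 4) ≤ PD {x | |beta x - beta x0| ≤ t} := by
  classical
  have hex : ∃ k : ℕ, (1 : ℝ) / 255 / 256 ^ k ≤ t := by
    have h1 : Tendsto (fun k : ℕ => (1 : ℝ) / 255 * (1 / 256) ^ k) atTop (𝓝 (1 / 255 * 0)) :=
      (tendsto_pow_atTop_nhds_zero_of_lt_one (by norm_num) (by norm_num)).const_mul _
    rw [mul_zero] at h1
    obtain ⟨k, hk⟩ := (h1.eventually (gt_mem_nhds ht)).exists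
    refine ⟨k, ?_⟩
    rw [one_div_pow] at hk
    have : (1 : ℝ) / 255 / 256 ^ k = 1 / 255 * (1 / 256 ^ k) := by ring
    rw [this]
    exact hk.le
  have hspec := Nat.find_spec hex
  set K := Nat.find hex with hK
  have hsub : (2 : ℝ≥0∞)⁻¹ ^ K ≤ PD {x | |beta x - beta x0| ≤ t} := by
    rw [← PD_cyl x0 K]
    apply measure_mono
    intro y hy
    exact (beta_agree y x0 K hy).trans hspec
  refine le_trans ?_ hsub
  rw [Dig3_half]
  apply ENNReal.ofReal_le_ofReal
  have htp : (0 : ℝ) ≤ t ^ (1 / 8 : ℝ) := by positivity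
  rcases Nat.eq_zero_or_pos K with hK0 | hKpos
  · rw [hK0]
    have : t ^ (1 / 8 : ℝ) ≤ 1 := Real.rpow_le_one ht.le ht1 (by norm_num)
    simp
    linarith
  · obtain ⟨k, hk⟩ : ∃ k, K = k + 1 := ⟨K - 1, by omega⟩
    have hmin : ¬ (1 : ℝ) / 255 / 256 ^ k ≤ t := by
      apply Nat.find_min hex
      omega
    push Not at hmin
    have h1 : t ≤ 1 / 256 ^ k := by
      have h2 : (1 : ℝ) / 255 / 256 ^ k ≤ 1 / 256 ^ k := by
        have : (1 : ℝ) / 255 / 256 ^ k = 1 / 255 * (1 / 256 ^ k) := by ring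
        rw [this]
        have : (0 : ℝ) < 1 / 256 ^ k := by positivity
        linarith
      linarith
    have h3 : t ^ (1 / 8 : ℝ) ≤ (1 / 2) ^ k := by
      rw [← Dig3_rpow]
      exact Real.rpow_le_rpow ht.le h1 (by norm_num)
    rw [hk, pow_succ]
    have : (0 : ℝ) < (1 / 2) ^ k := by positivity
    linarith

/-- no atoms -/
theorem PD_beta_eq (w : ℝ) : PD {x | beta x = w} = 0 := by
  have h : ∀ k : ℕ, PD {x | beta x = w} ≤ (2 : ℝ≥0∞)⁻¹ ^ k := by
    intro k
    have h0 : (2 : ℝ) * 0 < 254 / 255 / 256 ^ k := by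
      rw [mul_zero]; positivity
    refine le_trans (measure_mono ?_) (Dig3_le_cyl w 0 k h0)
    intro x hx
    have : beta x = w := hx
    show |beta x - w| ≤ 0
    rw [this, sub_self, abs_zero]
  have h2 : Tendsto (fun k : ℕ => (2 : ℝ≥0∞)⁻¹ ^ k) atTop (𝓝 0) :=
    ENNReal.tendsto_pow_atTop_nhds_zero_of_lt_one (by simp)
  exact le_antisymm (ge_of_tendsto' h2 h) bot_le

end Pool.Agent.Wtw
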