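import Mathlib
import Pool.Agent.Wtw.Dig1

/-!
# Dig2: the pair inequality

For `a, b, a', b'` in `CC`, `D = a - b`, `D' = a' - b'`, `i /= j`:
`|l| + |D| + |D'| <= 25 (|D - l n_i| + |D' - l n_j|)`.

Proof. `n_j D - n_i D' = n_j (D - l n_i) - n_i (D' - l n_j)`. By `beta_diff` (levels k, k' of the first
difference, `D = +-256^-(k+1)(1+e)`, `|e| <= 1/255`, or `D = 0`): `|n_j D - n_i D'| >= (1/2) max(|D|,|D'|)`:
same level, same sign: `>= 256^-(k+1) (|n_j - n_i| - 7/255)`; same level, opposite signs: larger;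
`k < k'`: `>= 256^-(k+1) (254/255 - 4/255)`; `D' = 0`: `n_j |D| >= |D|`.
Hence `max(|D|,|D'|) <= 2 * 4 * (a + b)` with `a, b` the two residuals, and `|l| <= |l| n_i <= |D| + a`.
-/

namespace Pool.Agent.Wtw

open MeasureTheory Set Filter Topology
open scoped ENNReal

theorem Dig2_form {a b : ℝ} (ha : a ∈ CC) (hb : b ∈ CC) :
    a - b = 0 ∨ ∃ k : ℕ, 254 / 255 / 256 ^ (k + 1) ≤ |a - b| ∧ |a - b| ≤ 256 / 255 / 256 ^ (k + 1) := by
  obtain ⟨x, rfl⟩ := ha
  obtain ⟨y, rfl⟩ := hb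
  by_cases hxy : x = y
  · left; rw [hxy, sub_self]
  right
  have hex : ∃ k, x k ≠ y k := by
    by_contra hcon
    push Not at hcon
    exact hxy (funext hcon)
  classical
  refine ⟨Nat.find hex, beta_diff x y _ ?_ (Nat.find_spec hex)⟩
  intro j hj
  by_contra hne
  exact Nat.find_min hex hj hne

/-- the separation of the two products -/
theorem Dig2_sep {p q D D' : ℝ} (hp : 1 ≤ p) (hp4 : p ≤ 4) (hq : 1 ≤ q) (hq4 : q ≤ 4)
    (hpq : p + 1 ≤ q ∨ q + 1 ≤ p)
    (hD : D = 0 ∨ ∃ k : ℕ, 254 / 255 / 256 ^ (k + 1) ≤ |D| ∧ |D| ≤ 256 / 255 / 256 ^ (k + 1))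
    (hD' : D' = 0 ∨ ∃ k : ℕ, 254 / 255 / 256 ^ (k + 1) ≤ |D'| ∧ |D'| ≤ 256 / 255 / 256 ^ (k + 1)) :
    |D| ≤ 2 * |q * D - p * D'| ∧ |D'| ≤ 2 * |q * D - p * D'| := by
  have h1 : q * |D| - p * |D'| ≤ |q * D - p * D'| := by
    have := abs_sub_abs_le_abs_sub (q * D) (p * D')
    rwa [abs_mul, abs_mul, abs_of_pos (by linarith : (0:ℝ) < q), abs_of_pos (by linarith : (0:ℝ) < p)]
      at this
  have h2 : p * |D'| - q * |D| ≤ |q * D - p * D'| := by
    have := abs_sub_abs_le_abs_sub (p * D') (q * D)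
    rw [abs_mul, abs_mul, abs_of_pos (by linarith : (0:ℝ) < q), abs_of_pos (by linarith : (0:ℝ) < p),
      abs_sub_comm] at this
    exact this
  have a0 := abs_nonneg D
  have a1 := abs_nonneg D'
  set M := |q * D - p * D'| with hM
  rcases hD with rfl | ⟨k, hk1, hk2⟩
  · rw [abs_zero] at h1 h2 ⊢
    constructor <;> nlinarith
  rcases hD' with rfl | ⟨k', hk1', hk2'⟩
  · rw [abs_zero] at h1 h2 ⊢
    constructor <;> nlinarith
  have hu : ∀ n : ℕ, (0 : ℝ) < 1 / 256 ^ (n + 1) := fun n => by positivity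
  have e1 : ∀ n : ℕ, (254 : ℝ) / 255 / 256 ^ (n + 1) = 254 / 255 * (1 / 256 ^ (n + 1)) := by
    intro n; ring
  have e2 : ∀ n : ℕ, (256 : ℝ) / 255 / 256 ^ (n + 1) = 256 / 255 * (1 / 256 ^ (n + 1)) := by
    intro n; ring
  rw [e1] at hk1 hk1'
  rw [e2] at hk2 hk2'
  have hmono : ∀ m n : ℕ, m < n → (1 : ℝ) / 256 ^ (n + 1) ≤ (1 / 256 ^ (m + 1)) / 256 := by
    intro m n hmn
    rw [div_div, ← pow_succ]
    apply one_div_le_one_div_of_le (by positivity)
    exact pow_le_pow_right₀ (by norm_num) (by omega)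
  have u0 := hu k
  have u0' := hu k'
  rcases lt_trichotomy k k' with h | h | h
  · have := hmono k k' h
    set u := (1 : ℝ) / 256 ^ (k + 1)
    set u' := (1 : ℝ) / 256 ^ (k' + 1)
    have h3 : |D'| ≤ u / 255 := by linarith
    have h4 : 250 / 255 * u ≤ M := by
      have h5 : p * |D'| ≤ 4 * (u / 255) := mul_le_mul hp4 h3 a1 (by norm_num)
      have h6 : 254 / 255 * u ≤ q * |D| := by nlinarith
      linarith
    constructor <;> linarith
  · subst h
    set u := (1 : ℝ) / 256 ^ (k + 1)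
    have h4 : 248 / 255 * u ≤ M := by
      rcases hpq with h7 | h7
      · -- q ≥ p + 1
        have h8 : (p + 1) * |D| ≤ q * |D| := mul_le_mul_of_nonneg_right h7 a0
        have h9 : p * |D'| ≤ p * (256 / 255 * u) := mul_le_mul_of_nonneg_left hk2' (by linarith)
        have h10 : (p + 1) * (254 / 255 * u) ≤ (p + 1) * |D| :=
          mul_le_mul_of_nonneg_left hk1 (by linarith)
        have h11 : p * u ≤ 3 * u := mul_le_mul_of_nonneg_right (by linarith) u0.le
        linarith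
      · have h8 : (q + 1) * |D'| ≤ p * |D'| := mul_le_mul_of_nonneg_right h7 a1
        have h9 : q * |D| ≤ q * (256 / 255 * u) := mul_le_mul_of_nonneg_left hk2 (by linarith)
        have h10 : (q + 1) * (254 / 255 * u) ≤ (q + 1) * |D'| :=
          mul_le_mul_of_nonneg_left hk1' (by linarith)
        have h11 : q * u ≤ 3 * u := mul_le_mul_of_nonneg_right (by linarith) u0.le
        linarith
    constructor <;> linarith
  · have := hmono k' k h
    set u := (1 : ℝ) / 256 ^ (k + 1)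
    set u' := (1 : ℝ) / 256 ^ (k' + 1)
    have h3 : |D| ≤ u' / 255 := by linarith
    have h4 : 250 / 255 * u' ≤ M := by
      have h5 : q * |D| ≤ 4 * (u' / 255) := mul_le_mul hq4 h3 a0 (by norm_num)
      have h6 : 254 / 255 * u' ≤ p * |D'| := by nlinarith
      linarith
    constructor <;> linarith

theorem pair_ineq (i j : Fin 4) (hij : i ≠ j) {a b a' b' : ℝ} (ha : a ∈ CC) (hb : b ∈ CC)
    (ha' : a' ∈ CC) (hb' : b' ∈ CC) (l : ℝ) :
    |l| + |a - b| + |a' - b'| ≤ 25 * (|a - b - l * nn i| + |a' - b' - l * nn j|) := by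
  have hn : ∀ i : Fin 4, 1 ≤ nn i ∧ nn i ≤ 4 := by
    intro i
    unfold nn
    constructor
    · have : (0:ℝ) ≤ ((i : ℕ) : ℝ) := Nat.cast_nonneg _
      linarith
    · have : ((i : ℕ) : ℝ) ≤ 3 := by
        have h : (i : ℕ) ≤ 3 := by omega
        exact_mod_cast h
      linarith
  have hij' : nn i + 1 ≤ nn j ∨ nn j + 1 ≤ nn i := by
    have h : (i : ℕ) ≠ (j : ℕ) := fun h => hij (Fin.ext h)
    unfold nn
    rcases lt_or_gt_of_ne h with h | h
    · left
      have : ((i : ℕ) : ℝ) + 1 ≤ ((j : ℕ) : ℝ) := by exact_mod_cast h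
      linarith
    · right
      have : ((j : ℕ) : ℝ) + 1 ≤ ((i : ℕ) : ℝ) := by exact_mod_cast h
      linarith
  obtain ⟨hi1, hi4⟩ := hn i
  obtain ⟨hj1, hj4⟩ := hn j
  obtain ⟨h1, h2⟩ := Dig2_sep hi1 hi4 hj1 hj4 hij' (Dig2_form ha hb) (Dig2_form ha' hb')
  set D := a - b
  set D' := a' - b'
  have h3 : |nn j * D - nn i * D'| ≤ 4 * (|D - l * nn i| + |D' - l * nn j|) := by
    have e : nn j * D - nn i * D' = nn j * (D - l * nn i) - nn i * (D' - l * nn j) := by ring
    rw [e]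
    have h4 := abs_sub (nn j * (D - l * nn i)) (nn i * (D' - l * nn j))
    rw [abs_mul, abs_mul, abs_of_pos (by linarith : (0:ℝ) < nn j),
      abs_of_pos (by linarith : (0:ℝ) < nn i)] at h4
    have h5 : nn j * |D - l * nn i| ≤ 4 * |D - l * nn i| :=
      mul_le_mul_of_nonneg_right hj4 (abs_nonneg _)
    have h6 : nn i * |D' - l * nn j| ≤ 4 * |D' - l * nn j| :=
      mul_le_mul_of_nonneg_right hi4 (abs_nonneg _)
    linarith
  have h7 : |l| ≤ |D| + |D - l * nn i| := by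
    have h8 : |l| ≤ |l * nn i| := by
      rw [abs_mul, abs_of_pos (by linarith : (0:ℝ) < nn i)]
      nlinarith [abs_nonneg l]
    have h9 : l * nn i = D - (D - l * nn i) := by ring
    have h10 : |l * nn i| ≤ |D| + |D - l * nn i| := by
      conv_lhs => rw [h9]
      exact abs_sub D (D - l * nn i)
    linarith
  have h11 := abs_nonneg (D' - l * nn j)
  linarith

end Pool.Agent.Wtw
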