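import Mathlib
import Pool.Agent.Wtw.Alg
import Pool.Agent.Wtw.Dig2

/-!
# Kprop: two candidate centres differ at most by the sum of their errors

`T = univ.erase e`, `T' = univ.erase e'` share two indices `i /= j`. By `QT_coord`,
`|w_i - z_i - l n_i| <= rho`, `|w_i - z'_i - l' n_i| <= rho'`, so `|(z'_i - z_i) - (l - l') n_i| <= rho + rho'`,
the same for `j`; `pair_ineq`.
-/

namespace Pool.Agent.Wtw

open MeasureTheory Set Filter Topology
open scoped ENNReal

theorem Kprop_two (e e' : Fin 4) : ∃ i j : Fin 4, i ≠ j ∧ i ≠ e ∧ i ≠ e' ∧ j ≠ e ∧ j ≠ e' := by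
  revert e e'
  decide

theorem Kprop_other (e i : Fin 4) (hi : i ≠ e) : ∃ j : Fin 4, j ≠ e ∧ j ≠ i := by
  revert e i
  decide

theorem Kprop_coord (α : A4) (w : W4) (s : ℝ) (i : Fin 4) (hi : i ≠ α.1) :
    |w i - beta (α.2 i) - lamA α w * nn i| ≤ rho α w s := by
  have h1 := QT_coord (Finset.univ.erase α.1) (w - zet α.2) i (by simp [hi])
  have h2 : Real.sqrt (QT (Finset.univ.erase α.1) (w - zet α.2)) ≤ rho α w s := by
    refine Real.sqrt_le_sqrt ?_
    unfold rhoSq
    nlinarith [sq_nonneg s]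
  exact h1.trans h2

theorem Kprop_pair (α α' : A4) (w : W4) (s : ℝ) (i : Fin 4) (hi : i ≠ α.1) (hi' : i ≠ α'.1) :
    |beta (α'.2 i) - beta (α.2 i) - (lamA α w - lamA α' w) * nn i| ≤ rho α w s + rho α' w s := by
  have h1 := Kprop_coord α w s i hi
  have h2 := Kprop_coord α' w s i hi'
  rw [abs_le] at *
  constructor <;> nlinarith [h1.1, h1.2, h2.1, h2.2]

theorem kprop (α α' : A4) (w : W4) (s : ℝ) :
    |lamA α w - lamA α' w| ≤ 50 * (rho α w s + rho α' w s) := by
  obtain ⟨i, j, hij, hi, hi', hj, hj'⟩ := Kprop_two α.1 α'.1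
  have h1 := Kprop_pair α α' w s i hi hi'
  have h2 := Kprop_pair α α' w s j hj hj'
  have h3 := pair_ineq i j hij (mem_range_self (α'.2 i)) (mem_range_self (α.2 i))
    (mem_range_self (α'.2 j)) (mem_range_self (α.2 j)) (lamA α w - lamA α' w)
  have h4 := abs_nonneg (beta (α'.2 i) - beta (α.2 i))
  have h5 := abs_nonneg (beta (α'.2 j) - beta (α.2 j))
  linarith

/-- two digit tuples with the same omitted index and both with small `rho` are close -/
theorem kclose (e : Fin 4) (x x' : Fin 4 → Dg) (w : W4) (s r : ℝ) (h : rho (e, x) w s ≤ r)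
    (h' : rho (e, x') w s ≤ r) (i : Fin 4) (hi : i ≠ e) : |beta (x i) - beta (x' i)| ≤ 100 * r := by
  obtain ⟨j, hj, hji⟩ := Kprop_other e i hi
  have h1 := Kprop_pair (e, x) (e, x') w s i hi hi
  have h2 := Kprop_pair (e, x) (e, x') w s j hj hj
  have h3 := pair_ineq i j (Ne.symm hji) (mem_range_self (x' i)) (mem_range_self (x i))
    (mem_range_self (x' j)) (mem_range_self (x j)) (lamA (e, x) w - lamA (e, x') w)
  have h4 := abs_nonneg (lamA (e, x) w - lamA (e, x') w)
  have h5 := abs_nonneg (beta (x' j) - beta (x j))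
  simp only at h1 h2
  rw [abs_sub_comm (beta (x i))]
  linarith

/-- the same for the potential -/
theorem vclose (x x' : Idx → Dg) (z : Z8) (m : V2) (s r : ℝ) (h : Real.sqrt (vSq x z m s) ≤ r)
    (h' : Real.sqrt (vSq x' z m s) ≤ r) (k : Idx) : |beta (x k) - beta (x' k)| ≤ 100 * r := by
  obtain ⟨g, i⟩ := k
  obtain ⟨j, hj, hji⟩ := Kprop_other i (i + 1) (by revert i; decide)
  have hji' : j ≠ i := hj
  set l := lamT Finset.univ (fun j => z (g, j) - beta (x (g, j))) with hl
  set l' := lamT Finset.univ (fun j => z (g, j) - beta (x' (g, j))) with hl'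
  have key : ∀ i : Fin 4, |beta (x' (g, i)) - beta (x (g, i)) - (l - l') * nn i| ≤ 2 * r := by
    intro i
    have h1 := ((vSq_ge x z m s).2.2 g i).trans h
    have h2 := ((vSq_ge x' z m s).2.2 g i).trans h'
    rw [← hl] at h1
    rw [← hl'] at h2
    rw [abs_le] at *
    constructor <;> nlinarith [h1.1, h1.2, h2.1, h2.2]
  have h3 := pair_ineq i j (Ne.symm hji') (mem_range_self (x' (g, i))) (mem_range_self (x (g, i)))
    (mem_range_self (x' (g, j))) (mem_range_self (x (g, j))) (l - l')
  have h4 := abs_nonneg (l - l')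
  have h5 := abs_nonneg (beta (x' (g, j)) - beta (x (g, j)))
  have h6 := key i
  have h7 := key j
  rw [abs_sub_comm (beta (x (g, i)))]
  linarith

/-- if all coordinates in `T` except possibly `a` are near the Cantor set, every candidate that uses
`a` has an error `>= dist(w_a, CC) / 401` -/
theorem kfar (α : A4) (w : W4) (s : ℝ) (hs : 0 < s) (a : Fin 4) (ha : a ≠ α.1)
    (h : ∀ i, i ≠ a → Metric.infDist (w i) CC ≤ s) :
    Metric.infDist (w a) CC ≤ 401 * rho α w s := by
  obtain ⟨i, j, hij, hi, hia, hj, hja⟩ := Kprop_two α.1 a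
  have hsr : s ≤ rho α w s := (le_abs_self s).trans (rho_ge α w s)
  obtain ⟨y, hy⟩ := CC_near (w i)
  obtain ⟨y', hy'⟩ := CC_near (w j)
  have hyi : |w i - beta y| ≤ s := by rw [hy]; exact h i hia
  have hyj : |w j - beta y'| ≤ s := by rw [hy']; exact h j hja
  have h1 := Kprop_coord α w s i hi
  have h2 := Kprop_coord α w s j hj
  have h3 := pair_ineq i j hij (mem_range_self y) (mem_range_self (α.2 i))
    (mem_range_self y') (mem_range_self (α.2 j)) (lamA α w)
  have h4 := abs_nonneg (beta y - beta (α.2 i))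
  have h5 := abs_nonneg (beta y' - beta (α.2 j))
  have h6 : |beta y - beta (α.2 i) - lamA α w * nn i| ≤ s + rho α w s := by
    rw [abs_le] at *
    constructor <;> nlinarith [h1.1, h1.2, hyi.1, hyi.2]
  have h7 : |beta y' - beta (α.2 j) - lamA α w * nn j| ≤ s + rho α w s := by
    rw [abs_le] at *
    constructor <;> nlinarith [h2.1, h2.2, hyj.1, hyj.2]
  have h8 : |lamA α w| ≤ 100 * rho α w s := by linarith
  have h9 := Kprop_coord α w s a ha
  have h10 : Metric.infDist (w a) CC ≤ |w a - beta (α.2 a)| := by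
    have := Metric.infDist_le_dist_of_mem (x := w a) (mem_range_self (f := beta) (α.2 a))
    rwa [Real.dist_eq] at this
  have h11 : |w a - beta (α.2 a)| ≤ rho α w s + |lamA α w * nn a| := by
    have := abs_add_le (w a - beta (α.2 a) - lamA α w * nn a) (lamA α w * nn a)
    rw [sub_add_cancel] at this
    linarith
  have h12 : |lamA α w * nn a| ≤ 4 * |lamA α w| := by
    rw [abs_mul]
    have h13 := nn_bd a
    rw [abs_of_nonneg (by linarith : (0:ℝ) ≤ nn a)]
    nlinarith [abs_nonneg (lamA α w)]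
  linarith

end Pool.Agent.Wtw
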