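import Mathlib
import Pool.Agent.Wtw.Kprop
import Pool.Agent.Wtw.Dig3

/-!
# Dist8: the potential `UU`

`r_x = sqrt (vSq x z m s)`, `d = dv z m s = inf r_x`.
* `P8 {r <= t} <= C t`: the set is contained (`vclose`) in a product of eight balls of radius `100 t`
  (`PD_ball_le`: `(4 (100 t)^(1/8))^8`).
* `P8 {r <= 3 d} >= c min(1,d)`: `dv_near`, `vSq_near` (radius `d/3`, or `1/3` if `d >= 1`), `PD_ball_ge`.
* `UU <= C/d` (dyadic: `sum_j (2^j d)^-2 C 2^(j+1) d`), `UU <= 1/d^2`, `UU >= c/d` for `d <= 1`.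
-/

namespace Pool.Agent.Wtw

open MeasureTheory Set Filter Topology
open scoped ENNReal

instance P8_prob : IsProbabilityMeasure P8 := by
  unfold P8; infer_instance

theorem vSq_cont_index (z : Z8) (m : V2) (s : ℝ) : Continuous fun x : Idx → Dg => vSq x z m s := by
  have hb : ∀ k : Idx, Continuous fun x : Idx → Dg => beta (x k) := fun k =>
    beta_cont.comp (continuous_apply k)
  unfold vSq QT lamT
  refine continuous_const.add ?_
  refine continuous_finset_sum _ fun g _ => ?_
  refine continuous_finset_sum _ fun i _ => ?_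
  refine Continuous.pow ?_ 2
  refine Continuous.sub (continuous_const.sub (hb _)) ?_
  refine Continuous.mul ?_ continuous_const
  refine Continuous.div_const ?_ _
  refine continuous_finset_sum _ fun j _ => ?_
  exact continuous_const.mul (continuous_const.sub (hb _))

theorem Dist8_r_cont (z : Z8) (m : V2) (s : ℝ) :
    Continuous fun x : Idx → Dg => Real.sqrt (vSq x z m s) :=
  Real.continuous_sqrt.comp (vSq_cont_index z m s)

theorem Dist8_pos (x : Idx → Dg) (z : Z8) (m : V2) (s : ℝ) (hs : 0 < s) : 0 < vSq x z m s := by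
  have h := (vSq_ge x z m s).1
  rw [abs_of_pos hs] at h
  have h1 : 0 < Real.sqrt (vSq x z m s) := lt_of_lt_of_le hs h
  exact Real.sqrt_pos.1 h1

theorem Dist8_card : Fintype.card Idx = 8 := by simp [Idx]

theorem P8_le : ∃ C : ℝ, 0 < C ∧ ∀ (z : Z8) (m : V2) (s t : ℝ), 0 < t →
    (P8 {x | Real.sqrt (vSq x z m s) ≤ t}).toReal ≤ C * t := by
  refine ⟨4 ^ 8 * 100, by norm_num, fun z m s t ht => ?_⟩
  by_cases hne : ({x | Real.sqrt (vSq x z m s) ≤ t} : Set (Idx → Dg)).Nonempty
  · obtain ⟨x0, hx0⟩ := hne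
    have hsub : ({x | Real.sqrt (vSq x z m s) ≤ t} : Set (Idx → Dg)) ⊆
        Set.pi univ fun k => {y : Dg | |beta y - beta (x0 k)| ≤ 100 * t} := by
      intro x hx k _
      exact vclose x x0 z m s t hx hx0 k
    have h1 : P8 {x | Real.sqrt (vSq x z m s) ≤ t} ≤
        ∏ k : Idx, PD {y : Dg | |beta y - beta (x0 k)| ≤ 100 * t} := by
      refine (measure_mono hsub).trans ?_
      unfold P8
      rw [Measure.pi_pi]
    have h2 : ∏ k : Idx, PD {y : Dg | |beta y - beta (x0 k)| ≤ 100 * t} ≤
        ENNReal.ofReal (4 ^ 8 * 100 * t) := by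
      calc ∏ k : Idx, PD {y : Dg | |beta y - beta (x0 k)| ≤ 100 * t}
          ≤ ∏ k : Idx, ENNReal.ofReal (4 * (100 * t) ^ (1 / 8 : ℝ)) :=
            Finset.prod_le_prod' fun k _ => PD_ball_le _ _ (by positivity)
        _ = ENNReal.ofReal (4 * (100 * t) ^ (1 / 8 : ℝ)) ^ 8 := by
            rw [Finset.prod_const, Finset.card_univ, Dist8_card]
        _ = ENNReal.ofReal (4 ^ 8 * 100 * t) := by
            rw [← ENNReal.ofReal_pow (by positivity)]
            congr 1
            rw [mul_pow, ← Real.rpow_natCast ((100 * t) ^ (1 / 8 : ℝ)) 8,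
              ← Real.rpow_mul (by positivity)]
            norm_num
            ring
    calc (P8 {x | Real.sqrt (vSq x z m s) ≤ t}).toReal
        ≤ (ENNReal.ofReal (4 ^ 8 * 100 * t)).toReal :=
          ENNReal.toReal_mono ENNReal.ofReal_ne_top (h1.trans h2)
      _ = 4 ^ 8 * 100 * t := ENNReal.toReal_ofReal (by positivity)
  · rw [Set.not_nonempty_iff_eq_empty.1 hne]
    simp only [measure_empty, ENNReal.toReal_zero]
    positivity

theorem P8_ge : ∃ c : ℝ, 0 < c ∧ ∀ (z : Z8) (m : V2) (s : ℝ), 0 < s →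
    c * min 1 (dv z m s) ≤ (P8 {x | Real.sqrt (vSq x z m s) ≤ 3 * dv z m s}).toReal := by
  refine ⟨1 / (2 * 4 ^ 8), by norm_num, fun z m s hs => ?_⟩
  obtain ⟨x0, hx0⟩ := dv_near z m s hs
  have hd : 0 < dv z m s := by
    have := (le_dv z m s).1
    rw [abs_of_pos hs] at this
    linarith
  set r : ℝ := min 1 (dv z m s) / 2 with hr
  have hm0 : 0 < min 1 (dv z m s) := lt_min one_pos hd
  have hr0 : 0 < r := by positivity
  have hr1 : r ≤ 1 := by
    have := min_le_left 1 (dv z m s)
    rw [hr]; linarith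
  have hr2 : r ≤ dv z m s / 2 := by
    have := min_le_right 1 (dv z m s)
    rw [hr]; linarith
  have hsub : (Set.pi univ fun k => {y : Dg | |beta y - beta (x0 k)| ≤ r}) ⊆
      ({x | Real.sqrt (vSq x z m s) ≤ 3 * dv z m s} : Set (Idx → Dg)) := by
    intro x hx
    have h := vSq_near x0 x z m s r fun k => by
      rw [abs_sub_comm]; exact hx k (mem_univ k)
    simp only [mem_setOf_eq]
    linarith
  have h1 : ENNReal.ofReal (1 / (2 * 4 ^ 8) * min 1 (dv z m s)) ≤
      P8 {x | Real.sqrt (vSq x z m s) ≤ 3 * dv z m s} := by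
    refine le_trans ?_ (measure_mono hsub)
    unfold P8
    rw [Measure.pi_pi]
    calc ENNReal.ofReal (1 / (2 * 4 ^ 8) * min 1 (dv z m s))
        = ENNReal.ofReal (r ^ (1 / 8 : ℝ) / 4) ^ 8 := by
          rw [← ENNReal.ofReal_pow (by positivity)]
          congr 1
          rw [div_pow, ← Real.rpow_natCast (r ^ (1 / 8 : ℝ)) 8, ← Real.rpow_mul hr0.le]
          norm_num
          rw [hr]
          ring
      _ = ∏ k : Idx, ENNReal.ofReal (r ^ (1 / 8 : ℝ) / 4) := by
          rw [Finset.prod_const, Finset.card_univ, Dist8_card]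
      _ ≤ ∏ k : Idx, PD {y : Dg | |beta y - beta (x0 k)| ≤ r} :=
          Finset.prod_le_prod' fun k _ => PD_ball_ge _ _ hr0 hr1
  calc 1 / (2 * 4 ^ 8) * min 1 (dv z m s)
      = (ENNReal.ofReal (1 / (2 * 4 ^ 8) * min 1 (dv z m s))).toReal :=
        (ENNReal.toReal_ofReal (by positivity)).symm
    _ ≤ _ := ENNReal.toReal_mono (measure_ne_top _ _) h1

theorem Dist8_inv_cont (z : Z8) (m : V2) (s : ℝ) (hs : 0 < s) :
    Continuous fun x : Idx → Dg => 1 / vSq x z m s :=
  continuous_const.div (vSq_cont_index z m s) fun x => (Dist8_pos x z m s hs).ne'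

theorem Dist8_int (z : Z8) (m : V2) (s : ℝ) (hs : 0 < s) :
    Integrable (fun x : Idx → Dg => 1 / vSq x z m s) P8 :=
  (Dist8_inv_cont z m s hs).integrable_of_hasCompactSupport (HasCompactSupport.of_compactSpace _)

theorem UU_pos (z : Z8) (m : V2) (s : ℝ) (hs : 0 < s) : 0 < UU z m s := by
  unfold UU
  rw [integral_pos_iff_support_of_nonneg (fun x => by
    have := Dist8_pos x z m s hs
    positivity) (Dist8_int z m s hs)]
  have : Function.support (fun x : Idx → Dg => 1 / vSq x z m s) = univ := by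
    ext x
    have := Dist8_pos x z m s hs
    simp only [Function.mem_support, mem_univ, iff_true]
    positivity
  rw [this]
  simp

theorem Dist8_dpos (z : Z8) (m : V2) (s : ℝ) (hs : 0 < s) : 0 < dv z m s := by
  have := (le_dv z m s).1
  rw [abs_of_pos hs] at this
  linarith

theorem Dist8_sq_le (x : Idx → Dg) (z : Z8) (m : V2) (s : ℝ) (hs : 0 < s) :
    dv z m s ^ 2 ≤ vSq x z m s := by
  have h1 := dv_le x z m s
  have h2 := Dist8_dpos z m s hs
  have h3 := Real.sq_sqrt (Dist8_pos x z m s hs).le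
  calc dv z m s ^ 2 ≤ Real.sqrt (vSq x z m s) ^ 2 := by gcongr
    _ = _ := h3

theorem UU_le_sq (z : Z8) (m : V2) (s : ℝ) (hs : 0 < s) : UU z m s ≤ 1 / dv z m s ^ 2 := by
  unfold UU
  have hd := Dist8_dpos z m s hs
  calc ∫ x, 1 / vSq x z m s ∂P8 ≤ ∫ _x : Idx → Dg, 1 / dv z m s ^ 2 ∂P8 := by
        refine integral_mono (Dist8_int z m s hs) (integrable_const _) fun x => ?_
        exact one_div_le_one_div_of_le (by positivity) (Dist8_sq_le x z m s hs)
    _ = _ := by simp

theorem UU_le : ∃ C : ℝ, 0 < C ∧ ∀ (z : Z8) (m : V2) (s : ℝ), 0 < s → UU z m s ≤ C / dv z m s := by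
  obtain ⟨C, hC, h⟩ := P8_le
  refine ⟨2 * C, by positivity, fun z m s hs => ?_⟩
  have hd := Dist8_dpos z m s hs
  have hnn : 0 ≤ᵐ[P8] fun x : Idx → Dg => 1 / vSq x z m s :=
    Eventually.of_forall fun x => by
      have := Dist8_pos x z m s hs
      positivity
  have hle : ∫⁻ x, ENNReal.ofReal (1 / vSq x z m s) ∂P8 ≤ ENNReal.ofReal (2 * C / dv z m s) := by
    rw [lintegral_eq_lintegral_meas_lt P8 hnn
      (Dist8_inv_cont z m s hs).measurable.aemeasurable]
    have hb : ∀ t ∈ Ioi (0 : ℝ), P8 {x | t < 1 / vSq x z m s} ≤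
        (Ioc 0 (1 / dv z m s ^ 2)).indicator
          (fun t : ℝ => ENNReal.ofReal (C * t ^ (-(1 / 2) : ℝ))) t := by
      intro t ht
      have ht0 : (0 : ℝ) < t := ht
      by_cases htd : t ≤ 1 / dv z m s ^ 2
      · rw [indicator_of_mem (show t ∈ Ioc 0 (1 / dv z m s ^ 2) from ⟨ht0, htd⟩)]
        have hsub : ({x | t < 1 / vSq x z m s} : Set (Idx → Dg)) ⊆
            {x | Real.sqrt (vSq x z m s) ≤ t ^ (-(1 / 2) : ℝ)} := by
          intro x hx
          simp only [mem_setOf_eq] at hx ⊢
          have hv := Dist8_pos x z m s hs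
          have h1 : vSq x z m s < 1 / t := by
            rw [lt_div_iff₀ ht0]
            rw [lt_div_iff₀ hv] at hx
            linarith
          rw [Real.rpow_neg ht0.le, ← Real.sqrt_eq_rpow, ← Real.sqrt_inv]
          apply Real.sqrt_le_sqrt
          rw [inv_eq_one_div]
          exact h1.le
        refine (measure_mono hsub).trans ?_
        rw [← ENNReal.ofReal_toReal (measure_ne_top P8 _)]
        exact ENNReal.ofReal_le_ofReal (h z m s _ (Real.rpow_pos_of_pos ht0 _))
      · rw [indicator_of_notMem (fun h => htd h.2)]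
        have : ({x | t < 1 / vSq x z m s} : Set (Idx → Dg)) = ∅ := by
          ext x
          simp only [mem_setOf_eq, mem_empty_iff_false, iff_false, not_lt]
          push Not at htd
          exact (one_div_le_one_div_of_le (by positivity) (Dist8_sq_le x z m s hs)).trans htd.le
        rw [this]
        simp
    have hI : IntegrableOn (fun t : ℝ => C * t ^ (-(1 / 2) : ℝ)) (Ioc 0 (1 / dv z m s ^ 2)) := by
      have := (intervalIntegral.intervalIntegrable_rpow' (a := 0) (b := 1 / dv z m s ^ 2)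
        (r := (-(1 / 2) : ℝ)) (by norm_num)).const_mul C
      rwa [intervalIntegrable_iff_integrableOn_Ioc_of_le (by positivity)] at this
    calc ∫⁻ t in Ioi 0, P8 {x | t < 1 / vSq x z m s}
        ≤ ∫⁻ t in Ioi 0, (Ioc 0 (1 / dv z m s ^ 2)).indicator
          (fun t : ℝ => ENNReal.ofReal (C * t ^ (-(1 / 2) : ℝ))) t :=
          setLIntegral_mono' measurableSet_Ioi hb
      _ ≤ ∫⁻ t, (Ioc 0 (1 / dv z m s ^ 2)).indicator
          (fun t : ℝ => ENNReal.ofReal (C * t ^ (-(1 / 2) : ℝ))) t := setLIntegral_le_lintegral _ _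
      _ = ∫⁻ t in Ioc 0 (1 / dv z m s ^ 2), ENNReal.ofReal (C * t ^ (-(1 / 2) : ℝ)) :=
          lintegral_indicator measurableSet_Ioc _
      _ = ENNReal.ofReal (∫ t in Ioc 0 (1 / dv z m s ^ 2), C * t ^ (-(1 / 2) : ℝ)) := by
          rw [ofReal_integral_eq_lintegral_ofReal hI]
          refine (ae_restrict_iff' measurableSet_Ioc).2 (Eventually.of_forall fun t ht => ?_)
          have := ht.1
          positivity
      _ = ENNReal.ofReal (2 * C / dv z m s) := by
          congr 1
          rw [← intervalIntegral.integral_of_le (by positivity),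
            intervalIntegral.integral_const_mul, integral_rpow (Or.inl (by norm_num))]
          have h1 : (1 / dv z m s ^ 2) ^ (-(1 / 2) + 1 : ℝ) = 1 / dv z m s := by
            rw [show (-(1 / 2) + 1 : ℝ) = 1 / 2 by norm_num, ← Real.sqrt_eq_rpow,
              Real.sqrt_div' _ (by positivity), Real.sqrt_one, Real.sqrt_sq hd.le]
          rw [h1, Real.zero_rpow (by norm_num)]
          field_simp
          ring
  have h2 : UU z m s = (∫⁻ x, ENNReal.ofReal (1 / vSq x z m s) ∂P8).toReal := by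
    unfold UU
    rw [integral_eq_lintegral_of_nonneg_ae hnn (Dist8_inv_cont z m s hs).aestronglyMeasurable]
  rw [h2]
  calc (∫⁻ x, ENNReal.ofReal (1 / vSq x z m s) ∂P8).toReal
      ≤ (ENNReal.ofReal (2 * C / dv z m s)).toReal :=
        ENNReal.toReal_mono ENNReal.ofReal_ne_top hle
    _ = _ := ENNReal.toReal_ofReal (by positivity)

theorem UU_ge : ∃ c : ℝ, 0 < c ∧ ∀ (z : Z8) (m : V2) (s : ℝ), 0 < s → dv z m s ≤ 1 →
    c / dv z m s ≤ UU z m s := by
  obtain ⟨c, hc, h⟩ := P8_ge
  refine ⟨c / 9, by positivity, fun z m s hs hd1 => ?_⟩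
  have hd := Dist8_dpos z m s hs
  have hh := h z m s hs
  rw [min_eq_right hd1] at hh
  set S : Set (Idx → Dg) := {x | Real.sqrt (vSq x z m s) ≤ 3 * dv z m s} with hS
  have hSm : MeasurableSet S := by
    have : IsClosed S := isClosed_le (Dist8_r_cont z m s) continuous_const
    exact this.measurableSet
  have h1 : ∫ x in S, 1 / (9 * dv z m s ^ 2) ∂P8 ≤ ∫ x in S, 1 / vSq x z m s ∂P8 := by
    refine setIntegral_mono_on (integrable_const _).integrableOn
      (Dist8_int z m s hs).integrableOn hSm fun x hx => ?_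
    have hv := Dist8_pos x z m s hs
    refine one_div_le_one_div_of_le hv ?_
    have h3 := Real.sq_sqrt hv.le
    have h4 : Real.sqrt (vSq x z m s) ^ 2 ≤ (3 * dv z m s) ^ 2 := by
      have : Real.sqrt (vSq x z m s) ≤ 3 * dv z m s := hx
      gcongr
    calc vSq x z m s = Real.sqrt (vSq x z m s) ^ 2 := h3.symm
      _ ≤ (3 * dv z m s) ^ 2 := h4
      _ = 9 * dv z m s ^ 2 := by ring
  have h2 : ∫ x in S, 1 / vSq x z m s ∂P8 ≤ UU z m s := by
    unfold UU
    refine setIntegral_le_integral (Dist8_int z m s hs) (Eventually.of_forall fun x => ?_)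
    have := Dist8_pos x z m s hs
    simp only [Pi.zero_apply]
    positivity
  rw [setIntegral_const] at h1
  have h5 : P8.real S = (P8 S).toReal := rfl
  rw [h5, smul_eq_mul] at h1
  calc c / 9 / dv z m s = c * dv z m s * (1 / (9 * dv z m s ^ 2)) := by
        field_simp
    _ ≤ (P8 S).toReal * (1 / (9 * dv z m s ^ 2)) := by gcongr
    _ ≤ UU z m s := h1.trans h2

end Pool.Agent.Wtw
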