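import Mathlib
import Pool.Agent.Wtw.Kprop
import Pool.Agent.Wtw.Dig3

/-!
# Dist4: the distribution of `rho`

* `PA {rho <= t} <= C t^(3/8)`: for each omitted index `e`, if the set is nonempty it is contained
  (`kclose`) in `{x : |beta x_i - beta x0_i| <= 100 t, i /= e}`, a product of three balls: `PD_ball_le`.
* `PA {rho <= 3 d} >= c min(1,d)^(3/8)`, `d = dmu w s`: by `dmu_near` and `rho_le_rho` it contains
  `{(e, x) : |beta x_i - beta x0_i| <= d / 2, i /= e}` (if `d >= 1`: use `1/2` instead of `d/2`): `PD_ball_ge`.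
* `tail`: the integral of `1/rho^2` over `{rho >= t}` (`0 < t <= 1`): dyadic decomposition
  `2^j t <= rho < 2^(j+1) t`: `sum_j (2^j t)^-2 C (2^(j+1) t)^(3/8) <= C' t^(3/8-2)`.
* `one_over`: `∫ 1/rho <= C d ∫ 1/rho^2`: for `d <= 1` dyadic decomposition from `t = d`:
  `∫ 1/rho <= sum_j (2^j d)^-1 C (2^(j+1) d)^(3/8) <= C' d^(3/8-1)` and `∫ 1/rho^2 >= (3d)^-2 c d^(3/8)`;
  for `d >= 1`: `∫ 1/rho <= 4/d`, `∫ 1/rho^2 >= c/(3 d)^2`.
All integrals are over a finite measure of bounded functions (`rho >= s > 0`), `rho` is continuous in the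
index, hence measurable.
-/

namespace Pool.Agent.Wtw

open MeasureTheory Set Filter Topology
open scoped ENNReal

instance PA_fin : IsFiniteMeasure PA := by
  unfold PA; infer_instance

theorem PA_univ : PA univ = 4 := by
  unfold PA
  rw [← univ_prod_univ, Measure.prod_prod]
  simp [Measure.count_univ]

theorem zet_cont : Continuous zet := by
  unfold zet
  exact continuous_pi fun i => beta_cont.comp (continuous_apply i)

theorem rho_cont_index (w : W4) (s : ℝ) : Continuous fun α : A4 => rho α w s := by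
  rw [continuous_prod_of_discrete_left]
  intro e
  unfold rho rhoSq QT lamT
  have h : ∀ i, Continuous fun x : Fin 4 → Dg => (w - zet x) i := by
    intro i
    exact continuous_const.sub ((continuous_apply i).comp zet_cont)
  have hl : Continuous fun x : Fin 4 → Dg =>
      (∑ j ∈ Finset.univ.erase e, nn j * (w - zet x) j) / ∑ j ∈ Finset.univ.erase e, nn j ^ 2 := by
    refine Continuous.div_const ?_ _
    exact continuous_finsetSum _ fun j _ => continuous_const.mul (h j)
  have hs : Continuous fun x : Fin 4 → Dg => s ^ 2 + ∑ i ∈ Finset.univ.erase e, ((w - zet x) i -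
      (∑ j ∈ Finset.univ.erase e, nn j * (w - zet x) j) / (∑ j ∈ Finset.univ.erase e, nn j ^ 2) *
        nn i) ^ 2 :=
    continuous_const.add (continuous_finsetSum _ fun i _ => ((h i).sub (hl.mul continuous_const)).pow 2)
  exact hs.sqrt

theorem Dist4_meas (w : W4) (s : ℝ) : Measurable fun α : A4 => rho α w s :=
  (rho_cont_index w s).measurable

theorem Dist4_sq_eq (α : A4) (w : W4) (s : ℝ) : rhoSq α w s = rho α w s ^ 2 := (rho_sq α w s).symm

theorem Dist4_pos (α : A4) (w : W4) (s : ℝ) (hs : 0 < s) : 0 < rho α w s :=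
  lt_of_lt_of_le (abs_pos.2 hs.ne') (rho_ge α w s)

theorem Dist4_int1 (w : W4) (s : ℝ) (hs : 0 < s) : Integrable (fun α => 1 / rho α w s) PA := by
  refine Integrable.of_bound ((measurable_const.div (Dist4_meas w s)).aestronglyMeasurable) (1 / s) ?_
  refine Eventually.of_forall fun α => ?_
  rw [Real.norm_of_nonneg (by have := Dist4_pos α w s hs; positivity)]
  have h1 := rho_ge α w s
  rw [abs_of_pos hs] at h1
  exact one_div_le_one_div_of_le hs h1

theorem Dist4_int2 (w : W4) (s : ℝ) (hs : 0 < s) : Integrable (fun α => 1 / rhoSq α w s) PA := by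
  simp_rw [Dist4_sq_eq]
  refine Integrable.of_bound ((measurable_const.div ((Dist4_meas w s).pow_const 2)).aestronglyMeasurable)
    (1 / s ^ 2) ?_
  refine Eventually.of_forall fun α => ?_
  rw [Real.norm_of_nonneg (by have := Dist4_pos α w s hs; positivity)]
  have h1 := rho_ge α w s
  rw [abs_of_pos hs] at h1
  exact one_div_le_one_div_of_le (by positivity) (pow_le_pow_left₀ hs.le h1 2)

/-- measure of a set as a sum over the omitted index -/
theorem Dist4_slice (S : Set A4) (hS : MeasurableSet S) :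
    PA S = ∑ e : Fin 4, (Measure.pi fun _ : Fin 4 => PD) {x | (e, x) ∈ S} := by
  unfold PA
  rw [Measure.prod_apply hS, lintegral_count, tsum_fintype]
  rfl

theorem Dist4_closed (w : W4) (s t : ℝ) : MeasurableSet {α : A4 | rho α w s ≤ t} :=
  measurableSet_le (Dist4_meas w s) measurable_const

/-- the measure of a product of three balls -/
theorem Dist4_box (e : Fin 4) (B : Fin 4 → Set Dg) :
    (Measure.pi fun _ : Fin 4 => PD) {x | ∀ i, i ≠ e → x i ∈ B i} =
      ∏ i ∈ Finset.univ.erase e, PD (B i) := by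
  have h : {x : Fin 4 → Dg | ∀ i, i ≠ e → x i ∈ B i} =
      Set.pi univ fun i => if i = e then univ else B i := by
    ext x
    show (∀ i, i ≠ e → x i ∈ B i) ↔ ∀ i, i ∈ univ → x i ∈ (if i = e then univ else B i)
    refine forall_congr' fun i => ?_
    by_cases hi : i = e
    · simp [hi]
    · simp [hi]
  rw [h, Measure.pi_pi]
  rw [← Finset.mul_prod_erase _ _ (Finset.mem_univ e)]
  simp only [if_true, measure_univ, one_mul]
  refine Finset.prod_congr rfl fun i hi => ?_
  rw [if_neg (Finset.ne_of_mem_erase hi)]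

theorem PA_le : ∃ C : ℝ, 0 < C ∧ ∀ (w : W4) (s t : ℝ), 0 < t →
    (PA {α | rho α w s ≤ t}).toReal ≤ C * t ^ (3 / 8 : ℝ) := by
  refine ⟨4 * (4 * (100 : ℝ) ^ (1 / 8 : ℝ)) ^ 3, by positivity, ?_⟩
  intro w s t ht
  set K : ℝ := 4 * (100 : ℝ) ^ (1 / 8 : ℝ) with hK
  have hK0 : 0 < K := by positivity
  have hpow : (K * t ^ (1 / 8 : ℝ)) ^ 3 = K ^ 3 * t ^ (3 / 8 : ℝ) := by
    rw [mul_pow, ← Real.rpow_natCast (t ^ (1 / 8 : ℝ)) 3, ← Real.rpow_mul ht.le]
    norm_num
  have key : ∀ e : Fin 4, (Measure.pi fun _ : Fin 4 => PD) {x | (e, x) ∈ {α : A4 | rho α w s ≤ t}} ≤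
      ENNReal.ofReal (K ^ 3 * t ^ (3 / 8 : ℝ)) := by
    intro e
    rcases Set.eq_empty_or_nonempty {x | (e, x) ∈ {α : A4 | rho α w s ≤ t}} with h | ⟨x0, hx0⟩
    · rw [h]; simp
    · have hsub : {x | (e, x) ∈ {α : A4 | rho α w s ≤ t}} ⊆
          {x : Fin 4 → Dg | ∀ i, i ≠ e → x i ∈ {y : Dg | |beta y - beta (x0 i)| ≤ 100 * t}} := by
        intro x hx i hi
        exact kclose e x x0 w s t hx hx0 i hi
      refine (measure_mono hsub).trans ?_
      rw [Dist4_box e (fun i => {y : Dg | |beta y - beta (x0 i)| ≤ 100 * t})]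
      have h1 : ∀ i ∈ Finset.univ.erase e, PD {y : Dg | |beta y - beta (x0 i)| ≤ 100 * t} ≤
          ENNReal.ofReal (K * t ^ (1 / 8 : ℝ)) := by
        intro i _
        refine (PD_ball_le (beta (x0 i)) (100 * t) (by positivity)).trans (le_of_eq ?_)
        rw [Real.mul_rpow (by norm_num) ht.le, ← mul_assoc]
      refine (Finset.prod_le_prod' h1).trans ?_
      rw [Finset.prod_const, Finset.card_erase_of_mem (Finset.mem_univ e), Finset.card_univ,
        Fintype.card_fin, ← ENNReal.ofReal_pow (by positivity)]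
      simp only [Nat.reduceSub]
      rw [hpow]
  have h2 : PA {α | rho α w s ≤ t} ≤ ENNReal.ofReal (4 * (K ^ 3 * t ^ (3 / 8 : ℝ))) := by
    rw [Dist4_slice _ (Dist4_closed w s t)]
    refine (Finset.sum_le_sum fun e _ => key e).trans (le_of_eq ?_)
    rw [Finset.sum_const, Finset.card_univ, Fintype.card_fin, nsmul_eq_mul,
      ENNReal.ofReal_mul (by norm_num : (0 : ℝ) ≤ 4)]
    norm_num
  refine (ENNReal.toReal_mono ENNReal.ofReal_ne_top h2).trans ?_
  rw [ENNReal.toReal_ofReal (by positivity), mul_assoc]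

theorem PA_ge : ∃ c : ℝ, 0 < c ∧ ∀ (w : W4) (s : ℝ), 0 < s →
    c * (min 1 (dmu w s)) ^ (3 / 8 : ℝ) ≤ (PA {α | rho α w s ≤ 3 * dmu w s}).toReal := by
  refine ⟨(1 / 2) ^ (3 / 8 : ℝ) / 64, by positivity, ?_⟩
  intro w s hs
  set d := dmu w s with hd
  have hd0 : 0 < d := by
    have := le_dmu w s
    rw [abs_of_pos hs] at this
    exact lt_of_lt_of_le hs this
  obtain ⟨⟨e, x0⟩, hα⟩ := dmu_near w s hs
  set r : ℝ := min 1 d * (1 / 2) with hr
  have hm0 : 0 < min 1 d := lt_min one_pos hd0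
  have hr0 : 0 < r := by positivity
  have hr1 : r ≤ 1 := by
    have : min 1 d ≤ 1 := min_le_left _ _
    rw [hr]; linarith
  have hrd : 2 * r ≤ d := by
    have : min 1 d ≤ d := min_le_right _ _
    rw [hr]; linarith
  have hsub : {x : Fin 4 → Dg | ∀ i, i ≠ e → x i ∈ {y : Dg | |beta y - beta (x0 i)| ≤ r}} ⊆
      {x | (e, x) ∈ {α : A4 | rho α w s ≤ 3 * d}} := by
    intro x hx
    have h1 := rho_le_rho e x0 x w s r (by
      intro i hi
      rw [abs_sub_comm]
      exact hx i hi)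
    show rho (e, x) w s ≤ 3 * d
    linarith
  have h2 : ENNReal.ofReal ((r ^ (1 / 8 : ℝ) / 4) ^ 3) ≤ PA {α | rho α w s ≤ 3 * d} := by
    rw [Dist4_slice _ (Dist4_closed w s _)]
    refine le_trans ?_ (Finset.single_le_sum (fun _ _ => bot_le) (Finset.mem_univ e))
    refine le_trans ?_ (measure_mono hsub)
    rw [Dist4_box e (fun i => {y : Dg | |beta y - beta (x0 i)| ≤ r})]
    have h1 : ∀ i ∈ Finset.univ.erase e, ENNReal.ofReal (r ^ (1 / 8 : ℝ) / 4) ≤
        PD {y : Dg | |beta y - beta (x0 i)| ≤ r} := fun i _ => PD_ball_ge (x0 i) r hr0 hr1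
    refine le_trans (le_of_eq ?_) (Finset.prod_le_prod' h1)
    rw [Finset.prod_const, Finset.card_erase_of_mem (Finset.mem_univ e), Finset.card_univ,
      Fintype.card_fin, ← ENNReal.ofReal_pow (by positivity)]
  have h3 : (r ^ (1 / 8 : ℝ) / 4) ^ 3 = (1 / 2) ^ (3 / 8 : ℝ) / 64 * (min 1 d) ^ (3 / 8 : ℝ) := by
    rw [div_pow, ← Real.rpow_natCast (r ^ (1 / 8 : ℝ)) 3, ← Real.rpow_mul hr0.le, hr,
      Real.mul_rpow hm0.le (by norm_num)]
    norm_num
    ring
  rw [← h3]
  have h4 := ENNReal.toReal_mono (measure_ne_top PA _) h2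
  rwa [ENNReal.toReal_ofReal (by positivity)] at h4

/-- dyadic decomposition -/
theorem Dist4_tail (C : ℝ) (hC : 0 < C) (p : ℝ) (hp : 3 / 8 < p) : ∃ C' : ℝ, 0 < C' ∧
    ∀ (f : A4 → ℝ), Measurable f → (∀ α, 0 < f α) →
      (∀ t, 0 < t → (PA {α | f α ≤ t}).toReal ≤ C * t ^ (3 / 8 : ℝ)) →
      ∀ t, 0 < t → ∫ α in {α | t ≤ f α}, f α ^ (-p) ∂PA ≤ C' * t ^ (3 / 8 - p) := by
  set q : ℝ := 2 ^ (3 / 8 - p) with hq
  have hq0 : 0 < q := by positivity
  have hq1 : q < 1 := Real.rpow_lt_one_of_one_lt_of_neg (by norm_num) (by linarith)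
  refine ⟨C * 2 ^ (3 / 8 : ℝ) * (1 - q)⁻¹, ?_, ?_⟩
  · have : 0 < 1 - q := by linarith
    positivity
  intro f hf hpos hle t ht
  have hS : MeasurableSet {α | t ≤ f α} := measurableSet_le measurable_const hf
  have hT : ∀ j : ℕ, MeasurableSet {α | f α ≤ 2 ^ (j + 1) * t} := fun j =>
    measurableSet_le hf measurable_const
  have h1 : ∫⁻ α in {α | t ≤ f α}, ENNReal.ofReal (f α ^ (-p)) ∂PA ≤
      ENNReal.ofReal (C * 2 ^ (3 / 8 : ℝ) * (1 - q)⁻¹ * t ^ (3 / 8 - p)) := by
    calc ∫⁻ α in {α | t ≤ f α}, ENNReal.ofReal (f α ^ (-p)) ∂PA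
        ≤ ∫⁻ α, ∑' j : ℕ, {α | f α ≤ 2 ^ (j + 1) * t}.indicator
            (fun _ => ENNReal.ofReal ((2 ^ j * t) ^ (-p))) α ∂PA := by
          rw [← lintegral_indicator hS]
          refine lintegral_mono fun α => ?_
          by_cases hα : t ≤ f α
          · rw [indicator_of_mem (show α ∈ {α | t ≤ f α} from hα)]
            obtain ⟨j, hj1, hj2⟩ := exists_nat_pow_near (show 1 ≤ f α / t from (one_le_div ht).2 hα)
              (show (1 : ℝ) < 2 by norm_num)
            refine le_trans ?_ (ENNReal.le_tsum j)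
            have hmem : α ∈ {α | f α ≤ 2 ^ (j + 1) * t} := by
              show f α ≤ 2 ^ (j + 1) * t
              rw [div_lt_iff₀ ht] at hj2
              exact hj2.le
            rw [indicator_of_mem hmem]
            refine ENNReal.ofReal_le_ofReal ?_
            refine Real.rpow_le_rpow_of_nonpos (by positivity) ?_ (by linarith)
            rw [le_div_iff₀ ht] at hj1
            exact hj1
          · rw [indicator_of_notMem (show α ∉ {α | t ≤ f α} from hα)]
            exact bot_le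
      _ = ∑' j : ℕ, ENNReal.ofReal ((2 ^ j * t) ^ (-p)) * PA {α | f α ≤ 2 ^ (j + 1) * t} := by
          rw [lintegral_tsum fun j => (measurable_const.indicator (hT j)).aemeasurable]
          refine tsum_congr fun j => ?_
          rw [lintegral_indicator (hT j), lintegral_const, Measure.restrict_apply_univ]
      _ ≤ ∑' j : ℕ, ENNReal.ofReal (C * 2 ^ (3 / 8 : ℝ) * t ^ (3 / 8 - p)) * ENNReal.ofReal q ^ j := by
          refine ENNReal.tsum_le_tsum fun j => ?_
          have h2 : PA {α | f α ≤ 2 ^ (j + 1) * t} ≤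
              ENNReal.ofReal (C * (2 ^ (j + 1) * t) ^ (3 / 8 : ℝ)) :=
            (ENNReal.le_ofReal_iff_toReal_le (measure_ne_top _ _) (by positivity)).2
              (hle _ (by positivity))
          refine (mul_le_mul_right h2 _).trans (le_of_eq ?_)
          rw [← ENNReal.ofReal_pow hq0.le, ← ENNReal.ofReal_mul (by positivity),
            ← ENNReal.ofReal_mul (by positivity)]
          congr 1
          have e1 : ((2 : ℝ) ^ (j + 1) * t) ^ (3 / 8 : ℝ) = 2 ^ (3 / 8 : ℝ) * (2 ^ j * t) ^ (3 / 8 : ℝ) := by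
            rw [← Real.mul_rpow (by norm_num) (by positivity)]
            congr 1
            ring
          rw [e1]
          have e2 : ((2 : ℝ) ^ j * t) ^ (-p) * (2 ^ j * t) ^ (3 / 8 : ℝ) = q ^ j * t ^ (3 / 8 - p) := by
            rw [← Real.rpow_add (by positivity), show -p + 3 / 8 = 3 / 8 - p by ring,
              Real.mul_rpow (by positivity) ht.le, hq, ← Real.rpow_natCast 2 j,
              ← Real.rpow_natCast (2 ^ (3 / 8 - p)) j, ← Real.rpow_mul (by norm_num),
              ← Real.rpow_mul (by norm_num)]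
            congr 2
            ring
          calc ((2 : ℝ) ^ j * t) ^ (-p) * (C * (2 ^ (3 / 8 : ℝ) * (2 ^ j * t) ^ (3 / 8 : ℝ)))
              = C * 2 ^ (3 / 8 : ℝ) * (((2 : ℝ) ^ j * t) ^ (-p) * (2 ^ j * t) ^ (3 / 8 : ℝ)) := by ring
            _ = _ := by rw [e2]; ring
      _ = ENNReal.ofReal (C * 2 ^ (3 / 8 : ℝ) * (1 - q)⁻¹ * t ^ (3 / 8 - p)) := by
          rw [ENNReal.tsum_mul_left, ENNReal.tsum_geometric]
          have : (1 - ENNReal.ofReal q)⁻¹ = ENNReal.ofReal ((1 - q)⁻¹) := by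
            rw [ENNReal.ofReal_inv_of_pos (by linarith), ENNReal.ofReal_sub _ hq0.le,
              ENNReal.ofReal_one]
          rw [this, ← ENNReal.ofReal_mul (by positivity)]
          congr 1
          ring
  rw [integral_eq_lintegral_of_nonneg_ae (Eventually.of_forall fun α =>
    Real.rpow_nonneg (hpos α).le _) ((hf.pow_const (-p)).aestronglyMeasurable)]
  refine (ENNReal.toReal_mono ENNReal.ofReal_ne_top h1).trans ?_
  rw [ENNReal.toReal_ofReal]
  have : 0 < 1 - q := by linarith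
  positivity

theorem rho_tail : ∃ C : ℝ, 0 < C ∧ ∀ (w : W4) (s t : ℝ), 0 < s → 0 < t → t ≤ 1 →
    ∫ α in {α | t ≤ rho α w s}, 1 / rhoSq α w s ∂PA ≤ C * t ^ (-(13 / 8) : ℝ) := by
  obtain ⟨C, hC, h⟩ := PA_le
  obtain ⟨C', hC', h'⟩ := Dist4_tail C hC 2 (by norm_num)
  refine ⟨C', hC', ?_⟩
  intro w s t hs ht _
  have := h' (fun α => rho α w s) (Dist4_meas w s) (fun α => Dist4_pos α w s hs)
    (fun t ht => h w s t ht) t ht
  rw [show (3 / 8 - 2 : ℝ) = -(13 / 8) by norm_num] at this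
  refine le_trans (le_of_eq ?_) this
  refine integral_congr_ae (Eventually.of_forall fun α => ?_)
  show 1 / rhoSq α w s = rho α w s ^ (-2 : ℝ)
  rw [Dist4_sq_eq, Real.rpow_neg (Dist4_pos α w s hs).le, one_div]
  norm_num

/-- lower bound of `∫ 1/rho^2` -/
theorem Dist4_low : ∃ c : ℝ, 0 < c ∧ ∀ (w : W4) (s : ℝ), 0 < s →
    c * (min 1 (dmu w s)) ^ (3 / 8 : ℝ) / dmu w s ^ 2 ≤ ∫ α, 1 / rhoSq α w s ∂PA := by
  obtain ⟨c, hc, h⟩ := PA_ge
  refine ⟨c / 9, by positivity, ?_⟩
  intro w s hs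
  have hd0 : 0 < dmu w s := by
    have := le_dmu w s
    rw [abs_of_pos hs] at this
    exact lt_of_lt_of_le hs this
  have h1 := h w s hs
  have hm := Dist4_closed w s (3 * dmu w s)
  have h2 : ∫ α, {α | rho α w s ≤ 3 * dmu w s}.indicator (fun _ => 1 / (3 * dmu w s) ^ 2) α ∂PA ≤
      ∫ α, 1 / rhoSq α w s ∂PA := by
    refine integral_mono ((integrable_const _).indicator hm) (Dist4_int2 w s hs) fun α => ?_
    by_cases hα : rho α w s ≤ 3 * dmu w s
    · show {α | rho α w s ≤ 3 * dmu w s}.indicator (fun _ => 1 / (3 * dmu w s) ^ 2) α ≤ 1 / rhoSq α w s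
      rw [indicator_of_mem (show α ∈ {α | rho α w s ≤ 3 * dmu w s} from hα), Dist4_sq_eq]
      have := Dist4_pos α w s hs
      exact one_div_le_one_div_of_le (by positivity) (pow_le_pow_left₀ this.le hα 2)
    · show {α | rho α w s ≤ 3 * dmu w s}.indicator (fun _ => 1 / (3 * dmu w s) ^ 2) α ≤ 1 / rhoSq α w s
      rw [indicator_of_notMem (show α ∉ {α | rho α w s ≤ 3 * dmu w s} from hα), Dist4_sq_eq]
      have := Dist4_pos α w s hs
      positivity
  rw [integral_indicator_const _ hm] at h2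
  refine le_trans ?_ h2
  rw [smul_eq_mul, Measure.real]
  calc c / 9 * (min 1 (dmu w s)) ^ (3 / 8 : ℝ) / dmu w s ^ 2
      = (c * (min 1 (dmu w s)) ^ (3 / 8 : ℝ)) * (1 / (3 * dmu w s) ^ 2) := by
        field_simp
        ring
    _ ≤ _ := mul_le_mul_of_nonneg_right h1 (by positivity)

theorem one_over : ∃ C : ℝ, 0 < C ∧ ∀ (w : W4) (s : ℝ), 0 < s →
    ∫ α, 1 / rho α w s ∂PA ≤ C * dmu w s * ∫ α, 1 / rhoSq α w s ∂PA := by
  obtain ⟨C, hC, h⟩ := PA_le
  obtain ⟨C1, hC1, h1⟩ := Dist4_tail C hC 1 (by norm_num)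
  obtain ⟨c, hc, h2⟩ := Dist4_low
  refine ⟨(C1 + 4) / c, by positivity, ?_⟩
  intro w s hs
  set d := dmu w s with hd
  have hd0 : 0 < d := by
    have := le_dmu w s
    rw [abs_of_pos hs] at this
    exact lt_of_lt_of_le hs this
  have h3 := h2 w s hs
  rw [← hd] at h3
  set W := ∫ α, 1 / rhoSq α w s ∂PA with hW
  rcases le_total d 1 with hd1 | hd1
  · have h4 := h1 (fun α => rho α w s) (Dist4_meas w s) (fun α => Dist4_pos α w s hs)
      (fun t ht => h w s t ht) d hd0
    have h5 : {α | d ≤ rho α w s} = univ := by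
      ext α
      exact ⟨fun _ => mem_univ _, fun _ => dmu_le α w s⟩
    rw [h5, Measure.restrict_univ] at h4
    have h6 : ∫ α, 1 / rho α w s ∂PA ≤ C1 * d ^ (3 / 8 - 1 : ℝ) := by
      refine le_trans (le_of_eq ?_) h4
      refine integral_congr_ae (Eventually.of_forall fun α => ?_)
      show 1 / rho α w s = rho α w s ^ (-1 : ℝ)
      rw [Real.rpow_neg_one, one_div]
    have h7 : d ^ (3 / 8 - 1 : ℝ) = d ^ (3 / 8 : ℝ) / d := by
      rw [Real.rpow_sub hd0, Real.rpow_one]
    rw [min_eq_right hd1] at h3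
    have h8 : C1 * d ^ (3 / 8 - 1 : ℝ) = C1 / c * d * (c * d ^ (3 / 8 : ℝ) / d ^ 2) := by
      rw [h7]
      field_simp
    have h9 : C1 / c * d * (c * d ^ (3 / 8 : ℝ) / d ^ 2) ≤ C1 / c * d * W :=
      mul_le_mul_of_nonneg_left h3 (by positivity)
    have h10 : C1 / c * d * W ≤ (C1 + 4) / c * d * W := by
      have hW0 : 0 ≤ W := le_trans (by positivity) h3
      have : C1 / c ≤ (C1 + 4) / c := div_le_div_of_nonneg_right (by linarith) hc.le
      exact mul_le_mul_of_nonneg_right (mul_le_mul_of_nonneg_right this hd0.le) hW0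
    linarith
  · have h6 : ∫ α, 1 / rho α w s ∂PA ≤ 4 / d := by
      have h7 : ∫ α, 1 / rho α w s ∂PA ≤ ∫ _, 1 / d ∂PA := by
        refine integral_mono (Dist4_int1 w s hs) (integrable_const _) fun α => ?_
        exact one_div_le_one_div_of_le hd0 (dmu_le α w s)
      rw [integral_const, Measure.real, PA_univ] at h7
      simpa [div_eq_mul_inv] using h7
    rw [min_eq_left hd1, Real.one_rpow, mul_one] at h3
    have h8 : 4 / d = 4 / c * d * (c / d ^ 2) := by
      field_simp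
    have h9 : 4 / c * d * (c / d ^ 2) ≤ 4 / c * d * W :=
      mul_le_mul_of_nonneg_left h3 (by positivity)
    have h10 : 4 / c * d * W ≤ (C1 + 4) / c * d * W := by
      have hW0 : 0 ≤ W := le_trans (by positivity) h3
      have : 4 / c ≤ (C1 + 4) / c := div_le_div_of_nonneg_right (by linarith) hc.le
      exact mul_le_mul_of_nonneg_right (mul_le_mul_of_nonneg_right this hd0.le) hW0
    linarith

/-- lower bound when three coordinates are near the Cantor set -/
theorem W_low : ∃ c : ℝ, 0 < c ∧ ∀ (w : W4) (s : ℝ) (a : Fin 4), 0 < s → s ≤ 1 →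
    (∀ i, i ≠ a → Metric.infDist (w i) CC ≤ s) →
    c * s ^ (-(13 / 8) : ℝ) ≤ ∫ α, 1 / rhoSq α w s ∂PA := by
  obtain ⟨c, hc, h⟩ := Dist4_low
  refine ⟨c / 9, by positivity, ?_⟩
  intro w s a hs hs1 ha
  choose x hx using fun i => CC_near (w i)
  have h1 : rho (a, x) w s ≤ 3 * s := by
    have h2 : rho (a, x) w s ^ 2 ≤ (3 * s) ^ 2 := by
      rw [rho_sq]
      show s ^ 2 + QT (Finset.univ.erase a) (w - zet x) ≤ _
      have h3 := QT_le (Finset.univ.erase a) (w - zet x) s (by
        intro i hi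
        have h4 := ha i (Finset.ne_of_mem_erase hi)
        rw [← hx i] at h4
        exact h4)
      nlinarith
    exact abs_le_of_sq_le_sq' h2 (by positivity) |>.2
  have hd1 : dmu w s ≤ 3 * s := (dmu_le (a, x) w s).trans h1
  have hd2 : s ≤ dmu w s := by
    have := le_dmu w s
    rwa [abs_of_pos hs] at this
  have hd0 : 0 < dmu w s := lt_of_lt_of_le hs hd2
  refine le_trans ?_ (h w s hs)
  have h5 : s ^ (3 / 8 : ℝ) ≤ (min 1 (dmu w s)) ^ (3 / 8 : ℝ) :=
    Real.rpow_le_rpow hs.le (le_min hs1 hd2) (by norm_num)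
  have h6 : s ^ (-(13 / 8) : ℝ) = s ^ (3 / 8 : ℝ) / s ^ 2 := by
    rw [show (-(13 / 8) : ℝ) = 3 / 8 - (2 : ℕ) by norm_num, Real.rpow_sub hs, Real.rpow_natCast]
  rw [h6]
  calc c / 9 * (s ^ (3 / 8 : ℝ) / s ^ 2) = c * s ^ (3 / 8 : ℝ) / (3 * s) ^ 2 := by
        field_simp
        ring
    _ ≤ c * (min 1 (dmu w s)) ^ (3 / 8 : ℝ) / dmu w s ^ 2 := by
        refine div_le_div₀ (by positivity) (mul_le_mul_of_nonneg_left h5 hc.le) (by positivity) ?_
        exact pow_le_pow_left₀ hd0.le hd1 2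

theorem W_pos (w : W4) (s : ℝ) (hs : 0 < s) : 0 < ∫ α, 1 / rhoSq α w s ∂PA := by
  obtain ⟨c, hc, h⟩ := Dist4_low
  have hd0 : 0 < dmu w s := by
    have := le_dmu w s
    rw [abs_of_pos hs] at this
    exact lt_of_lt_of_le hs this
  refine lt_of_lt_of_le ?_ (h w s hs)
  have : 0 < min 1 (dmu w s) := lt_min one_pos hd0
  positivity

end Pool.Agent.Wtw
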