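import Mathlib
import Pool.Agent.Wtw.Dist4

/-!
# MuDev: the robust mean is close to every candidate with small error

`mu = ∫ lam'/rho'^2 / W`, `W = ∫ 1/rho'^2 > 0`. `|lam_α - mu| <= (1/W) ∫ |lam_α - lam_α'|/rho'^2 <=
(1/W) ∫ 50 (rho_α + rho')/rho'^2 = 50 rho_α + 50 (∫ 1/rho')/W <= 50 rho_α + 50 C dmu <= C' rho_α`
(`kprop`, `one_over`, `dmu_le`).
* `mu_good`: take `α = (e, x)` with `beta x_i` nearest to `w_i` (`CC_near`) : `rho_α <= sqrt (s^2 + 4 s^2)`,
  `|lam_α| <= s` (`lamT_le`, `QT_le`, only coordinates `/= e`).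
* `mu_le`: the same with any `e`: `rho_α <= s + 2 D`, `|lam_α| <= D`.
* `mu_shift`: `lamA`, `rhoSq` under `w ↦ w + c nn` (`lamT_shift`, `QT_shift`), `W > 0`.
-/

namespace Pool.Agent.Wtw

open MeasureTheory Set Filter Topology
open scoped ENNReal

theorem MuDev_lam_cont (w : W4) : Continuous fun α : A4 => lamA α w := by
  rw [continuous_prod_of_discrete_left]
  intro e
  unfold lamA lamT
  have h : ∀ i, Continuous fun x : Fin 4 → Dg => (w - zet x) i := by
    intro i
    exact continuous_const.sub ((continuous_apply i).comp zet_cont)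
  have hl : Continuous fun x : Fin 4 → Dg =>
      (∑ j ∈ Finset.univ.erase e, nn j * (w - zet x) j) / ∑ j ∈ Finset.univ.erase e, nn j ^ 2 := by
    refine Continuous.div_const ?_ _
    exact continuous_finsetSum _ fun j _ => continuous_const.mul (h j)
  exact hl

theorem MuDev_sq_cont (w : W4) (s : ℝ) : Continuous fun α : A4 => rhoSq α w s := by
  have h : (fun α : A4 => rhoSq α w s) = fun α : A4 => rho α w s ^ 2 := by
    ext α
    exact (rho_sq α w s).symm
  rw [h]
  exact (rho_cont_index w s).pow 2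

theorem MuDev_pos (α : A4) (w : W4) (s : ℝ) (hs : 0 < s) : 0 < rhoSq α w s := by
  rw [← rho_sq]
  have := Dist4_pos α w s hs
  positivity

theorem MuDev_int {f : A4 → ℝ} (hf : Continuous f) : Integrable f PA :=
  hf.integrable_of_hasCompactSupport (HasCompactSupport.of_compactSpace f)

theorem MuDev_int_lam (w : W4) (s : ℝ) (hs : 0 < s) :
    Integrable (fun α => lamA α w / rhoSq α w s) PA :=
  MuDev_int ((MuDev_lam_cont w).div (MuDev_sq_cont w s) fun α => (MuDev_pos α w s hs).ne')

theorem mu_dev : ∃ C : ℝ, 0 < C ∧ ∀ (α : A4) (w : W4) (s : ℝ), 0 < s →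
    |lamA α w - mu w s| ≤ C * rho α w s := by
  obtain ⟨C, hC, h⟩ := one_over
  refine ⟨50 + 50 * C, by positivity, ?_⟩
  intro α w s hs
  have hW := W_pos w s hs
  have h1 := h w s hs
  set W := ∫ α, 1 / rhoSq α w s ∂PA with hWdef
  have e1 : (lamA α w - mu w s) * W = ∫ α', (lamA α w - lamA α' w) / rhoSq α' w s ∂PA := by
    have : ∫ α', (lamA α w - lamA α' w) / rhoSq α' w s ∂PA =
        lamA α w * W - ∫ α', lamA α' w / rhoSq α' w s ∂PA := by
      rw [hWdef, ← integral_const_mul, ← integral_sub ((Dist4_int2 w s hs).const_mul _)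
        (MuDev_int_lam w s hs)]
      refine integral_congr_ae (Eventually.of_forall fun α' => ?_)
      show (lamA α w - lamA α' w) / rhoSq α' w s =
        lamA α w * (1 / rhoSq α' w s) - lamA α' w / rhoSq α' w s
      ring
    rw [this, sub_mul]
    congr 1
    unfold mu
    rw [← hWdef]
    field_simp
  have e2 : |∫ α', (lamA α w - lamA α' w) / rhoSq α' w s ∂PA| ≤
      50 * rho α w s * W + 50 * ∫ α', 1 / rho α' w s ∂PA := by
    have : 50 * rho α w s * W + 50 * ∫ α', 1 / rho α' w s ∂PA =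
        ∫ α', (50 * rho α w s * (1 / rhoSq α' w s) + 50 * (1 / rho α' w s)) ∂PA := by
      rw [integral_add ((Dist4_int2 w s hs).const_mul _) ((Dist4_int1 w s hs).const_mul _),
        integral_const_mul, integral_const_mul]
    rw [this]
    refine (abs_integral_le_integral_abs).trans ?_
    refine integral_mono_of_nonneg (Eventually.of_forall fun _ => abs_nonneg _)
      (((Dist4_int2 w s hs).const_mul _).add ((Dist4_int1 w s hs).const_mul _))
      (Eventually.of_forall fun α' => ?_)
    show |(lamA α w - lamA α' w) / rhoSq α' w s| ≤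
      50 * rho α w s * (1 / rhoSq α' w s) + 50 * (1 / rho α' w s)
    have h2 := kprop α α' w s
    have h3 := Dist4_pos α' w s hs
    have h4 := MuDev_pos α' w s hs
    rw [abs_div, abs_of_pos h4, ← rho_sq α' w s]
    calc |lamA α w - lamA α' w| / rho α' w s ^ 2
        ≤ 50 * (rho α w s + rho α' w s) / rho α' w s ^ 2 :=
          div_le_div_of_nonneg_right h2 (by positivity)
      _ = 50 * rho α w s * (1 / rho α' w s ^ 2) + 50 * (1 / rho α' w s) := by
          field_simp
  have h5 : |lamA α w - mu w s| * W ≤ 50 * rho α w s * W + 50 * (C * dmu w s * W) := by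
    rw [← abs_of_pos hW, ← abs_mul, abs_of_pos hW, e1]
    refine e2.trans ?_
    linarith
  have h6 : |lamA α w - mu w s| ≤ 50 * rho α w s + 50 * (C * dmu w s) := by
    have : |lamA α w - mu w s| * W ≤ (50 * rho α w s + 50 * (C * dmu w s)) * W := by
      linarith
    exact le_of_mul_le_mul_right this hW
  have h7 := dmu_le α w s
  have h8 : C * dmu w s ≤ C * rho α w s := mul_le_mul_of_nonneg_left h7 hC.le
  linarith

theorem MuDev_ne (e : Fin 4) : (Finset.univ.erase e : Finset (Fin 4)).Nonempty := by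
  revert e
  decide

theorem mu_shift (w : W4) (c s : ℝ) (hs : 0 < s) : mu (w + c • nn) s = mu w s + c := by
  have hW := W_pos w s hs
  have h1 : ∀ α, lamA α (w + c • nn) = lamA α w + c := by
    intro α
    unfold lamA
    rw [show w + c • nn - zet α.2 = (w - zet α.2) + c • nn by abel]
    exact lamT_shift _ (MuDev_ne _) _ _
  have h2 : ∀ α, rhoSq α (w + c • nn) s = rhoSq α w s := by
    intro α
    unfold rhoSq
    rw [show w + c • nn - zet α.2 = (w - zet α.2) + c • nn by abel, QT_shift _ (MuDev_ne _)]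
  unfold mu
  simp_rw [h1, h2]
  have h3 : ∫ α, (lamA α w + c) / rhoSq α w s ∂PA =
      ∫ α, lamA α w / rhoSq α w s ∂PA + c * ∫ α, 1 / rhoSq α w s ∂PA := by
    rw [← integral_const_mul, ← integral_add (MuDev_int_lam w s hs) ((Dist4_int2 w s hs).const_mul _)]
    refine integral_congr_ae (Eventually.of_forall fun α' => ?_)
    show (lamA α' w + c) / rhoSq α' w s = lamA α' w / rhoSq α' w s + c * (1 / rhoSq α' w s)
    ring
  rw [h3]
  field_simp

theorem mu_good : ∃ C : ℝ, 0 < C ∧ ∀ (w : W4) (s : ℝ), 0 < s →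
    (∃ e, ∀ i, i ≠ e → Metric.infDist (w i) CC ≤ s) → |mu w s| ≤ C * s := by
  obtain ⟨C, hC, h⟩ := mu_dev
  refine ⟨3 * C + 1, by positivity, ?_⟩
  rintro w s hs ⟨e, he⟩
  choose x hx using fun i => CC_near (w i)
  have h0 : ∀ i ∈ Finset.univ.erase e, |(w - zet x) i| ≤ s := by
    intro i hi
    have h4 := he i (Finset.ne_of_mem_erase hi)
    rw [← hx i] at h4
    exact h4
  have h1 : rho (e, x) w s ≤ 3 * s := by
    have h2 : rho (e, x) w s ^ 2 ≤ (3 * s) ^ 2 := by
      rw [rho_sq]
      show s ^ 2 + QT (Finset.univ.erase e) (w - zet x) ≤ _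
      have h3 := QT_le (Finset.univ.erase e) (w - zet x) s h0
      nlinarith
    exact abs_le_of_sq_le_sq' h2 (by positivity) |>.2
  have h2 : |lamA (e, x) w| ≤ s := lamT_le _ _ s hs.le h0
  have h3 := h (e, x) w s hs
  have h4 : C * rho (e, x) w s ≤ C * (3 * s) := mul_le_mul_of_nonneg_left h1 hC.le
  have h5 : |mu w s| ≤ |lamA (e, x) w| + |lamA (e, x) w - mu w s| := by
    have := abs_sub_abs_le_abs_sub (mu w s) (lamA (e, x) w)
    rw [abs_sub_comm] at this
    linarith
  linarith

theorem mu_le : ∃ C : ℝ, 0 < C ∧ ∀ (w : W4) (s D : ℝ), 0 < s →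
    (∀ i, Metric.infDist (w i) CC ≤ D) → |mu w s| ≤ C * (D + s) := by
  obtain ⟨C, hC, h⟩ := mu_dev
  refine ⟨2 * C + 1, by positivity, ?_⟩
  intro w s D hs hD
  have hD0 : 0 ≤ D := Metric.infDist_nonneg.trans (hD 0)
  choose x hx using fun i => CC_near (w i)
  have h0 : ∀ i ∈ Finset.univ.erase (0 : Fin 4), |(w - zet x) i| ≤ D := by
    intro i hi
    have h4 := hD i
    rw [← hx i] at h4
    exact h4
  have h1 : rho (0, x) w s ≤ s + 2 * D := by
    have h2 : rho (0, x) w s ^ 2 ≤ (s + 2 * D) ^ 2 := by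
      rw [rho_sq]
      show s ^ 2 + QT (Finset.univ.erase 0) (w - zet x) ≤ _
      have h3 := QT_le (Finset.univ.erase 0) (w - zet x) D h0
      nlinarith [mul_nonneg hs.le hD0]
    exact abs_le_of_sq_le_sq' h2 (by positivity) |>.2
  have h2 : |lamA (0, x) w| ≤ D := lamT_le _ _ D hD0 h0
  have h3 := h (0, x) w s hs
  have h4 : C * rho (0, x) w s ≤ C * (s + 2 * D) := mul_le_mul_of_nonneg_left h1 hC.le
  have h5 : |mu w s| ≤ |lamA (0, x) w| + |lamA (0, x) w - mu w s| := by
    have := abs_sub_abs_le_abs_sub (mu w s) (lamA (0, x) w)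
    rw [abs_sub_comm] at this
    linarith
  nlinarith [mul_nonneg hC.le hs.le, mul_nonneg hC.le hD0]

end Pool.Agent.Wtw
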