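import Mathlib
import Pool.Agent.Wtw.MuDev
import Pool.Agent.Wtw.Dist8

/-!
# Geo: `dlt z`, the distance to `CC^8`, and `dv z (mu2 z s) s` are comparable

* `dlt` basics: `dlt z = max_k infDist (z k) CC`, 1-Lipschitz for the sup norm, zero iff all `z_k` in `CC`.
* `dlt_le_dv`: let `x` be nearly optimal for `dv` (`dv_near`), `r = sqrt vSq <= (3/2) dv`. For each group
  (`vSq_ge`): `|z_(g,i) - beta x_(g,i) - l_g n_i| <= r`, `|m_g| <= r`, `s <= r`. For `α = (e, x_g)`:
  `rho_α <= sqrt (s^2 + QT univ) <= 2 r` and `|lamA α - l_g| <= r` (`lamT` of the residual), so by `mu_dev`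
  `|mu - l_g| <= (2C+1) r`, `|l_g| <= (2C+2) r`, `|z_k - beta x_k| <= C' r`.
* `dv_le_dlt`: take `x` with `beta x_k` nearest to `z_k` (`CC_near`): `vSq <= s^2 + |mu2|^2 + 8 dlt^2`, and
  `|mu2| <= C (dlt + s)` (`mu_le`).
-/

namespace Pool.Agent.Wtw

open MeasureTheory Set Filter Topology
open scoped ENNReal

theorem le_dlt (z : Z8) (k : Idx) : Metric.infDist (z k) CC ≤ dlt z :=
  Finset.le_sup' (fun k : Idx => Metric.infDist (z k) CC) (Finset.mem_univ k)

theorem dlt_nonneg (z : Z8) : 0 ≤ dlt z :=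
  le_trans Metric.infDist_nonneg (le_dlt z (0, 0))

theorem dlt_le_of (z : Z8) (r : ℝ) (h : ∀ k, Metric.infDist (z k) CC ≤ r) : dlt z ≤ r :=
  Finset.sup'_le _ _ fun k _ => h k

theorem dlt_attained (z : Z8) : ∃ k, dlt z = Metric.infDist (z k) CC := by
  obtain ⟨k, _, hk⟩ := Finset.exists_mem_eq_sup' (s := (Finset.univ : Finset Idx))
    Finset.univ_nonempty (fun k : Idx => Metric.infDist (z k) CC)
  exact ⟨k, hk⟩

theorem dlt_le_add (z z' : Z8) : dlt z ≤ dlt z' + ‖z - z'‖ := by
  refine dlt_le_of z _ fun k => ?_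
  have h1 : Metric.infDist (z k) CC ≤ Metric.infDist (z' k) CC + dist (z k) (z' k) :=
    Metric.infDist_le_infDist_add_dist
  have h2 := le_dlt z' k
  have h3 : dist (z k) (z' k) ≤ ‖z - z'‖ := by
    rw [Real.dist_eq]
    exact norm_le_pi_norm (z - z') k
  linarith

theorem dlt_lip (z z' : Z8) : |dlt z - dlt z'| ≤ ‖z - z'‖ := by
  have h1 := dlt_le_add z z'
  have h2 := dlt_le_add z' z
  rw [norm_sub_rev] at h2
  rw [abs_le]
  constructor <;> linarith

theorem dlt_cont : Continuous dlt := by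
  have h : LipschitzWith 1 dlt := by
    refine LipschitzWith.of_dist_le_mul fun z z' => ?_
    rw [Real.dist_eq, dist_eq_norm]
    simpa using dlt_lip z z'
  exact h.continuous

theorem dlt_zero_iff (z : Z8) : dlt z = 0 ↔ ∀ k, z k ∈ CC := by
  have hc : IsClosed CC := CC_compact.isClosed
  have key : ∀ k, (Metric.infDist (z k) CC = 0 ↔ z k ∈ CC) := fun k =>
    (hc.mem_iff_infDist_zero CC_nonempty).symm
  constructor
  · intro h k
    rw [← key k]
    exact le_antisymm (h ▸ le_dlt z k) Metric.infDist_nonneg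
  · intro h
    refine le_antisymm (dlt_le_of z 0 fun k => ?_) (dlt_nonneg z)
    exact ((key k).2 (h k)).le

theorem dlt_le_dv : ∃ C : ℝ, 0 < C ∧ ∀ (z : Z8) (s : ℝ), 0 < s → dlt z ≤ C * dv z (mu2 z s) s := by
  obtain ⟨C, hC, hmu⟩ := mu_dev
  refine ⟨(4 * C + 9) * (3 / 2), by positivity, fun z s hs => ?_⟩
  obtain ⟨x, hx⟩ := dv_near z (mu2 z s) s hs
  set r := Real.sqrt (vSq x z (mu2 z s) s) with hr
  have hr0 : 0 ≤ r := Real.sqrt_nonneg _
  obtain ⟨h1, h2, h3⟩ := vSq_ge x z (mu2 z s) s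
  rw [← hr] at h1 h2 h3
  have main : dlt z ≤ (4 * C + 9) * r := by
    refine dlt_le_of z _ fun k => ?_
    obtain ⟨g, i⟩ := k
    set l := lamT Finset.univ (fun j => z (g, j) - beta (x (g, j))) with hl
    set α : A4 := (0, fun j => x (g, j)) with hα
    have hrho : rho α (grp z g) s ≤ r := by
      unfold rho
      rw [hr]
      apply Real.sqrt_le_sqrt
      unfold rhoSq vSq
      have hmono := QT_mono (Finset.univ.erase α.1) Finset.univ (Finset.erase_subset _ _)
        (grp z g - zet α.2)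
      have hsum : QT Finset.univ (grp z g - zet α.2) ≤
          ∑ g : Fin 2, QT Finset.univ fun i => z (g, i) - beta (x (g, i)) := by
        have := Finset.single_le_sum (f := fun g : Fin 2 => QT Finset.univ fun i =>
          z (g, i) - beta (x (g, i))) (fun g _ => QT_nonneg _ _) (Finset.mem_univ g)
        refine le_trans (le_of_eq ?_) this
        apply QT_congr
        intro j _
        rfl
      have hm : 0 ≤ mu2 z s 0 ^ 2 + mu2 z s 1 ^ 2 := by positivity
      linarith
    have hlam : |lamA α (grp z g) - l| ≤ r := by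
      have hne : (Finset.univ.erase α.1 : Finset (Fin 4)).Nonempty :=
        ⟨1, by simp [hα]⟩
      have hdec : grp z g - zet α.2 =
          (grp z g - zet α.2 + (-l) • nn) + l • nn := by
        funext j
        simp
      unfold lamA
      rw [hdec, lamT_shift _ hne, add_sub_cancel_right]
      refine lamT_le _ _ r hr0 fun j _ => ?_
      have := h3 g j
      rw [← hl] at this
      simpa [grp, zet, hα, sub_eq_add_neg] using this
    have hdev := hmu α (grp z g) s hs
    have hm : |mu (grp z g) s| ≤ r := h2 g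
    have hl2 : |l| ≤ (C + 2) * r := by
      have e1 : |lamA α (grp z g) - mu (grp z g) s| ≤ C * r :=
        le_trans hdev (mul_le_mul_of_nonneg_left hrho hC.le)
      rw [abs_le] at e1 hm hlam ⊢
      constructor <;> nlinarith [e1.1, e1.2, hm.1, hm.2, hlam.1, hlam.2]
    have hres := h3 g i
    rw [← hl] at hres
    have hn := nn_bd i
    have hln : |l * nn i| ≤ 4 * ((C + 2) * r) := by
      rw [abs_mul, abs_of_pos (by linarith [hn.1] : (0 : ℝ) < nn i)]
      have : |l| * nn i ≤ |l| * 4 := mul_le_mul_of_nonneg_left hn.2 (abs_nonneg _)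
      linarith
    have hz : |z (g, i) - beta (x (g, i))| ≤ (4 * C + 9) * r := by
      rw [abs_le] at hres hln ⊢
      constructor <;> nlinarith [hres.1, hres.2, hln.1, hln.2]
    refine le_trans (Metric.infDist_le_dist_of_mem (mem_range_self (x (g, i)))) ?_
    rw [Real.dist_eq]
    exact hz
  calc dlt z ≤ (4 * C + 9) * r := main
    _ ≤ (4 * C + 9) * (3 / 2 * dv z (mu2 z s) s) :=
        mul_le_mul_of_nonneg_left hx (by positivity)
    _ = (4 * C + 9) * (3 / 2) * dv z (mu2 z s) s := by ring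

theorem dv_le_dlt : ∃ C : ℝ, 0 < C ∧ ∀ (z : Z8) (s : ℝ), 0 < s →
    dv z (mu2 z s) s ≤ C * (dlt z + s) := by
  obtain ⟨C, hC, hmu⟩ := mu_le
  refine ⟨2 * C + 3, by positivity, fun z s hs => ?_⟩
  choose x hx using fun k => CC_near (z k)
  have hd := dlt_nonneg z
  refine le_trans (dv_le x z (mu2 z s) s) ?_
  refine Real.sqrt_le_iff.2 ⟨by positivity, ?_⟩
  unfold vSq
  have hq : ∀ g : Fin 2, (QT Finset.univ fun i => z (g, i) - beta (x (g, i))) ≤ 4 * dlt z ^ 2 := by
    intro g
    refine QT_le _ _ _ fun i _ => ?_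
    rw [hx (g, i)]
    exact le_dlt z (g, i)
  have hm : ∀ g : Fin 2, |mu2 z s g| ≤ C * (dlt z + s) := by
    intro g
    exact hmu (grp z g) s (dlt z) hs fun i => le_dlt z (g, i)
  have hm2 : ∀ g : Fin 2, mu2 z s g ^ 2 ≤ (C * (dlt z + s)) ^ 2 := fun g => by
    rw [← sq_abs]
    exact pow_le_pow_left₀ (abs_nonneg _) (hm g) 2
  have h0 := hm2 0
  have h1 := hm2 1
  have q0 := hq 0
  have q1 := hq 1
  rw [Fin.sum_univ_two]
  have hprod : 0 ≤ dlt z * s := by positivity
  have hC2 : 0 ≤ C * (dlt z + s) ^ 2 := by positivity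
  nlinarith [sq_nonneg (dlt z + s), sq_nonneg (dlt z), sq_nonneg s,
    mul_nonneg (sq_nonneg C) (sq_nonneg (dlt z + s))]

end Pool.Agent.Wtw
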