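import Mathlib
import Pool.Agent.Wtw.Abs
import Pool.Agent.Wtw.Geo

/-!
# Loc: local data at a point

`Loc s m z ν C` collects the bounds of the derivatives of `s`, `m` at `z` in terms of a weight `ν`.
* `loc_gen` (`ν = |.|`, `dlt z <= 1`): `L3`: `|m||Ds ξ| <= A δ A δ^(1/4) |ξ| <= A^3 s |ξ|` (`low`: `δ^(5/4) <= A s`).
* `loc_B` (`ν = nuB x (δ^(1/4))`, `GoodBut s z x`, `δ <= δ0`): `|m| <= A s` (`GoodBut` implies `GoodGrp`), `bs` ... `bbm`.
  `L4` for `k = x`: all other coordinates have distance `<= s <= δ/32`, so `dist (z x) = δ` (`dlt_attained`) and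
  `dist (z x + c) >= δ - 12 A s > s` if `δ <= δ0` (`up`: `s <= A δ^(5/4)`).
-/

namespace Pool.Agent.Wtw

open MeasureTheory Set Filter Topology
open scoped ENNReal

structure Loc (s : Z8 → ℝ) (m : Z8 → V2) (z : Z8) (ν : Z8 → ℝ) (C : ℝ) : Prop where
  one_le : 1 ≤ C
  nonneg : ∀ ξ, 0 ≤ ν ξ
  le : ∀ ξ, ν ξ ≤ ‖ξ‖
  s_ne : s z ≠ 0
  L1 : ∀ ξ, |fderiv ℝ s z ξ| ≤ C * ν ξ
  L1' : ∀ ξ η, |fderiv ℝ (fderiv ℝ s) z ξ η| ≤ C / s z * ν ξ * ν η
  L2 : ∀ ξ, ‖fderiv ℝ m z ξ‖ ≤ C * ν ξ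
  L2' : ∀ ξ η, ‖fderiv ℝ (fderiv ℝ m) z ξ η‖ ≤ C / s z * ν ξ * ν η
  L3 : ∀ ξ, ‖m z‖ * |fderiv ℝ s z ξ| ≤ C * s z * ν ξ
  L3' : ∀ ξ η, ‖m z‖ * |fderiv ℝ (fderiv ℝ s) z ξ η| ≤ C * ν ξ * ν η
  L4 : ∀ k, (∀ ξ : Z8, |ξ k| ≤ ν ξ) ∨
    ∀ c : ℝ, |c| ≤ 12 * ‖m z‖ → s z < Metric.infDist (z k + c) CC

variable {B : ℝ} {s : Z8 → ℝ} {m : Z8 → V2}

theorem Loc_spos (hs : SData s m B) {z : Z8} (hz : s z ≠ 0) : 0 < s z :=
  lt_of_le_of_ne (hs.nonneg z) (Ne.symm hz)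

theorem Loc_dpos (hs : SData s m B) {z : Z8} (hz : s z ≠ 0) : 0 < dlt z := by
  have h1 := Loc_spos hs hz
  have h2 := hs.small z
  linarith

theorem Loc_r54 {d : ℝ} (hd : 0 < d) : d * d ^ (1 / 4 : ℝ) = d ^ (5 / 4 : ℝ) := by
  have h := Real.rpow_add hd 1 (1 / 4)
  rw [Real.rpow_one] at h
  rw [← h]
  norm_num

theorem loc_gen (hs : SData s m B) : ∃ C : ℝ, ∀ z, s z ≠ 0 → dlt z ≤ 1 →
    Loc s m z (fun ξ => ‖ξ‖) C := by
  refine ⟨B ^ 3, fun z hz hd => ?_⟩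
  have hB := hs.one_le
  have hs0 := Loc_spos hs hz
  have hd0 := Loc_dpos hs hz
  have hB1 : B ≤ B ^ 3 := by nlinarith [mul_nonneg (sub_nonneg.2 hB) (sub_nonneg.2 hB), sq_nonneg B]
  have hr0 : 0 ≤ dlt z ^ (1 / 4 : ℝ) := Real.rpow_nonneg hd0.le _
  have hr1 : dlt z ^ (1 / 4 : ℝ) ≤ 1 := Real.rpow_le_one hd0.le hd (by norm_num)
  have hr54 := Loc_r54 hd0
  have hlow := hs.low z hd
  have hm := hs.m_le z
  have hBr : B * dlt z ^ (1 / 4 : ℝ) ≤ B := by nlinarith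
  have key : B * dlt z * (B * dlt z ^ (1 / 4 : ℝ)) ≤ B ^ 3 * s z := by
    calc B * dlt z * (B * dlt z ^ (1 / 4 : ℝ)) = B ^ 2 * (dlt z * dlt z ^ (1 / 4 : ℝ)) := by ring
      _ = B ^ 2 * dlt z ^ (5 / 4 : ℝ) := by rw [hr54]
      _ ≤ B ^ 2 * (B * s z) := by
          apply mul_le_mul_of_nonneg_left hlow (by positivity)
      _ = B ^ 3 * s z := by ring
  refine ⟨?_, fun ξ => norm_nonneg ξ, fun ξ => le_refl _, hz, ?_, ?_, ?_, ?_, ?_, ?_, ?_⟩
  · linarith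
  · intro ξ
    refine (hs.ds z hz hd ξ).trans ?_
    exact mul_le_mul_of_nonneg_right (hBr.trans hB1) (norm_nonneg _)
  · intro ξ η
    refine (hs.dds z hz hd ξ η).trans ?_
    have h1 : B * dlt z ^ (1 / 4 : ℝ) / s z ≤ B ^ 3 / s z :=
      div_le_div_of_nonneg_right (hBr.trans hB1) hs0.le
    exact mul_le_mul_of_nonneg_right (mul_le_mul_of_nonneg_right h1 (norm_nonneg _)) (norm_nonneg _)
  · intro ξ
    refine (hs.dm z hz hd ξ).trans ?_
    exact mul_le_mul_of_nonneg_right hB1 (norm_nonneg _)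
  · intro ξ η
    refine (hs.ddm z hz hd ξ η).trans ?_
    have h1 : B / s z ≤ B ^ 3 / s z := div_le_div_of_nonneg_right hB1 hs0.le
    exact mul_le_mul_of_nonneg_right (mul_le_mul_of_nonneg_right h1 (norm_nonneg _)) (norm_nonneg _)
  · intro ξ
    calc ‖m z‖ * |fderiv ℝ s z ξ| ≤ (B * dlt z) * (B * dlt z ^ (1 / 4 : ℝ) * ‖ξ‖) :=
          mul_le_mul hm (hs.ds z hz hd ξ) (abs_nonneg _) (by positivity)
      _ = (B * dlt z * (B * dlt z ^ (1 / 4 : ℝ))) * ‖ξ‖ := by ring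
      _ ≤ (B ^ 3 * s z) * ‖ξ‖ := mul_le_mul_of_nonneg_right key (norm_nonneg _)
  · intro ξ η
    calc ‖m z‖ * |fderiv ℝ (fderiv ℝ s) z ξ η| ≤
          (B * dlt z) * (B * dlt z ^ (1 / 4 : ℝ) / s z * ‖ξ‖ * ‖η‖) :=
          mul_le_mul hm (hs.dds z hz hd ξ η) (abs_nonneg _) (by positivity)
      _ = (B * dlt z * (B * dlt z ^ (1 / 4 : ℝ))) * (‖ξ‖ * ‖η‖ / s z) := by ring
      _ ≤ (B ^ 3 * s z) * (‖ξ‖ * ‖η‖ / s z) :=
          mul_le_mul_of_nonneg_right key (by positivity)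
      _ = B ^ 3 * ‖ξ‖ * ‖η‖ := by field_simp
  · intro k
    left
    intro ξ
    exact norm_le_pi_norm ξ k

theorem Loc_good_grp (z : Z8) (x : Idx) (h : GoodBut s z x) : GoodGrp s z := by
  intro g
  refine ⟨x.2, fun i hi => h (g, i) ?_⟩
  intro he
  exact hi (by rw [← he])

theorem Loc_good_dlt (hs : SData s m B) (z : Z8) (x : Idx) (hz : s z ≠ 0) (h : GoodBut s z x) :
    dlt z = Metric.infDist (z x) CC := by
  obtain ⟨k, hk⟩ := dlt_attained z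
  by_cases hkx : k = x
  · rw [← hkx]
    exact hk
  · exfalso
    have h1 := h k hkx
    have h2 := hs.small z
    have h3 := Loc_dpos hs hz
    have h4 := Loc_spos hs hz
    linarith

theorem Loc_upd (x : Idx) (ξ : Z8) : ‖Function.update ξ x 0‖ ≤ ‖ξ‖ := by
  rw [pi_norm_le_iff_of_nonneg (norm_nonneg _)]
  intro k
  by_cases hk : k = x
  · rw [hk, Function.update_self, norm_zero]
    exact norm_nonneg _
  · rw [Function.update_of_ne hk]
    exact norm_le_pi_norm ξ k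

theorem loc_B (hs : SData s m B) : ∃ C δ0 : ℝ, 0 < δ0 ∧ δ0 ≤ 1 ∧ ∀ z x, s z ≠ 0 → dlt z ≤ δ0 →
    GoodBut s z x → Loc s m z (nuB x (dlt z ^ (1 / 4 : ℝ))) C := by
  have hB := hs.one_le
  set D : ℝ := 2 * ((12 * B + 1) * B) with hD
  have hD1 : 1 ≤ D := by nlinarith
  have hD0 : 0 < D := by linarith
  refine ⟨B ^ 2, (1 / D) ^ 4, by positivity, ?_, ?_⟩
  · apply pow_le_one₀ (by positivity)
    rw [div_le_one hD0]
    exact hD1
  intro z x hz hd hg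
  have hδ1 : (1 / D) ^ 4 ≤ 1 := by
    apply pow_le_one₀ (by positivity)
    rw [div_le_one hD0]
    exact hD1
  have hd1 : dlt z ≤ 1 := hd.trans hδ1
  have hs0 := Loc_spos hs hz
  have hd0 := Loc_dpos hs hz
  have hB1 : B ≤ B ^ 2 := by nlinarith
  set r := dlt z ^ (1 / 4 : ℝ) with hr
  have hr0 : 0 ≤ r := Real.rpow_nonneg hd0.le _
  have hr1 : r ≤ 1 := Real.rpow_le_one hd0.le hd1 (by norm_num)
  have hr2 : r ≤ 1 / D := by
    calc r ≤ ((1 / D) ^ 4) ^ (1 / 4 : ℝ) := Real.rpow_le_rpow hd0.le hd (by norm_num)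
      _ = 1 / D := by
        rw [← Real.rpow_natCast, ← Real.rpow_mul (by positivity)]
        norm_num
  have hν0 : ∀ ξ, 0 ≤ nuB x r ξ := fun ξ => le_trans (norm_nonneg _) (le_max_right _ _)
  have hm : ‖m z‖ ≤ B * s z := hs.m_good z (Loc_good_grp z x hg)
  refine ⟨?_, hν0, ?_, hz, ?_, ?_, ?_, ?_, ?_, ?_, ?_⟩
  · linarith
  · intro ξ
    apply max_le _ (Loc_upd x ξ)
    have h1 : |ξ x| ≤ ‖ξ‖ := norm_le_pi_norm ξ x
    calc r * |ξ x| ≤ 1 * |ξ x| := mul_le_mul_of_nonneg_right hr1 (abs_nonneg _)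
      _ ≤ ‖ξ‖ := by rw [one_mul]; exact h1
  · intro ξ
    exact (hs.bs z x hz hd1 hg ξ).trans (mul_le_mul_of_nonneg_right hB1 (hν0 ξ))
  · intro ξ η
    refine (hs.bbs z x hz hd1 hg ξ η).trans ?_
    have h1 : B / s z ≤ B ^ 2 / s z := div_le_div_of_nonneg_right hB1 hs0.le
    exact mul_le_mul_of_nonneg_right (mul_le_mul_of_nonneg_right h1 (hν0 ξ)) (hν0 η)
  · intro ξ
    exact (hs.bm z x hz hd1 hg ξ).trans (mul_le_mul_of_nonneg_right hB1 (hν0 ξ))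
  · intro ξ η
    refine (hs.bbm z x hz hd1 hg ξ η).trans ?_
    have h1 : B / s z ≤ B ^ 2 / s z := div_le_div_of_nonneg_right hB1 hs0.le
    exact mul_le_mul_of_nonneg_right (mul_le_mul_of_nonneg_right h1 (hν0 ξ)) (hν0 η)
  · intro ξ
    calc ‖m z‖ * |fderiv ℝ s z ξ| ≤ (B * s z) * (B * nuB x r ξ) :=
          mul_le_mul hm (hs.bs z x hz hd1 hg ξ) (abs_nonneg _) (by positivity)
      _ = B ^ 2 * s z * nuB x r ξ := by ring
  · intro ξ η
    calc ‖m z‖ * |fderiv ℝ (fderiv ℝ s) z ξ η| ≤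
          (B * s z) * (B / s z * nuB x r ξ * nuB x r η) :=
          mul_le_mul hm (hs.bbs z x hz hd1 hg ξ η) (abs_nonneg _) (by positivity)
      _ = B ^ 2 * nuB x r ξ * nuB x r η := by field_simp
  · intro k
    by_cases hk : k = x
    · right
      intro c hc
      rw [hk]
      have h1 := Loc_good_dlt hs z x hz hg
      have h2 : Metric.infDist (z x) CC ≤ Metric.infDist (z x + c) CC + dist (z x) (z x + c) :=
        Metric.infDist_le_infDist_add_dist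
      have h3 : dist (z x) (z x + c) = |c| := by
        rw [Real.dist_eq, sub_add_cancel_left, abs_neg]
      have h4 := hs.up z
      have h5 : s z ≤ B * (dlt z * r) := by
        rw [hr, Loc_r54 hd0]
        exact h4
      have h6 : (12 * B + 1) * s z ≤ dlt z / 2 := by
        calc (12 * B + 1) * s z ≤ (12 * B + 1) * (B * (dlt z * r)) :=
              mul_le_mul_of_nonneg_left h5 (by positivity)
          _ = (D / 2) * r * dlt z := by rw [hD]; ring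
          _ ≤ (D / 2) * (1 / D) * dlt z := by gcongr
          _ = dlt z / 2 := by field_simp
      rw [← h1, h3] at h2
      nlinarith
    · left
      intro ξ
      have h1 : |ξ k| ≤ ‖Function.update ξ x 0‖ := by
        have h2 := norm_le_pi_norm (Function.update ξ x 0) k
        rw [Function.update_of_ne hk] at h2
        exact h2
      exact h1.trans (le_max_right _ _)

/-- in case B the coordinate `x` carries the distance -/
theorem good_dlt (hs : SData s m B) (z : Z8) (x : Idx) (hz : s z ≠ 0) (h : GoodBut s z x) :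
    dlt z = Metric.infDist (z x) CC := Loc_good_dlt hs z x hz h

theorem good_grp (z : Z8) (x : Idx) (h : GoodBut s z x) : GoodGrp s z := Loc_good_grp z x h

end Pool.Agent.Wtw
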