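import Mathlib
import Pool.Agent.Wtw.RSm
import Pool.Agent.Wtw.Chain2

/-!
# ThB: derivatives of the angle

`th u σ = 2π Θ (u / ε)`, `ε = σ^(4/5)`, `Θ = Real.smoothTransition` (constant outside `[0,1]`, so `Θ', Θ''` are
bounded and vanish outside `[0,1]`), `t = u/ε`:
`∂_u = 2π Θ'(t)/ε`, `∂_σ = -(4/5) 2π Θ'(t) t/σ`, `∂_uu = 2π Θ''/ε^2`, `∂_uσ = O(1/(ε σ))`, `∂_σσ = O(1/σ^2)`.
-/

namespace Pool.Agent.Wtw

open MeasureTheory Set Filter Topology
open scoped ENNReal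

/-- the profile of the angle -/
private noncomputable def Th2 : ℝ → ℝ := fun x => 2 * Real.pi * Real.smoothTransition x

private theorem Th2_C (n : ℕ) : ContDiff ℝ n Th2 :=
  contDiff_const.mul Real.smoothTransition.contDiff

private theorem Th2_d1_C : ContDiff ℝ 1 (deriv Th2) := by
  have h := Th2_C 2
  have h2 : ContDiff ℝ (1 + 1) Th2 := by exact_mod_cast h
  exact (contDiff_succ_iff_deriv.1 h2).2.2

private theorem Th2_d2_C : Continuous (deriv (deriv Th2)) := by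
  have h : ContDiff ℝ (0 + 1) (deriv Th2) := by simpa using Th2_d1_C
  exact (contDiff_succ_iff_deriv.1 h).2.2.continuous

private theorem Th2_out {t : ℝ} (ht : ¬ |t| ≤ 1) :
    deriv Th2 t = 0 ∧ deriv (deriv Th2) t = 0 := by
  have h1 : ∃ c : ℝ, ∀ᶠ x in 𝓝 t, Th2 x = c := by
    rcases lt_or_ge t 0 with h | h
    · refine ⟨0, ?_⟩
      filter_upwards [Iio_mem_nhds h] with x hx
      unfold Th2
      rw [Real.smoothTransition.zero_of_nonpos hx.le, mul_zero]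
    · have h2 : 1 < t := by
        rw [abs_of_nonneg h] at ht
        exact not_le.1 ht
      refine ⟨2 * Real.pi, ?_⟩
      filter_upwards [Ioi_mem_nhds h2] with x hx
      unfold Th2
      rw [Real.smoothTransition.one_of_one_le hx.le, mul_one]
  obtain ⟨c, hc⟩ := h1
  have h2 : Th2 =ᶠ[𝓝 t] fun _ => c := hc
  have h3 : deriv Th2 =ᶠ[𝓝 t] deriv fun _ => c := h2.deriv
  have h4 : deriv (deriv Th2) =ᶠ[𝓝 t] deriv (deriv fun _ => c) := h3.deriv
  constructor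
  · rw [h3.eq_of_nhds]; simp
  · rw [h4.eq_of_nhds]; simp

private theorem Th2_bd : ∃ M : ℝ, 0 < M ∧ ∀ t : ℝ,
    (|t| ≤ 1 ∧ |deriv Th2 t| ≤ M ∧ |deriv (deriv Th2) t| ≤ M) ∨
      (deriv Th2 t = 0 ∧ deriv (deriv Th2) t = 0) := by
  obtain ⟨M1, h1⟩ := (isCompact_Icc (a := (-1 : ℝ)) (b := 1)).exists_bound_of_continuousOn
    Th2_d1_C.continuous.continuousOn
  obtain ⟨M2, h2⟩ := (isCompact_Icc (a := (-1 : ℝ)) (b := 1)).exists_bound_of_continuousOn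
    Th2_d2_C.continuousOn
  refine ⟨max 1 (max M1 M2), lt_max_of_lt_left one_pos, fun t => ?_⟩
  by_cases ht : |t| ≤ 1
  · left
    have ht' : t ∈ Icc (-1 : ℝ) 1 := abs_le.1 ht
    refine ⟨ht, ?_, ?_⟩
    · exact (h1 t ht').trans ((le_max_left _ _).trans (le_max_right _ _))
    · exact (h2 t ht').trans ((le_max_right _ _).trans (le_max_right _ _))
  · right
    exact Th2_out ht

/-- the inner function -/
private noncomputable def ph : ℝ × ℝ → ℝ := fun t => t.1 * t.2 ^ (-(4 / 5) : ℝ)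

private theorem thF_eq {u σ : ℝ} (h : 0 < σ) : thF =ᶠ[𝓝 (u, σ)] fun t => Th2 (ph t) := by
  have h1 : ∀ᶠ t : ℝ × ℝ in 𝓝 (u, σ), 0 < t.2 :=
    (continuous_snd.tendsto (u, σ)).eventually (lt_mem_nhds h)
  filter_upwards [h1] with t ht
  rw [RSm_thF]
  unfold Th2 ph
  simp only
  rw [Real.rpow_neg ht.le, div_eq_mul_inv]

private theorem rpow_smooth {σ : ℝ} (h : 0 < σ) (p : ℝ) :
    ContDiffAt ℝ 2 (fun x : ℝ => x ^ p) σ :=
  contDiffAt_id.rpow_const_of_ne h.ne'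

private theorem rpow_d1 {σ : ℝ} (h : 0 < σ) (p : ℝ) :
    deriv (fun x : ℝ => x ^ p) σ = p * σ ^ (p - 1) :=
  (Real.hasDerivAt_rpow_const (Or.inl h.ne')).deriv

private theorem rpow_d2 {σ : ℝ} (h : 0 < σ) (p : ℝ) :
    deriv (deriv fun x : ℝ => x ^ p) σ = p * ((p - 1) * σ ^ (p - 1 - 1)) := by
  have h1 : deriv (fun x : ℝ => x ^ p) =ᶠ[𝓝 σ] fun x => p * x ^ (p - 1) := by
    filter_upwards [lt_mem_nhds h] with x hx
    exact rpow_d1 hx p
  rw [h1.deriv_eq]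
  have h2 : DifferentiableAt ℝ (fun x : ℝ => x ^ (p - 1)) σ :=
    (rpow_smooth h (p - 1)).differentiableAt (by norm_num)
  rw [deriv_const_mul _ h2, rpow_d1 h]

private theorem g_smooth {u σ : ℝ} (h : 0 < σ) :
    ContDiffAt ℝ 2 (fun t : ℝ × ℝ => t.2 ^ (-(4 / 5) : ℝ)) (u, σ) :=
  contDiffAt_snd.rpow_const_of_ne h.ne'

private theorem ph_smooth {u σ : ℝ} (h : 0 < σ) : ContDiffAt ℝ 2 ph (u, σ) :=
  contDiffAt_fst.mul (g_smooth h)

private theorem g_d {u σ : ℝ} (h : 0 < σ) (v : ℝ × ℝ) :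
    fderiv ℝ (fun t : ℝ × ℝ => t.2 ^ (-(4 / 5) : ℝ)) (u, σ) v =
      -(4 / 5) * σ ^ (-(4 / 5) - 1 : ℝ) * v.2 := by
  have h1 : HasDerivAt (fun x : ℝ => x ^ (-(4 / 5) : ℝ)) (-(4 / 5) * σ ^ (-(4 / 5) - 1 : ℝ)) σ :=
    Real.hasDerivAt_rpow_const (Or.inl h.ne')
  have h2 : HasFDerivAt (fun t : ℝ × ℝ => t.2) (ContinuousLinearMap.snd ℝ ℝ ℝ) (u, σ) :=
    hasFDerivAt_snd
  have h3 := h1.comp_hasFDerivAt (u, σ) h2
  have h4 : HasFDerivAt (fun t : ℝ × ℝ => t.2 ^ (-(4 / 5) : ℝ))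
      ((-(4 / 5) * σ ^ (-(4 / 5) - 1 : ℝ)) • ContinuousLinearMap.snd ℝ ℝ ℝ) (u, σ) := h3
  rw [h4.fderiv]
  simp

private theorem g_dd {u σ : ℝ} (h : 0 < σ) (v w : ℝ × ℝ) :
    fderiv ℝ (fderiv ℝ (fun t : ℝ × ℝ => t.2 ^ (-(4 / 5) : ℝ))) (u, σ) v w =
      -(4 / 5) * ((-(4 / 5) - 1) * σ ^ (-(4 / 5) - 1 - 1 : ℝ)) * v.2 * w.2 := by
  have h1 := fderiv2_real (φ := fun x : ℝ => x ^ (-(4 / 5) : ℝ)) (h := fun t : ℝ × ℝ => t.2)
    (x := (u, σ)) (rpow_smooth h _) contDiffAt_snd v w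
  rw [h1]
  have h2 : fderiv ℝ (fderiv ℝ (fun t : ℝ × ℝ => t.2)) (u, σ) = 0 :=
    fderiv2_lin (ContinuousLinearMap.snd ℝ ℝ ℝ) (u, σ)
  have h3 : fderiv ℝ (fun t : ℝ × ℝ => t.2) (u, σ) = ContinuousLinearMap.snd ℝ ℝ ℝ :=
    fderiv_snd
  rw [h2, h3, rpow_d2 h]
  simp

private theorem fst_d (t v : ℝ × ℝ) : fderiv ℝ (fun t : ℝ × ℝ => t.1) t v = v.1 := by
  have h3 : fderiv ℝ (fun t : ℝ × ℝ => t.1) t = ContinuousLinearMap.fst ℝ ℝ ℝ := fderiv_fst
  rw [h3]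
  rfl

private theorem ph_d {u σ : ℝ} (h : 0 < σ) (v : ℝ × ℝ) :
    fderiv ℝ ph (u, σ) v = v.1 / eps σ - 4 / 5 * (u / eps σ) * (v.2 / σ) := by
  have h1 : HasFDerivAt (fun t : ℝ × ℝ => t.1) (ContinuousLinearMap.fst ℝ ℝ ℝ) (u, σ) :=
    hasFDerivAt_fst
  have h2 := ((g_smooth (u := u) h).differentiableAt (by norm_num)).hasFDerivAt
  have h3 := h1.mul h2
  have h4 : fderiv ℝ ph (u, σ) = _ := h3.fderiv
  rw [h4]
  simp only [add_apply, smul_apply, smul_eq_mul,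
    ContinuousLinearMap.coe_fst']
  rw [g_d h]
  unfold eps
  rw [Real.rpow_sub_one h.ne', Real.rpow_neg h.le]
  field_simp
  ring

private theorem ph_dd {u σ : ℝ} (h : 0 < σ) (v w : ℝ × ℝ) :
    fderiv ℝ (fderiv ℝ ph) (u, σ) v w =
      -(4 / 5) * (v.1 / eps σ * (w.2 / σ) + w.1 / eps σ * (v.2 / σ)) +
        36 / 25 * (u / eps σ) * (v.2 / σ * (w.2 / σ)) := by
  have h1 := fderiv2_mul (f := fun t : ℝ × ℝ => t.1)
    (g := fun t : ℝ × ℝ => t.2 ^ (-(4 / 5) : ℝ)) (x := (u, σ)) contDiffAt_fst (g_smooth h) v w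
  have h2 : fderiv ℝ (fderiv ℝ (fun t : ℝ × ℝ => t.1)) (u, σ) = 0 :=
    fderiv2_lin (ContinuousLinearMap.fst ℝ ℝ ℝ) (u, σ)
  have h3 : fderiv ℝ (fderiv ℝ ph) (u, σ) v w =
    fderiv ℝ (fderiv ℝ fun t : ℝ × ℝ => t.1 * t.2 ^ (-(4 / 5) : ℝ)) (u, σ) v w := rfl
  rw [h3, h1, h2, g_d h, g_d h, g_dd h, fst_d, fst_d]
  simp only [zero_apply, zero_mul, zero_add]
  unfold eps
  rw [Real.rpow_sub_one h.ne' (-(4 / 5) - 1), Real.rpow_sub_one h.ne', Real.rpow_neg h.le]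
  field_simp
  ring

theorem thF_bd : ∃ C : ℝ, 0 < C ∧ ∀ (u σ : ℝ), 0 < σ →
    (∀ v, |fderiv ℝ thF (u, σ) v| ≤ C * (|v.1| / eps σ + |v.2| / σ)) ∧
    ∀ v w, |fderiv ℝ (fderiv ℝ thF) (u, σ) v w| ≤
      C * (|v.1| / eps σ + |v.2| / σ) * (|w.1| / eps σ + |w.2| / σ) := by
  obtain ⟨M, hM, hb⟩ := Th2_bd
  refine ⟨3 * M, by positivity, fun u σ h => ?_⟩
  have hε : 0 < eps σ := Real.rpow_pos_of_pos h _
  have hph : ph (u, σ) = u / eps σ := by
    unfold ph eps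
    simp only
    rw [Real.rpow_neg h.le]
    exact (div_eq_mul_inv _ _).symm
  have hd : ∀ v, fderiv ℝ thF (u, σ) v = deriv Th2 (u / eps σ) * fderiv ℝ ph (u, σ) v := by
    intro v
    rw [(thF_eq h).fderiv_eq]
    have h1 : HasDerivAt Th2 (deriv Th2 (ph (u, σ))) (ph (u, σ)) :=
      (((Th2_C 1).differentiable (by norm_num)).differentiableAt).hasDerivAt
    have h2 : HasFDerivAt ph (fderiv ℝ ph (u, σ)) (u, σ) :=
      ((ph_smooth h).differentiableAt (by norm_num)).hasFDerivAt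
    have h3 : HasFDerivAt (fun t => Th2 (ph t)) (deriv Th2 (ph (u, σ)) • fderiv ℝ ph (u, σ))
      (u, σ) := h1.comp_hasFDerivAt (u, σ) h2
    rw [h3.fderiv, hph]
    rfl
  have hdd : ∀ v w, fderiv ℝ (fderiv ℝ thF) (u, σ) v w =
      deriv (deriv Th2) (u / eps σ) * fderiv ℝ ph (u, σ) v * fderiv ℝ ph (u, σ) w +
        deriv Th2 (u / eps σ) * fderiv ℝ (fderiv ℝ ph) (u, σ) v w := by
    intro v w
    rw [fderiv2_congr (thF_eq h), fderiv2_real (Th2_C 2).contDiffAt (ph_smooth h) v w, hph]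
  have hN : ∀ v : ℝ × ℝ, |u / eps σ| ≤ 1 →
      |fderiv ℝ ph (u, σ) v| ≤ |v.1| / eps σ + |v.2| / σ := by
    intro v hu
    rw [ph_d h]
    have e1 : |v.1 / eps σ| = |v.1| / eps σ := by rw [abs_div, abs_of_pos hε]
    have e2 : |v.2 / σ| = |v.2| / σ := by rw [abs_div, abs_of_pos h]
    have e3 : |4 / 5 * (u / eps σ) * (v.2 / σ)| ≤ |v.2| / σ := by
      rw [abs_mul, abs_mul, e2, abs_of_pos (by norm_num : (0 : ℝ) < 4 / 5)]
      have : 0 ≤ |v.2| / σ := by positivity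
      have : 4 / 5 * |u / eps σ| ≤ 1 := by linarith
      nlinarith
    calc |v.1 / eps σ - 4 / 5 * (u / eps σ) * (v.2 / σ)| ≤ |v.1 / eps σ| +
          |4 / 5 * (u / eps σ) * (v.2 / σ)| := abs_sub _ _
      _ ≤ _ := by rw [e1]; linarith
  have hNN : ∀ v w : ℝ × ℝ, |u / eps σ| ≤ 1 →
      |fderiv ℝ (fderiv ℝ ph) (u, σ) v w| ≤
        2 * ((|v.1| / eps σ + |v.2| / σ) * (|w.1| / eps σ + |w.2| / σ)) := by
    intro v w hu
    rw [ph_dd h]
    have e1 : ∀ x : ℝ, |x / eps σ| = |x| / eps σ := fun x => by rw [abs_div, abs_of_pos hε]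
    have e2 : ∀ x : ℝ, |x / σ| = |x| / σ := fun x => by rw [abs_div, abs_of_pos h]
    have p1 : 0 ≤ |v.1| / eps σ := by positivity
    have p2 : 0 ≤ |v.2| / σ := by positivity
    have p3 : 0 ≤ |w.1| / eps σ := by positivity
    have p4 : 0 ≤ |w.2| / σ := by positivity
    have e3 : |(-(4 / 5) : ℝ) * (v.1 / eps σ * (w.2 / σ) + w.1 / eps σ * (v.2 / σ))| ≤
        4 / 5 * (|v.1| / eps σ * (|w.2| / σ) + |w.1| / eps σ * (|v.2| / σ)) := by
      rw [abs_mul, abs_neg, abs_of_pos (by norm_num : (0 : ℝ) < 4 / 5)]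
      apply mul_le_mul_of_nonneg_left _ (by norm_num)
      refine (abs_add_le _ _).trans (le_of_eq ?_)
      rw [abs_mul, abs_mul, e1, e1, e2, e2]
    have e4 : |36 / 25 * (u / eps σ) * (v.2 / σ * (w.2 / σ))| ≤
        36 / 25 * (|v.2| / σ * (|w.2| / σ)) := by
      rw [abs_mul, abs_mul, abs_mul, e2, e2, abs_of_pos (by norm_num : (0 : ℝ) < 36 / 25)]
      have p5 : 0 ≤ |v.2| / σ * (|w.2| / σ) := by positivity
      have : 36 / 25 * |u / eps σ| ≤ 36 / 25 := by linarith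
      exact mul_le_mul_of_nonneg_right this p5
    refine (abs_add_le _ _).trans ((add_le_add e3 e4).trans ?_)
    have q1 := mul_nonneg p1 p3
    have q2 := mul_nonneg p1 p4
    have q3 := mul_nonneg p2 p3
    have q4 := mul_nonneg p2 p4
    nlinarith
  rcases hb (u / eps σ) with ⟨hu, hb1, hb2⟩ | ⟨hb1, hb2⟩
  · constructor
    · intro v
      rw [hd v, abs_mul]
      have h1 := hN v hu
      have p1 : 0 ≤ |v.1| / eps σ + |v.2| / σ := by positivity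
      calc |deriv Th2 (u / eps σ)| * |fderiv ℝ ph (u, σ) v|
          ≤ M * (|v.1| / eps σ + |v.2| / σ) := mul_le_mul hb1 h1 (abs_nonneg _) hM.le
        _ ≤ 3 * M * (|v.1| / eps σ + |v.2| / σ) := by
            apply mul_le_mul_of_nonneg_right _ p1
            linarith
    · intro v w
      rw [hdd v w]
      have h1 := hN v hu
      have h2 := hN w hu
      have h3 := hNN v w hu
      have p1 : 0 ≤ |v.1| / eps σ + |v.2| / σ := by positivity
      have p2 : 0 ≤ |w.1| / eps σ + |w.2| / σ := by positivity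
      have e1 : |deriv (deriv Th2) (u / eps σ) * fderiv ℝ ph (u, σ) v * fderiv ℝ ph (u, σ) w| ≤
          M * ((|v.1| / eps σ + |v.2| / σ) * (|w.1| / eps σ + |w.2| / σ)) := by
        rw [abs_mul, abs_mul, mul_assoc]
        apply mul_le_mul hb2 _ (by positivity) hM.le
        exact mul_le_mul h1 h2 (abs_nonneg _) p1
      have e2 : |deriv Th2 (u / eps σ) * fderiv ℝ (fderiv ℝ ph) (u, σ) v w| ≤
          M * (2 * ((|v.1| / eps σ + |v.2| / σ) * (|w.1| / eps σ + |w.2| / σ))) := by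
        rw [abs_mul]
        exact mul_le_mul hb1 h3 (abs_nonneg _) hM.le
      refine (abs_add_le _ _).trans ((add_le_add e1 e2).trans (le_of_eq ?_))
      ring
  · constructor
    · intro v
      rw [hd v, hb1, zero_mul, abs_zero]
      positivity
    · intro v w
      rw [hdd v w, hb1, hb2]
      simp only [zero_mul, add_zero, abs_zero]
      positivity

/-- the angle as a function of `(u, z)` -/
noncomputable def tauF (s : Z8 → ℝ) : ℝ × Z8 → ℝ := fun t => th t.1 (s t.2)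

variable {B : ℝ} {s : Z8 → ℝ} {m : Z8 → V2}

theorem tauF_bd (hs : SData s m B) : ∃ C : ℝ, 0 < C ∧ ∀ (u : ℝ) (z : Z8), s z ≠ 0 →
    ContDiffAt ℝ 2 (tauF s) (u, z) ∧
    (∀ v, |fderiv ℝ (tauF s) (u, z) v| ≤
      C * (|v.1| / eps (s z) + |fderiv ℝ s z v.2| / s z)) ∧
    ∀ v w, |fderiv ℝ (fderiv ℝ (tauF s)) (u, z) v w| ≤
      C * (|v.1| / eps (s z) + |fderiv ℝ s z v.2| / s z) *
        (|w.1| / eps (s z) + |fderiv ℝ s z w.2| / s z) +
      C * |fderiv ℝ (fderiv ℝ s) z v.2 w.2| / s z := by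
  obtain ⟨C, hC, hb⟩ := thF_bd
  refine ⟨C, hC, fun u z hz => ?_⟩
  have h0 : 0 < s z := lt_of_le_of_ne (hs.nonneg z) (Ne.symm hz)
  obtain ⟨hb1, hb2⟩ := hb u (s z) h0
  have hsm := hs.smooth_s z hz
  -- the inner map
  have hs2 : ContDiffAt ℝ 2 (fun t : ℝ × Z8 => s t.2) (u, z) := hsm.comp (u, z) contDiffAt_snd
  have hin : ContDiffAt ℝ 2 (fun t : ℝ × Z8 => (t.1, s t.2)) (u, z) := contDiffAt_fst.prodMk hs2
  have hth := th_smooth u (s z) h0
  have hs2d : ∀ v : ℝ × Z8, fderiv ℝ (fun t : ℝ × Z8 => s t.2) (u, z) v = fderiv ℝ s z v.2 := by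
    intro v
    have h1 : HasFDerivAt s (fderiv ℝ s z) ((u, z) : ℝ × Z8).2 :=
      (hsm.differentiableAt (by norm_num)).hasFDerivAt
    have h2 : HasFDerivAt (fun t : ℝ × Z8 => t.2) (ContinuousLinearMap.snd ℝ ℝ Z8) (u, z) :=
      hasFDerivAt_snd
    have h3 : HasFDerivAt (fun t : ℝ × Z8 => s t.2)
      ((fderiv ℝ s z).comp (ContinuousLinearMap.snd ℝ ℝ Z8)) (u, z) := h1.comp (u, z) h2
    rw [h3.fderiv]
    rfl
  have hs2dd : ∀ v w : ℝ × Z8, fderiv ℝ (fderiv ℝ fun t : ℝ × Z8 => s t.2) (u, z) v w =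
      fderiv ℝ (fderiv ℝ s) z v.2 w.2 := by
    intro v w
    have h1 := fderiv2_comp_lin (f := s) (ContinuousLinearMap.snd ℝ ℝ Z8) 0 (x := (u, z))
      (by simpa using hsm) v w
    simpa using h1
  have hind : ∀ v : ℝ × Z8, fderiv ℝ (fun t : ℝ × Z8 => (t.1, s t.2)) (u, z) v =
      (v.1, fderiv ℝ s z v.2) := by
    intro v
    have h1 : HasFDerivAt (fun t : ℝ × Z8 => t.1) (ContinuousLinearMap.fst ℝ ℝ Z8) (u, z) :=
      hasFDerivAt_fst
    have h2 := (hs2.differentiableAt (by norm_num)).hasFDerivAt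
    have h3 := h1.prodMk h2
    have h4 : fderiv ℝ (fun t : ℝ × Z8 => (t.1, s t.2)) (u, z) = _ := h3.fderiv
    rw [h4]
    simp only [ContinuousLinearMap.prod_apply, ContinuousLinearMap.coe_fst']
    rw [hs2d v]
  have hindd : ∀ v w : ℝ × Z8, fderiv ℝ (fderiv ℝ fun t : ℝ × Z8 => (t.1, s t.2)) (u, z) v w =
      (0, fderiv ℝ (fderiv ℝ s) z v.2 w.2) := by
    intro v w
    rw [fderiv2_prod (f := fun t : ℝ × Z8 => t.1) (g := fun t : ℝ × Z8 => s t.2)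
      contDiffAt_fst hs2 v w, hs2dd v w]
    have h2 : fderiv ℝ (fderiv ℝ (fun t : ℝ × Z8 => t.1)) (u, z) = 0 :=
      fderiv2_lin (ContinuousLinearMap.fst ℝ ℝ Z8) (u, z)
    rw [h2]
    rfl
  have htau : tauF s = fun t : ℝ × Z8 => thF (t.1, s t.2) := rfl
  refine ⟨?_, ?_, ?_⟩
  · rw [htau]
    have h3 : ContDiffAt ℝ 2 (thF ∘ fun t : ℝ × Z8 => (t.1, s t.2)) (u, z) :=
      ContDiffAt.comp (u, z) hth hin
    exact h3
  · intro v
    have h1 : HasFDerivAt thF (fderiv ℝ thF (u, s z)) (u, s z) :=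
      (hth.differentiableAt (by norm_num)).hasFDerivAt
    have h2 := (hin.differentiableAt (by norm_num)).hasFDerivAt
    have h1' : HasFDerivAt thF (fderiv ℝ thF (u, s z))
      ((fun t : ℝ × Z8 => (t.1, s t.2)) (u, z)) := h1
    have h3' := HasFDerivAt.comp (u, z) h1' h2
    have h3 : HasFDerivAt (tauF s) ((fderiv ℝ thF (u, s z)).comp
      (fderiv ℝ (fun t : ℝ × Z8 => (t.1, s t.2)) (u, z))) (u, z) := h3'
    rw [h3.fderiv, ContinuousLinearMap.comp_apply, hind v]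
    exact hb1 _
  · intro v w
    rw [htau, fderiv2_comp (f := thF) (h := fun t : ℝ × Z8 => (t.1, s t.2)) (x := (u, z))
      hth hin v w, hind v, hind w, hindd v w]
    refine (abs_add_le _ _).trans ?_
    have e1 := hb2 (v.1, fderiv ℝ s z v.2) (w.1, fderiv ℝ s z w.2)
    have e2 := hb1 (0, fderiv ℝ (fderiv ℝ s) z v.2 w.2)
    simp only [abs_zero, zero_div, zero_add] at e2
    refine add_le_add e1 (e2.trans (le_of_eq ?_))
    ring

end Pool.Agent.Wtw
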