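import Mathlib
import Pool.Agent.Wtw.ThB
import Pool.Agent.Wtw.Loc

/-!
# CBnd: derivatives of `cc = rot (τ) m - m`, `τ = th u (s z)`

`D cc v = (rot τ - 1) Dm + Dτ[v] rot' τ m`,
`D^2 cc v w = (rot τ - 1) D^2m + Dτ[v] rot'τ Dm[w] + Dτ[w] rot'τ Dm[v] + Dτ[v]Dτ[w] rot''τ m + D^2τ[v,w] rot'τ m`.
With `Loc`: `|m| |Dτ(0,ξ)| <= C |m||Ds ξ|/s <= C ν ξ`, `|Dτ (0,ξ)| <= C ν ξ / s`, `|Dτ(1,0)| <= C/ε`.
`C'` depends only on `C` (and on the constant of `tauF_bd`).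
-/

namespace Pool.Agent.Wtw

open MeasureTheory Set Filter Topology
open scoped ENNReal

variable {B : ℝ} {s : Z8 → ℝ} {m : Z8 → V2}

theorem cc_norm (u : ℝ) (z : Z8) : ‖cc s m u z‖ ≤ 3 * ‖m z‖ := by
  have h0 : |m z 0| ≤ ‖m z‖ := norm_le_pi_norm (m z) 0
  have h1 : |m z 1| ≤ ‖m z‖ := norm_le_pi_norm (m z) 1
  have hb : ∀ t : ℝ, |Real.cos t * m z 0 - Real.sin t * m z 1 - m z 0| ≤ 3 * ‖m z‖ := by
    intro t
    have e1 : |Real.cos t * m z 0| ≤ ‖m z‖ := by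
      rw [abs_mul]
      calc |Real.cos t| * |m z 0| ≤ 1 * ‖m z‖ :=
            mul_le_mul (Real.abs_cos_le_one t) h0 (abs_nonneg _) (by norm_num)
        _ = _ := one_mul _
    have e2 : |Real.sin t * m z 1| ≤ ‖m z‖ := by
      rw [abs_mul]
      calc |Real.sin t| * |m z 1| ≤ 1 * ‖m z‖ :=
            mul_le_mul (Real.abs_sin_le_one t) h1 (abs_nonneg _) (by norm_num)
        _ = _ := one_mul _
    rw [abs_le] at *
    constructor <;> linarith [e1.1, e1.2, e2.1, e2.2, h0.1, h0.2]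
  have hb' : ∀ t : ℝ, |Real.sin t * m z 0 + Real.cos t * m z 1 - m z 1| ≤ 3 * ‖m z‖ := by
    intro t
    have e1 : |Real.cos t * m z 1| ≤ ‖m z‖ := by
      rw [abs_mul]
      calc |Real.cos t| * |m z 1| ≤ 1 * ‖m z‖ :=
            mul_le_mul (Real.abs_cos_le_one t) h1 (abs_nonneg _) (by norm_num)
        _ = _ := one_mul _
    have e2 : |Real.sin t * m z 0| ≤ ‖m z‖ := by
      rw [abs_mul]
      calc |Real.sin t| * |m z 0| ≤ 1 * ‖m z‖ :=
            mul_le_mul (Real.abs_sin_le_one t) h0 (abs_nonneg _) (by norm_num)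
        _ = _ := one_mul _
    rw [abs_le] at *
    constructor <;> linarith [e1.1, e1.2, e2.1, e2.2, h1.1, h1.2]
  rw [pi_norm_le_iff_of_nonneg (by positivity)]
  intro i
  rw [Real.norm_eq_abs]
  fin_cases i
  · exact hb _
  · exact hb' _

private theorem CBnd_term {φ : ℝ → ℝ} (hφ : ContDiff ℝ 2 φ) (b0 : ∀ x, |φ x| ≤ 2)
    (b1 : ∀ x, |deriv φ x| ≤ 1) (b2 : ∀ x, |deriv (deriv φ) x| ≤ 1) {τ M : ℝ × Z8 → ℝ}
    {t : ℝ × Z8} (hτ : ContDiffAt ℝ 2 τ t) (hM : ContDiffAt ℝ 2 M t) :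
    ContDiffAt ℝ 2 (fun t => φ (τ t) * M t) t ∧
    (∀ v, |fderiv ℝ (fun t => φ (τ t) * M t) t v| ≤
      |fderiv ℝ τ t v| * |M t| + 2 * |fderiv ℝ M t v|) ∧
    ∀ v w, |fderiv ℝ (fderiv ℝ (fun t => φ (τ t) * M t)) t v w| ≤
      (|fderiv ℝ τ t v| * |fderiv ℝ τ t w| + |fderiv ℝ (fderiv ℝ τ) t v w|) * |M t| +
      |fderiv ℝ τ t v| * |fderiv ℝ M t w| + |fderiv ℝ τ t w| * |fderiv ℝ M t v| +
      2 * |fderiv ℝ (fderiv ℝ M) t v w| := by
  have hφt : ContDiffAt ℝ 2 φ (τ t) := hφ.contDiffAt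
  have hcomp : ContDiffAt ℝ 2 (fun t => φ (τ t)) t := hφt.comp t hτ
  have hd : DifferentiableAt ℝ φ (τ t) := hφt.differentiableAt (by norm_num)
  have hτd : DifferentiableAt ℝ τ t := hτ.differentiableAt (by norm_num)
  have hMd : DifferentiableAt ℝ M t := hM.differentiableAt (by norm_num)
  have hcd : DifferentiableAt ℝ (fun t => φ (τ t)) t := hcomp.differentiableAt (by norm_num)
  have hf1 : ∀ v, fderiv ℝ (fun t => φ (τ t)) t v = deriv φ (τ t) * fderiv ℝ τ t v := by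
    intro v
    have h1 : HasFDerivAt (fun t => φ (τ t)) (deriv φ (τ t) • fderiv ℝ τ t) t :=
      hd.hasDerivAt.comp_hasFDerivAt t hτd.hasFDerivAt
    rw [h1.fderiv]
    simp
  refine ⟨hcomp.mul hM, ?_, ?_⟩
  · intro v
    have h1 : fderiv ℝ (fun t => φ (τ t) * M t) t v =
        φ (τ t) * fderiv ℝ M t v + M t * (deriv φ (τ t) * fderiv ℝ τ t v) := by
      have h2 := (hcd.hasFDerivAt.mul hMd.hasFDerivAt).fderiv
      have h3 : fderiv ℝ (fun t => φ (τ t) * M t) t =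
        φ (τ t) • fderiv ℝ M t + M t • fderiv ℝ (fun t => φ (τ t)) t := h2
      rw [h3]
      simp [hf1]
    rw [h1]
    have a1 : |φ (τ t) * fderiv ℝ M t v| ≤ 2 * |fderiv ℝ M t v| := by
      rw [abs_mul]; exact mul_le_mul_of_nonneg_right (b0 _) (abs_nonneg _)
    have a2 : |M t * (deriv φ (τ t) * fderiv ℝ τ t v)| ≤ |fderiv ℝ τ t v| * |M t| := by
      rw [abs_mul, abs_mul, mul_comm]
      apply mul_le_mul_of_nonneg_right _ (abs_nonneg _)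
      calc |deriv φ (τ t)| * |fderiv ℝ τ t v| ≤ 1 * |fderiv ℝ τ t v| :=
            mul_le_mul_of_nonneg_right (b1 _) (abs_nonneg _)
        _ = _ := one_mul _
    refine (abs_add_le _ _).trans ?_
    linarith
  · intro v w
    rw [fderiv2_mul hcomp hM, fderiv2_real hφt hτ, hf1 v, hf1 w]
    have c0 := b0 (τ t)
    have c1 := b1 (τ t)
    have c2 := b2 (τ t)
    set A := fderiv ℝ τ t v
    set A' := fderiv ℝ τ t w
    set T := fderiv ℝ (fderiv ℝ τ) t v w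
    set N := M t
    set D := fderiv ℝ M t v
    set D' := fderiv ℝ M t w
    set S := fderiv ℝ (fderiv ℝ M) t v w
    have e1 : |(deriv (deriv φ) (τ t) * A * A' + deriv φ (τ t) * T) * N| ≤
        (|A| * |A'| + |T|) * |N| := by
      rw [abs_mul]
      apply mul_le_mul_of_nonneg_right _ (abs_nonneg _)
      calc _ ≤ |deriv (deriv φ) (τ t) * A * A'| + |deriv φ (τ t) * T| := abs_add_le _ _
        _ = |deriv (deriv φ) (τ t)| * (|A| * |A'|) + |deriv φ (τ t)| * |T| := by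
          rw [abs_mul, abs_mul, abs_mul]; ring
        _ ≤ 1 * (|A| * |A'|) + 1 * |T| := by
          gcongr
        _ = _ := by ring
    have e2 : |deriv φ (τ t) * A * D'| ≤ |A| * |D'| := by
      rw [abs_mul, abs_mul]
      calc |deriv φ (τ t)| * |A| * |D'| ≤ 1 * |A| * |D'| := by gcongr
        _ = _ := by ring
    have e3 : |deriv φ (τ t) * A' * D| ≤ |A'| * |D| := by
      rw [abs_mul, abs_mul]
      calc |deriv φ (τ t)| * |A'| * |D| ≤ 1 * |A'| * |D| := by gcongr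
        _ = _ := by ring
    have e4 : |φ (τ t) * S| ≤ 2 * |S| := by
      rw [abs_mul]; gcongr
    calc _ ≤ |(deriv (deriv φ) (τ t) * A * A' + deriv φ (τ t) * T) * N| +
          |deriv φ (τ t) * A * D'| + |deriv φ (τ t) * A' * D| + |φ (τ t) * S| := by
          refine (abs_add_le _ _).trans ?_
          gcongr
          refine (abs_add_le _ _).trans ?_
          gcongr
          exact abs_add_le _ _
      _ ≤ _ := by linarith

private theorem CBnd_sum {φ ψ : ℝ → ℝ} (hφ : ContDiff ℝ 2 φ) (b0 : ∀ x, |φ x| ≤ 2)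
    (b1 : ∀ x, |deriv φ x| ≤ 1) (b2 : ∀ x, |deriv (deriv φ) x| ≤ 1)
    (hψ : ContDiff ℝ 2 ψ) (d0 : ∀ x, |ψ x| ≤ 2)
    (d1 : ∀ x, |deriv ψ x| ≤ 1) (d2 : ∀ x, |deriv (deriv ψ) x| ≤ 1) {τ M N : ℝ × Z8 → ℝ}
    {t : ℝ × Z8} (hτ : ContDiffAt ℝ 2 τ t) (hM : ContDiffAt ℝ 2 M t) (hN : ContDiffAt ℝ 2 N t)
    {b : ℝ} {e : ℝ × Z8 → ℝ} {f : ℝ × Z8 → ℝ × Z8 → ℝ}
    (hM0 : |M t| ≤ b) (hN0 : |N t| ≤ b) (hM1 : ∀ v, |fderiv ℝ M t v| ≤ e v)
    (hN1 : ∀ v, |fderiv ℝ N t v| ≤ e v) (hM2 : ∀ v w, |fderiv ℝ (fderiv ℝ M) t v w| ≤ f v w)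
    (hN2 : ∀ v w, |fderiv ℝ (fderiv ℝ N) t v w| ≤ f v w) :
    (∀ v, |fderiv ℝ (fun t => φ (τ t) * M t + ψ (τ t) * N t) t v| ≤
      2 * (|fderiv ℝ τ t v| * b + 2 * e v)) ∧
    ∀ v w, |fderiv ℝ (fderiv ℝ (fun t => φ (τ t) * M t + ψ (τ t) * N t)) t v w| ≤
      2 * ((|fderiv ℝ τ t v| * |fderiv ℝ τ t w| + |fderiv ℝ (fderiv ℝ τ) t v w|) * b +
      |fderiv ℝ τ t v| * e w + |fderiv ℝ τ t w| * e v +
      2 * f v w) := by
  obtain ⟨s1, p1, q1⟩ := CBnd_term hφ b0 b1 b2 hτ hM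
  obtain ⟨s2, p2, q2⟩ := CBnd_term hψ d0 d1 d2 hτ hN
  have hd1 := s1.differentiableAt (by norm_num : (2 : WithTop ℕ∞) ≠ 0)
  have hd2 := s2.differentiableAt (by norm_num : (2 : WithTop ℕ∞) ≠ 0)
  refine ⟨fun v => ?_, fun v w => ?_⟩
  · have h1 : fderiv ℝ (fun t => φ (τ t) * M t + ψ (τ t) * N t) t v =
        fderiv ℝ (fun t => φ (τ t) * M t) t v + fderiv ℝ (fun t => ψ (τ t) * N t) t v := by
      have := (hd1.hasFDerivAt.add hd2.hasFDerivAt).fderiv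
      have h3 : fderiv ℝ (fun t => φ (τ t) * M t + ψ (τ t) * N t) t =
        fderiv ℝ (fun t => φ (τ t) * M t) t + fderiv ℝ (fun t => ψ (τ t) * N t) t := this
      rw [h3]; rfl
    rw [h1]
    have g1 : |fderiv ℝ τ t v| * |M t| ≤ |fderiv ℝ τ t v| * b := by gcongr
    have g2 : |fderiv ℝ τ t v| * |N t| ≤ |fderiv ℝ τ t v| * b := by gcongr
    refine (abs_add_le _ _).trans ?_
    linarith [p1 v, p2 v, hM1 v, hN1 v]
  · rw [fderiv2_add s1 s2]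
    have g1 : (|fderiv ℝ τ t v| * |fderiv ℝ τ t w| + |fderiv ℝ (fderiv ℝ τ) t v w|) * |M t| ≤
        (|fderiv ℝ τ t v| * |fderiv ℝ τ t w| + |fderiv ℝ (fderiv ℝ τ) t v w|) * b := by gcongr
    have g2 : (|fderiv ℝ τ t v| * |fderiv ℝ τ t w| + |fderiv ℝ (fderiv ℝ τ) t v w|) * |N t| ≤
        (|fderiv ℝ τ t v| * |fderiv ℝ τ t w| + |fderiv ℝ (fderiv ℝ τ) t v w|) * b := by gcongr
    have g3 : |fderiv ℝ τ t v| * |fderiv ℝ M t w| ≤ |fderiv ℝ τ t v| * e w := by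
      gcongr; exact hM1 w
    have g4 : |fderiv ℝ τ t v| * |fderiv ℝ N t w| ≤ |fderiv ℝ τ t v| * e w := by
      gcongr; exact hN1 w
    have g5 : |fderiv ℝ τ t w| * |fderiv ℝ M t v| ≤ |fderiv ℝ τ t w| * e v := by
      gcongr; exact hM1 v
    have g6 : |fderiv ℝ τ t w| * |fderiv ℝ N t v| ≤ |fderiv ℝ τ t w| * e v := by
      gcongr; exact hN1 v
    refine (abs_add_le _ _).trans ?_
    linarith [q1 v w, q2 v w, hM2 v w, hN2 v w]

private theorem CBnd_snd {m : Z8 → V2} {u : ℝ} {z : Z8} (hm : ContDiffAt ℝ 2 m z) (i : Fin 2) :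
    ContDiffAt ℝ 2 (fun t : ℝ × Z8 => m t.2 i) (u, z) ∧
    (∀ v, |fderiv ℝ (fun t : ℝ × Z8 => m t.2 i) (u, z) v| ≤ ‖fderiv ℝ m z v.2‖) ∧
    ∀ v w, |fderiv ℝ (fderiv ℝ (fun t : ℝ × Z8 => m t.2 i)) (u, z) v w| ≤
      ‖fderiv ℝ (fderiv ℝ m) z v.2 w.2‖ := by
  have hi : ContDiffAt ℝ 2 (fun y : Z8 => m y i) z := contDiffAt_pi.1 hm i
  have hc : ContDiffAt ℝ 2 (fun t : ℝ × Z8 => m t.2 i) (u, z) :=
    ContDiffAt.comp (u, z) (g := fun y : Z8 => m y i) (f := fun t : ℝ × Z8 => t.2) hi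
      contDiffAt_snd
  have hmd : DifferentiableAt ℝ m z := hm.differentiableAt (by norm_num)
  have hid : DifferentiableAt ℝ (fun y : Z8 => m y i) z := hi.differentiableAt (by norm_num)
  refine ⟨hc, fun v => ?_, fun v w => ?_⟩
  · have h1 : HasFDerivAt (fun t : ℝ × Z8 => m t.2 i)
        ((fderiv ℝ (fun y : Z8 => m y i) z).comp (ContinuousLinearMap.snd ℝ ℝ Z8)) (u, z) :=
      HasFDerivAt.comp (u, z) (g := fun y : Z8 => m y i) (f := fun t : ℝ × Z8 => t.2)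
        hid.hasFDerivAt hasFDerivAt_snd
    rw [h1.fderiv]
    show |fderiv ℝ (fun y : Z8 => m y i) z v.2| ≤ _
    rw [← fderiv_pi_apply' hmd v.2 i]
    exact norm_le_pi_norm (fderiv ℝ m z v.2) i
  · have h1 := fderiv2_comp_lin (f := fun y : Z8 => m y i) (ContinuousLinearMap.snd ℝ ℝ Z8) 0
      (x := ((u, z) : ℝ × Z8)) (by simpa using hi) v w
    simp only [add_zero, ContinuousLinearMap.coe_snd'] at h1
    rw [h1, ← fderiv2_pi hm v.2 w.2 i]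
    exact norm_le_pi_norm (fderiv ℝ (fderiv ℝ m) z v.2 w.2) i

theorem ccF_bd (hs : SData s m B) (C : ℝ) : ∃ C' : ℝ, 1 ≤ C' ∧ ∀ (z : Z8) (ν : Z8 → ℝ),
    Loc s m z ν C → ∀ u : ℝ,
    ‖fderiv ℝ (ccF s m) (u, z) (1, 0)‖ ≤ C' * ‖m z‖ / eps (s z) ∧
    (∀ ξ, ‖fderiv ℝ (ccF s m) (u, z) (0, ξ)‖ ≤ C' * ν ξ) ∧
    ‖fderiv ℝ (fderiv ℝ (ccF s m)) (u, z) (1, 0) (1, 0)‖ ≤ C' * ‖m z‖ / eps (s z) ^ 2 ∧
    (∀ ξ, ‖fderiv ℝ (fderiv ℝ (ccF s m)) (u, z) (1, 0) (0, ξ)‖ ≤ C' * ν ξ / eps (s z)) ∧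
    ∀ ξ η, ‖fderiv ℝ (fderiv ℝ (ccF s m)) (u, z) (0, ξ) (0, η)‖ ≤ C' / s z * ν ξ * ν η := by
  by_cases hC : 1 ≤ C
  swap
  · exact ⟨1, le_rfl, fun z ν h => absurd h.one_le hC⟩
  obtain ⟨K, hK, htau⟩ := tauF_bd hs
  set C' : ℝ := 1 + 2 * ((K ^ 2 + K) * C ^ 2 + K * C + 2 * K * C ^ 2 + 2 * C) + 2 * K * (1 + K)
    with hC'
  have hC0 : 0 < C := by linarith
  have hC1 : 1 ≤ C' := by
    have e1 : 0 < (K ^ 2 + K) * C ^ 2 := by positivity
    have e2 : 0 < K * C := by positivity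
    have e3 : 0 < 2 * K * C ^ 2 := by positivity
    have e4 : 0 < 2 * K * (1 + K) := by positivity
    rw [hC']
    linarith
  refine ⟨C', hC1, ?_⟩
  intro z ν hL u
  have hsz : 0 < s z := lt_of_le_of_ne (hs.nonneg z) (Ne.symm hL.s_ne)
  have he : 0 < eps (s z) := by unfold eps; exact Real.rpow_pos_of_pos hsz _
  obtain ⟨hτs, hτ1, hτ2⟩ := htau u z hL.s_ne
  have hm := hs.smooth_m z hL.s_ne
  obtain ⟨m0s, m01, m02⟩ := CBnd_snd (u := u) hm 0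
  obtain ⟨m1s, m11, m12⟩ := CBnd_snd (u := u) hm 1
  have hν0 : ν 0 = 0 := le_antisymm (by simpa using hL.le 0) (hL.nonneg 0)
  -- coordinate functions
  have ec0 : (fun t => ccF s m t 0) = fun t => (fun x => Real.cos x - 1) (tauF s t) * m t.2 0 +
      (fun x => -Real.sin x) (tauF s t) * m t.2 1 := by
    funext t
    show Real.cos (tauF s t) * m t.2 0 - Real.sin (tauF s t) * m t.2 1 - m t.2 0 = _
    ring
  have ec1 : (fun t => ccF s m t 1) = fun t => (fun x => Real.sin x) (tauF s t) * m t.2 0 +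
      (fun x => Real.cos x - 1) (tauF s t) * m t.2 1 := by
    funext t
    show Real.sin (tauF s t) * m t.2 0 + Real.cos (tauF s t) * m t.2 1 - m t.2 1 = _
    ring
  have hcosm : ContDiff ℝ 2 fun x : ℝ => Real.cos x - 1 := Real.contDiff_cos.sub contDiff_const
  have hsin : ContDiff ℝ 2 fun x : ℝ => Real.sin x := Real.contDiff_sin
  have hnsin : ContDiff ℝ 2 fun x : ℝ => -Real.sin x := Real.contDiff_sin.neg
  have dcos1 : deriv (fun x : ℝ => Real.cos x - 1) = fun x => -Real.sin x := by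
    funext x
    simp
  have dnsin : deriv (fun x : ℝ => -Real.sin x) = fun x => -Real.cos x := by
    funext x
    simp
  have dsin : deriv (fun x : ℝ => Real.sin x) = fun x => Real.cos x := by
    funext x
    simp
  have dcos : deriv (fun x : ℝ => Real.cos x) = fun x => -Real.sin x := by
    funext x
    simp
  have dncos : deriv (fun x : ℝ => -Real.cos x) = fun x => Real.sin x := by
    funext x
    simp
  have c0 : ∀ x : ℝ, |Real.cos x - 1| ≤ 2 := by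
    intro x
    rw [abs_le]
    constructor <;> linarith [Real.neg_one_le_cos x, Real.cos_le_one x]
  have c1 : ∀ x : ℝ, |deriv (fun x : ℝ => Real.cos x - 1) x| ≤ 1 := by
    intro x; rw [dcos1, abs_neg]; exact Real.abs_sin_le_one x
  have c2 : ∀ x : ℝ, |deriv (deriv (fun x : ℝ => Real.cos x - 1)) x| ≤ 1 := by
    intro x; rw [dcos1, dnsin, abs_neg]; exact Real.abs_cos_le_one x
  have n0 : ∀ x : ℝ, |(-Real.sin x)| ≤ 2 := by
    intro x; rw [abs_neg]; linarith [Real.abs_sin_le_one x]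
  have n1 : ∀ x : ℝ, |deriv (fun x : ℝ => -Real.sin x) x| ≤ 1 := by
    intro x; rw [dnsin, abs_neg]; exact Real.abs_cos_le_one x
  have n2 : ∀ x : ℝ, |deriv (deriv (fun x : ℝ => -Real.sin x)) x| ≤ 1 := by
    intro x; rw [dnsin, dncos]; exact Real.abs_sin_le_one x
  have s0 : ∀ x : ℝ, |Real.sin x| ≤ 2 := by
    intro x; linarith [Real.abs_sin_le_one x]
  have s1 : ∀ x : ℝ, |deriv (fun x : ℝ => Real.sin x) x| ≤ 1 := by
    intro x; rw [dsin]; exact Real.abs_cos_le_one x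
  have s2 : ∀ x : ℝ, |deriv (deriv (fun x : ℝ => Real.sin x)) x| ≤ 1 := by
    intro x; rw [dsin, dcos, abs_neg]; exact Real.abs_sin_le_one x
  have bm0 : |m ((u, z) : ℝ × Z8).2 0| ≤ ‖m z‖ := norm_le_pi_norm (m z) 0
  have bm1 : |m ((u, z) : ℝ × Z8).2 1| ≤ ‖m z‖ := norm_le_pi_norm (m z) 1
  obtain ⟨P0, Q0⟩ := CBnd_sum hcosm c0 c1 c2 hnsin n0 n1 n2 hτs m0s m1s bm0 bm1 m01 m11 m02 m12
  obtain ⟨P1, Q1⟩ := CBnd_sum hsin s0 s1 s2 hcosm c0 c1 c2 hτs m0s m1s bm0 bm1 m01 m11 m02 m12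
  rw [← ec0] at P0 Q0
  rw [← ec1] at P1 Q1
  have hcs := cc_smooth hs u z hL.s_ne
  have hcd : DifferentiableAt ℝ (ccF s m) (u, z) := hcs.differentiableAt (by norm_num)
  -- the two master bounds
  have P : ∀ v, ‖fderiv ℝ (ccF s m) (u, z) v‖ ≤
      2 * (|fderiv ℝ (tauF s) (u, z) v| * ‖m z‖ + 2 * ‖fderiv ℝ m z v.2‖) := by
    intro v
    rw [pi_norm_le_iff_of_nonneg (by positivity)]
    intro i
    rw [Real.norm_eq_abs, fderiv_pi_apply' hcd v i]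
    fin_cases i
    · exact P0 v
    · exact P1 v
  have Q : ∀ v w, ‖fderiv ℝ (fderiv ℝ (ccF s m)) (u, z) v w‖ ≤
      2 * ((|fderiv ℝ (tauF s) (u, z) v| * |fderiv ℝ (tauF s) (u, z) w| +
        |fderiv ℝ (fderiv ℝ (tauF s)) (u, z) v w|) * ‖m z‖ +
      |fderiv ℝ (tauF s) (u, z) v| * ‖fderiv ℝ m z w.2‖ +
      |fderiv ℝ (tauF s) (u, z) w| * ‖fderiv ℝ m z v.2‖ +
      2 * ‖fderiv ℝ (fderiv ℝ m) z v.2 w.2‖) := by
    intro v w
    rw [pi_norm_le_iff_of_nonneg (by positivity)]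
    intro i
    rw [Real.norm_eq_abs, fderiv2_pi hcs v w i]
    fin_cases i
    · exact Q0 v w
    · exact Q1 v w
  clear P0 P1 Q0 Q1
  -- bounds for tau
  have T10 : |fderiv ℝ (tauF s) (u, z) (1, 0)| ≤ K / eps (s z) := by
    have := hτ1 (1, 0)
    simp only [map_zero, abs_zero, abs_one, zero_div, add_zero] at this
    rwa [mul_one_div] at this
  have T0 : ∀ ξ, |fderiv ℝ (tauF s) (u, z) (0, ξ)| ≤ K * (|fderiv ℝ s z ξ| / s z) := by
    intro ξ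
    have := hτ1 (0, ξ)
    simpa using this
  have T110 : |fderiv ℝ (fderiv ℝ (tauF s)) (u, z) (1, 0) (1, 0)| ≤ K / eps (s z) ^ 2 := by
    have := hτ2 (1, 0) (1, 0)
    simp only [map_zero, abs_zero, abs_one, zero_div, add_zero, mul_zero] at this
    calc _ ≤ _ := this
      _ = _ := by field_simp
  have T10x : ∀ ξ, |fderiv ℝ (fderiv ℝ (tauF s)) (u, z) (1, 0) (0, ξ)| ≤
      K / eps (s z) * (|fderiv ℝ s z ξ| / s z) := by
    intro ξ
    have := hτ2 (1, 0) (0, ξ)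
    simp only [map_zero, abs_zero, abs_one, zero_div, add_zero, zero_add, mul_zero,
      ContinuousLinearMap.zero_apply] at this
    calc _ ≤ _ := this
      _ = _ := by ring
  have T00 : ∀ ξ η, |fderiv ℝ (fderiv ℝ (tauF s)) (u, z) (0, ξ) (0, η)| ≤
      K * (|fderiv ℝ s z ξ| / s z) * (|fderiv ℝ s z η| / s z) +
      K * |fderiv ℝ (fderiv ℝ s) z ξ η| / s z := by
    intro ξ η
    have := hτ2 (0, ξ) (0, η)
    simpa using this
  have hmn : 0 ≤ ‖m z‖ := norm_nonneg _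
  have hmξ : ∀ ξ, ‖m z‖ * (|fderiv ℝ s z ξ| / s z) ≤ C * ν ξ := by
    intro ξ
    have := hL.L3 ξ
    rw [← mul_div_assoc, div_le_iff₀ hsz]
    linarith
  have hsξ : ∀ ξ, |fderiv ℝ s z ξ| / s z ≤ C * ν ξ / s z := fun ξ =>
    div_le_div_of_nonneg_right (hL.L1 ξ) hsz.le
  have hnn : ∀ ξ, 0 ≤ |fderiv ℝ s z ξ| / s z := fun ξ => by positivity
  have hKC : 0 < K * C := mul_pos hK hC0
  have hKCC : 0 < K * C ^ 2 := by positivity
  have hK2 : 0 < K ^ 2 := by positivity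
  have hK2C : 0 < K ^ 2 * C ^ 2 := by positivity
  have hCC : C ≤ C ^ 2 := by nlinarith
  have hKCCC : K * C ≤ K * C ^ 2 := by nlinarith
  have hK2CC : K ^ 2 * C ≤ K ^ 2 * C ^ 2 := by nlinarith
  refine ⟨?_, fun ξ => ?_, ?_, fun ξ => ?_, fun ξ η => ?_⟩
  · -- (1,0)
    have h1 := P (1, 0)
    simp only [map_zero, norm_zero, mul_zero, add_zero] at h1
    calc _ ≤ _ := h1
      _ ≤ 2 * (K / eps (s z) * ‖m z‖) := by gcongr
      _ = (2 * K) * ‖m z‖ / eps (s z) := by ring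
      _ ≤ C' * ‖m z‖ / eps (s z) := by
        gcongr
        rw [hC']; nlinarith
  · -- (0, ξ)
    have h1 := P (0, ξ)
    have h2 := hL.L2 ξ
    have h3 := T0 ξ
    have h4 := hmξ ξ
    have h5 := hL.nonneg ξ
    calc _ ≤ _ := h1
      _ ≤ 2 * (K * (|fderiv ℝ s z ξ| / s z) * ‖m z‖ + 2 * (C * ν ξ)) := by
        gcongr
      _ = 2 * (K * (‖m z‖ * (|fderiv ℝ s z ξ| / s z)) + 2 * (C * ν ξ)) := by ring
      _ ≤ 2 * (K * (C * ν ξ) + 2 * (C * ν ξ)) := by gcongr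
      _ = (2 * (K * C + 2 * C)) * ν ξ := by ring
      _ ≤ C' * ν ξ := by
        gcongr
        rw [hC']; nlinarith
  · -- (1,0),(1,0)
    have h1 := Q (1, 0) (1, 0)
    simp only [map_zero, norm_zero, mul_zero, add_zero, ContinuousLinearMap.zero_apply] at h1
    calc _ ≤ _ := h1
      _ ≤ 2 * ((K / eps (s z) * (K / eps (s z)) + K / eps (s z) ^ 2) * ‖m z‖) := by gcongr
      _ = (2 * (K ^ 2 + K)) * ‖m z‖ / eps (s z) ^ 2 := by field_simp
      _ ≤ C' * ‖m z‖ / eps (s z) ^ 2 := by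
        gcongr
        rw [hC']; nlinarith
  · -- (1,0),(0,ξ)
    have h1 := Q (1, 0) (0, ξ)
    simp only [map_zero, norm_zero, mul_zero, add_zero, ContinuousLinearMap.zero_apply] at h1
    have h2 := hL.L2 ξ
    have h3 := T0 ξ
    have h4 := hmξ ξ
    have h5 := hL.nonneg ξ
    calc _ ≤ _ := h1
      _ ≤ 2 * ((K / eps (s z) * (K * (|fderiv ℝ s z ξ| / s z)) +
          K / eps (s z) * (|fderiv ℝ s z ξ| / s z)) * ‖m z‖ + K / eps (s z) * (C * ν ξ)) := by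
        gcongr
        exact T10x ξ
      _ = 2 / eps (s z) * ((K ^ 2 + K) * (‖m z‖ * (|fderiv ℝ s z ξ| / s z)) +
          K * (C * ν ξ)) := by ring
      _ ≤ 2 / eps (s z) * ((K ^ 2 + K) * (C * ν ξ) + K * (C * ν ξ)) := by gcongr
      _ = (2 * ((K ^ 2 + K) * C + K * C)) * ν ξ / eps (s z) := by ring
      _ ≤ C' * ν ξ / eps (s z) := by
        gcongr
        rw [hC']; nlinarith
  · -- (0,ξ),(0,η)
    have h1 := Q (0, ξ) (0, η)
    have h2 := hL.L2 ξ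
    have h2' := hL.L2 η
    have h22 := hL.L2' ξ η
    have h3 := T0 ξ
    have h3' := T0 η
    have h4 := hmξ ξ
    have h4' := hmξ η
    have h5 := hL.nonneg ξ
    have h5' := hL.nonneg η
    have h6 := hsξ ξ
    have h6' := hsξ η
    have h7 := hL.L3' ξ η
    have h8 := T00 ξ η
    have g1 : ‖m z‖ * (|fderiv ℝ s z ξ| / s z) * (|fderiv ℝ s z η| / s z) ≤
        C * ν ξ * (C * ν η / s z) := by gcongr
    have g2 : ‖m z‖ * |fderiv ℝ (fderiv ℝ s) z ξ η| / s z ≤ C * ν ξ * ν η / s z := by gcongr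
    have g3 : (|fderiv ℝ s z ξ| / s z) * (C * ν η) ≤ C * ν ξ / s z * (C * ν η) := by gcongr
    have g4 : (|fderiv ℝ s z η| / s z) * (C * ν ξ) ≤ C * ν η / s z * (C * ν ξ) := by gcongr
    calc _ ≤ _ := h1
      _ ≤ 2 * ((K * (|fderiv ℝ s z ξ| / s z) * (K * (|fderiv ℝ s z η| / s z)) +
          (K * (|fderiv ℝ s z ξ| / s z) * (|fderiv ℝ s z η| / s z) +
            K * |fderiv ℝ (fderiv ℝ s) z ξ η| / s z)) * ‖m z‖ +
          K * (|fderiv ℝ s z ξ| / s z) * (C * ν η) + K * (|fderiv ℝ s z η| / s z) * (C * ν ξ) +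
          2 * (C / s z * ν ξ * ν η)) := by gcongr
      _ = 2 * ((K ^ 2 + K) * (‖m z‖ * (|fderiv ℝ s z ξ| / s z) * (|fderiv ℝ s z η| / s z)) +
          K * (‖m z‖ * |fderiv ℝ (fderiv ℝ s) z ξ η| / s z) +
          K * ((|fderiv ℝ s z ξ| / s z) * (C * ν η)) +
          K * ((|fderiv ℝ s z η| / s z) * (C * ν ξ)) +
          2 * (C / s z * ν ξ * ν η)) := by ring
      _ ≤ 2 * ((K ^ 2 + K) * (C * ν ξ * (C * ν η / s z)) + K * (C * ν ξ * ν η / s z) +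
          K * (C * ν ξ / s z * (C * ν η)) + K * (C * ν η / s z * (C * ν ξ)) +
          2 * (C / s z * ν ξ * ν η)) := by gcongr
      _ = (2 * ((K ^ 2 + K) * C ^ 2 + K * C + 2 * K * C ^ 2 + 2 * C)) / s z * ν ξ * ν η := by
        ring
      _ ≤ C' / s z * ν ξ * ν η := by
        gcongr
        rw [hC']; nlinarith

end Pool.Agent.Wtw
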