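import Mathlib
import Pool.Agent.Wtw.Abs
import Pool.Agent.Wtw.Chain2

/-!
# PComp: composition with `p`

`a : E → ℝ × ℝ` of class `C^2` at `e`, `(a e).2 = σ ∈ (0, 1]`. First and second order chain rule with
`|D(PP p) b| <= pz (|b.1| + |b.2|)` (`ps_le`) and the field `dd` (or `far`).
-/

namespace Pool.Agent.Wtw

open MeasureTheory Set Filter Topology
open scoped ENNReal

variable {p : ℝ → ℝ → ℝ} {A : ℝ} {E : Type*} [NormedAddCommGroup E] [NormedSpace ℝ E]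

theorem PComp_lin (h : PData p A) (z σ : ℝ) (h0 : 0 < σ) (b : ℝ × ℝ) :
    |fderiv ℝ (PP p) (z, σ) b| ≤ 2 * pz p z σ * ‖b‖ := by
  have e : fderiv ℝ (PP p) (z, σ) b = b.1 * pz p z σ + b.2 * ps p z σ := by
    have : b = b.1 • ((1, 0) : ℝ × ℝ) + b.2 • ((0, 1) : ℝ × ℝ) := by
      ext <;> simp
    conv_lhs => rw [this, map_add, map_smul, map_smul]
    rfl
  have h1 := h.ge_one z σ h0
  have h2 := h.ps_le z σ h0
  have h3 : |b.1| ≤ ‖b‖ := by simpa using norm_fst_le b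
  have h4 : |b.2| ≤ ‖b‖ := by simpa using norm_snd_le b
  rw [e]
  calc |b.1 * pz p z σ + b.2 * ps p z σ| ≤ |b.1| * |pz p z σ| + |b.2| * |ps p z σ| := by
        rw [← abs_mul, ← abs_mul]; exact abs_add_le _ _
    _ ≤ ‖b‖ * pz p z σ + ‖b‖ * pz p z σ := by
        rw [abs_of_pos (show 0 < pz p z σ by linarith)]
        refine add_le_add (mul_le_mul_of_nonneg_right h3 (by linarith)) ?_
        exact mul_le_mul h4 h2 (abs_nonneg _) (norm_nonneg _)
    _ = 2 * pz p z σ * ‖b‖ := by ring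

theorem pcomp_d (h : PData p A) (a : E → ℝ × ℝ) (e : E) (ha : ContDiffAt ℝ 2 a e)
    (h0 : 0 < (a e).2) (v : E) :
    |fderiv ℝ (fun t => PP p (a t)) e v| ≤ 2 * pz p (a e).1 (a e).2 * ‖fderiv ℝ a e v‖ := by
  have h1 : DifferentiableAt ℝ (PP p) (a e) :=
    (h.smooth (a e).1 (a e).2 h0).differentiableAt (by norm_num)
  have h2 : DifferentiableAt ℝ a e := ha.differentiableAt (by norm_num)
  have h3 : fderiv ℝ (fun t => PP p (a t)) e v = fderiv ℝ (PP p) (a e) (fderiv ℝ a e v) := by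
    have : fderiv ℝ (PP p ∘ a) e = (fderiv ℝ (PP p) (a e)).comp (fderiv ℝ a e) :=
      fderiv_comp e h1 h2
    have h4 := congrArg (fun L => L v) this
    exact h4
  rw [h3]
  exact PComp_lin h (a e).1 (a e).2 h0 _

theorem pcomp_dd (h : PData p A) (a : E → ℝ × ℝ) (e : E) (ha : ContDiffAt ℝ 2 a e)
    (h0 : 0 < (a e).2) (h1 : (a e).2 ≤ 1) (v w : E) :
    |fderiv ℝ (fderiv ℝ fun t => PP p (a t)) e v w| ≤ pz p (a e).1 (a e).2 *
      (A * (a e).2 ^ (-(65 / 64) : ℝ) * ‖fderiv ℝ a e v‖ * ‖fderiv ℝ a e w‖ +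
        2 * ‖fderiv ℝ (fderiv ℝ a) e v w‖) := by
  have hs : ContDiffAt ℝ 2 (PP p) (a e) := h.smooth (a e).1 (a e).2 h0
  rw [fderiv2_comp hs ha v w]
  have h2 := h.dd (a e).1 (a e).2 h0 h1 (fderiv ℝ a e v) (fderiv ℝ a e w)
  have h3 := PComp_lin h (a e).1 (a e).2 h0 (fderiv ℝ (fderiv ℝ a) e v w)
  refine (abs_add_le _ _).trans ((add_le_add h2 h3).trans (le_of_eq ?_))
  ring

theorem pcomp_far (h : PData p A) (a : E → ℝ × ℝ) (e : E) (ha : ContDiffAt ℝ 2 a e)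
    (h0 : 0 < (a e).2) (hf : (a e).2 < Metric.infDist (a e).1 CC) (v w : E) :
    |fderiv ℝ (fderiv ℝ fun t => PP p (a t)) e v w| ≤ pz p (a e).1 (a e).2 *
      (2 * ‖fderiv ℝ (fderiv ℝ a) e v w‖) := by
  have hs : ContDiffAt ℝ 2 (PP p) (a e) := h.smooth (a e).1 (a e).2 h0
  rw [fderiv2_comp hs ha v w]
  have h2 : fderiv ℝ (fderiv ℝ (PP p)) (a e) = 0 := (h.far (a e).1 (a e).2 h0 hf).2.2
  have h3 := PComp_lin h (a e).1 (a e).2 h0 (fderiv ℝ (fderiv ℝ a) e v w)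
  rw [h2]
  simp only [ContinuousLinearMap.zero_apply, zero_add]
  refine h3.trans (le_of_eq ?_)
  ring

end Pool.Agent.Wtw
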