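import Mathlib
import Pool.Agent.Wtw.CBnd
import Pool.Agent.Wtw.PComp
import Pool.Agent.Wtw.FSm

/-!
# PhiB: bounds for the derivatives of `GG` and of `PhF (u, z) = GG (RR u z)`

`PhF (u,z) k = PP p (a (u,z))`, `a (u,z) = (z k + nn k.2 * cc u z k.1, s z)` (`s (RR u z) = s z`, `s_RR`).
`|Da (0,ξ)| <= |ξ k| + C ν ξ`, `|Da (1,0)| <= C |m|/ε`, `D^2 a` from `ccF_bd` and `L1'`.
If `|ξ k| <= ν ξ` for all `ξ`: `pcomp_dd`; otherwise `L4` with `c = nn * cc`, `|c| <= 12 |m|` (`cc_norm`):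
`pcomp_far`.  `1/s <= s^(-65/64)`.  `GG` is the case `cc = 0` (direct).
`ρ' = pz p (RR u z k) (s z)`.
-/

namespace Pool.Agent.Wtw

open MeasureTheory Set Filter Topology
open scoped ENNReal

variable {p : ℝ → ℝ → ℝ} {A B : ℝ} {s : Z8 → ℝ} {m : Z8 → V2}

theorem PhiB_gen {E : Type*} [NormedAddCommGroup E] [NormedSpace ℝ E] (h : PData p A)
    (a : E → ℝ × ℝ) (e : E) (ha : ContDiffAt ℝ 2 a e) (h0 : 0 < (a e).2) (h1 : (a e).2 ≤ 1)
    (v w : E) {α β γ : ℝ} (hα0 : 0 ≤ α) (hβ0 : 0 ≤ β)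
    (hor : (‖fderiv ℝ a e v‖ ≤ α ∧ ‖fderiv ℝ a e w‖ ≤ β) ∨ (a e).2 < Metric.infDist (a e).1 CC)
    (hγ : ‖fderiv ℝ (fderiv ℝ a) e v w‖ ≤ γ) :
    |fderiv ℝ (fderiv ℝ fun t => PP p (a t)) e v w| ≤ pz p (a e).1 (a e).2 *
      (A * (a e).2 ^ (-(65 / 64) : ℝ) * α * β + 2 * γ) := by
  have hpz : 0 ≤ pz p (a e).1 (a e).2 := le_trans zero_le_one (h.ge_one _ _ h0)
  have hA : 0 ≤ A := le_trans zero_le_one h.one_le
  have hpow : 0 ≤ (a e).2 ^ (-(65 / 64) : ℝ) := Real.rpow_nonneg h0.le _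
  rcases hor with ⟨hv, hw⟩ | hfar
  · refine le_trans (pcomp_dd h a e ha h0 h1 v w) ?_
    apply mul_le_mul_of_nonneg_left _ hpz
    have e1 : A * (a e).2 ^ (-(65 / 64) : ℝ) * ‖fderiv ℝ a e v‖ * ‖fderiv ℝ a e w‖ ≤
        A * (a e).2 ^ (-(65 / 64) : ℝ) * α * β := by
      have e2 : 0 ≤ A * (a e).2 ^ (-(65 / 64) : ℝ) := mul_nonneg hA hpow
      apply mul_le_mul (mul_le_mul_of_nonneg_left hv e2) hw (norm_nonneg _)
        (mul_nonneg e2 hα0)
    linarith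
  · refine le_trans (pcomp_far h a e ha h0 hfar v w) ?_
    apply mul_le_mul_of_nonneg_left _ hpz
    have e1 : 0 ≤ A * (a e).2 ^ (-(65 / 64) : ℝ) * α * β := by positivity
    linarith

theorem PhiB_inv_le {σ : ℝ} (h0 : 0 < σ) (h1 : σ ≤ 1) : 1 / σ ≤ σ ^ (-(65 / 64) : ℝ) := by
  have : (1 : ℝ) / σ = σ ^ (-1 : ℝ) := by
    rw [Real.rpow_neg_one, one_div]
  rw [this]
  exact Real.rpow_le_rpow_of_exponent_ge h0 h1 (by norm_num)

theorem PhiB_nn (i : Fin 4) : 0 ≤ nn i ∧ nn i ≤ 4 := by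
  unfold nn
  have h1 : (i : ℕ) ≤ 3 := by omega
  have h2 : ((i : ℕ) : ℝ) ≤ 3 := by exact_mod_cast h1
  constructor
  · positivity
  · linarith

/-- the inner function for `GG` -/
noncomputable def PhiB_b (s : Z8 → ℝ) (k : Idx) : Z8 → ℝ × ℝ := fun t => (t k, s t)

theorem PhiB_b_smooth (hs : SData s m B) (z : Z8) (hz : s z ≠ 0) (k : Idx) :
    ContDiffAt ℝ 2 (PhiB_b s k) z := by
  unfold PhiB_b
  exact (contDiffAt_apply ℝ ℝ k z).prodMk (hs.smooth_s z hz)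

theorem PhiB_b_d (hs : SData s m B) (z : Z8) (hz : s z ≠ 0) (k : Idx) (ξ : Z8) :
    fderiv ℝ (PhiB_b s k) z ξ = (ξ k, fderiv ℝ s z ξ) := by
  have h1 : HasFDerivAt (fun t : Z8 => t k) (ContinuousLinearMap.proj (R := ℝ) (φ := fun _ : Idx => ℝ) k) z :=
    (ContinuousLinearMap.proj (R := ℝ) (φ := fun _ : Idx => ℝ) k).hasFDerivAt
  have h2 : HasFDerivAt s (fderiv ℝ s z) z :=
    ((hs.smooth_s z hz).differentiableAt (by norm_num)).hasFDerivAt
  have h3 := (h1.prodMk h2).fderiv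
  unfold PhiB_b
  rw [h3]
  rfl

theorem PhiB_b_dd (hs : SData s m B) (z : Z8) (hz : s z ≠ 0) (k : Idx) (ξ η : Z8) :
    fderiv ℝ (fderiv ℝ (PhiB_b s k)) z ξ η = (0, fderiv ℝ (fderiv ℝ s) z ξ η) := by
  unfold PhiB_b
  rw [fderiv2_prod (contDiffAt_apply ℝ ℝ k z) (hs.smooth_s z hz)]
  have := fderiv2_lin (ContinuousLinearMap.proj (R := ℝ) (φ := fun _ : Idx => ℝ) k) z
  have h2 : fderiv ℝ (fderiv ℝ fun t : Z8 => t k) z = 0 := this
  rw [h2]
  rfl

theorem GG_dd_bd (hp : PData p A) (hs : SData s m B) (C : ℝ) : ∃ C' : ℝ, 1 ≤ C' ∧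
    ∀ (z : Z8) (ν : Z8 → ℝ), Loc s m z ν C → ∀ (ξ η : Z8) (k : Idx),
    |fderiv ℝ (fderiv ℝ (GG p s)) z ξ η k| ≤
      C' * pz p (z k) (s z) * s z ^ (-(65 / 64) : ℝ) * ν ξ * ν η := by
  have hA : 1 ≤ A := hp.one_le
  refine ⟨1 + A * C ^ 2 + 2 * |C|, by
    have h1 : 0 ≤ A * C ^ 2 := by positivity
    have h2 : 0 ≤ |C| := abs_nonneg C
    linarith, ?_⟩
  intro z ν hL ξ η k
  have hz : s z ≠ 0 := hL.s_ne
  have hs0 : 0 < s z := s_pos hs z hz
  have hs1 : s z ≤ 1 := le_trans (hs.le_half z) (by norm_num)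
  have hC1 : 1 ≤ C := hL.one_le
  have hC : |C| = C := abs_of_nonneg (by linarith)
  have hνξ := hL.nonneg ξ
  have hνη := hL.nonneg η
  have hpz : 0 ≤ pz p (z k) (s z) := le_trans zero_le_one (hp.ge_one _ _ hs0)
  have hP : 0 ≤ s z ^ (-(65 / 64) : ℝ) := Real.rpow_nonneg hs0.le _
  have hinv := PhiB_inv_le hs0 hs1
  rw [fderiv2_pi (GG_smooth hp hs z hz)]
  have hfun : (fun t => GG p s t k) = fun t => PP p (PhiB_b s k t) := rfl
  rw [hfun]
  have key := PhiB_gen hp (PhiB_b s k) z (PhiB_b_smooth hs z hz k) hs0 hs1 ξ η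
    (α := C * ν ξ) (β := C * ν η) (γ := C / s z * ν ξ * ν η)
    (mul_nonneg (by linarith) hνξ) (mul_nonneg (by linarith) hνη)
    (by
      rcases hL.L4 k with h4 | h4
      · left
        rw [PhiB_b_d hs z hz, PhiB_b_d hs z hz]
        constructor
        · rw [Prod.norm_def]
          apply max_le
          · simp only [Real.norm_eq_abs]
            have := h4 ξ
            nlinarith
          · simp only [Real.norm_eq_abs]
            exact hL.L1 ξ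
        · rw [Prod.norm_def]
          apply max_le
          · simp only [Real.norm_eq_abs]
            have := h4 η
            nlinarith
          · simp only [Real.norm_eq_abs]
            exact hL.L1 η
      · right
        have := h4 0 (by rw [abs_zero]; positivity)
        rw [add_zero] at this
        exact this)
    (by
      rw [PhiB_b_dd hs z hz, Prod.norm_def]
      apply max_le
      · rw [norm_zero]
        positivity
      · simp only [Real.norm_eq_abs]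
        exact hL.L1' ξ η)
  have h1 : (PhiB_b s k z).1 = z k := rfl
  have h2 : (PhiB_b s k z).2 = s z := rfl
  rw [h1, h2] at key
  refine le_trans key ?_
  have h3 : C / s z * ν ξ * ν η ≤ C * s z ^ (-(65 / 64) : ℝ) * ν ξ * ν η := by
    have : C / s z = C * (1 / s z) := by ring
    rw [this]
    gcongr
  have h4 : A * s z ^ (-(65 / 64) : ℝ) * (C * ν ξ) * (C * ν η) + 2 * (C / s z * ν ξ * ν η) ≤
      (A * C ^ 2 + 2 * C) * (s z ^ (-(65 / 64) : ℝ) * ν ξ * ν η) := by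
    nlinarith [h3]
  have h5 : (A * C ^ 2 + 2 * C) * (s z ^ (-(65 / 64) : ℝ) * ν ξ * ν η) ≤
      (1 + A * C ^ 2 + 2 * |C|) * (s z ^ (-(65 / 64) : ℝ) * ν ξ * ν η) := by
    rw [hC]
    apply mul_le_mul_of_nonneg_right _ (by positivity)
    linarith
  calc pz p (z k) (s z) * (A * s z ^ (-(65 / 64) : ℝ) * (C * ν ξ) * (C * ν η) +
        2 * (C / s z * ν ξ * ν η))
      ≤ pz p (z k) (s z) * ((1 + A * C ^ 2 + 2 * |C|) * (s z ^ (-(65 / 64) : ℝ) * ν ξ * ν η)) :=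
        mul_le_mul_of_nonneg_left (le_trans h4 h5) hpz
    _ = (1 + A * C ^ 2 + 2 * |C|) * pz p (z k) (s z) * s z ^ (-(65 / 64) : ℝ) * ν ξ * ν η := by
        ring

/-- the inner function for `PhF` -/
noncomputable def PhiB_a (s : Z8 → ℝ) (m : Z8 → V2) (k : Idx) : ℝ × Z8 → ℝ × ℝ :=
  fun t => (t.2 k + nn k.2 * ccF s m t k.1, s t.2)

theorem PhiB_a_smooth (hs : SData s m B) (u : ℝ) (z : Z8) (hz : s z ≠ 0) (k : Idx) :
    ContDiffAt ℝ 2 (PhiB_a s m k) (u, z) := by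
  unfold PhiB_a
  have h1 : ContDiffAt ℝ 2 (fun t : ℝ × Z8 => t.2 k) (u, z) := by fun_prop
  have h2 : ContDiffAt ℝ 2 (fun t : ℝ × Z8 => ccF s m t k.1) (u, z) :=
    (contDiffAt_pi.1 (cc_smooth hs u z hz)) k.1
  have h3 : ContDiffAt ℝ 2 (fun t : ℝ × Z8 => s t.2) (u, z) := by
    have h4 : ContDiffAt ℝ 2 s ((u, z) : ℝ × Z8).2 := hs.smooth_s z hz
    exact h4.comp (u, z) contDiffAt_snd
  exact (h1.add (contDiffAt_const.mul h2)).prodMk h3

theorem PhiB_a_d (hs : SData s m B) (u : ℝ) (z : Z8) (hz : s z ≠ 0) (k : Idx) (v : ℝ × Z8) :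
    fderiv ℝ (PhiB_a s m k) (u, z) v =
      (v.2 k + nn k.2 * fderiv ℝ (ccF s m) (u, z) v k.1, fderiv ℝ s z v.2) := by
  have h0 : HasFDerivAt (fun t : ℝ × Z8 => t.2 k)
      ((ContinuousLinearMap.proj (R := ℝ) (φ := fun _ : Idx => ℝ) k).comp
        (ContinuousLinearMap.snd ℝ ℝ Z8)) (u, z) :=
    ((ContinuousLinearMap.proj (R := ℝ) (φ := fun _ : Idx => ℝ) k).comp
        (ContinuousLinearMap.snd ℝ ℝ Z8)).hasFDerivAt
  have h1 : HasFDerivAt (ccF s m) (fderiv ℝ (ccF s m) (u, z)) (u, z) :=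
    ((cc_smooth hs u z hz).differentiableAt (by norm_num)).hasFDerivAt
  have h2 : HasFDerivAt (fun t : ℝ × Z8 => ccF s m t k.1)
      ((ContinuousLinearMap.proj (R := ℝ) (φ := fun _ : Fin 2 => ℝ) k.1).comp
        (fderiv ℝ (ccF s m) (u, z))) (u, z) := hasFDerivAt_pi'.1 h1 k.1
  have h3 : HasFDerivAt (fun t : ℝ × Z8 => s t.2)
      ((fderiv ℝ s z).comp (ContinuousLinearMap.snd ℝ ℝ Z8)) (u, z) := by
    have h4 : HasFDerivAt s (fderiv ℝ s z) ((u, z) : ℝ × Z8).2 :=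
      ((hs.smooth_s z hz).differentiableAt (by norm_num)).hasFDerivAt
    exact h4.comp (u, z) hasFDerivAt_snd
  have h5 := ((h0.add (h2.const_mul (nn k.2))).prodMk h3).fderiv
  have h6 : fderiv ℝ (PhiB_a s m k) (u, z) = _ := h5
  rw [h6]
  simp

theorem PhiB_a_dd (hs : SData s m B) (u : ℝ) (z : Z8) (hz : s z ≠ 0) (k : Idx)
    (v w : ℝ × Z8) : fderiv ℝ (fderiv ℝ (PhiB_a s m k)) (u, z) v w =
      (nn k.2 * fderiv ℝ (fderiv ℝ (ccF s m)) (u, z) v w k.1,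
        fderiv ℝ (fderiv ℝ s) z v.2 w.2) := by
  have h1 : ContDiffAt ℝ 2 (fun t : ℝ × Z8 => t.2 k) (u, z) := by fun_prop
  have h2 : ContDiffAt ℝ 2 (fun t : ℝ × Z8 => ccF s m t k.1) (u, z) :=
    (contDiffAt_pi.1 (cc_smooth hs u z hz)) k.1
  have h3 : ContDiffAt ℝ 2 (fun t : ℝ × Z8 => s t.2) (u, z) := by
    have h4 : ContDiffAt ℝ 2 s ((u, z) : ℝ × Z8).2 := hs.smooth_s z hz
    exact h4.comp (u, z) contDiffAt_snd
  have e1 : fderiv ℝ (fderiv ℝ (PhiB_a s m k)) (u, z) v w =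
      (fderiv ℝ (fderiv ℝ fun t : ℝ × Z8 => t.2 k + nn k.2 * ccF s m t k.1) (u, z) v w,
        fderiv ℝ (fderiv ℝ fun t : ℝ × Z8 => s t.2) (u, z) v w) :=
    fderiv2_prod (h1.add (contDiffAt_const.mul h2)) h3 v w
  rw [e1]
  have e2 := fderiv2_add (f := fun t : ℝ × Z8 => t.2 k)
    (g := fun t : ℝ × Z8 => nn k.2 * ccF s m t k.1) h1 (contDiffAt_const.mul h2) v w
  have e3 : fderiv ℝ (fderiv ℝ fun t : ℝ × Z8 => t.2 k) (u, z) = 0 :=
    fderiv2_lin ((ContinuousLinearMap.proj (R := ℝ) (φ := fun _ : Idx => ℝ) k).comp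
        (ContinuousLinearMap.snd ℝ ℝ Z8)) (u, z)
  have e4 : fderiv ℝ (fderiv ℝ fun t : ℝ × Z8 => nn k.2 * ccF s m t k.1) (u, z) v w =
      nn k.2 * fderiv ℝ (fderiv ℝ (ccF s m)) (u, z) v w k.1 :=
    fderiv2_clm (nn k.2 • ContinuousLinearMap.proj (R := ℝ) (φ := fun _ : Fin 2 => ℝ) k.1)
      (cc_smooth hs u z hz) v w
  have e5 : fderiv ℝ (fderiv ℝ fun t : ℝ × Z8 => s t.2) (u, z) v w =
      fderiv ℝ (fderiv ℝ s) z v.2 w.2 := by
    have hh : ContDiffAt ℝ 2 s (ContinuousLinearMap.snd ℝ ℝ Z8 (u, z) + 0) := by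
      rw [add_zero]; exact hs.smooth_s z hz
    have := fderiv2_comp_lin (ContinuousLinearMap.snd ℝ ℝ Z8) (0 : Z8) hh v w
    simpa using this
  rw [e2, e3, e4, e5]
  simp

theorem PhF_bd (hp : PData p A) (hs : SData s m B) (C : ℝ) : ∃ C' : ℝ, 1 ≤ C' ∧
    ∀ (z : Z8) (ν : Z8 → ℝ), Loc s m z ν C → ∀ (u : ℝ) (k : Idx),
    (∀ ξ, |fderiv ℝ (PhF p s m) (u, z) (0, ξ) k| ≤ C' * pz p (RR s m u z k) (s z) * ‖ξ‖) ∧
    (∀ ξ η, |fderiv ℝ (fderiv ℝ (PhF p s m)) (u, z) (0, ξ) (0, η) k| ≤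
      C' * pz p (RR s m u z k) (s z) * s z ^ (-(65 / 64) : ℝ) * ν ξ * ν η) ∧
    (∀ η, |fderiv ℝ (fderiv ℝ (PhF p s m)) (u, z) (1, 0) (0, η) k| ≤
      C' * pz p (RR s m u z k) (s z) * (1 + ‖m z‖ * s z ^ (-(65 / 64) : ℝ)) * ν η / eps (s z)) ∧
    |fderiv ℝ (fderiv ℝ (PhF p s m)) (u, z) (1, 0) (1, 0) k| ≤
      C' * pz p (RR s m u z k) (s z) * (‖m z‖ / eps (s z) ^ 2) *
        (1 + ‖m z‖ * s z ^ (-(65 / 64) : ℝ)) := by
  obtain ⟨C₁, hC₁, hcc⟩ := ccF_bd hs C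
  have hA : 1 ≤ A := hp.one_le
  have hK0 : 0 ≤ |C| := abs_nonneg C
  set K : ℝ := 1 + 4 * C₁ + |C| with hK
  have hK1 : 1 ≤ K := by linarith
  refine ⟨A * K ^ 2 + 2 * K, by nlinarith, ?_⟩
  intro z ν hL u k
  have hz : s z ≠ 0 := hL.s_ne
  have hs0 : 0 < s z := s_pos hs z hz
  have hs1 : s z ≤ 1 := le_trans (hs.le_half z) (by norm_num)
  have hC1 : 1 ≤ C := hL.one_le
  have hC : |C| = C := abs_of_nonneg (by linarith)
  have hCK : C ≤ K := by rw [hK, hC]; linarith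
  have h4CK : 4 * C₁ ≤ K := by rw [hK]; linarith
  have hP : 0 ≤ s z ^ (-(65 / 64) : ℝ) := Real.rpow_nonneg hs0.le _
  have hinv := PhiB_inv_le hs0 hs1
  have hε : 0 < eps (s z) := Real.rpow_pos_of_pos hs0 _
  obtain ⟨c1, c2, c3, c4, c5⟩ := hcc z ν hL u
  obtain ⟨n0, n4⟩ := PhiB_nn k.2
  have hsm := PhF_smooth hp hs u z hz
  have hfun : (fun t => PhF p s m t k) = fun t => PP p (PhiB_a s m k t) := by
    funext t
    simp only [PhF, Phi, GG, PP, PhiB_a, s_RR hs]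
    rfl
  have hsma := PhiB_a_smooth hs u z hz k
  have ha1 : (PhiB_a s m k (u, z)).1 = RR s m u z k := rfl
  have ha2 : (PhiB_a s m k (u, z)).2 = s z := rfl
  have hpz : 0 ≤ pz p (RR s m u z k) (s z) := le_trans zero_le_one (hp.ge_one _ _ hs0)
  have hcomp : ∀ x : V2, |nn k.2 * x k.1| ≤ 4 * ‖x‖ := by
    intro x
    rw [abs_mul, abs_of_nonneg n0]
    have := norm_le_pi_norm x k.1
    rw [Real.norm_eq_abs] at this
    have h1 := abs_nonneg (x k.1)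
    nlinarith [norm_nonneg x]
  -- first derivatives of the inner function
  have d10 : ‖fderiv ℝ (PhiB_a s m k) (u, z) (1, 0)‖ ≤ K * ‖m z‖ / eps (s z) := by
    rw [PhiB_a_d hs u z hz, Prod.norm_def]
    have hr : 0 ≤ ‖m z‖ / eps (s z) := by positivity
    have e0 : K * ‖m z‖ / eps (s z) = K * (‖m z‖ / eps (s z)) := by ring
    have e1 : C₁ * ‖m z‖ / eps (s z) = C₁ * (‖m z‖ / eps (s z)) := by ring
    rw [e1] at c1
    rw [e0]
    apply max_le
    · simp only [Real.norm_eq_abs, Pi.zero_apply, zero_add]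
      refine le_trans (hcomp _) ?_
      nlinarith
    · simp only [map_zero, norm_zero]
      positivity
  have d0ξ : ∀ ξ : Z8, ∀ r : ℝ, |ξ k| ≤ r → ν ξ ≤ r →
      ‖fderiv ℝ (PhiB_a s m k) (u, z) (0, ξ)‖ ≤ K * r := by
    intro ξ r h1 h2
    have hν := hL.nonneg ξ
    have hr : 0 ≤ r := le_trans hν h2
    rw [PhiB_a_d hs u z hz, Prod.norm_def]
    apply max_le
    · simp only [Real.norm_eq_abs]
      refine le_trans (abs_add_le _ _) ?_
      have h3 := hcomp (fderiv ℝ (ccF s m) (u, z) (0, ξ))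
      have h4 := c2 ξ
      have h5 : C₁ * ν ξ ≤ C₁ * r := by nlinarith
      have h6 : K * r = r + 4 * (C₁ * r) + |C| * r := by rw [hK]; ring
      have h7 : 0 ≤ |C| * r := mul_nonneg hK0 hr
      linarith
    · simp only [Real.norm_eq_abs]
      have h3 := hL.L1 ξ
      have h4 : C * ν ξ ≤ K * r := by nlinarith
      linarith
  -- second derivatives of the inner function
  have dd11 : ‖fderiv ℝ (fderiv ℝ (PhiB_a s m k)) (u, z) (1, 0) (1, 0)‖ ≤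
      K * (‖m z‖ / eps (s z) ^ 2) := by
    rw [PhiB_a_dd hs u z hz, Prod.norm_def]
    have hr : 0 ≤ ‖m z‖ / eps (s z) ^ 2 := by positivity
    have e1 : C₁ * ‖m z‖ / eps (s z) ^ 2 = C₁ * (‖m z‖ / eps (s z) ^ 2) := by ring
    rw [e1] at c3
    apply max_le
    · simp only [Real.norm_eq_abs]
      refine le_trans (hcomp _) ?_
      nlinarith
    · simp only [map_zero, norm_zero]
      positivity
  have dd10 : ∀ η : Z8, ‖fderiv ℝ (fderiv ℝ (PhiB_a s m k)) (u, z) (1, 0) (0, η)‖ ≤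
      K * (ν η / eps (s z)) := by
    intro η
    have hν := hL.nonneg η
    rw [PhiB_a_dd hs u z hz, Prod.norm_def]
    have hr : 0 ≤ ν η / eps (s z) := by positivity
    have e1 : C₁ * ν η / eps (s z) = C₁ * (ν η / eps (s z)) := by ring
    have c4' := c4 η
    rw [e1] at c4'
    apply max_le
    · simp only [Real.norm_eq_abs]
      refine le_trans (hcomp _) ?_
      nlinarith
    · simp only [map_zero, ContinuousLinearMap.zero_apply, norm_zero]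
      positivity
  have dd00 : ∀ ξ η : Z8, ‖fderiv ℝ (fderiv ℝ (PhiB_a s m k)) (u, z) (0, ξ) (0, η)‖ ≤
      K * (s z ^ (-(65 / 64) : ℝ) * ν ξ * ν η) := by
    intro ξ η
    have hν1 := hL.nonneg ξ
    have hν2 := hL.nonneg η
    have hνν : 0 ≤ ν ξ * ν η := mul_nonneg hν1 hν2
    rw [PhiB_a_dd hs u z hz, Prod.norm_def]
    have hle : 1 / s z * (ν ξ * ν η) ≤ s z ^ (-(65 / 64) : ℝ) * (ν ξ * ν η) :=
      mul_le_mul_of_nonneg_right hinv hνν
    have hle0 : 0 ≤ 1 / s z * (ν ξ * ν η) := by positivity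
    have e2 : C / s z * ν ξ * ν η = C * (1 / s z * (ν ξ * ν η)) := by ring
    have e3 : C₁ / s z * ν ξ * ν η = C₁ * (1 / s z * (ν ξ * ν η)) := by ring
    have c5' := c5 ξ η
    rw [e3] at c5'
    have l1 := hL.L1' ξ η
    rw [e2] at l1
    rw [mul_assoc (s z ^ (-(65 / 64) : ℝ))]
    apply max_le
    · simp only [Real.norm_eq_abs]
      refine le_trans (hcomp _) ?_
      nlinarith
    · simp only [Real.norm_eq_abs]
      refine le_trans l1 ?_
      nlinarith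
  have hfar : (∀ ξ : Z8, |ξ k| ≤ ν ξ) ∨
      (PhiB_a s m k (u, z)).2 < Metric.infDist (PhiB_a s m k (u, z)).1 CC := by
    rcases hL.L4 k with h4 | h4
    · exact Or.inl h4
    · right
      have h5 : |nn k.2 * cc s m u z k.1| ≤ 12 * ‖m z‖ := by
        have h6 := hcomp (cc s m u z)
        have h7 := cc_norm (s := s) (m := m) u z
        linarith
      exact h4 _ h5
  have hm0 : 0 ≤ ‖m z‖ := norm_nonneg _
  refine ⟨?_, ?_, ?_, ?_⟩
  · intro ξ
    rw [fderiv_pi_apply' (hsm.differentiableAt (by norm_num)), hfun]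
    refine le_trans (pcomp_d hp (PhiB_a s m k) (u, z) hsma hs0 (0, ξ)) ?_
    rw [ha1, ha2]
    have h1 := d0ξ ξ ‖ξ‖ (by
      have := norm_le_pi_norm ξ k
      rwa [Real.norm_eq_abs] at this) (hL.le ξ)
    have h2 : 0 ≤ pz p (RR s m u z k) (s z) * ‖ξ‖ := by positivity
    calc 2 * pz p (RR s m u z k) (s z) * ‖fderiv ℝ (PhiB_a s m k) (u, z) (0, ξ)‖
        ≤ 2 * pz p (RR s m u z k) (s z) * (K * ‖ξ‖) :=
          mul_le_mul_of_nonneg_left h1 (by positivity)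
      _ = (2 * K) * (pz p (RR s m u z k) (s z) * ‖ξ‖) := by ring
      _ ≤ (A * K ^ 2 + 2 * K) * (pz p (RR s m u z k) (s z) * ‖ξ‖) := by
          apply mul_le_mul_of_nonneg_right _ h2
          have : 0 ≤ A * K ^ 2 := by positivity
          linarith
      _ = (A * K ^ 2 + 2 * K) * pz p (RR s m u z k) (s z) * ‖ξ‖ := by ring
  · intro ξ η
    have hν1 := hL.nonneg ξ
    have hν2 := hL.nonneg η
    rw [fderiv2_pi hsm, hfun]
    refine le_trans (PhiB_gen hp (PhiB_a s m k) (u, z) hsma hs0 hs1 (0, ξ) (0, η)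
      (α := K * ν ξ) (β := K * ν η) (by positivity) (by positivity)
      (hfar.imp (fun h4 => ⟨d0ξ ξ _ (h4 ξ) le_rfl, d0ξ η _ (h4 η) le_rfl⟩) id)
      (dd00 ξ η)) ?_
    rw [ha1, ha2]
    apply le_of_eq
    ring
  · intro η
    have hν2 := hL.nonneg η
    rw [fderiv2_pi hsm, hfun]
    refine le_trans (PhiB_gen hp (PhiB_a s m k) (u, z) hsma hs0 hs1 (1, 0) (0, η)
      (α := K * ‖m z‖ / eps (s z)) (β := K * ν η) (by positivity) (by positivity)
      (hfar.imp (fun h4 => ⟨d10, d0ξ η _ (h4 η) le_rfl⟩) id)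
      (dd10 η)) ?_
    rw [ha1, ha2]
    have h1 : A * s z ^ (-(65 / 64) : ℝ) * (K * ‖m z‖ / eps (s z)) * (K * ν η) +
        2 * (K * (ν η / eps (s z))) =
        (A * K ^ 2 * (‖m z‖ * s z ^ (-(65 / 64) : ℝ)) + 2 * K) * (ν η / eps (s z)) := by ring
    have h2 : (A * K ^ 2 * (‖m z‖ * s z ^ (-(65 / 64) : ℝ)) + 2 * K) ≤
        (A * K ^ 2 + 2 * K) * (1 + ‖m z‖ * s z ^ (-(65 / 64) : ℝ)) := by
      have h3 : 0 ≤ ‖m z‖ * s z ^ (-(65 / 64) : ℝ) := by positivity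
      have h4 : 0 ≤ A * K ^ 2 := by positivity
      nlinarith
    rw [h1]
    calc pz p (RR s m u z k) (s z) * ((A * K ^ 2 * (‖m z‖ * s z ^ (-(65 / 64) : ℝ)) + 2 * K) *
          (ν η / eps (s z)))
        ≤ pz p (RR s m u z k) (s z) * ((A * K ^ 2 + 2 * K) *
          (1 + ‖m z‖ * s z ^ (-(65 / 64) : ℝ)) * (ν η / eps (s z))) := by
          apply mul_le_mul_of_nonneg_left _ hpz
          apply mul_le_mul_of_nonneg_right h2
          positivity
      _ = _ := by ring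
  · rw [fderiv2_pi hsm, hfun]
    refine le_trans (PhiB_gen hp (PhiB_a s m k) (u, z) hsma hs0 hs1 (1, 0) (1, 0)
      (α := K * ‖m z‖ / eps (s z)) (β := K * ‖m z‖ / eps (s z)) (by positivity) (by positivity)
      (hfar.imp (fun h4 => ⟨d10, d10⟩) id)
      dd11) ?_
    rw [ha1, ha2]
    have h1 : A * s z ^ (-(65 / 64) : ℝ) * (K * ‖m z‖ / eps (s z)) * (K * ‖m z‖ / eps (s z)) +
        2 * (K * (‖m z‖ / eps (s z) ^ 2)) =
        (A * K ^ 2 * (‖m z‖ * s z ^ (-(65 / 64) : ℝ)) + 2 * K) * (‖m z‖ / eps (s z) ^ 2) := by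
      field_simp
    have h2 : (A * K ^ 2 * (‖m z‖ * s z ^ (-(65 / 64) : ℝ)) + 2 * K) ≤
        (A * K ^ 2 + 2 * K) * (1 + ‖m z‖ * s z ^ (-(65 / 64) : ℝ)) := by
      have h3 : 0 ≤ ‖m z‖ * s z ^ (-(65 / 64) : ℝ) := by positivity
      have h4 : 0 ≤ A * K ^ 2 := by positivity
      nlinarith
    rw [h1]
    calc pz p (RR s m u z k) (s z) * ((A * K ^ 2 * (‖m z‖ * s z ^ (-(65 / 64) : ℝ)) + 2 * K) *
          (‖m z‖ / eps (s z) ^ 2))
        ≤ pz p (RR s m u z k) (s z) * ((A * K ^ 2 + 2 * K) *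
          (1 + ‖m z‖ * s z ^ (-(65 / 64) : ℝ)) * (‖m z‖ / eps (s z) ^ 2)) := by
          apply mul_le_mul_of_nonneg_left _ hpz
          apply mul_le_mul_of_nonneg_right h2
          positivity
      _ = _ := by ring

end Pool.Agent.Wtw
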