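import Mathlib
import Pool.Agent.Wtw.GiSm
import Pool.Agent.Wtw.Loc
import Pool.Agent.Wtw.PhiB

/-!
# GiB: bounds for the derivatives of the inverse `Gi`

`z = Gi y`, `ρ_k = pz p (z k) (s z) >= 1`, `e_x = Pi.single x 1`.
* `|D Gi e_x| <= 2/ρ_x` : `GG_d_low` with `r = 1/ρ_x` (`Gi_d`).
* case B(x): `z x` is far (`good_dlt`), so `ρ_x = 1`; `ξ = D Gi e_x`; for `k /= x`: `0 = ρ_k ξ_k + ps Ds ξ`, `|ξ_k| <= |Ds ξ|
  <= B δ^(1/4) 2` (`GG_d`, `ds`).
* `|D^2 Gi v w| <= C s^(-65/64) ν(D Gi v) ν(D Gi w)`: `Gi_dd`, `GG_d_low`, `GG_dd_bd`.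
-/

namespace Pool.Agent.Wtw

open MeasureTheory Set Filter Topology
open scoped ENNReal

variable {p : ℝ → ℝ → ℝ} {A B : ℝ} {s : Z8 → ℝ} {m : Z8 → V2}

theorem Gi_e (hp : PData p A) (hs : SData s m B) (y : Z8) (hy : s (Gi p s y) ≠ 0) (x : Idx) :
    ‖fderiv ℝ (Gi p s) y (Pi.single x 1)‖ ≤ 2 / pz p (Gi p s y x) (s (Gi p s y)) := by
  have hs0 := s_pos hs _ hy
  have hpos : ∀ k, 0 < pz p (Gi p s y k) (s (Gi p s y)) := fun k =>
    lt_of_lt_of_le one_pos (hp.ge_one _ _ hs0)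
  have h := GG_d_low hp hs (Gi p s y) hy (fderiv ℝ (Gi p s) y (Pi.single x 1))
    (1 / pz p (Gi p s y x) (s (Gi p s y))) (by
      intro k
      rw [Gi_d hp hs y hy]
      have hx := hpos x
      by_cases hk : k = x
      · rw [hk, Pi.single_eq_same, abs_one, one_div, inv_mul_cancel₀ hx.ne']
      · rw [Pi.single_eq_of_ne hk, abs_zero]
        have := hpos k
        positivity)
  calc _ ≤ 2 * (1 / pz p (Gi p s y x) (s (Gi p s y))) := h
    _ = 2 / pz p (Gi p s y x) (s (Gi p s y)) := by ring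

theorem Gi_eB (hp : PData p A) (hs : SData s m B) : ∃ C : ℝ, 1 ≤ C ∧ ∀ (y : Z8) (x : Idx),
    s (Gi p s y) ≠ 0 → dlt (Gi p s y) ≤ 1 → GoodBut s (Gi p s y) x →
    nuB x (dlt (Gi p s y) ^ (1 / 4 : ℝ)) (fderiv ℝ (Gi p s) y (Pi.single x 1)) ≤
      C * dlt (Gi p s y) ^ (1 / 4 : ℝ) := by
  have hB := hs.one_le
  refine ⟨2 * B, by linarith, fun y x hy hd hg => ?_⟩
  have hs0 := s_pos hs _ hy
  have he := Gi_e hp hs y hy x
  have hGd := GG_d hp hs (Gi p s y) hy (fderiv ℝ (Gi p s) y (Pi.single x 1))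
  rw [Gi_d hp hs y hy] at hGd
  have hds := hs.ds (Gi p s y) hy hd (fderiv ℝ (Gi p s) y (Pi.single x 1))
  have hsm := hs.small (Gi p s y)
  have hdl := good_dlt hs (Gi p s y) x hy hg
  have hfar := (hp.far (Gi p s y x) (s (Gi p s y)) hs0 (by rw [← hdl]; linarith)).1
  rw [hfar, div_one] at he
  set z := Gi p s y with hz
  set ξ := fderiv ℝ (Gi p s) y (Pi.single x 1) with hξ
  set r := dlt z ^ (1 / 4 : ℝ) with hr
  have hd0 : 0 ≤ dlt z := by linarith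
  have hr0 : 0 ≤ r := Real.rpow_nonneg hd0 _
  apply max_le
  · have h1 : |ξ x| ≤ ‖ξ‖ := norm_le_pi_norm ξ x
    have h2 : |ξ x| ≤ 2 := h1.trans he
    calc r * |ξ x| ≤ r * 2 := mul_le_mul_of_nonneg_left h2 hr0
      _ ≤ 2 * B * r := by nlinarith
  · rw [pi_norm_le_iff_of_nonneg (by positivity)]
    intro k
    by_cases hk : k = x
    · rw [hk, Function.update_self, norm_zero]
      positivity
    · rw [Function.update_of_ne hk]
      have h1 := hGd k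
      rw [Pi.single_eq_of_ne hk] at h1
      have h2 := hp.ge_one (z k) (s z) hs0
      have h3 := hp.ps_le (z k) (s z) hs0
      have h4 : pz p (z k) (s z) * |ξ k| ≤ pz p (z k) (s z) * |fderiv ℝ s z ξ| := by
        have h5 : pz p (z k) (s z) * ξ k = -(ps p (z k) (s z) * fderiv ℝ s z ξ) := by linarith
        calc pz p (z k) (s z) * |ξ k| = |pz p (z k) (s z) * ξ k| := by
              rw [abs_mul, abs_of_pos (by linarith : 0 < pz p (z k) (s z))]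
          _ = |ps p (z k) (s z)| * |fderiv ℝ s z ξ| := by rw [h5, abs_neg, abs_mul]
          _ ≤ pz p (z k) (s z) * |fderiv ℝ s z ξ| :=
              mul_le_mul_of_nonneg_right h3 (abs_nonneg _)
      have h5 : |ξ k| ≤ |fderiv ℝ s z ξ| := le_of_mul_le_mul_left h4 (by linarith)
      rw [Real.norm_eq_abs]
      calc |ξ k| ≤ B * r * ‖ξ‖ := h5.trans hds
        _ ≤ B * r * 2 := mul_le_mul_of_nonneg_left he (by positivity)
        _ = 2 * B * r := by ring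

theorem Gi_dd_bd (hp : PData p A) (hs : SData s m B) (C : ℝ) : ∃ C' : ℝ, 1 ≤ C' ∧
    ∀ (y : Z8) (ν : Z8 → ℝ), Loc s m (Gi p s y) ν C → ∀ v w : Z8,
    ‖fderiv ℝ (fderiv ℝ (Gi p s)) y v w‖ ≤ C' * s (Gi p s y) ^ (-(65 / 64) : ℝ) *
      ν (fderiv ℝ (Gi p s) y v) * ν (fderiv ℝ (Gi p s) y w) := by
  obtain ⟨C1, hC1, h1⟩ := GG_dd_bd hp hs C
  refine ⟨2 * C1, by linarith, fun y ν hL v w => ?_⟩
  have hy := hL.s_ne
  rw [Gi_dd hp hs y hy, norm_neg]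
  have h2 := h1 (Gi p s y) ν hL (fderiv ℝ (Gi p s) y v) (fderiv ℝ (Gi p s) y w)
  have h3 := GG_d_low hp hs (Gi p s y) hy (fderiv ℝ (Gi p s) y
    (fderiv ℝ (fderiv ℝ (GG p s)) (Gi p s y) (fderiv ℝ (Gi p s) y v) (fderiv ℝ (Gi p s) y w)))
    (C1 * s (Gi p s y) ^ (-(65 / 64) : ℝ) *
      ν (fderiv ℝ (Gi p s) y v) * ν (fderiv ℝ (Gi p s) y w)) (by
      intro k
      rw [Gi_d hp hs y hy]
      refine (h2 k).trans (le_of_eq ?_)
      ring)
  refine h3.trans (le_of_eq ?_)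
  ring

end Pool.Agent.Wtw
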