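import Mathlib
import Pool.Agent.Wtw.GiB

/-!
# FNu: second derivatives of `ff` in terms of a weight `ν`

`ff (u,y) = (u, PhF (u, Gi y))`; `fderiv2_comp` with `h (u,y) = (u, Gi y)`:
`D^2 ff (v,a) (w,b) = (0, D^2PhF (v, Dg a) (w, Dg b) + DPhF (0, D^2g a b))`; `PhF_bd`, `Gi_dd_bd`;
`pz <= A s^(-7/8)` (`PData.le`).
-/

namespace Pool.Agent.Wtw

open MeasureTheory Set Filter Topology
open scoped ENNReal

variable {p : ℝ → ℝ → ℝ} {A B : ℝ} {s : Z8 → ℝ} {m : Z8 → V2}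

/-- the inner map `(u, y) ↦ (u, Gi y)` -/
private noncomputable def FNu_h (p : ℝ → ℝ → ℝ) (s : Z8 → ℝ) : E9 → ℝ × Z8 :=
  fun t => (t.1, Gi p s t.2)

private theorem FNu_snd {F : Type*} [NormedAddCommGroup F] [NormedSpace ℝ F] {g : Z8 → F}
    (u : ℝ) (y : Z8) (hg : ContDiffAt ℝ 2 g y) :
    ContDiffAt ℝ 2 (fun t : E9 => g t.2) (u, y) :=
  ContDiffAt.comp (u, y) (f := fun t : E9 => t.2) (g := g) hg contDiffAt_snd

private theorem FNu_h_smooth (hp : PData p A) (hs : SData s m B) (u : ℝ) (y : Z8)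
    (hy : s (Gi p s y) ≠ 0) : ContDiffAt ℝ 2 (FNu_h p s) (u, y) :=
  ContDiffAt.prodMk contDiffAt_fst (FNu_snd u y (Gi_smooth hp hs y hy))

private theorem FNu_h_d (hp : PData p A) (hs : SData s m B) (u : ℝ) (y : Z8)
    (hy : s (Gi p s y) ≠ 0) (v : ℝ) (a : Z8) :
    fderiv ℝ (FNu_h p s) (u, y) (v, a) = (v, fderiv ℝ (Gi p s) y a) := by
  have h1 : HasFDerivAt (Gi p s) (fderiv ℝ (Gi p s) y) y :=
    ((Gi_smooth hp hs y hy).differentiableAt (by norm_num)).hasFDerivAt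
  have h2 : HasFDerivAt (fun t : E9 => Gi p s t.2)
      ((fderiv ℝ (Gi p s) y).comp (ContinuousLinearMap.snd ℝ ℝ Z8)) (u, y) :=
    HasFDerivAt.comp (u, y) (f := fun t : E9 => t.2) (g := Gi p s) h1 hasFDerivAt_snd
  have h3 : HasFDerivAt (FNu_h p s) ((ContinuousLinearMap.fst ℝ ℝ Z8).prod
      ((fderiv ℝ (Gi p s) y).comp (ContinuousLinearMap.snd ℝ ℝ Z8))) (u, y) :=
    HasFDerivAt.prodMk hasFDerivAt_fst h2
  rw [h3.fderiv]
  rfl

private theorem FNu_h_dd (hp : PData p A) (hs : SData s m B) (u : ℝ) (y : Z8)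
    (hy : s (Gi p s y) ≠ 0) (v w : E9) :
    fderiv ℝ (fderiv ℝ (FNu_h p s)) (u, y) v w =
      (0, fderiv ℝ (fderiv ℝ (Gi p s)) y v.2 w.2) := by
  have hg := Gi_smooth hp hs y hy
  have e1 : fderiv ℝ (fderiv ℝ (FNu_h p s)) (u, y) v w =
      (fderiv ℝ (fderiv ℝ fun t : E9 => t.1) (u, y) v w,
        fderiv ℝ (fderiv ℝ fun t : E9 => Gi p s t.2) (u, y) v w) :=
    fderiv2_prod contDiffAt_fst (FNu_snd u y hg) v w
  have e2 : fderiv ℝ (fderiv ℝ fun t : E9 => t.1) (u, y) = 0 :=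
    fderiv2_lin (ContinuousLinearMap.fst ℝ ℝ Z8) (u, y)
  have e3 : fderiv ℝ (fderiv ℝ fun t : E9 => t.2) (u, y) = 0 :=
    fderiv2_lin (ContinuousLinearMap.snd ℝ ℝ Z8) (u, y)
  have e4 : fderiv ℝ (fun t : E9 => t.2) (u, y) = ContinuousLinearMap.snd ℝ ℝ Z8 := fderiv_snd
  have e5 : fderiv ℝ (fderiv ℝ fun t : E9 => Gi p s t.2) (u, y) v w =
      fderiv ℝ (fderiv ℝ (Gi p s)) y v.2 w.2 := by
    have := fderiv2_comp (f := Gi p s) (h := fun t : E9 => t.2) (x := ((u, y) : E9)) hg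
      contDiffAt_snd v w
    rw [this, e3, e4]
    simp
  rw [e1, e2, e5]
  rfl

private theorem FNu_ff (hp : PData p A) (hs : SData s m B) (u : ℝ) (y : Z8)
    (hy : s (Gi p s y) ≠ 0) (v w : E9) :
    fderiv ℝ (fderiv ℝ (ff p s m)) (u, y) v w =
      (0, fderiv ℝ (fderiv ℝ (PhF p s m)) (u, Gi p s y) (v.1, fderiv ℝ (Gi p s) y v.2)
          (w.1, fderiv ℝ (Gi p s) y w.2) +
        fderiv ℝ (PhF p s m) (u, Gi p s y) (0, fderiv ℝ (fderiv ℝ (Gi p s)) y v.2 w.2)) := by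
  have hh := FNu_h_smooth hp hs u y hy
  have hP : ContDiffAt ℝ 2 (PhF p s m) (FNu_h p s (u, y)) := PhF_smooth hp hs u _ hy
  have hc : ContDiffAt ℝ 2 (fun t : E9 => PhF p s m (FNu_h p s t)) (u, y) :=
    ContDiffAt.comp (u, y) (f := FNu_h p s) (g := PhF p s m) hP hh
  have e0 : ff p s m = fun t : E9 => (t.1, PhF p s m (FNu_h p s t)) := rfl
  have e1 : fderiv ℝ (fderiv ℝ (ff p s m)) (u, y) v w =
      (fderiv ℝ (fderiv ℝ fun t : E9 => t.1) (u, y) v w,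
        fderiv ℝ (fderiv ℝ fun t : E9 => PhF p s m (FNu_h p s t)) (u, y) v w) := by
    rw [e0]
    exact fderiv2_prod contDiffAt_fst hc v w
  have e2 : fderiv ℝ (fderiv ℝ fun t : E9 => t.1) (u, y) = 0 :=
    fderiv2_lin (ContinuousLinearMap.fst ℝ ℝ Z8) (u, y)
  have e3 := fderiv2_comp (f := PhF p s m) (h := FNu_h p s) (x := ((u, y) : E9)) hP hh v w
  have e4 := FNu_h_d hp hs u y hy v.1 v.2
  have e5 := FNu_h_d hp hs u y hy w.1 w.2
  rw [e1, e2, e3, FNu_h_dd hp hs u y hy v w]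
  rw [Prod.mk.eta] at e4 e5
  rw [e4, e5]
  rfl

theorem ff_nu (hp : PData p A) (hs : SData s m B) (C : ℝ) : ∃ C' : ℝ, 1 ≤ C' ∧
    ∀ (y : Z8) (ν : Z8 → ℝ), Loc s m (Gi p s y) ν C → ∀ u : ℝ,
    (∀ a b : Z8, ‖fderiv ℝ (fderiv ℝ (ff p s m)) (u, y) (0, a) (0, b)‖ ≤
      C' * s (Gi p s y) ^ (-(121 / 64) : ℝ) *
        ν (fderiv ℝ (Gi p s) y a) * ν (fderiv ℝ (Gi p s) y b)) ∧
    (∀ b : Z8, ‖fderiv ℝ (fderiv ℝ (ff p s m)) (u, y) (1, 0) (0, b)‖ ≤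
      C' * s (Gi p s y) ^ (-(7 / 8) : ℝ) *
        (1 + ‖m (Gi p s y)‖ * s (Gi p s y) ^ (-(65 / 64) : ℝ)) / eps (s (Gi p s y)) *
        ν (fderiv ℝ (Gi p s) y b)) ∧
    ‖fderiv ℝ (fderiv ℝ (ff p s m)) (u, y) (1, 0) (1, 0)‖ ≤
      C' * s (Gi p s y) ^ (-(7 / 8) : ℝ) * (‖m (Gi p s y)‖ / eps (s (Gi p s y)) ^ 2) *
        (1 + ‖m (Gi p s y)‖ * s (Gi p s y) ^ (-(65 / 64) : ℝ)) := by
  obtain ⟨C1, hC1, h1⟩ := PhF_bd hp hs C
  obtain ⟨C2, hC2, h2⟩ := Gi_dd_bd hp hs C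
  have hA := hp.one_le
  have hA0 : 0 < A := lt_of_lt_of_le one_pos hA
  have hC10 : 0 < C1 := lt_of_lt_of_le one_pos hC1
  have hC20 : 0 < C2 := lt_of_lt_of_le one_pos hC2
  have hCA : 1 ≤ C1 * A := one_le_mul_of_one_le_of_one_le hC1 hA
  have hCA0 : 0 < C1 * A := by positivity
  refine ⟨C1 * A * (1 + C2), ?_, ?_⟩
  · exact one_le_mul_of_one_le_of_one_le hCA (by linarith)
  intro y ν hL u
  have hsz : s (Gi p s y) ≠ 0 := hL.s_ne
  have hsp : 0 < s (Gi p s y) := lt_of_le_of_ne (hs.nonneg _) (Ne.symm hsz)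
  have hs1 : s (Gi p s y) ≤ 1 := (hs.le_half _).trans (by norm_num)
  have he : 0 < eps (s (Gi p s y)) := Real.rpow_pos_of_pos hsp _
  have hff := FNu_ff (m := m) hp hs u y hsz
  have hν : ∀ ξ, 0 ≤ ν ξ := hL.nonneg
  have hr7 : 0 < s (Gi p s y) ^ (-(7 / 8) : ℝ) := Real.rpow_pos_of_pos hsp _
  have hr65 : 0 < s (Gi p s y) ^ (-(65 / 64) : ℝ) := Real.rpow_pos_of_pos hsp _
  have hrr : s (Gi p s y) ^ (-(121 / 64) : ℝ) =
      s (Gi p s y) ^ (-(7 / 8) : ℝ) * s (Gi p s y) ^ (-(65 / 64) : ℝ) := by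
    rw [← Real.rpow_add hsp]; norm_num
  have hpz : ∀ k, pz p (RR s m u (Gi p s y) k) (s (Gi p s y)) ≤
      A * s (Gi p s y) ^ (-(7 / 8) : ℝ) := fun k => hp.le _ _ hsp hs1
  have hpz0 : ∀ k, 0 ≤ pz p (RR s m u (Gi p s y) k) (s (Gi p s y)) := fun k =>
    zero_le_one.trans (hp.ge_one _ _ hsp)
  have hg2 : ∀ a b : Z8, ‖fderiv ℝ (fderiv ℝ (Gi p s)) y a b‖ ≤
      C2 * s (Gi p s y) ^ (-(65 / 64) : ℝ) *
      ν (fderiv ℝ (Gi p s) y a) * ν (fderiv ℝ (Gi p s) y b) := h2 y ν hL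
  have hnorm : ∀ (X : Z8) (M : ℝ), 0 ≤ M → (∀ k, |X k| ≤ M) → ‖((0 : ℝ), X)‖ ≤ M := by
    intro X M hM hX
    rw [Prod.norm_mk, norm_zero]
    refine max_le hM ?_
    rw [pi_norm_le_iff_of_nonneg hM]
    exact hX
  have hzero : fderiv ℝ (Gi p s) y (0 : Z8) = 0 := map_zero _
  refine ⟨?_, ?_, ?_⟩
  · intro a b
    rw [hff]
    refine hnorm _ _ ?_ ?_
    · have := hν (fderiv ℝ (Gi p s) y a)
      have := hν (fderiv ℝ (Gi p s) y b)
      have : 0 < s (Gi p s y) ^ (-(121 / 64) : ℝ) := Real.rpow_pos_of_pos hsp _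
      positivity
    intro k
    obtain ⟨k1, k2, k3, k4⟩ := h1 (Gi p s y) ν hL u k
    have q1 := k2 (fderiv ℝ (Gi p s) y a) (fderiv ℝ (Gi p s) y b)
    have q2 := k1 (fderiv ℝ (fderiv ℝ (Gi p s)) y a b)
    set N := ν (fderiv ℝ (Gi p s) y a) * ν (fderiv ℝ (Gi p s) y b) with hN
    have hN0 : 0 ≤ N := mul_nonneg (hν _) (hν _)
    set P := pz p (RR s m u (Gi p s y) k) (s (Gi p s y)) with hP
    set S7 := s (Gi p s y) ^ (-(7 / 8) : ℝ) with hS7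
    set S65 := s (Gi p s y) ^ (-(65 / 64) : ℝ) with hS65
    have hPle : P ≤ A * S7 := hpz k
    have hP0 : 0 ≤ P := hpz0 k
    have q1' : |fderiv ℝ (fderiv ℝ (PhF p s m)) (u, Gi p s y) (0, fderiv ℝ (Gi p s) y a)
        (0, fderiv ℝ (Gi p s) y b) k| ≤ C1 * P * (S65 * N) := by
      refine q1.trans (le_of_eq ?_); rw [hN]; ring
    have q2' : |fderiv ℝ (PhF p s m) (u, Gi p s y)
        (0, fderiv ℝ (fderiv ℝ (Gi p s)) y a b) k| ≤ C1 * P * (C2 * (S65 * N)) := by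
      refine q2.trans ?_
      refine mul_le_mul_of_nonneg_left ?_ (by positivity)
      refine (hg2 a b).trans (le_of_eq ?_)
      rw [hN]; ring
    have q3 : C1 * P * (S65 * N) + C1 * P * (C2 * (S65 * N)) ≤
        C1 * (A * S7) * (S65 * N) + C1 * (A * S7) * (C2 * (S65 * N)) := by
      have : C1 * P ≤ C1 * (A * S7) := mul_le_mul_of_nonneg_left hPle hC10.le
      exact add_le_add (mul_le_mul_of_nonneg_right this (by positivity))
        (mul_le_mul_of_nonneg_right this (by positivity))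
    have q4 : C1 * (A * S7) * (S65 * N) + C1 * (A * S7) * (C2 * (S65 * N)) =
        C1 * A * (1 + C2) * s (Gi p s y) ^ (-(121 / 64) : ℝ) *
        ν (fderiv ℝ (Gi p s) y a) * ν (fderiv ℝ (Gi p s) y b) := by
      rw [hrr, hN]; ring
    rw [← q4]
    refine le_trans ?_ q3
    refine le_trans ?_ (add_le_add q1' q2')
    exact abs_add_le _ _
  · intro b
    rw [hff]
    have hz2 : fderiv ℝ (fderiv ℝ (Gi p s)) y (0 : Z8) b = 0 := by
      rw [map_zero]; rfl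
    refine hnorm _ _ ?_ ?_
    · have := hν (fderiv ℝ (Gi p s) y b)
      positivity
    intro k
    obtain ⟨k1, k2, k3, k4⟩ := h1 (Gi p s y) ν hL u k
    have q1 := k3 (fderiv ℝ (Gi p s) y b)
    simp only [hzero, hz2]
    have e0 : fderiv ℝ (PhF p s m) (u, Gi p s y) ((0 : ℝ), (0 : Z8)) = 0 := by
      have : (((0 : ℝ), (0 : Z8)) : ℝ × Z8) = 0 := rfl
      rw [this, map_zero]
    rw [e0, add_zero]
    refine q1.trans ?_
    have hPle := hpz k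
    have hP0 := hpz0 k
    set P := pz p (RR s m u (Gi p s y) k) (s (Gi p s y)) with hP
    set S7 := s (Gi p s y) ^ (-(7 / 8) : ℝ) with hS7
    set S65 := s (Gi p s y) ^ (-(65 / 64) : ℝ) with hS65
    set N := ν (fderiv ℝ (Gi p s) y b) with hN
    have hN0 : 0 ≤ N := hν _
    set R := (1 + ‖m (Gi p s y)‖ * S65) * N / eps (s (Gi p s y)) with hR
    have hR0 : 0 ≤ R := by positivity
    have e1 : C1 * P * (1 + ‖m (Gi p s y)‖ * S65) * N / eps (s (Gi p s y)) = C1 * P * R := by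
      rw [hR]; ring
    have e2 : C1 * A * (1 + C2) * S7 * (1 + ‖m (Gi p s y)‖ * S65) / eps (s (Gi p s y)) * N =
        C1 * (A * S7) * (1 + C2) * R := by
      rw [hR]; ring
    rw [e1, e2]
    refine mul_le_mul_of_nonneg_right ?_ hR0
    calc C1 * P ≤ C1 * (A * S7) := mul_le_mul_of_nonneg_left hPle hC10.le
      _ = C1 * (A * S7) * 1 := (mul_one _).symm
      _ ≤ C1 * (A * S7) * (1 + C2) := mul_le_mul_of_nonneg_left (by linarith) (by positivity)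
  · rw [hff]
    have hz2 : fderiv ℝ (fderiv ℝ (Gi p s)) y (0 : Z8) (0 : Z8) = 0 := map_zero _
    refine hnorm _ _ ?_ ?_
    · positivity
    intro k
    obtain ⟨k1, k2, k3, k4⟩ := h1 (Gi p s y) ν hL u k
    simp only [hzero, hz2]
    have e0 : fderiv ℝ (PhF p s m) (u, Gi p s y) ((0 : ℝ), (0 : Z8)) = 0 := by
      have : (((0 : ℝ), (0 : Z8)) : ℝ × Z8) = 0 := rfl
      rw [this, map_zero]
    rw [e0, add_zero]
    refine k4.trans ?_
    have hPle := hpz k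
    have hP0 := hpz0 k
    set P := pz p (RR s m u (Gi p s y) k) (s (Gi p s y)) with hP
    set S7 := s (Gi p s y) ^ (-(7 / 8) : ℝ) with hS7
    set S65 := s (Gi p s y) ^ (-(65 / 64) : ℝ) with hS65
    set R := ‖m (Gi p s y)‖ / eps (s (Gi p s y)) ^ 2 * (1 + ‖m (Gi p s y)‖ * S65) with hR
    have hR0 : 0 ≤ R := by positivity
    have e1 : C1 * P * (‖m (Gi p s y)‖ / eps (s (Gi p s y)) ^ 2) *
        (1 + ‖m (Gi p s y)‖ * S65) = C1 * P * R := by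
      rw [hR]; ring
    have e2 : C1 * A * (1 + C2) * S7 * (‖m (Gi p s y)‖ / eps (s (Gi p s y)) ^ 2) *
        (1 + ‖m (Gi p s y)‖ * S65) = C1 * (A * S7) * (1 + C2) * R := by
      rw [hR]; ring
    rw [e1, e2]
    refine mul_le_mul_of_nonneg_right ?_ hR0
    calc C1 * P ≤ C1 * (A * S7) := mul_le_mul_of_nonneg_left hPle hC10.le
      _ = C1 * (A * S7) * 1 := (mul_one _).symm
      _ ≤ C1 * (A * S7) * (1 + C2) := mul_le_mul_of_nonneg_left (by linarith) (by positivity)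

end Pool.Agent.Wtw
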