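import Mathlib
import Pool.Agent.Wtw.FNu

/-!
# FBnd: final pointwise bounds, in terms of `δ = dlt (Gi y)`

`z = Gi y`, `ρ_k = pz p (z k) (s z)`, `s ~ δ^(5/4)` (`up`, `low`): `s^(-q) <= C δ^(-5q/4)` for `q >= 0`,
`c δ <= eps s <= C δ`, `|m| <= C δ`, and `1 <= C δ s^(-65/64)`.  `ff_nu` with `loc_gen`, `Gi_e`:
* xx: `eps C s^(-121/64) (2/ρ_x)(2/ρ_x') <= C δ^(1 - 605/256)/(ρ_x ρ_x')`, `1 - 605/256 = -349/256`.
* ux: `eps C s^(-7/8) (1 + C δ s^(-65/64))/eps (2/ρ_x) <= C δ s^(-121/64)/ρ_x <= C δ^(-349/256)/ρ_x`.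
* uu: `eps C s^(-7/8) (C δ/eps^2) (1 + C δ s^(-65/64)) <= C δ s^(-121/64)`.
With `loc_B`, `Gi_eB` (`GoodBut`: `|m| <= B s`, so `1 + |m| s^(-65/64) <= C s^(-1/64)`):
* xxB: `eps C s^(-121/64) (C δ^(1/4))^2 <= C δ^(3/2 - 605/256)`, `= -221/256`.
* uxB: `C s^(-7/8 - 1/64) δ^(1/4) <= C δ^(1/4 - 285/256)`, `= -221/256`.
`GoodGrp`: `|m| <= B s`:
* uuG: `eps C s^(-7/8) (B s/eps^2) C s^(-1/64) = C s^(7/64)/eps <= C δ^(35/256 - 1)`, `= -221/256`.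
-/

namespace Pool.Agent.Wtw

open MeasureTheory Set Filter Topology
open scoped ENNReal

variable {p : ℝ → ℝ → ℝ} {A B : ℝ} {s : Z8 → ℝ} {m : Z8 → V2}

/-- coordinate directions of `E9` -/
noncomputable def dir : Option Idx → E9
  | none => (1, 0)
  | some x => (0, Pi.single x 1)

private theorem FBnd_pow {B σ d q Q : ℝ} (hB : 1 ≤ B) (hσ : 0 < σ) (hd : 0 < d)
    (hlow : d ^ (5 / 4 : ℝ) ≤ B * σ) (hq : 0 ≤ q) (hq2 : q ≤ 2) (hQ : -Q = 5 / 4 * -q) :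
    σ ^ (-q) ≤ B ^ 2 * d ^ (-Q) := by
  have hB0 : 0 < B := by linarith
  have hd5 : 0 < d ^ (5 / 4 : ℝ) := Real.rpow_pos_of_pos hd _
  have h1 : d ^ (5 / 4 : ℝ) / B ≤ σ := by
    rw [div_le_iff₀ hB0]; linarith
  have h2 : σ ^ (-q) ≤ (d ^ (5 / 4 : ℝ) / B) ^ (-q) :=
    Real.rpow_le_rpow_of_nonpos (by positivity) h1 (by linarith)
  have h3 : (d ^ (5 / 4 : ℝ) / B) ^ (-q) = d ^ (-Q) * B ^ q := by
    rw [Real.div_rpow hd5.le hB0.le, ← Real.rpow_mul hd.le, ← hQ, Real.rpow_neg hB0.le,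
      div_inv_eq_mul]
  have h4 : B ^ q ≤ B ^ 2 := by
    have := Real.rpow_le_rpow_of_exponent_le hB hq2
    calc B ^ q ≤ B ^ (2 : ℝ) := this
      _ = B ^ 2 := by norm_num
  have h5 : 0 < d ^ (-Q) := Real.rpow_pos_of_pos hd _
  calc σ ^ (-q) ≤ _ := h2
    _ = d ^ (-Q) * B ^ q := h3
    _ ≤ d ^ (-Q) * B ^ 2 := by gcongr
    _ = _ := by ring

private theorem FBnd_eps_up {B σ d : ℝ} (hB : 1 ≤ B) (hσ : 0 < σ) (hd : 0 < d)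
    (hup : σ ≤ B * d ^ (5 / 4 : ℝ)) : eps σ ≤ B * d := by
  have hB0 : 0 < B := by linarith
  have hd5 : 0 < d ^ (5 / 4 : ℝ) := Real.rpow_pos_of_pos hd _
  unfold eps
  have h1 : σ ^ (4 / 5 : ℝ) ≤ (B * d ^ (5 / 4 : ℝ)) ^ (4 / 5 : ℝ) :=
    Real.rpow_le_rpow hσ.le hup (by norm_num)
  have h2 : (B * d ^ (5 / 4 : ℝ)) ^ (4 / 5 : ℝ) = B ^ (4 / 5 : ℝ) * d := by
    rw [Real.mul_rpow hB0.le hd5.le, ← Real.rpow_mul hd.le]
    norm_num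
  have h3 : B ^ (4 / 5 : ℝ) ≤ B := by
    calc B ^ (4 / 5 : ℝ) ≤ B ^ (1 : ℝ) :=
          Real.rpow_le_rpow_of_exponent_le hB (by norm_num)
      _ = B := Real.rpow_one B
  calc _ ≤ _ := h1
    _ = _ := h2
    _ ≤ B * d := by gcongr

private theorem FBnd_eps_low {B σ d : ℝ} (hB : 1 ≤ B) (hσ : 0 < σ) (hd : 0 < d)
    (hlow : d ^ (5 / 4 : ℝ) ≤ B * σ) : d / B ≤ eps σ := by
  have hB0 : 0 < B := by linarith
  have hd5 : 0 < d ^ (5 / 4 : ℝ) := Real.rpow_pos_of_pos hd _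
  unfold eps
  have h1 : (d ^ (5 / 4 : ℝ)) ^ (4 / 5 : ℝ) ≤ (B * σ) ^ (4 / 5 : ℝ) :=
    Real.rpow_le_rpow hd5.le hlow (by norm_num)
  have h2 : (d ^ (5 / 4 : ℝ)) ^ (4 / 5 : ℝ) = d := by
    rw [← Real.rpow_mul hd.le]
    norm_num
  have h4 : (B * σ) ^ (4 / 5 : ℝ) = B ^ (4 / 5 : ℝ) * σ ^ (4 / 5 : ℝ) :=
    Real.mul_rpow hB0.le hσ.le
  have h3 : B ^ (4 / 5 : ℝ) ≤ B := by
    calc B ^ (4 / 5 : ℝ) ≤ B ^ (1 : ℝ) :=
          Real.rpow_le_rpow_of_exponent_le hB (by norm_num)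
      _ = B := Real.rpow_one B
  have h5 : 0 < σ ^ (4 / 5 : ℝ) := Real.rpow_pos_of_pos hσ _
  rw [div_le_iff₀ hB0]
  calc d ≤ B ^ (4 / 5 : ℝ) * σ ^ (4 / 5 : ℝ) := by rw [← h2, ← h4]; exact h1
    _ ≤ B * σ ^ (4 / 5 : ℝ) := by gcongr
    _ = _ := by ring

/-- `1 ≤ d^(-q)` -/
private theorem FBnd_one {d q : ℝ} (hd : 0 < d) (hd1 : d ≤ 1) (hq : 0 ≤ q) : 1 ≤ d ^ (-q) :=
  Real.one_le_rpow_of_pos_of_le_one_of_nonpos hd hd1 (by linarith)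

private theorem FBnd_m {B σ d M : ℝ} (hB : 1 ≤ B) (hσ : 0 < σ) (hd : 0 < d) (hd1 : d ≤ 1)
    (hlow : d ^ (5 / 4 : ℝ) ≤ B * σ) (hM : M ≤ B * d) :
    1 + M * σ ^ (-(65 / 64) : ℝ) ≤ (1 + B ^ 3) * d ^ (-(69 / 256) : ℝ) := by
  have hB0 : 0 < B := by linarith
  have h1 := FBnd_pow (q := 65 / 64) (Q := 325 / 256) hB hσ hd hlow (by norm_num) (by norm_num)
    (by norm_num)
  have h2 := FBnd_one (q := 69 / 256) hd hd1 (by norm_num)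
  have h3 : 0 < σ ^ (-(65 / 64) : ℝ) := Real.rpow_pos_of_pos hσ _
  have h4 : d * d ^ (-(325 / 256) : ℝ) = d ^ (-(69 / 256) : ℝ) := by
    rw [show (-(69 / 256) : ℝ) = 1 + -(325 / 256) by norm_num, Real.rpow_add hd, Real.rpow_one]
  calc 1 + M * σ ^ (-(65 / 64) : ℝ) ≤
      d ^ (-(69 / 256) : ℝ) + B * d * (B ^ 2 * d ^ (-(325 / 256) : ℝ)) := by gcongr
    _ = d ^ (-(69 / 256) : ℝ) + B ^ 3 * (d * d ^ (-(325 / 256) : ℝ)) := by ring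
    _ = _ := by rw [h4]; ring

private theorem FBnd_mB {B σ d M : ℝ} (hB : 1 ≤ B) (hσ : 0 < σ) (hd : 0 < d) (hd1 : d ≤ 1)
    (hlow : d ^ (5 / 4 : ℝ) ≤ B * σ) (hM : M ≤ B * σ) :
    1 + M * σ ^ (-(65 / 64) : ℝ) ≤ (1 + B ^ 3) * d ^ (-(5 / 256) : ℝ) := by
  have hB0 : 0 < B := by linarith
  have h1 := FBnd_pow (q := 1 / 64) (Q := 5 / 256) hB hσ hd hlow (by norm_num) (by norm_num)
    (by norm_num)
  have h2 := FBnd_one (q := 5 / 256) hd hd1 (by norm_num)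
  have h3 : 0 < σ ^ (-(65 / 64) : ℝ) := Real.rpow_pos_of_pos hσ _
  have h4 : σ * σ ^ (-(65 / 64) : ℝ) = σ ^ (-(1 / 64) : ℝ) := by
    rw [show (-(1 / 64) : ℝ) = 1 + -(65 / 64) by norm_num, Real.rpow_add hσ, Real.rpow_one]
  calc 1 + M * σ ^ (-(65 / 64) : ℝ) ≤
      d ^ (-(5 / 256) : ℝ) + B * σ * σ ^ (-(65 / 64) : ℝ) := by gcongr
    _ = d ^ (-(5 / 256) : ℝ) + B * (σ * σ ^ (-(65 / 64) : ℝ)) := by ring
    _ = d ^ (-(5 / 256) : ℝ) + B * σ ^ (-(1 / 64) : ℝ) := by rw [h4]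
    _ ≤ d ^ (-(5 / 256) : ℝ) + B * (B ^ 2 * d ^ (-(5 / 256) : ℝ)) := by gcongr
    _ = _ := by ring

theorem fb_all (hp : PData p A) (hs : SData s m B) : ∃ C δ0 : ℝ, 1 ≤ C ∧ 0 < δ0 ∧ δ0 ≤ 1 ∧
    ∀ y : Z8, s (Gi p s y) ≠ 0 → dlt (Gi p s y) ≤ δ0 → ∀ u : ℝ,
    (∀ x x', eps (s (Gi p s y)) *
        ‖fderiv ℝ (fderiv ℝ (ff p s m)) (u, y) (dir (some x)) (dir (some x'))‖ ≤
      C * dlt (Gi p s y) ^ (-(349 / 256) : ℝ) /
        (pz p (Gi p s y x) (s (Gi p s y)) * pz p (Gi p s y x') (s (Gi p s y)))) ∧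
    (∀ x, GoodBut s (Gi p s y) x → eps (s (Gi p s y)) *
        ‖fderiv ℝ (fderiv ℝ (ff p s m)) (u, y) (dir (some x)) (dir (some x))‖ ≤
      C * dlt (Gi p s y) ^ (-(221 / 256) : ℝ)) ∧
    (∀ x, eps (s (Gi p s y)) *
        ‖fderiv ℝ (fderiv ℝ (ff p s m)) (u, y) (dir none) (dir (some x))‖ ≤
      C * dlt (Gi p s y) ^ (-(349 / 256) : ℝ) / pz p (Gi p s y x) (s (Gi p s y))) ∧
    (∀ x, GoodBut s (Gi p s y) x → eps (s (Gi p s y)) *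
        ‖fderiv ℝ (fderiv ℝ (ff p s m)) (u, y) (dir none) (dir (some x))‖ ≤
      C * dlt (Gi p s y) ^ (-(221 / 256) : ℝ)) ∧
    (eps (s (Gi p s y)) *
        ‖fderiv ℝ (fderiv ℝ (ff p s m)) (u, y) (dir none) (dir none)‖ ≤
      C * dlt (Gi p s y) ^ (-(349 / 256) : ℝ)) ∧
    (GoodGrp s (Gi p s y) → eps (s (Gi p s y)) *
        ‖fderiv ℝ (fderiv ℝ (ff p s m)) (u, y) (dir none) (dir none)‖ ≤
      C * dlt (Gi p s y) ^ (-(221 / 256) : ℝ)) := by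
  obtain ⟨C1, hl1⟩ := loc_gen hs
  obtain ⟨K1, hK1, hf1⟩ := ff_nu hp hs C1
  obtain ⟨C2, δ0, hδ0, hδ1, hl2⟩ := loc_B hs
  obtain ⟨K2, hK2, hf2⟩ := ff_nu hp hs C2
  obtain ⟨C3, hC3, hg⟩ := Gi_eB hp hs
  have hB := hs.one_le
  have hB0 : 0 < B := by linarith
  have hC30 : 0 < C3 := by linarith
  have hK10 : 0 < K1 := by linarith
  have hK20 : 0 < K2 := by linarith
  set K := K1 + K2 with hK
  have hK0 : 1 ≤ K := by linarith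
  have hK00 : 0 < K := by linarith
  have hK1K : K1 ≤ K := by linarith
  have hK2K : K2 ≤ K := by linarith
  set C : ℝ := 8 * K * C3 ^ 2 * B ^ 5 * (1 + B ^ 3) with hC
  have hB5 : 1 ≤ B ^ 5 := one_le_pow₀ hB
  have hB35 : B ^ 3 ≤ B ^ 5 := pow_le_pow_right₀ hB (by norm_num)
  have hB45 : B ^ 4 ≤ B ^ 5 := pow_le_pow_right₀ hB (by norm_num)
  have hB25 : B ^ 2 ≤ B ^ 5 := pow_le_pow_right₀ hB (by norm_num)
  have hC32 : 1 ≤ C3 ^ 2 := one_le_pow₀ hC3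
  have hC33 : C3 ≤ C3 ^ 2 := by nlinarith
  have hB3 : 0 < B ^ 3 := by positivity
  have hCge : 8 * K * B ^ 5 * (1 + B ^ 3) ≤ C := by
    rw [hC]
    calc 8 * K * B ^ 5 * (1 + B ^ 3) = 8 * K * 1 * B ^ 5 * (1 + B ^ 3) := by ring
      _ ≤ _ := by gcongr
  have hC1 : 1 ≤ C := by
    refine le_trans ?_ hCge
    calc (1 : ℝ) ≤ 8 * 1 * 1 * (1 + 0) := by norm_num
      _ ≤ _ := by gcongr
  refine ⟨C, δ0, hC1, hδ0, hδ1, ?_⟩
  intro y hy hdy u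
  have hσ := s_pos hs _ hy
  have hge : ∀ x, 1 ≤ pz p (Gi p s y x) (s (Gi p s y)) := fun x => hp.ge_one _ _ hσ
  have hd0 : 0 < dlt (Gi p s y) := by
    have := hs.small (Gi p s y); linarith
  have hd1 : dlt (Gi p s y) ≤ 1 := hdy.trans hδ1
  have hup := hs.up (Gi p s y)
  have hlow := hs.low (Gi p s y) hd1
  have hm := hs.m_le (Gi p s y)
  have hmG := hs.m_good (Gi p s y)
  have hGe := Gi_e hp hs y hy
  have hL1 := hl1 (Gi p s y) hy hd1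
  obtain ⟨a1, a2, a3⟩ := hf1 y _ hL1 u
  have hB' : ∀ x, GoodBut s (Gi p s y) x → Loc s m (Gi p s y)
      (nuB x (dlt (Gi p s y) ^ (1 / 4 : ℝ))) C2 := fun x hx => hl2 _ x hy hdy hx
  have hgB : ∀ x, GoodBut s (Gi p s y) x → nuB x (dlt (Gi p s y) ^ (1 / 4 : ℝ))
      (fderiv ℝ (Gi p s) y (Pi.single x 1)) ≤ C3 * dlt (Gi p s y) ^ (1 / 4 : ℝ) :=
    fun x hx => hg y x hy hd1 hx
  set z := Gi p s y with hz
  set σ := s z with hσd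
  set d := dlt z with hd
  have hE : 0 < eps σ := by unfold eps; exact Real.rpow_pos_of_pos hσ _
  have hEu : eps σ ≤ B * d := FBnd_eps_up hB hσ hd0 hup
  have hEl : d / B ≤ eps σ := FBnd_eps_low hB hσ hd0 hlow
  have hEinv : 1 / eps σ ≤ B / d := by
    rw [div_le_div_iff₀ hE hd0]
    rw [div_le_iff₀ hB0] at hEl
    linarith
  have hmn : 0 ≤ ‖m z‖ := norm_nonneg _
  have S1 := FBnd_pow (q := 121 / 64) (Q := 605 / 256) hB hσ hd0 hlow (by norm_num) (by norm_num)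
    (by norm_num)
  have S2 := FBnd_pow (q := 7 / 8) (Q := 35 / 32) hB hσ hd0 hlow (by norm_num) (by norm_num)
    (by norm_num)
  have M1 := FBnd_m hB hσ hd0 hd1 hlow hm
  have p1 : 0 < σ ^ (-(121 / 64) : ℝ) := Real.rpow_pos_of_pos hσ _
  have p2 : 0 < σ ^ (-(7 / 8) : ℝ) := Real.rpow_pos_of_pos hσ _
  have p3 : 0 < σ ^ (-(65 / 64) : ℝ) := Real.rpow_pos_of_pos hσ _
  have p4 : 0 < 1 + ‖m z‖ * σ ^ (-(65 / 64) : ℝ) := by positivity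
  have d349 : 0 < d ^ (-(349 / 256) : ℝ) := Real.rpow_pos_of_pos hd0 _
  have d221 : 0 < d ^ (-(221 / 256) : ℝ) := Real.rpow_pos_of_pos hd0 _
  have dq : 0 < d ^ (1 / 4 : ℝ) := Real.rpow_pos_of_pos hd0 _
  have r1 : d * d ^ (-(605 / 256) : ℝ) = d ^ (-(349 / 256) : ℝ) := by
    rw [show (-(349 / 256) : ℝ) = 1 + -(605 / 256) by norm_num, Real.rpow_add hd0, Real.rpow_one]
  have r2 : d ^ (-(35 / 32) : ℝ) * d ^ (-(69 / 256) : ℝ) = d ^ (-(349 / 256) : ℝ) := by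
    rw [← Real.rpow_add hd0]; norm_num
  have r3 : d ^ (-(349 / 256) : ℝ) * (d ^ (1 / 4 : ℝ)) ^ 2 = d ^ (-(221 / 256) : ℝ) := by
    rw [← Real.rpow_natCast (d ^ (1 / 4 : ℝ)) 2, ← Real.rpow_mul hd0.le, ← Real.rpow_add hd0]
    norm_num
  have r4 : d ^ (-(35 / 32) : ℝ) * d ^ (-(5 / 256) : ℝ) * d ^ (1 / 4 : ℝ) =
      d ^ (-(221 / 256) : ℝ) := by
    rw [← Real.rpow_add hd0, ← Real.rpow_add hd0]; norm_num
  refine ⟨fun x x' => ?_, fun x hx => ?_, fun x => ?_, fun x hx => ?_, ?_, fun hG => ?_⟩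
  · -- xx
    have h1 := a1 (Pi.single x 1) (Pi.single x' 1)
    have h2 := hGe x
    have h3 := hGe x'
    have h4 := hge x
    have h5 := hge x'
    show eps σ * ‖fderiv ℝ (fderiv ℝ (ff p s m)) (u, y) (0, Pi.single x 1)
      (0, Pi.single x' 1)‖ ≤ _
    set ρ := pz p (z x) σ
    set ρ' := pz p (z x') σ
    have hρ : 0 < ρ := by linarith
    have hρ' : 0 < ρ' := by linarith
    have hn1 : 0 ≤ ‖fderiv ℝ (Gi p s) y (Pi.single x 1)‖ := norm_nonneg _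
    have hn2 : 0 ≤ ‖fderiv ℝ (Gi p s) y (Pi.single x' 1)‖ := norm_nonneg _
    calc _ ≤ eps σ * (K1 * σ ^ (-(121 / 64) : ℝ) * ‖fderiv ℝ (Gi p s) y (Pi.single x 1)‖ *
          ‖fderiv ℝ (Gi p s) y (Pi.single x' 1)‖) := by gcongr
      _ ≤ (B * d) * (K * (B ^ 2 * d ^ (-(605 / 256) : ℝ)) * (2 / ρ) * (2 / ρ')) := by gcongr
      _ = 4 * K * B ^ 3 * (d * d ^ (-(605 / 256) : ℝ)) / (ρ * ρ') := by
        field_simp
        ring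
      _ = 4 * K * B ^ 3 * d ^ (-(349 / 256) : ℝ) / (ρ * ρ') := by rw [r1]
      _ ≤ C * d ^ (-(349 / 256) : ℝ) / (ρ * ρ') := by
        gcongr
        refine le_trans ?_ hCge
        calc 4 * K * B ^ 3 ≤ 4 * K * B ^ 5 := by gcongr
          _ ≤ 8 * K * B ^ 5 * (1 + B ^ 3) := by
            have : 0 < K * B ^ 5 := by positivity
            nlinarith [mul_pos this hB3]
  · -- xxB
    obtain ⟨b1, b2, b3⟩ := hf2 y _ (hB' x hx) u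
    have h1 := b1 (Pi.single x 1) (Pi.single x 1)
    have h2 := hgB x hx
    have h0 := (hB' x hx).nonneg (fderiv ℝ (Gi p s) y (Pi.single x 1))
    show eps σ * ‖fderiv ℝ (fderiv ℝ (ff p s m)) (u, y) (0, Pi.single x 1)
      (0, Pi.single x 1)‖ ≤ _
    set N := nuB x (d ^ (1 / 4 : ℝ)) (fderiv ℝ (Gi p s) y (Pi.single x 1))
    calc _ ≤ eps σ * (K2 * σ ^ (-(121 / 64) : ℝ) * N * N) := by gcongr
      _ ≤ (B * d) * (K * (B ^ 2 * d ^ (-(605 / 256) : ℝ)) * (C3 * d ^ (1 / 4 : ℝ)) *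
          (C3 * d ^ (1 / 4 : ℝ))) := by gcongr
      _ = K * C3 ^ 2 * B ^ 3 * ((d * d ^ (-(605 / 256) : ℝ)) * (d ^ (1 / 4 : ℝ)) ^ 2) := by ring
      _ = K * C3 ^ 2 * B ^ 3 * d ^ (-(221 / 256) : ℝ) := by rw [r1, r3]
      _ ≤ C * d ^ (-(221 / 256) : ℝ) := by
        gcongr
        rw [hC]
        calc K * C3 ^ 2 * B ^ 3 ≤ K * C3 ^ 2 * B ^ 5 := by gcongr
          _ ≤ 8 * K * C3 ^ 2 * B ^ 5 * (1 + B ^ 3) := by
            have : 0 < K * C3 ^ 2 * B ^ 5 := by positivity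
            nlinarith [mul_pos this hB3]
  · -- ux
    have h1 := a2 (Pi.single x 1)
    have h2 := hGe x
    have h4 := hge x
    show eps σ * ‖fderiv ℝ (fderiv ℝ (ff p s m)) (u, y) (1, 0)
      (0, Pi.single x 1)‖ ≤ _
    set ρ := pz p (z x) σ
    have hρ : 0 < ρ := by linarith
    have hn1 : 0 ≤ ‖fderiv ℝ (Gi p s) y (Pi.single x 1)‖ := norm_nonneg _
    calc _ ≤ eps σ * (K1 * σ ^ (-(7 / 8) : ℝ) * (1 + ‖m z‖ * σ ^ (-(65 / 64) : ℝ)) / eps σ *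
          ‖fderiv ℝ (Gi p s) y (Pi.single x 1)‖) := by gcongr
      _ = K1 * σ ^ (-(7 / 8) : ℝ) * (1 + ‖m z‖ * σ ^ (-(65 / 64) : ℝ)) *
          ‖fderiv ℝ (Gi p s) y (Pi.single x 1)‖ := by field_simp
      _ ≤ K * (B ^ 2 * d ^ (-(35 / 32) : ℝ)) * ((1 + B ^ 3) * d ^ (-(69 / 256) : ℝ)) *
          (2 / ρ) := by gcongr
      _ = 2 * K * B ^ 2 * (1 + B ^ 3) * (d ^ (-(35 / 32) : ℝ) * d ^ (-(69 / 256) : ℝ)) / ρ := by
        ring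
      _ = 2 * K * B ^ 2 * (1 + B ^ 3) * d ^ (-(349 / 256) : ℝ) / ρ := by rw [r2]
      _ ≤ C * d ^ (-(349 / 256) : ℝ) / ρ := by
        gcongr
        refine le_trans ?_ hCge
        gcongr
        norm_num
  · -- uxB
    obtain ⟨b1, b2, b3⟩ := hf2 y _ (hB' x hx) u
    have h1 := b2 (Pi.single x 1)
    have h2 := hgB x hx
    have h0 := (hB' x hx).nonneg (fderiv ℝ (Gi p s) y (Pi.single x 1))
    have M2 := FBnd_mB hB hσ hd0 hd1 hlow (hmG (good_grp z x hx))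
    show eps σ * ‖fderiv ℝ (fderiv ℝ (ff p s m)) (u, y) (1, 0)
      (0, Pi.single x 1)‖ ≤ _
    set N := nuB x (d ^ (1 / 4 : ℝ)) (fderiv ℝ (Gi p s) y (Pi.single x 1))
    calc _ ≤ eps σ * (K2 * σ ^ (-(7 / 8) : ℝ) * (1 + ‖m z‖ * σ ^ (-(65 / 64) : ℝ)) / eps σ *
          N) := by gcongr
      _ = K2 * σ ^ (-(7 / 8) : ℝ) * (1 + ‖m z‖ * σ ^ (-(65 / 64) : ℝ)) * N := by field_simp
      _ ≤ K * (B ^ 2 * d ^ (-(35 / 32) : ℝ)) * ((1 + B ^ 3) * d ^ (-(5 / 256) : ℝ)) *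
          (C3 * d ^ (1 / 4 : ℝ)) := by gcongr
      _ = K * C3 * B ^ 2 * (1 + B ^ 3) *
          (d ^ (-(35 / 32) : ℝ) * d ^ (-(5 / 256) : ℝ) * d ^ (1 / 4 : ℝ)) := by
        ring
      _ = K * C3 * B ^ 2 * (1 + B ^ 3) * d ^ (-(221 / 256) : ℝ) := by rw [r4]
      _ ≤ C * d ^ (-(221 / 256) : ℝ) := by
        gcongr
        rw [hC]
        have : K * C3 ≤ 8 * K * C3 ^ 2 := by nlinarith
        gcongr
  · -- uu
    show eps σ * ‖fderiv ℝ (fderiv ℝ (ff p s m)) (u, y) (1, 0) (1, 0)‖ ≤ _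
    calc _ ≤ eps σ * (K1 * σ ^ (-(7 / 8) : ℝ) * (‖m z‖ / eps σ ^ 2) *
          (1 + ‖m z‖ * σ ^ (-(65 / 64) : ℝ))) := by gcongr
      _ = K1 * σ ^ (-(7 / 8) : ℝ) * (‖m z‖ * (1 / eps σ)) *
          (1 + ‖m z‖ * σ ^ (-(65 / 64) : ℝ)) := by field_simp
      _ ≤ K * (B ^ 2 * d ^ (-(35 / 32) : ℝ)) * ((B * d) * (B / d)) *
          ((1 + B ^ 3) * d ^ (-(69 / 256) : ℝ)) := by gcongr
      _ = K * B ^ 4 * (1 + B ^ 3) * (d ^ (-(35 / 32) : ℝ) * d ^ (-(69 / 256) : ℝ)) := by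
        field_simp
      _ = K * B ^ 4 * (1 + B ^ 3) * d ^ (-(349 / 256) : ℝ) := by rw [r2]
      _ ≤ C * d ^ (-(349 / 256) : ℝ) := by
        gcongr
        refine le_trans ?_ hCge
        have : K * B ^ 4 ≤ 8 * K * B ^ 5 := by
          have : K * B ^ 4 ≤ K * B ^ 5 := by gcongr
          have h0 : 0 < K * B ^ 5 := by positivity
          linarith
        gcongr
  · -- uuG
    have M2 := FBnd_mB hB hσ hd0 hd1 hlow (hmG hG)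
    have hmG' := hmG hG
    have h8 : σ ^ (-(7 / 8) : ℝ) * σ = σ ^ (1 / 8 : ℝ) := by
      rw [show (1 / 8 : ℝ) = -(7 / 8) + 1 by norm_num, Real.rpow_add hσ, Real.rpow_one]
    have h9 : σ ^ (1 / 8 : ℝ) ≤ B * d ^ (5 / 32 : ℝ) := by
      have hd5 : 0 < d ^ (5 / 4 : ℝ) := Real.rpow_pos_of_pos hd0 _
      calc σ ^ (1 / 8 : ℝ) ≤ (B * d ^ (5 / 4 : ℝ)) ^ (1 / 8 : ℝ) :=
            Real.rpow_le_rpow hσ.le hup (by norm_num)
        _ = B ^ (1 / 8 : ℝ) * d ^ (5 / 32 : ℝ) := by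
            rw [Real.mul_rpow hB0.le hd5.le, ← Real.rpow_mul hd0.le]
            norm_num
        _ ≤ B * d ^ (5 / 32 : ℝ) := by
            gcongr
            calc B ^ (1 / 8 : ℝ) ≤ B ^ (1 : ℝ) :=
                  Real.rpow_le_rpow_of_exponent_le hB (by norm_num)
              _ = B := Real.rpow_one B
    have r5 : d ^ (5 / 32 : ℝ) * (1 / d) * d ^ (-(5 / 256) : ℝ) = d ^ (-(221 / 256) : ℝ) := by
      rw [one_div, ← Real.rpow_neg_one, ← Real.rpow_add hd0, ← Real.rpow_add hd0]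
      norm_num
    have p8 : 0 < σ ^ (1 / 8 : ℝ) := Real.rpow_pos_of_pos hσ _
    show eps σ * ‖fderiv ℝ (fderiv ℝ (ff p s m)) (u, y) (1, 0) (1, 0)‖ ≤ _
    calc _ ≤ eps σ * (K1 * σ ^ (-(7 / 8) : ℝ) * (‖m z‖ / eps σ ^ 2) *
          (1 + ‖m z‖ * σ ^ (-(65 / 64) : ℝ))) := by gcongr
      _ = K1 * σ ^ (-(7 / 8) : ℝ) * (‖m z‖ * (1 / eps σ)) *
          (1 + ‖m z‖ * σ ^ (-(65 / 64) : ℝ)) := by field_simp
      _ ≤ K * σ ^ (-(7 / 8) : ℝ) * ((B * σ) * (B / d)) *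
          ((1 + B ^ 3) * d ^ (-(5 / 256) : ℝ)) := by gcongr
      _ = K * B ^ 2 * (1 + B ^ 3) * (σ ^ (-(7 / 8) : ℝ) * σ) * (1 / d) *
          d ^ (-(5 / 256) : ℝ) := by ring
      _ = K * B ^ 2 * (1 + B ^ 3) * σ ^ (1 / 8 : ℝ) * (1 / d) * d ^ (-(5 / 256) : ℝ) := by
        rw [h8]
      _ ≤ K * B ^ 2 * (1 + B ^ 3) * (B * d ^ (5 / 32 : ℝ)) * (1 / d) *
          d ^ (-(5 / 256) : ℝ) := by gcongr
      _ = K * B ^ 3 * (1 + B ^ 3) * (d ^ (5 / 32 : ℝ) * (1 / d) * d ^ (-(5 / 256) : ℝ)) := by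
        ring
      _ = K * B ^ 3 * (1 + B ^ 3) * d ^ (-(221 / 256) : ℝ) := by rw [r5]
      _ ≤ C * d ^ (-(221 / 256) : ℝ) := by
        gcongr
        refine le_trans ?_ hCge
        have : K * B ^ 3 ≤ 8 * K * B ^ 5 := by
          have : K * B ^ 3 ≤ K * B ^ 5 := by gcongr
          have h0 : 0 < K * B ^ 5 := by positivity
          linarith
        gcongr

end Pool.Agent.Wtw
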