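import Mathlib
import Pool.Agent.Wtw.GDer

/-!
# GDet: `|det D GG| <= 2 prod pz`, change of variables

`D GG z = diag(pz_k) (I + a ⊗ Ds)`, `a_k = ps_k/pz_k`, `|a| <= 1`; `det (I + a ⊗ λ) = 1 + λ(a)`
(`Matrix.det_one_add_replicateCol_mul_replicateRow` or similar; matrix of the linear map in the standard
basis, `LinearMap.det_toLin'`), `|Ds a| <= 1/32`.

`ch_var`: the set `{s z = 0}` (`= CC^8`, null since `CC` is null, `vol_CC`) maps onto `KK`, which is not null,
so the statement is for `S ⊆ {s /= 0}`: `lintegral_image_eq_lintegral_abs_det_fderiv_mul`.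
-/

namespace Pool.Agent.Wtw

open MeasureTheory Set Filter Topology
open scoped ENNReal

variable {p : ℝ → ℝ → ℝ} {A B : ℝ} {s : Z8 → ℝ} {m : Z8 → V2}

theorem GG_det (hp : PData p A) (hs : SData s m B) (z : Z8) (hz : s z ≠ 0) :
    |(fderiv ℝ (GG p s) z).det| ≤ 2 * ∏ k, pz p (z k) (s z) := by
  have hsp : 0 < s z := s_pos hs z hz
  have hpz : ∀ k, 1 ≤ pz p (z k) (s z) := fun k => hp.ge_one _ _ hsp
  have hpz0 : ∀ k, 0 < pz p (z k) (s z) := fun k => lt_of_lt_of_le one_pos (hpz k)
  set a : Z8 := fun k => ps p (z k) (s z) / pz p (z k) (s z) with ha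
  set lam : Idx → ℝ := fun j => fderiv ℝ s z (Pi.single j 1) with hlam
  have hanorm : ‖a‖ ≤ 1 := by
    rw [pi_norm_le_iff_of_nonneg zero_le_one]
    intro k
    rw [Real.norm_eq_abs, ha]
    simp only
    rw [abs_div, abs_of_pos (hpz0 k), div_le_one (hpz0 k)]
    exact hp.ps_le _ _ hsp
  have hsum : fderiv ℝ s z a = ∑ k, a k * lam k := by
    conv_lhs => rw [← Finset.univ_sum_single a]
    rw [map_sum]
    refine Finset.sum_congr rfl fun k _ => ?_
    have : (Pi.single k (a k) : Z8) = (a k) • (Pi.single k (1 : ℝ) : Z8) := by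
      rw [← Pi.single_smul', smul_eq_mul, mul_one]
    rw [this, map_smul, smul_eq_mul]
  have hmat : LinearMap.toMatrix' ((fderiv ℝ (GG p s) z : Z8 →L[ℝ] Z8) : Z8 →ₗ[ℝ] Z8) =
      Matrix.diagonal (fun k => pz p (z k) (s z)) *
        (1 + Matrix.replicateCol Unit a * Matrix.replicateRow Unit lam) := by
    ext k j
    rw [LinearMap.toMatrix'_apply, Matrix.diagonal_mul]
    simp only [ContinuousLinearMap.coe_coe, Matrix.add_apply, Matrix.mul_apply,
      Matrix.replicateCol_apply, Matrix.replicateRow_apply, Finset.univ_unique,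
      Finset.sum_singleton]
    rw [GG_d hp hs z hz]
    have h2 : (1 : Matrix Idx Idx ℝ) k j = (Pi.single j (1 : ℝ) : Z8) k := by
      rw [Matrix.one_apply, Pi.single_apply]
    rw [h2]
    have h3 : ps p (z k) (s z) = pz p (z k) (s z) * a k := by
      rw [ha]
      simp only
      field_simp [(hpz0 k).ne']
    rw [h3]
    simp only [hlam]
    ring
  have hdet : (fderiv ℝ (GG p s) z).det =
      (∏ k, pz p (z k) (s z)) * (1 + fderiv ℝ s z a) := by
    rw [ContinuousLinearMap.det, ← LinearMap.det_toMatrix', hmat, Matrix.det_mul,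
      Matrix.det_diagonal, Matrix.det_one_add_replicateCol_mul_replicateRow, hsum]
    congr 2
    rw [dotProduct]
    exact Finset.sum_congr rfl fun k _ => mul_comm _ _
  rw [hdet, abs_mul]
  have hprod : 0 ≤ ∏ k, pz p (z k) (s z) := Finset.prod_nonneg fun k _ => (hpz0 k).le
  rw [abs_of_nonneg hprod, mul_comm]
  refine mul_le_mul_of_nonneg_right ?_ hprod
  have h4 : |fderiv ℝ s z a| ≤ 1 / 32 := (ds_lip hs z hz a).trans (by linarith)
  rw [abs_le] at h4 ⊢
  constructor <;> linarith [h4.1, h4.2]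

theorem ch_var (hp : PData p A) (hs : SData s m B) (S : Set Z8) (hS : MeasurableSet S)
    (h : ∀ z ∈ S, s z ≠ 0) (F : Z8 → ℝ≥0∞) :
    ∫⁻ y in GG p s '' S, F (Gi p s y) ≤
      ∫⁻ z in S, F z * ENNReal.ofReal (2 * ∏ k, pz p (z k) (s z)) := by
  rw [lintegral_image_eq_lintegral_abs_det_fderiv_mul volume hS
    (f' := fun z => fderiv ℝ (GG p s) z) ?_ ((GG_bij hp hs).injective.injOn)]
  · refine setLIntegral_mono' hS fun z hz => ?_
    rw [Gi_GG hp hs, mul_comm]
    exact mul_le_mul_right (ENNReal.ofReal_le_ofReal (GG_det hp hs z (h z hz))) _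
  · intro z hz
    exact ((GG_smooth hp hs z (h z hz)).differentiableAt (by norm_num)).hasFDerivAt.hasFDerivWithinAt

end Pool.Agent.Wtw
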