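import Mathlib
import Pool.Agent.Wtw.Dig1

/-!
# Dig4: neighbourhoods of `CC` have small Lebesgue measure

For `0 < t <= 1` choose `k` with `256^-(k+1) < t <= 256^-k`. `CC` is covered by the `2^k` intervals
`[b, b + 256^-k/255]`, `b` the points with digits 0 after the first `k` (`beta_agree`), so
`{infDist z CC <= t}` is covered by `2^k` intervals of length `256^-k/255 + 2t <= 3.01 t`, and `2^k <= t^(-1/8)`.
-/

namespace Pool.Agent.Wtw

open MeasureTheory Set Filter Topology
open scoped ENNReal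

theorem Dig4_summable (x : Dg) : Summable fun k : ℕ => (if x k then (1 : ℝ) else 0) / 256 ^ (k + 1) := by
  have h1 : Summable fun k : ℕ => (1 / 256 : ℝ) ^ (k + 1) :=
    (summable_nat_add_iff 1).2 (summable_geometric_of_lt_one (by norm_num) (by norm_num))
  refine Summable.of_nonneg_of_le (fun k => ?_) (fun k => ?_) h1
  · positivity
  · rw [one_div, inv_pow, div_eq_mul_inv]
    refine mul_le_of_le_one_left (by positivity) ?_
    split_ifs <;> norm_num

theorem Dig4_mono {x y : Dg} (h : ∀ k, y k = true → x k = true) : beta y ≤ beta x := by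
  refine Summable.tsum_le_tsum (fun k => ?_) (Dig4_summable y) (Dig4_summable x)
  by_cases hy : y k = true
  · rw [if_pos hy, if_pos (h k hy)]
  · rw [if_neg hy, zero_div]
    positivity

/-- extension of finitely many digits by zeros -/
def Dig4_ext {k : ℕ} (c : Fin k → Bool) : Dg := fun j => if h : j < k then c ⟨j, h⟩ else false

theorem Dig4_cover (k : ℕ) (t : ℝ) :
    {z : ℝ | Metric.infDist z CC ≤ t} ⊆
      ⋃ c : Fin k → Bool, Icc (beta (Dig4_ext c) - t) (beta (Dig4_ext c) + 1 / 255 / 256 ^ k + t) := by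
  intro z hz
  obtain ⟨x, hx⟩ := CC_near z
  have hz : |z - beta x| ≤ t := by rw [hx]; exact hz
  refine mem_iUnion.2 ⟨fun i => x i, ?_⟩
  have h1 : beta (Dig4_ext fun i : Fin k => x i) ≤ beta x := by
    refine Dig4_mono fun j hj => ?_
    by_cases h : j < k
    · simpa [Dig4_ext, h] using hj
    · simp [Dig4_ext, h] at hj
  have h2 := beta_agree x (Dig4_ext fun i : Fin k => x i) k (fun j hj => by simp [Dig4_ext, hj])
  rw [abs_le] at hz h2
  constructor
  · linarith [hz.1]
  · linarith [hz.2, h2.2]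

theorem vol_near_CC (t : ℝ) (ht : 0 < t) (ht1 : t ≤ 1) :
    volume {z : ℝ | Metric.infDist z CC ≤ t} ≤ ENNReal.ofReal (4 * t ^ (7 / 8 : ℝ)) := by
  obtain ⟨k, hk1, hk2⟩ := exists_nat_pow_near_of_lt_one ht ht1 (y := (1 / 256 : ℝ)) (by norm_num)
    (by norm_num)
  have hpos : (0 : ℝ) < 256 ^ k := by positivity
  have e1 : ((1 / 256 : ℝ)) ^ k = 1 / 256 ^ k := by rw [one_div, inv_pow, one_div]
  have e2 : ((1 / 256 : ℝ)) ^ (k + 1) = 1 / 256 ^ k / 256 := by
    rw [pow_succ, e1]; ring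
  rw [e1] at hk2
  rw [e2] at hk1
  have hb : (1 : ℝ) / 255 / 256 ^ k ≤ 256 / 255 * t := by
    have : (1 : ℝ) / 256 ^ k ≤ 256 * t := by linarith
    have e : (1 : ℝ) / 255 / 256 ^ k = 1 / 255 * (1 / 256 ^ k) := by ring
    rw [e]; nlinarith
  have h2k : (2 : ℝ) ^ k ≤ t ^ (-(1 / 8) : ℝ) := by
    have h3 : ((1 : ℝ) / 256 ^ k) ^ (-(1 / 8) : ℝ) ≤ t ^ (-(1 / 8) : ℝ) :=
      Real.rpow_le_rpow_of_nonpos ht hk2 (by norm_num)
    refine le_trans (le_of_eq ?_) h3
    rw [one_div, Real.inv_rpow hpos.le, Real.rpow_neg hpos.le, inv_inv]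
    have h4 : (256 : ℝ) ^ k = (2 : ℝ) ^ ((8 * k : ℕ)) := by
      rw [pow_mul]; norm_num
    rw [h4, ← Real.rpow_natCast 2 k, ← Real.rpow_natCast 2 (8 * k),
      ← Real.rpow_mul (by norm_num : (0:ℝ) ≤ 2)]
    congr 1
    push_cast
    ring
  calc volume {z : ℝ | Metric.infDist z CC ≤ t}
      ≤ volume (⋃ c : Fin k → Bool,
          Icc (beta (Dig4_ext c) - t) (beta (Dig4_ext c) + 1 / 255 / 256 ^ k + t)) :=
        measure_mono (Dig4_cover k t)
    _ ≤ ∑ c : Fin k → Bool,
          volume (Icc (beta (Dig4_ext c) - t) (beta (Dig4_ext c) + 1 / 255 / 256 ^ k + t)) :=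
        measure_iUnion_fintype_le _ _
    _ = ∑ _c : Fin k → Bool, ENNReal.ofReal (1 / 255 / 256 ^ k + 2 * t) := by
        refine Finset.sum_congr rfl fun c _ => ?_
        rw [Real.volume_Icc]
        congr 1
        ring
    _ = ENNReal.ofReal (2 ^ k * (1 / 255 / 256 ^ k + 2 * t)) := by
        rw [Finset.sum_const, Finset.card_univ, Fintype.card_fun, Fintype.card_bool, Fintype.card_fin,
          nsmul_eq_mul, ENNReal.ofReal_mul (by positivity)]
        congr 1
        push_cast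
        rw [ENNReal.ofReal_pow (by norm_num)]
        norm_num
    _ ≤ ENNReal.ofReal (4 * t ^ (7 / 8 : ℝ)) := by
        refine ENNReal.ofReal_le_ofReal ?_
        have h5 : t ^ (7 / 8 : ℝ) = t ^ (-(1 / 8) : ℝ) * t := by
          rw [← Real.rpow_add_one ht.ne']
          norm_num
        rw [h5]
        calc (2 : ℝ) ^ k * (1 / 255 / 256 ^ k + 2 * t) ≤ t ^ (-(1 / 8) : ℝ) * (4 * t) := by
              refine mul_le_mul h2k (by linarith) (by positivity) (by positivity)
          _ = 4 * (t ^ (-(1 / 8) : ℝ) * t) := by ring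

theorem vol_CC : volume CC = 0 := by
  have h1 : ∀ᶠ t : ℝ in 𝓝[>] (0 : ℝ), volume CC ≤ ENNReal.ofReal (4 * t ^ (7 / 8 : ℝ)) := by
    filter_upwards [Ioc_mem_nhdsGT (show (0 : ℝ) < 1 by norm_num)] with t ht
    refine le_trans (measure_mono fun z hz => ?_) (vol_near_CC t ht.1 ht.2)
    show Metric.infDist z CC ≤ t
    rw [Metric.infDist_zero_of_mem hz]
    exact ht.1.le
  have h2 : Tendsto (fun t : ℝ => ENNReal.ofReal (4 * t ^ (7 / 8 : ℝ))) (𝓝[>] 0) (𝓝 0) := by
    have h3 : ContinuousAt (fun t : ℝ => ENNReal.ofReal (4 * t ^ (7 / 8 : ℝ))) 0 := by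
      refine ENNReal.continuous_ofReal.continuousAt.comp ?_
      exact continuousAt_const.mul (Real.continuousAt_rpow_const 0 _ (Or.inr (by norm_num)))
    have h4 := h3.tendsto
    rw [Real.zero_rpow (by norm_num), mul_zero, ENNReal.ofReal_zero] at h4
    exact h4.mono_left nhdsWithin_le_nhds
  exact le_antisymm (ge_of_tendsto h2 h1) zero_le

end Pool.Agent.Wtw
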