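import Mathlib
import Pool.Agent.Wtw.Abs
import Pool.Agent.Wtw.Geo
import Pool.Agent.Wtw.Dig4

/-!
# Shell: integrals over dyadic shells

`shell_int`: let `r = (1/2)^n`, shell `r/2 < dlt z <= r`. By `up`, `low`: `s1 <= s z <= Bd s1` with
`s1 = (r/2)^(5/4)/B` (`<= 1`) and a constant ratio `Bd`.  On the shell all `z k ∈ [-2, 2]`.  Factor by factor:
* `k ∈ T ∪ Bad`: the integrand has no factor `k` (`k ∈ T`) or the factor is `pz = 1` (`k ∈ Bad`, `k ∉ T`: field
  `far`), and `infDist (z k) <= r`: `∫ <= 4 r^(7/8)` (`vol_near_CC`);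
* the other `k`: factor `<= r_maj (z k)`, `∫_[-2,2] r_maj <= M` (field `maj`).
So the integrand is at most a product of functions of one coordinate: product formula for `lintegral` on
`Measure.pi` (`lintegral_fintype_prod_eq_prod` or by induction).
`shell_fin`: sum over `n`: `dlt z ^ (-q) <= (r/2)^(-q)`, exponent `(7/8) #(T ∪ Bad) - q > 0`: geometric series;
`{s z /= 0, dlt z <= 1}` is the union of the shells (`zero_iff`: `dlt z > 0`).
-/

namespace Pool.Agent.Wtw

open MeasureTheory Set Filter Topology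
open scoped ENNReal

variable {p : ℝ → ℝ → ℝ} {A B : ℝ} {s : Z8 → ℝ} {m : Z8 → V2}

theorem Shell_pi {ι : Type*} [Fintype ι] [DecidableEq ι] (g : ι → ℝ → ℝ≥0∞)
    (hg : ∀ i, Measurable (g i)) :
    ∫⁻ x : ι → ℝ, ∏ i, g i (x i) = ∏ i, ∫⁻ t, g i t := by
  have hm : Measurable fun x : ι → ℝ => ∏ i, g i (x i) :=
    Finset.measurable_prod _ fun i _ => (hg i).comp (measurable_pi_apply i)
  have key : ∀ (S : Finset ι) (x : ι → ℝ),
      lmarginal (fun _ : ι => (volume : Measure ℝ)) S (fun x : ι → ℝ => ∏ i, g i (x i)) x =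
        (∏ i ∈ S, ∫⁻ t, g i t) * ∏ i ∈ Sᶜ, g i (x i) := by
    intro S
    induction S using Finset.induction_on with
    | empty => intro x; simp
    | insert i S hi ih =>
      intro x
      rw [lmarginal_insert _ hm hi]
      have hS : Sᶜ = insert i (insert i S)ᶜ := by
        ext j
        simp only [Finset.mem_compl, Finset.mem_insert]
        by_cases h : j = i
        · subst h; simp [hi]
        · simp [h]
      have hi' : i ∉ (insert i S)ᶜ := by simp
      have h1 : ∀ t : ℝ, lmarginal (fun _ : ι => (volume : Measure ℝ)) S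
          (fun x : ι → ℝ => ∏ i, g i (x i)) (Function.update x i t) =
          ((∏ i ∈ S, ∫⁻ t, g i t) * ∏ j ∈ (insert i S)ᶜ, g j (x j)) * g i t := by
        intro t
        rw [ih, hS, Finset.prod_insert hi']
        have h2 : ∏ j ∈ (insert i S)ᶜ, g j (Function.update x i t j) =
            ∏ j ∈ (insert i S)ᶜ, g j (x j) := by
          refine Finset.prod_congr rfl fun j hj => ?_
          have : j ≠ i := by
            rintro rfl
            exact hi' hj
          rw [Function.update_of_ne this]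
        rw [h2, Function.update_self]
        ring
      simp only [h1]
      rw [lintegral_const_mul _ (hg i), Finset.prod_insert hi]
      ring
  have h := key Finset.univ (fun _ => 0)
  rw [← lintegral_eq_lmarginal_univ] at h
  simp only [Finset.compl_univ, Finset.prod_empty, mul_one] at h
  rw [← h]
  rfl

theorem Shell_scont (hs : SData s m B) : Continuous s := by
  have : LipschitzWith (1 / 32) s := by
    refine LipschitzWith.of_dist_le_mul fun x y => ?_
    rw [Real.dist_eq, dist_eq_norm]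
    have := hs.lip x y
    simp only [NNReal.coe_div, NNReal.coe_one, NNReal.coe_ofNat]
    linarith
  exact this.continuous

/-- the shell -/
def ShellSet (s : Z8 → ℝ) (Bd : Finset Idx) (n : ℕ) : Set Z8 :=
  {z : Z8 | (1 / 2 : ℝ) ^ (n + 1) < dlt z ∧ dlt z ≤ (1 / 2 : ℝ) ^ n ∧
        ∀ k ∈ Bd, s z < Metric.infDist (z k) CC}

theorem Shell_meas (hs : SData s m B) (Bd : Finset Idx) (n : ℕ) :
    MeasurableSet (ShellSet s Bd n) := by
  have h1 : MeasurableSet {z : Z8 | (1 / 2 : ℝ) ^ (n + 1) < dlt z} :=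
    (isOpen_lt continuous_const dlt_cont).measurableSet
  have h2 : MeasurableSet {z : Z8 | dlt z ≤ (1 / 2 : ℝ) ^ n} :=
    (isClosed_le dlt_cont continuous_const).measurableSet
  have h3 : MeasurableSet (⋂ k ∈ Bd, {z : Z8 | s z < Metric.infDist (z k) CC}) := by
    refine Finset.measurableSet_biInter _ fun k _ => ?_
    exact (isOpen_lt (Shell_scont hs)
      ((Metric.continuous_infDist_pt CC).comp (continuous_apply k))).measurableSet
  have : ShellSet s Bd n = {z : Z8 | (1 / 2 : ℝ) ^ (n + 1) < dlt z} ∩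
      ({z : Z8 | dlt z ≤ (1 / 2 : ℝ) ^ n} ∩
      ⋂ k ∈ Bd, {z : Z8 | s z < Metric.infDist (z k) CC}) := by
    ext z
    simp [ShellSet]
  rw [this]
  exact h1.inter (h2.inter h3)

theorem shell_int (hp : PData p A) (hs : SData s m B) (T Bd : Finset Idx) : ∃ C : ℝ, 0 < C ∧
    ∀ n : ℕ, ∫⁻ z in {z : Z8 | (1 / 2 : ℝ) ^ (n + 1) < dlt z ∧ dlt z ≤ (1 / 2 : ℝ) ^ n ∧
        ∀ k ∈ Bd, s z < Metric.infDist (z k) CC},
      ENNReal.ofReal (∏ k ∈ Finset.univ \ T, pz p (z k) (s z)) ≤
      ENNReal.ofReal (C * ((1 / 2 : ℝ) ^ n) ^ (7 / 8 * ((T ∪ Bd).card : ℝ))) := by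
  classical
  have hB1 : 1 ≤ B := hs.one_le
  have hB0 : 0 < B := lt_of_lt_of_le one_pos hB1
  set Bc : ℝ := B ^ 2 * 2 ^ (5 / 4 : ℝ) with hBc
  have h2 : (1 : ℝ) ≤ 2 ^ (5 / 4 : ℝ) := Real.one_le_rpow (by norm_num) (by norm_num)
  have hBc1 : 1 ≤ Bc := by
    have : (1 : ℝ) ≤ B ^ 2 := by nlinarith
    nlinarith
  obtain ⟨M, hM⟩ := hp.maj Bc hBc1 2
  set Mx : ℝ := max M 1 with hMx
  have hMx1 : 1 ≤ Mx := le_max_right _ _
  set U : Finset Idx := T ∪ Bd with hU
  refine ⟨∏ k : Idx, (if k ∈ U then (4 : ℝ) else Mx), ?_, ?_⟩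
  · refine Finset.prod_pos fun k _ => ?_
    split_ifs <;> linarith
  intro n
  set r : ℝ := (1 / 2 : ℝ) ^ n with hr
  have hr0 : 0 < r := by positivity
  have hr1 : r ≤ 1 := pow_le_one₀ (by norm_num) (by norm_num)
  have hr2 : (1 / 2 : ℝ) ^ (n + 1) = r / 2 := by rw [pow_succ, hr]; ring
  set s1 : ℝ := (r / 2) ^ (5 / 4 : ℝ) / B with hs1
  have hs1pos : 0 < s1 := by positivity
  have hs1le : s1 ≤ 1 := by
    rw [hs1, div_le_one hB0]
    exact (Real.rpow_le_one (by positivity) (by linarith) (by norm_num)).trans hB1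
  obtain ⟨ρ, hρm, hρ, hρi⟩ := hM s1 hs1pos hs1le
  set g : Idx → ℝ → ℝ≥0∞ := fun k => if k ∈ U then
    indicator {x : ℝ | Metric.infDist x CC ≤ r} (fun _ => 1) else indicator (Icc (-2 : ℝ) 2) ρ with hg
  have hcl : MeasurableSet {x : ℝ | Metric.infDist x CC ≤ r} :=
    (isClosed_le (Metric.continuous_infDist_pt CC) continuous_const).measurableSet
  have hgm : ∀ k, Measurable (g k) := by
    intro k
    simp only [hg]
    split_ifs
    · exact measurable_const.indicator hcl
    · exact hρm.indicator measurableSet_Icc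
  have hpt : ∀ z ∈ {z : Z8 | (1 / 2 : ℝ) ^ (n + 1) < dlt z ∧ dlt z ≤ r ∧
      ∀ k ∈ Bd, s z < Metric.infDist (z k) CC},
      ENNReal.ofReal (∏ k ∈ Finset.univ \ T, pz p (z k) (s z)) ≤ ∏ k, g k (z k) := by
    rintro z ⟨hz1, hz2, hz3⟩
    rw [hr2] at hz1
    have hd1 : dlt z ≤ 1 := hz2.trans hr1
    have hd0 : 0 < dlt z := lt_trans (by positivity) hz1
    have hsl : s1 ≤ s z := by
      rw [hs1, div_le_iff₀ hB0, mul_comm]
      exact (Real.rpow_le_rpow (by positivity) hz1.le (by norm_num)).trans (hs.low z hd1)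
    have hsu : s z ≤ Bc * s1 := by
      have h3 : s z ≤ B * r ^ (5 / 4 : ℝ) :=
        (hs.up z).trans (mul_le_mul_of_nonneg_left
          (Real.rpow_le_rpow hd0.le hz2 (by norm_num)) hB0.le)
      have h4 : r ^ (5 / 4 : ℝ) = 2 ^ (5 / 4 : ℝ) * (r / 2) ^ (5 / 4 : ℝ) := by
        rw [← Real.mul_rpow (by norm_num) (by positivity)]
        congr 1
        ring
      rw [h4] at h3
      refine h3.trans (le_of_eq ?_)
      rw [hBc, hs1]
      field_simp
    have hsp : 0 < s z := lt_of_lt_of_le hs1pos hsl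
    rw [ENNReal.ofReal_prod_of_nonneg fun k _ => (zero_le_one.trans (hp.ge_one _ _ hsp))]
    have h5 : ∏ k ∈ Finset.univ \ T, ENNReal.ofReal (pz p (z k) (s z)) =
        ∏ k, (if k ∈ T then 1 else ENNReal.ofReal (pz p (z k) (s z))) := by
      rw [← Finset.prod_subset (Finset.subset_univ (Finset.univ \ T))]
      · refine Finset.prod_congr rfl fun k hk => ?_
        simp only [Finset.mem_sdiff, Finset.mem_univ, true_and] at hk
        rw [if_neg hk]
      · intro k _ hk
        simp only [Finset.mem_sdiff, Finset.mem_univ, true_and, not_not] at hk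
        rw [if_pos hk]
    rw [h5]
    refine Finset.prod_le_prod (fun _ _ => zero_le) fun k _ => ?_
    have hinf : Metric.infDist (z k) CC ≤ r := (le_dlt z k).trans hz2
    by_cases hkU : k ∈ U
    · have h6 : g k (z k) = 1 := by
        simp only [hg]
        rw [if_pos hkU, indicator_of_mem (by exact hinf)]
      rw [h6]
      by_cases hkT : k ∈ T
      · rw [if_pos hkT]
      · rw [if_neg hkT]
        have hkB : k ∈ Bd := by
          rcases Finset.mem_union.mp hkU with h | h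
          · exact absurd h hkT
          · exact h
        rw [(hp.far _ _ hsp (hz3 k hkB)).1, ENNReal.ofReal_one]
    · have hkT : k ∉ T := fun h => hkU (Finset.mem_union_left _ h)
      rw [if_neg hkT]
      have hIcc : z k ∈ Icc (-2 : ℝ) 2 := by
        obtain ⟨x, hx⟩ := CC_near (z k)
        have hb := beta_mem x
        rw [← hx] at hinf
        have := abs_le.mp (hinf.trans hr1)
        constructor
        · linarith [this.1, hb.1]
        · linarith [this.2, hb.2]
      have h6 : g k (z k) = ρ (z k) := by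
        simp only [hg]
        rw [if_neg hkU, indicator_of_mem hIcc]
      rw [h6]
      exact hρ _ _ hsl hsu
  have hmeas : Measurable fun z : Z8 => ∏ k, g k (z k) :=
    Finset.measurable_prod _ fun i _ => (hgm i).comp (measurable_pi_apply i)
  calc ∫⁻ z in {z : Z8 | (1 / 2 : ℝ) ^ (n + 1) < dlt z ∧ dlt z ≤ r ∧
        ∀ k ∈ Bd, s z < Metric.infDist (z k) CC},
      ENNReal.ofReal (∏ k ∈ Finset.univ \ T, pz p (z k) (s z))
      ≤ ∫⁻ z in {z : Z8 | (1 / 2 : ℝ) ^ (n + 1) < dlt z ∧ dlt z ≤ r ∧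
        ∀ k ∈ Bd, s z < Metric.infDist (z k) CC}, ∏ k, g k (z k) := setLIntegral_mono hmeas hpt
    _ ≤ ∫⁻ z : Z8, ∏ k, g k (z k) := setLIntegral_le_lintegral _ _
    _ = ∏ k, ∫⁻ t, g k t := Shell_pi g hgm
    _ ≤ ∏ k, ENNReal.ofReal ((if k ∈ U then (4 : ℝ) else Mx) *
          (if k ∈ U then r ^ (7 / 8 : ℝ) else 1)) := by
        refine Finset.prod_le_prod (fun _ _ => zero_le) fun k _ => ?_
        by_cases hkU : k ∈ U
        · simp only [hg, if_pos hkU]
          rw [lintegral_indicator hcl, setLIntegral_const, one_mul]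
          exact vol_near_CC r hr0 hr1
        · simp only [hg, if_neg hkU, mul_one]
          rw [lintegral_indicator measurableSet_Icc]
          exact hρi.trans (ENNReal.ofReal_le_ofReal (le_max_left _ _))
    _ = ENNReal.ofReal ((∏ k : Idx, (if k ∈ U then (4 : ℝ) else Mx)) *
          r ^ (7 / 8 * (U.card : ℝ))) := by
        rw [← ENNReal.ofReal_prod_of_nonneg, Finset.prod_mul_distrib]
        · congr 2
          rw [Finset.prod_ite_mem, Finset.univ_inter, Finset.prod_const,
            Real.rpow_mul hr0.le, Real.rpow_natCast]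
        · intro k _
          refine mul_nonneg ?_ ?_
          · split_ifs <;> linarith
          · split_ifs <;> positivity

theorem shell_fin (hp : PData p A) (hs : SData s m B) (T Bd : Finset Idx) (q K : ℝ) (hq0 : 0 ≤ q)
    (hq : q < 7 / 8 * ((T ∪ Bd).card : ℝ)) :
    ∫⁻ z in {z : Z8 | s z ≠ 0 ∧ dlt z ≤ 1 ∧ ∀ k ∈ Bd, s z < Metric.infDist (z k) CC},
      ENNReal.ofReal (K * dlt z ^ (-q) * ∏ k ∈ Finset.univ \ T, pz p (z k) (s z)) < ∞ := by
  classical
  obtain ⟨C, hC0, hC⟩ := shell_int hp hs T Bd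
  set e : ℝ := 7 / 8 * ((T ∪ Bd).card : ℝ) - q with he
  have he0 : 0 < e := by rw [he]; linarith
  set S : ℕ → Set Z8 := ShellSet s Bd with hSdef
  have hSm : ∀ n, MeasurableSet (S n) := fun n => Shell_meas hs Bd n
  have hsub : {z : Z8 | s z ≠ 0 ∧ dlt z ≤ 1 ∧ ∀ k ∈ Bd, s z < Metric.infDist (z k) CC} ⊆
      ⋃ n, S n := by
    rintro z ⟨hz1, hz2, hz3⟩
    have hd0 : 0 < dlt z := by
      rcases (dlt_nonneg z).lt_or_eq with h | h
      · exact h
      · exact absurd ((hs.zero_iff z).mpr ((dlt_zero_iff z).mp h.symm)) hz1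
    obtain ⟨n, hn1, hn2⟩ := exists_nat_pow_near_of_lt_one hd0 hz2
      (show (0 : ℝ) < 1 / 2 by norm_num) (show (1 / 2 : ℝ) < 1 by norm_num)
    exact mem_iUnion.mpr ⟨n, hn1, hn2, hz3⟩
  set D : ℝ := |K| * 2 ^ q * C with hD
  have hD0 : 0 ≤ D := by positivity
  have hρ0 : (0 : ℝ) ≤ (1 / 2 : ℝ) ^ e := by positivity
  have hρ1 : (1 / 2 : ℝ) ^ e < 1 := Real.rpow_lt_one (by norm_num) (by norm_num) he0
  have hbound : ∀ n : ℕ, ∫⁻ z in S n,
      ENNReal.ofReal (K * dlt z ^ (-q) * ∏ k ∈ Finset.univ \ T, pz p (z k) (s z)) ≤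
      ENNReal.ofReal (D * ((1 / 2 : ℝ) ^ e) ^ n) := by
    intro n
    set r : ℝ := (1 / 2 : ℝ) ^ n with hr
    have hr0 : 0 < r := by positivity
    have hr1 : r ≤ 1 := pow_le_one₀ (by norm_num) (by norm_num)
    have hr2 : (1 / 2 : ℝ) ^ (n + 1) = r / 2 := by rw [pow_succ, hr]; ring
    calc ∫⁻ z in S n,
        ENNReal.ofReal (K * dlt z ^ (-q) * ∏ k ∈ Finset.univ \ T, pz p (z k) (s z))
        ≤ ∫⁻ z in S n, ENNReal.ofReal (|K| * (r / 2) ^ (-q)) *
          ENNReal.ofReal (∏ k ∈ Finset.univ \ T, pz p (z k) (s z)) := by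
          refine setLIntegral_mono' (hSm n) fun z hz => ?_
          obtain ⟨hz1, hz2, hz3⟩ := hz
          rw [hr2] at hz1
          have hd0 : 0 < dlt z := lt_trans (by positivity) hz1
          have hsp : 0 < s z := by
            rcases (hs.nonneg z).lt_or_eq with h | h
            · exact h
            · exact absurd ((dlt_zero_iff z).mpr ((hs.zero_iff z).mp h.symm)) hd0.ne'
          have hP : 0 ≤ ∏ k ∈ Finset.univ \ T, pz p (z k) (s z) :=
            Finset.prod_nonneg fun k _ => (zero_le_one.trans (hp.ge_one _ _ hsp))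
          rw [← ENNReal.ofReal_mul (by positivity)]
          refine ENNReal.ofReal_le_ofReal (mul_le_mul_of_nonneg_right ?_ hP)
          have h1 : dlt z ^ (-q) ≤ (r / 2) ^ (-q) :=
            Real.rpow_le_rpow_of_nonpos (by positivity) hz1.le (by linarith)
          calc K * dlt z ^ (-q) ≤ |K| * dlt z ^ (-q) :=
                mul_le_mul_of_nonneg_right (le_abs_self K) (by positivity)
            _ ≤ |K| * (r / 2) ^ (-q) := mul_le_mul_of_nonneg_left h1 (abs_nonneg K)
      _ = ENNReal.ofReal (|K| * (r / 2) ^ (-q)) * ∫⁻ z in S n,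
          ENNReal.ofReal (∏ k ∈ Finset.univ \ T, pz p (z k) (s z)) :=
          lintegral_const_mul' _ _ ENNReal.ofReal_ne_top
      _ ≤ ENNReal.ofReal (|K| * (r / 2) ^ (-q)) *
          ENNReal.ofReal (C * r ^ (7 / 8 * ((T ∪ Bd).card : ℝ))) := mul_le_mul_right (hC n) _
      _ = ENNReal.ofReal (D * ((1 / 2 : ℝ) ^ e) ^ n) := by
          rw [← ENNReal.ofReal_mul (by positivity)]
          congr 1
          have h3 : (r / 2) ^ (-q) = r ^ (-q) * 2 ^ q := by
            rw [Real.div_rpow hr0.le (by norm_num), Real.rpow_neg (by norm_num : (0:ℝ) ≤ 2),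
              div_inv_eq_mul]
          have h4 : r ^ (7 / 8 * ((T ∪ Bd).card : ℝ)) * r ^ (-q) = ((1 / 2 : ℝ) ^ e) ^ n := by
            rw [← Real.rpow_add hr0, hr, ← Real.rpow_natCast, ← Real.rpow_mul (by norm_num),
              ← Real.rpow_natCast, ← Real.rpow_mul (by norm_num)]
            congr 1
            rw [he]
            ring
          rw [h3, ← h4, hD]
          ring
  calc ∫⁻ z in {z : Z8 | s z ≠ 0 ∧ dlt z ≤ 1 ∧ ∀ k ∈ Bd, s z < Metric.infDist (z k) CC},
      ENNReal.ofReal (K * dlt z ^ (-q) * ∏ k ∈ Finset.univ \ T, pz p (z k) (s z))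
      ≤ ∫⁻ z in ⋃ n, S n,
        ENNReal.ofReal (K * dlt z ^ (-q) * ∏ k ∈ Finset.univ \ T, pz p (z k) (s z)) :=
        lintegral_mono_set hsub
    _ ≤ ∑' n, ∫⁻ z in S n,
        ENNReal.ofReal (K * dlt z ^ (-q) * ∏ k ∈ Finset.univ \ T, pz p (z k) (s z)) :=
        lintegral_iUnion_le _ _
    _ ≤ ∑' n, ENNReal.ofReal (D * ((1 / 2 : ℝ) ^ e) ^ n) := ENNReal.tsum_le_tsum hbound
    _ < ∞ := by
        rw [← ENNReal.ofReal_tsum_of_nonneg (fun n => by positivity)
          ((summable_geometric_of_lt_one hρ0 hρ1).mul_left D)]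
        exact ENNReal.ofReal_lt_top

end Pool.Agent.Wtw
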