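import Mathlib
import Pool.Agent.Wtw.Shell
import Pool.Agent.Wtw.GDet

/-!
# Reg: integrals over regions of the `y`-space

The region in `y` is `GG '' S`, `S = {z | s z /= 0, dlt z <= δ0, bad}` measurable (`s`, `dlt`, `infDist` continuous).
`ch_var` with `F z = H (GG z)` (`Gi (GG z) = z`): `∫⁻ H <= ∫⁻_S H (GG z) ofReal (2 prod pz)
<= ∫⁻_S ofReal (2 K δ^(-q) prod_{k ∉ T} pz)`; `shell_fin`.
-/

namespace Pool.Agent.Wtw

open MeasureTheory Set Filter Topology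
open scoped ENNReal

variable {p : ℝ → ℝ → ℝ} {A B : ℝ} {s : Z8 → ℝ} {m : Z8 → V2}

theorem reg_fin (hp : PData p A) (hs : SData s m B) (T Bd : Finset Idx) (q K δ0 : ℝ) (hq0 : 0 ≤ q)
    (hq : q < 7 / 8 * ((T ∪ Bd).card : ℝ)) (hδ : δ0 ≤ 1) (H : Z8 → ℝ≥0∞)
    (hH : ∀ y, s (Gi p s y) ≠ 0 → dlt (Gi p s y) ≤ δ0 →
      (∀ k ∈ Bd, s (Gi p s y) < Metric.infDist (Gi p s y k) CC) →
      H y ≤ ENNReal.ofReal (K * dlt (Gi p s y) ^ (-q) /
        ∏ k ∈ T, pz p (Gi p s y k) (s (Gi p s y)))) :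
    ∫⁻ y in {y : Z8 | s (Gi p s y) ≠ 0 ∧ dlt (Gi p s y) ≤ δ0 ∧
      ∀ k ∈ Bd, s (Gi p s y) < Metric.infDist (Gi p s y k) CC}, H y < ∞ := by
  classical
  set S : Set Z8 := {z : Z8 | s z ≠ 0 ∧ dlt z ≤ δ0 ∧
    ∀ k ∈ Bd, s z < Metric.infDist (z k) CC} with hS
  have hsc := s_cont hs
  have hSm : MeasurableSet S := by
    have e : S = {z : Z8 | s z ≠ 0} ∩ ({z : Z8 | dlt z ≤ δ0} ∩
        ⋂ k ∈ Bd, {z : Z8 | s z < Metric.infDist (z k) CC}) := by
      ext z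
      simp only [hS, mem_ofPred_eq, mem_inter_iff, mem_iInter]
    rw [e]
    refine (isOpen_ne_fun hsc continuous_const).measurableSet.inter
      ((isClosed_le dlt_cont continuous_const).measurableSet.inter ?_)
    refine Finset.measurableSet_biInter _ fun k _ => ?_
    exact (isOpen_lt hsc ((Metric.continuous_infDist_pt CC).comp (continuous_apply k))).measurableSet
  have hR : {y : Z8 | s (Gi p s y) ≠ 0 ∧ dlt (Gi p s y) ≤ δ0 ∧
      ∀ k ∈ Bd, s (Gi p s y) < Metric.infDist (Gi p s y k) CC} = GG p s '' S := by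
    ext y
    constructor
    · intro hy
      exact ⟨Gi p s y, hy, GG_Gi hp hs y⟩
    · rintro ⟨z, hz, rfl⟩
      have hz' : Gi p s (GG p s z) ∈ S := by rw [Gi_GG hp hs]; exact hz
      exact hz'
  rw [hR]
  have h1 : ∫⁻ y in GG p s '' S, H y ≤
      ∫⁻ z in S, H (GG p s z) * ENNReal.ofReal (2 * ∏ k, pz p (z k) (s z)) := by
    have h2 := ch_var hp hs S hSm (fun z hz => hz.1) (fun z => H (GG p s z))
    simp only [GG_Gi hp hs] at h2
    exact h2
  refine lt_of_le_of_lt h1 ?_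
  have h3 : ∫⁻ z in S, H (GG p s z) * ENNReal.ofReal (2 * ∏ k, pz p (z k) (s z)) ≤
      ∫⁻ z in S, ENNReal.ofReal ((2 * K) * dlt z ^ (-q) *
        ∏ k ∈ Finset.univ \ T, pz p (z k) (s z)) := by
    refine setLIntegral_mono' hSm fun z hz => ?_
    have hsz : 0 < s z := lt_of_le_of_ne (hs.nonneg z) (Ne.symm hz.1)
    have hpz : ∀ k, 0 < pz p (z k) (s z) := fun k =>
      lt_of_lt_of_le one_pos (hp.ge_one (z k) (s z) hsz)
    have hH' := hH (GG p s z)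
    rw [Gi_GG hp hs] at hH'
    have h4 := hH' hz.1 hz.2.1 hz.2.2
    have hpos : 0 ≤ 2 * ∏ k, pz p (z k) (s z) :=
      mul_nonneg (by norm_num) (Finset.prod_nonneg fun k _ => (hpz k).le)
    calc H (GG p s z) * ENNReal.ofReal (2 * ∏ k, pz p (z k) (s z))
        ≤ ENNReal.ofReal (K * dlt z ^ (-q) / ∏ k ∈ T, pz p (z k) (s z)) *
          ENNReal.ofReal (2 * ∏ k, pz p (z k) (s z)) := by gcongr
      _ = ENNReal.ofReal (K * dlt z ^ (-q) / (∏ k ∈ T, pz p (z k) (s z)) *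
          (2 * ∏ k, pz p (z k) (s z))) := (ENNReal.ofReal_mul' hpos).symm
      _ = ENNReal.ofReal ((2 * K) * dlt z ^ (-q) *
          ∏ k ∈ Finset.univ \ T, pz p (z k) (s z)) := by
        congr 1
        have h5 : (∏ k ∈ Finset.univ \ T, pz p (z k) (s z)) * ∏ k ∈ T, pz p (z k) (s z) =
            ∏ k, pz p (z k) (s z) := Finset.prod_sdiff (Finset.subset_univ T)
        have h6 : (∏ k ∈ T, pz p (z k) (s z)) ≠ 0 :=
          (Finset.prod_pos fun k _ => hpz k).ne'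
        rw [← h5]
        field_simp
  refine lt_of_le_of_lt h3 ?_
  refine lt_of_le_of_lt ?_ (shell_fin hp hs T Bd q (2 * K) hq0 hq)
  apply lintegral_mono_set
  intro z hz
  exact ⟨hz.1, hz.2.1.trans hδ, hz.2.2⟩

end Pool.Agent.Wtw
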