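import Mathlib
import Pool.Agent.Wtw.Reg
import Pool.Agent.Wtw.FBnd

/-!
# IntXX: the integrals in the directions of the coordinates

`fb_all` and `reg_fin`.
* `x /= x'`: `T = {x, x'}`, `Bd = ∅`, `q = 349/256 < 7/4`.
* `x = x'`: the region is covered by `{GoodBut s (Gi y) x}` and, for `k /= x`, `{s < infDist (z k)}`.
  bad `k /= x`: `1/ρ_x^2 <= 1/ρ_x`, `T = {x}`, `Bd = {k}`, `q = 349/256 < 7/4`.
  `GoodBut x`: then `x` is far (`good_dlt`, `small`), `ρ_x = 1`: `T = Bd = {x}`, `q = 221/256 < 7/8`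
  (apply `reg_fin` to `H` times the indicator of `GoodBut x`).
`RG` is the region.
-/

namespace Pool.Agent.Wtw

open MeasureTheory Set Filter Topology
open scoped ENNReal

variable {p : ℝ → ℝ → ℝ} {A B : ℝ} {s : Z8 → ℝ} {m : Z8 → V2}

/-- the region near the singular set -/
def RG (p : ℝ → ℝ → ℝ) (s : Z8 → ℝ) (δ0 : ℝ) : Set Z8 :=
  {y : Z8 | s (Gi p s y) ≠ 0 ∧ dlt (Gi p s y) ≤ δ0}

/-- the integrand -/
noncomputable def HH (p : ℝ → ℝ → ℝ) (s : Z8 → ℝ) (m : Z8 → V2) (i j : Option Idx) (y : Z8) : ℝ≥0∞ :=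
  ⨆ u : ℝ, ENNReal.ofReal (eps (s (Gi p s y)) *
    ‖fderiv ℝ (fderiv ℝ (ff p s m)) (u, y) (dir i) (dir j)‖)

/-- the conclusion of `fb_all` for given constants -/
def FBall (p : ℝ → ℝ → ℝ) (s : Z8 → ℝ) (m : Z8 → V2) (C δ0 : ℝ) : Prop :=
    ∀ y : Z8, s (Gi p s y) ≠ 0 → dlt (Gi p s y) ≤ δ0 → ∀ u : ℝ,
    (∀ x x', eps (s (Gi p s y)) *
        ‖fderiv ℝ (fderiv ℝ (ff p s m)) (u, y) (dir (some x)) (dir (some x'))‖ ≤
      C * dlt (Gi p s y) ^ (-(349 / 256) : ℝ) /
        (pz p (Gi p s y x) (s (Gi p s y)) * pz p (Gi p s y x') (s (Gi p s y)))) ∧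
    (∀ x, GoodBut s (Gi p s y) x → eps (s (Gi p s y)) *
        ‖fderiv ℝ (fderiv ℝ (ff p s m)) (u, y) (dir (some x)) (dir (some x))‖ ≤
      C * dlt (Gi p s y) ^ (-(221 / 256) : ℝ)) ∧
    (∀ x, eps (s (Gi p s y)) *
        ‖fderiv ℝ (fderiv ℝ (ff p s m)) (u, y) (dir none) (dir (some x))‖ ≤
      C * dlt (Gi p s y) ^ (-(349 / 256) : ℝ) / pz p (Gi p s y x) (s (Gi p s y))) ∧
    (∀ x, GoodBut s (Gi p s y) x → eps (s (Gi p s y)) *
        ‖fderiv ℝ (fderiv ℝ (ff p s m)) (u, y) (dir none) (dir (some x))‖ ≤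
      C * dlt (Gi p s y) ^ (-(221 / 256) : ℝ)) ∧
    (eps (s (Gi p s y)) *
        ‖fderiv ℝ (fderiv ℝ (ff p s m)) (u, y) (dir none) (dir none)‖ ≤
      C * dlt (Gi p s y) ^ (-(349 / 256) : ℝ)) ∧
    (GoodGrp s (Gi p s y) → eps (s (Gi p s y)) *
        ‖fderiv ℝ (fderiv ℝ (ff p s m)) (u, y) (dir none) (dir none)‖ ≤
      C * dlt (Gi p s y) ^ (-(221 / 256) : ℝ))

theorem IntXX_HH_le {i j : Option Idx} {y : Z8} {b : ℝ}
    (h : ∀ u : ℝ, eps (s (Gi p s y)) *
      ‖fderiv ℝ (fderiv ℝ (ff p s m)) (u, y) (dir i) (dir j)‖ ≤ b) :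
    HH p s m i j y ≤ ENNReal.ofReal b :=
  iSup_le fun u => ENNReal.ofReal_le_ofReal (h u)

theorem IntXX_biUnion {ι : Type*} (I : Finset ι) (R : ι → Set Z8) (H : Z8 → ℝ≥0∞)
    (hR : ∀ k ∈ I, ∫⁻ y in R k, H y < ∞) : ∫⁻ y in ⋃ k ∈ I, R k, H y < ∞ := by
  classical
  induction I using Finset.induction_on with
  | empty => simp
  | insert a I ha ih =>
    rw [Finset.set_biUnion_insert]
    refine (lintegral_union_le _ _ _).trans_lt ?_
    exact ENNReal.add_lt_top.2 ⟨hR a (Finset.mem_insert_self a I),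
      ih fun k hk => hR k (Finset.mem_insert_of_mem hk)⟩

theorem IntXX_cover {ι : Type*} (S G : Set Z8) (I : Finset ι) (R : ι → Set Z8) (H : Z8 → ℝ≥0∞)
    (hcov : ∀ y ∈ S, y ∈ G ∨ ∃ k ∈ I, y ∈ R k) (hG : ∫⁻ y in G, H y < ∞)
    (hR : ∀ k ∈ I, ∫⁻ y in R k, H y < ∞) : ∫⁻ y in S, H y < ∞ := by
  have hsub : S ⊆ G ∪ ⋃ k ∈ I, R k := by
    intro y hy
    rcases hcov y hy with h | ⟨k, hk, h⟩
    · exact Or.inl h
    · refine Or.inr ?_
      rw [Set.mem_iUnion₂]
      exact ⟨k, hk, h⟩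
  refine (lintegral_mono_set hsub).trans_lt ((lintegral_union_le _ _ _).trans_lt ?_)
  exact ENNReal.add_lt_top.2 ⟨hG, IntXX_biUnion I R H hR⟩

theorem IntXX_RG_meas (hp : PData p A) (hs : SData s m B) (δ0 : ℝ) :
    MeasurableSet (RG p s δ0) := by
  have hG := Gi_cont hp hs
  have h1 : IsOpen {y : Z8 | s (Gi p s y) ≠ 0} :=
    isOpen_ne_fun ((s_cont hs).comp hG) continuous_const
  have h2 : IsClosed {y : Z8 | dlt (Gi p s y) ≤ δ0} :=
    isClosed_le (dlt_cont.comp hG) continuous_const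
  exact h1.measurableSet.inter h2.measurableSet

theorem IntXX_close_meas (hp : PData p A) (hs : SData s m B) (k : Idx) :
    MeasurableSet {y : Z8 | Metric.infDist (Gi p s y k) CC ≤ s (Gi p s y)} := by
  have hG := Gi_cont hp hs
  have h2 : IsClosed {y : Z8 | Metric.infDist (Gi p s y k) CC ≤ s (Gi p s y)} :=
    isClosed_le ((Metric.continuous_infDist_pt CC).comp ((continuous_apply k).comp hG))
      ((s_cont hs).comp hG)
  exact h2.measurableSet

theorem IntXX_good_meas (hp : PData p A) (hs : SData s m B) (x : Idx) :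
    MeasurableSet {y : Z8 | GoodBut s (Gi p s y) x} := by
  have e : {y : Z8 | GoodBut s (Gi p s y) x} =
      ⋂ k : Idx, ⋂ _ : k ≠ x, {y : Z8 | Metric.infDist (Gi p s y k) CC ≤ s (Gi p s y)} := by
    ext y
    simp [GoodBut]
  rw [e]
  exact MeasurableSet.iInter fun k => MeasurableSet.iInter fun _ => IntXX_close_meas hp hs k

/-- some coordinate is farther than `s z` -/
theorem IntXX_far (hs : SData s m B) (z : Z8) (hz : s z ≠ 0) :
    ∃ k, s z < Metric.infDist (z k) CC := by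
  obtain ⟨k, hk⟩ := dlt_attained z
  refine ⟨k, ?_⟩
  rw [← hk]
  have h1 := hs.small z
  have h2 := s_pos hs z hz
  linarith

/-- integral over the region where the other coordinates are close -/
theorem IntXX_good (hp : PData p A) (hs : SData s m B) (C δ0 : ℝ) (h1 : δ0 ≤ 1) (x : Idx)
    (H : Z8 → ℝ≥0∞)
    (hH : ∀ y, s (Gi p s y) ≠ 0 → dlt (Gi p s y) ≤ δ0 → GoodBut s (Gi p s y) x →
      H y ≤ ENNReal.ofReal (C * dlt (Gi p s y) ^ (-(221 / 256) : ℝ))) :
    ∫⁻ y in RG p s δ0 ∩ {y : Z8 | GoodBut s (Gi p s y) x}, H y < ∞ := by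
  classical
  have hm : MeasurableSet (RG p s δ0 ∩ {y : Z8 | GoodBut s (Gi p s y) x}) :=
    (IntXX_RG_meas hp hs δ0).inter (IntXX_good_meas hp hs x)
  have hreg := reg_fin hp hs {x} {x} (221 / 256) C δ0 (by norm_num) (by
      rw [Finset.union_self, Finset.card_singleton]
      norm_num) h1
    (fun y => if GoodBut s (Gi p s y) x then H y else 0) (by
      intro y hy1 hy2 hy3
      by_cases hg : GoodBut s (Gi p s y) x
      · simp only [if_pos hg]
        have h4 := hH y hy1 hy2 hg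
        have h5 := (hp.far (Gi p s y x) (s (Gi p s y)) (s_pos hs _ hy1)
          (hy3 x (Finset.mem_singleton_self x))).1
        rw [Finset.prod_singleton, h5, div_one]
        exact h4
      · simp only [if_neg hg]
        exact zero_le)
  have e : ∫⁻ y in RG p s δ0 ∩ {y : Z8 | GoodBut s (Gi p s y) x}, H y =
      ∫⁻ y in RG p s δ0 ∩ {y : Z8 | GoodBut s (Gi p s y) x},
        (if GoodBut s (Gi p s y) x then H y else 0) := by
    refine setLIntegral_congr_fun hm fun y hy => ?_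
    exact (if_pos hy.2).symm
  rw [e]
  refine (lintegral_mono_set ?_).trans_lt hreg
  rintro y ⟨⟨hy1, hy2⟩, hy3⟩
  refine ⟨hy1, hy2, fun k hk => ?_⟩
  rw [Finset.mem_singleton] at hk
  subst hk
  obtain ⟨k', hk'⟩ := IntXX_far hs _ hy1
  by_cases he : k' = k
  · rw [← he]
    exact hk'
  · exact absurd (hy3 k' he) (not_le.2 hk')

theorem int_xx (hp : PData p A) (hs : SData s m B) (C δ0 : ℝ) (h0 : 0 < δ0) (h1 : δ0 ≤ 1)
    (hF : FBall p s m C δ0) (x x' : Idx) :
    ∫⁻ y in RG p s δ0, HH p s m (some x) (some x') y < ∞ := by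
  classical
  have _ := h0
  by_cases hx : x = x'
  · subst hx
    refine IntXX_cover (RG p s δ0) (RG p s δ0 ∩ {y : Z8 | GoodBut s (Gi p s y) x})
      (Finset.univ.erase x)
      (fun k => {y : Z8 | s (Gi p s y) ≠ 0 ∧ dlt (Gi p s y) ≤ δ0 ∧
        ∀ k' ∈ ({k} : Finset Idx), s (Gi p s y) < Metric.infDist (Gi p s y k') CC}) _ ?_ ?_ ?_
    · intro y hy
      by_cases hg : GoodBut s (Gi p s y) x
      · exact Or.inl ⟨hy, hg⟩
      · refine Or.inr ?_
        unfold GoodBut at hg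
        push Not at hg
        obtain ⟨k, hk, hlt⟩ := hg
        refine ⟨k, Finset.mem_erase.2 ⟨hk, Finset.mem_univ k⟩, hy.1, hy.2, fun k' hk' => ?_⟩
        rw [Finset.mem_singleton] at hk'
        rw [hk']
        exact hlt
    · refine IntXX_good hp hs C δ0 h1 x _ fun y hy1 hy2 hg => ?_
      exact IntXX_HH_le fun u => (hF y hy1 hy2 u).2.1 x hg
    · intro k hk
      have hkx : k ≠ x := (Finset.mem_erase.1 hk).1
      refine reg_fin hp hs {x} {k} (349 / 256) C δ0 (by norm_num) ?_ h1 _ ?_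
      · have hc : (({x} : Finset Idx) ∪ {k}).card = 2 := by
          rw [Finset.card_union_of_disjoint (Finset.disjoint_singleton.2 hkx.symm)]
          simp
        rw [hc]
        norm_num
      · intro y hy1 hy2 _
        have hsp := s_pos hs _ hy1
        have hz := hp.ge_one (Gi p s y x) (s (Gi p s y)) hsp
        rw [Finset.prod_singleton]
        refine IntXX_HH_le fun u => ((hF y hy1 hy2 u).1 x x).trans ?_
        have hd : 0 ≤ dlt (Gi p s y) ^ (-(349 / 256) : ℝ) :=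
          Real.rpow_nonneg (dlt_nonneg _) _
        have hE : 0 ≤ C * dlt (Gi p s y) ^ (-(349 / 256) : ℝ) / (pz p (Gi p s y x) (s (Gi p s y)) *
            pz p (Gi p s y x) (s (Gi p s y))) := by
          have h6 := (hF y hy1 hy2 0).1 x x
          refine le_trans ?_ h6
          have : 0 ≤ eps (s (Gi p s y)) := Real.rpow_nonneg hsp.le _
          positivity
        have hpz : 0 < pz p (Gi p s y x) (s (Gi p s y)) := by linarith
        have hE2 : 0 ≤ C * dlt (Gi p s y) ^ (-(349 / 256) : ℝ) := by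
          rw [le_div_iff₀ (by positivity), zero_mul] at hE
          exact hE
        rw [← div_div]
        refine div_le_self ?_ hz
        positivity
  · have hreg := reg_fin hp hs {x, x'} ∅ (349 / 256) C δ0 (by norm_num) (by
        rw [Finset.union_empty, Finset.card_pair hx]
        norm_num) h1 (HH p s m (some x) (some x')) (by
      intro y hy1 hy2 _
      rw [Finset.prod_pair hx]
      exact IntXX_HH_le fun u => (hF y hy1 hy2 u).1 x x')
    refine (lintegral_mono_set ?_).trans_lt hreg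
    rintro y ⟨hy1, hy2⟩
    exact ⟨hy1, hy2, fun k hk => absurd hk (Finset.notMem_empty k)⟩

end Pool.Agent.Wtw
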