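import Mathlib
import Pool.Agent.Wtw.IntXX

/-!
# IntUU: the direction of `u`

`RG` is covered by: not `GoodGrp`: there are two bad coordinates `k /= k'`: `T = ∅`, `Bd = {k, k'}`,
`q = 349/256 < 7/4`; `GoodGrp`: at least one coordinate `k` is bad (the one with `infDist (z k) = dlt z > s`,
`small`): `T = ∅`, `Bd = {k}`, `q = 221/256 < 7/8` (times the indicator of `GoodGrp`).
-/

namespace Pool.Agent.Wtw

open MeasureTheory Set Filter Topology
open scoped ENNReal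

variable {p : ℝ → ℝ → ℝ} {A B : ℝ} {s : Z8 → ℝ} {m : Z8 → V2}

theorem IntUU_grp_meas (hp : PData p A) (hs : SData s m B) :
    MeasurableSet {y : Z8 | GoodGrp s (Gi p s y)} := by
  have e : {y : Z8 | GoodGrp s (Gi p s y)} =
      ⋂ g : Fin 2, ⋃ e : Fin 4, ⋂ i : Fin 4, ⋂ _ : i ≠ e,
        {y : Z8 | Metric.infDist (Gi p s y (g, i)) CC ≤ s (Gi p s y)} := by
    ext y
    simp [GoodGrp]
  rw [e]
  exact MeasurableSet.iInter fun g => MeasurableSet.iUnion fun e =>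
    MeasurableSet.iInter fun i => MeasurableSet.iInter fun _ => IntXX_close_meas hp hs (g, i)

theorem IntUU_good (hp : PData p A) (hs : SData s m B) (C δ0 : ℝ) (h1 : δ0 ≤ 1)
    (H : Z8 → ℝ≥0∞)
    (hH : ∀ y, s (Gi p s y) ≠ 0 → dlt (Gi p s y) ≤ δ0 → GoodGrp s (Gi p s y) →
      H y ≤ ENNReal.ofReal (C * dlt (Gi p s y) ^ (-(221 / 256) : ℝ))) :
    ∫⁻ y in RG p s δ0 ∩ {y : Z8 | GoodGrp s (Gi p s y)}, H y < ∞ := by
  classical
  have hm : MeasurableSet (RG p s δ0 ∩ {y : Z8 | GoodGrp s (Gi p s y)}) :=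
    (IntXX_RG_meas hp hs δ0).inter (IntUU_grp_meas hp hs)
  have e : ∫⁻ y in RG p s δ0 ∩ {y : Z8 | GoodGrp s (Gi p s y)}, H y =
      ∫⁻ y in RG p s δ0 ∩ {y : Z8 | GoodGrp s (Gi p s y)},
        (if GoodGrp s (Gi p s y) then H y else 0) := by
    refine setLIntegral_congr_fun hm fun y hy => ?_
    exact (if_pos hy.2).symm
  rw [e]
  refine IntXX_cover _ ∅ Finset.univ
    (fun k : Idx => {y : Z8 | s (Gi p s y) ≠ 0 ∧ dlt (Gi p s y) ≤ δ0 ∧
      ∀ k' ∈ ({k} : Finset Idx), s (Gi p s y) < Metric.infDist (Gi p s y k') CC}) _ ?_ ?_ ?_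
  · rintro y ⟨⟨hy1, hy2⟩, _⟩
    refine Or.inr ?_
    obtain ⟨k, hk⟩ := IntXX_far hs _ hy1
    refine ⟨k, Finset.mem_univ k, hy1, hy2, fun k' hk' => ?_⟩
    rw [Finset.mem_singleton] at hk'
    rw [hk']
    exact hk
  · simp
  · intro k _
    refine reg_fin hp hs ∅ {k} (221 / 256) C δ0 (by norm_num) (by
      rw [Finset.empty_union, Finset.card_singleton]
      norm_num) h1 _ ?_
    intro y hy1 hy2 _
    rw [Finset.prod_empty, div_one]
    by_cases hg : GoodGrp s (Gi p s y)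
    · rw [if_pos hg]
      exact hH y hy1 hy2 hg
    · rw [if_neg hg]
      exact zero_le

theorem int_uu (hp : PData p A) (hs : SData s m B) (C δ0 : ℝ) (h0 : 0 < δ0) (h1 : δ0 ≤ 1)
    (hF : FBall p s m C δ0) :
    ∫⁻ y in RG p s δ0, HH p s m none none y < ∞ := by
  classical
  have _ := h0
  refine IntXX_cover (RG p s δ0) (RG p s δ0 ∩ {y : Z8 | GoodGrp s (Gi p s y)})
    (Finset.univ.filter fun kk : Idx × Idx => kk.1 ≠ kk.2)
    (fun kk => {y : Z8 | s (Gi p s y) ≠ 0 ∧ dlt (Gi p s y) ≤ δ0 ∧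
      ∀ k' ∈ ({kk.1, kk.2} : Finset Idx), s (Gi p s y) < Metric.infDist (Gi p s y k') CC})
    _ ?_ ?_ ?_
  · intro y hy
    by_cases hg : GoodGrp s (Gi p s y)
    · exact Or.inl ⟨hy, hg⟩
    · refine Or.inr ?_
      unfold GoodGrp at hg
      push Not at hg
      obtain ⟨g, hg⟩ := hg
      obtain ⟨i1, _, hlt1⟩ := hg 0
      obtain ⟨i2, hne, hlt2⟩ := hg i1
      refine ⟨((g, i1), (g, i2)), ?_, hy.1, hy.2, fun k' hk' => ?_⟩
      · rw [Finset.mem_filter]
        refine ⟨Finset.mem_univ _, fun h => hne ?_⟩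
        exact (Prod.ext_iff.1 h).2.symm
      · rw [Finset.mem_insert, Finset.mem_singleton] at hk'
        rcases hk' with rfl | rfl
        · exact hlt1
        · exact hlt2
  · refine IntUU_good hp hs C δ0 h1 _ fun y hy1 hy2 hg => ?_
    exact IntXX_HH_le fun u => (hF y hy1 hy2 u).2.2.2.2.2 hg
  · intro kk hkk
    have hne : kk.1 ≠ kk.2 := (Finset.mem_filter.1 hkk).2
    refine reg_fin hp hs ∅ {kk.1, kk.2} (349 / 256) C δ0 (by norm_num) (by
      rw [Finset.empty_union, Finset.card_pair hne]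
      norm_num) h1 _ ?_
    intro y hy1 hy2 _
    rw [Finset.prod_empty, div_one]
    exact IntXX_HH_le fun u => (hF y hy1 hy2 u).2.2.2.2.1

end Pool.Agent.Wtw
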