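import Mathlib
import Pool.Agent.Wtw.IntXX

/-!
# IntUX: mixed directions

`RG` is covered by `{GoodBut x}` (`T = Bd = {x}`, `ρ_x = 1`, `q = 221/256 < 7/8`) and, for `k /= x`,
`{s < infDist (z k)}` (`T = {x}`, `Bd = {k}`, `q = 349/256 < 7/4`).
-/

namespace Pool.Agent.Wtw

open MeasureTheory Set Filter Topology
open scoped ENNReal

variable {p : ℝ → ℝ → ℝ} {A B : ℝ} {s : Z8 → ℝ} {m : Z8 → V2}

theorem int_ux (hp : PData p A) (hs : SData s m B) (C δ0 : ℝ) (h0 : 0 < δ0) (h1 : δ0 ≤ 1)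
    (hF : FBall p s m C δ0) (x : Idx) :
    ∫⁻ y in RG p s δ0, HH p s m none (some x) y < ∞ := by
  classical
  have _ := h0
  refine IntXX_cover (RG p s δ0) (RG p s δ0 ∩ {y : Z8 | GoodBut s (Gi p s y) x})
    (Finset.univ.erase x)
    (fun k => {y : Z8 | s (Gi p s y) ≠ 0 ∧ dlt (Gi p s y) ≤ δ0 ∧
      ∀ k' ∈ ({k} : Finset Idx), s (Gi p s y) < Metric.infDist (Gi p s y k') CC}) _ ?_ ?_ ?_
  · intro y hy
    by_cases hg : GoodBut s (Gi p s y) x
    · exact Or.inl ⟨hy, hg⟩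
    · refine Or.inr ?_
      unfold GoodBut at hg
      push Not at hg
      obtain ⟨k, hk, hlt⟩ := hg
      refine ⟨k, Finset.mem_erase.2 ⟨hk, Finset.mem_univ k⟩, hy.1, hy.2, fun k' hk' => ?_⟩
      rw [Finset.mem_singleton] at hk'
      rw [hk']
      exact hlt
  · refine IntXX_good hp hs C δ0 h1 x _ fun y hy1 hy2 hg => ?_
    exact IntXX_HH_le fun u => (hF y hy1 hy2 u).2.2.2.1 x hg
  · intro k hk
    have hkx : k ≠ x := (Finset.mem_erase.1 hk).1
    refine reg_fin hp hs {x} {k} (349 / 256) C δ0 (by norm_num) ?_ h1 _ ?_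
    · have hc : (({x} : Finset Idx) ∪ {k}).card = 2 := by
        rw [Finset.card_union_of_disjoint (Finset.disjoint_singleton.2 hkx.symm)]
        simp
      rw [hc]
      norm_num
    · intro y hy1 hy2 _
      rw [Finset.prod_singleton]
      exact IntXX_HH_le fun u => (hF y hy1 hy2 u).2.2.1 x

end Pool.Agent.Wtw
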