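import Mathlib
import Pool.Agent.Wtw.IntUX
import Pool.Agent.Wtw.IntUU
import Pool.Agent.Wtw.Homeo
import Pool.Agent.Wtw.FSm

/-!
# Total: the second derivative is integrable on bounded sets

* `opnorm`: `|T| <= sum_(i,j) |T (dir i) (dir j)|` (`v = sum_i v_i dir i`, `|v_i| <= |v|`).
* near part `{y ∈ RG δ0}`: Tonelli (`fderiv ℝ (fderiv ℝ f)` is measurable, `measurable_fderiv`): for fixed `y` the
  function of `u` vanishes for `u < 0` and `u > eps` (`ff_near_out`), so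
  `∫⁻ du |D^2 (dir i) (dir j)| <= ofReal eps * sup_u |..| = HH i j y`; symmetric in `i, j` (`fderiv2_symm`).
* far part `{δ0 <= dlt (Gi y)}` intersected with the ball: compact, `D^2 ff` continuous there (`ff_smooth`).
* `{s (Gi y) = 0}`: `D^2 ff = 0` for `u /= 0` (`ff_near_K`); `{u = 0}` is a null set.
-/

namespace Pool.Agent.Wtw

open MeasureTheory Set Filter Topology
open scoped ENNReal

variable {p : ℝ → ℝ → ℝ} {A B : ℝ} {s : Z8 → ℝ} {m : Z8 → V2}

theorem Total_norm_cont {F : Type*} [NormedAddCommGroup F] {g : E9 → F} {t : E9}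
    (h : ContinuousAt g t) : ContinuousAt (fun t => ‖g t‖) t := h.norm

theorem Total_enorm_zero {F : Type*} [NormedAddCommGroup F] {x : F} (h : x = 0) : ‖x‖ₑ = 0 := by
  rw [h]; exact enorm_zero

/-- coordinates of `E9` -/
def Total_c (v : E9) : Option Idx → ℝ
  | none => v.1
  | some x => v.2 x

theorem Total_c_le (v : E9) (i : Option Idx) : |Total_c v i| ≤ ‖v‖ := by
  cases i with
  | none => exact norm_fst_le v
  | some x => exact (norm_le_pi_norm v.2 x).trans (norm_snd_le v)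

theorem Total_sum (v : E9) : v = ∑ i, Total_c v i • dir i := by
  rw [Fintype.sum_option]
  ext k
  · simp [Total_c, dir, Prod.fst_sum]
  · simp [Total_c, dir, Prod.snd_sum, Finset.sum_apply, Pi.single_apply]

theorem opnorm (T : E9 →L[ℝ] E9 →L[ℝ] E9) : ‖T‖ ≤ ∑ i, ∑ j, ‖T (dir i) (dir j)‖ := by
  refine ContinuousLinearMap.opNorm_le_bound₂ T (by positivity) fun v w => ?_
  have h1 : T v w = ∑ i, ∑ j, (Total_c v i * Total_c w j) • T (dir i) (dir j) := by
    have e1 : T v = ∑ i, Total_c v i • T (dir i) := by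
      conv_lhs => rw [Total_sum v]
      rw [map_sum]
      refine Finset.sum_congr rfl fun i _ => ?_
      rw [map_smul]
    have e2 : ∀ i, T (dir i) w = ∑ j, Total_c w j • T (dir i) (dir j) := by
      intro i
      conv_lhs => rw [Total_sum w]
      rw [map_sum]
      refine Finset.sum_congr rfl fun j _ => ?_
      rw [map_smul]
    rw [e1, sum_apply]
    refine Finset.sum_congr rfl fun i _ => ?_
    rw [smul_apply, e2, Finset.smul_sum]
    refine Finset.sum_congr rfl fun j _ => ?_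
    rw [smul_smul]
  rw [h1, Finset.sum_mul, Finset.sum_mul]
  refine (norm_sum_le _ _).trans (Finset.sum_le_sum fun i _ => ?_)
  rw [Finset.sum_mul, Finset.sum_mul]
  refine (norm_sum_le _ _).trans (Finset.sum_le_sum fun j _ => ?_)
  rw [norm_smul, norm_mul, Real.norm_eq_abs, Real.norm_eq_abs]
  have h2 := Total_c_le v i
  have h3 := Total_c_le w j
  have h4 : |Total_c v i| * |Total_c w j| ≤ ‖v‖ * ‖w‖ :=
    mul_le_mul h2 h3 (abs_nonneg _) (norm_nonneg _)
  calc |Total_c v i| * |Total_c w j| * ‖T (dir i) (dir j)‖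
      ≤ ‖v‖ * ‖w‖ * ‖T (dir i) (dir j)‖ := mul_le_mul_of_nonneg_right h4 (norm_nonneg _)
    _ = ‖T (dir i) (dir j)‖ * ‖v‖ * ‖w‖ := by ring

/-- the second derivative vanishes where the map is locally the identity -/
theorem Total_id {f : E9 → E9} {t : E9} (h : f =ᶠ[𝓝 t] id) : fderiv ℝ (fderiv ℝ f) t = 0 := by
  have h1 : fderiv ℝ f =ᶠ[𝓝 t] fderiv ℝ id := h.fderiv
  rw [h1.fderiv_eq]
  have h2 : fderiv ℝ (id : E9 → E9) = fun _ => ContinuousLinearMap.id ℝ E9 := by
    funext x; exact fderiv_id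
  rw [h2]
  exact fderiv_const_apply _

theorem Total_meas (f : E9 → E9) (v w : E9) :
    Measurable fun t => ‖fderiv ℝ (fderiv ℝ f) t v w‖ₑ := by
  have h1 : Measurable fun t => fderiv ℝ (fderiv ℝ f) t := measurable_fderiv ℝ (fderiv ℝ f)
  have h2 : Measurable fun t => fderiv ℝ (fderiv ℝ f) t v := h1.apply_continuousLinearMap v
  have h3 : Measurable fun t => fderiv ℝ (fderiv ℝ f) t v w := h2.apply_continuousLinearMap w
  exact h3.enorm

theorem Total_RG_meas (hp : PData p A) (hs : SData s m B) (δ0 : ℝ) :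
    MeasurableSet (RG p s δ0) := by
  have h1 : Measurable fun y => s (Gi p s y) := ((s_cont hs).comp (Gi_cont hp hs)).measurable
  have h2 : Measurable fun y => dlt (Gi p s y) := (dlt_cont.comp (Gi_cont hp hs)).measurable
  have e : RG p s δ0 = ((fun y => s (Gi p s y)) ⁻¹' {0})ᶜ ∩ (fun y => dlt (Gi p s y)) ⁻¹' Iic δ0 := rfl
  rw [e]
  exact (h1 (measurableSet_singleton 0)).compl.inter (h2 measurableSet_Iic)

theorem Total_inner (hp : PData p A) (hs : SData s m B) (i j : Option Idx) (y : Z8)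
    (hy : s (Gi p s y) ≠ 0) :
    ∫⁻ u : ℝ, ‖fderiv ℝ (fderiv ℝ (ff p s m)) (u, y) (dir i) (dir j)‖ₑ ≤ HH p s m i j y := by
  set e : ℝ := eps (s (Gi p s y)) with he
  have hspos : 0 < s (Gi p s y) := lt_of_le_of_ne (hs.nonneg _) (Ne.symm hy)
  have hepos : 0 < e := Real.rpow_pos_of_pos hspos _
  have h1 : ∀ u : ℝ, ‖fderiv ℝ (fderiv ℝ (ff p s m)) (u, y) (dir i) (dir j)‖ₑ ≤
      (Icc (0 : ℝ) e).indicator (fun _ => HH p s m i j y / ENNReal.ofReal e) u := by
    intro u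
    by_cases hu : u ∈ Icc (0 : ℝ) e
    · rw [indicator_of_mem hu]
      rw [ENNReal.le_div_iff_mul_le (Or.inl (by simpa using hepos)) (Or.inl ENNReal.ofReal_ne_top)]
      rw [← ofReal_norm, ← ENNReal.ofReal_mul (norm_nonneg _), mul_comm]
      exact le_iSup (fun u : ℝ => ENNReal.ofReal (eps (s (Gi p s y)) *
        ‖fderiv ℝ (fderiv ℝ (ff p s m)) (u, y) (dir i) (dir j)‖)) u
    · rw [indicator_of_notMem hu]
      have h2 : u < 0 ∨ eps (s (Gi p s y)) < u := by
        by_contra hcon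
        push Not at hcon
        exact hu ⟨hcon.1, hcon.2⟩
      rw [Total_id (ff_near_out hp hs u y h2)]
      simp
  calc ∫⁻ u : ℝ, ‖fderiv ℝ (fderiv ℝ (ff p s m)) (u, y) (dir i) (dir j)‖ₑ
      ≤ ∫⁻ u : ℝ, (Icc (0 : ℝ) e).indicator (fun _ => HH p s m i j y / ENNReal.ofReal e) u :=
        lintegral_mono h1
    _ = HH p s m i j y / ENNReal.ofReal e * ENNReal.ofReal e := by
        rw [lintegral_indicator measurableSet_Icc, setLIntegral_const, Real.volume_Icc, sub_zero]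
    _ ≤ HH p s m i j y := by
        rw [ENNReal.div_mul_cancel (by simpa using hepos) ENNReal.ofReal_ne_top]

theorem Total_HH_symm (hp : PData p A) (hs : SData s m B) (i j : Option Idx) (y : Z8)
    (hy : s (Gi p s y) ≠ 0) : HH p s m i j y = HH p s m j i y := by
  unfold HH
  refine iSup_congr fun u => ?_
  rw [fderiv2_symm (ff_smooth hp hs u y hy)]

theorem Total_HH_fin (hp : PData p A) (hs : SData s m B) (C δ0 : ℝ) (h0 : 0 < δ0) (h1 : δ0 ≤ 1)
    (hF : FBall p s m C δ0) (i j : Option Idx) :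
    ∫⁻ y in RG p s δ0, HH p s m i j y < ∞ := by
  cases i with
  | none =>
    cases j with
    | none => exact int_uu hp hs C δ0 h0 h1 hF
    | some x => exact int_ux hp hs C δ0 h0 h1 hF x
  | some x =>
    cases j with
    | none =>
      have h2 := int_ux hp hs C δ0 h0 h1 hF x
      have h3 : ∫⁻ y in RG p s δ0, HH p s m (some x) none y =
          ∫⁻ y in RG p s δ0, HH p s m none (some x) y := by
        apply setLIntegral_congr_fun (Total_RG_meas hp hs δ0)
        intro y hy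
        exact Total_HH_symm hp hs _ _ y hy.1
      rw [h3]
      exact h2
    | some x' => exact int_xx hp hs C δ0 h0 h1 hF x x'

theorem tot_near (hp : PData p A) (hs : SData s m B) (C δ0 : ℝ) (h0 : 0 < δ0) (h1 : δ0 ≤ 1)
    (hF : FBall p s m C δ0) (i j : Option Idx) :
    ∫⁻ t in {t : E9 | t.2 ∈ RG p s δ0},
      ‖fderiv ℝ (fderiv ℝ (ff p s m)) t (dir i) (dir j)‖ₑ < ∞ := by
  have e1 : {t : E9 | t.2 ∈ RG p s δ0} = univ ×ˢ RG p s δ0 := by
    ext t; simp
  have e2 : (volume : Measure E9).restrict (univ ×ˢ RG p s δ0) =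
      (volume : Measure ℝ).prod ((volume : Measure Z8).restrict (RG p s δ0)) := by
    rw [Measure.volume_eq_prod, ← Measure.prod_restrict, Measure.restrict_univ]
  rw [e1, e2, lintegral_prod_symm _ (Total_meas (ff p s m) (dir i) (dir j)).aemeasurable]
  refine lt_of_le_of_lt ?_ (Total_HH_fin hp hs C δ0 h0 h1 hF i j)
  apply setLIntegral_mono' (Total_RG_meas hp hs δ0)
  intro y hy
  exact Total_inner hp hs i j y hy.1

theorem tot_far (hp : PData p A) (hs : SData s m B) (δ0 : ℝ) (h0 : 0 < δ0) (R : ℝ) :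
    ∫⁻ t in Metric.closedBall (0 : E9) R ∩ {t : E9 | δ0 ≤ dlt (Gi p s t.2)},
      ‖fderiv ℝ (fderiv ℝ (ff p s m)) t‖ₑ < ∞ := by
  set K : Set E9 := Metric.closedBall (0 : E9) R ∩ {t : E9 | δ0 ≤ dlt (Gi p s t.2)} with hK
  have hcl : IsClosed {t : E9 | δ0 ≤ dlt (Gi p s t.2)} := by
    have h2 : Continuous fun t : E9 => dlt (Gi p s t.2) :=
      dlt_cont.comp ((Gi_cont hp hs).comp continuous_snd)
    exact isClosed_le continuous_const h2
  have hKc : IsCompact K := (isCompact_closedBall (0 : E9) R).inter_right hcl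
  have hcont : ContinuousOn (fun t => ‖fderiv ℝ (fderiv ℝ (ff p s m)) t‖) K := by
    intro t ht
    have h3 : s (Gi p s t.2) ≠ 0 := by
      intro h4
      have h5 := (hs.zero_iff _).1 h4
      have h6 := (dlt_zero_iff _).2 h5
      have h7 : δ0 ≤ dlt (Gi p s t.2) := ht.2
      rw [h6] at h7
      linarith
    have h8 : ContDiffAt ℝ 2 (ff p s m) t := ff_smooth hp hs t.1 t.2 h3
    have h9 : ContDiffAt ℝ 1 (fderiv ℝ (ff p s m)) t := h8.fderiv_right (by norm_num)
    have h10 : ContDiffAt ℝ 0 (fderiv ℝ (fderiv ℝ (ff p s m))) t := h9.fderiv_right (by norm_num)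
    exact (Total_norm_cont h10.continuousAt).continuousWithinAt
  obtain ⟨C, hC⟩ := hKc.bddAbove_image hcont
  calc ∫⁻ t in K, ‖fderiv ℝ (fderiv ℝ (ff p s m)) t‖ₑ ≤ ∫⁻ _ in K, ENNReal.ofReal C := by
        apply setLIntegral_mono' hKc.measurableSet
        intro t ht
        rw [← ofReal_norm]
        exact ENNReal.ofReal_le_ofReal (hC (mem_image_of_mem _ ht))
    _ = ENNReal.ofReal C * volume K := by rw [setLIntegral_const]
    _ < ∞ := ENNReal.mul_lt_top ENNReal.ofReal_lt_top hKc.measure_lt_top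

theorem tot_zero (hp : PData p A) (hs : SData s m B) :
    ∫⁻ t in {t : E9 | s (Gi p s t.2) = 0}, ‖fderiv ℝ (fderiv ℝ (ff p s m)) t‖ₑ = 0 := by
  have hcl : IsClosed {t : E9 | s (Gi p s t.2) = 0} := by
    have h2 : Continuous fun t : E9 => s (Gi p s t.2) :=
      (s_cont hs).comp ((Gi_cont hp hs).comp continuous_snd)
    exact isClosed_eq h2 continuous_const
  have hnull : ∀ᵐ t : E9, t.1 ≠ 0 := by
    rw [ae_iff]
    have e1 : {t : E9 | ¬ t.1 ≠ 0} = {(0 : ℝ)} ×ˢ (univ : Set Z8) := by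
      ext t; simp
    rw [e1, Measure.volume_eq_prod, Measure.prod_prod]
    simp
  have h1 : (fun t => ‖fderiv ℝ (fderiv ℝ (ff p s m)) t‖ₑ) =ᵐ[volume.restrict
      {t : E9 | s (Gi p s t.2) = 0}] fun _ => 0 := by
    rw [Filter.EventuallyEq, ae_restrict_iff' hcl.measurableSet]
    filter_upwards [hnull] with t ht hts
    have h3 : ff p s m =ᶠ[𝓝 t] id := ff_near_K hp hs t.1 t.2 hts ht
    show ‖fderiv ℝ (fderiv ℝ (ff p s m)) t‖ₑ = 0
    exact Total_enorm_zero (F := E9 →L[ℝ] E9 →L[ℝ] E9) (Total_id h3)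
  rw [lintegral_congr_ae h1, lintegral_zero]

theorem ff_int2 (hp : PData p A) (hs : SData s m B) (R : ℝ) :
    ∫⁻ t in Metric.closedBall (0 : E9) R, ‖fderiv ℝ (fderiv ℝ (ff p s m)) t‖ₑ < ∞ := by
  obtain ⟨C, δ0, -, h0, h1, hF⟩ := fb_all hp hs
  have hF' : FBall p s m C δ0 := hF
  set S1 : Set E9 := {t : E9 | t.2 ∈ RG p s δ0} with hS1
  set S2 : Set E9 := Metric.closedBall (0 : E9) R ∩ {t : E9 | δ0 ≤ dlt (Gi p s t.2)} with hS2
  set S3 : Set E9 := {t : E9 | s (Gi p s t.2) = 0} with hS3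
  have hsub : Metric.closedBall (0 : E9) R ⊆ S1 ∪ (S2 ∪ S3) := by
    intro t ht
    by_cases h3 : s (Gi p s t.2) = 0
    · exact Or.inr (Or.inr h3)
    · by_cases h4 : dlt (Gi p s t.2) ≤ δ0
      · exact Or.inl ⟨h3, h4⟩
      · exact Or.inr (Or.inl ⟨ht, (not_le.1 h4).le⟩)
  have hn : ∫⁻ t in S1, ‖fderiv ℝ (fderiv ℝ (ff p s m)) t‖ₑ < ∞ := by
    have h5 : ∀ t : E9, ‖fderiv ℝ (fderiv ℝ (ff p s m)) t‖ₑ ≤
        ∑ i, ∑ j, ‖fderiv ℝ (fderiv ℝ (ff p s m)) t (dir i) (dir j)‖ₑ := by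
      intro t
      have h6 := opnorm (fderiv ℝ (fderiv ℝ (ff p s m)) t)
      rw [← ofReal_norm]
      refine (ENNReal.ofReal_le_ofReal h6).trans ?_
      rw [ENNReal.ofReal_sum_of_nonneg (fun i _ => by positivity)]
      refine Finset.sum_le_sum fun i _ => ?_
      rw [ENNReal.ofReal_sum_of_nonneg (fun i _ => by positivity)]
      refine Finset.sum_le_sum fun j _ => ?_
      rw [ofReal_norm]
    refine lt_of_le_of_lt (lintegral_mono h5) ?_
    rw [lintegral_finsetSum _ (fun i _ => Finset.measurable_sum _ fun j _ => Total_meas _ _ _)]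
    refine ENNReal.sum_lt_top.2 fun i _ => ?_
    rw [lintegral_finsetSum _ (fun j _ => Total_meas _ _ _)]
    exact ENNReal.sum_lt_top.2 fun j _ => tot_near hp hs C δ0 h0 h1 hF' i j
  calc ∫⁻ t in Metric.closedBall (0 : E9) R, ‖fderiv ℝ (fderiv ℝ (ff p s m)) t‖ₑ
      ≤ ∫⁻ t in S1 ∪ (S2 ∪ S3), ‖fderiv ℝ (fderiv ℝ (ff p s m)) t‖ₑ := lintegral_mono_set hsub
    _ ≤ (∫⁻ t in S1, ‖fderiv ℝ (fderiv ℝ (ff p s m)) t‖ₑ) +
        ∫⁻ t in S2 ∪ S3, ‖fderiv ℝ (fderiv ℝ (ff p s m)) t‖ₑ := lintegral_union_le _ _ _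
    _ ≤ (∫⁻ t in S1, ‖fderiv ℝ (fderiv ℝ (ff p s m)) t‖ₑ) +
        ((∫⁻ t in S2, ‖fderiv ℝ (fderiv ℝ (ff p s m)) t‖ₑ) +
        ∫⁻ t in S3, ‖fderiv ℝ (fderiv ℝ (ff p s m)) t‖ₑ) :=
        add_le_add le_rfl (lintegral_union_le _ _ _)
    _ < ∞ := by
        rw [tot_zero hp hs, add_zero]
        exact ENNReal.add_lt_top.2 ⟨hn, tot_far hp hs δ0 h0 R⟩

end Pool.Agent.Wtw
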