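import Mathlib
import Pool.Agent.Wtw.Total

/-!
# Int1: the first derivative is integrable on bounded sets

For `y ∉ KK` the function `u ↦ D ff (u,y)` is `C^1` on `ℝ` (`ff_smooth`), identity for `u < 0`, so for `u <= R`
(`R >= 1`): `|D ff (u,y)| <= 1 + ∫_(-R..R) |D^2 ff (t,y) (1,0)| dt`. For `y ∈ KK`, `u /= 0`: `D ff = id`.
Integrate over `[-R,R] x closedBall 0 R` (Tonelli): `<= vol + 2R ∫ |D^2 ff| < ∞` (`ff_int2`).
-/

namespace Pool.Agent.Wtw

open MeasureTheory Set Filter Topology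
open scoped ENNReal

variable {p : ℝ → ℝ → ℝ} {A B : ℝ} {s : Z8 → ℝ} {m : Z8 → V2}

theorem ff_int1_id {f : E9 → E9} {t : E9} (h : f =ᶠ[𝓝 t] id) : ‖fderiv ℝ f t‖ₑ ≤ 1 := by
  rw [h.fderiv_eq, fderiv_id]
  have h1 : ‖ContinuousLinearMap.id ℝ E9‖ ≤ 1 := ContinuousLinearMap.norm_id_le
  rw [← ofReal_norm]
  exact ENNReal.ofReal_le_one.mpr h1

theorem ff_int1_key (hp : PData p A) (hs : SData s m B) (R : ℝ) (hR : 1 ≤ R) (u : ℝ) (y : Z8)
    (hy : s (Gi p s y) ≠ 0) (hu1 : -R ≤ u) (hu2 : u ≤ R) :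
    ‖fderiv ℝ (ff p s m) (u, y)‖ₑ ≤
      1 + ∫⁻ t in Icc (-R) R, ‖fderiv ℝ (fderiv ℝ (ff p s m)) (t, y)‖ₑ := by
  set f := ff p s m with hf
  -- the curve
  let g : ℝ → (E9 →L[ℝ] E9) := fun t => fderiv ℝ f (t, y)
  let g' : ℝ → (E9 →L[ℝ] E9) := fun t => fderiv ℝ (fderiv ℝ f) (t, y) (1, 0)
  have hc1 : ∀ t, ContDiffAt ℝ 1 (fderiv ℝ f) (t, y) := fun t =>
    (ff_smooth hp hs t y hy).fderiv_right (m := 1) (by norm_num)
  have hline : ∀ t : ℝ, HasDerivAt (fun t : ℝ => ((t, y) : E9)) ((1, 0) : E9) t := fun t =>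
    (hasDerivAt_id t).prodMk (hasDerivAt_const t y)
  have hg : ∀ t, HasDerivAt g (g' t) t := by
    intro t
    have h1 : HasFDerivAt (fderiv ℝ f) (fderiv ℝ (fderiv ℝ f) (t, y)) (t, y) :=
      ((hc1 t).differentiableAt (by norm_num)).hasFDerivAt
    exact h1.comp_hasDerivAt t (hline t)
  have hg'c : Continuous g' := by
    rw [continuous_iff_continuousAt]
    intro t
    have h1 : ContinuousAt (fderiv ℝ (fderiv ℝ f)) (t, y) :=
      ((hc1 t).fderiv_right (m := 0) (by norm_num)).continuousAt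
    have h2 : ContinuousAt (fun t : ℝ => ((t, y) : E9)) t := by fun_prop
    have h3 : ContinuousAt (fun t : ℝ => fderiv ℝ (fderiv ℝ f) ((t, y) : E9)) t :=
      ContinuousAt.comp (g := fderiv ℝ (fderiv ℝ f)) (f := fun t : ℝ => ((t, y) : E9)) h1 h2
    exact h3.clm_apply continuousAt_const
  have hint := intervalIntegral.integral_eq_sub_of_hasDerivAt (a := -R) (b := u)
    (fun t _ => hg t) (hg'c.intervalIntegrable _ _)
  have hgu : g u = g (-R) + ∫ t in (-R)..u, g' t := by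
    rw [hint]; abel
  have h0 : ‖g (-R)‖ₑ ≤ 1 := ff_int1_id (ff_near_out hp hs (-R) y (Or.inl (by linarith)))
  have hn : ∀ t, ‖g' t‖ₑ ≤ ‖fderiv ℝ (fderiv ℝ f) (t, y)‖ₑ := by
    intro t
    have h1 : ‖g' t‖ ≤ ‖fderiv ℝ (fderiv ℝ f) (t, y)‖ * ‖((1, 0) : E9)‖ :=
      ContinuousLinearMap.le_opNorm _ _
    have h2 : ‖((1, 0) : E9)‖ = 1 := by
      rw [Prod.norm_def]; simp
    rw [h2, mul_one] at h1
    rw [← ofReal_norm, ← ofReal_norm]
    exact ENNReal.ofReal_le_ofReal h1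
  calc ‖g u‖ₑ = ‖g (-R) + ∫ t in (-R)..u, g' t‖ₑ := by rw [hgu]
    _ ≤ ‖g (-R)‖ₑ + ‖∫ t in (-R)..u, g' t‖ₑ := by
      rw [← ofReal_norm, ← ofReal_norm, ← ofReal_norm]
      exact (ENNReal.ofReal_le_ofReal (norm_add_le _ _)).trans ENNReal.ofReal_add_le
    _ ≤ 1 + ∫⁻ t in Icc (-R) R, ‖fderiv ℝ (fderiv ℝ f) (t, y)‖ₑ := by
      refine add_le_add h0 ?_
      rw [intervalIntegral.integral_of_le hu1]
      calc ‖∫ t in Ioc (-R) u, g' t‖ₑ ≤ ∫⁻ t in Ioc (-R) u, ‖g' t‖ₑ :=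
            enorm_integral_le_lintegral_enorm _
        _ ≤ ∫⁻ t in Ioc (-R) u, ‖fderiv ℝ (fderiv ℝ f) (t, y)‖ₑ :=
            lintegral_mono fun t => hn t
        _ ≤ ∫⁻ t in Icc (-R) R, ‖fderiv ℝ (fderiv ℝ f) (t, y)‖ₑ :=
            lintegral_mono_set fun t ht => ⟨ht.1.le, ht.2.trans hu2⟩

theorem ff_int1_big (hp : PData p A) (hs : SData s m B) (R : ℝ) (hR : 1 ≤ R) :
    ∫⁻ t in Metric.closedBall (0 : E9) R, ‖fderiv ℝ (ff p s m) t‖ₑ < ∞ := by
  set f := ff p s m with hf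
  have hball : Metric.closedBall (0 : E9) R =
      Icc (-R) R ×ˢ Metric.closedBall (0 : Z8) R := by
    have h1 : (0 : E9) = ((0 : ℝ), (0 : Z8)) := rfl
    rw [h1, ← closedBall_prod_same, Real.closedBall_eq_Icc]
    simp
  have hm2 : Measurable (fderiv ℝ (fderiv ℝ f)) := measurable_fderiv ℝ _
  have hm2' : Measurable fun t : E9 => ‖fderiv ℝ (fderiv ℝ f) t‖ₑ := by
    simp only [← ofReal_norm]
    exact hm2.norm.ennreal_ofReal
  have hh : Measurable fun y : Z8 => ∫⁻ t in Icc (-R) R, ‖fderiv ℝ (fderiv ℝ f) (t, y)‖ₑ :=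
    hm2'.lintegral_prod_left'
  have hnull : (volume : Measure E9) {t : E9 | t.1 = 0} = 0 := by
    have h1 : {t : E9 | t.1 = 0} = ({0} : Set ℝ) ×ˢ (univ : Set Z8) := by
      ext t; simp
    rw [h1, Measure.volume_eq_prod, Measure.prod_prod]
    simp
  have hae : ∀ᵐ t ∂((volume : Measure E9).restrict (Metric.closedBall (0 : E9) R)),
      ‖fderiv ℝ f t‖ₑ ≤
        1 + ∫⁻ r in Icc (-R) R, ‖fderiv ℝ (fderiv ℝ f) (r, t.2)‖ₑ := by
    rw [ae_restrict_iff' Metric.isClosed_closedBall.measurableSet]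
    have h1 : ∀ᵐ t ∂(volume : Measure E9), t.1 ≠ 0 := by
      rw [ae_iff]
      simpa using hnull
    filter_upwards [h1] with t ht1 ht2
    rw [hball] at ht2
    obtain ⟨ht3, ht4⟩ := ht2
    by_cases hy : s (Gi p s t.2) = 0
    · have h2 : ‖fderiv ℝ f t‖ₑ ≤ 1 := ff_int1_id (ff_near_K hp hs t.1 t.2 hy ht1)
      exact h2.trans le_self_add
    · exact ff_int1_key hp hs R hR t.1 t.2 hy ht3.1 ht3.2
  refine lt_of_le_of_lt (lintegral_mono_ae hae) ?_
  rw [lintegral_add_left measurable_const]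
  refine ENNReal.add_lt_top.mpr ⟨?_, ?_⟩
  · rw [lintegral_const, one_mul, Measure.restrict_apply_univ]
    exact Metric.isBounded_closedBall.measure_lt_top
  · have h2 := ff_int2 hp hs R
    rw [hball, Measure.volume_eq_prod, ← Measure.prod_restrict] at h2 ⊢
    rw [lintegral_prod_symm' _ hm2'] at h2
    rw [lintegral_prod_symm' _ (show Measurable fun t : E9 =>
      ∫⁻ r in Icc (-R) R, ‖fderiv ℝ (fderiv ℝ f) (r, t.2)‖ₑ from hh.comp measurable_snd)]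
    simp only [lintegral_const, Measure.restrict_apply_univ]
    rw [lintegral_mul_const _ hh]
    exact ENNReal.mul_lt_top h2 (by simp)

theorem ff_int1 (hp : PData p A) (hs : SData s m B) (R : ℝ) :
    ∫⁻ t in Metric.closedBall (0 : E9) R, ‖fderiv ℝ (ff p s m) t‖ₑ < ∞ :=
  lt_of_le_of_lt (lintegral_mono_set (Metric.closedBall_subset_closedBall (le_max_left R 1)))
    (ff_int1_big hp hs (max R 1) (le_max_right R 1))

end Pool.Agent.Wtw
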