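import Mathlib
import Pool.Agent.Wtw.Defs

/-!
# Ker: the kernel

`kk t = (max (1 - t^2) 0)^64`, continuous, so `K0` (primitive, normalised) is `C^1` with derivative
`k0 = kk / ∫ kk`; `x ↦ (max x 0)^64` is `C^2` with derivative `64 (max x 0)^63`, so `k0` is `C^1`, with
`k0' t = -128 t (max (1 - t^2) 0)^63 / ∫ kk`, hence `|k0'| <= C k0^(63/64)` (`|t| <= 1` on the support).
`k0_young`: if `k0 x >= s` then `k0^(63/64) = k0 k0^(-1/64) <= s^(-1/64) k0`, else `<= s^(63/64)`.
-/

namespace Pool.Agent.Wtw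

open MeasureTheory Set Filter Topology
open scoped ENNReal

noncomputable def k0 (x : ℝ) : ℝ := kk x / ∫ t in (-1 : ℝ)..1, kk t

private theorem Ker_pw (n : ℕ) (x : ℝ) :
    HasDerivAt (fun y : ℝ => (max y 0) ^ (n + 2)) (((n + 2 : ℕ) : ℝ) * (max x 0) ^ (n + 1)) x := by
  rcases lt_trichotomy x 0 with hx | hx | hx
  · have h1 : (fun y : ℝ => (max y 0) ^ (n + 2)) =ᶠ[𝓝 x] fun _ => (0 : ℝ) := by
      filter_upwards [Iio_mem_nhds hx] with y hy
      rw [max_eq_right (le_of_lt hy)]; simp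
    rw [max_eq_right hx.le]
    have h2 : HasDerivAt (fun _ : ℝ => (0 : ℝ)) 0 x := hasDerivAt_const x 0
    have h3 := h2.congr_of_eventuallyEq h1
    simpa using h3
  · subst hx
    have h0 : HasDerivAt (fun y : ℝ => (max y 0) ^ (n + 2)) 0 0 := by
      rw [hasDerivAt_iff_isLittleO_nhds_zero]
      have h2 : (fun h : ℝ => h ^ (n + 2)) =o[𝓝 0] fun h : ℝ => h := by
        have := Asymptotics.isLittleO_pow_id (𝕜 := ℝ) (n := n + 2) (by omega)
        exact this
      refine Asymptotics.IsBigO.trans_isLittleO ?_ h2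
      refine Asymptotics.IsBigO.of_bound 1 (Eventually.of_forall fun h => ?_)
      simp only [zero_add, max_self, smul_zero, sub_zero, one_mul]
      have e0 : ((0 : ℝ)) ^ (n + 2) = 0 := by simp
      rw [e0, sub_zero, norm_pow, norm_pow]
      apply pow_le_pow_left₀ (norm_nonneg _)
      rw [Real.norm_eq_abs, Real.norm_eq_abs, abs_of_nonneg (le_max_right _ _)]
      exact max_le (le_abs_self _) (abs_nonneg _)
    simpa using h0
  · have h1 : (fun y : ℝ => (max y 0) ^ (n + 2)) =ᶠ[𝓝 x] fun y => y ^ (n + 2) := by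
      filter_upwards [Ioi_mem_nhds hx] with y hy
      rw [max_eq_left (le_of_lt hy)]
    rw [max_eq_left hx.le]
    have h2 := hasDerivAt_pow (n + 2) x
    have h3 := h2.congr_of_eventuallyEq h1
    simpa using h3

private theorem Ker_kk_deriv (x : ℝ) :
    HasDerivAt kk (-128 * x * (max (1 - x ^ 2) 0) ^ 63) x := by
  have h1 := Ker_pw 62 (1 - x ^ 2)
  have h2 : HasDerivAt (fun t : ℝ => 1 - t ^ 2) (-(2 * x)) x := by
    have := (hasDerivAt_pow 2 x).const_sub 1
    simpa using this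
  have h3 := h1.comp x h2
  have h4 : (fun y : ℝ => (max y 0) ^ (62 + 2)) ∘ (fun t : ℝ => 1 - t ^ 2) = kk := by
    funext t; simp [kk]
  rw [h4] at h3
  have e1 : (((62 + 2 : ℕ) : ℝ)) * max (1 - x ^ 2) 0 ^ (62 + 1) * -(2 * x) =
      -128 * x * (max (1 - x ^ 2) 0) ^ 63 := by
    have e1 : (((62 + 2 : ℕ) : ℝ)) = 64 := by norm_num
    rw [e1]
    show 64 * (max (1 - x ^ 2) 0) ^ 63 * (-(2 * x)) = -128 * x * (max (1 - x ^ 2) 0) ^ 63
    generalize (max (1 - x ^ 2) 0) ^ 63 = W
    ring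
  rw [e1] at h3
  exact h3

private theorem Ker_kk_cont : Continuous kk := by
  unfold kk; fun_prop

private theorem Ker_kk_nonneg (x : ℝ) : 0 ≤ kk x := by
  unfold kk; positivity

private theorem Ker_kk_le (x : ℝ) : kk x ≤ 1 := by
  unfold kk
  apply pow_le_one₀ (le_max_right _ _)
  apply max_le
  · nlinarith [sq_nonneg x]
  · norm_num

private theorem Ker_kk_zero (x : ℝ) (hx : 1 ≤ |x|) : max (1 - x ^ 2) 0 = 0 := by
  apply max_eq_right
  have : 1 ≤ x ^ 2 := by
    rw [← sq_abs]; nlinarith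
  linarith

theorem kk_int_pos : 0 < ∫ t in (-1 : ℝ)..1, kk t := by
  apply intervalIntegral.intervalIntegral_pos_of_pos_on
  · exact Ker_kk_cont.intervalIntegrable _ _
  · intro x hx
    unfold kk
    have h1 : 0 < 1 - x ^ 2 := by nlinarith [hx.1, hx.2]
    have : 0 < max (1 - x ^ 2) 0 := lt_max_of_lt_left h1
    positivity
  · norm_num

private theorem Ker_k0_deriv (x : ℝ) :
    HasDerivAt k0 (-128 * x * (max (1 - x ^ 2) 0) ^ 63 / ∫ t in (-1 : ℝ)..1, kk t) x := by
  have := (Ker_kk_deriv x).div_const (∫ t in (-1 : ℝ)..1, kk t)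
  exact this

theorem K0_deriv (x : ℝ) : HasDerivAt K0 (k0 x) x := by
  have h1 : HasDerivAt (fun u => ∫ t in (-1 : ℝ)..u, kk t) (kk x) x :=
    intervalIntegral.integral_hasDerivAt_right (Ker_kk_cont.intervalIntegrable _ _)
      Ker_kk_cont.stronglyMeasurable.stronglyMeasurableAtFilter Ker_kk_cont.continuousAt
  exact h1.div_const _

theorem k0_smooth : ContDiff ℝ 1 k0 := by
  rw [contDiff_one_iff_deriv]
  refine ⟨fun x => (Ker_k0_deriv x).differentiableAt, ?_⟩
  have : deriv k0 = fun x => -128 * x * (max (1 - x ^ 2) 0) ^ 63 / ∫ t in (-1 : ℝ)..1, kk t := by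
    funext x; exact (Ker_k0_deriv x).deriv
  rw [this]
  fun_prop

theorem K0_smooth : ContDiff ℝ 2 K0 := by
  have h : ContDiff ℝ (1 + 1) K0 := by
    rw [contDiff_succ_iff_deriv]
    refine ⟨fun x => (K0_deriv x).differentiableAt, by simp, ?_⟩
    have : deriv K0 = k0 := by
      funext x; exact (K0_deriv x).deriv
    rw [this]
    exact k0_smooth
  have e : (1 + 1 : WithTop ℕ∞) = 2 := by norm_num
  rwa [e] at h

theorem k0_nonneg (x : ℝ) : 0 ≤ k0 x := div_nonneg (Ker_kk_nonneg x) kk_int_pos.le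

theorem k0_zero (x : ℝ) (hx : 1 ≤ |x|) : k0 x = 0 ∧ deriv k0 x = 0 := by
  constructor
  · unfold k0 kk
    rw [Ker_kk_zero x hx]; simp
  · rw [(Ker_k0_deriv x).deriv, Ker_kk_zero x hx]; simp

theorem K0_mono : Monotone K0 := by
  apply monotone_of_deriv_nonneg (fun x => (K0_deriv x).differentiableAt)
  intro x
  rw [(K0_deriv x).deriv]
  exact k0_nonneg x

theorem K0_left (x : ℝ) (hx : x ≤ -1) : K0 x = 0 := by
  unfold K0
  have : ∫ t in (-1 : ℝ)..x, kk t = 0 := by
    apply intervalIntegral.integral_zero_ae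
    refine Eventually.of_forall fun t ht => ?_
    rw [uIoc_of_ge hx] at ht
    unfold kk
    rw [Ker_kk_zero t]; · simp
    rw [abs_of_nonpos (by linarith [ht.2])]; linarith [ht.2]
  rw [this]; simp

theorem K0_right (x : ℝ) (hx : 1 ≤ x) : K0 x = 1 := by
  unfold K0
  have h1 : ∫ t in (-1 : ℝ)..x, kk t = (∫ t in (-1 : ℝ)..1, kk t) + ∫ t in (1 : ℝ)..x, kk t := by
    rw [intervalIntegral.integral_add_adjacent_intervals] <;>
      exact Ker_kk_cont.intervalIntegrable _ _
  have h2 : ∫ t in (1 : ℝ)..x, kk t = 0 := by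
    apply intervalIntegral.integral_zero_ae
    refine Eventually.of_forall fun t ht => ?_
    rw [uIoc_of_le hx] at ht
    unfold kk
    rw [Ker_kk_zero t]; · simp
    rw [abs_of_nonneg (by linarith [ht.1])]; linarith [ht.1]
  rw [h1, h2, add_zero]
  exact div_self kk_int_pos.ne'

theorem K0_mem (x : ℝ) : 0 ≤ K0 x ∧ K0 x ≤ 1 := by
  constructor
  · rw [← K0_left (min x (-1)) (min_le_right _ _)]
    exact K0_mono (min_le_left _ _)
  · rw [← K0_right (max x 1) (le_max_right _ _)]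
    exact K0_mono (le_max_left _ _)

theorem k0_young : ∃ C : ℝ, 0 < C ∧ (∀ x, k0 x ≤ C) ∧ ∀ x s : ℝ, 0 < s → s ≤ 1 →
    |deriv k0 x| ≤ C * (s ^ (-(1 / 64) : ℝ) * k0 x + s ^ (63 / 64 : ℝ)) := by
  set I : ℝ := ∫ t in (-1 : ℝ)..1, kk t with hI
  have hIpos : 0 < I := kk_int_pos
  refine ⟨128 + 128 / I, by positivity, ?_, ?_⟩
  · intro x
    have h1 : k0 x ≤ 1 / I := by
      unfold k0
      exact div_le_div_of_nonneg_right (Ker_kk_le x) hIpos.le
    have h2 : 1 / I ≤ 128 / I := div_le_div_of_nonneg_right (by norm_num) hIpos.le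
    linarith
  · intro x s hs hs1
    by_cases hx : 1 ≤ |x|
    · rw [(k0_zero x hx).2, (k0_zero x hx).1]
      simp only [abs_zero, mul_zero, zero_add]
      positivity
    · push Not at hx
      rw [(Ker_k0_deriv x).deriv]
      set w : ℝ := max (1 - x ^ 2) 0 with hw
      have hw0 : 0 ≤ w := le_max_right _ _
      have h1 : |-128 * x * w ^ 63 / I| ≤ 128 / I * w ^ 63 := by
        rw [abs_div, abs_mul, abs_mul, abs_of_pos hIpos, abs_of_nonneg (pow_nonneg hw0 63)]
        have : |(-128 : ℝ)| = 128 := by norm_num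
        rw [this]
        have h3 : 128 * |x| * w ^ 63 ≤ 128 * w ^ 63 := by
          have := pow_nonneg hw0 63
          nlinarith
        calc 128 * |x| * w ^ 63 / I ≤ 128 * w ^ 63 / I := div_le_div_of_nonneg_right h3 hIpos.le
          _ = 128 / I * w ^ 63 := by ring
      have hk : k0 x = w ^ 64 / I := rfl
      have h2 : w ^ 63 ≤ s ^ (-(1 / 64) : ℝ) * w ^ 64 + s ^ (63 / 64 : ℝ) := by
        set r : ℝ := s ^ (1 / 64 : ℝ) with hr
        have hrpos : 0 < r := Real.rpow_pos_of_pos hs _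
        have e1 : s ^ (-(1 / 64) : ℝ) = r⁻¹ := by rw [Real.rpow_neg hs.le]
        have e2 : s ^ (63 / 64 : ℝ) = r ^ 63 := by
          rw [hr, ← Real.rpow_natCast, ← Real.rpow_mul hs.le]; norm_num
        rw [e1, e2]
        rcases le_total r w with h | h
        · have hwpos : 0 < w := lt_of_lt_of_le hrpos h
          have : w ^ 63 ≤ r⁻¹ * w ^ 64 := by
            have : w ^ 64 = w * w ^ 63 := by ring
            rw [this, ← mul_assoc]
            have h4 : 1 ≤ r⁻¹ * w := by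
              rw [inv_mul_eq_div, le_div_iff₀ hrpos]; linarith
            have h5 := pow_pos hwpos 63
            nlinarith
          have h6 := pow_pos hrpos 63
          linarith
        · have h4 : w ^ 63 ≤ r ^ 63 := pow_le_pow_left₀ hw0 h 63
          have h5 : 0 ≤ r⁻¹ * w ^ 64 := mul_nonneg (inv_nonneg.2 hrpos.le) (pow_nonneg hw0 64)
          linarith
      have hS1 : 0 ≤ s ^ (-(1 / 64) : ℝ) := Real.rpow_nonneg hs.le _
      have hS2 : 0 ≤ s ^ (63 / 64 : ℝ) := Real.rpow_nonneg hs.le _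
      calc |-128 * x * w ^ 63 / I| ≤ 128 / I * w ^ 63 := h1
        _ ≤ 128 / I * (s ^ (-(1 / 64) : ℝ) * w ^ 64 + s ^ (63 / 64 : ℝ)) :=
            mul_le_mul_of_nonneg_left h2 (by positivity)
        _ = 128 * (s ^ (-(1 / 64) : ℝ) * (w ^ 64 / I)) + 128 / I * s ^ (63 / 64 : ℝ) := by
            field_simp
        _ ≤ (128 + 128 / I) * (s ^ (-(1 / 64) : ℝ) * (w ^ 64 / I) + s ^ (63 / 64 : ℝ)) := by
            have h7 : 0 ≤ s ^ (-(1 / 64) : ℝ) * (w ^ 64 / I) :=
              mul_nonneg hS1 (div_nonneg (pow_nonneg hw0 64) hIpos.le)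
            have h8 : 0 ≤ 128 / I := by positivity
            nlinarith [mul_nonneg h8 h7]
        _ = _ := by rw [hk]

end Pool.Agent.Wtw
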