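import Mathlib

/-!
# ParamInt: an integral over a compact space of C^2 functions with jointly continuous derivatives is C^2

For `x0` in `U` the derivative `(ω, x) ↦ f1 ω x` is bounded for `ω` in the compact space and `x` near `x0`
(tube lemma: compactness of `Ω x {x0}`), so `hasFDerivAt_integral_of_dominated_of_fderiv_le` applies to
`f` and to `f1 = fderiv f`; continuity of the second derivative: `continuousAt_of_dominated`.
-/

set_option linter.unusedSectionVars false

namespace Pool.Agent.Wtw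

open MeasureTheory Set Filter Topology
open scoped ENNReal

variable {Ω E F : Type*} [TopologicalSpace Ω] [CompactSpace Ω] [SecondCountableTopology Ω]
  [MeasurableSpace Ω] [OpensMeasurableSpace Ω] [NormedAddCommGroup E] [NormedSpace ℝ E]
  [NormedAddCommGroup F] [NormedSpace ℝ F] [CompleteSpace F]

/-- a continuous function on a compact space is integrable -/
theorem cont_int (P : Measure Ω) [IsFiniteMeasure P] (f : Ω → F) (hf : Continuous f) :
    Integrable f P := by
  obtain ⟨C, hC⟩ := isCompact_univ.exists_bound_of_continuousOn (f := f) hf.continuousOn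
  exact Integrable.of_bound hf.aestronglyMeasurable C (Eventually.of_forall fun ω => hC ω (mem_univ ω))

private theorem PI_at {U : Set E} (hU : IsOpen U) {g : Ω → E → F}
    (h : ContinuousOn (fun p : Ω × E => g p.1 p.2) (univ ×ˢ U)) {x : E} (hx : x ∈ U) (ω : Ω) :
    ContinuousAt (fun p : Ω × E => g p.1 p.2) (ω, x) :=
  h.continuousAt ((isOpen_univ.prod hU).mem_nhds ⟨mem_univ _, hx⟩)

private theorem PI_contΩ {U : Set E} (hU : IsOpen U) {g : Ω → E → F}
    (h : ContinuousOn (fun p : Ω × E => g p.1 p.2) (univ ×ˢ U)) {x : E} (hx : x ∈ U) :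
    Continuous fun ω => g ω x := by
  rw [continuous_iff_continuousAt]
  intro ω
  exact (PI_at hU h hx ω).comp (f := fun ω : Ω => (ω, x))
    (Continuous.prodMk continuous_id continuous_const).continuousAt

private theorem PI_bound {U : Set E} (hU : IsOpen U) {g : Ω → E → F}
    (h : ContinuousOn (fun p : Ω × E => g p.1 p.2) (univ ×ˢ U)) {x : E} (hx : x ∈ U) :
    ∃ C : ℝ, ∀ᶠ y in 𝓝 x, ∀ ω, ‖g ω y‖ ≤ C := by
  obtain ⟨C, hC⟩ := isCompact_univ.exists_bound_of_continuousOn (f := fun ω => g ω x)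
    (PI_contΩ hU h hx).continuousOn
  refine ⟨C + 1, ?_⟩
  have key := (isCompact_univ (X := Ω)).eventually_forall_of_forall_eventually (x₀ := x)
    (P := fun y ω => ‖g ω y‖ ≤ C + 1) (fun ω _ => by
      have h1 : ContinuousAt (fun p : E × Ω => g p.2 p.1) (x, ω) :=
        ContinuousAt.comp (f := Prod.swap) (g := fun p : Ω × E => g p.1 p.2)
          (x := (x, ω)) (PI_at hU h hx ω) continuous_swap.continuousAt
      have h2 : ‖g ω x‖ < C + 1 := lt_of_le_of_lt (hC ω (mem_univ _)) (lt_add_one C)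
      have h3 := h1.norm.eventually (gt_mem_nhds h2)
      filter_upwards [h3] with p hp using hp.le)
  filter_upwards [key] with y hy ω using hy ω (mem_univ _)

private theorem PI_cont (P : Measure Ω) [IsFiniteMeasure P] {U : Set E} (hU : IsOpen U)
    {g : Ω → E → F} (h : ContinuousOn (fun p : Ω × E => g p.1 p.2) (univ ×ˢ U)) :
    ContinuousOn (fun x => ∫ ω, g ω x ∂P) U := by
  intro x hx
  apply ContinuousAt.continuousWithinAt
  obtain ⟨C, hC⟩ := PI_bound hU h hx
  refine continuousAt_of_dominated (bound := fun _ => C) ?_ ?_ (integrable_const C) ?_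
  · filter_upwards [hU.mem_nhds hx] with y hy
    exact (PI_contΩ hU h hy).aestronglyMeasurable
  · filter_upwards [hC] with y hy
    exact Eventually.of_forall hy
  · refine Eventually.of_forall fun ω => ?_
    exact (PI_at hU h hx ω).comp (f := fun y : E => (ω, y))
      (Continuous.prodMk continuous_const continuous_id).continuousAt

private theorem PI_deriv (P : Measure Ω) [IsFiniteMeasure P] {U : Set E} (hU : IsOpen U)
    {g : Ω → E → F} (hg : ∀ ω, ∀ x ∈ U, DifferentiableAt ℝ (g ω) x)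
    (h0 : ContinuousOn (fun p : Ω × E => g p.1 p.2) (univ ×ˢ U))
    (h1 : ContinuousOn (fun p : Ω × E => fderiv ℝ (g p.1) p.2) (univ ×ˢ U)) {x : E} (hx : x ∈ U) :
    HasFDerivAt (fun x => ∫ ω, g ω x ∂P) (∫ ω, fderiv ℝ (g ω) x ∂P) x := by
  obtain ⟨C, hC⟩ := PI_bound (g := fun ω x => fderiv ℝ (g ω) x) hU h1 hx
  refine hasFDerivAt_integral_of_dominated_of_fderiv_le (𝕜 := ℝ) (F := fun x ω => g ω x)
    (F' := fun x ω => fderiv ℝ (g ω) x) (bound := fun _ => C)
    (s := {y | (∀ ω, ‖fderiv ℝ (g ω) y‖ ≤ C) ∧ y ∈ U}) (inter_mem hC (hU.mem_nhds hx)) ?_ ?_ ?_ ?_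
    (integrable_const C) ?_
  · filter_upwards [hU.mem_nhds hx] with y hy
    exact (PI_contΩ hU h0 hy).aestronglyMeasurable
  · exact cont_int P _ (PI_contΩ hU h0 hx)
  · exact (PI_contΩ (g := fun ω x => fderiv ℝ (g ω) x) hU h1 hx).aestronglyMeasurable
  · exact Eventually.of_forall fun ω y hy => hy.1 ω
  · exact Eventually.of_forall fun ω y hy => (hg ω y hy.2).hasFDerivAt

theorem param_C2 (P : Measure Ω) [IsFiniteMeasure P] (U : Set E) (hU : IsOpen U) (f : Ω → E → F)
    (hf : ∀ ω, ContDiffOn ℝ 2 (f ω) U)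
    (h0 : ContinuousOn (fun p : Ω × E => f p.1 p.2) (univ ×ˢ U))
    (h1 : ContinuousOn (fun p : Ω × E => fderiv ℝ (f p.1) p.2) (univ ×ˢ U))
    (h2 : ContinuousOn (fun p : Ω × E => fderiv ℝ (fderiv ℝ (f p.1)) p.2) (univ ×ˢ U)) :
    ContDiffOn ℝ 2 (fun x => ∫ ω, f ω x ∂P) U ∧
    (∀ x ∈ U, ∀ v, fderiv ℝ (fun x => ∫ ω, f ω x ∂P) x v = ∫ ω, fderiv ℝ (f ω) x v ∂P) ∧
    ∀ x ∈ U, ∀ v w, fderiv ℝ (fderiv ℝ fun x => ∫ ω, f ω x ∂P) x v w =
      ∫ ω, fderiv ℝ (fderiv ℝ (f ω)) x v w ∂P := by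
  have hd0 : ∀ ω, ∀ x ∈ U, DifferentiableAt ℝ (f ω) x := fun ω x hx =>
    ((hf ω).contDiffAt (hU.mem_nhds hx)).differentiableAt (by norm_num)
  have hd1 : ∀ ω, ∀ x ∈ U, DifferentiableAt ℝ (fderiv ℝ (f ω)) x := fun ω x hx =>
    (((hf ω).contDiffAt (hU.mem_nhds hx)).fderiv_right (m := 1) (by norm_num)).differentiableAt
      (by norm_num)
  have D0 : ∀ x ∈ U, HasFDerivAt (fun x => ∫ ω, f ω x ∂P) (∫ ω, fderiv ℝ (f ω) x ∂P) x :=
    fun x hx => PI_deriv P hU hd0 h0 h1 hx
  have D1 : ∀ x ∈ U, HasFDerivAt (fun x => ∫ ω, fderiv ℝ (f ω) x ∂P)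
      (∫ ω, fderiv ℝ (fderiv ℝ (f ω)) x ∂P) x :=
    fun x hx => PI_deriv (g := fun ω x => fderiv ℝ (f ω) x) P hU hd1 h1 h2 hx
  have C2 : ContinuousOn (fun x => ∫ ω, fderiv ℝ (fderiv ℝ (f ω)) x ∂P) U :=
    PI_cont (g := fun ω x => fderiv ℝ (fderiv ℝ (f ω)) x) P hU h2
  have E0 : ∀ x ∈ U, fderiv ℝ (fun x => ∫ ω, f ω x ∂P) x = ∫ ω, fderiv ℝ (f ω) x ∂P :=
    fun x hx => (D0 x hx).fderiv
  have E1 : ∀ x ∈ U, fderiv ℝ (fderiv ℝ fun x => ∫ ω, f ω x ∂P) x =
      ∫ ω, fderiv ℝ (fderiv ℝ (f ω)) x ∂P := by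
    intro x hx
    have h3 : (fderiv ℝ fun x => ∫ ω, f ω x ∂P) =ᶠ[𝓝 x] fun x => ∫ ω, fderiv ℝ (f ω) x ∂P := by
      filter_upwards [hU.mem_nhds hx] with y hy using E0 y hy
    rw [h3.fderiv_eq, (D1 x hx).fderiv]
  refine ⟨?_, ?_, ?_⟩
  · have h3 : ContDiffOn ℝ (1 + 1) (fun x => ∫ ω, f ω x ∂P) U := by
      rw [contDiffOn_succ_iff_fderiv_of_isOpen hU]
      refine ⟨fun x hx => (D0 x hx).differentiableAt.differentiableWithinAt, by simp, ?_⟩
      have h4 : ContDiffOn ℝ (0 + 1) (fderiv ℝ fun x => ∫ ω, f ω x ∂P) U := by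
        rw [contDiffOn_succ_iff_fderiv_of_isOpen hU]
        refine ⟨?_, by simp, ?_⟩
        · intro x hx
          apply DifferentiableAt.differentiableWithinAt
          have h5 : (fderiv ℝ fun x => ∫ ω, f ω x ∂P) =ᶠ[𝓝 x]
              fun x => ∫ ω, fderiv ℝ (f ω) x ∂P := by
            filter_upwards [hU.mem_nhds hx] with y hy using E0 y hy
          exact h5.symm.differentiableAt_iff.1 (D1 x hx).differentiableAt
        · rw [contDiffOn_zero]
          exact C2.congr fun x hx => E1 x hx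
      simpa using h4
    have e : (1 + 1 : WithTop ℕ∞) = 2 := by norm_num
    rw [e] at h3
    exact h3
  · intro x hx v
    rw [E0 x hx, ContinuousLinearMap.integral_apply]
    exact cont_int P _ (PI_contΩ (g := fun ω x => fderiv ℝ (f ω) x) hU h1 hx)
  · intro x hx v w
    have c2 := PI_contΩ (g := fun ω x => fderiv ℝ (fderiv ℝ (f ω)) x) hU h2 hx
    rw [E1 x hx, ContinuousLinearMap.integral_apply (cont_int P _ c2),
      ContinuousLinearMap.integral_apply]
    exact cont_int P _ (c2.clm_apply continuous_const)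

end Pool.Agent.Wtw
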