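import Mathlib
import Pool.Agent.Wtw.Ker
import Pool.Agent.Wtw.Dig3
import Pool.Agent.Wtw.ParamInt
import Pool.Agent.Wtw.Chain2
import Pool.Agent.Wtw.Abs

/-!
# PpSm: smoothness and derivatives of `pp` for `s > 0`

`pp z s = z + ∫ K0 ((z - beta x)/s) dPD`. `param_C2` with `Ω = Dg`, `U = {s > 0}`,
`f x (z,s) = K0 ((z - beta x)/s)` (jointly continuous derivatives: `beta` is continuous).
With `t = (z - β)/s`: `Dt a = (a.1 - t a.2)/s`, `D^2t a b = (-a.1 b.2 - a.2 b.1 + 2 t a.2 b.2)/s^2`, so on the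
support `|t| <= 1`: `|D^2 (K0 t) a b| <= (4 |k0' t| + 4 k0 t) |a||b| / s^2`, and it vanishes for `|t| >= 1`.
-/

namespace Pool.Agent.Wtw

open MeasureTheory Set Filter Topology
open scoped ENNReal

/-- the argument of the kernel -/
noncomputable def PpSm_T (b : ℝ) (p : ℝ × ℝ) : ℝ := (p.1 - b) / p.2

/-- first derivative of the argument -/
noncomputable def PpSm_A (t s : ℝ) : ℝ × ℝ →L[ℝ] ℝ :=
  (1 / s) • (ContinuousLinearMap.fst ℝ ℝ ℝ - t • ContinuousLinearMap.snd ℝ ℝ ℝ)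

theorem PpSm_A_apply (t s : ℝ) (a : ℝ × ℝ) : PpSm_A t s a = (a.1 - t * a.2) / s := by
  simp [PpSm_A]; ring

theorem PpSm_T_hasFDerivAt (b : ℝ) (p : ℝ × ℝ) (hp : p.2 ≠ 0) :
    HasFDerivAt (PpSm_T b) (PpSm_A (PpSm_T b p) p.2) p := by
  have h1 : HasFDerivAt (fun p : ℝ × ℝ => p.1 - b) (ContinuousLinearMap.fst ℝ ℝ ℝ) p :=
    (hasFDerivAt_fst).sub_const b
  have h2 : HasFDerivAt (fun p : ℝ × ℝ => p.2) (ContinuousLinearMap.snd ℝ ℝ ℝ) p := hasFDerivAt_snd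
  have h3 := h1.mul ((hasDerivAt_inv hp).comp_hasFDerivAt p h2)
  refine (h3.congr_fderiv ?_).congr_of_eventuallyEq ?_
  · ext a
    · simp [PpSm_A, PpSm_T]
    · simp [PpSm_A, PpSm_T]
      field_simp
  · exact Filter.Eventually.of_forall fun q => div_eq_mul_inv _ _

theorem PpSm_T_smooth (b : ℝ) (p : ℝ × ℝ) (hp : p.2 ≠ 0) : ContDiffAt ℝ 2 (PpSm_T b) p := by
  unfold PpSm_T
  exact (contDiffAt_fst.sub contDiffAt_const).div contDiffAt_snd hp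

theorem PpSm_isOpen : IsOpen {p : ℝ × ℝ | 0 < p.2} := isOpen_lt continuous_const continuous_snd

theorem PpSm_T_fderiv2 (b : ℝ) (p : ℝ × ℝ) (hp : 0 < p.2) (v w : ℝ × ℝ) :
    fderiv ℝ (fderiv ℝ (PpSm_T b)) p v w =
      (-(v.1 * w.2) - v.2 * w.1 + 2 * PpSm_T b p * (v.2 * w.2)) / p.2 ^ 2 := by
  have hd : DifferentiableAt ℝ (fderiv ℝ (PpSm_T b)) p := by
    have := (PpSm_T_smooth b p hp.ne').fderiv_right (m := 1) (by norm_num)
    exact this.differentiableAt (by norm_num)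
  have h1 : fderiv ℝ (fun q => fderiv ℝ (PpSm_T b) q w) p v = fderiv ℝ (fderiv ℝ (PpSm_T b)) p v w := by
    rw [fderiv_clm_apply hd (differentiableAt_const w)]
    simp
  rw [← h1]
  have h2 : (fun q => fderiv ℝ (PpSm_T b) q w) =ᶠ[𝓝 p]
      fun q => (w.1 - PpSm_T b q * w.2) / q.2 := by
    filter_upwards [PpSm_isOpen.mem_nhds hp] with q hq
    have hq' : 0 < q.2 := hq
    rw [(PpSm_T_hasFDerivAt b q hq'.ne').fderiv, PpSm_A_apply]
  rw [h2.fderiv_eq]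
  have h3 : HasFDerivAt (fun q : ℝ × ℝ => w.1 - PpSm_T b q * w.2)
      (-(w.2 • PpSm_A (PpSm_T b p) p.2)) p := by
    have := ((PpSm_T_hasFDerivAt b p hp.ne').mul_const w.2).const_sub w.1
    exact this
  have h4 : HasFDerivAt (fun p : ℝ × ℝ => p.2) (ContinuousLinearMap.snd ℝ ℝ ℝ) p := hasFDerivAt_snd
  have h5 := h3.mul ((hasDerivAt_inv hp.ne').comp_hasFDerivAt p h4)
  have h6 : (fun q : ℝ × ℝ => (w.1 - PpSm_T b q * w.2) / q.2) =ᶠ[𝓝 p]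
      (fun q : ℝ × ℝ => w.1 - PpSm_T b q * w.2) * ((fun y : ℝ => y⁻¹) ∘ fun q : ℝ × ℝ => q.2) :=
    Filter.Eventually.of_forall fun q => div_eq_mul_inv _ _
  rw [h6.fderiv_eq, h5.fderiv]
  simp [PpSm_A_apply]
  have : p.2 ≠ 0 := hp.ne'
  field_simp
  ring

theorem PpSm_deriv_K0 : deriv K0 = k0 := funext fun x => (K0_deriv x).deriv

/-- the integrand -/
noncomputable def PpSm_f (b : ℝ) (p : ℝ × ℝ) : ℝ := K0 (PpSm_T b p)

theorem PpSm_f_smooth (b : ℝ) (p : ℝ × ℝ) (hp : p.2 ≠ 0) : ContDiffAt ℝ 2 (PpSm_f b) p :=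
  K0_smooth.contDiffAt.comp p (PpSm_T_smooth b p hp)

theorem PpSm_f_fderiv (b : ℝ) (p : ℝ × ℝ) (hp : p.2 ≠ 0) :
    fderiv ℝ (PpSm_f b) p = k0 (PpSm_T b p) • PpSm_A (PpSm_T b p) p.2 := by
  have h := (K0_deriv (PpSm_T b p)).comp_hasFDerivAt p (PpSm_T_hasFDerivAt b p hp)
  exact h.fderiv

theorem PpSm_f_fderiv2 (b : ℝ) (p : ℝ × ℝ) (hp : 0 < p.2) (v w : ℝ × ℝ) :
    fderiv ℝ (fderiv ℝ (PpSm_f b)) p v w =
      deriv k0 (PpSm_T b p) * ((v.1 - PpSm_T b p * v.2) / p.2) * ((w.1 - PpSm_T b p * w.2) / p.2) +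
      k0 (PpSm_T b p) *
        ((-(v.1 * w.2) - v.2 * w.1 + 2 * PpSm_T b p * (v.2 * w.2)) / p.2 ^ 2) := by
  have h := fderiv2_real (φ := K0) (h := PpSm_T b) (x := p) K0_smooth.contDiffAt
    (PpSm_T_smooth b p hp.ne') v w
  rw [PpSm_deriv_K0, PpSm_T_fderiv2 b p hp, (PpSm_T_hasFDerivAt b p hp.ne').fderiv, PpSm_A_apply,
    PpSm_A_apply] at h
  exact h

noncomputable def PpSm_FF : ℝ × ℝ →L[ℝ] ℝ × ℝ →L[ℝ] ℝ :=
  (ContinuousLinearMap.fst ℝ ℝ ℝ).smulRight (ContinuousLinearMap.fst ℝ ℝ ℝ)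
noncomputable def PpSm_FS : ℝ × ℝ →L[ℝ] ℝ × ℝ →L[ℝ] ℝ :=
  (ContinuousLinearMap.fst ℝ ℝ ℝ).smulRight (ContinuousLinearMap.snd ℝ ℝ ℝ)
noncomputable def PpSm_SF : ℝ × ℝ →L[ℝ] ℝ × ℝ →L[ℝ] ℝ :=
  (ContinuousLinearMap.snd ℝ ℝ ℝ).smulRight (ContinuousLinearMap.fst ℝ ℝ ℝ)
noncomputable def PpSm_SS : ℝ × ℝ →L[ℝ] ℝ × ℝ →L[ℝ] ℝ :=
  (ContinuousLinearMap.snd ℝ ℝ ℝ).smulRight (ContinuousLinearMap.snd ℝ ℝ ℝ)

theorem PpSm_f_fderiv2' (b : ℝ) (p : ℝ × ℝ) (hp : 0 < p.2) :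
    fderiv ℝ (fderiv ℝ (PpSm_f b)) p =
      (deriv k0 (PpSm_T b p) / p.2 ^ 2) • PpSm_FF +
      ((-(PpSm_T b p * deriv k0 (PpSm_T b p)) - k0 (PpSm_T b p)) / p.2 ^ 2) • PpSm_FS +
      ((-(PpSm_T b p * deriv k0 (PpSm_T b p)) - k0 (PpSm_T b p)) / p.2 ^ 2) • PpSm_SF +
      ((PpSm_T b p ^ 2 * deriv k0 (PpSm_T b p) + 2 * PpSm_T b p * k0 (PpSm_T b p)) / p.2 ^ 2) •
        PpSm_SS := by
  refine ContinuousLinearMap.ext fun v => ContinuousLinearMap.ext fun w => ?_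
  rw [PpSm_f_fderiv2 b p hp v w]
  simp [PpSm_FF, PpSm_FS, PpSm_SF, PpSm_SS]
  have : p.2 ≠ 0 := hp.ne'
  field_simp
  ring

theorem PpSm_T_cont : ContinuousOn (fun q : Dg × (ℝ × ℝ) => PpSm_T (beta q.1) q.2)
    (univ ×ˢ {p : ℝ × ℝ | 0 < p.2}) := by
  unfold PpSm_T
  apply ContinuousOn.div
  · exact ((continuous_fst.comp continuous_snd).sub (beta_cont.comp continuous_fst)).continuousOn
  · exact (continuous_snd.comp continuous_snd).continuousOn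
  · rintro q ⟨_, hq⟩
    have : 0 < q.2.2 := hq
    exact this.ne'

theorem PpSm_s_cont : ContinuousOn (fun q : Dg × (ℝ × ℝ) => q.2.2)
    (univ ×ˢ {p : ℝ × ℝ | 0 < p.2}) :=
  (continuous_snd.comp continuous_snd).continuousOn

theorem PpSm_k0_cont : Continuous k0 := k0_smooth.continuous

theorem PpSm_dk0_cont : Continuous (deriv k0) := k0_smooth.continuous_deriv (by norm_num)

theorem PpSm_s_ne {q : Dg × (ℝ × ℝ)} (hq : q ∈ (univ : Set Dg) ×ˢ {p : ℝ × ℝ | 0 < p.2}) :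
    q.2.2 ≠ 0 := by
  have : 0 < q.2.2 := hq.2
  exact this.ne'

theorem PpSm_param : ContDiffOn ℝ 2 (fun p => ∫ x, PpSm_f (beta x) p ∂PD) {p : ℝ × ℝ | 0 < p.2} ∧
    (∀ p ∈ {p : ℝ × ℝ | 0 < p.2}, ∀ v, fderiv ℝ (fun p => ∫ x, PpSm_f (beta x) p ∂PD) p v =
      ∫ x, fderiv ℝ (PpSm_f (beta x)) p v ∂PD) ∧
    ∀ p ∈ {p : ℝ × ℝ | 0 < p.2}, ∀ v w,
      fderiv ℝ (fderiv ℝ fun p => ∫ x, PpSm_f (beta x) p ∂PD) p v w =
      ∫ x, fderiv ℝ (fderiv ℝ (PpSm_f (beta x))) p v w ∂PD := by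
  apply param_C2 PD _ PpSm_isOpen (fun x p => PpSm_f (beta x) p)
  · intro x p hp
    have hp' : 0 < p.2 := hp
    exact (PpSm_f_smooth (beta x) p hp'.ne').contDiffWithinAt
  · exact K0_smooth.continuous.comp_continuousOn PpSm_T_cont
  · have : EqOn (fun q : Dg × (ℝ × ℝ) => fderiv ℝ (PpSm_f (beta q.1)) q.2)
        (fun q => k0 (PpSm_T (beta q.1) q.2) • PpSm_A (PpSm_T (beta q.1) q.2) q.2.2)
        (univ ×ˢ {p : ℝ × ℝ | 0 < p.2}) := by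
      intro q hq
      exact PpSm_f_fderiv (beta q.1) q.2 (PpSm_s_ne hq)
    refine ContinuousOn.congr ?_ this
    have hA : ContinuousOn (fun q : Dg × (ℝ × ℝ) => PpSm_A (PpSm_T (beta q.1) q.2) q.2.2)
        (univ ×ˢ {p : ℝ × ℝ | 0 < p.2}) := by
      unfold PpSm_A
      exact (continuousOn_const.div PpSm_s_cont (fun q hq => PpSm_s_ne hq)).smul
        (continuousOn_const.sub (PpSm_T_cont.smul continuousOn_const))
    exact (PpSm_k0_cont.comp_continuousOn PpSm_T_cont).smul hA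
  · have : EqOn (fun q : Dg × (ℝ × ℝ) => fderiv ℝ (fderiv ℝ (PpSm_f (beta q.1))) q.2)
        _ (univ ×ˢ {p : ℝ × ℝ | 0 < p.2}) :=
      fun q hq => PpSm_f_fderiv2' (beta q.1) q.2 hq.2
    refine ContinuousOn.congr ?_ this
    have hk := PpSm_k0_cont.comp_continuousOn PpSm_T_cont
    have hdk := PpSm_dk0_cont.comp_continuousOn PpSm_T_cont
    have hs2 : ContinuousOn (fun q : Dg × (ℝ × ℝ) => q.2.2 ^ 2)
      (univ ×ˢ {p : ℝ × ℝ | 0 < p.2}) := PpSm_s_cont.pow 2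
    have hs2' : ∀ q ∈ (univ : Set Dg) ×ˢ {p : ℝ × ℝ | 0 < p.2}, q.2.2 ^ 2 ≠ 0 :=
      fun q hq => pow_ne_zero 2 (PpSm_s_ne hq)
    have hT := PpSm_T_cont
    refine ContinuousOn.add (ContinuousOn.add (ContinuousOn.add ?_ ?_) ?_) ?_
    · exact (hdk.div hs2 hs2').smul continuousOn_const
    · exact ((((hT.mul hdk).neg).sub hk).div hs2 hs2').smul continuousOn_const
    · exact ((((hT.mul hdk).neg).sub hk).div hs2 hs2').smul continuousOn_const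
    · exact ((((hT.pow 2).mul hdk).add ((continuousOn_const.mul hT).mul hk)).div hs2 hs2').smul
        continuousOn_const

theorem PpSm_eq (z s : ℝ) (hs : 0 < s) :
    PP pp =ᶠ[𝓝 (z, s)] fun p => p.1 + ∫ x, PpSm_f (beta x) p ∂PD := by
  filter_upwards [PpSm_isOpen.mem_nhds (show (z, s) ∈ {p : ℝ × ℝ | 0 < p.2} from hs)] with p hp
  have hp' : 0 < p.2 := hp
  simp only [PP, pp, PpSm_f, PpSm_T]
  rw [if_pos hp']

theorem PpSm_int_smooth (z s : ℝ) (hs : 0 < s) :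
    ContDiffAt ℝ 2 (fun p => ∫ x, PpSm_f (beta x) p ∂PD) (z, s) :=
  PpSm_param.1.contDiffAt (PpSm_isOpen.mem_nhds hs)

theorem pp_smooth (z s : ℝ) (hs : 0 < s) : ContDiffAt ℝ 2 (PP pp) (z, s) := by
  refine ContDiffAt.congr_of_eventuallyEq ?_ (PpSm_eq z s hs)
  exact contDiffAt_fst.add (PpSm_int_smooth z s hs)

theorem PpSm_fderiv (z s : ℝ) (hs : 0 < s) (v : ℝ × ℝ) :
    fderiv ℝ (PP pp) (z, s) v = v.1 + ∫ x, k0 ((z - beta x) / s) *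
      ((v.1 - (z - beta x) / s * v.2) / s) ∂PD := by
  rw [(PpSm_eq z s hs).fderiv_eq]
  rw [fderiv_fun_add differentiableAt_fst ((PpSm_int_smooth z s hs).differentiableAt (by norm_num))]
  rw [ContinuousLinearMap.add_apply, PpSm_param.2.1 (z, s) hs v]
  congr 1
  · rw [fderiv_fst]; rfl
  · apply integral_congr_ae
    filter_upwards with x
    rw [PpSm_f_fderiv (beta x) (z, s) hs.ne']
    rw [ContinuousLinearMap.smul_apply, PpSm_A_apply]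
    rfl

theorem pp_pz (z s : ℝ) (hs : 0 < s) :
    pz pp z s = 1 + (1 / s) * ∫ x, k0 ((z - beta x) / s) ∂PD := by
  unfold pz
  rw [PpSm_fderiv z s hs]
  rw [← integral_const_mul]
  congr 1
  apply integral_congr_ae
  filter_upwards with x
  simp
  ring

theorem pp_ps (z s : ℝ) (hs : 0 < s) :
    ps pp z s = -(1 / s) * ∫ x, (z - beta x) / s * k0 ((z - beta x) / s) ∂PD := by
  unfold ps
  rw [PpSm_fderiv z s hs]
  rw [← integral_const_mul]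
  simp only [zero_add]
  apply integral_congr_ae
  filter_upwards with x
  simp
  ring

theorem PpSm_bound (b : ℝ) (p : ℝ × ℝ) (hp : 0 < p.2) (v w : ℝ × ℝ) :
    |fderiv ℝ (fderiv ℝ (PpSm_f b)) p v w| ≤
      4 / p.2 ^ 2 * (k0 (PpSm_T b p) + |deriv k0 (PpSm_T b p)|) * ‖v‖ * ‖w‖ := by
  rw [PpSm_f_fderiv2 b p hp v w]
  set t := PpSm_T b p with ht
  rcases le_or_gt 1 |t| with h | h
  · obtain ⟨h1, h2⟩ := k0_zero t h
    rw [h1, h2]; simp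
  · have hk := k0_nonneg t
    have hv1 : |v.1| ≤ ‖v‖ := norm_fst_le v
    have hv2 : |v.2| ≤ ‖v‖ := norm_snd_le v
    have hw1 : |w.1| ≤ ‖w‖ := norm_fst_le w
    have hw2 : |w.2| ≤ ‖w‖ := norm_snd_le w
    have hV := norm_nonneg v
    have hW := norm_nonneg w
    have hs2 : 0 < p.2 ^ 2 := by positivity
    have e1 : |v.1 - t * v.2| ≤ 2 * ‖v‖ := by
      calc |v.1 - t * v.2| ≤ |v.1| + |t * v.2| := abs_sub _ _
        _ ≤ ‖v‖ + 1 * ‖v‖ := by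
          rw [abs_mul]
          exact add_le_add hv1 (mul_le_mul h.le hv2 (abs_nonneg _) zero_le_one)
        _ = 2 * ‖v‖ := by ring
    have e2 : |w.1 - t * w.2| ≤ 2 * ‖w‖ := by
      calc |w.1 - t * w.2| ≤ |w.1| + |t * w.2| := abs_sub _ _
        _ ≤ ‖w‖ + 1 * ‖w‖ := by
          rw [abs_mul]
          exact add_le_add hw1 (mul_le_mul h.le hw2 (abs_nonneg _) zero_le_one)
        _ = 2 * ‖w‖ := by ring
    have e3 : |-(v.1 * w.2) - v.2 * w.1 + 2 * t * (v.2 * w.2)| ≤ 4 * (‖v‖ * ‖w‖) := by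
      have a1 : |v.1 * w.2| ≤ ‖v‖ * ‖w‖ := by
        rw [abs_mul]; exact mul_le_mul hv1 hw2 (abs_nonneg _) hV
      have a2 : |v.2 * w.1| ≤ ‖v‖ * ‖w‖ := by
        rw [abs_mul]; exact mul_le_mul hv2 hw1 (abs_nonneg _) hV
      have a3 : |t * (v.2 * w.2)| ≤ ‖v‖ * ‖w‖ := by
        rw [abs_mul, abs_mul]
        calc |t| * (|v.2| * |w.2|) ≤ 1 * (‖v‖ * ‖w‖) :=
              mul_le_mul h.le (mul_le_mul hv2 hw2 (abs_nonneg _) hV)
                (by positivity) zero_le_one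
          _ = _ := one_mul _
      rw [abs_le] at a1 a2 a3 ⊢
      constructor <;> nlinarith [a1.1, a1.2, a2.1, a2.2, a3.1, a3.2]
    have e4 : |deriv k0 t * ((v.1 - t * v.2) / p.2) * ((w.1 - t * w.2) / p.2)| ≤
        4 / p.2 ^ 2 * |deriv k0 t| * ‖v‖ * ‖w‖ := by
      have : deriv k0 t * ((v.1 - t * v.2) / p.2) * ((w.1 - t * w.2) / p.2) =
          deriv k0 t * ((v.1 - t * v.2) * (w.1 - t * w.2)) / p.2 ^ 2 := by
        field_simp
      rw [this, abs_div, abs_mul, abs_mul, abs_of_pos hs2, div_le_iff₀ hs2]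
      have : |v.1 - t * v.2| * |w.1 - t * w.2| ≤ (2 * ‖v‖) * (2 * ‖w‖) :=
        mul_le_mul e1 e2 (abs_nonneg _) (by positivity)
      calc |deriv k0 t| * (|v.1 - t * v.2| * |w.1 - t * w.2|)
          ≤ |deriv k0 t| * ((2 * ‖v‖) * (2 * ‖w‖)) :=
            mul_le_mul_of_nonneg_left this (abs_nonneg _)
        _ = 4 / p.2 ^ 2 * |deriv k0 t| * ‖v‖ * ‖w‖ * p.2 ^ 2 := by field_simp; ring
    have e5 : |k0 t * ((-(v.1 * w.2) - v.2 * w.1 + 2 * t * (v.2 * w.2)) / p.2 ^ 2)| ≤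
        4 / p.2 ^ 2 * k0 t * ‖v‖ * ‖w‖ := by
      rw [abs_mul, abs_div, abs_of_pos hs2, abs_of_nonneg hk]
      calc k0 t * (|-(v.1 * w.2) - v.2 * w.1 + 2 * t * (v.2 * w.2)| / p.2 ^ 2)
          ≤ k0 t * (4 * (‖v‖ * ‖w‖) / p.2 ^ 2) :=
            mul_le_mul_of_nonneg_left (div_le_div_of_nonneg_right e3 hs2.le) hk
        _ = 4 / p.2 ^ 2 * k0 t * ‖v‖ * ‖w‖ := by ring
    calc _ ≤ 4 / p.2 ^ 2 * |deriv k0 t| * ‖v‖ * ‖w‖ + 4 / p.2 ^ 2 * k0 t * ‖v‖ * ‖w‖ :=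
          (abs_add_le _ _).trans (add_le_add e4 e5)
      _ = _ := by ring

theorem pp_dd (z s : ℝ) (hs : 0 < s) (a b : ℝ × ℝ) :
    |fderiv ℝ (fderiv ℝ (PP pp)) (z, s) a b| ≤
      4 / s ^ 2 * (∫ x, (k0 ((z - beta x) / s) + |deriv k0 ((z - beta x) / s)|) ∂PD) * ‖a‖ * ‖b‖ := by
  rw [fderiv2_congr (PpSm_eq z s hs)]
  rw [fderiv2_add contDiffAt_fst (PpSm_int_smooth z s hs)]
  have h0 : fderiv ℝ (fderiv ℝ fun t : ℝ × ℝ => t.1) (z, s) a b = 0 := by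
    have := fderiv2_lin (ContinuousLinearMap.fst ℝ ℝ ℝ) (z, s)
    have h' : (fun t : ℝ × ℝ => (ContinuousLinearMap.fst ℝ ℝ ℝ) t) = fun t : ℝ × ℝ => t.1 := rfl
    rw [h'] at this
    rw [this]; rfl
  rw [h0, zero_add, PpSm_param.2.2 (z, s) hs a b]
  have hc : Continuous fun x : Dg => (z - beta x) / s :=
    (continuous_const.sub beta_cont).div_const s
  have hint : Integrable (fun x => 4 / s ^ 2 * (k0 ((z - beta x) / s) +
      |deriv k0 ((z - beta x) / s)|) * ‖a‖ * ‖b‖) PD := by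
    apply cont_int
    exact ((continuous_const.mul ((PpSm_k0_cont.comp hc).add
      (PpSm_dk0_cont.comp hc).abs)).mul continuous_const).mul continuous_const
  have h1 : ‖∫ x, fderiv ℝ (fderiv ℝ (PpSm_f (beta x))) (z, s) a b ∂PD‖ ≤
      ∫ x, 4 / s ^ 2 * (k0 ((z - beta x) / s) + |deriv k0 ((z - beta x) / s)|) * ‖a‖ * ‖b‖ ∂PD := by
    apply norm_integral_le_of_norm_le hint
    filter_upwards with x
    exact PpSm_bound (beta x) (z, s) hs a b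
  rw [Real.norm_eq_abs] at h1
  refine h1.trans (le_of_eq ?_)
  rw [integral_mul_const, integral_mul_const, integral_const_mul]

end Pool.Agent.Wtw
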