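import Mathlib
import Pool.Agent.Wtw.PpSm

/-!
# PpBnd: bounds for the derivatives of `pp`

`E k0(t) <= C PD {|z - β| <= s} <= 4 C s^(1/8)` (`k0_zero`, `PD_ball_le`); `E k0 = s (pz - 1)`.
`|ps| <= (1/s) E k0 <= pz`. `pp_dd` and `k0_young`: `s^-2 (E k0 + s^(-1/64) E k0 + s^(63/64)) <= C s^(-65/64) pz`.
`far`: `s < infDist z CC`: near `(z,s)` all `|(z' - β)/s'| > 1`, the integrands vanish; for the second
derivative use `pp_dd` at `(z,s)` itself: all integrands are 0 (`k0_zero`).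
-/

namespace Pool.Agent.Wtw

open MeasureTheory Set Filter Topology
open scoped ENNReal

theorem PpBnd_int0 (z s : ℝ) : Integrable (fun x : Dg => k0 ((z - beta x) / s)) PD := by
  apply cont_int
  have h1 := k0_smooth.continuous
  have h2 := beta_cont
  fun_prop

theorem PpBnd_int1 (z s : ℝ) :
    Integrable (fun x : Dg => |deriv k0 ((z - beta x) / s)|) PD := by
  apply cont_int
  have h1 := k0_smooth.continuous_deriv le_rfl
  have h2 := beta_cont
  fun_prop

theorem PpBnd_meas (z s : ℝ) : MeasurableSet {x : Dg | |beta x - z| ≤ s} := by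
  apply IsClosed.measurableSet
  have h2 := beta_cont
  exact isClosed_le (by fun_prop) continuous_const

theorem PpBnd_E0 (z s : ℝ) : 0 ≤ ∫ x, k0 ((z - beta x) / s) ∂PD :=
  integral_nonneg fun _ => k0_nonneg _

/-- pointwise bound by the indicator -/
theorem PpBnd_ind (C : ℝ) (hC : ∀ x, k0 x ≤ C) (z s : ℝ) (hs : 0 < s) (x : Dg) :
    k0 ((z - beta x) / s) ≤ {x : Dg | |beta x - z| ≤ s}.indicator (fun _ => C) x := by
  by_cases h : x ∈ {x : Dg | |beta x - z| ≤ s}
  · rw [indicator_of_mem h]; exact hC _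
  · rw [indicator_of_notMem h]
    have h : s < |beta x - z| := not_le.1 (fun h' => h h')
    rw [(k0_zero ((z - beta x) / s) ?_).1]
    rw [abs_div, abs_of_pos hs, le_div_iff₀ hs, one_mul, abs_sub_comm]
    exact h.le

theorem PpBnd_E_le (C : ℝ) (hC : ∀ x, k0 x ≤ C) (z s : ℝ) (hs : 0 < s) :
    ∫ x, k0 ((z - beta x) / s) ∂PD ≤ C * (PD {x : Dg | |beta x - z| ≤ s}).toReal := by
  have h1 : ∫ x, k0 ((z - beta x) / s) ∂PD ≤
      ∫ x, {x : Dg | |beta x - z| ≤ s}.indicator (fun _ => C) x ∂PD := by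
    apply integral_mono (PpBnd_int0 z s)
    · exact (integrable_const C).indicator (PpBnd_meas z s)
    · intro x; exact PpBnd_ind C hC z s hs x
  rw [integral_indicator_const C (PpBnd_meas z s)] at h1
  rw [smul_eq_mul, mul_comm] at h1
  exact h1

theorem pp_ge_one (z s : ℝ) (hs : 0 < s) : 1 ≤ pz pp z s := by
  rw [pp_pz z s hs]
  have := PpBnd_E0 z s
  have h2 : 0 ≤ 1 / s := by positivity
  nlinarith [mul_nonneg h2 this]

theorem pp_le : ∃ C : ℝ, 0 < C ∧ ∀ z s, 0 < s → s ≤ 1 → pz pp z s ≤ C * s ^ (-(7 / 8) : ℝ) := by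
  obtain ⟨C, hC0, hC, -⟩ := k0_young
  refine ⟨1 + 4 * C, by positivity, fun z s hs hs1 => ?_⟩
  rw [pp_pz z s hs]
  have h1 := PpBnd_E_le C hC z s hs
  have h2 : (PD {x : Dg | |beta x - z| ≤ s}).toReal ≤ 4 * s ^ (1 / 8 : ℝ) := by
    have h3 := PD_ball_le z s hs
    exact ENNReal.toReal_le_of_le_ofReal (by positivity) h3
  have h4 : (1 / s) * ∫ x, k0 ((z - beta x) / s) ∂PD ≤ (1 / s) * (C * (4 * s ^ (1 / 8 : ℝ))) := by
    apply mul_le_mul_of_nonneg_left _ (by positivity)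
    exact h1.trans (mul_le_mul_of_nonneg_left h2 hC0.le)
  have h5 : (1 / s) * (C * (4 * s ^ (1 / 8 : ℝ))) = 4 * C * s ^ (-(7 / 8) : ℝ) := by
    have : s ^ (-(7 / 8) : ℝ) = s ^ (1 / 8 : ℝ) / s := by
      rw [show (-(7 / 8) : ℝ) = 1 / 8 - 1 by norm_num, Real.rpow_sub_one hs.ne']
    rw [this]; ring
  have h6 : (1 : ℝ) ≤ s ^ (-(7 / 8) : ℝ) := by
    apply Real.one_le_rpow_of_pos_of_le_one_of_nonpos hs hs1; norm_num
  rw [h5] at h4
  nlinarith

theorem pp_ps_le (z s : ℝ) (hs : 0 < s) : |ps pp z s| ≤ pz pp z s := by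
  rw [pp_pz z s hs, pp_ps z s hs]
  have h1 : |∫ x, (z - beta x) / s * k0 ((z - beta x) / s) ∂PD| ≤
      ∫ x, k0 ((z - beta x) / s) ∂PD := by
    rw [← Real.norm_eq_abs]
    apply norm_integral_le_of_norm_le (PpBnd_int0 z s)
    refine Eventually.of_forall fun x => ?_
    rw [Real.norm_eq_abs, abs_mul, abs_of_nonneg (k0_nonneg _)]
    rcases le_total 1 |(z - beta x) / s| with h | h
    · rw [(k0_zero _ h).1]; simp
    · have := k0_nonneg ((z - beta x) / s)
      nlinarith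
  rw [abs_mul, abs_neg, abs_of_pos (by positivity : (0 : ℝ) < 1 / s)]
  have h2 : (0 : ℝ) ≤ 1 / s := by positivity
  have := mul_le_mul_of_nonneg_left h1 h2
  linarith

theorem pp_dd_le : ∃ C : ℝ, 0 < C ∧ ∀ z s, 0 < s → s ≤ 1 → ∀ a b : ℝ × ℝ,
    |fderiv ℝ (fderiv ℝ (PP pp)) (z, s) a b| ≤ C * s ^ (-(65 / 64) : ℝ) * pz pp z s * ‖a‖ * ‖b‖ := by
  obtain ⟨C, hC0, hC, hY⟩ := k0_young
  refine ⟨4 * (1 + C), by positivity, fun z s hs hs1 a b => ?_⟩
  have h1 := pp_dd z s hs a b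
  set E : ℝ := ∫ x, k0 ((z - beta x) / s) ∂PD with hE
  have hE0 : 0 ≤ E := PpBnd_E0 z s
  set q : ℝ := s ^ (-(1 / 64) : ℝ) with hq
  have hq1 : 1 ≤ q := by
    apply Real.one_le_rpow_of_pos_of_le_one_of_nonpos hs hs1; norm_num
  have e1 : s ^ (63 / 64 : ℝ) = q * s := by
    rw [show (63 / 64 : ℝ) = -(1 / 64) + 1 by norm_num, Real.rpow_add hs, Real.rpow_one]
  have e2 : s ^ (-(65 / 64) : ℝ) = q / s := by
    rw [show (-(65 / 64) : ℝ) = -(1 / 64) - 1 by norm_num, Real.rpow_sub_one hs.ne']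
  have h2 : ∫ x, (k0 ((z - beta x) / s) + |deriv k0 ((z - beta x) / s)|) ∂PD ≤
      E + C * (q * E + q * s) := by
    rw [integral_add (PpBnd_int0 z s) (PpBnd_int1 z s), ← hE]
    have h3 : ∫ x, |deriv k0 ((z - beta x) / s)| ∂PD ≤
        ∫ x, C * (q * k0 ((z - beta x) / s) + q * s) ∂PD := by
      apply integral_mono (PpBnd_int1 z s)
      · exact (((PpBnd_int0 z s).const_mul q).add (integrable_const _)).const_mul C
      · intro x
        have := hY ((z - beta x) / s) s hs hs1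
        rw [e1] at this
        exact this
    have h4 : ∫ x, C * (q * k0 ((z - beta x) / s) + q * s) ∂PD = C * (q * E + q * s) := by
      rw [integral_const_mul, integral_add ((PpBnd_int0 z s).const_mul q) (integrable_const _),
        integral_const_mul, integral_const, ← hE]
      simp
    linarith
  have h5 : E + C * (q * E + q * s) ≤ (1 + C) * (q * (E + s)) := by
    have : E ≤ q * E := by nlinarith
    have h6 : 0 ≤ q * s := by positivity
    nlinarith
  rw [pp_pz z s hs, ← hE, e2]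
  have h7 : 4 / s ^ 2 * (∫ x, (k0 ((z - beta x) / s) + |deriv k0 ((z - beta x) / s)|) ∂PD) ≤
      4 * (1 + C) * (q / s) * (1 + 1 / s * E) := by
    calc 4 / s ^ 2 * (∫ x, (k0 ((z - beta x) / s) + |deriv k0 ((z - beta x) / s)|) ∂PD)
        ≤ 4 / s ^ 2 * ((1 + C) * (q * (E + s))) :=
          mul_le_mul_of_nonneg_left (h2.trans h5) (by positivity)
      _ = 4 * (1 + C) * (q / s) * (1 + 1 / s * E) := by field_simp; ring
  calc |fderiv ℝ (fderiv ℝ (PP pp)) (z, s) a b| ≤ _ := h1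
    _ ≤ 4 * (1 + C) * (q / s) * (1 + 1 / s * E) * ‖a‖ * ‖b‖ := by
        apply mul_le_mul_of_nonneg_right _ (norm_nonneg b)
        exact mul_le_mul_of_nonneg_right h7 (norm_nonneg a)

theorem pp_far (z s : ℝ) (hs : 0 < s) (h : s < Metric.infDist z CC) :
    pz pp z s = 1 ∧ ps pp z s = 0 ∧ fderiv ℝ (fderiv ℝ (PP pp)) (z, s) = 0 := by
  have key : ∀ x : Dg, 1 ≤ |(z - beta x) / s| := by
    intro x
    have h1 : Metric.infDist z CC ≤ dist z (beta x) := Metric.infDist_le_dist_of_mem ⟨x, rfl⟩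
    rw [Real.dist_eq] at h1
    rw [abs_div, abs_of_pos hs, le_div_iff₀ hs, one_mul]
    linarith
  have k0z : ∀ x : Dg, k0 ((z - beta x) / s) = 0 := fun x => (k0_zero _ (key x)).1
  have k1z : ∀ x : Dg, deriv k0 ((z - beta x) / s) = 0 := fun x => (k0_zero _ (key x)).2
  refine ⟨?_, ?_, ?_⟩
  · rw [pp_pz z s hs]; simp [k0z]
  · rw [pp_ps z s hs]; simp [k0z]
  · have h2 : ∀ a b : ℝ × ℝ, fderiv ℝ (fderiv ℝ (PP pp)) (z, s) a b = 0 := by
      intro a b
      have := pp_dd z s hs a b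
      simp only [k0z, k1z, abs_zero, add_zero, integral_zero, mul_zero, zero_mul] at this
      exact abs_nonpos_iff.1 this
    refine ContinuousLinearMap.ext fun a => ContinuousLinearMap.ext fun b => ?_
    exact h2 a b

end Pool.Agent.Wtw
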