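import Mathlib
import Pool.Agent.Wtw.PpBnd

/-!
# PpMaj: a majorant of `pz pp z s` uniform for `s1 <= s <= B s1`

`r z = 1 + (C/s1) PD {x | |z - beta x| <= B s1}` (`C >= k0`), measurable in `z` (measure of sections of a
closed set of `ℝ x Dg`); `∫_[-R,R] r <= 2R + (C/s1) ∫ (2 B s1) dPD` by Tonelli.
-/

namespace Pool.Agent.Wtw

open MeasureTheory Set Filter Topology
open scoped ENNReal

/-- the closed strip around the graph of `beta` -/
def PpMaj_S (t : ℝ) : Set (ℝ × Dg) := {p | |beta p.2 - p.1| ≤ t}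

theorem PpMaj_S_meas (t : ℝ) : MeasurableSet (PpMaj_S t) := by
  apply IsClosed.measurableSet
  have h2 := beta_cont
  exact isClosed_le (by fun_prop) continuous_const

theorem PpMaj_sec (t z : ℝ) : Prod.mk z ⁻¹' (PpMaj_S t) = {x : Dg | |beta x - z| ≤ t} := rfl

theorem PpMaj_vol (t : ℝ) : ∫⁻ z : ℝ, PD {x : Dg | |beta x - z| ≤ t} = ENNReal.ofReal (2 * t) := by
  have h1 : ((volume : Measure ℝ).prod PD) (PpMaj_S t) = ∫⁻ z : ℝ, PD {x : Dg | |beta x - z| ≤ t} := by
    rw [Measure.prod_apply (PpMaj_S_meas t)]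
    rfl
  rw [← h1, Measure.prod_apply_symm (PpMaj_S_meas t)]
  have h2 : ∀ x : Dg, (volume : Measure ℝ) ((fun z : ℝ => (z, x)) ⁻¹' (PpMaj_S t)) =
      ENNReal.ofReal (2 * t) := by
    intro x
    have : (fun z : ℝ => (z, x)) ⁻¹' (PpMaj_S t) = Icc (beta x - t) (beta x + t) := by
      ext z
      show |beta x - z| ≤ t ↔ _
      rw [abs_le, mem_Icc]
      constructor
      · rintro ⟨h1, h2⟩; constructor <;> linarith
      · rintro ⟨h1, h2⟩; constructor <;> linarith
    rw [this, Real.volume_Icc]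
    congr 1; ring
  simp only [h2, lintegral_const, measure_univ, mul_one]

theorem pp_maj (B : ℝ) (hB : 1 ≤ B) (R : ℝ) : ∃ M : ℝ, ∀ s1 : ℝ, 0 < s1 → s1 ≤ 1 →
    ∃ r : ℝ → ℝ≥0∞, Measurable r ∧
    (∀ z s, s1 ≤ s → s ≤ B * s1 → ENNReal.ofReal (pz pp z s) ≤ r z) ∧
    ∫⁻ z in Icc (-R) R, r z ≤ ENNReal.ofReal M := by
  obtain ⟨C, hC0, hC, -⟩ := k0_young
  refine ⟨2 * |R| + 2 * B * C, fun s1 hs1 _ => ?_⟩
  refine ⟨fun z => 1 + ENNReal.ofReal (C / s1) * PD {x : Dg | |beta x - z| ≤ B * s1}, ?_, ?_, ?_⟩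
  · apply Measurable.const_add
    apply Measurable.const_mul
    exact measurable_measure_prodMk_left (PpMaj_S_meas (B * s1))
  · intro z s h1 h2
    have hs : 0 < s := lt_of_lt_of_le hs1 h1
    rw [pp_pz z s hs]
    have h3 := PpBnd_E_le C hC z s hs
    have h4 : PD {x : Dg | |beta x - z| ≤ s} ≤ PD {x : Dg | |beta x - z| ≤ B * s1} := by
      apply measure_mono
      intro x hx
      exact le_trans hx h2
    have h5 : (PD {x : Dg | |beta x - z| ≤ s}).toReal ≤
        (PD {x : Dg | |beta x - z| ≤ B * s1}).toReal :=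
      ENNReal.toReal_mono (measure_ne_top _ _) h4
    have hE0 := PpBnd_E0 z s
    have h6 : 1 / s * ∫ x, k0 ((z - beta x) / s) ∂PD ≤
        C / s1 * (PD {x : Dg | |beta x - z| ≤ B * s1}).toReal := by
      have h7 : 1 / s ≤ 1 / s1 := one_div_le_one_div_of_le hs1 h1
      have h8 : ∫ x, k0 ((z - beta x) / s) ∂PD ≤
          C * (PD {x : Dg | |beta x - z| ≤ B * s1}).toReal :=
        h3.trans (mul_le_mul_of_nonneg_left h5 hC0.le)
      calc 1 / s * ∫ x, k0 ((z - beta x) / s) ∂PD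
          ≤ 1 / s1 * (C * (PD {x : Dg | |beta x - z| ≤ B * s1}).toReal) :=
            mul_le_mul h7 h8 hE0 (by positivity)
        _ = _ := by ring
    rw [ENNReal.ofReal_add zero_le_one (by positivity), ENNReal.ofReal_one]
    refine add_le_add le_rfl ?_
    calc ENNReal.ofReal (1 / s * ∫ x, k0 ((z - beta x) / s) ∂PD)
        ≤ ENNReal.ofReal (C / s1 * (PD {x : Dg | |beta x - z| ≤ B * s1}).toReal) :=
          ENNReal.ofReal_le_ofReal h6
      _ = _ := by
        rw [ENNReal.ofReal_mul (by positivity), ENNReal.ofReal_toReal (measure_ne_top _ _)]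
  · have hm : Measurable fun z : ℝ => PD {x : Dg | |beta x - z| ≤ B * s1} :=
      measurable_measure_prodMk_left (PpMaj_S_meas (B * s1))
    rw [lintegral_add_left measurable_const, lintegral_const_mul _ hm]
    have h1 : ∫⁻ _ in Icc (-R) R, (1 : ℝ≥0∞) ≤ ENNReal.ofReal (2 * |R|) := by
      rw [lintegral_const, one_mul, Measure.restrict_apply_univ, Real.volume_Icc]
      apply ENNReal.ofReal_le_ofReal
      have := le_abs_self R
      linarith
    have h2 : ∫⁻ z in Icc (-R) R, PD {x : Dg | |beta x - z| ≤ B * s1} ≤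
        ENNReal.ofReal (2 * (B * s1)) := by
      rw [← PpMaj_vol]
      exact setLIntegral_le_lintegral _ _
    have h3 : ENNReal.ofReal (C / s1) * ∫⁻ z in Icc (-R) R, PD {x : Dg | |beta x - z| ≤ B * s1} ≤
        ENNReal.ofReal (2 * B * C) := by
      calc _ ≤ ENNReal.ofReal (C / s1) * ENNReal.ofReal (2 * (B * s1)) := by gcongr
        _ = ENNReal.ofReal (2 * B * C) := by
          rw [← ENNReal.ofReal_mul (by positivity)]
          congr 1
          field_simp
    rw [ENNReal.ofReal_add (by positivity) (by positivity)]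
    exact add_le_add h1 h3

end Pool.Agent.Wtw
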