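import Mathlib
import Pool.Agent.Wtw.Ker
import Pool.Agent.Wtw.Dig3

/-!
# PpZero: the limit `s = 0`

`pp z 0 = z + F z`, `F z = PD {beta <= z}`.
* `pp (z - s) s <= pp z 0 <= pp (z + s) s`: `K0 ((z - s - β)/s) <= 1_{β <= z} <= K0 ((z + s - β)/s)`
  (`K0_left`, `K0_right`, `K0_mem`).
* `F` is monotone, continuous (no atoms, `PD_beta_eq`), 0 for `z < 0`, 1 for `z >= 1/255`.
* `pos`: `F` maps `CC` onto `[0,1]` (intermediate value theorem for `F` on `ℝ`, `F` is constant on the
  complementary intervals of the closed set `CC`; `F 0 = 0`), and `F z` is a 1-Lipschitz function of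
  `pp z 0 = z + F z` (both summands monotone), so `1 = vol [0,1] <= vol (pp(CC, 0))`
  (`LipschitzOnWith` and Hausdorff measure `μH[1] = volume`, or directly by covering).
-/

namespace Pool.Agent.Wtw

open MeasureTheory Set Filter Topology
open scoped ENNReal

private noncomputable def FF (z : ℝ) : ℝ := (PD {x | beta x ≤ z}).toReal

private theorem pp_zero_eq (z : ℝ) : pp z 0 = z + FF z := by
  unfold pp FF; rw [if_neg (lt_irrefl _)]

private theorem pp_pos_eq (z s : ℝ) (hs : 0 < s) :
    pp z s = z + ∫ x, K0 ((z - beta x) / s) ∂PD := by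
  unfold pp; rw [if_pos hs]

private theorem beta_meas : Measurable beta := beta_cont.measurable

private theorem FF_int (z : ℝ) :
    FF z = ∫ x, Set.indicator {x | beta x ≤ z} (fun _ => (1 : ℝ)) x ∂PD := by
  rw [integral_indicator (measurableSet_le beta_meas measurable_const)]
  simp [FF, Measure.real]

private theorem K0_integrable (z s : ℝ) : Integrable (fun x => K0 ((z - beta x) / s)) PD := by
  refine Integrable.of_bound (C := 1) ?_ (Eventually.of_forall fun x => ?_)
  · exact (K0_smooth.continuous.comp
      ((continuous_const.sub beta_cont).div_const s)).aestronglyMeasurable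
  · rw [Real.norm_eq_abs, abs_of_nonneg (K0_mem _).1]
    exact (K0_mem _).2

private theorem ind_integrable (z : ℝ) :
    Integrable (Set.indicator {x | beta x ≤ z} (fun _ => (1 : ℝ))) PD :=
  (integrable_const (1 : ℝ)).indicator (measurableSet_le beta_meas measurable_const)

theorem pp_zero (z s : ℝ) (hs : 0 < s) : pp (z - s) s ≤ pp z 0 ∧ pp z 0 ≤ pp (z + s) s := by
  rw [pp_zero_eq, pp_pos_eq _ _ hs, pp_pos_eq _ _ hs, FF_int]
  constructor
  · have h : ∫ x, K0 ((z - s - beta x) / s) ∂PD ≤
        ∫ x, Set.indicator {x | beta x ≤ z} (fun _ => (1 : ℝ)) x ∂PD := by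
      refine integral_mono (K0_integrable _ _) (ind_integrable z) fun x => ?_
      by_cases hx : beta x ≤ z
      · rw [Set.indicator_of_mem (by exact hx)]
        exact (K0_mem _).2
      · rw [Set.indicator_of_notMem (by exact hx)]
        refine le_of_eq (K0_left _ ?_)
        rw [div_le_iff₀ hs]
        push Not at hx
        linarith
    linarith
  · have h : ∫ x, Set.indicator {x | beta x ≤ z} (fun _ => (1 : ℝ)) x ∂PD ≤
        ∫ x, K0 ((z + s - beta x) / s) ∂PD := by
      refine integral_mono (ind_integrable z) (K0_integrable _ _) fun x => ?_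
      by_cases hx : beta x ≤ z
      · rw [Set.indicator_of_mem (by exact hx)]
        refine le_of_eq (K0_right _ ?_).symm
        rw [le_div_iff₀ hs]
        linarith
      · rw [Set.indicator_of_notMem (by exact hx)]
        exact (K0_mem _).1
    linarith

private theorem FF_cont : Continuous FF := by
  have : FF = fun z => ∫ x, Set.indicator {x | beta x ≤ z} (fun _ => (1 : ℝ)) x ∂PD :=
    funext FF_int
  rw [this, continuous_iff_continuousAt]
  intro z0
  refine continuousAt_of_dominated (bound := fun _ => 1)
    (Eventually.of_forall fun z => (ind_integrable z).aestronglyMeasurable)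
    (Eventually.of_forall fun z => Eventually.of_forall fun x => ?_) (integrable_const _) ?_
  · by_cases hx : beta x ≤ z
    · rw [Set.indicator_of_mem (by exact hx)]; simp
    · rw [Set.indicator_of_notMem (by exact hx)]; simp
  · have h0 : ∀ᵐ x ∂PD, beta x ≠ z0 := by
      rw [ae_iff]
      simpa using PD_beta_eq z0
    filter_upwards [h0] with x hx
    rcases lt_or_gt_of_ne hx with h | h
    · have hev : (fun z => Set.indicator {x | beta x ≤ z} (fun _ => (1 : ℝ)) x) =ᶠ[𝓝 z0]
          fun _ => (1 : ℝ) := by
        filter_upwards [lt_mem_nhds h] with z hz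
        rw [Set.indicator_of_mem (by exact hz.le)]
      exact (continuousAt_const).congr hev.symm
    · have hev : (fun z => Set.indicator {x | beta x ≤ z} (fun _ => (1 : ℝ)) x) =ᶠ[𝓝 z0]
          fun _ => (0 : ℝ) := by
        filter_upwards [gt_mem_nhds h] with z hz
        rw [Set.indicator_of_notMem (by exact not_le.2 hz)]
      exact (continuousAt_const).congr hev.symm

private theorem FF_mono : Monotone FF := by
  intro z w h
  unfold FF
  refine ENNReal.toReal_mono (measure_ne_top _ _) (measure_mono fun x hx => ?_)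
  exact le_trans (show beta x ≤ z from hx) h

private theorem FF_mem (z : ℝ) : 0 ≤ FF z ∧ FF z ≤ 1 := by
  unfold FF
  refine ⟨ENNReal.toReal_nonneg, ?_⟩
  have := ENNReal.toReal_mono (ENNReal.one_ne_top) (prob_le_one (μ := PD) (s := {x | beta x ≤ z}))
  simpa using this

theorem pp_cont0 : Continuous fun z => pp z 0 := by
  have : (fun z => pp z 0) = fun z => z + FF z := funext pp_zero_eq
  rw [this]
  exact continuous_id.add FF_cont

theorem pp_mono0 : StrictMono fun z => pp z 0 := by
  intro z w h
  have := FF_mono h.le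
  show pp z 0 < pp w 0
  rw [pp_zero_eq, pp_zero_eq]
  linarith

theorem pp_bd (z s : ℝ) (hs : 0 ≤ s) : z ≤ pp z s ∧ pp z s ≤ z + 1 := by
  rcases hs.lt_or_eq with h | h
  · rw [pp_pos_eq _ _ h]
    constructor
    · have : 0 ≤ ∫ x, K0 ((z - beta x) / s) ∂PD := integral_nonneg fun x => (K0_mem _).1
      linarith
    · have : ∫ x, K0 ((z - beta x) / s) ∂PD ≤ ∫ _x, (1 : ℝ) ∂PD :=
        integral_mono (K0_integrable _ _) (integrable_const _) fun x => (K0_mem _).2
      simp at this
      linarith
  · rw [← h, pp_zero_eq]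
    have := FF_mem z
    constructor <;> linarith [this.1, this.2]

private theorem FF_neg : FF (-1) = 0 := by
  have : {x | beta x ≤ (-1 : ℝ)} = ∅ := by
    ext x
    simp only [mem_setOf_eq, mem_empty_iff_false, iff_false, not_le]
    have := (beta_mem x).1
    linarith
  simp [FF, this]

private theorem FF_one : FF 1 = 1 := by
  have : {x | beta x ≤ (1 : ℝ)} = univ := by
    ext x
    simp only [mem_setOf_eq, mem_univ, iff_true]
    have := (beta_mem x).2
    linarith
  simp [FF, this]

private theorem FF_surj (y : ℝ) (hy : 0 < y) (hy1 : y < 1) : ∃ z ∈ CC, FF z = y := by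
  -- the largest z with FF z ≤ y
  set A : Set ℝ := {z | FF z ≤ y} with hA
  have hne : A.Nonempty := ⟨-1, by simp [hA, FF_neg, hy.le]⟩
  have hbd : BddAbove A := by
    refine ⟨1, fun z hz => ?_⟩
    by_contra hlt
    push Not at hlt
    have h1 := FF_mono hlt.le
    rw [FF_one] at h1
    have h2 : FF z ≤ y := hz
    linarith
  have hcl : IsClosed A := isClosed_le FF_cont continuous_const
  set z := sSup A with hz
  have hzA : z ∈ A := hcl.csSup_mem hne hbd
  have hgt : ∀ w, z < w → y < FF w := by
    intro w hw
    by_contra hc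
    push Not at hc
    have : w ≤ z := le_csSup hbd hc
    linarith
  have hFz : FF z = y := by
    refine le_antisymm hzA ?_
    have hc : ContinuousWithinAt FF (Ioi z) z := FF_cont.continuousWithinAt
    refine ge_of_tendsto hc ?_
    filter_upwards [self_mem_nhdsWithin] with w hw
    exact (hgt w hw).le
  refine ⟨z, ?_, hFz⟩
  by_contra hzC
  have hop : IsOpen CCᶜ := CC_compact.isClosed.isOpen_compl
  obtain ⟨ε, hε, hb⟩ := Metric.isOpen_iff.1 hop z hzC
  have h1 := hgt (z + ε / 2) (by linarith)
  have h2 : FF (z + ε / 2) = FF z := by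
    unfold FF
    congr 2
    ext x
    simp only [mem_setOf_eq]
    constructor
    · intro hx
      by_contra hx2
      push Not at hx2
      have : beta x ∈ Metric.ball z ε := by
        rw [Metric.mem_ball, Real.dist_eq, abs_lt]
        constructor <;> linarith
      exact hb this ⟨x, rfl⟩
    · intro hx
      linarith
  rw [h2, hFz] at h1
  exact lt_irrefl _ h1

theorem pp_pos : 0 < volume ((fun z => pp z 0) '' CC) := by
  set Φ : ℝ → ℝ := fun z => pp z 0 with hΦ
  have hinj : Function.Injective Φ := pp_mono0.injective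
  set G : ℝ → ℝ := fun y => FF (Function.invFun Φ y) with hG
  have hGΦ : ∀ z, G (Φ z) = FF z := fun z => by
    rw [hG]
    simp only
    rw [Function.leftInverse_invFun hinj z]
  have hLip : LipschitzOnWith 1 G (Φ '' CC) := by
    refine LipschitzOnWith.of_dist_le_mul ?_
    rintro _ ⟨z, hz, rfl⟩ _ ⟨w, hw, rfl⟩
    rw [hGΦ, hGΦ, Real.dist_eq, Real.dist_eq]
    simp only [hΦ, pp_zero_eq, NNReal.coe_one, one_mul]
    rcases le_total z w with h | h
    · have h1 := FF_mono h
      rw [abs_of_nonpos (by linarith), abs_of_nonpos (by linarith)]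
      linarith
    · have h1 := FF_mono h
      rw [abs_of_nonneg (by linarith), abs_of_nonneg (by linarith)]
      linarith
  have hle := hLip.hausdorffMeasure_image_le (zero_le_one (α := ℝ))
  rw [hausdorffMeasure_real] at hle
  have hsub : Ioo (0 : ℝ) 1 ⊆ G '' (Φ '' CC) := by
    intro y hy
    obtain ⟨z, hz, hzy⟩ := FF_surj y hy.1 hy.2
    exact ⟨Φ z, ⟨z, hz, rfl⟩, by rw [hGΦ, hzy]⟩
  have h1 : volume (Ioo (0 : ℝ) 1) ≤ volume (G '' (Φ '' CC)) := measure_mono hsub
  have h2 : (0 : ℝ≥0∞) < volume (Ioo (0 : ℝ) 1) := by simp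
  have h3 := lt_of_lt_of_le h2 (h1.trans hle)
  simpa using h3

end Pool.Agent.Wtw
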