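import Mathlib
import Pool.Agent.Wtw.PpMaj
import Pool.Agent.Wtw.PpZero

/-!
# PpData: assembly of part II
-/

namespace Pool.Agent.Wtw

open MeasureTheory Set Filter Topology
open scoped ENNReal

theorem p_data : ∃ A : ℝ, PData pp A := by
  obtain ⟨C, hC, hle⟩ := pp_le
  obtain ⟨C', hC', hdd⟩ := pp_dd_le
  refine ⟨max 1 (max C C'), ?_⟩
  constructor
  · exact le_max_left _ _
  · exact pp_smooth
  · exact pp_ge_one
  · intro z s hs hs1
    refine (hle z s hs hs1).trans ?_
    exact mul_le_mul_of_nonneg_right ((le_max_left _ _).trans (le_max_right _ _))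
      (Real.rpow_nonneg hs.le _)
  · exact pp_ps_le
  · intro z s hs hs1 a b
    refine (hdd z s hs hs1 a b).trans ?_
    have h1 : C' ≤ max 1 (max C C') := (le_max_right _ _).trans (le_max_right _ _)
    have h2 := pp_ge_one z s hs
    have h3 := Real.rpow_nonneg hs.le (-(65 / 64) : ℝ)
    gcongr
  · exact pp_far
  · exact pp_maj
  · exact pp_zero
  · exact pp_cont0
  · exact pp_mono0
  · exact pp_bd
  · exact pp_pos

end Pool.Agent.Wtw
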