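import Mathlib
import Pool.Agent.Wtw.ParamInt
import Pool.Agent.Wtw.Chain2

/-!
# WMean: derivatives of potentials `∫ 1/|y|^2` and of weighted means

`y ω x = L ω x + b ω` (affine in `x`, values in an inner product space `H`), `h ω x = l ω x + c ω`,
everything continuous in `ω` on a compact space. On the open set `U` all `y ω x /= 0`.
`W x = ∫ 1/|y|^2`, `N x = ∫ h/|y|^2`, `M = N / W`.

For `g y = 1/|y|^2` : `Dg y v = -2 <y,v>/|y|^4`, `D^2 g y v w = -2 <v,w>/|y|^4 + 8 <y,v><y,w>/|y|^6`, so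
`|Dg y v| <= 2|v|/|y|^3`, `|D^2 g y v w| <= 10 |v||w|/|y|^4`. `ParamInt` gives smoothness and
differentiation under the integral.  From `W M = N`: `W DM[v] = ∫ (D(1/|y|^2)[v] (h - M x) + l v/|y|^2)` and
`W D^2M[v,w] = ∫ (D^2(1/|y|^2)[v,w] (h - M x) + D(1/|y|^2)[v] l w + D(1/|y|^2)[w] l v)
   - DM[v] DW[w] - DM[w] DW[v]`.
-/

namespace Pool.Agent.Wtw

open MeasureTheory Set Filter Topology
open scoped ENNReal

variable {Ω E H : Type*} [TopologicalSpace Ω] [CompactSpace Ω] [SecondCountableTopology Ω]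
  [MeasurableSpace Ω] [OpensMeasurableSpace Ω] [NormedAddCommGroup E] [NormedSpace ℝ E]
  [NormedAddCommGroup H] [InnerProductSpace ℝ H]

/-- joint continuity of partial derivatives -/
theorem WMean_joint {P F : Type*} [NormedAddCommGroup P] [NormedSpace ℝ P] [NormedAddCommGroup F]
    [NormedSpace ℝ F] (Φ : P × E → F) (q : P × E) (h : ContDiffAt ℝ 2 Φ q) :
    ContinuousAt (fun q : P × E => fderiv ℝ (fun x => Φ (q.1, x)) q.2) q ∧
    ContinuousAt (fun q : P × E => fderiv ℝ (fderiv ℝ (fun x => Φ (q.1, x))) q.2) q := by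
  have key : ∀ q : P × E, ContDiffAt ℝ 2 Φ q →
      ContDiffAt ℝ 1 (fun q : P × E => fderiv ℝ (fun x => Φ (q.1, x)) q.2) q := by
    intro q h
    have h1 : ContDiffAt ℝ 2 (Function.uncurry fun (q : P × E) (x : E) => Φ (q.1, x))
        (q, Prod.snd q) := by
      have h2 : (Function.uncurry fun (q : P × E) (x : E) => Φ (q.1, x)) =
          fun r : (P × E) × E => Φ (r.1.1, r.2) := by
        ext r; rfl
      rw [h2]
      have h3 : ContDiffAt ℝ 2 (fun r : (P × E) × E => (r.1.1, r.2)) (q, q.2) :=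
        (contDiffAt_fst.fst).prodMk contDiffAt_snd
      exact ContDiffAt.comp (q, q.2) (g := Φ) (f := fun r : (P × E) × E => (r.1.1, r.2)) h h3
    exact ContDiffAt.fderiv (f := fun (q : P × E) (x : E) => Φ (q.1, x)) (g := Prod.snd) h1
      contDiffAt_snd (by norm_num)
  refine ⟨(key q h).continuousAt, ?_⟩
  have h1 : ContDiffAt ℝ 1 (Function.uncurry fun (q : P × E) (x : E) =>
      fderiv ℝ (fun x => Φ (q.1, x)) x) (q, Prod.snd q) := by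
    have h2 : (Function.uncurry fun (q : P × E) (x : E) => fderiv ℝ (fun x => Φ (q.1, x)) x) =
        fun r : (P × E) × E => (fun q : P × E => fderiv ℝ (fun x => Φ (q.1, x)) q.2) (r.1.1, r.2) := by
      ext r; rfl
    rw [h2]
    have h3 : ContDiffAt ℝ 1 (fun r : (P × E) × E => (r.1.1, r.2)) (q, q.2) :=
      (contDiffAt_fst.fst).prodMk contDiffAt_snd
    exact ContDiffAt.comp (q, q.2) (g := fun q : P × E => fderiv ℝ (fun x => Φ (q.1, x)) q.2)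
      (f := fun r : (P × E) × E => (r.1.1, r.2)) (key q h) h3
  have h2 := ContDiffAt.fderiv (m := 0) (f := fun (q : P × E) (x : E) => fderiv ℝ (fun x => Φ (q.1, x)) x)
    (g := Prod.snd) h1 contDiffAt_snd (by norm_num)
  exact h2.continuousAt

theorem WMean_n (y v : H) : fderiv ℝ (fun y : H => ‖y‖ ^ 2) y v = 2 * inner ℝ y v := by
  rw [(hasStrictFDerivAt_norm_sq y).hasFDerivAt.fderiv]
  simp

theorem WMean_nn (y v w : H) :
    fderiv ℝ (fderiv ℝ fun y : H => ‖y‖ ^ 2) y v w = 2 * inner ℝ v w := by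
  have h1 : (fderiv ℝ fun y : H => ‖y‖ ^ 2) = fun y => (2 • innerSL ℝ (E := H)) y := by
    ext1 y
    rw [(hasStrictFDerivAt_norm_sq y).hasFDerivAt.fderiv]
    rfl
  rw [h1, (2 • innerSL ℝ (E := H)).fderiv]
  simp
  rfl

theorem WMean_g1 (y : H) (hy : y ≠ 0) (v : H) :
    fderiv ℝ (fun y : H => 1 / ‖y‖ ^ 2) y v = -(2 * inner ℝ y v) / ‖y‖ ^ 4 := by
  have hn0 : ‖y‖ ^ 2 ≠ 0 := by positivity
  have h1 : HasDerivAt (fun t : ℝ => 1 / t) (-(1 / (‖y‖ ^ 2) ^ 2)) (‖y‖ ^ 2) := by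
    have := hasDerivAt_inv hn0
    simpa [one_div] using this
  have h2 := h1.comp_hasFDerivAt y (hasStrictFDerivAt_norm_sq y).hasFDerivAt
  have h3 : fderiv ℝ (fun y : H => 1 / ‖y‖ ^ 2) y = _ := h2.fderiv
  rw [h3]
  simp
  field_simp

theorem WMean_smooth (y : H) (hy : y ≠ 0) : ContDiffAt ℝ 2 (fun y : H => 1 / ‖y‖ ^ 2) y := by
  have hn0 : ‖y‖ ^ 2 ≠ 0 := by positivity
  exact contDiffAt_const.div (contDiff_norm_sq ℝ).contDiffAt hn0

theorem WMean_g2 (y : H) (hy : y ≠ 0) (v w : H) :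
    fderiv ℝ (fderiv ℝ fun y : H => 1 / ‖y‖ ^ 2) y v w =
      8 * inner ℝ y v * inner ℝ y w / ‖y‖ ^ 6 - 2 * inner ℝ v w / ‖y‖ ^ 4 := by
  have hn0 : ‖y‖ ^ 2 ≠ 0 := by positivity
  have hφ : ContDiffAt ℝ 2 (fun t : ℝ => 1 / t) (‖y‖ ^ 2) := contDiffAt_const.div contDiffAt_id hn0
  have h1 := fderiv2_real (φ := fun t : ℝ => 1 / t) (h := fun y : H => ‖y‖ ^ 2) (x := y) hφ
    (contDiff_norm_sq ℝ).contDiffAt v w
  rw [h1, WMean_n, WMean_n, WMean_nn]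
  have h2 : deriv (fun t : ℝ => 1 / t) = fun t => -(t ^ 2)⁻¹ := by
    simp only [one_div]
    exact deriv_inv'
  have h3 : HasDerivAt (fun t : ℝ => -(t ^ 2)⁻¹) (2 / (‖y‖ ^ 2) ^ 3) (‖y‖ ^ 2) := by
    have h4 : HasDerivAt (fun t : ℝ => t ^ 2) (2 * ‖y‖ ^ 2) (‖y‖ ^ 2) := by
      simpa using hasDerivAt_pow 2 (‖y‖ ^ 2)
    have h5 := (h4.inv (pow_ne_zero 2 hn0)).neg
    refine h5.congr_deriv ?_
    field_simp
  rw [h2, h3.deriv]
  field_simp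
  ring

theorem inv_sq_bd (y : H) (hy : y ≠ 0) :
    ContDiffAt ℝ 2 (fun y : H => 1 / ‖y‖ ^ 2) y ∧
    (∀ v, |fderiv ℝ (fun y : H => 1 / ‖y‖ ^ 2) y v| ≤ 2 * ‖v‖ / ‖y‖ ^ 3) ∧
    ∀ v w, |fderiv ℝ (fderiv ℝ fun y : H => 1 / ‖y‖ ^ 2) y v w| ≤ 10 * ‖v‖ * ‖w‖ / ‖y‖ ^ 4 := by
  have hn : 0 < ‖y‖ := norm_pos_iff.2 hy
  refine ⟨WMean_smooth y hy, fun v => ?_, fun v w => ?_⟩
  · rw [WMean_g1 y hy v, abs_div, abs_neg, abs_mul, abs_of_pos (by positivity : (0:ℝ) < ‖y‖ ^ 4),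
      div_le_div_iff₀ (by positivity) (by positivity)]
    have h1 := abs_real_inner_le_norm y v
    have h2 : |(2 : ℝ)| = 2 := by norm_num
    rw [h2]
    have h3 : 0 ≤ ‖y‖ ^ 3 := by positivity
    calc 2 * |inner ℝ y v| * ‖y‖ ^ 3 ≤ 2 * (‖y‖ * ‖v‖) * ‖y‖ ^ 3 := by gcongr
      _ = 2 * ‖v‖ * ‖y‖ ^ 4 := by ring
  · rw [WMean_g2 y hy v w]
    have h1 := abs_real_inner_le_norm y v
    have h2 := abs_real_inner_le_norm y w
    have h3 := abs_real_inner_le_norm v w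
    have h4 : |8 * inner ℝ y v * inner ℝ y w / ‖y‖ ^ 6| ≤ 8 * ‖v‖ * ‖w‖ / ‖y‖ ^ 4 := by
      rw [abs_div, abs_mul, abs_mul, abs_of_pos (by positivity : (0:ℝ) < ‖y‖ ^ 6),
        div_le_div_iff₀ (by positivity) (by positivity)]
      have h5 : |(8 : ℝ)| = 8 := by norm_num
      rw [h5]
      calc 8 * |inner ℝ y v| * |inner ℝ y w| * ‖y‖ ^ 4
          ≤ 8 * (‖y‖ * ‖v‖) * (‖y‖ * ‖w‖) * ‖y‖ ^ 4 := by gcongr
        _ = 8 * ‖v‖ * ‖w‖ * ‖y‖ ^ 6 := by ring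
    have h6 : |2 * inner ℝ v w / ‖y‖ ^ 4| ≤ 2 * ‖v‖ * ‖w‖ / ‖y‖ ^ 4 := by
      rw [abs_div, abs_mul, abs_of_pos (by positivity : (0:ℝ) < ‖y‖ ^ 4)]
      have h5 : |(2 : ℝ)| = 2 := by norm_num
      rw [h5, mul_assoc 2 ‖v‖ ‖w‖]
      gcongr
    calc |8 * inner ℝ y v * inner ℝ y w / ‖y‖ ^ 6 - 2 * inner ℝ v w / ‖y‖ ^ 4|
        ≤ |8 * inner ℝ y v * inner ℝ y w / ‖y‖ ^ 6| + |2 * inner ℝ v w / ‖y‖ ^ 4| := abs_sub _ _
      _ ≤ 8 * ‖v‖ * ‖w‖ / ‖y‖ ^ 4 + 2 * ‖v‖ * ‖w‖ / ‖y‖ ^ 4 := add_le_add h4 h6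
      _ = 10 * ‖v‖ * ‖w‖ / ‖y‖ ^ 4 := by ring

/-- the integrand as a function of parameters and point -/
noncomputable def WMean_Phi (q : ((E →L[ℝ] H) × H × (E →L[ℝ] ℝ) × ℝ) × E) : ℝ :=
  (1 / ‖q.1.1 q.2 + q.1.2.1‖ ^ 2) * (q.1.2.2.1 q.2 + q.1.2.2.2)

theorem WMean_Phi_smooth (q : ((E →L[ℝ] H) × H × (E →L[ℝ] ℝ) × ℝ) × E)
    (hq : q.1.1 q.2 + q.1.2.1 ≠ 0) : ContDiffAt ℝ 2 (WMean_Phi (E := E) (H := H)) q := by
  have h1 : ContDiff ℝ 2 fun q : ((E →L[ℝ] H) × H × (E →L[ℝ] ℝ) × ℝ) × E => q.1.1 q.2 + q.1.2.1 :=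
    (contDiff_fst.fst.clm_apply contDiff_snd).add contDiff_fst.snd.fst
  have h2 : ContDiff ℝ 2 fun q : ((E →L[ℝ] H) × H × (E →L[ℝ] ℝ) × ℝ) × E =>
      q.1.2.2.1 q.2 + q.1.2.2.2 :=
    (contDiff_fst.snd.snd.fst.clm_apply contDiff_snd).add contDiff_fst.snd.snd.snd
  have h3 : ContDiffAt ℝ 2 (fun q : ((E →L[ℝ] H) × H × (E →L[ℝ] ℝ) × ℝ) × E =>
      1 / ‖q.1.1 q.2 + q.1.2.1‖ ^ 2) q :=
    ContDiffAt.comp q (g := fun y : H => 1 / ‖y‖ ^ 2)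
      (f := fun q : ((E →L[ℝ] H) × H × (E →L[ℝ] ℝ) × ℝ) × E => q.1.1 q.2 + q.1.2.1)
      (WMean_smooth _ hq) h1.contDiffAt
  exact h3.mul h2.contDiffAt

/-- first derivative of the integrand -/
theorem WMean_f1 (L : E →L[ℝ] H) (b : H) (l : E →L[ℝ] ℝ) (c : ℝ) (x : E) (hy : L x + b ≠ 0) (v : E) :
    fderiv ℝ (fun x => 1 / ‖L x + b‖ ^ 2 * (l x + c)) x v =
      fderiv ℝ (fun y : H => 1 / ‖y‖ ^ 2) (L x + b) (L v) * (l x + c) +
        1 / ‖L x + b‖ ^ 2 * l v := by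
  have h1 : HasFDerivAt (fun x => L x + b) L x := L.hasFDerivAt.add_const b
  have h2 : HasFDerivAt (fun x => 1 / ‖L x + b‖ ^ 2)
      ((fderiv ℝ (fun y : H => 1 / ‖y‖ ^ 2) (L x + b)).comp L) x :=
    HasFDerivAt.comp x (g := fun y : H => 1 / ‖y‖ ^ 2) (f := fun x => L x + b)
      ((WMean_smooth _ hy).differentiableAt (by norm_num)).hasFDerivAt h1
  have h3 : HasFDerivAt (fun x => l x + c) l x := l.hasFDerivAt.add_const c
  have h4 := h2.mul h3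
  have h5 : fderiv ℝ (fun x => 1 / ‖L x + b‖ ^ 2 * (l x + c)) x = _ := h4.fderiv
  rw [h5]
  simp
  ring

theorem WMean_f2 (L : E →L[ℝ] H) (b : H) (l : E →L[ℝ] ℝ) (c : ℝ) (x : E) (hy : L x + b ≠ 0)
    (v w : E) :
    fderiv ℝ (fderiv ℝ fun x => 1 / ‖L x + b‖ ^ 2 * (l x + c)) x v w =
      fderiv ℝ (fderiv ℝ fun y : H => 1 / ‖y‖ ^ 2) (L x + b) (L v) (L w) * (l x + c) +
        fderiv ℝ (fun y : H => 1 / ‖y‖ ^ 2) (L x + b) (L v) * l w +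
        fderiv ℝ (fun y : H => 1 / ‖y‖ ^ 2) (L x + b) (L w) * l v := by
  have h1 : ContDiffAt ℝ 2 (fun x => L x + b) x := L.contDiff.contDiffAt.add contDiffAt_const
  have h2 : ContDiffAt ℝ 2 (fun x => 1 / ‖L x + b‖ ^ 2) x :=
    ContDiffAt.comp x (g := fun y : H => 1 / ‖y‖ ^ 2) (f := fun x => L x + b) (WMean_smooth _ hy) h1
  have h3 : ContDiffAt ℝ 2 (fun x => l x + c) x := l.contDiff.contDiffAt.add contDiffAt_const
  have h4 := fderiv2_mul h2 h3 v w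
  rw [h4]
  have h5 := fderiv2_comp_lin (f := fun y : H => 1 / ‖y‖ ^ 2) L b (x := x) (WMean_smooth _ hy) v w
  have h6 : ∀ u, fderiv ℝ (fun x => 1 / ‖L x + b‖ ^ 2) x u =
      fderiv ℝ (fun y : H => 1 / ‖y‖ ^ 2) (L x + b) (L u) := by
    intro u
    have h7 : HasFDerivAt (fun x => 1 / ‖L x + b‖ ^ 2)
        ((fderiv ℝ (fun y : H => 1 / ‖y‖ ^ 2) (L x + b)).comp L) x :=
      HasFDerivAt.comp x (g := fun y : H => 1 / ‖y‖ ^ 2) (f := fun x => L x + b)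
        ((WMean_smooth _ hy).differentiableAt (by norm_num)).hasFDerivAt (L.hasFDerivAt.add_const b)
    rw [h7.fderiv]
    simp
  have h8 : fderiv ℝ (fun x => l x + c) = fun _ => l := by
    ext1 t
    exact (l.hasFDerivAt.add_const c).fderiv
  rw [h5, h6, h6, h8]
  simp

/-- smoothness and differentiation under the integral -/
theorem WMean_int (P : Measure Ω) [IsFiniteMeasure P] (U : Set E) (hU : IsOpen U)
    (L : Ω → E →L[ℝ] H) (b : Ω → H) (hL : Continuous L) (hb : Continuous b)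
    (l : Ω → E →L[ℝ] ℝ) (c : Ω → ℝ) (hl : Continuous l) (hc : Continuous c)
    (hy : ∀ ω, ∀ x ∈ U, L ω x + b ω ≠ 0) :
    ContDiffOn ℝ 2 (fun x => ∫ ω, 1 / ‖L ω x + b ω‖ ^ 2 * (l ω x + c ω) ∂P) U ∧
    (∀ x ∈ U, ∀ v, fderiv ℝ (fun x => ∫ ω, 1 / ‖L ω x + b ω‖ ^ 2 * (l ω x + c ω) ∂P) x v =
      ∫ ω, (fderiv ℝ (fun y : H => 1 / ‖y‖ ^ 2) (L ω x + b ω) (L ω v) * (l ω x + c ω) +
        1 / ‖L ω x + b ω‖ ^ 2 * l ω v) ∂P) ∧
    ∀ x ∈ U, ∀ v w,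
      fderiv ℝ (fderiv ℝ fun x => ∫ ω, 1 / ‖L ω x + b ω‖ ^ 2 * (l ω x + c ω) ∂P) x v w =
      ∫ ω, (fderiv ℝ (fderiv ℝ fun y : H => 1 / ‖y‖ ^ 2) (L ω x + b ω) (L ω v) (L ω w) *
          (l ω x + c ω) +
        fderiv ℝ (fun y : H => 1 / ‖y‖ ^ 2) (L ω x + b ω) (L ω v) * l ω w +
        fderiv ℝ (fun y : H => 1 / ‖y‖ ^ 2) (L ω x + b ω) (L ω w) * l ω v) ∂P := by
  set p : Ω → (E →L[ℝ] H) × H × (E →L[ℝ] ℝ) × ℝ := fun ω => (L ω, b ω, l ω, c ω) with hp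
  have hpc : Continuous p := hL.prodMk (hb.prodMk (hl.prodMk hc))
  have hpc2 : Continuous fun r : Ω × E => (p r.1, r.2) :=
    (hpc.comp continuous_fst).prodMk continuous_snd
  have hsm : ∀ ω, ∀ x ∈ U, ContDiffAt ℝ 2 (WMean_Phi (E := E) (H := H)) (p ω, x) := by
    intro ω x hx
    exact WMean_Phi_smooth (p ω, x) (hy ω x hx)
  have key := param_C2 P U hU (fun ω x => 1 / ‖L ω x + b ω‖ ^ 2 * (l ω x + c ω)) ?_ ?_ ?_ ?_
  · obtain ⟨k1, k2, k3⟩ := key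
    refine ⟨k1, fun x hx v => ?_, fun x hx v w => ?_⟩
    · rw [k2 x hx v]
      refine integral_congr_ae (Eventually.of_forall fun ω => ?_)
      exact WMean_f1 (L ω) (b ω) (l ω) (c ω) x (hy ω x hx) v
    · rw [k3 x hx v w]
      refine integral_congr_ae (Eventually.of_forall fun ω => ?_)
      exact WMean_f2 (L ω) (b ω) (l ω) (c ω) x (hy ω x hx) v w
  · intro ω x hx
    have h1 : ContDiffAt ℝ 2 (fun x : E => (p ω, x)) x := contDiffAt_const.prodMk contDiffAt_id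
    have h2 := ContDiffAt.comp x (g := WMean_Phi (E := E) (H := H)) (f := fun x : E => (p ω, x))
      (hsm ω x hx) h1
    exact ContDiffAt.contDiffWithinAt h2
  · rintro ⟨ω, x⟩ ⟨-, hx⟩
    have h1 := (hsm ω x hx).continuousAt
    exact (ContinuousAt.comp (x := (ω, x)) (f := fun r : Ω × E => (p r.1, r.2)) h1
      hpc2.continuousAt).continuousWithinAt
  · rintro ⟨ω, x⟩ ⟨-, hx⟩
    have h1 := (WMean_joint _ _ (hsm ω x hx)).1
    exact (ContinuousAt.comp (x := (ω, x)) (f := fun r : Ω × E => (p r.1, r.2)) h1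
      hpc2.continuousAt).continuousWithinAt
  · rintro ⟨ω, x⟩ ⟨-, hx⟩
    have h1 := (WMean_joint _ _ (hsm ω x hx)).2
    exact (ContinuousAt.comp (x := (ω, x)) (f := fun r : Ω × E => (p r.1, r.2)) h1
      hpc2.continuousAt).continuousWithinAt

theorem WMean_abs_int (P : Measure Ω) [IsFiniteMeasure P] (f g : Ω → ℝ) (hg : Continuous g)
    (h : ∀ ω, |f ω| ≤ g ω) : |∫ ω, f ω ∂P| ≤ ∫ ω, g ω ∂P := by
  have h1 : ‖∫ ω, f ω ∂P‖ ≤ ∫ ω, g ω ∂P :=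
    norm_integral_le_of_norm_le (cont_int P g hg) (Eventually.of_forall fun ω => h ω)
  exact h1

theorem pot_bd (P : Measure Ω) [IsFiniteMeasure P] (U : Set E) (hU : IsOpen U)
    (L : Ω → E →L[ℝ] H) (b : Ω → H) (hL : Continuous L) (hb : Continuous b)
    (hy : ∀ ω, ∀ x ∈ U, L ω x + b ω ≠ 0) :
    ContDiffOn ℝ 2 (fun x => ∫ ω, 1 / ‖L ω x + b ω‖ ^ 2 ∂P) U ∧
    (∀ x ∈ U, ∀ v, |fderiv ℝ (fun x => ∫ ω, 1 / ‖L ω x + b ω‖ ^ 2 ∂P) x v| ≤
      ∫ ω, 2 * ‖L ω v‖ / ‖L ω x + b ω‖ ^ 3 ∂P) ∧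
    ∀ x ∈ U, ∀ v w, |fderiv ℝ (fderiv ℝ fun x => ∫ ω, 1 / ‖L ω x + b ω‖ ^ 2 ∂P) x v w| ≤
      ∫ ω, 10 * ‖L ω v‖ * ‖L ω w‖ / ‖L ω x + b ω‖ ^ 4 ∂P := by
  have key := WMean_int P U hU L b hL hb (fun _ => 0) (fun _ => 1) continuous_const
    continuous_const hy
  simp only [_root_.zero_apply, zero_add, mul_one, mul_zero, add_zero] at key
  obtain ⟨k1, k2, k3⟩ := key
  have hLv : ∀ v : E, Continuous fun ω => L ω v := fun v => hL.clm_apply continuous_const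
  have hyc : ∀ x : E, Continuous fun ω => L ω x + b ω := fun x => (hLv x).add hb
  refine ⟨k1, fun x hx v => ?_, fun x hx v w => ?_⟩
  · rw [k2 x hx v]
    refine WMean_abs_int P _ _ ?_ fun ω => (inv_sq_bd _ (hy ω x hx)).2.1 _
    refine Continuous.div (continuous_const.mul (hLv v).norm) ((hyc x).norm.pow 3) fun ω => ?_
    exact pow_ne_zero _ (norm_ne_zero_iff.2 (hy ω x hx))
  · rw [k3 x hx v w]
    refine WMean_abs_int P _ _ ?_ fun ω => (inv_sq_bd _ (hy ω x hx)).2.2 _ _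
    refine Continuous.div ((continuous_const.mul (hLv v).norm).mul (hLv w).norm)
      ((hyc x).norm.pow 4) fun ω => ?_
    exact pow_ne_zero _ (norm_ne_zero_iff.2 (hy ω x hx))

theorem mean_bd (P : Measure Ω) [IsFiniteMeasure P] (hP : P ≠ 0) (U : Set E) (hU : IsOpen U)
    (L : Ω → E →L[ℝ] H) (b : Ω → H) (hL : Continuous L) (hb : Continuous b)
    (l : Ω → E →L[ℝ] ℝ) (c : Ω → ℝ) (hl : Continuous l) (hc : Continuous c)
    (hy : ∀ ω, ∀ x ∈ U, L ω x + b ω ≠ 0) (M : E → ℝ)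
    (hM : ∀ x ∈ U, M x = (∫ ω, (l ω x + c ω) / ‖L ω x + b ω‖ ^ 2 ∂P) /
      ∫ ω, 1 / ‖L ω x + b ω‖ ^ 2 ∂P) :
    ContDiffOn ℝ 2 M U ∧
    (∀ x ∈ U, ∀ v, (∫ ω, 1 / ‖L ω x + b ω‖ ^ 2 ∂P) * |fderiv ℝ M x v| ≤
      ∫ ω, (2 * ‖L ω v‖ * |l ω x + c ω - M x| / ‖L ω x + b ω‖ ^ 3 +
        |l ω v| / ‖L ω x + b ω‖ ^ 2) ∂P) ∧
    ∀ x ∈ U, ∀ v w, (∫ ω, 1 / ‖L ω x + b ω‖ ^ 2 ∂P) * |fderiv ℝ (fderiv ℝ M) x v w| ≤
      (∫ ω, (10 * ‖L ω v‖ * ‖L ω w‖ * |l ω x + c ω - M x| / ‖L ω x + b ω‖ ^ 4 +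
        2 * (‖L ω v‖ * |l ω w| + ‖L ω w‖ * |l ω v|) / ‖L ω x + b ω‖ ^ 3) ∂P) +
      |fderiv ℝ M x v| * (∫ ω, 2 * ‖L ω w‖ / ‖L ω x + b ω‖ ^ 3 ∂P) +
      |fderiv ℝ M x w| * (∫ ω, 2 * ‖L ω v‖ / ‖L ω x + b ω‖ ^ 3 ∂P) := by
  have hLv : ∀ v : E, Continuous fun ω => L ω v := fun v => hL.clm_apply continuous_const
  have hlv : ∀ v : E, Continuous fun ω => l ω v := fun v => hl.clm_apply continuous_const
  have hyc : ∀ x : E, Continuous fun ω => L ω x + b ω := fun x => (hLv x).add hb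
  have hy0 : ∀ x ∈ U, ∀ ω (n : ℕ), ‖L ω x + b ω‖ ^ n ≠ 0 := fun x hx ω n =>
    pow_ne_zero _ (norm_ne_zero_iff.2 (hy ω x hx))
  obtain ⟨p1, p2, p3⟩ := pot_bd P U hU L b hL hb hy
  set W : E → ℝ := fun x => ∫ ω, 1 / ‖L ω x + b ω‖ ^ 2 ∂P with hW
  have hWpos : ∀ x ∈ U, 0 < W x := by
    intro x hx
    have hi : Integrable (fun ω => 1 / ‖L ω x + b ω‖ ^ 2) P :=
      cont_int P _ (continuous_const.div ((hyc x).norm.pow 2) fun ω => hy0 x hx ω 2)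
    have hpos : ∀ ω, 0 < 1 / ‖L ω x + b ω‖ ^ 2 := fun ω => by
      have := norm_pos_iff.2 (hy ω x hx)
      positivity
    rw [hW]
    refine (integral_pos_iff_support_of_nonneg (fun ω => (hpos ω).le) hi).2 ?_
    have : Function.support (fun ω => 1 / ‖L ω x + b ω‖ ^ 2) = univ := by
      ext ω; simp only [Function.mem_support, mem_univ, iff_true]; exact (hpos ω).ne'
    rw [this]
    exact pos_iff_ne_zero.2 fun h => hP (Measure.measure_univ_eq_zero.1 h)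
  -- the numerator, with a constant subtracted
  have hN := fun m : ℝ => WMean_int P U hU L b hL hb l (fun ω => c ω - m) hl (hc.sub continuous_const) hy
  have hNM : ∀ m : ℝ, ∀ x ∈ U, (∫ ω, 1 / ‖L ω x + b ω‖ ^ 2 * (l ω x + (c ω - m)) ∂P) =
      W x * (M x - m) := by
    intro m x hx
    have i1 : Integrable (fun ω => 1 / ‖L ω x + b ω‖ ^ 2) P :=
      cont_int P _ (continuous_const.div ((hyc x).norm.pow 2) fun ω => hy0 x hx ω 2)
    have i2 : Integrable (fun ω => (l ω x + c ω) / ‖L ω x + b ω‖ ^ 2) P :=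
      cont_int P _ (((hlv x).add hc).div ((hyc x).norm.pow 2) fun ω => hy0 x hx ω 2)
    have e1 : (fun ω => 1 / ‖L ω x + b ω‖ ^ 2 * (l ω x + (c ω - m))) =
        fun ω => (l ω x + c ω) / ‖L ω x + b ω‖ ^ 2 - m * (1 / ‖L ω x + b ω‖ ^ 2) := by
      ext ω; ring
    rw [e1, integral_sub i2 (i1.const_mul m), integral_const_mul]
    have hw := (hWpos x hx).ne'
    rw [hM x hx]
    change _ - m * W x = W x * (_ / W x - m)
    field_simp
  have hNs : ∀ m : ℝ, ContDiffOn ℝ 2 (fun x => W x * (M x - m)) U := by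
    intro m
    exact (hN m).1.congr fun x hx => (hNM m x hx).symm
  have hMs : ContDiffOn ℝ 2 M U := by
    have h1 : ContDiffOn ℝ 2 (fun x => W x * (M x - 0) / W x) U :=
      (hNs 0).div p1 fun x hx => (hWpos x hx).ne'
    refine h1.congr fun x hx => ?_
    have hw := (hWpos x hx).ne'
    field_simp
    ring
  have hMat : ∀ x ∈ U, ContDiffAt ℝ 2 M x := fun x hx => hMs.contDiffAt (hU.mem_nhds hx)
  have hWat : ∀ x ∈ U, ContDiffAt ℝ 2 W x := fun x hx => p1.contDiffAt (hU.mem_nhds hx)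
  have hge : ∀ m : ℝ, ∀ x ∈ U, (fun x => ∫ ω, 1 / ‖L ω x + b ω‖ ^ 2 * (l ω x + (c ω - m)) ∂P)
      =ᶠ[𝓝 x] fun x => W x * (M x - m) := by
    intro m x hx
    filter_upwards [hU.mem_nhds hx] with t ht using hNM m t ht
  have hd1 : ∀ x ∈ U, ∀ v, W x * fderiv ℝ M x v =
      ∫ ω, (fderiv ℝ (fun y : H => 1 / ‖y‖ ^ 2) (L ω x + b ω) (L ω v) * (l ω x + (c ω - M x)) +
        1 / ‖L ω x + b ω‖ ^ 2 * l ω v) ∂P := by
    intro x hx v
    rw [← (hN (M x)).2.1 x hx v, (hge (M x) x hx).fderiv_eq]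
    have h1 : HasFDerivAt (fun t => W t * (M t - M x)) _ x :=
      ((hWat x hx).differentiableAt (by norm_num)).hasFDerivAt.mul
        (((hMat x hx).differentiableAt (by norm_num)).hasFDerivAt.sub_const (M x))
    rw [h1.fderiv]
    simp
  have hd2 : ∀ x ∈ U, ∀ v w, W x * fderiv ℝ (fderiv ℝ M) x v w =
      (∫ ω, (fderiv ℝ (fderiv ℝ fun y : H => 1 / ‖y‖ ^ 2) (L ω x + b ω) (L ω v) (L ω w) *
          (l ω x + (c ω - M x)) +
        fderiv ℝ (fun y : H => 1 / ‖y‖ ^ 2) (L ω x + b ω) (L ω v) * l ω w +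
        fderiv ℝ (fun y : H => 1 / ‖y‖ ^ 2) (L ω x + b ω) (L ω w) * l ω v) ∂P) -
      fderiv ℝ M x w * fderiv ℝ W x v - fderiv ℝ M x v * fderiv ℝ W x w := by
    intro x hx v w
    rw [← (hN (M x)).2.2 x hx v w, fderiv2_congr (hge (M x) x hx)]
    have hc1 : ContDiffAt ℝ 2 (fun t => M t - M x) x := (hMat x hx).sub contDiffAt_const
    rw [fderiv2_mul (hWat x hx) hc1]
    have e1 : fderiv ℝ (fun t => M t - M x) = fderiv ℝ M := by
      ext1 t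
      exact fderiv_sub_const (M x)
    rw [e1]
    ring
  refine ⟨hMs, fun x hx v => ?_, fun x hx v w => ?_⟩
  · have h1 : W x * |fderiv ℝ M x v| = |W x * fderiv ℝ M x v| := by
      rw [abs_mul, abs_of_pos (hWpos x hx)]
    change W x * |fderiv ℝ M x v| ≤ _
    rw [h1, hd1 x hx v]
    refine WMean_abs_int P _ _ ?_ fun ω => ?_
    · refine Continuous.add (Continuous.div ((continuous_const.mul (hLv v).norm).mul
        (((hlv x).add hc).sub continuous_const).abs) ((hyc x).norm.pow 3) fun ω => hy0 x hx ω 3)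
        (Continuous.div (hlv v).abs ((hyc x).norm.pow 2) fun ω => hy0 x hx ω 2)
    · have h2 := (inv_sq_bd _ (hy ω x hx)).2.1 (L ω v)
      have hn : 0 < ‖L ω x + b ω‖ := norm_pos_iff.2 (hy ω x hx)
      have e1 : l ω x + (c ω - M x) = l ω x + c ω - M x := by ring
      rw [e1]
      calc _ ≤ |fderiv ℝ (fun y : H => 1 / ‖y‖ ^ 2) (L ω x + b ω) (L ω v) * (l ω x + c ω - M x)| +
            |1 / ‖L ω x + b ω‖ ^ 2 * l ω v| := abs_add_le _ _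
        _ ≤ 2 * ‖L ω v‖ / ‖L ω x + b ω‖ ^ 3 * |l ω x + c ω - M x| +
            |1 / ‖L ω x + b ω‖ ^ 2 * l ω v| := by
            rw [abs_mul]; gcongr
        _ = _ := by
            rw [abs_mul, abs_of_pos (by positivity : (0:ℝ) < 1 / ‖L ω x + b ω‖ ^ 2)]
            ring
  · have h1 : W x * |fderiv ℝ (fderiv ℝ M) x v w| = |W x * fderiv ℝ (fderiv ℝ M) x v w| := by
      rw [abs_mul, abs_of_pos (hWpos x hx)]
    change W x * |fderiv ℝ (fderiv ℝ M) x v w| ≤ _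
    rw [h1, hd2 x hx v w]
    have h2 : ∀ a b c : ℝ, |a - b - c| ≤ |a| + |c| + |b| := by
      intro a b c
      calc |a - b - c| ≤ |a - b| + |c| := abs_sub _ _
        _ ≤ |a| + |b| + |c| := by gcongr; exact abs_sub _ _
        _ = _ := by ring
    refine (h2 _ _ _).trans ?_
    have h3 : |∫ ω, (fderiv ℝ (fderiv ℝ fun y : H => 1 / ‖y‖ ^ 2) (L ω x + b ω) (L ω v) (L ω w) *
          (l ω x + (c ω - M x)) +
        fderiv ℝ (fun y : H => 1 / ‖y‖ ^ 2) (L ω x + b ω) (L ω v) * l ω w +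
        fderiv ℝ (fun y : H => 1 / ‖y‖ ^ 2) (L ω x + b ω) (L ω w) * l ω v) ∂P| ≤
        ∫ ω, (10 * ‖L ω v‖ * ‖L ω w‖ * |l ω x + c ω - M x| / ‖L ω x + b ω‖ ^ 4 +
        2 * (‖L ω v‖ * |l ω w| + ‖L ω w‖ * |l ω v|) / ‖L ω x + b ω‖ ^ 3) ∂P := by
      refine WMean_abs_int P _ _ ?_ fun ω => ?_
      · refine Continuous.add (Continuous.div (((continuous_const.mul (hLv v).norm).mul
          (hLv w).norm).mul (((hlv x).add hc).sub continuous_const).abs) ((hyc x).norm.pow 4)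
          fun ω => hy0 x hx ω 4) (Continuous.div (continuous_const.mul
          (((hLv v).norm.mul (hlv w).abs).add ((hLv w).norm.mul (hlv v).abs)))
          ((hyc x).norm.pow 3) fun ω => hy0 x hx ω 3)
      · have hn : 0 < ‖L ω x + b ω‖ := norm_pos_iff.2 (hy ω x hx)
        have g1 := (inv_sq_bd _ (hy ω x hx)).2.1 (L ω v)
        have g2 := (inv_sq_bd _ (hy ω x hx)).2.1 (L ω w)
        have g3 := (inv_sq_bd _ (hy ω x hx)).2.2 (L ω v) (L ω w)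
        have e1 : l ω x + (c ω - M x) = l ω x + c ω - M x := by ring
        rw [e1]
        refine (abs_add_le _ _).trans ?_
        refine (add_le_add (abs_add_le _ _) le_rfl).trans ?_
        rw [abs_mul, abs_mul, abs_mul]
        calc _ ≤ 10 * ‖L ω v‖ * ‖L ω w‖ / ‖L ω x + b ω‖ ^ 4 * |l ω x + c ω - M x| +
              2 * ‖L ω v‖ / ‖L ω x + b ω‖ ^ 3 * |l ω w| +
              2 * ‖L ω w‖ / ‖L ω x + b ω‖ ^ 3 * |l ω v| := by gcongr
          _ = _ := by ring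
    have h4 : |fderiv ℝ M x v * fderiv ℝ W x w| ≤
        |fderiv ℝ M x v| * ∫ ω, 2 * ‖L ω w‖ / ‖L ω x + b ω‖ ^ 3 ∂P := by
      rw [abs_mul]
      exact mul_le_mul_of_nonneg_left (p2 x hx w) (abs_nonneg _)
    have h5 : |fderiv ℝ M x w * fderiv ℝ W x v| ≤
        |fderiv ℝ M x w| * ∫ ω, 2 * ‖L ω v‖ / ‖L ω x + b ω‖ ^ 3 ∂P := by
      rw [abs_mul]
      exact mul_le_mul_of_nonneg_left (p2 x hx v) (abs_nonneg _)
    exact add_le_add (add_le_add h3 h4) h5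

end Pool.Agent.Wtw
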