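import Mathlib
import Pool.Agent.Wtw.MuDev
import Pool.Agent.Wtw.WMean

/-!
# MuBnd: smoothness of the robust mean and bounds of its derivatives

Apply `mean_bd` with `Ω = A4`, `P = PA`, `U = {s > 0}`, `L α = LA (univ.erase α.1)`,
`b α = -LA (univ.erase α.1) (zet α.2, 0)`, `l α v = lamT (univ.erase α.1) v.1`,
`c α = -lamT (univ.erase α.1) (zet α.2)` (`rhoSq_eq`); with `|lamA α w - mu w s| <= C rho` (`mu_dev`),
`|L α v| <= 3 |v|`, `|l α v| <= |v|`, `rho >= s`, and `∫ 1/rho^3 <= (1/s) W`, `∫ 1/rho^4 * rho <= (1/s) W`.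
`MM_raw` records the form used for case B.
-/

namespace Pool.Agent.Wtw

open MeasureTheory Set Filter Topology
open scoped ENNReal

/-- the robust mean as a function of `(w, s)` -/
noncomputable def MM : W4 × ℝ → ℝ := fun t => mu t.1 t.2

/-- `a α v` = size of the part of `v` seen by the candidate `α` -/
noncomputable def seen (e : Fin 4) (v : W4 × ℝ) : ℝ := max ‖Function.update v.1 e 0‖ |v.2|

/-- `lamT` as a continuous linear map on pairs -/
noncomputable def MuBnd_lam (T : Finset (Fin 4)) : (W4 × ℝ) →L[ℝ] ℝ :=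
  LinearMap.toContinuousLinearMap
    { toFun := fun p => lamT T p.1
      map_add' := by
        intro p q
        simp [lamT_add]
      map_smul' := by
        intro c p
        simp [lamT_smul] }

theorem MuBnd_lam_apply (T : Finset (Fin 4)) (p : W4 × ℝ) : MuBnd_lam T p = lamT T p.1 := rfl

noncomputable def MuBnd_L (α : A4) : (W4 × ℝ) →L[ℝ] EuclideanSpace ℝ (Option (Fin 4)) :=
  LA (Finset.univ.erase α.1)

noncomputable def MuBnd_b (α : A4) : EuclideanSpace ℝ (Option (Fin 4)) :=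
  -(LA (Finset.univ.erase α.1) (zet α.2, 0))

noncomputable def MuBnd_l (α : A4) : (W4 × ℝ) →L[ℝ] ℝ := MuBnd_lam (Finset.univ.erase α.1)

noncomputable def MuBnd_c (α : A4) : ℝ := -(MuBnd_lam (Finset.univ.erase α.1) (zet α.2, 0))

theorem MuBnd_L_cont : Continuous MuBnd_L :=
  (continuous_of_discreteTopology (f := fun e : Fin 4 => LA (Finset.univ.erase e))).comp
    continuous_fst

theorem MuBnd_l_cont : Continuous MuBnd_l :=
  (continuous_of_discreteTopology (f := fun e : Fin 4 => MuBnd_lam (Finset.univ.erase e))).comp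
    continuous_fst

theorem MuBnd_pt_cont : Continuous fun α : A4 => ((zet α.2, (0 : ℝ)) : W4 × ℝ) :=
  (zet_cont.comp continuous_snd).prodMk continuous_const

theorem MuBnd_b_cont : Continuous MuBnd_b :=
  (MuBnd_L_cont.clm_apply MuBnd_pt_cont).neg

theorem MuBnd_c_cont : Continuous MuBnd_c :=
  (MuBnd_l_cont.clm_apply MuBnd_pt_cont).neg

theorem MuBnd_rho (α : A4) (x : W4 × ℝ) : ‖MuBnd_L α x + MuBnd_b α‖ = rho α x.1 x.2 := by
  rw [rho_eq, MuBnd_b, MuBnd_L, sub_eq_add_neg]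

theorem MuBnd_rhoSq (α : A4) (x : W4 × ℝ) : ‖MuBnd_L α x + MuBnd_b α‖ ^ 2 = rhoSq α x.1 x.2 := by
  rw [MuBnd_rho, rho_sq]

theorem MuBnd_lamA (α : A4) (x : W4 × ℝ) : MuBnd_l α x + MuBnd_c α = lamA α x.1 := by
  rw [MuBnd_l, MuBnd_c, MuBnd_lam_apply, MuBnd_lam_apply, lamA]
  have h : x.1 - zet α.2 = x.1 + (-1 : ℝ) • zet α.2 := by
    rw [neg_one_smul, sub_eq_add_neg]
  rw [h, lamT_add, lamT_smul]
  ring

theorem MuBnd_rho_pos (α : A4) (w : W4) (s : ℝ) (hs : 0 < s) : 0 < rho α w s :=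
  lt_of_lt_of_le (abs_pos.mpr hs.ne') (rho_ge α w s)

theorem MuBnd_hy : ∀ α : A4, ∀ x ∈ {x : W4 × ℝ | 0 < x.2}, MuBnd_L α x + MuBnd_b α ≠ 0 := by
  intro α x hx h0
  have h1 := MuBnd_rho α x
  rw [h0, norm_zero] at h1
  exact (MuBnd_rho_pos α x.1 x.2 hx).ne h1

theorem MuBnd_open : IsOpen {x : W4 × ℝ | 0 < x.2} :=
  isOpen_lt continuous_const continuous_snd

theorem MuBnd_PA_ne : PA ≠ 0 := by
  intro h
  have h1 := PA_univ
  rw [h] at h1
  simp at h1

theorem MuBnd_hM : ∀ x ∈ {x : W4 × ℝ | 0 < x.2},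
    MM x = (∫ α, (MuBnd_l α x + MuBnd_c α) / ‖MuBnd_L α x + MuBnd_b α‖ ^ 2 ∂PA) /
      ∫ α, 1 / ‖MuBnd_L α x + MuBnd_b α‖ ^ 2 ∂PA := by
  intro x _
  simp only [MuBnd_rhoSq, MuBnd_lamA]
  rfl

theorem MM_smooth (w : W4) (s : ℝ) (hs : 0 < s) : ContDiffAt ℝ 2 MM (w, s) := by
  have main := mean_bd PA MuBnd_PA_ne {x : W4 × ℝ | 0 < x.2} MuBnd_open MuBnd_L MuBnd_b
    MuBnd_L_cont MuBnd_b_cont MuBnd_l MuBnd_c MuBnd_l_cont MuBnd_c_cont MuBnd_hy MM MuBnd_hM
  exact main.1.contDiffAt (MuBnd_open.mem_nhds hs)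

theorem MuBnd_seen_nonneg (e : Fin 4) (v : W4 × ℝ) : 0 ≤ seen e v :=
  le_trans (norm_nonneg _) (le_max_left _ _)

theorem MuBnd_seen_coord (e : Fin 4) (v : W4 × ℝ) (i : Fin 4) (hi : i ∈ Finset.univ.erase e) :
    |v.1 i| ≤ seen e v := by
  have hne : i ≠ e := Finset.ne_of_mem_erase hi
  have h1 : ‖(Function.update v.1 e 0) i‖ ≤ ‖Function.update v.1 e 0‖ := norm_le_pi_norm _ i
  rw [Function.update_of_ne hne, Real.norm_eq_abs] at h1
  exact le_trans h1 (le_max_left _ _)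

theorem MuBnd_L_le (α : A4) (v : W4 × ℝ) : ‖MuBnd_L α v‖ ≤ 3 * seen α.1 v :=
  LA_le _ v _ (le_max_right _ _) (fun i hi => MuBnd_seen_coord α.1 v i hi)

theorem MuBnd_l_le (α : A4) (v : W4 × ℝ) : |MuBnd_l α v| ≤ seen α.1 v :=
  lamT_le _ v.1 _ (MuBnd_seen_nonneg _ _) (fun i hi => MuBnd_seen_coord α.1 v i hi)

theorem MuBnd_seen_le (e : Fin 4) (v : W4 × ℝ) : seen e v ≤ ‖v‖ := by
  refine max_le ?_ ?_
  · refine (pi_norm_le_iff_of_nonneg (norm_nonneg v)).mpr ?_
    intro i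
    by_cases h : i = e
    · subst h
      simp
    · rw [Function.update_of_ne h]
      exact le_trans (norm_le_pi_norm v.1 i) (norm_fst_le v)
  · exact norm_snd_le v

theorem MuBnd_seen_cont (v : W4 × ℝ) : Continuous fun α : A4 => seen α.1 v :=
  (continuous_of_discreteTopology (f := fun e : Fin 4 => seen e v)).comp continuous_fst

theorem MuBnd_int {f : A4 → ℝ} (hf : Continuous f) : Integrable f PA :=
  hf.integrable_of_hasCompactSupport (HasCompactSupport.of_compactSpace f)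

theorem MuBnd_rc (w : W4) (s : ℝ) : Continuous fun α : A4 => rho α w s := rho_cont_index w s

theorem MuBnd_nrm_cont (x : W4 × ℝ) : Continuous fun α : A4 => ‖MuBnd_L α x + MuBnd_b α‖ :=
  ((MuBnd_L_cont.clm_apply continuous_const).add MuBnd_b_cont).norm

theorem MM_raw : ∃ C : ℝ, 0 < C ∧ ∀ (w : W4) (s : ℝ), 0 < s →
    (∀ v, (∫ α, 1 / rhoSq α w s ∂PA) * |fderiv ℝ MM (w, s) v| ≤
      C * ∫ α, seen α.1 v / rhoSq α w s ∂PA) ∧
    ∀ v v', (∫ α, 1 / rhoSq α w s ∂PA) * |fderiv ℝ (fderiv ℝ MM) (w, s) v v'| ≤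
      C * ((∫ α, seen α.1 v * seen α.1 v' / rho α w s ^ 3 ∂PA) +
        |fderiv ℝ MM (w, s) v| * (∫ α, seen α.1 v' / rho α w s ^ 3 ∂PA) +
        |fderiv ℝ MM (w, s) v'| * (∫ α, seen α.1 v / rho α w s ^ 3 ∂PA)) := by
  obtain ⟨C0, hC0, hdev⟩ := mu_dev
  refine ⟨90 * C0 + 12, by positivity, ?_⟩
  intro w s hs
  have hx : (w, s) ∈ {x : W4 × ℝ | 0 < x.2} := hs
  obtain ⟨_, h1, h2⟩ := mean_bd PA MuBnd_PA_ne {x : W4 × ℝ | 0 < x.2} MuBnd_open MuBnd_L MuBnd_b
    MuBnd_L_cont MuBnd_b_cont MuBnd_l MuBnd_c MuBnd_l_cont MuBnd_c_cont MuBnd_hy MM MuBnd_hM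
  have h1 := h1 (w, s) hx
  have h2 := h2 (w, s) hx
  have hrho : ∀ α, ‖MuBnd_L α (w, s) + MuBnd_b α‖ = rho α w s := fun α => MuBnd_rho α (w, s)
  have hlam : ∀ α, MuBnd_l α (w, s) + MuBnd_c α = lamA α w := fun α => MuBnd_lamA α (w, s)
  have hMM : MM (w, s) = mu w s := rfl
  simp only [hrho, hlam, hMM] at h1 h2
  have hsq : ∀ α, rhoSq α w s = rho α w s ^ 2 := fun α => (rho_sq α w s).symm
  simp only [hsq]
  have hpos : ∀ α : A4, 0 < rho α w s := fun α => MuBnd_rho_pos α w s hs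
  have hne : ∀ α : A4, rho α w s ≠ 0 := fun α => (hpos α).ne'
  have hc := MuBnd_rc w s
  have hlc : Continuous fun α : A4 => lamA α w := by
    have h3 : (fun α : A4 => lamA α w) = fun α => MuBnd_l α (w, s) + MuBnd_c α := by
      funext α
      exact (hlam α).symm
    rw [h3]
    exact (MuBnd_l_cont.clm_apply continuous_const).add MuBnd_c_cont
  have hLc : ∀ v : W4 × ℝ, Continuous fun α : A4 => ‖MuBnd_L α v‖ := fun v =>
    (MuBnd_L_cont.clm_apply continuous_const).norm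
  have hlcv : ∀ v : W4 × ℝ, Continuous fun α : A4 => |MuBnd_l α v| := fun v =>
    (MuBnd_l_cont.clm_apply continuous_const).abs
  -- scaling of the integrals of `‖L v‖ / rho^3`
  have hS : ∀ v : W4 × ℝ, (∫ α, 2 * ‖MuBnd_L α v‖ / rho α w s ^ 3 ∂PA) ≤
      (90 * C0 + 12) * ∫ α, seen α.1 v / rho α w s ^ 3 ∂PA := by
    intro v
    rw [← integral_const_mul]
    refine integral_mono (MuBnd_int ?_) (MuBnd_int ?_) ?_
    · exact (continuous_const.mul (hLc v)).div (hc.pow 3) (fun α => pow_ne_zero _ (hne α))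
    · exact continuous_const.mul ((MuBnd_seen_cont v).div (hc.pow 3) (fun α => pow_ne_zero _ (hne α)))
    · intro α
      show 2 * ‖MuBnd_L α v‖ / rho α w s ^ 3 ≤ (90 * C0 + 12) * (seen α.1 v / rho α w s ^ 3)
      have h3 : 0 ≤ seen α.1 v := MuBnd_seen_nonneg _ _
      have h4 := MuBnd_L_le α v
      rw [← mul_div_assoc]
      refine div_le_div_of_nonneg_right ?_ (pow_nonneg (hpos α).le 3)
      nlinarith [mul_nonneg hC0.le h3]
  refine ⟨?_, ?_⟩
  · intro v
    refine le_trans (h1 v) ?_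
    rw [← integral_const_mul]
    refine integral_mono (MuBnd_int ?_) (MuBnd_int ?_) ?_
    · refine Continuous.add ?_ ?_
      · exact ((continuous_const.mul (hLc v)).mul ((hlc.sub continuous_const).abs)).div (hc.pow 3)
          (fun α => pow_ne_zero _ (hne α))
      · exact (hlcv v).div (hc.pow 2) (fun α => pow_ne_zero _ (hne α))
    · exact continuous_const.mul ((MuBnd_seen_cont v).div (hc.pow 2) (fun α => pow_ne_zero _ (hne α)))
    · intro α
      show 2 * ‖MuBnd_L α v‖ * |lamA α w - mu w s| / rho α w s ^ 3 + |MuBnd_l α v| / rho α w s ^ 2 ≤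
        (90 * C0 + 12) * (seen α.1 v / rho α w s ^ 2)
      have h3 : 0 ≤ seen α.1 v := MuBnd_seen_nonneg _ _
      have h4 := MuBnd_L_le α v
      have h5 := MuBnd_l_le α v
      have h6 := hdev α w s hs
      have hp := hpos α
      have e1 : 2 * ‖MuBnd_L α v‖ * |lamA α w - mu w s| / rho α w s ^ 3 ≤
          2 * (3 * seen α.1 v) * (C0 * rho α w s) / rho α w s ^ 3 := by
        refine div_le_div_of_nonneg_right ?_ (pow_nonneg hp.le 3)
        refine mul_le_mul ?_ h6 (abs_nonneg _) (by positivity)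
        linarith
      have e2 : 2 * (3 * seen α.1 v) * (C0 * rho α w s) / rho α w s ^ 3 =
          6 * C0 * (seen α.1 v / rho α w s ^ 2) := by
        field_simp
        try ring
      have e3 : |MuBnd_l α v| / rho α w s ^ 2 ≤ seen α.1 v / rho α w s ^ 2 :=
        div_le_div_of_nonneg_right h5 (pow_nonneg hp.le 2)
      have e4 : 0 ≤ seen α.1 v / rho α w s ^ 2 := by positivity
      rw [e2] at e1
      nlinarith [mul_nonneg hC0.le e4]
  · intro v v'
    refine le_trans (h2 v v') ?_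
    have hI : (∫ α, (10 * ‖MuBnd_L α v‖ * ‖MuBnd_L α v'‖ * |lamA α w - mu w s| / rho α w s ^ 4 +
        2 * (‖MuBnd_L α v‖ * |MuBnd_l α v'| + ‖MuBnd_L α v'‖ * |MuBnd_l α v|) / rho α w s ^ 3) ∂PA) ≤
        (90 * C0 + 12) * ∫ α, seen α.1 v * seen α.1 v' / rho α w s ^ 3 ∂PA := by
      rw [← integral_const_mul]
      refine integral_mono (MuBnd_int ?_) (MuBnd_int ?_) ?_
      · refine Continuous.add ?_ ?_
        · exact (((continuous_const.mul (hLc v)).mul (hLc v')).mul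
            ((hlc.sub continuous_const).abs)).div (hc.pow 4) (fun α => pow_ne_zero _ (hne α))
        · exact (continuous_const.mul (((hLc v).mul (hlcv v')).add ((hLc v').mul (hlcv v)))).div
            (hc.pow 3) (fun α => pow_ne_zero _ (hne α))
      · exact continuous_const.mul (((MuBnd_seen_cont v).mul (MuBnd_seen_cont v')).div (hc.pow 3)
          (fun α => pow_ne_zero _ (hne α)))
      · intro α
        show 10 * ‖MuBnd_L α v‖ * ‖MuBnd_L α v'‖ * |lamA α w - mu w s| / rho α w s ^ 4 +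
          2 * (‖MuBnd_L α v‖ * |MuBnd_l α v'| + ‖MuBnd_L α v'‖ * |MuBnd_l α v|) / rho α w s ^ 3 ≤
          (90 * C0 + 12) * (seen α.1 v * seen α.1 v' / rho α w s ^ 3)
        have h3 : 0 ≤ seen α.1 v := MuBnd_seen_nonneg _ _
        have h3' : 0 ≤ seen α.1 v' := MuBnd_seen_nonneg _ _
        have h4 := MuBnd_L_le α v
        have h4' := MuBnd_L_le α v'
        have h5 := MuBnd_l_le α v
        have h5' := MuBnd_l_le α v'
        have h6 := hdev α w s hs
        have hp := hpos α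
        have e1 : 10 * ‖MuBnd_L α v‖ * ‖MuBnd_L α v'‖ * |lamA α w - mu w s| / rho α w s ^ 4 ≤
            10 * (3 * seen α.1 v) * (3 * seen α.1 v') * (C0 * rho α w s) / rho α w s ^ 4 := by
          refine div_le_div_of_nonneg_right ?_ (pow_nonneg hp.le 4)
          refine mul_le_mul ?_ h6 (abs_nonneg _) (by positivity)
          refine mul_le_mul ?_ h4' (norm_nonneg _) (by positivity)
          linarith
        have e2 : 10 * (3 * seen α.1 v) * (3 * seen α.1 v') * (C0 * rho α w s) / rho α w s ^ 4 =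
            90 * C0 * (seen α.1 v * seen α.1 v' / rho α w s ^ 3) := by
          field_simp
          try ring
        have e3 : 2 * (‖MuBnd_L α v‖ * |MuBnd_l α v'| + ‖MuBnd_L α v'‖ * |MuBnd_l α v|) /
            rho α w s ^ 3 ≤ 12 * (seen α.1 v * seen α.1 v') / rho α w s ^ 3 := by
          refine div_le_div_of_nonneg_right ?_ (pow_nonneg hp.le 3)
          have a1 : ‖MuBnd_L α v‖ * |MuBnd_l α v'| ≤ 3 * seen α.1 v * seen α.1 v' :=
            mul_le_mul h4 h5' (abs_nonneg _) (by positivity)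
          have a2 : ‖MuBnd_L α v'‖ * |MuBnd_l α v| ≤ 3 * seen α.1 v' * seen α.1 v :=
            mul_le_mul h4' h5 (abs_nonneg _) (by positivity)
          nlinarith
        rw [e2] at e1
        rw [mul_div_assoc 12] at e3
        have e5 : (90 * C0 + 12) * (seen α.1 v * seen α.1 v' / rho α w s ^ 3) =
          90 * C0 * (seen α.1 v * seen α.1 v' / rho α w s ^ 3) +
            12 * (seen α.1 v * seen α.1 v' / rho α w s ^ 3) := by ring
        rw [e5]
        exact add_le_add e1 e3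
    have hA := mul_le_mul_of_nonneg_left (hS v') (abs_nonneg (fderiv ℝ MM (w, s) v))
    have hB := mul_le_mul_of_nonneg_left (hS v) (abs_nonneg (fderiv ℝ MM (w, s) v'))
    have e6 : (90 * C0 + 12) * ((∫ α, seen α.1 v * seen α.1 v' / rho α w s ^ 3 ∂PA) +
        |fderiv ℝ MM (w, s) v| * (∫ α, seen α.1 v' / rho α w s ^ 3 ∂PA) +
        |fderiv ℝ MM (w, s) v'| * (∫ α, seen α.1 v / rho α w s ^ 3 ∂PA)) =
        (90 * C0 + 12) * (∫ α, seen α.1 v * seen α.1 v' / rho α w s ^ 3 ∂PA) +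
        |fderiv ℝ MM (w, s) v| * ((90 * C0 + 12) * ∫ α, seen α.1 v' / rho α w s ^ 3 ∂PA) +
        |fderiv ℝ MM (w, s) v'| * ((90 * C0 + 12) * ∫ α, seen α.1 v / rho α w s ^ 3 ∂PA) := by ring
    rw [e6]
    exact add_le_add (add_le_add hI hA) hB

theorem MM_bd : ∃ C : ℝ, 0 < C ∧ ∀ (w : W4) (s : ℝ), 0 < s →
    (∀ v, |fderiv ℝ MM (w, s) v| ≤ C * ‖v‖) ∧
    ∀ v v', |fderiv ℝ (fderiv ℝ MM) (w, s) v v'| ≤ C / s * ‖v‖ * ‖v'‖ := by
  obtain ⟨C, hC, hraw⟩ := MM_raw
  refine ⟨C + C * (1 + 2 * C), by positivity, ?_⟩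
  intro w s hs
  obtain ⟨h1, h2⟩ := hraw w s hs
  have hW := W_pos w s hs
  have hsq : ∀ α, rhoSq α w s = rho α w s ^ 2 := fun α => (rho_sq α w s).symm
  have hpos : ∀ α : A4, 0 < rho α w s := fun α => MuBnd_rho_pos α w s hs
  have hne : ∀ α : A4, rho α w s ≠ 0 := fun α => (hpos α).ne'
  have hge : ∀ α : A4, s ≤ rho α w s := fun α => le_trans (le_abs_self s) (rho_ge α w s)
  have hc := MuBnd_rc w s
  set W : ℝ := ∫ α, 1 / rhoSq α w s ∂PA with hWdef
  have hWi : Continuous fun α : A4 => 1 / rhoSq α w s := by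
    simp only [hsq]
    exact continuous_const.div (hc.pow 2) (fun α => pow_ne_zero _ (hne α))
  have i1 : ∀ v : W4 × ℝ, (∫ α, seen α.1 v / rhoSq α w s ∂PA) ≤ ‖v‖ * W := by
    intro v
    rw [hWdef, ← integral_const_mul]
    refine integral_mono (MuBnd_int ?_) (MuBnd_int ?_) ?_
    · simp only [hsq]
      exact (MuBnd_seen_cont v).div (hc.pow 2) (fun α => pow_ne_zero _ (hne α))
    · exact continuous_const.mul hWi
    · intro α
      show seen α.1 v / rhoSq α w s ≤ ‖v‖ * (1 / rhoSq α w s)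
      rw [mul_one_div, hsq]
      exact div_le_div_of_nonneg_right (MuBnd_seen_le _ _) (pow_nonneg (hpos α).le 2)
  have key3 : ∀ (α : A4) (A B : ℝ), 0 ≤ A → A ≤ B → A / rho α w s ^ 3 ≤
      B / s * (1 / rhoSq α w s) := by
    intro α A B hA hAB
    rw [hsq, div_mul_div_comm, mul_one]
    have hp := hpos α
    have h3 : s * rho α w s ^ 2 ≤ rho α w s ^ 3 := by
      have := mul_le_mul_of_nonneg_right (hge α) (pow_nonneg hp.le 2)
      calc s * rho α w s ^ 2 ≤ rho α w s * rho α w s ^ 2 := this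
        _ = rho α w s ^ 3 := by ring
    exact div_le_div₀ (le_trans hA hAB) hAB (by positivity) h3
  have i3 : ∀ v : W4 × ℝ, (∫ α, seen α.1 v / rho α w s ^ 3 ∂PA) ≤ ‖v‖ / s * W := by
    intro v
    rw [hWdef, ← integral_const_mul]
    refine integral_mono (MuBnd_int ?_) (MuBnd_int ?_) ?_
    · exact (MuBnd_seen_cont v).div (hc.pow 3) (fun α => pow_ne_zero _ (hne α))
    · exact continuous_const.mul hWi
    · intro α
      exact key3 α _ _ (MuBnd_seen_nonneg _ _) (MuBnd_seen_le _ _)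
  have i33 : ∀ v v' : W4 × ℝ, (∫ α, seen α.1 v * seen α.1 v' / rho α w s ^ 3 ∂PA) ≤
      ‖v‖ * ‖v'‖ / s * W := by
    intro v v'
    rw [hWdef, ← integral_const_mul]
    refine integral_mono (MuBnd_int ?_) (MuBnd_int ?_) ?_
    · exact ((MuBnd_seen_cont v).mul (MuBnd_seen_cont v')).div (hc.pow 3)
        (fun α => pow_ne_zero _ (hne α))
    · exact continuous_const.mul hWi
    · intro α
      exact key3 α _ _ (mul_nonneg (MuBnd_seen_nonneg _ _) (MuBnd_seen_nonneg _ _))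
        (mul_le_mul (MuBnd_seen_le _ _) (MuBnd_seen_le _ _) (MuBnd_seen_nonneg _ _) (norm_nonneg _))
  have d1 : ∀ v, |fderiv ℝ MM (w, s) v| ≤ C * ‖v‖ := by
    intro v
    have h3 := le_trans (h1 v) (mul_le_mul_of_nonneg_left (i1 v) hC.le)
    have h4 : W * |fderiv ℝ MM (w, s) v| ≤ W * (C * ‖v‖) := by
      calc W * |fderiv ℝ MM (w, s) v| ≤ C * (‖v‖ * W) := h3
        _ = W * (C * ‖v‖) := by ring
    exact le_of_mul_le_mul_left h4 hW
  refine ⟨?_, ?_⟩
  · intro v
    refine le_trans (d1 v) ?_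
    refine mul_le_mul_of_nonneg_right ?_ (norm_nonneg v)
    have : 0 ≤ C * (1 + 2 * C) := by positivity
    linarith
  · intro v v'
    have h3 := h2 v v'
    have nv := norm_nonneg v
    have nv' := norm_nonneg v'
    have a1 : |fderiv ℝ MM (w, s) v| * (∫ α, seen α.1 v' / rho α w s ^ 3 ∂PA) ≤
        C * ‖v‖ * (‖v'‖ / s * W) := by
      refine le_trans (mul_le_mul_of_nonneg_left (i3 v') (abs_nonneg _)) ?_
      exact mul_le_mul_of_nonneg_right (d1 v) (by positivity)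
    have a2 : |fderiv ℝ MM (w, s) v'| * (∫ α, seen α.1 v / rho α w s ^ 3 ∂PA) ≤
        C * ‖v'‖ * (‖v‖ / s * W) := by
      refine le_trans (mul_le_mul_of_nonneg_left (i3 v) (abs_nonneg _)) ?_
      exact mul_le_mul_of_nonneg_right (d1 v') (by positivity)
    have a3 := i33 v v'
    have h4 : W * |fderiv ℝ (fderiv ℝ MM) (w, s) v v'| ≤
        W * (C * (1 + 2 * C) / s * ‖v‖ * ‖v'‖) := by
      refine le_trans h3 ?_
      refine le_trans (mul_le_mul_of_nonneg_left (add_le_add (add_le_add a3 a1) a2) hC.le) ?_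
      apply le_of_eq
      field_simp
      ring
    have h5 := le_of_mul_le_mul_left h4 hW
    refine le_trans h5 ?_
    refine mul_le_mul_of_nonneg_right (mul_le_mul_of_nonneg_right ?_ nv) nv'
    refine div_le_div_of_nonneg_right ?_ hs.le
    linarith

end Pool.Agent.Wtw
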