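import Mathlib
import Pool.Agent.Wtw.MuBnd

/-!
# MuB: the robust mean hardly depends on a single far coordinate

Let `dist(w_i, CC) <= s` for `i /= x`, `δ = dist(w_x, CC) >= s`, `δ <= 1`, `r = s/δ <= 1`.
By `kfar`: every candidate with omitted index `/= x` has `rho >= δ/401`, so (`rho_tail` with `t = δ/401`,
`W_low`) `F := (∫_{e /= x} 1/rho^2)/W <= C (s/δ)^(13/8) <= C r`.
`seen e v <= |v^| + |v_x| 1_{e /= x}` with `|v^| = seen x v`.  From `MM_raw`:
`|DM v| <= C (|v^| + F |v_x|) <= C nu`, and with `1/rho^3 <= (1/s)/rho^2` on `e = x`,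
`1/rho^3 <= (401/δ)/rho^2` on `e /= x`, `F/δ <= C r/δ = C r^2/s`:
`|D^2M v v'| <= (C/s) (|v^||v'^| + r^2 (|v_x||v'^| + |v^||v'_x| + |v_x||v'_x|)) + C nu(v) (C/s) nu(v')`.
-/

namespace Pool.Agent.Wtw

open MeasureTheory Set Filter Topology
open scoped ENNReal

/-- weight of a vector when the coordinate `x` is cheap -/
noncomputable def nu4 (x : Fin 4) (r : ℝ) (v : W4 × ℝ) : ℝ :=
  max (r * |v.1 x|) (max ‖Function.update v.1 x 0‖ |v.2|)

theorem MuB_rho_pos (α : A4) (w : W4) (s : ℝ) (hs : 0 < s) : 0 < rho α w s := by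
  have := rho_ge α w s
  rw [abs_of_pos hs] at this
  linarith

theorem MuB_rhoSq_pos (α : A4) (w : W4) (s : ℝ) (hs : 0 < s) : 0 < rhoSq α w s := by
  rw [← rho_sq]
  have := MuB_rho_pos α w s hs
  positivity

theorem MuB_int (w : W4) (s : ℝ) (hs : 0 < s) : Integrable (fun α : A4 => 1 / rhoSq α w s) PA := by
  have hc : Continuous fun α : A4 => 1 / rhoSq α w s := by
    have h1 : (fun α : A4 => rhoSq α w s) = fun α : A4 => rho α w s ^ 2 := by
      funext α; rw [rho_sq]
    refine continuous_const.div ?_ fun α => (MuB_rhoSq_pos α w s hs).ne'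
    rw [h1]
    exact (rho_cont_index w s).pow 2
  exact hc.integrable_of_hasCompactSupport (HasCompactSupport.of_compactSpace _)

theorem MuB_meas (x : Fin 4) : MeasurableSet {α : A4 | α.1 ≠ x} :=
  (measurable_fst (measurableSet_singleton x)).compl

theorem MuB_key (w : W4) (s : ℝ) (hs : 0 < s) (x : Fin 4) (a b : ℝ) (ha : 0 ≤ a) (hb : 0 ≤ b)
    (f : A4 → ℝ) (hf : ∀ α, 0 ≤ f α) (h1 : ∀ α, α.1 = x → f α ≤ a * (1 / rhoSq α w s))
    (h2 : ∀ α, α.1 ≠ x → f α ≤ b * (1 / rhoSq α w s)) :
    ∫ α, f α ∂PA ≤ a * (∫ α, 1 / rhoSq α w s ∂PA) +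
      b * ∫ α in {α : A4 | α.1 ≠ x}, 1 / rhoSq α w s ∂PA := by
  have hI := MuB_int w s hs
  have hJ : Integrable (fun α : A4 => ({α : A4 | α.1 ≠ x}).indicator
      (fun α => 1 / rhoSq α w s) α) PA := hI.indicator (MuB_meas x)
  calc ∫ α, f α ∂PA ≤ ∫ α, (a * (1 / rhoSq α w s) +
        b * ({α : A4 | α.1 ≠ x}).indicator (fun α => 1 / rhoSq α w s) α) ∂PA := by
        refine integral_mono_of_nonneg (Eventually.of_forall hf)
          ((hI.const_mul a).add (hJ.const_mul b)) (Eventually.of_forall fun α => ?_)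
        have hp := MuB_rhoSq_pos α w s hs
        simp only
        by_cases hx : α.1 = x
        · have : α ∉ {α : A4 | α.1 ≠ x} := fun h => h hx
          rw [indicator_of_notMem this, mul_zero, add_zero]
          exact h1 α hx
        · have : α ∈ {α : A4 | α.1 ≠ x} := hx
          rw [indicator_of_mem this]
          have h3 : 0 ≤ a * (1 / rhoSq α w s) := by positivity
          linarith [h2 α hx]
    _ = _ := by
        rw [integral_add (hI.const_mul a) (hJ.const_mul b), integral_const_mul,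
          integral_const_mul, integral_indicator (MuB_meas x)]

theorem far_share : ∃ C : ℝ, 0 < C ∧ ∀ (w : W4) (s : ℝ) (x : Fin 4), 0 < s →
    s ≤ Metric.infDist (w x) CC → Metric.infDist (w x) CC ≤ 1 →
    (∀ i, i ≠ x → Metric.infDist (w i) CC ≤ s) →
    ∫ α in {α : A4 | α.1 ≠ x}, 1 / rhoSq α w s ∂PA ≤
      C * (s / Metric.infDist (w x) CC) * ∫ α, 1 / rhoSq α w s ∂PA := by
  obtain ⟨C, hC, hT⟩ := rho_tail
  obtain ⟨c, hc, hW⟩ := W_low
  refine ⟨C * 401 ^ (13 / 8 : ℝ) / c, by positivity, fun w s x hs hsd hd1 h => ?_⟩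
  set δ := Metric.infDist (w x) CC with hδ
  have hd0 : 0 < δ := by linarith
  have h1 : ∫ α in {α : A4 | α.1 ≠ x}, 1 / rhoSq α w s ∂PA ≤
      ∫ α in {α | δ / 401 ≤ rho α w s}, 1 / rhoSq α w s ∂PA := by
    refine setIntegral_mono_set (MuB_int w s hs).integrableOn
      (Eventually.of_forall fun α => ?_) (Eventually.of_forall ?_)
    · have := MuB_rhoSq_pos α w s hs
      simp only [Pi.zero_apply]
      positivity
    · intro α hα
      have := kfar α w s hs x (Ne.symm hα) h
      show δ / 401 ≤ rho α w s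
      linarith
  have h2 := hT w s (δ / 401) hs (by positivity) (by linarith)
  have h3 := hW w s x hs (by linarith) h
  refine h1.trans (h2.trans ?_)
  have h4 : (δ / 401) ^ (-(13 / 8) : ℝ) = 401 ^ (13 / 8 : ℝ) * δ ^ (-(13 / 8) : ℝ) := by
    rw [Real.div_rpow hd0.le (by norm_num), Real.rpow_neg (by norm_num : (0 : ℝ) ≤ 401)]
    field_simp
  have h5 : δ ^ (-(13 / 8) : ℝ) = (s / δ) ^ (13 / 8 : ℝ) * s ^ (-(13 / 8) : ℝ) := by
    rw [Real.div_rpow hs.le hd0.le, Real.rpow_neg hs.le, Real.rpow_neg hd0.le]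
    have : s ^ (13 / 8 : ℝ) ≠ 0 := (Real.rpow_pos_of_pos hs _).ne'
    field_simp
  have hr0 : 0 < s / δ := by positivity
  have hr1 : s / δ ≤ 1 := by rw [div_le_one hd0]; exact hsd
  have h6 : (s / δ) ^ (13 / 8 : ℝ) ≤ s / δ := by
    calc (s / δ) ^ (13 / 8 : ℝ) ≤ (s / δ) ^ (1 : ℝ) :=
          Real.rpow_le_rpow_of_exponent_ge hr0 hr1 (by norm_num)
      _ = s / δ := Real.rpow_one _
  rw [h4, h5]
  calc C * (401 ^ (13 / 8 : ℝ) * ((s / δ) ^ (13 / 8 : ℝ) * s ^ (-(13 / 8) : ℝ)))
      ≤ C * (401 ^ (13 / 8 : ℝ) * ((s / δ) * ((1 / c) * ∫ α, 1 / rhoSq α w s ∂PA))) := by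
        have h7 : s ^ (-(13 / 8) : ℝ) ≤ (1 / c) * ∫ α, 1 / rhoSq α w s ∂PA := by
          rw [div_mul_eq_mul_div, one_mul, le_div_iff₀ hc, mul_comm]
          exact h3
        have h8 : 0 ≤ s ^ (-(13 / 8) : ℝ) := (Real.rpow_pos_of_pos hs _).le
        gcongr
    _ = C * 401 ^ (13 / 8 : ℝ) / c * (s / δ) * ∫ α, 1 / rhoSq α w s ∂PA := by
        ring

theorem MuB_seen (e x : Fin 4) (v : W4 × ℝ) : seen e v ≤ seen x v + |v.1 x| := by
  have h0 : 0 ≤ seen x v := le_max_of_le_right (abs_nonneg _)
  unfold seen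
  apply max_le
  · rw [pi_norm_le_iff_of_nonneg (by unfold seen at h0; positivity)]
    intro i
    by_cases hi : i = e
    · subst hi
      rw [Function.update_self, norm_zero]
      unfold seen at h0; positivity
    · rw [Function.update_of_ne hi]
      by_cases hx : i = x
      · subst hx
        rw [Real.norm_eq_abs]
        have : 0 ≤ seen i v := h0
        unfold seen at this
        linarith
      · have h1 : ‖Function.update v.1 x 0 i‖ ≤ ‖Function.update v.1 x 0‖ :=
          norm_le_pi_norm (Function.update v.1 x 0) i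
        rw [Function.update_of_ne hx] at h1
        have h2 := le_max_left ‖Function.update v.1 x 0‖ |v.2|
        have h3 := abs_nonneg (v.1 x)
        linarith
  · have h2 := le_max_right ‖Function.update v.1 x 0‖ |v.2|
    have h3 := abs_nonneg (v.1 x)
    linarith

theorem MuB_seen_nonneg (e : Fin 4) (v : W4 × ℝ) : 0 ≤ seen e v :=
  le_max_of_le_right (abs_nonneg _)

theorem MuB_seen_nu (x : Fin 4) (r : ℝ) (v : W4 × ℝ) : seen x v ≤ nu4 x r v :=
  le_max_right _ _

theorem MM_B : ∃ C : ℝ, 0 < C ∧ ∀ (w : W4) (s : ℝ) (x : Fin 4), 0 < s →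
    s ≤ Metric.infDist (w x) CC → Metric.infDist (w x) CC ≤ 1 →
    (∀ i, i ≠ x → Metric.infDist (w i) CC ≤ s) →
    (∀ v, |fderiv ℝ MM (w, s) v| ≤ C * nu4 x (s / Metric.infDist (w x) CC) v) ∧
    ∀ v v', |fderiv ℝ (fderiv ℝ MM) (w, s) v v'| ≤
      C / s * nu4 x (s / Metric.infDist (w x) CC) v * nu4 x (s / Metric.infDist (w x) CC) v' := by
  obtain ⟨C1, hC1, hM⟩ := MM_raw
  obtain ⟨C2, hC2, hF⟩ := far_share
  set K : ℝ := 1 + 1604 * C2 with hK
  have hK1 : 1 ≤ K := by rw [hK]; linarith
  refine ⟨C1 * K + C1 * (K + 2 * (C1 * K * K)), by positivity, fun w s x hs hsd hd1 h => ?_⟩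
  obtain ⟨hM1, hM2⟩ := hM w s hs
  have hFF := hF w s x hs hsd hd1 h
  set δ := Metric.infDist (w x) CC with hδ
  have hd0 : 0 < δ := by linarith
  set r := s / δ with hr
  have hr0 : 0 < r := by positivity
  have hr1 : r ≤ 1 := by rw [hr, div_le_one hd0]; exact hsd
  set W := ∫ α, 1 / rhoSq α w s ∂PA with hW
  have hW0 : 0 < W := W_pos w s hs
  set F := ∫ α in {α : A4 | α.1 ≠ x}, 1 / rhoSq α w s ∂PA with hFdef
  -- the two parts of nu
  have hnu0 : ∀ v : W4 × ℝ, 0 ≤ nu4 x r v := fun v =>
    le_trans (MuB_seen_nonneg x v) (MuB_seen_nu x r v)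
  have hnu1 : ∀ v : W4 × ℝ, r * (seen x v + |v.1 x|) ≤ 2 * nu4 x r v := by
    intro v
    have h1 := MuB_seen_nu x r v
    have h2 : r * |v.1 x| ≤ nu4 x r v := le_max_left _ _
    have h3 : r * seen x v ≤ seen x v := by
      have := MuB_seen_nonneg x v
      nlinarith
    linarith
  have hfar : ∀ α : A4, α.1 ≠ x → 1 / rho α w s ≤ 401 / δ := by
    intro α hα
    have h1 := kfar α w s hs x (Ne.symm hα) h
    have h2 := MuB_rho_pos α w s hs
    rw [div_le_div_iff₀ h2 hd0]
    linarith
  have hnear : ∀ α : A4, 1 / rho α w s ≤ 1 / s := by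
    intro α
    have h1 := rho_ge α w s
    rw [abs_of_pos hs] at h1
    exact one_div_le_one_div_of_le hs h1
  have hcube : ∀ α : A4, ∀ t : ℝ, t / rho α w s ^ 3 = t * (1 / rho α w s) * (1 / rhoSq α w s) := by
    intro α t
    have h2 := MuB_rho_pos α w s hs
    rw [← rho_sq]
    field_simp
  -- first derivative
  have b1 : ∀ v : W4 × ℝ, ∫ α, seen α.1 v / rhoSq α w s ∂PA ≤ K * nu4 x r v * W := by
    intro v
    have hs0 := MuB_seen_nonneg x v
    have hv0 := abs_nonneg (v.1 x)
    have k1 := MuB_key w s hs x (seen x v) (seen x v + |v.1 x|) hs0 (by positivity)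
      (fun α => seen α.1 v / rhoSq α w s)
      (fun α => by
        have := MuB_rhoSq_pos α w s hs
        have := MuB_seen_nonneg α.1 v
        positivity)
      (fun α hα => by
        rw [hα]
        apply le_of_eq
        ring)
      (fun α hα => by
        have h1 := MuB_rhoSq_pos α w s hs
        have h2 := MuB_seen α.1 x v
        rw [div_eq_mul_one_div]
        gcongr)
    have hnn := hnu1 v
    have hn1 := MuB_seen_nu x r v
    have hn0 := hnu0 v
    calc ∫ α, seen α.1 v / rhoSq α w s ∂PA ≤ seen x v * W + (seen x v + |v.1 x|) * F := k1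
      _ ≤ seen x v * W + (seen x v + |v.1 x|) * (C2 * r * W) := by gcongr
      _ = seen x v * W + C2 * (r * (seen x v + |v.1 x|)) * W := by ring
      _ ≤ nu4 x r v * W + C2 * (2 * nu4 x r v) * W := by gcongr
      _ ≤ K * nu4 x r v * W := by
          rw [hK]
          have : 0 ≤ nu4 x r v * W * C2 := by positivity
          nlinarith
  have d1 : ∀ v : W4 × ℝ, |fderiv ℝ MM (w, s) v| ≤ C1 * K * nu4 x r v := by
    intro v
    have h1 := (hM1 v).trans (mul_le_mul_of_nonneg_left (b1 v) hC1.le)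
    have h2 : W * |fderiv ℝ MM (w, s) v| ≤ W * (C1 * K * nu4 x r v) := by
      calc W * |fderiv ℝ MM (w, s) v| ≤ C1 * (K * nu4 x r v * W) := h1
        _ = _ := by ring
    exact le_of_mul_le_mul_left h2 hW0
  -- integrals with rho ^ 3
  have hδr : 401 / δ * r = 401 * (r * r) / s := by
    rw [hr]
    field_simp
  have b3 : ∀ v : W4 × ℝ, ∫ α, seen α.1 v / rho α w s ^ 3 ∂PA ≤ K * nu4 x r v / s * W := by
    intro v
    have hs0 := MuB_seen_nonneg x v
    have hv0 := abs_nonneg (v.1 x)
    have k1 := MuB_key w s hs x (seen x v * (1 / s)) ((seen x v + |v.1 x|) * (401 / δ))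
      (by positivity) (by positivity)
      (fun α => seen α.1 v / rho α w s ^ 3)
      (fun α => by
        have := MuB_rho_pos α w s hs
        have := MuB_seen_nonneg α.1 v
        positivity)
      (fun α hα => by
        have h1 := MuB_rhoSq_pos α w s hs
        have h2 := hnear α
        rw [hcube, hα]
        gcongr)
      (fun α hα => by
        have h1 := MuB_rhoSq_pos α w s hs
        have h2 := MuB_seen α.1 x v
        have h3 := hfar α hα
        have h4 := MuB_rho_pos α w s hs
        have h5 := MuB_seen_nonneg α.1 v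
        rw [hcube]
        gcongr)
    have hnn := hnu1 v
    have hn1 := MuB_seen_nu x r v
    have hn0 := hnu0 v
    calc ∫ α, seen α.1 v / rho α w s ^ 3 ∂PA
        ≤ seen x v * (1 / s) * W + (seen x v + |v.1 x|) * (401 / δ) * F := k1
      _ ≤ seen x v * (1 / s) * W + (seen x v + |v.1 x|) * (401 / δ) * (C2 * r * W) := by gcongr
      _ = seen x v * (1 / s) * W + C2 * (seen x v + |v.1 x|) * (401 / δ * r) * W := by ring
      _ = seen x v * (1 / s) * W + 401 * C2 * r * (r * (seen x v + |v.1 x|)) / s * W := by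
          rw [hδr]; ring
      _ ≤ nu4 x r v * (1 / s) * W + 401 * C2 * 1 * (2 * nu4 x r v) / s * W := by gcongr
      _ ≤ K * nu4 x r v / s * W := by
          rw [hK]
          have h7 : 0 ≤ nu4 x r v / s * W * C2 := by positivity
          have e1 : nu4 x r v * (1 / s) * W + 401 * C2 * 1 * (2 * nu4 x r v) / s * W =
            nu4 x r v / s * W + 802 * (nu4 x r v / s * W * C2) := by ring
          have e2 : (1 + 1604 * C2) * nu4 x r v / s * W =
            nu4 x r v / s * W + 1604 * (nu4 x r v / s * W * C2) := by ring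
          rw [e1, e2]
          linarith
  have b4 : ∀ v v' : W4 × ℝ, ∫ α, seen α.1 v * seen α.1 v' / rho α w s ^ 3 ∂PA ≤
      K * nu4 x r v * nu4 x r v' / s * W := by
    intro v v'
    have hs0 := MuB_seen_nonneg x v
    have hv0 := abs_nonneg (v.1 x)
    have hs0' := MuB_seen_nonneg x v'
    have hv0' := abs_nonneg (v'.1 x)
    have k1 := MuB_key w s hs x (seen x v * seen x v' * (1 / s))
      ((seen x v + |v.1 x|) * (seen x v' + |v'.1 x|) * (401 / δ))
      (by positivity) (by positivity)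
      (fun α => seen α.1 v * seen α.1 v' / rho α w s ^ 3)
      (fun α => by
        have := MuB_rho_pos α w s hs
        have := MuB_seen_nonneg α.1 v
        have := MuB_seen_nonneg α.1 v'
        positivity)
      (fun α hα => by
        have h1 := MuB_rhoSq_pos α w s hs
        have h2 := hnear α
        rw [hcube, hα]
        gcongr)
      (fun α hα => by
        have h1 := MuB_rhoSq_pos α w s hs
        have h2 := MuB_seen α.1 x v
        have h2' := MuB_seen α.1 x v'
        have h3 := hfar α hα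
        have h4 := MuB_rho_pos α w s hs
        have h5 := MuB_seen_nonneg α.1 v
        have h5' := MuB_seen_nonneg α.1 v'
        rw [hcube]
        gcongr)
    have hnn := hnu1 v
    have hn1 := MuB_seen_nu x r v
    have hn0 := hnu0 v
    have hnn' := hnu1 v'
    have hn1' := MuB_seen_nu x r v'
    have hn0' := hnu0 v'
    calc ∫ α, seen α.1 v * seen α.1 v' / rho α w s ^ 3 ∂PA
        ≤ seen x v * seen x v' * (1 / s) * W +
          (seen x v + |v.1 x|) * (seen x v' + |v'.1 x|) * (401 / δ) * F := k1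
      _ ≤ seen x v * seen x v' * (1 / s) * W +
          (seen x v + |v.1 x|) * (seen x v' + |v'.1 x|) * (401 / δ) * (C2 * r * W) := by gcongr
      _ = seen x v * seen x v' * (1 / s) * W +
          C2 * (seen x v + |v.1 x|) * (seen x v' + |v'.1 x|) * (401 / δ * r) * W := by ring
      _ = seen x v * seen x v' * (1 / s) * W +
          401 * C2 * (r * (seen x v + |v.1 x|)) * (r * (seen x v' + |v'.1 x|)) / s * W := by
          rw [hδr]; ring
      _ ≤ nu4 x r v * nu4 x r v' * (1 / s) * W +
          401 * C2 * (2 * nu4 x r v) * (2 * nu4 x r v') / s * W := by gcongr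
      _ = K * nu4 x r v * nu4 x r v' / s * W := by
          rw [hK]
          ring
  have d2 : ∀ v v' : W4 × ℝ, |fderiv ℝ (fderiv ℝ MM) (w, s) v v'| ≤
      C1 * (K + 2 * (C1 * K * K)) / s * nu4 x r v * nu4 x r v' := by
    intro v v'
    have h1 := hM2 v v'
    have hn0 := hnu0 v
    have hn0' := hnu0 v'
    have e1 := d1 v
    have e1' := d1 v'
    have h2 : W * |fderiv ℝ (fderiv ℝ MM) (w, s) v v'| ≤
        W * (C1 * (K + 2 * (C1 * K * K)) / s * nu4 x r v * nu4 x r v') := by
      calc W * |fderiv ℝ (fderiv ℝ MM) (w, s) v v'| ≤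
          C1 * ((∫ α, seen α.1 v * seen α.1 v' / rho α w s ^ 3 ∂PA) +
        |fderiv ℝ MM (w, s) v| * (∫ α, seen α.1 v' / rho α w s ^ 3 ∂PA) +
        |fderiv ℝ MM (w, s) v'| * (∫ α, seen α.1 v / rho α w s ^ 3 ∂PA)) := h1
        _ ≤ C1 * (K * nu4 x r v * nu4 x r v' / s * W +
          (C1 * K * nu4 x r v) * (K * nu4 x r v' / s * W) +
          (C1 * K * nu4 x r v') * (K * nu4 x r v / s * W)) := by
            have i3 := b3 v
            have i3' := b3 v'
            have i4 := b4 v v'
            have n3 : 0 ≤ ∫ α, seen α.1 v / rho α w s ^ 3 ∂PA := by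
              refine integral_nonneg fun α => ?_
              have := MuB_rho_pos α w s hs
              have := MuB_seen_nonneg α.1 v
              simp only [Pi.zero_apply]
              positivity
            have n3' : 0 ≤ ∫ α, seen α.1 v' / rho α w s ^ 3 ∂PA := by
              refine integral_nonneg fun α => ?_
              have := MuB_rho_pos α w s hs
              have := MuB_seen_nonneg α.1 v'
              simp only [Pi.zero_apply]
              positivity
            have m1 := mul_le_mul e1 i3' n3' (by positivity)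
            have m2 := mul_le_mul e1' i3 n3 (by positivity)
            have m3 := add_le_add (add_le_add i4 m1) m2
            exact mul_le_mul_of_nonneg_left m3 hC1.le
        _ = _ := by ring
    exact le_of_mul_le_mul_left h2 hW0
  constructor
  · intro v
    have hn0 := hnu0 v
    calc |fderiv ℝ MM (w, s) v| ≤ C1 * K * nu4 x r v := d1 v
      _ ≤ (C1 * K + C1 * (K + 2 * (C1 * K * K))) * nu4 x r v := by
          have : 0 ≤ C1 * (K + 2 * (C1 * K * K)) * nu4 x r v := by positivity
          nlinarith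
  · intro v v'
    have hn0 := hnu0 v
    have hn0' := hnu0 v'
    calc |fderiv ℝ (fderiv ℝ MM) (w, s) v v'| ≤
        C1 * (K + 2 * (C1 * K * K)) / s * nu4 x r v * nu4 x r v' := d2 v v'
      _ ≤ (C1 * K + C1 * (K + 2 * (C1 * K * K))) / s * nu4 x r v * nu4 x r v' := by
          have : C1 * (K + 2 * (C1 * K * K)) ≤ C1 * K + C1 * (K + 2 * (C1 * K * K)) := by
            have : 0 ≤ C1 * K := by positivity
            linarith
          gcongr

end Pool.Agent.Wtw
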