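import Mathlib
import Pool.Agent.Wtw.MuB

/-!
# Mu2Bnd: the pair of robust means as a map on `Z8 x R`

`MM2 (z,s) g = MM (grp z g, s)`, `v ↦ (grp v.1 g, v.2)` linear, so the derivatives of the component `g` are
those of `MM` at `(grp z g, s)` in the directions `(grp v.1 g, v.2)` (`fderiv2_pi`, `fderiv2_comp_lin`).
Case B(x): the component `g = x.1` by `MM_B` (`nu4 x.2 r (grp v.1 g, v.2) <= nuT x r v`), the other one by
`MM_bd` (`|(grp v.1 g, v.2)| <= nuT x r v` since `x` is not in that group).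
-/

namespace Pool.Agent.Wtw

open MeasureTheory Set Filter Topology
open scoped ENNReal

noncomputable def MM2 : Z8 × ℝ → V2 := fun t => mu2 t.1 t.2

/-- weight of a vector `(ξ, τ)` when the coordinate `x` is cheap -/
noncomputable def nuT (x : Idx) (r : ℝ) (v : Z8 × ℝ) : ℝ :=
  max (max (r * |v.1 x|) ‖Function.update v.1 x 0‖) |v.2|

/-- the linear map `v ↦ (grp v.1 g, v.2)` -/
private noncomputable def Mu2Bnd_L (g : Fin 2) : (Z8 × ℝ) →L[ℝ] (W4 × ℝ) :=
  (ContinuousLinearMap.pi fun i : Fin 4 =>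
    (ContinuousLinearMap.proj (R := ℝ) (φ := fun _ : Idx => ℝ) (g, i))).prodMap
    (ContinuousLinearMap.id ℝ ℝ)

private theorem Mu2Bnd_L_apply (g : Fin 2) (v : Z8 × ℝ) : Mu2Bnd_L g v = (grp v.1 g, v.2) := rfl

private theorem Mu2Bnd_comp (g : Fin 2) :
    (fun t : Z8 × ℝ => MM2 t g) = fun t => MM (Mu2Bnd_L g t + 0) := by
  funext t
  rw [add_zero]
  rfl

private theorem Mu2Bnd_smooth (z : Z8) (s : ℝ) (hs : 0 < s) : ContDiffAt ℝ 2 MM2 (z, s) := by
  rw [contDiffAt_pi]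
  intro g
  rw [Mu2Bnd_comp g]
  simp only [add_zero]
  have h1 : ContDiffAt ℝ 2 MM (Mu2Bnd_L g (z, s)) := MM_smooth (grp z g) s hs
  exact h1.comp (z, s) (Mu2Bnd_L g).contDiff.contDiffAt

theorem MM2_apply (z : Z8) (s : ℝ) (hs : 0 < s) (g : Fin 2) :
    (∀ v, fderiv ℝ MM2 (z, s) v g = fderiv ℝ MM (grp z g, s) (grp v.1 g, v.2)) ∧
    ∀ v w, fderiv ℝ (fderiv ℝ MM2) (z, s) v w g =
      fderiv ℝ (fderiv ℝ MM) (grp z g, s) (grp v.1 g, v.2) (grp w.1 g, w.2) := by
  have hsm := Mu2Bnd_smooth z s hs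
  have hM : ContDiffAt ℝ 2 MM (Mu2Bnd_L g (z, s) + 0) := by
    rw [add_zero]; exact MM_smooth (grp z g) s hs
  have e1 : Mu2Bnd_L g (z, s) + 0 = (grp z g, s) := by rw [add_zero]; rfl
  constructor
  · intro v
    rw [fderiv_pi_apply' (hsm.differentiableAt (by norm_num)) v g, Mu2Bnd_comp g]
    simp only [add_zero]
    have h1 : DifferentiableAt ℝ MM (Mu2Bnd_L g (z, s)) :=
      (MM_smooth (grp z g) s hs).differentiableAt (by norm_num)
    have h2 := fderiv_comp (𝕜 := ℝ) (z, s) h1 (Mu2Bnd_L g).differentiableAt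
    have h3 : (fun t : Z8 × ℝ => MM (Mu2Bnd_L g t)) = MM ∘ ⇑(Mu2Bnd_L g) := rfl
    rw [h3, h2, ContinuousLinearMap.fderiv]
    rfl
  · intro v w
    rw [fderiv2_pi hsm v w g, Mu2Bnd_comp g, fderiv2_comp_lin (Mu2Bnd_L g) 0 hM v w, e1]
    rfl

private theorem Mu2Bnd_norm (g : Fin 2) (v : Z8 × ℝ) : ‖((grp v.1 g, v.2) : W4 × ℝ)‖ ≤ ‖v‖ := by
  rw [Prod.norm_def, Prod.norm_def]
  apply max_le_max _ le_rfl
  rw [pi_norm_le_iff_of_nonneg (norm_nonneg _)]
  intro i
  exact norm_le_pi_norm v.1 (g, i)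

theorem MM2_bd : ∃ C : ℝ, 0 < C ∧ ∀ (z : Z8) (s : ℝ), 0 < s → ContDiffAt ℝ 2 MM2 (z, s) ∧
    (∀ v, ‖fderiv ℝ MM2 (z, s) v‖ ≤ C * ‖v‖) ∧
    ∀ v w, ‖fderiv ℝ (fderiv ℝ MM2) (z, s) v w‖ ≤ C / s * ‖v‖ * ‖w‖ := by
  obtain ⟨C, hC, hb⟩ := MM_bd
  refine ⟨C, hC, fun z s hs => ⟨Mu2Bnd_smooth z s hs, ?_, ?_⟩⟩
  · intro v
    rw [pi_norm_le_iff_of_nonneg (by positivity)]
    intro g
    rw [(MM2_apply z s hs g).1 v, Real.norm_eq_abs]
    refine ((hb (grp z g) s hs).1 _).trans ?_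
    have := Mu2Bnd_norm g v
    gcongr
  · intro v w
    rw [pi_norm_le_iff_of_nonneg (by positivity)]
    intro g
    rw [(MM2_apply z s hs g).2 v w, Real.norm_eq_abs]
    refine ((hb (grp z g) s hs).2 _ _).trans ?_
    have h1 := Mu2Bnd_norm g v
    have h2 := Mu2Bnd_norm g w
    gcongr

private theorem Mu2Bnd_nuT_nonneg (x : Idx) (r : ℝ) (v : Z8 × ℝ) : 0 ≤ nuT x r v := by
  unfold nuT
  exact le_max_of_le_right (abs_nonneg _)

private theorem Mu2Bnd_ne (x : Idx) (g : Fin 2) (hg : g ≠ x.1) (r : ℝ) (v : Z8 × ℝ) :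
    ‖((grp v.1 g, v.2) : W4 × ℝ)‖ ≤ nuT x r v := by
  rw [Prod.norm_def]
  unfold nuT
  apply max_le
  · apply le_max_of_le_left
    apply le_max_of_le_right
    rw [pi_norm_le_iff_of_nonneg (norm_nonneg _)]
    intro i
    have h1 := norm_le_pi_norm (Function.update v.1 x 0) (g, i)
    rw [Function.update_of_ne] at h1
    · exact h1
    · intro h2
      apply hg
      rw [← h2]
  · apply le_max_of_le_right
    exact le_rfl

private theorem Mu2Bnd_eq (x : Idx) (r : ℝ) (v : Z8 × ℝ) :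
    nu4 x.2 r (grp v.1 x.1, v.2) ≤ nuT x r v := by
  unfold nu4 nuT
  apply max_le
  · exact le_max_of_le_left (le_max_left _ _)
  · apply max_le
    · apply le_max_of_le_left
      apply le_max_of_le_right
      rw [pi_norm_le_iff_of_nonneg (norm_nonneg _)]
      intro i
      by_cases hi : i = x.2
      · rw [hi, Function.update_self]; simp
      · rw [Function.update_of_ne hi]
        have h1 := norm_le_pi_norm (Function.update v.1 x 0) (x.1, i)
        rw [Function.update_of_ne] at h1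
        · exact h1
        · intro h2
          apply hi
          rw [← h2]
    · exact le_max_right _ _

private theorem Mu2Bnd_nu4_nonneg (x : Fin 4) (r : ℝ) (v : W4 × ℝ) : 0 ≤ nu4 x r v := by
  unfold nu4
  exact le_max_of_le_right (le_max_of_le_right (abs_nonneg _))

theorem MM2_B : ∃ C : ℝ, 0 < C ∧ ∀ (z : Z8) (s : ℝ) (x : Idx), 0 < s →
    s ≤ Metric.infDist (z x) CC → Metric.infDist (z x) CC ≤ 1 →
    (∀ k, k ≠ x → Metric.infDist (z k) CC ≤ s) →
    (∀ v, ‖fderiv ℝ MM2 (z, s) v‖ ≤ C * nuT x (s / Metric.infDist (z x) CC) v) ∧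
    ∀ v w, ‖fderiv ℝ (fderiv ℝ MM2) (z, s) v w‖ ≤
      C / s * nuT x (s / Metric.infDist (z x) CC) v * nuT x (s / Metric.infDist (z x) CC) w := by
  obtain ⟨C, hC, hb⟩ := MM_bd
  obtain ⟨C', hC', hb'⟩ := MM_B
  refine ⟨max C C', lt_max_of_lt_left hC, fun z s x hs h1 h2 h3 => ?_⟩
  have hCm : C ≤ max C C' := le_max_left _ _
  have hCm' : C' ≤ max C C' := le_max_right _ _
  have hm0 : 0 < max C C' := lt_max_of_lt_left hC
  have hB := hb' (grp z x.1) s x.2 hs h1 h2 (fun i hi => h3 (x.1, i) (by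
    intro h4; apply hi; rw [← h4]))
  have hgr : grp z x.1 x.2 = z x := rfl
  rw [hgr] at hB
  set r := s / Metric.infDist (z x) CC with hr
  constructor
  · intro v
    have hv0 := Mu2Bnd_nuT_nonneg x r v
    rw [pi_norm_le_iff_of_nonneg (by positivity)]
    intro g
    rw [(MM2_apply z s hs g).1 v, Real.norm_eq_abs]
    by_cases hg : g = x.1
    · subst hg
      refine (hB.1 _).trans ?_
      have h5 := Mu2Bnd_eq x r v
      have h6 := Mu2Bnd_nu4_nonneg x.2 r (grp v.1 x.1, v.2)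
      gcongr
    · refine ((hb (grp z g) s hs).1 _).trans ?_
      have h5 := Mu2Bnd_ne x g hg r v
      gcongr
  · intro v w
    have hv0 := Mu2Bnd_nuT_nonneg x r v
    have hw0 := Mu2Bnd_nuT_nonneg x r w
    rw [pi_norm_le_iff_of_nonneg (by positivity)]
    intro g
    rw [(MM2_apply z s hs g).2 v w, Real.norm_eq_abs]
    by_cases hg : g = x.1
    · subst hg
      refine (hB.2 _ _).trans ?_
      have h5 := Mu2Bnd_eq x r v
      have h6 := Mu2Bnd_nu4_nonneg x.2 r (grp v.1 x.1, v.2)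
      have h7 := Mu2Bnd_eq x r w
      have h8 := Mu2Bnd_nu4_nonneg x.2 r (grp w.1 x.1, w.2)
      gcongr
    · refine ((hb (grp z g) s hs).2 _ _).trans ?_
      have h5 := Mu2Bnd_ne x g hg r v
      have h6 := Mu2Bnd_ne x g hg r w
      gcongr

/-- `mu2 (z + shift c, s) = mu2 (z, s) + c`, hence the derivative in the direction `shift c` is `c` -/
theorem mu2_shift (z : Z8) (c : V2) (s : ℝ) (hs : 0 < s) :
    mu2 (z + shift c) s = mu2 z s + c := by
  funext g
  have h1 : mu2 (z + shift c) s g = mu (grp (z + shift c) g) s := rfl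
  rw [h1, grp_shift, mu_shift _ _ _ hs]
  rfl

theorem dmu2_shift (z : Z8) (c : V2) (s : ℝ) (hs : 0 < s) :
    fderiv ℝ MM2 (z, s) (shift c, 0) = c := by
  have hd : DifferentiableAt ℝ MM2 (z, s) := (Mu2Bnd_smooth z s hs).differentiableAt (by norm_num)
  have h1 : HasDerivAt (fun t : ℝ => MM2 ((z, s) + t • ((shift c, (0 : ℝ)) : Z8 × ℝ)))
      (fderiv ℝ MM2 (z, s) (shift c, 0)) 0 := hd.hasFDerivAt.hasLineDerivAt _
  have h2 : (fun t : ℝ => MM2 ((z, s) + t • ((shift c, (0 : ℝ)) : Z8 × ℝ))) =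
      fun t => mu2 z s + t • c := by
    funext t
    have h3 : ((z, s) + t • ((shift c, (0 : ℝ)) : Z8 × ℝ)) = (z + shift (t • c), s) := by
      ext k
      · simp [shift]; ring
      · simp
    rw [h3]
    exact mu2_shift z (t • c) s hs
  rw [h2] at h1
  have h4 : HasDerivAt (fun t : ℝ => mu2 z s + t • c) c 0 := by
    have h5 := ((hasDerivAt_id (0 : ℝ)).smul_const c).const_add (mu2 z s)
    rw [one_smul] at h5
    exact h5
  exact h1.unique h4

end Pool.Agent.Wtw
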