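import Mathlib
import Pool.Agent.Wtw.Dist8
import Pool.Agent.Wtw.WMean

/-!
# UBnd: smoothness of the potential and bounds of its derivatives

`vSq x z m s = |LV ((z, m, s) - (beta x, 0, 0))|^2` with a linear `LV` into a Euclidean space
(components `s`, `m_g`, `z_(g,i) - lamT univ (grp z g) n_i`), `|LV v| <= 6 |v|`
(`v_s^2 + |v_m|^2 + sum QT <= 1 + 2 + 8 = 11` for sup norm 1).
`pot_bd` with `Ω = Idx → Dg`, `P = P8`, `U = {s > 0}`; `1/r^3 <= (1/d)/r^2`, `1/r^4 <= (1/d^2)/r^2`.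
-/

namespace Pool.Agent.Wtw

open MeasureTheory Set Filter Topology
open scoped ENNReal

/-- the potential as a function on `Z8 x V2 x R` -/
noncomputable def UF : Z8 × V2 × ℝ → ℝ := fun t => UU t.1 t.2.1 t.2.2

/-- the linear map with `|LV (z, m, s)|^2 = vSq 0 z m s` -/
noncomputable def UBnd_LV : (Z8 × V2 × ℝ) →L[ℝ] EuclideanSpace ℝ (Option (Fin 2) ⊕ Idx) :=
  LinearMap.toContinuousLinearMap
    { toFun := fun t => WithLp.toLp 2 fun o => o.elim (fun a => a.elim t.2.2 fun g => t.2.1 g)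
        fun k => t.1 k - lamT Finset.univ (grp t.1 k.1) * nn k.2
      map_add' := by
        intro p q
        ext o
        rcases o with (_ | g) | k
        · simp
        · simp
        · have h : grp (p.1 + q.1) k.1 = grp p.1 k.1 + grp q.1 k.1 := rfl
          simp [h, lamT_add]; ring
      map_smul' := by
        intro c p
        ext o
        rcases o with (_ | g) | k
        · simp
        · simp
        · have h : grp (c • p.1) k.1 = c • grp p.1 k.1 := rfl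
          simp [h, lamT_smul]; ring }

theorem UBnd_LV_none (t : Z8 × V2 × ℝ) : UBnd_LV t (Sum.inl none) = t.2.2 := rfl

theorem UBnd_LV_some (t : Z8 × V2 × ℝ) (g : Fin 2) : UBnd_LV t (Sum.inl (some g)) = t.2.1 g := rfl

theorem UBnd_LV_inr (t : Z8 × V2 × ℝ) (k : Idx) :
    UBnd_LV t (Sum.inr k) = t.1 k - lamT Finset.univ (grp t.1 k.1) * nn k.2 := rfl

theorem UBnd_LV_sq (t : Z8 × V2 × ℝ) : ‖UBnd_LV t‖ ^ 2 =
    t.2.2 ^ 2 + (t.2.1 0 ^ 2 + t.2.1 1 ^ 2) + ∑ g : Fin 2, QT Finset.univ (grp t.1 g) := by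
  rw [EuclideanSpace.norm_sq_eq, Fintype.sum_sum_type, Fintype.sum_option, Fintype.sum_prod_type]
  simp only [UBnd_LV_none, UBnd_LV_some, UBnd_LV_inr, Real.norm_eq_abs, sq_abs, Fin.sum_univ_two]
  rfl

theorem UBnd_LV_le (v : Z8 × V2 × ℝ) : ‖UBnd_LV v‖ ≤ 6 * ‖v‖ := by
  have hv := norm_nonneg v
  have h1 : |v.2.2| ≤ ‖v‖ := by
    have : ‖v.2.2‖ ≤ ‖v‖ := (norm_snd_le v.2).trans (norm_snd_le v)
    simpa using this
  have h2 : ∀ g, |v.2.1 g| ≤ ‖v‖ := fun g => by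
    have : ‖v.2.1 g‖ ≤ ‖v‖ := (norm_le_pi_norm v.2.1 g).trans ((norm_fst_le v.2).trans (norm_snd_le v))
    simpa using this
  have h3 : ∀ g, QT Finset.univ (grp v.1 g) ≤ 4 * ‖v‖ ^ 2 := fun g => by
    refine QT_le _ _ _ fun i _ => ?_
    have : ‖v.1 (g, i)‖ ≤ ‖v‖ := (norm_le_pi_norm v.1 (g, i)).trans (norm_fst_le v)
    simpa [grp] using this
  have hsq : ∀ a : ℝ, |a| ≤ ‖v‖ → a ^ 2 ≤ ‖v‖ ^ 2 := fun a ha => by
    rw [← sq_abs]
    have := abs_nonneg a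
    gcongr
  have h4 := hsq _ h1
  have h5 := hsq _ (h2 0)
  have h6 := hsq _ (h2 1)
  have h7 : ‖UBnd_LV v‖ ^ 2 ≤ (6 * ‖v‖) ^ 2 := by
    rw [UBnd_LV_sq, Fin.sum_univ_two]
    nlinarith [h3 0, h3 1, sq_nonneg ‖v‖]
  exact le_of_sq_le_sq h7 (by positivity)

/-- the translation -/
noncomputable def UBnd_b (x : Idx → Dg) : EuclideanSpace ℝ (Option (Fin 2) ⊕ Idx) :=
  -UBnd_LV (fun k => beta (x k), 0, 0)

theorem UBnd_b_cont : Continuous UBnd_b := by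
  unfold UBnd_b
  refine (UBnd_LV.continuous.comp ?_).neg
  refine Continuous.prodMk ?_ continuous_const
  exact continuous_pi fun k => beta_cont.comp (continuous_apply k)

theorem UBnd_norm_sq (x : Idx → Dg) (t : Z8 × V2 × ℝ) :
    ‖UBnd_LV t + UBnd_b x‖ ^ 2 = vSq x t.1 t.2.1 t.2.2 := by
  have h : UBnd_LV t + UBnd_b x = UBnd_LV (t - (fun k => beta (x k), 0, 0)) := by
    rw [map_sub, UBnd_b, sub_eq_add_neg]
  rw [h, UBnd_LV_sq]
  simp only [Prod.fst_sub, Prod.snd_sub, sub_zero]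
  rfl

theorem UBnd_norm (x : Idx → Dg) (t : Z8 × V2 × ℝ) :
    ‖UBnd_LV t + UBnd_b x‖ = Real.sqrt (vSq x t.1 t.2.1 t.2.2) := by
  rw [← UBnd_norm_sq, Real.sqrt_sq (norm_nonneg _)]

theorem UBnd_UF : UF = fun t => ∫ x, 1 / ‖UBnd_LV t + UBnd_b x‖ ^ 2 ∂P8 := by
  funext t
  unfold UF UU
  congr 1
  funext x
  rw [UBnd_norm_sq]

theorem UBnd_open : IsOpen {t : Z8 × V2 × ℝ | 0 < t.2.2} :=
  isOpen_lt continuous_const (continuous_snd.comp continuous_snd)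

theorem UBnd_pot : ContDiffOn ℝ 2 UF {t : Z8 × V2 × ℝ | 0 < t.2.2} ∧
    (∀ t ∈ {t : Z8 × V2 × ℝ | 0 < t.2.2}, ∀ v, |fderiv ℝ UF t v| ≤
      ∫ x, 2 * ‖UBnd_LV v‖ / ‖UBnd_LV t + UBnd_b x‖ ^ 3 ∂P8) ∧
    ∀ t ∈ {t : Z8 × V2 × ℝ | 0 < t.2.2}, ∀ v w, |fderiv ℝ (fderiv ℝ UF) t v w| ≤
      ∫ x, 10 * ‖UBnd_LV v‖ * ‖UBnd_LV w‖ / ‖UBnd_LV t + UBnd_b x‖ ^ 4 ∂P8 := by
  rw [UBnd_UF]
  exact pot_bd (Ω := Idx → Dg) (E := Z8 × V2 × ℝ)
    (H := EuclideanSpace ℝ (Option (Fin 2) ⊕ Idx)) P8 {t : Z8 × V2 × ℝ | 0 < t.2.2} UBnd_open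
    (fun _ => UBnd_LV) UBnd_b continuous_const UBnd_b_cont (fun x t ht h0 => by
      have h1 := UBnd_norm_sq x t
      have h2 := Dist8_pos x t.1 t.2.1 t.2.2 ht
      rw [h0] at h1
      simp at h1
      linarith)

theorem UF_smooth (z : Z8) (m : V2) (s : ℝ) (hs : 0 < s) : ContDiffAt ℝ 2 UF (z, m, s) := by
  exact UBnd_pot.1.contDiffAt (UBnd_open.mem_nhds hs)

theorem UF_bd : ∃ C : ℝ, 0 < C ∧ ∀ (z : Z8) (m : V2) (s : ℝ), 0 < s →
    (∀ v, |fderiv ℝ UF (z, m, s) v| ≤ C / dv z m s * UU z m s * ‖v‖) ∧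
    ∀ v w, |fderiv ℝ (fderiv ℝ UF) (z, m, s) v w| ≤ C / dv z m s ^ 2 * UU z m s * ‖v‖ * ‖w‖ := by
  refine ⟨360, by norm_num, fun z m s hs => ?_⟩
  have hd := Dist8_dpos z m s hs
  have hU : UU z m s = ∫ x, 1 / vSq x z m s ∂P8 := rfl
  have hi := Dist8_int z m s hs
  have hU0 := UU_pos z m s hs
  have hdr : ∀ x, dv z m s ≤ ‖UBnd_LV (z, m, s) + UBnd_b x‖ := fun x => by
    rw [UBnd_norm]
    exact dv_le x z m s
  constructor
  · intro v
    have h := UBnd_pot.2.1 (z, m, s) hs v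
    refine h.trans ?_
    have h1 : ∫ x, 2 * ‖UBnd_LV v‖ / ‖UBnd_LV (z, m, s) + UBnd_b x‖ ^ 3 ∂P8 ≤
        ∫ x, 12 * ‖v‖ / dv z m s * (1 / vSq x z m s) ∂P8 := by
      refine integral_mono_of_nonneg (Eventually.of_forall fun x => by positivity)
        (hi.const_mul _) (Eventually.of_forall fun x => ?_)
      have hr := hdr x
      set r := ‖UBnd_LV (z, m, s) + UBnd_b x‖ with hrdef
      have hr0 : 0 < r := lt_of_lt_of_le hd hr
      have e1 : vSq x z m s = r ^ 2 := (UBnd_norm_sq x (z, m, s)).symm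
      show 2 * ‖UBnd_LV v‖ / r ^ 3 ≤ 12 * ‖v‖ / dv z m s * (1 / vSq x z m s)
      rw [e1]
      calc 2 * ‖UBnd_LV v‖ / r ^ 3 ≤ 2 * (6 * ‖v‖) / r ^ 3 := by
            gcongr; exact UBnd_LV_le v
        _ = 12 * ‖v‖ / r * (1 / r ^ 2) := by field_simp; ring
        _ ≤ 12 * ‖v‖ / dv z m s * (1 / r ^ 2) := by gcongr
    refine h1.trans ?_
    rw [integral_const_mul, ← hU]
    have h2 : 0 ≤ UU z m s * ‖v‖ / dv z m s := by positivity
    calc 12 * ‖v‖ / dv z m s * UU z m s = 12 * (UU z m s * ‖v‖ / dv z m s) := by ring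
      _ ≤ 360 * (UU z m s * ‖v‖ / dv z m s) := by linarith
      _ = _ := by ring
  · intro v w
    have h := UBnd_pot.2.2 (z, m, s) hs v w
    refine h.trans ?_
    have h1 : ∫ x, 10 * ‖UBnd_LV v‖ * ‖UBnd_LV w‖ /
        ‖UBnd_LV (z, m, s) + UBnd_b x‖ ^ 4 ∂P8 ≤
        ∫ x, 360 * ‖v‖ * ‖w‖ / dv z m s ^ 2 * (1 / vSq x z m s) ∂P8 := by
      refine integral_mono_of_nonneg (Eventually.of_forall fun x => by positivity)
        (hi.const_mul _) (Eventually.of_forall fun x => ?_)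
      have hr := hdr x
      set r := ‖UBnd_LV (z, m, s) + UBnd_b x‖ with hrdef
      have hr0 : 0 < r := lt_of_lt_of_le hd hr
      have e1 : vSq x z m s = r ^ 2 := (UBnd_norm_sq x (z, m, s)).symm
      show 10 * ‖UBnd_LV v‖ * ‖UBnd_LV w‖ / r ^ 4 ≤
        360 * ‖v‖ * ‖w‖ / dv z m s ^ 2 * (1 / vSq x z m s)
      rw [e1]
      calc 10 * ‖UBnd_LV v‖ * ‖UBnd_LV w‖ / r ^ 4
          ≤ 10 * (6 * ‖v‖) * (6 * ‖w‖) / r ^ 4 := by
            gcongr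
            · exact UBnd_LV_le v
            · exact UBnd_LV_le w
        _ = 360 * ‖v‖ * ‖w‖ / r ^ 2 * (1 / r ^ 2) := by field_simp; ring
        _ ≤ 360 * ‖v‖ * ‖w‖ / dv z m s ^ 2 * (1 / r ^ 2) := by gcongr
    refine h1.trans ?_
    rw [integral_const_mul, ← hU]
    refine le_of_eq ?_
    ring

end Pool.Agent.Wtw
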