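import Mathlib
import Pool.Agent.Wtw.UBnd

/-!
# SigBnd: the function `sigma = c1 / (1 + U^(5/4))`

With `d = dv`, `U = UU > 0`: `U <= C/d`, `U <= 1/d^2`, `U >= c/d` if `d <= 1` (Dist8), `|DU| <= (C/d) U`,
`|D^2 U| <= (C/d^2) U` (UBnd).  `φ(U) = 1/(1+U^(5/4))`: `|φ'| <= 2 φ/U`, `|φ''| <= C φ/U^2`
(`fderiv2_real`), so `|Dσ| <= (C/d) σ`, `|D^2σ| <= (C/d^2) σ`, and
`φ <= C min(1,d)^(5/4)` (for `d <= 1`: `U >= c/d`), `φ >= c min(1,d)^(5/4)` (`U <= C/d`).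
For `d >= 1`: `(1/d) σ <= c1`.  `sigma_inv`: `vSq_shift`.
`dsig_shift`: differentiate `sigma_inv` (t = 0) along `shift c`.
`dsig_m`: `sigma z m s = sigma z (-m) s` (rotation by `π`), so at `m = 0` the `m`-derivative vanishes.
-/

namespace Pool.Agent.Wtw

open MeasureTheory Set Filter Topology
open scoped ENNReal

/-- `sigma` as a function on `Z8 x V2 x R` -/
noncomputable def SF (c1 : ℝ) : Z8 × V2 × ℝ → ℝ := fun t => sigma c1 t.1 t.2.1 t.2.2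

/-- the profile -/
noncomputable def SigBnd_phi (u : ℝ) : ℝ := (1 + u ^ (5 / 4 : ℝ))⁻¹

theorem SigBnd_SF_eq (c1 : ℝ) : SF c1 = fun t => c1 * SigBnd_phi (UF t) := by
  funext t
  simp only [SF, sigma, SigBnd_phi, UF]
  rw [div_eq_mul_inv]

theorem SigBnd_den_pos {u : ℝ} (hu : 0 < u) : 0 < 1 + u ^ (5 / 4 : ℝ) := by
  have := Real.rpow_pos_of_pos hu (5 / 4 : ℝ)
  linarith

theorem SigBnd_phi_smooth {u : ℝ} (hu : 0 < u) : ContDiffAt ℝ 2 SigBnd_phi u := by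
  unfold SigBnd_phi
  refine ContDiffAt.inv ?_ (SigBnd_den_pos hu).ne'
  exact contDiffAt_const.add (Real.contDiffAt_rpow_const_of_ne hu.ne')

theorem SigBnd_phi_deriv {u : ℝ} (hu : 0 < u) :
    HasDerivAt SigBnd_phi (-(5 / 4 * u ^ (1 / 4 : ℝ)) / (1 + u ^ (5 / 4 : ℝ)) ^ 2) u := by
  have h1 : HasDerivAt (fun u : ℝ => 1 + u ^ (5 / 4 : ℝ)) (5 / 4 * u ^ (1 / 4 : ℝ)) u := by
    have h := (Real.hasDerivAt_rpow_const (x := u) (p := (5 / 4 : ℝ)) (Or.inl hu.ne')).const_add 1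
    rw [show (5 / 4 : ℝ) - 1 = 1 / 4 by norm_num] at h
    exact h
  exact h1.inv (SigBnd_den_pos hu).ne'

theorem SigBnd_phi_deriv2 {u : ℝ} (hu : 0 < u) :
    deriv (deriv SigBnd_phi) u =
      -(5 / 16 * u ^ (-(3 / 4) : ℝ)) / (1 + u ^ (5 / 4 : ℝ)) ^ 2 +
        25 / 8 * u ^ (1 / 2 : ℝ) / (1 + u ^ (5 / 4 : ℝ)) ^ 3 := by
  have hev : deriv SigBnd_phi =ᶠ[𝓝 u]
      fun u => -(5 / 4 * u ^ (1 / 4 : ℝ)) / (1 + u ^ (5 / 4 : ℝ)) ^ 2 := by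
    filter_upwards [Ioi_mem_nhds hu] with t ht
    exact (SigBnd_phi_deriv ht).deriv
  rw [hev.deriv_eq]
  have h1 : HasDerivAt (fun u : ℝ => 1 + u ^ (5 / 4 : ℝ)) (5 / 4 * u ^ (1 / 4 : ℝ)) u := by
    have h := (Real.hasDerivAt_rpow_const (x := u) (p := (5 / 4 : ℝ)) (Or.inl hu.ne')).const_add 1
    rw [show (5 / 4 : ℝ) - 1 = 1 / 4 by norm_num] at h
    exact h
  have h2 : HasDerivAt (fun u : ℝ => -(5 / 4 * u ^ (1 / 4 : ℝ)))
      (-(5 / 4 * (1 / 4 * u ^ (-(3 / 4) : ℝ)))) u := by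
    have h := (Real.hasDerivAt_rpow_const (x := u) (p := (1 / 4 : ℝ)) (Or.inl hu.ne'))
    have h' := (h.const_mul (5 / 4 : ℝ)).neg
    rw [show (1 / 4 : ℝ) - 1 = -(3 / 4) by norm_num] at h'
    exact h'
  have h3 := h2.div (h1.pow 2) (pow_ne_zero 2 (SigBnd_den_pos hu).ne')
  have h3' : deriv (fun u : ℝ => -(5 / 4 * u ^ (1 / 4 : ℝ)) / (1 + u ^ (5 / 4 : ℝ)) ^ 2) u = _ :=
    h3.deriv
  rw [h3', Pi.pow_apply]
  have hD := (SigBnd_den_pos hu).ne'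
  have e1 : u ^ (1 / 4 : ℝ) * u ^ (1 / 4 : ℝ) = u ^ (1 / 2 : ℝ) := by
    rw [← Real.rpow_add hu]; norm_num
  set D := 1 + u ^ (5 / 4 : ℝ)
  set q := u ^ (1 / 4 : ℝ)
  rw [← e1]
  simp only [Nat.cast_ofNat, Nat.add_one_sub_one, pow_one]
  field_simp
  ring

theorem SigBnd_phi_pos {u : ℝ} (hu : 0 < u) : 0 < SigBnd_phi u :=
  inv_pos.mpr (SigBnd_den_pos hu)

theorem SigBnd_phi_le_one {u : ℝ} (hu : 0 < u) : SigBnd_phi u ≤ 1 := by
  unfold SigBnd_phi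
  apply inv_le_one_of_one_le₀
  have := Real.rpow_pos_of_pos hu (5 / 4 : ℝ)
  linarith

theorem SigBnd_phi_d1 {u : ℝ} (hu : 0 < u) : |deriv SigBnd_phi u| ≤ 2 * SigBnd_phi u / u := by
  rw [(SigBnd_phi_deriv hu).deriv]
  have hD := SigBnd_den_pos hu
  have hq : 0 < u ^ (1 / 4 : ℝ) := Real.rpow_pos_of_pos hu _
  rw [neg_div, abs_neg, abs_of_pos (by positivity)]
  unfold SigBnd_phi
  have e1 : u ^ (1 / 4 : ℝ) * u = u ^ (5 / 4 : ℝ) := by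
    nth_rewrite 2 [← Real.rpow_one u]
    rw [← Real.rpow_add hu]; norm_num
  have h5 : 0 < u ^ (5 / 4 : ℝ) := Real.rpow_pos_of_pos hu _
  rw [div_le_div_iff₀ (by positivity) hu]
  set D := 1 + u ^ (5 / 4 : ℝ) with hDd
  have : 2 * D⁻¹ * D ^ 2 = 2 * D := by field_simp
  rw [this]
  have : 5 / 4 * u ^ (1 / 4 : ℝ) * u = 5 / 4 * u ^ (5 / 4 : ℝ) := by rw [mul_assoc, e1]
  rw [this]
  nlinarith

theorem SigBnd_phi_d2 {u : ℝ} (hu : 0 < u) :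
    |deriv (deriv SigBnd_phi) u| ≤ 4 * SigBnd_phi u / u ^ 2 := by
  rw [SigBnd_phi_deriv2 hu]
  have hD := SigBnd_den_pos hu
  have h34 : 0 < u ^ (-(3 / 4) : ℝ) := Real.rpow_pos_of_pos hu _
  have h12 : 0 < u ^ (1 / 2 : ℝ) := Real.rpow_pos_of_pos hu _
  have h5 : 0 < u ^ (5 / 4 : ℝ) := Real.rpow_pos_of_pos hu _
  have e1 : u ^ (-(3 / 4) : ℝ) * u ^ 2 = u ^ (5 / 4 : ℝ) := by
    rw [← Real.rpow_natCast u 2, ← Real.rpow_add hu]; norm_num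
  have e2 : u ^ (1 / 2 : ℝ) * u ^ 2 = u ^ (5 / 4 : ℝ) * u ^ (5 / 4 : ℝ) := by
    rw [← Real.rpow_natCast u 2, ← Real.rpow_add hu, ← Real.rpow_add hu]; norm_num
  have a1 : 5 / 16 * u ^ (-(3 / 4) : ℝ) / (1 + u ^ (5 / 4 : ℝ)) ^ 2 ≤
      5 / 16 * SigBnd_phi u / u ^ 2 := by
    rw [div_le_div_iff₀ (by positivity) (by positivity)]
    unfold SigBnd_phi
    have : 5 / 16 * (1 + u ^ (5 / 4 : ℝ))⁻¹ * (1 + u ^ (5 / 4 : ℝ)) ^ 2 =
        5 / 16 * (1 + u ^ (5 / 4 : ℝ)) := by field_simp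
    rw [this, mul_assoc, e1]
    nlinarith
  have a2 : 25 / 8 * u ^ (1 / 2 : ℝ) / (1 + u ^ (5 / 4 : ℝ)) ^ 3 ≤
      25 / 8 * SigBnd_phi u / u ^ 2 := by
    rw [div_le_div_iff₀ (by positivity) (by positivity)]
    unfold SigBnd_phi
    have : 25 / 8 * (1 + u ^ (5 / 4 : ℝ))⁻¹ * (1 + u ^ (5 / 4 : ℝ)) ^ 3 =
        25 / 8 * (1 + u ^ (5 / 4 : ℝ)) ^ 2 := by field_simp
    rw [this, mul_assoc, e2]
    nlinarith
  have hp := SigBnd_phi_pos hu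
  calc |-(5 / 16 * u ^ (-(3 / 4) : ℝ)) / (1 + u ^ (5 / 4 : ℝ)) ^ 2 +
        25 / 8 * u ^ (1 / 2 : ℝ) / (1 + u ^ (5 / 4 : ℝ)) ^ 3|
      ≤ |-(5 / 16 * u ^ (-(3 / 4) : ℝ)) / (1 + u ^ (5 / 4 : ℝ)) ^ 2| +
        |25 / 8 * u ^ (1 / 2 : ℝ) / (1 + u ^ (5 / 4 : ℝ)) ^ 3| := abs_add_le _ _
    _ = 5 / 16 * u ^ (-(3 / 4) : ℝ) / (1 + u ^ (5 / 4 : ℝ)) ^ 2 +
        25 / 8 * u ^ (1 / 2 : ℝ) / (1 + u ^ (5 / 4 : ℝ)) ^ 3 := by
        rw [neg_div, abs_neg, abs_of_pos (by positivity), abs_of_pos (by positivity)]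
    _ ≤ 5 / 16 * SigBnd_phi u / u ^ 2 + 25 / 8 * SigBnd_phi u / u ^ 2 := add_le_add a1 a2
    _ ≤ 4 * SigBnd_phi u / u ^ 2 := by
        rw [← add_div]
        apply div_le_div_of_nonneg_right _ (by positivity)
        nlinarith

theorem SF_smooth (c1 : ℝ) (z : Z8) (m : V2) (s : ℝ) (hs : 0 < s) :
    ContDiffAt ℝ 2 (SF c1) (z, m, s) := by
  rw [SigBnd_SF_eq]
  refine contDiffAt_const.mul ?_
  have hU : 0 < UF (z, m, s) := UU_pos z m s hs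
  exact (SigBnd_phi_smooth hU).comp (z, m, s) (UF_smooth z m s hs)

theorem sigma_pos (c1 : ℝ) (hc : 0 < c1) (z : Z8) (m : V2) (s : ℝ) (hs : 0 < s) :
    0 < sigma c1 z m s ∧ sigma c1 z m s ≤ c1 := by
  have hU := UU_pos z m s hs
  have h5 := Real.rpow_pos_of_pos hU (5 / 4 : ℝ)
  refine ⟨div_pos hc (by linarith), ?_⟩
  unfold sigma
  rw [div_le_iff₀ (by linarith)]
  nlinarith

theorem SigBnd_sigma_eq (c1 : ℝ) (z : Z8) (m : V2) (s : ℝ) :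
    sigma c1 z m s = c1 * SigBnd_phi (UU z m s) := by
  unfold sigma SigBnd_phi
  rw [div_eq_mul_inv]

theorem SigBnd_phi_bd : ∃ C : ℝ, 0 < C ∧ ∀ (z : Z8) (m : V2) (s : ℝ), 0 < s →
    SigBnd_phi (UU z m s) ≤ C * (min 1 (dv z m s)) ^ (5 / 4 : ℝ) ∧
    (min 1 (dv z m s)) ^ (5 / 4 : ℝ) ≤ C * SigBnd_phi (UU z m s) := by
  obtain ⟨C, hC, hCle⟩ := UU_le
  obtain ⟨c, hc, hcge⟩ := UU_ge
  have hcp : 0 < (1 / c) ^ (5 / 4 : ℝ) := Real.rpow_pos_of_pos (by positivity) _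
  have hCp : 0 < C ^ (5 / 4 : ℝ) := Real.rpow_pos_of_pos hC _
  refine ⟨1 + (1 / c) ^ (5 / 4 : ℝ) + C ^ (5 / 4 : ℝ), by positivity, ?_⟩
  intro z m s hs
  have hU := UU_pos z m s hs
  have hd : 0 < dv z m s := lt_of_lt_of_le (by rwa [abs_of_pos hs]) (le_dv z m s).1
  set d := dv z m s with hdd
  set U := UU z m s with hUU
  have hδ : 0 < min 1 d := lt_min one_pos hd
  have hδ5 : 0 < (min 1 d) ^ (5 / 4 : ℝ) := Real.rpow_pos_of_pos hδ _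
  constructor
  · rcases le_or_gt d 1 with h1 | h1
    · have h2 : c / d ≤ U := hcge z m s hs h1
      rw [min_eq_right h1] at *
      have h3 : (c / d) ^ (5 / 4 : ℝ) ≤ U ^ (5 / 4 : ℝ) :=
        Real.rpow_le_rpow (by positivity) h2 (by norm_num)
      have h4 : 0 < (c / d) ^ (5 / 4 : ℝ) := Real.rpow_pos_of_pos (by positivity) _
      have h5 : SigBnd_phi U ≤ ((c / d) ^ (5 / 4 : ℝ))⁻¹ := by
        unfold SigBnd_phi
        exact inv_anti₀ h4 (by linarith)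
      have h6 : ((c / d) ^ (5 / 4 : ℝ))⁻¹ = (1 / c) ^ (5 / 4 : ℝ) * d ^ (5 / 4 : ℝ) := by
        rw [← Real.inv_rpow (by positivity), ← Real.mul_rpow (by positivity) hd.le]
        congr 1
        field_simp
      rw [h6] at h5
      nlinarith
    · rw [min_eq_left h1.le, Real.one_rpow, mul_one]
      have := SigBnd_phi_le_one hU
      linarith
  · have h2 : U ≤ C / d := hCle z m s hs
    have h3 : C / d ≤ C / min 1 d := div_le_div_of_nonneg_left hC.le hδ (min_le_right _ _)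
    have h4 : U ^ (5 / 4 : ℝ) ≤ (C / min 1 d) ^ (5 / 4 : ℝ) :=
      Real.rpow_le_rpow hU.le (h2.trans h3) (by norm_num)
    rw [Real.div_rpow hC.le hδ.le] at h4
    have hδ1 : (min 1 d) ^ (5 / 4 : ℝ) ≤ 1 :=
      Real.rpow_le_one hδ.le (min_le_left _ _) (by norm_num)
    have h5 : (min 1 d) ^ (5 / 4 : ℝ) * (1 + U ^ (5 / 4 : ℝ)) ≤ 1 + C ^ (5 / 4 : ℝ) := by
      have := mul_le_mul_of_nonneg_left h4 hδ5.le
      have h7 : (min 1 d) ^ (5 / 4 : ℝ) * (C ^ (5 / 4 : ℝ) / (min 1 d) ^ (5 / 4 : ℝ)) =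
          C ^ (5 / 4 : ℝ) := by field_simp
      rw [h7] at this
      nlinarith
    have hDp := SigBnd_den_pos hU
    have hφ := SigBnd_phi_pos hU
    have h8 : (min 1 d) ^ (5 / 4 : ℝ) ≤ (1 + C ^ (5 / 4 : ℝ)) * SigBnd_phi U := by
      unfold SigBnd_phi
      rw [← div_eq_mul_inv, le_div_iff₀ hDp]
      exact h5
    nlinarith

theorem sigma_bd : ∃ C : ℝ, 0 < C ∧ ∀ (c1 : ℝ), 0 < c1 → ∀ (z : Z8) (m : V2) (s : ℝ), 0 < s →
    sigma c1 z m s ≤ C * c1 * (min 1 (dv z m s)) ^ (5 / 4 : ℝ) ∧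
    c1 * (min 1 (dv z m s)) ^ (5 / 4 : ℝ) ≤ C * sigma c1 z m s ∧
    (∀ v, |fderiv ℝ (SF c1) (z, m, s) v| ≤ C * c1 * (min 1 (dv z m s)) ^ (1 / 4 : ℝ) * ‖v‖) ∧
    ∀ v w, |fderiv ℝ (fderiv ℝ (SF c1)) (z, m, s) v w| ≤
      C * c1 * (min 1 (dv z m s)) ^ (-(3 / 4) : ℝ) * ‖v‖ * ‖w‖ := by
  obtain ⟨A, hA, hφ⟩ := SigBnd_phi_bd
  obtain ⟨B, hB, hU⟩ := UF_bd
  refine ⟨A * (1 + 2 * B + (4 * B ^ 2 + 2 * B)), by positivity, ?_⟩
  intro c1 hc1 z m s hs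
  have hUp : 0 < UU z m s := UU_pos z m s hs
  have hUp' : 0 < UF (z, m, s) := hUp
  have hd : 0 < dv z m s := lt_of_lt_of_le (by rwa [abs_of_pos hs]) (le_dv z m s).1
  obtain ⟨h1, h2⟩ := hφ z m s hs
  obtain ⟨g1, g2⟩ := hU z m s hs
  have hφp := SigBnd_phi_pos hUp
  set d := dv z m s with hdd
  have hδ : 0 < min 1 d := lt_min one_pos hd
  have hδ5 : 0 < (min 1 d) ^ (5 / 4 : ℝ) := Real.rpow_pos_of_pos hδ _
  have hK : 1 ≤ 1 + 2 * B + (4 * B ^ 2 + 2 * B) := by nlinarith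
  rw [SigBnd_sigma_eq]
  -- derivative of SF
  have hphiS : ContDiffAt ℝ 2 SigBnd_phi (UF (z, m, s)) := SigBnd_phi_smooth hUp'
  have hUS : ContDiffAt ℝ 2 UF (z, m, s) := UF_smooth z m s hs
  have hUF : UF (z, m, s) = UU z m s := rfl
  have hfd : ∀ v, fderiv ℝ (SF c1) (z, m, s) v =
      c1 * (deriv SigBnd_phi (UU z m s) * fderiv ℝ UF (z, m, s) v) := by
    intro v
    rw [SigBnd_SF_eq]
    have hdU : DifferentiableAt ℝ UF (z, m, s) := hUS.differentiableAt (by norm_num)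
    have hdφ : HasDerivAt SigBnd_phi (deriv SigBnd_phi (UF (z, m, s))) (UF (z, m, s)) :=
      (hphiS.differentiableAt (by norm_num)).hasDerivAt
    have hc := (hdφ.comp_hasFDerivAt (z, m, s) hdU.hasFDerivAt).const_mul c1
    have := hc.fderiv
    rw [show (fun t => c1 * SigBnd_phi (UF t)) = fun t => c1 * (SigBnd_phi ∘ UF) t from rfl, this]
    simp [hUF, smul_eq_mul]
  have hfd2 : ∀ v w, fderiv ℝ (fderiv ℝ (SF c1)) (z, m, s) v w =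
      c1 * (deriv (deriv SigBnd_phi) (UU z m s) * fderiv ℝ UF (z, m, s) v *
        fderiv ℝ UF (z, m, s) w + deriv SigBnd_phi (UU z m s) *
        fderiv ℝ (fderiv ℝ UF) (z, m, s) v w) := by
    intro v w
    rw [SigBnd_SF_eq]
    have hcomp : ContDiffAt ℝ 2 (fun t => SigBnd_phi (UF t)) (z, m, s) := hphiS.comp (z, m, s) hUS
    have h3 := fderiv2_clm (ContinuousLinearMap.mul ℝ ℝ c1) hcomp v w
    simp only [ContinuousLinearMap.mul_apply'] at h3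
    rw [h3, fderiv2_real hphiS hUS v w, hUF]
  have k1 : |deriv SigBnd_phi (UU z m s)| ≤ 2 * SigBnd_phi (UU z m s) / UU z m s := SigBnd_phi_d1 hUp
  have k2 : |deriv (deriv SigBnd_phi) (UU z m s)| ≤ 4 * SigBnd_phi (UU z m s) / UU z m s ^ 2 :=
    SigBnd_phi_d2 hUp
  -- powers of delta
  have p1 : (min 1 d) ^ (5 / 4 : ℝ) / d ≤ (min 1 d) ^ (1 / 4 : ℝ) := by
    rw [div_le_iff₀ hd]
    have e : (min 1 d) ^ (5 / 4 : ℝ) = (min 1 d) ^ (1 / 4 : ℝ) * min 1 d := by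
      nth_rewrite 3 [← Real.rpow_one (min 1 d)]
      rw [← Real.rpow_add hδ]; norm_num
    rw [e]
    exact mul_le_mul_of_nonneg_left (min_le_right _ _) (Real.rpow_nonneg hδ.le _)
  have p2 : (min 1 d) ^ (5 / 4 : ℝ) / d ^ 2 ≤ (min 1 d) ^ (-(3 / 4) : ℝ) := by
    rw [div_le_iff₀ (by positivity)]
    have e : (min 1 d) ^ (5 / 4 : ℝ) = (min 1 d) ^ (-(3 / 4) : ℝ) * (min 1 d) ^ 2 := by
      rw [← Real.rpow_natCast (min 1 d) 2, ← Real.rpow_add hδ]; norm_num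
    rw [e]
    refine mul_le_mul_of_nonneg_left ?_ (Real.rpow_nonneg hδ.le _)
    exact pow_le_pow_left₀ hδ.le (min_le_right _ _) 2
  refine ⟨?_, ?_, ?_, ?_⟩
  · have : c1 * SigBnd_phi (UU z m s) ≤ c1 * (A * (min 1 d) ^ (5 / 4 : ℝ)) :=
      mul_le_mul_of_nonneg_left h1 hc1.le
    have h9 : 0 < A * c1 * (min 1 d) ^ (5 / 4 : ℝ) := by positivity
    calc _ ≤ _ := this
      _ = 1 * (A * c1 * (min 1 d) ^ (5 / 4 : ℝ)) := by ring
      _ ≤ (1 + 2 * B + (4 * B ^ 2 + 2 * B)) * (A * c1 * (min 1 d) ^ (5 / 4 : ℝ)) :=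
        mul_le_mul_of_nonneg_right hK h9.le
      _ = _ := by ring
  · have : c1 * (min 1 d) ^ (5 / 4 : ℝ) ≤ c1 * (A * SigBnd_phi (UU z m s)) :=
      mul_le_mul_of_nonneg_left h2 hc1.le
    have h9 : 0 < A * c1 * SigBnd_phi (UU z m s) := by positivity
    calc _ ≤ _ := this
      _ = 1 * (A * c1 * SigBnd_phi (UU z m s)) := by ring
      _ ≤ (1 + 2 * B + (4 * B ^ 2 + 2 * B)) * (A * c1 * SigBnd_phi (UU z m s)) :=
        mul_le_mul_of_nonneg_right hK h9.le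
      _ = _ := by ring
  · intro v
    rw [hfd, abs_mul, abs_mul, abs_of_pos hc1]
    have h3 : |deriv SigBnd_phi (UU z m s)| * |fderiv ℝ UF (z, m, s) v| ≤
        (2 * SigBnd_phi (UU z m s) / UU z m s) * (B / d * UU z m s * ‖v‖) :=
      mul_le_mul k1 (g1 v) (abs_nonneg _) (by positivity)
    have h4 : (2 * SigBnd_phi (UU z m s) / UU z m s) * (B / d * UU z m s * ‖v‖) =
        2 * B * (SigBnd_phi (UU z m s) / d) * ‖v‖ := by
      field_simp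
    have h5 : SigBnd_phi (UU z m s) / d ≤ A * (min 1 d) ^ (1 / 4 : ℝ) := by
      calc SigBnd_phi (UU z m s) / d ≤ A * (min 1 d) ^ (5 / 4 : ℝ) / d :=
            div_le_div_of_nonneg_right h1 hd.le
        _ = A * ((min 1 d) ^ (5 / 4 : ℝ) / d) := by ring
        _ ≤ _ := mul_le_mul_of_nonneg_left p1 hA.le
    have hq : 0 ≤ (min 1 d) ^ (1 / 4 : ℝ) := Real.rpow_nonneg hδ.le _
    calc c1 * (|deriv SigBnd_phi (UU z m s)| * |fderiv ℝ UF (z, m, s) v|)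
        ≤ c1 * (2 * B * (SigBnd_phi (UU z m s) / d) * ‖v‖) := by
          rw [← h4]; exact mul_le_mul_of_nonneg_left h3 hc1.le
      _ ≤ c1 * (2 * B * (A * (min 1 d) ^ (1 / 4 : ℝ)) * ‖v‖) := by gcongr
      _ = (2 * B) * (A * c1 * (min 1 d) ^ (1 / 4 : ℝ) * ‖v‖) := by ring
      _ ≤ (1 + 2 * B + (4 * B ^ 2 + 2 * B)) * (A * c1 * (min 1 d) ^ (1 / 4 : ℝ) * ‖v‖) := by
          apply mul_le_mul_of_nonneg_right _ (by positivity)
          nlinarith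
      _ = _ := by ring
  · intro v w
    rw [hfd2, abs_mul, abs_of_pos hc1]
    have h3 : |deriv (deriv SigBnd_phi) (UU z m s) * fderiv ℝ UF (z, m, s) v *
        fderiv ℝ UF (z, m, s) w| ≤ 4 * B ^ 2 * (SigBnd_phi (UU z m s) / d ^ 2) * ‖v‖ * ‖w‖ := by
      rw [abs_mul, abs_mul]
      calc |deriv (deriv SigBnd_phi) (UU z m s)| * |fderiv ℝ UF (z, m, s) v| *
            |fderiv ℝ UF (z, m, s) w| ≤
            (4 * SigBnd_phi (UU z m s) / UU z m s ^ 2) * (B / d * UU z m s * ‖v‖) *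
              (B / d * UU z m s * ‖w‖) := by
            refine mul_le_mul (mul_le_mul k2 (g1 v) (abs_nonneg _) (by positivity)) (g1 w)
              (abs_nonneg _) (by positivity)
        _ = _ := by field_simp
    have h4 : |deriv SigBnd_phi (UU z m s) * fderiv ℝ (fderiv ℝ UF) (z, m, s) v w| ≤
        2 * B * (SigBnd_phi (UU z m s) / d ^ 2) * ‖v‖ * ‖w‖ := by
      rw [abs_mul]
      calc |deriv SigBnd_phi (UU z m s)| * |fderiv ℝ (fderiv ℝ UF) (z, m, s) v w| ≤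
            (2 * SigBnd_phi (UU z m s) / UU z m s) * (B / d ^ 2 * UU z m s * ‖v‖ * ‖w‖) :=
            mul_le_mul k1 (g2 v w) (abs_nonneg _) (by positivity)
        _ = _ := by field_simp
    have h5 : SigBnd_phi (UU z m s) / d ^ 2 ≤ A * (min 1 d) ^ (-(3 / 4) : ℝ) := by
      calc SigBnd_phi (UU z m s) / d ^ 2 ≤ A * (min 1 d) ^ (5 / 4 : ℝ) / d ^ 2 :=
            div_le_div_of_nonneg_right h1 (by positivity)
        _ = A * ((min 1 d) ^ (5 / 4 : ℝ) / d ^ 2) := by ring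
        _ ≤ _ := mul_le_mul_of_nonneg_left p2 hA.le
    have hq : 0 ≤ (min 1 d) ^ (-(3 / 4) : ℝ) := Real.rpow_nonneg hδ.le _
    calc c1 * |deriv (deriv SigBnd_phi) (UU z m s) * fderiv ℝ UF (z, m, s) v *
          fderiv ℝ UF (z, m, s) w + deriv SigBnd_phi (UU z m s) *
          fderiv ℝ (fderiv ℝ UF) (z, m, s) v w|
        ≤ c1 * (4 * B ^ 2 * (SigBnd_phi (UU z m s) / d ^ 2) * ‖v‖ * ‖w‖ +
            2 * B * (SigBnd_phi (UU z m s) / d ^ 2) * ‖v‖ * ‖w‖) := by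
          refine mul_le_mul_of_nonneg_left ?_ hc1.le
          exact (abs_add_le _ _).trans (add_le_add h3 h4)
      _ = c1 * ((4 * B ^ 2 + 2 * B) * (SigBnd_phi (UU z m s) / d ^ 2) * ‖v‖ * ‖w‖) := by ring
      _ ≤ c1 * ((4 * B ^ 2 + 2 * B) * (A * (min 1 d) ^ (-(3 / 4) : ℝ)) * ‖v‖ * ‖w‖) := by gcongr
      _ = (4 * B ^ 2 + 2 * B) * (A * c1 * (min 1 d) ^ (-(3 / 4) : ℝ) * ‖v‖ * ‖w‖) := by ring
      _ ≤ (1 + 2 * B + (4 * B ^ 2 + 2 * B)) *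
          (A * c1 * (min 1 d) ^ (-(3 / 4) : ℝ) * ‖v‖ * ‖w‖) := by
          apply mul_le_mul_of_nonneg_right _ (by positivity)
          nlinarith
      _ = _ := by ring

theorem sigma_inv (c1 : ℝ) (z : Z8) (m : V2) (s t : ℝ) (c : V2) :
    sigma c1 (z + shift c) (rot t m) s = sigma c1 z m s := by
  unfold sigma UU
  simp only [vSq_shift]

theorem SigBnd_shift_smul (τ : ℝ) (c : V2) : shift (τ • c) = τ • shift c := by
  funext k
  simp [shift]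
  ring

theorem dsig_shift (c1 : ℝ) (z : Z8) (m : V2) (s : ℝ) (hs : 0 < s) (c : V2) :
    fderiv ℝ (SF c1) (z, m, s) (shift c, 0, 0) = 0 := by
  have hd : DifferentiableAt ℝ (SF c1) (z, m, s) :=
    (SF_smooth c1 z m s hs).differentiableAt (by norm_num)
  have hl : HasDerivAt (fun τ : ℝ => ((z, m, s) : Z8 × V2 × ℝ) + τ • ((shift c, 0, 0) : Z8 × V2 × ℝ))
      (shift c, 0, 0) 0 := by
    have := ((hasDerivAt_id (0 : ℝ)).smul_const ((shift c, 0, 0) : Z8 × V2 × ℝ)).const_add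
      ((z, m, s) : Z8 × V2 × ℝ)
    simpa using this
  have h1 : HasDerivAt (fun τ : ℝ => SF c1 (((z, m, s) : Z8 × V2 × ℝ) +
      τ • ((shift c, 0, 0) : Z8 × V2 × ℝ))) (fderiv ℝ (SF c1) (z, m, s) (shift c, 0, 0)) 0 := by
    have hd' : HasFDerivAt (SF c1) (fderiv ℝ (SF c1) (z, m, s))
        (((z, m, s) : Z8 × V2 × ℝ) + (0 : ℝ) • ((shift c, 0, 0) : Z8 × V2 × ℝ)) := by
      simpa using hd.hasFDerivAt
    exact hd'.comp_hasDerivAt 0 hl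
  have h2 : (fun τ : ℝ => SF c1 (((z, m, s) : Z8 × V2 × ℝ) +
      τ • ((shift c, 0, 0) : Z8 × V2 × ℝ))) = fun _ => SF c1 (z, m, s) := by
    funext τ
    have := sigma_inv c1 z m s 0 (τ • c)
    rw [SigBnd_shift_smul, rot_zero] at this
    simpa [SF] using this
  rw [h2] at h1
  exact h1.unique (hasDerivAt_const _ _)

theorem dsig_m (c1 : ℝ) (z : Z8) (s : ℝ) (hs : 0 < s) (c : V2) :
    fderiv ℝ (SF c1) (z, 0, s) (0, c, 0) = 0 := by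
  have hd : DifferentiableAt ℝ (SF c1) (z, 0, s) :=
    (SF_smooth c1 z 0 s hs).differentiableAt (by norm_num)
  have hl : HasDerivAt (fun τ : ℝ => ((z, 0, s) : Z8 × V2 × ℝ) + τ • ((0, c, 0) : Z8 × V2 × ℝ))
      (0, c, 0) 0 := by
    have := ((hasDerivAt_id (0 : ℝ)).smul_const ((0, c, 0) : Z8 × V2 × ℝ)).const_add
      ((z, 0, s) : Z8 × V2 × ℝ)
    simpa using this
  set g : ℝ → ℝ := fun τ : ℝ => SF c1 (((z, 0, s) : Z8 × V2 × ℝ) +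
      τ • ((0, c, 0) : Z8 × V2 × ℝ)) with hg
  have h1 : HasDerivAt g (fderiv ℝ (SF c1) (z, 0, s) (0, c, 0)) 0 := by
    have hd' : HasFDerivAt (SF c1) (fderiv ℝ (SF c1) (z, 0, s))
        (((z, 0, s) : Z8 × V2 × ℝ) + (0 : ℝ) • ((0, c, 0) : Z8 × V2 × ℝ)) := by
      simpa using hd.hasFDerivAt
    exact hd'.comp_hasDerivAt 0 hl
  have heven : ∀ τ, g (-τ) = g τ := by
    intro τ
    have hr : rot Real.pi (τ • c) = -(τ • c) := by
      funext i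
      fin_cases i <;> simp [rot]
    have := sigma_inv c1 z (τ • c) s Real.pi 0
    have hz : shift 0 = 0 := by funext k; simp [shift]
    rw [hr, hz, add_zero] at this
    simpa [hg, SF, neg_smul] using this
  have h2 : HasDerivAt (fun τ => g (-τ)) (-(fderiv ℝ (SF c1) (z, 0, s) (0, c, 0))) 0 := by
    have hn : HasDerivAt (fun τ : ℝ => -τ) (-1) 0 := hasDerivAt_neg 0
    have h1' : HasDerivAt g (fderiv ℝ (SF c1) (z, 0, s) (0, c, 0)) (-0) := by simpa using h1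
    have := h1'.comp 0 hn
    simpa [Function.comp_def] using this
  have h3 : (fun τ => g (-τ)) = g := funext heven
  rw [h3] at h2
  have := h1.unique h2
  linarith

end Pool.Agent.Wtw
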