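import Mathlib
import Pool.Agent.Wtw.SigBnd
import Pool.Agent.Wtw.Mu2Bnd

/-!
# XiBnd: the function `Xi (z,s) = sigma (z, mu2 (z,s), s)`

`XF c1 = SF c1 ∘ (z,s) ↦ (z, MM2 (z,s), s)`.  With `ζ v = (v.1, DMM2 v, v.2)`:
`DXF v = DSF (ζ v)`, `D^2XF v w = D^2SF (ζ v) (ζ w) + DSF (0, D^2MM2 v w, 0)` (`fderiv2_comp`, `fderiv2_prod`).
`|ζ v| <= C |v|` (`MM2_bd`).  `D = dv z (mu2 z s) s`, `μ = min 1 D`.
`XF_B`: in case B(x) with `r = s/dist(z_x)`: the second term by `MM2_B`, the first isotropic.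
-/

namespace Pool.Agent.Wtw

open MeasureTheory Set Filter Topology
open scoped ENNReal

noncomputable def XF (c1 : ℝ) : Z8 × ℝ → ℝ := fun t => Xi c1 t.1 t.2

/-- the inner map -/
noncomputable def XiBnd_h (t : Z8 × ℝ) : Z8 × V2 × ℝ := (t.1, MM2 t, t.2)

theorem XiBnd_h_smooth (z : Z8) (s : ℝ) (hs : 0 < s) : ContDiffAt ℝ 2 XiBnd_h (z, s) := by
  obtain ⟨C, _, h⟩ := MM2_bd
  exact contDiffAt_fst.prodMk (((h z s hs).1).prodMk contDiffAt_snd)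

theorem XiBnd_MM2_smooth (z : Z8) (s : ℝ) (hs : 0 < s) : ContDiffAt ℝ 2 MM2 (z, s) := by
  obtain ⟨C, _, h⟩ := MM2_bd
  exact (h z s hs).1

theorem XiBnd_h_fderiv (z : Z8) (s : ℝ) (hs : 0 < s) (v : Z8 × ℝ) :
    fderiv ℝ XiBnd_h (z, s) v = (v.1, fderiv ℝ MM2 (z, s) v, v.2) := by
  have h1 : HasFDerivAt (fun t : Z8 × ℝ => t.1) (ContinuousLinearMap.fst ℝ Z8 ℝ) (z, s) :=
    hasFDerivAt_fst
  have h2 : HasFDerivAt (fun t : Z8 × ℝ => t.2) (ContinuousLinearMap.snd ℝ Z8 ℝ) (z, s) :=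
    hasFDerivAt_snd
  have h3 : HasFDerivAt MM2 (fderiv ℝ MM2 (z, s)) (z, s) :=
    ((XiBnd_MM2_smooth z s hs).differentiableAt (by norm_num)).hasFDerivAt
  have h4 := h1.prodMk (h3.prodMk h2)
  have h5 : HasFDerivAt XiBnd_h ((ContinuousLinearMap.fst ℝ Z8 ℝ).prod
    ((fderiv ℝ MM2 (z, s)).prod (ContinuousLinearMap.snd ℝ Z8 ℝ))) (z, s) := h4
  rw [h5.fderiv]
  rfl

theorem XiBnd_h_fderiv2 (z : Z8) (s : ℝ) (hs : 0 < s) (v w : Z8 × ℝ) :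
    fderiv ℝ (fderiv ℝ XiBnd_h) (z, s) v w = (0, fderiv ℝ (fderiv ℝ MM2) (z, s) v w, 0) := by
  have h1 := fderiv2_prod (f := fun t : Z8 × ℝ => t.1) (g := fun t : Z8 × ℝ => (MM2 t, t.2))
    (x := (z, s)) contDiffAt_fst ((XiBnd_MM2_smooth z s hs).prodMk contDiffAt_snd) v w
  have h2 := fderiv2_prod (f := MM2) (g := fun t : Z8 × ℝ => t.2)
    (x := (z, s)) (XiBnd_MM2_smooth z s hs) contDiffAt_snd v w
  have h3 := fderiv2_lin (ContinuousLinearMap.fst ℝ Z8 ℝ) (z, s)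
  have h4 := fderiv2_lin (ContinuousLinearMap.snd ℝ Z8 ℝ) (z, s)
  have e3 : (fun t : Z8 × ℝ => (ContinuousLinearMap.fst ℝ Z8 ℝ) t) = fun t : Z8 × ℝ => t.1 := rfl
  have e4 : (fun t : Z8 × ℝ => (ContinuousLinearMap.snd ℝ Z8 ℝ) t) = fun t : Z8 × ℝ => t.2 := rfl
  rw [e3] at h3
  rw [e4] at h4
  rw [h4] at h2
  rw [h2, h3] at h1
  exact h1

theorem XF_smooth (c1 : ℝ) (z : Z8) (s : ℝ) (hs : 0 < s) : ContDiffAt ℝ 2 (XF c1) (z, s) := by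
  have h1 : ContDiffAt ℝ 2 (SF c1) (XiBnd_h (z, s)) := SF_smooth c1 z (mu2 z s) s hs
  exact h1.comp (z, s) (XiBnd_h_smooth z s hs)

/-- first order chain rule -/
theorem XF_d (c1 : ℝ) (z : Z8) (s : ℝ) (hs : 0 < s) (v : Z8 × ℝ) :
    fderiv ℝ (XF c1) (z, s) v =
      fderiv ℝ (SF c1) (z, mu2 z s, s) (v.1, fderiv ℝ MM2 (z, s) v, v.2) := by
  have h1 : DifferentiableAt ℝ (SF c1) (XiBnd_h (z, s)) :=
    (SF_smooth c1 z (mu2 z s) s hs).differentiableAt (by norm_num)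
  have h2 : DifferentiableAt ℝ XiBnd_h (z, s) :=
    (XiBnd_h_smooth z s hs).differentiableAt (by norm_num)
  have h3 : fderiv ℝ (XF c1) (z, s) = (fderiv ℝ (SF c1) (XiBnd_h (z, s))).comp
      (fderiv ℝ XiBnd_h (z, s)) := fderiv_comp (z, s) h1 h2
  rw [h3, ContinuousLinearMap.comp_apply, XiBnd_h_fderiv z s hs]
  rfl

theorem XiBnd_dd (c1 : ℝ) (z : Z8) (s : ℝ) (hs : 0 < s) (v w : Z8 × ℝ) :
    fderiv ℝ (fderiv ℝ (XF c1)) (z, s) v w =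
      fderiv ℝ (fderiv ℝ (SF c1)) (z, mu2 z s, s) (v.1, fderiv ℝ MM2 (z, s) v, v.2)
        (w.1, fderiv ℝ MM2 (z, s) w, w.2) +
      fderiv ℝ (SF c1) (z, mu2 z s, s) (0, fderiv ℝ (fderiv ℝ MM2) (z, s) v w, 0) := by
  have h1 : ContDiffAt ℝ 2 (SF c1) (XiBnd_h (z, s)) := SF_smooth c1 z (mu2 z s) s hs
  have h := fderiv2_comp h1 (XiBnd_h_smooth z s hs) v w
  rw [XiBnd_h_fderiv z s hs, XiBnd_h_fderiv z s hs, XiBnd_h_fderiv2 z s hs] at h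
  exact h

theorem XiBnd_dv_nonneg (z : Z8) (m : V2) (s : ℝ) : 0 ≤ dv z m s :=
  Real.iInf_nonneg fun x => Real.sqrt_nonneg _

theorem XiBnd_zeta_norm {a : Z8} {b : V2} {c : ℝ} {M : ℝ} (ha : ‖a‖ ≤ M) (hb : ‖b‖ ≤ M)
    (hc : ‖c‖ ≤ M) : ‖((a, b, c) : Z8 × V2 × ℝ)‖ ≤ M :=
  max_le ha (max_le hb hc)

theorem XF_bd : ∃ C : ℝ, 0 < C ∧ ∀ c1 : ℝ, 0 < c1 → ∀ (z : Z8) (s : ℝ), 0 < s →
    (∀ v, |fderiv ℝ (XF c1) (z, s) v| ≤
      C * c1 * (min 1 (dv z (mu2 z s) s)) ^ (1 / 4 : ℝ) * ‖v‖) ∧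
    ∀ v w, |fderiv ℝ (fderiv ℝ (XF c1)) (z, s) v w| ≤
      C * c1 * ((min 1 (dv z (mu2 z s) s)) ^ (-(3 / 4) : ℝ) +
        (min 1 (dv z (mu2 z s) s)) ^ (1 / 4 : ℝ) / s) * ‖v‖ * ‖w‖ := by
  obtain ⟨C1, hC1, h1⟩ := sigma_bd
  obtain ⟨C2, hC2, h2⟩ := MM2_bd
  refine ⟨C1 * (1 + C2) ^ 2, by positivity, fun c1 hc1 z s hs => ?_⟩
  obtain ⟨_, _, h3, h4⟩ := h1 c1 hc1 z (mu2 z s) s hs
  obtain ⟨_, h5, h6⟩ := h2 z s hs
  set μ := min 1 (dv z (mu2 z s) s) with hμ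
  have hμ0 : 0 ≤ μ := le_min zero_le_one (XiBnd_dv_nonneg _ _ _)
  have hA : 0 ≤ μ ^ (1 / 4 : ℝ) := Real.rpow_nonneg hμ0 _
  have hB : 0 ≤ μ ^ (-(3 / 4) : ℝ) := Real.rpow_nonneg hμ0 _
  have hz : ∀ v : Z8 × ℝ, ‖((v.1, fderiv ℝ MM2 (z, s) v, v.2) : Z8 × V2 × ℝ)‖ ≤ (1 + C2) * ‖v‖ := by
    intro v
    have hv := norm_nonneg v
    apply XiBnd_zeta_norm
    · exact (norm_fst_le v).trans (by nlinarith)
    · exact (h5 v).trans (by nlinarith)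
    · exact (norm_snd_le v).trans (by nlinarith)
  have hone : 1 ≤ 1 + C2 := by linarith
  refine ⟨fun v => ?_, fun v w => ?_⟩
  · rw [XF_d c1 z s hs v]
    have hv := norm_nonneg v
    calc _ ≤ C1 * c1 * μ ^ (1 / 4 : ℝ) * ‖((v.1, fderiv ℝ MM2 (z, s) v, v.2) : Z8 × V2 × ℝ)‖ := h3 _
      _ ≤ C1 * c1 * μ ^ (1 / 4 : ℝ) * ((1 + C2) ^ 2 * ‖v‖) := by
          apply mul_le_mul_of_nonneg_left ((hz v).trans _) (by positivity)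
          apply mul_le_mul_of_nonneg_right _ hv
          nlinarith
      _ = _ := by ring
  · rw [XiBnd_dd c1 z s hs v w]
    have hv := norm_nonneg v
    have hw := norm_nonneg w
    have e1 : |fderiv ℝ (fderiv ℝ (SF c1)) (z, mu2 z s, s) (v.1, fderiv ℝ MM2 (z, s) v, v.2)
        (w.1, fderiv ℝ MM2 (z, s) w, w.2)| ≤
        C1 * (1 + C2) ^ 2 * c1 * μ ^ (-(3 / 4) : ℝ) * ‖v‖ * ‖w‖ := by
      calc _ ≤ C1 * c1 * μ ^ (-(3 / 4) : ℝ) *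
            ‖((v.1, fderiv ℝ MM2 (z, s) v, v.2) : Z8 × V2 × ℝ)‖ *
            ‖((w.1, fderiv ℝ MM2 (z, s) w, w.2) : Z8 × V2 × ℝ)‖ := h4 _ _
        _ ≤ C1 * c1 * μ ^ (-(3 / 4) : ℝ) * ((1 + C2) * ‖v‖) * ((1 + C2) * ‖w‖) := by
            apply mul_le_mul _ (hz w) (norm_nonneg _) (by positivity)
            exact mul_le_mul_of_nonneg_left (hz v) (by positivity)
        _ = _ := by ring
    have e2 : |fderiv ℝ (SF c1) (z, mu2 z s, s) (0, fderiv ℝ (fderiv ℝ MM2) (z, s) v w, 0)| ≤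
        C1 * (1 + C2) ^ 2 * c1 * (μ ^ (1 / 4 : ℝ) / s) * ‖v‖ * ‖w‖ := by
      calc _ ≤ C1 * c1 * μ ^ (1 / 4 : ℝ) *
            ‖((0, fderiv ℝ (fderiv ℝ MM2) (z, s) v w, 0) : Z8 × V2 × ℝ)‖ := h3 _
        _ ≤ C1 * c1 * μ ^ (1 / 4 : ℝ) * (C2 / s * ‖v‖ * ‖w‖) := by
            apply mul_le_mul_of_nonneg_left _ (by positivity)
            apply XiBnd_zeta_norm _ (h6 v w)
            · rw [norm_zero]; positivity
            · rw [norm_zero]; positivity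
        _ = C2 * (C1 * c1 * (μ ^ (1 / 4 : ℝ) / s) * ‖v‖ * ‖w‖) := by ring
        _ ≤ (1 + C2) ^ 2 * (C1 * c1 * (μ ^ (1 / 4 : ℝ) / s) * ‖v‖ * ‖w‖) := by
            apply mul_le_mul_of_nonneg_right _ (by positivity)
            nlinarith
        _ = _ := by ring
    calc _ ≤ _ := (abs_add_le _ _).trans (add_le_add e1 e2)
      _ = _ := by ring

theorem XF_B : ∃ C : ℝ, 0 < C ∧ ∀ c1 : ℝ, 0 < c1 → ∀ (z : Z8) (s : ℝ) (x : Idx), 0 < s →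
    s ≤ Metric.infDist (z x) CC → Metric.infDist (z x) CC ≤ 1 →
    (∀ k, k ≠ x → Metric.infDist (z k) CC ≤ s) →
    ∀ v w, |fderiv ℝ (fderiv ℝ (XF c1)) (z, s) v w| ≤
      C * c1 * ((min 1 (dv z (mu2 z s) s)) ^ (-(3 / 4) : ℝ) * ‖v‖ * ‖w‖ +
        1 / s * nuT x (s / Metric.infDist (z x) CC) v * nuT x (s / Metric.infDist (z x) CC) w) := by
  obtain ⟨C1, hC1, h1⟩ := sigma_bd
  obtain ⟨C2, hC2, h2⟩ := MM2_bd
  obtain ⟨C3, hC3, h3'⟩ := MM2_B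
  refine ⟨C1 * ((1 + C2) ^ 2 + C3), by positivity, fun c1 hc1 z s x hs hx1 hx2 hx3 v w => ?_⟩
  obtain ⟨_, _, h3, h4⟩ := h1 c1 hc1 z (mu2 z s) s hs
  obtain ⟨_, h5, h6⟩ := h2 z s hs
  obtain ⟨_, h7⟩ := h3' z s x hs hx1 hx2 hx3
  set μ := min 1 (dv z (mu2 z s) s) with hμ
  have hμ0 : 0 ≤ μ := le_min zero_le_one (XiBnd_dv_nonneg _ _ _)
  have hμ1 : μ ≤ 1 := min_le_left _ _
  have hA : 0 ≤ μ ^ (1 / 4 : ℝ) := Real.rpow_nonneg hμ0 _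
  have hA1 : μ ^ (1 / 4 : ℝ) ≤ 1 := Real.rpow_le_one hμ0 hμ1 (by norm_num)
  have hB : 0 ≤ μ ^ (-(3 / 4) : ℝ) := Real.rpow_nonneg hμ0 _
  have hz : ∀ v : Z8 × ℝ, ‖((v.1, fderiv ℝ MM2 (z, s) v, v.2) : Z8 × V2 × ℝ)‖ ≤ (1 + C2) * ‖v‖ := by
    intro v
    have hv := norm_nonneg v
    apply XiBnd_zeta_norm
    · exact (norm_fst_le v).trans (by nlinarith)
    · exact (h5 v).trans (by nlinarith)
    · exact (norm_snd_le v).trans (by nlinarith)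
  rw [XiBnd_dd c1 z s hs v w]
  have hv := norm_nonneg v
  have hw := norm_nonneg w
  have e1 : |fderiv ℝ (fderiv ℝ (SF c1)) (z, mu2 z s, s) (v.1, fderiv ℝ MM2 (z, s) v, v.2)
      (w.1, fderiv ℝ MM2 (z, s) w, w.2)| ≤
      C1 * (1 + C2) ^ 2 * c1 * μ ^ (-(3 / 4) : ℝ) * ‖v‖ * ‖w‖ := by
    calc _ ≤ C1 * c1 * μ ^ (-(3 / 4) : ℝ) *
          ‖((v.1, fderiv ℝ MM2 (z, s) v, v.2) : Z8 × V2 × ℝ)‖ *
          ‖((w.1, fderiv ℝ MM2 (z, s) w, w.2) : Z8 × V2 × ℝ)‖ := h4 _ _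
      _ ≤ C1 * c1 * μ ^ (-(3 / 4) : ℝ) * ((1 + C2) * ‖v‖) * ((1 + C2) * ‖w‖) := by
          apply mul_le_mul _ (hz w) (norm_nonneg _) (by positivity)
          exact mul_le_mul_of_nonneg_left (hz v) (by positivity)
      _ = _ := by ring
  have hn : ∀ v : Z8 × ℝ, 0 ≤ nuT x (s / Metric.infDist (z x) CC) v := fun v =>
    (abs_nonneg _).trans (le_max_right _ _)
  have hnv := hn v
  have hnw := hn w
  set N1 := nuT x (s / Metric.infDist (z x) CC) v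
  set N2 := nuT x (s / Metric.infDist (z x) CC) w
  have e2 : |fderiv ℝ (SF c1) (z, mu2 z s, s) (0, fderiv ℝ (fderiv ℝ MM2) (z, s) v w, 0)| ≤
      C1 * C3 * c1 * (1 / s * N1 * N2) := by
    calc _ ≤ C1 * c1 * μ ^ (1 / 4 : ℝ) *
          ‖((0, fderiv ℝ (fderiv ℝ MM2) (z, s) v w, 0) : Z8 × V2 × ℝ)‖ := h3 _
      _ ≤ C1 * c1 * μ ^ (1 / 4 : ℝ) * (C3 / s * N1 * N2) := by
          apply mul_le_mul_of_nonneg_left _ (by positivity)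
          apply XiBnd_zeta_norm _ (h7 v w)
          · rw [norm_zero]; positivity
          · rw [norm_zero]; positivity
      _ ≤ C1 * c1 * 1 * (C3 / s * N1 * N2) := by
          apply mul_le_mul_of_nonneg_right _ (by positivity)
          exact mul_le_mul_of_nonneg_left hA1 (by positivity)
      _ = _ := by ring
  have p1 : 0 ≤ μ ^ (-(3 / 4) : ℝ) * ‖v‖ * ‖w‖ := by positivity
  have p2 : 0 ≤ 1 / s * N1 * N2 := by positivity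
  calc _ ≤ _ := (abs_add_le _ _).trans (add_le_add e1 e2)
    _ ≤ C1 * ((1 + C2) ^ 2 + C3) * c1 * (μ ^ (-(3 / 4) : ℝ) * ‖v‖ * ‖w‖) +
        C1 * ((1 + C2) ^ 2 + C3) * c1 * (1 / s * N1 * N2) := by
        apply add_le_add
        · have : C1 * (1 + C2) ^ 2 * c1 * μ ^ (-(3 / 4) : ℝ) * ‖v‖ * ‖w‖ =
              C1 * (1 + C2) ^ 2 * c1 * (μ ^ (-(3 / 4) : ℝ) * ‖v‖ * ‖w‖) := by ring
          rw [this]
          apply mul_le_mul_of_nonneg_right _ p1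
          apply mul_le_mul_of_nonneg_right _ hc1.le
          apply mul_le_mul_of_nonneg_left _ hC1.le
          linarith
        · apply mul_le_mul_of_nonneg_right _ p2
          apply mul_le_mul_of_nonneg_right _ hc1.le
          apply mul_le_mul_of_nonneg_left _ hC1.le
          nlinarith
    _ = _ := by ring

end Pool.Agent.Wtw
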