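import Mathlib
import Pool.Agent.Wtw.XiBnd
import Pool.Agent.Wtw.Geo

/-!
# XiOK: choice of `c1`

`|DXF| <= C c1` on the convex set `{s > 0}`, so `XF` is `C c1`-Lipschitz there. `Xi <= C c1 min(1,D)^(5/4)
<= C c1 D <= C' c1 (dlt z + s)` (`dv_le_dlt`). Lower bound by `dlt_le_dv`:
`min(1,D) >= min(1, dlt z / C) >= min(1,dlt z) / max(1,C)`. `base`: `mu_good` with `C c1 <= 1/2`.
Choose `c1` small at the end.
-/

namespace Pool.Agent.Wtw

open MeasureTheory Set Filter Topology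
open scoped ENNReal

/-- what is needed from `c1` -/
structure XiOK (c1 A : ℝ) : Prop where
  one_le : 1 ≤ A
  pos : 0 < c1
  le : c1 ≤ 1 / 2
  Xi_pos : ∀ z s, 0 < s → 0 < Xi c1 z s
  Xi_le : ∀ z s, 0 < s → Xi c1 z s ≤ c1
  lip : ∀ z s z' s', 0 < s → 0 < s' → |Xi c1 z s - Xi c1 z' s'| ≤ max ‖z - z'‖ |s - s'| / 64
  small : ∀ z s, 0 < s → Xi c1 z s ≤ (dlt z + s) / 64
  up : ∀ z s, 0 < s → Xi c1 z s ≤ A * (dlt z + s) ^ (5 / 4 : ℝ)
  low : ∀ z s, 0 < s → (min 1 (dlt z)) ^ (5 / 4 : ℝ) ≤ A * Xi c1 z s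
  dvle : ∀ z s, 0 < s → dv z (mu2 z s) s ≤ A * (dlt z + s)
  ledv : ∀ z s, 0 < s → dlt z ≤ A * dv z (mu2 z s) s
  base : ∀ (w : W4) s, 0 < s → s ≤ c1 → (∃ e, ∀ i, i ≠ e → Metric.infDist (w i) CC ≤ s) →
    |mu w s| ≤ 1 / 2
  dXi : ∀ z s v, 0 < s → |fderiv ℝ (XF c1) (z, s) v| ≤ ‖v‖ / 64

theorem XiOK_dv_nonneg (z : Z8) (m : V2) (s : ℝ) : 0 ≤ dv z m s :=
  Real.iInf_nonneg fun _ => Real.sqrt_nonneg _

theorem XiOK_dlt_nonneg (z : Z8) : 0 ≤ dlt z := dlt_nonneg z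

theorem xi_ok : ∃ c1 A : ℝ, XiOK c1 A := by
  obtain ⟨C1, hC1, h1⟩ := XF_bd
  obtain ⟨C2, hC2, h2⟩ := sigma_bd
  obtain ⟨C3, hC3, h3⟩ := dlt_le_dv
  obtain ⟨C4, hC4, h4⟩ := dv_le_dlt
  obtain ⟨C5, hC5, h5⟩ := mu_good
  -- the choice of `c1`
  obtain ⟨c1, hc0, hc1, hc2, hc3, hc4⟩ : ∃ c1 : ℝ, 0 < c1 ∧ c1 ≤ 1 / 2 ∧ C1 * c1 ≤ 1 / 64 ∧
      C2 * C4 * c1 ≤ 1 / 64 ∧ C5 * c1 ≤ 1 / 2 := by
    refine ⟨1 / (64 * (1 + C1 + C2 * C4 + C5)), by positivity, ?_, ?_, ?_, ?_⟩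
    · rw [div_le_div_iff₀ (by positivity) (by norm_num)]
      nlinarith [mul_pos hC2 hC4]
    · rw [mul_one_div, div_le_div_iff₀ (by positivity) (by norm_num)]
      nlinarith [mul_pos hC2 hC4]
    · rw [mul_one_div, div_le_div_iff₀ (by positivity) (by norm_num)]
      nlinarith [mul_pos hC2 hC4]
    · rw [mul_one_div, div_le_div_iff₀ (by positivity) (by norm_num)]
      nlinarith [mul_pos hC2 hC4]
  set A : ℝ := 1 + C2 * c1 * C4 ^ (5 / 4 : ℝ) + (max 1 C3) ^ (5 / 4 : ℝ) * (C2 / c1) + C3 + C4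
    with hA
  have hpa : 0 ≤ C2 * c1 * C4 ^ (5 / 4 : ℝ) := by positivity
  have hpb : 0 ≤ (max 1 C3) ^ (5 / 4 : ℝ) * (C2 / c1) := by positivity
  have hd0 : ∀ z s, 0 ≤ dv z (mu2 z s) s := fun z s => XiOK_dv_nonneg _ _ _
  have hm0 : ∀ z s, 0 ≤ min 1 (dv z (mu2 z s) s) := fun z s => le_min zero_le_one (hd0 z s)
  have hm1 : ∀ z s, min 1 (dv z (mu2 z s) s) ≤ 1 := fun z s => min_le_left _ _
  have hdX : ∀ z s v, 0 < s → |fderiv ℝ (XF c1) (z, s) v| ≤ ‖v‖ / 64 := by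
    intro z s v hs
    have e1 := (h1 c1 hc0 z s hs).1 v
    have e2 : (min 1 (dv z (mu2 z s) s)) ^ (1 / 4 : ℝ) ≤ 1 :=
      Real.rpow_le_one (hm0 z s) (hm1 z s) (by norm_num)
    have e3 : C1 * c1 * (min 1 (dv z (mu2 z s) s)) ^ (1 / 4 : ℝ) * ‖v‖ ≤ C1 * c1 * 1 * ‖v‖ := by
      apply mul_le_mul_of_nonneg_right _ (norm_nonneg _)
      exact mul_le_mul_of_nonneg_left e2 (by positivity)
    have e4 : C1 * c1 * 1 * ‖v‖ ≤ 1 / 64 * ‖v‖ := by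
      rw [mul_one]
      exact mul_le_mul_of_nonneg_right hc2 (norm_nonneg _)
    linarith
  refine ⟨c1, A, ⟨?_, hc0, hc1, ?_, ?_, ?_, ?_, ?_, ?_, ?_, ?_, ?_, hdX⟩⟩
  · linarith
  · intro z s hs
    exact (sigma_pos c1 hc0 z (mu2 z s) s hs).1
  · intro z s hs
    exact (sigma_pos c1 hc0 z (mu2 z s) s hs).2
  · intro z s z' s' hs hs'
    have hconv : Convex ℝ {t : Z8 × ℝ | 0 < t.2} := by
      have : {t : Z8 × ℝ | 0 < t.2} = (LinearMap.snd ℝ Z8 ℝ) ⁻¹' (Ioi 0) := rfl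
      rw [this]
      exact (convex_Ioi 0).linear_preimage _
    have e1 := hconv.norm_image_sub_le_of_norm_fderiv_le (𝕜 := ℝ) (f := XF c1) (C := 1 / 64)
      (x := (z', s')) (y := (z, s))
      (fun t ht => (XF_smooth c1 t.1 t.2 ht).differentiableAt (by norm_num))
      (fun t ht => by
        apply ContinuousLinearMap.opNorm_le_bound _ (by norm_num)
        intro v
        have := hdX t.1 t.2 v ht
        rw [Real.norm_eq_abs]
        linarith) hs' hs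
    rw [Real.norm_eq_abs] at e1
    have e2 : ‖((z, s) : Z8 × ℝ) - (z', s')‖ = max ‖z - z'‖ |s - s'| := by
      rw [Prod.mk_sub_mk, Prod.norm_mk, Real.norm_eq_abs]
    rw [e2] at e1
    have e3 : XF c1 (z, s) - XF c1 (z', s') = Xi c1 z s - Xi c1 z' s' := rfl
    rw [e3] at e1
    linarith
  · intro z s hs
    have e1 := (h2 c1 hc0 z (mu2 z s) s hs).1
    have e2 : (min 1 (dv z (mu2 z s) s)) ^ (5 / 4 : ℝ) ≤ min 1 (dv z (mu2 z s) s) := by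
      have := Real.rpow_le_rpow_of_exponent_ge_of_imp (hm0 z s) (hm1 z s)
        (show (1 : ℝ) ≤ 5 / 4 by norm_num) (by norm_num)
      rwa [Real.rpow_one] at this
    have e3 : min 1 (dv z (mu2 z s) s) ≤ C4 * (dlt z + s) :=
      (min_le_right _ _).trans (h4 z s hs)
    have e4 : 0 ≤ dlt z + s := add_nonneg (dlt_nonneg z) hs.le
    calc Xi c1 z s ≤ C2 * c1 * (min 1 (dv z (mu2 z s) s)) ^ (5 / 4 : ℝ) := e1
      _ ≤ C2 * c1 * (C4 * (dlt z + s)) := by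
          apply mul_le_mul_of_nonneg_left (e2.trans e3) (by positivity)
      _ = (C2 * C4 * c1) * (dlt z + s) := by ring
      _ ≤ 1 / 64 * (dlt z + s) := mul_le_mul_of_nonneg_right hc3 e4
      _ = (dlt z + s) / 64 := by ring
  · intro z s hs
    have e1 := (h2 c1 hc0 z (mu2 z s) s hs).1
    have e3 : min 1 (dv z (mu2 z s) s) ≤ C4 * (dlt z + s) :=
      (min_le_right _ _).trans (h4 z s hs)
    have e4 : 0 ≤ dlt z + s := add_nonneg (dlt_nonneg z) hs.le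
    have e2 : (min 1 (dv z (mu2 z s) s)) ^ (5 / 4 : ℝ) ≤
        C4 ^ (5 / 4 : ℝ) * (dlt z + s) ^ (5 / 4 : ℝ) := by
      rw [← Real.mul_rpow hC4.le e4]
      exact Real.rpow_le_rpow (hm0 z s) e3 (by norm_num)
    have e5 : 0 ≤ (dlt z + s) ^ (5 / 4 : ℝ) := Real.rpow_nonneg e4 _
    calc Xi c1 z s ≤ C2 * c1 * (min 1 (dv z (mu2 z s) s)) ^ (5 / 4 : ℝ) := e1
      _ ≤ C2 * c1 * (C4 ^ (5 / 4 : ℝ) * (dlt z + s) ^ (5 / 4 : ℝ)) :=
          mul_le_mul_of_nonneg_left e2 (by positivity)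
      _ = (C2 * c1 * C4 ^ (5 / 4 : ℝ)) * (dlt z + s) ^ (5 / 4 : ℝ) := by ring
      _ ≤ A * (dlt z + s) ^ (5 / 4 : ℝ) := by
          apply mul_le_mul_of_nonneg_right _ e5
          linarith
  · intro z s hs
    have e1 := (h2 c1 hc0 z (mu2 z s) s hs).2.1
    have e3 := h3 z s hs
    have e6 : 0 ≤ min 1 (dlt z) := le_min zero_le_one (dlt_nonneg z)
    have e7 : (1 : ℝ) ≤ max 1 C3 := le_max_left _ _
    have e8 : C3 ≤ max 1 C3 := le_max_right _ _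
    have e2 : min 1 (dlt z) ≤ max 1 C3 * min 1 (dv z (mu2 z s) s) := by
      rcases le_total 1 (dv z (mu2 z s) s) with h | h
      · rw [min_eq_left h, mul_one]
        exact (min_le_left _ _).trans e7
      · rw [min_eq_right h]
        exact (min_le_right _ _).trans (e3.trans (mul_le_mul_of_nonneg_right e8 (hd0 z s)))
    have e4 : (min 1 (dlt z)) ^ (5 / 4 : ℝ) ≤
        (max 1 C3) ^ (5 / 4 : ℝ) * (min 1 (dv z (mu2 z s) s)) ^ (5 / 4 : ℝ) := by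
      rw [← Real.mul_rpow (by positivity) (hm0 z s)]
      exact Real.rpow_le_rpow e6 e2 (by norm_num)
    have e5 : (min 1 (dv z (mu2 z s) s)) ^ (5 / 4 : ℝ) ≤ C2 / c1 * Xi c1 z s := by
      rw [div_mul_eq_mul_div, le_div_iff₀ hc0]
      have : sigma c1 z (mu2 z s) s = Xi c1 z s := rfl
      rw [this] at e1
      linarith
    have e9 : 0 < Xi c1 z s := (sigma_pos c1 hc0 z (mu2 z s) s hs).1
    calc (min 1 (dlt z)) ^ (5 / 4 : ℝ)
        ≤ (max 1 C3) ^ (5 / 4 : ℝ) * (min 1 (dv z (mu2 z s) s)) ^ (5 / 4 : ℝ) := e4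
      _ ≤ (max 1 C3) ^ (5 / 4 : ℝ) * (C2 / c1 * Xi c1 z s) :=
          mul_le_mul_of_nonneg_left e5 (by positivity)
      _ = ((max 1 C3) ^ (5 / 4 : ℝ) * (C2 / c1)) * Xi c1 z s := by ring
      _ ≤ A * Xi c1 z s := by
          apply mul_le_mul_of_nonneg_right _ e9.le
          linarith
  · intro z s hs
    have e4 : 0 ≤ dlt z + s := add_nonneg (dlt_nonneg z) hs.le
    refine (h4 z s hs).trans (mul_le_mul_of_nonneg_right ?_ e4)
    linarith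
  · intro z s hs
    refine (h3 z s hs).trans (mul_le_mul_of_nonneg_right ?_ (hd0 z s))
    linarith
  · intro w s hs hsc hw
    have e1 := h5 w s hs hw
    have e2 : C5 * s ≤ C5 * c1 := mul_le_mul_of_nonneg_left hsc hC5.le
    linarith

end Pool.Agent.Wtw
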