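import Mathlib
import Pool.Agent.Wtw.XiOK

/-!
# SzEx: the scale `sz c1 z`

* existence for `dlt z > 0`: `g s = Xi c1 z s - s` is continuous on `(0,1]` (`lip`), `g 1 < 0`
  (`Xi <= c1 <= 1/2`), and `g s > 0` for small `s` (`low`): intermediate value theorem.
* uniqueness: `lip` with `z = z'`. A solution satisfies `s = Xi <= c1 <= 1/2`.
* for `dlt z = 0` no solution: `s = Xi <= (0 + s)/64`.
* `small`: `s = Xi <= (dlt z + s)/64` gives `s <= dlt z / 63`.
* Lipschitz: both positive: `|s - s'| <= max |z - z'| |s - s'| / 64`; if `s' = 0`: `dlt z' = 0`,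
  `s <= dlt z/63 <= |z - z'|/63` (`dlt_lip`).
* `up`: `s = Xi <= A (dlt + s)^(5/4) <= A (2 dlt)^(5/4)`; `low`.
-/

namespace Pool.Agent.Wtw

open MeasureTheory Set Filter Topology
open scoped ENNReal

variable {c1 A : ℝ}

private theorem SzEx_lip1 (h : XiOK c1 A) (z : Z8) {s s' : ℝ} (hs : 0 < s) (hs' : 0 < s') :
    |Xi c1 z s - Xi c1 z s'| ≤ |s - s'| / 64 := by
  have := h.lip z s z s' hs hs'
  simpa using this

private theorem SzEx_uniq (h : XiOK c1 A) (z : Z8) {s s' : ℝ} (hs : 0 < s) (hs' : 0 < s')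
    (hx : Xi c1 z s = s) (hx' : Xi c1 z s' = s') : s = s' := by
  have := SzEx_lip1 h z hs hs'
  rw [hx, hx'] at this
  have h0 : |s - s'| ≤ 0 := by
    have := abs_nonneg (s - s')
    linarith
  have := abs_nonpos_iff.mp h0
  linarith

private theorem SzEx_exists (h : XiOK c1 A) (z : Z8) (hz : 0 < dlt z) :
    ∃ s, 0 < s ∧ s ≤ 1 ∧ Xi c1 z s = s := by
  have hA : 0 < A := by linarith [h.one_le]
  set κ : ℝ := (min 1 (dlt z)) ^ (5 / 4 : ℝ) / A with hκ
  have hκ0 : 0 < κ := by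
    apply div_pos _ hA
    exact Real.rpow_pos_of_pos (lt_min one_pos hz) _
  set ε : ℝ := min κ (1 / 2) with hε
  have hε0 : 0 < ε := lt_min hκ0 (by norm_num)
  have hε1 : ε ≤ 1 / 2 := min_le_right _ _
  have hcont : ContinuousOn (fun s => s - Xi c1 z s) (Icc ε 1) := by
    apply ContinuousOn.sub continuousOn_id
    rw [Metric.continuousOn_iff]
    intro b hb e he
    refine ⟨e, he, fun a ha hab => ?_⟩
    have h1 := SzEx_lip1 h z (lt_of_lt_of_le hε0 ha.1) (lt_of_lt_of_le hε0 hb.1)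
    rw [Real.dist_eq] at hab ⊢
    have := abs_nonneg (a - b)
    linarith
  have hlow : Xi c1 z ε ≥ κ := by
    have := h.low z ε hε0
    rw [ge_iff_le, hκ, div_le_iff₀ hA]
    linarith
  have hup := h.Xi_le z 1 one_pos
  have hc := h.le
  have hmem : (0 : ℝ) ∈ Icc (ε - Xi c1 z ε) (1 - Xi c1 z 1) := by
    constructor
    · have : ε ≤ κ := min_le_left _ _
      linarith
    · linarith
  obtain ⟨s, hs, hs0⟩ := intermediate_value_Icc (by linarith : ε ≤ 1) hcont hmem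
  refine ⟨s, lt_of_lt_of_le hε0 hs.1, hs.2, ?_⟩
  simp only at hs0
  linarith

theorem sz_spec (h : XiOK c1 A) (z : Z8) (hz : 0 < dlt z) :
    0 < sz c1 z ∧ sz c1 z ≤ c1 ∧ Xi c1 z (sz c1 z) = sz c1 z := by
  have hex := SzEx_exists h z hz
  have hsz : sz c1 z = hex.choose := by
    unfold sz; rw [dif_pos hex]
  obtain ⟨h1, h2, h3⟩ := hex.choose_spec
  rw [← hsz] at h1 h2 h3
  refine ⟨h1, ?_, h3⟩
  have := h.Xi_le z _ h1
  rw [h3] at this
  exact this

theorem sz_uniq (h : XiOK c1 A) (z : Z8) (s : ℝ) (hs : 0 < s) (hx : Xi c1 z s = s) :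
    sz c1 z = s := by
  have hs1 : s ≤ 1 := by
    have := h.Xi_le z s hs
    have := h.le
    linarith
  have hex : ∃ s, 0 < s ∧ s ≤ 1 ∧ Xi c1 z s = s := ⟨s, hs, hs1, hx⟩
  have hsz : sz c1 z = hex.choose := by
    unfold sz; rw [dif_pos hex]
  obtain ⟨h1, h2, h3⟩ := hex.choose_spec
  rw [← hsz] at h1 h2 h3
  exact SzEx_uniq h z h1 hs h3 hx

theorem sz_zero (h : XiOK c1 A) (z : Z8) (hz : dlt z = 0) : sz c1 z = 0 := by
  unfold sz
  apply dif_neg
  rintro ⟨s, h0, h1, h2⟩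
  have := h.small z s h0
  rw [h2, hz] at this
  linarith

private theorem SzEx_cases (h : XiOK c1 A) (z : Z8) :
    (dlt z = 0 ∧ sz c1 z = 0) ∨ (0 < dlt z ∧ 0 < sz c1 z) := by
  rcases (dlt_nonneg z).eq_or_lt with h0 | h0
  · exact Or.inl ⟨h0.symm, sz_zero h z h0.symm⟩
  · exact Or.inr ⟨h0, (sz_spec h z h0).1⟩

theorem sz_zero_iff (h : XiOK c1 A) (z : Z8) : sz c1 z = 0 ↔ ∀ k, z k ∈ CC := by
  rw [← dlt_zero_iff]
  rcases SzEx_cases h z with ⟨h1, h2⟩ | ⟨h1, h2⟩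
  · simp [h1, h2]
  · constructor
    · intro h3; linarith
    · intro h3; linarith

theorem sz_nonneg (h : XiOK c1 A) (z : Z8) : 0 ≤ sz c1 z := by
  rcases SzEx_cases h z with ⟨_, h2⟩ | ⟨_, h2⟩
  · exact h2.ge
  · exact h2.le

theorem sz_le (h : XiOK c1 A) (z : Z8) : sz c1 z ≤ 1 / 2 ∧ sz c1 z ≤ c1 := by
  have hc := h.le
  have hp := h.pos
  rcases SzEx_cases h z with ⟨_, h2⟩ | ⟨h1, _⟩
  · rw [h2]; constructor <;> linarith
  · have := (sz_spec h z h1).2.1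
    constructor <;> linarith

private theorem SzEx_small (h : XiOK c1 A) (z : Z8) : sz c1 z ≤ dlt z / 63 := by
  rcases SzEx_cases h z with ⟨h1, h2⟩ | ⟨h1, h2⟩
  · rw [h1, h2]; norm_num
  · have := h.small z _ h2
    rw [(sz_spec h z h1).2.2] at this
    linarith

private theorem SzEx_lipz (h : XiOK c1 A) (z z' : Z8) (h1 : dlt z = 0) :
    |sz c1 z' - sz c1 z| ≤ ‖z' - z‖ / 32 := by
  rw [sz_zero h z h1, sub_zero, abs_of_nonneg (sz_nonneg h z')]
  have h3 := SzEx_small h z'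
  have h4 := dlt_lip z' z
  rw [h1, sub_zero, abs_of_nonneg (dlt_nonneg z')] at h4
  have := norm_nonneg (z' - z)
  linarith

theorem sz_lip (h : XiOK c1 A) (z z' : Z8) : |sz c1 z - sz c1 z'| ≤ ‖z - z'‖ / 32 := by
  rcases SzEx_cases h z with ⟨h1, h2⟩ | ⟨h1, h2⟩
  · have := SzEx_lipz h z z' h1
    rw [abs_sub_comm, norm_sub_rev]
    exact this
  · rcases SzEx_cases h z' with ⟨h1', h2'⟩ | ⟨h1', h2'⟩
    · exact SzEx_lipz h z' z h1'
    · have h3 := h.lip z _ z' _ h2 h2'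
      rw [(sz_spec h z h1).2.2, (sz_spec h z' h1').2.2] at h3
      have hn := norm_nonneg (z - z')
      have ha := abs_nonneg (sz c1 z - sz c1 z')
      rcases max_choice ‖z - z'‖ |sz c1 z - sz c1 z'| with hm | hm
      · rw [hm] at h3; linarith
      · rw [hm] at h3; linarith

theorem sz_small (h : XiOK c1 A) (z : Z8) : sz c1 z ≤ dlt z / 32 := by
  have h1 := SzEx_small h z
  have h2 := dlt_nonneg z
  linarith

theorem sz_up (h : XiOK c1 A) (z : Z8) : sz c1 z ≤ 3 * A * dlt z ^ (5 / 4 : ℝ) := by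
  have hA : 0 < A := by linarith [h.one_le]
  rcases SzEx_cases h z with ⟨h1, h2⟩ | ⟨h1, h2⟩
  · rw [h2]
    have : 0 ≤ dlt z ^ (5 / 4 : ℝ) := Real.rpow_nonneg (dlt_nonneg z) _
    positivity
  · have h3 := h.up z _ h2
    rw [(sz_spec h z h1).2.2] at h3
    have h4 := sz_small h z
    have h5 : (dlt z + sz c1 z) ^ (5 / 4 : ℝ) ≤ (2 * dlt z) ^ (5 / 4 : ℝ) := by
      apply Real.rpow_le_rpow (by linarith) (by linarith) (by norm_num)
    rw [Real.mul_rpow (by norm_num) h1.le] at h5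
    have h6 : (2 : ℝ) ^ (5 / 4 : ℝ) ≤ 3 := by
      have h7 : ((2 : ℝ) ^ (5 / 4 : ℝ)) ^ (4 : ℕ) = 32 := by
        rw [← Real.rpow_natCast, ← Real.rpow_mul (by norm_num)]
        norm_num
      by_contra hc
      push Not at hc
      have : (3 : ℝ) ^ 4 < ((2 : ℝ) ^ (5 / 4 : ℝ)) ^ (4 : ℕ) :=
        pow_lt_pow_left₀ hc (by norm_num) (by norm_num)
      rw [h7] at this
      norm_num at this
    have h8 : 0 ≤ dlt z ^ (5 / 4 : ℝ) := Real.rpow_nonneg h1.le _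
    calc sz c1 z ≤ A * (dlt z + sz c1 z) ^ (5 / 4 : ℝ) := h3
      _ ≤ A * (2 ^ (5 / 4 : ℝ) * dlt z ^ (5 / 4 : ℝ)) := by gcongr
      _ ≤ A * (3 * dlt z ^ (5 / 4 : ℝ)) := by gcongr
      _ = 3 * A * dlt z ^ (5 / 4 : ℝ) := by ring

theorem sz_low (h : XiOK c1 A) (z : Z8) (hz : dlt z ≤ 1) : dlt z ^ (5 / 4 : ℝ) ≤ A * sz c1 z := by
  rcases SzEx_cases h z with ⟨h1, h2⟩ | ⟨h1, h2⟩
  · rw [h1, h2, Real.zero_rpow (by norm_num)]; simp
  · have h3 := h.low z _ h2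
    rw [(sz_spec h z h1).2.2, min_eq_right hz] at h3
    exact h3

end Pool.Agent.Wtw
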