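import Mathlib
import Pool.Agent.Wtw.SzEx
import Pool.Agent.Wtw.Chain2

/-!
# SzSm: smoothness of the scale and of the centre, derivative formulas

Let `s0 = sz c1 z0 > 0`. The map `Ψ (z,s) = (z, s - XF c1 (z,s))` is `C^2` near `(z0,s0)` with invertible
derivative (`∂_s XF <= 1/64`), so it has a `C^2` local inverse (`ContDiffAt.toOpenPartialHomeomorph`,
`ContDiffAt.to_localInverse`); for `z` near `z0` the point `(z, sz c1 z)` is near `(z0,s0)` (`sz_lip`) and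
`Ψ (z, sz c1 z) = (z, 0)`, so `sz c1 z` is the second component of the local inverse at `(z,0)`.
Then `sz = XF ∘ (id, sz)` near `z0`, `mz = MM2 ∘ (id, sz)` near `z0` (there `sz > 0`): differentiate once and
twice (`fderiv2_comp`, `fderiv2_prod`).
-/

namespace Pool.Agent.Wtw

open MeasureTheory Set Filter Topology
open scoped ENNReal

variable {c1 A : ℝ}

theorem SzSm_pos (h : XiOK c1 A) (z : Z8) (hz : sz c1 z ≠ 0) : 0 < sz c1 z :=
  lt_of_le_of_ne (sz_nonneg h z) (Ne.symm hz)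

theorem SzSm_eq (h : XiOK c1 A) (z : Z8) (hz : sz c1 z ≠ 0) : XF c1 (z, sz c1 z) = sz c1 z := by
  have h1 : dlt z ≠ 0 := fun h0 => hz (sz_zero h z h0)
  have h2 : 0 < dlt z := lt_of_le_of_ne (dlt_nonneg z) (Ne.symm h1)
  exact (sz_spec h z h2).2.2

theorem SzSm_cont (h : XiOK c1 A) : Continuous (sz c1) := by
  have : LipschitzWith 1 (sz c1) := by
    refine LipschitzWith.of_dist_le_mul fun z z' => ?_
    rw [Real.dist_eq, dist_eq_norm]
    refine (sz_lip h z z').trans ?_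
    have := norm_nonneg (z - z')
    simp only [NNReal.coe_one, one_mul]
    linarith
  exact this.continuous

theorem SzSm_ev (h : XiOK c1 A) (z : Z8) (hz : sz c1 z ≠ 0) :
    ∀ᶠ y in 𝓝 z, sz c1 y ≠ 0 :=
  (SzSm_cont h).continuousAt.eventually_ne hz

theorem SzSm_evEq (h : XiOK c1 A) (z : Z8) (hz : sz c1 z ≠ 0) :
    sz c1 =ᶠ[𝓝 z] fun y => XF c1 (y, sz c1 y) := by
  filter_upwards [SzSm_ev h z hz] with y hy
  exact (SzSm_eq h y hy).symm

theorem SzSm_evEqM (h : XiOK c1 A) (z : Z8) (hz : sz c1 z ≠ 0) :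
    mz c1 =ᶠ[𝓝 z] fun y => MM2 (y, sz c1 y) := by
  filter_upwards [SzSm_ev h z hz] with y hy
  unfold mz MM2
  rw [if_neg hy]

theorem sz_smooth (h : XiOK c1 A) (z : Z8) (hz : sz c1 z ≠ 0) : ContDiffAt ℝ 2 (sz c1) z := by
  have hpos := SzSm_pos h z hz
  have hX : ContDiffAt ℝ 2 (XF c1) (z, sz c1 z) := XF_smooth c1 z _ hpos
  set L := fderiv ℝ (XF c1) (z, sz c1 z) with hL
  set a : Z8 × ℝ := (z, sz c1 z) with ha
  -- the map
  let Ψ : Z8 × ℝ → Z8 × ℝ := fun t => (t.1, t.2 - XF c1 t)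
  have hΨ : ContDiffAt ℝ 2 Ψ a := contDiffAt_fst.prodMk (contDiffAt_snd.sub hX)
  let M : (Z8 × ℝ) →L[ℝ] (Z8 × ℝ) :=
    (ContinuousLinearMap.fst ℝ Z8 ℝ).prod (ContinuousLinearMap.snd ℝ Z8 ℝ - L)
  have hM : HasFDerivAt Ψ M a := by
    refine HasFDerivAt.prodMk hasFDerivAt_fst ?_
    exact hasFDerivAt_snd.sub (hX.differentiableAt (by norm_num)).hasFDerivAt
  have hinj : Function.Injective M := by
    rw [injective_iff_map_eq_zero]
    intro v hv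
    have h1 : v.1 = 0 := congrArg Prod.fst hv
    have h2 : v.2 - L v = 0 := congrArg Prod.snd hv
    have h3 : |L v| ≤ ‖v‖ / 64 := h.dXi z (sz c1 z) v hpos
    have h4 : ‖v‖ = |v.2| := by
      rw [Prod.norm_def, h1, norm_zero, Real.norm_eq_abs]
      exact max_eq_right (abs_nonneg _)
    have h5 : v.2 = L v := by linarith
    have h6 : |v.2| ≤ |v.2| / 64 := by
      have h7 := h3
      rw [h4, ← h5] at h7
      exact h7
    have h8 : |v.2| = 0 := le_antisymm (by linarith [abs_nonneg v.2]) (abs_nonneg _)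
    exact Prod.ext h1 (abs_eq_zero.1 h8)
  have hsurj : Function.Surjective M := by
    have := (LinearMap.injective_iff_surjective (f := (M : (Z8 × ℝ) →ₗ[ℝ] (Z8 × ℝ)))).1 hinj
    exact this
  let e : (Z8 × ℝ) ≃L[ℝ] (Z8 × ℝ) := ContinuousLinearEquiv.ofBijective M
    (LinearMap.ker_eq_bot.2 hinj) (LinearMap.range_eq_top.2 hsurj)
  have he : ((e : (Z8 × ℝ) →L[ℝ] (Z8 × ℝ))) = M := ContinuousLinearEquiv.coe_ofBijective _ _ _
  have hM' : HasFDerivAt Ψ (e : (Z8 × ℝ) →L[ℝ] (Z8 × ℝ)) a := by rw [he]; exact hM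
  have hstr : HasStrictFDerivAt Ψ (e : (Z8 × ℝ) →L[ℝ] (Z8 × ℝ)) a :=
    hΨ.hasStrictFDerivAt' hM' (by norm_num)
  have hinv : ContDiffAt ℝ 2 (hstr.localInverse Ψ e a) (Ψ a) :=
    hΨ.to_localInverse hM' (by norm_num)
  have hΨa : Ψ a = (z, 0) := by
    change (z, sz c1 z - XF c1 (z, sz c1 z)) = (z, 0)
    rw [SzSm_eq h z hz, sub_self]
  rw [hΨa] at hinv
  have hcurve : ContDiffAt ℝ 2 (fun y : Z8 => (y, (0 : ℝ))) z :=
    contDiffAt_id.prodMk contDiffAt_const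
  have hcomp : ContDiffAt ℝ 2 (fun y : Z8 => (hstr.localInverse Ψ e a (y, 0)).2) z :=
    contDiffAt_snd.comp z (hinv.comp z hcurve)
  refine hcomp.congr_of_eventuallyEq ?_
  have hev := hstr.eventually_left_inverse
  have htend : Tendsto (fun y : Z8 => (y, sz c1 y)) (𝓝 z) (𝓝 a) :=
    (continuous_id.prodMk (SzSm_cont h)).tendsto z
  filter_upwards [htend.eventually hev, SzSm_ev h z hz] with y hy hy0
  have : Ψ (y, sz c1 y) = (y, 0) := by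
    change (y, sz c1 y - XF c1 (y, sz c1 y)) = (y, 0)
    rw [SzSm_eq h y hy0, sub_self]
  rw [this] at hy
  rw [hy]

theorem SzSm_pair (h : XiOK c1 A) (z : Z8) (hz : sz c1 z ≠ 0) :
    ContDiffAt ℝ 2 (fun y => (y, sz c1 y)) z :=
  contDiffAt_id.prodMk (sz_smooth h z hz)

theorem SzSm_pair_d (h : XiOK c1 A) (z : Z8) (hz : sz c1 z ≠ 0) (ξ : Z8) :
    fderiv ℝ (fun y => (y, sz c1 y)) z ξ = (ξ, fderiv ℝ (sz c1) z ξ) := by
  have h1 : HasFDerivAt (fun y => (y, sz c1 y))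
      ((ContinuousLinearMap.id ℝ Z8).prod (fderiv ℝ (sz c1) z)) z :=
    (hasFDerivAt_id z).prodMk ((sz_smooth h z hz).differentiableAt (by norm_num)).hasFDerivAt
  rw [h1.fderiv]
  rfl

theorem SzSm_pair_dd (h : XiOK c1 A) (z : Z8) (hz : sz c1 z ≠ 0) (ξ η : Z8) :
    fderiv ℝ (fderiv ℝ (fun y => (y, sz c1 y))) z ξ η =
      (0, fderiv ℝ (fderiv ℝ (sz c1)) z ξ η) := by
  have h1 := fderiv2_prod (f := fun y : Z8 => y) (g := sz c1) contDiffAt_id (sz_smooth h z hz) ξ η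
  rw [h1]
  have h2 := fderiv2_lin (ContinuousLinearMap.id ℝ Z8) z
  have h3 : fderiv ℝ (fderiv ℝ fun y : Z8 => y) z = 0 := h2
  rw [h3]
  rfl

theorem mz_smooth (h : XiOK c1 A) (z : Z8) (hz : sz c1 z ≠ 0) : ContDiffAt ℝ 2 (mz c1) z := by
  obtain ⟨C, -, hC⟩ := MM2_bd
  refine ContDiffAt.congr_of_eventuallyEq ?_ (SzSm_evEqM h z hz)
  exact ContDiffAt.comp z (hC z (sz c1 z) (SzSm_pos h z hz)).1 (SzSm_pair h z hz)

theorem sz_d (h : XiOK c1 A) (z : Z8) (hz : sz c1 z ≠ 0) (ξ : Z8) :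
    fderiv ℝ (sz c1) z ξ = fderiv ℝ (XF c1) (z, sz c1 z) (ξ, fderiv ℝ (sz c1) z ξ) := by
  have h1 : fderiv ℝ (sz c1) z = fderiv ℝ (fun y => XF c1 (y, sz c1 y)) z :=
    (SzSm_evEq h z hz).fderiv_eq
  have h2 : fderiv ℝ (fun y => XF c1 (y, sz c1 y)) z =
      (fderiv ℝ (XF c1) (z, sz c1 z)).comp (fderiv ℝ (fun y => (y, sz c1 y)) z) :=
    fderiv_comp (g := XF c1) (f := fun y => (y, sz c1 y)) z
      ((XF_smooth c1 z _ (SzSm_pos h z hz)).differentiableAt (by norm_num))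
      ((SzSm_pair h z hz).differentiableAt (by norm_num))
  calc fderiv ℝ (sz c1) z ξ = fderiv ℝ (fun y => XF c1 (y, sz c1 y)) z ξ := by rw [← h1]
    _ = fderiv ℝ (XF c1) (z, sz c1 z) (fderiv ℝ (fun y => (y, sz c1 y)) z ξ) := by rw [h2]; rfl
    _ = _ := by rw [SzSm_pair_d h z hz]

theorem sz_dd (h : XiOK c1 A) (z : Z8) (hz : sz c1 z ≠ 0) (ξ η : Z8) :
    fderiv ℝ (fderiv ℝ (sz c1)) z ξ η =
      fderiv ℝ (fderiv ℝ (XF c1)) (z, sz c1 z) (ξ, fderiv ℝ (sz c1) z ξ)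
        (η, fderiv ℝ (sz c1) z η) +
      fderiv ℝ (XF c1) (z, sz c1 z) (0, fderiv ℝ (fderiv ℝ (sz c1)) z ξ η) := by
  have h1 : fderiv ℝ (fderiv ℝ (sz c1)) z =
      fderiv ℝ (fderiv ℝ (fun y => XF c1 (y, sz c1 y))) z := fderiv2_congr (SzSm_evEq h z hz)
  have h2 := fderiv2_comp (f := XF c1) (h := fun y => (y, sz c1 y)) (x := z)
    (XF_smooth c1 z _ (SzSm_pos h z hz)) (SzSm_pair h z hz) ξ η
  rw [← h1, SzSm_pair_d h z hz, SzSm_pair_d h z hz, SzSm_pair_dd h z hz] at h2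
  exact h2

theorem mz_d (h : XiOK c1 A) (z : Z8) (hz : sz c1 z ≠ 0) (ξ : Z8) :
    fderiv ℝ (mz c1) z ξ = fderiv ℝ MM2 (z, sz c1 z) (ξ, fderiv ℝ (sz c1) z ξ) := by
  obtain ⟨C, -, hC⟩ := MM2_bd
  have h1 : fderiv ℝ (mz c1) z = fderiv ℝ (fun y => MM2 (y, sz c1 y)) z :=
    (SzSm_evEqM h z hz).fderiv_eq
  have h2 : fderiv ℝ (fun y => MM2 (y, sz c1 y)) z =
      (fderiv ℝ MM2 (z, sz c1 z)).comp (fderiv ℝ (fun y => (y, sz c1 y)) z) :=
    fderiv_comp (g := MM2) (f := fun y => (y, sz c1 y)) z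
      ((hC z (sz c1 z) (SzSm_pos h z hz)).1.differentiableAt (by norm_num))
      ((SzSm_pair h z hz).differentiableAt (by norm_num))
  rw [h1, h2]
  change fderiv ℝ MM2 (z, sz c1 z) (fderiv ℝ (fun y => (y, sz c1 y)) z ξ) = _
  rw [SzSm_pair_d h z hz]

theorem mz_dd (h : XiOK c1 A) (z : Z8) (hz : sz c1 z ≠ 0) (ξ η : Z8) :
    fderiv ℝ (fderiv ℝ (mz c1)) z ξ η =
      fderiv ℝ (fderiv ℝ MM2) (z, sz c1 z) (ξ, fderiv ℝ (sz c1) z ξ)
        (η, fderiv ℝ (sz c1) z η) +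
      fderiv ℝ MM2 (z, sz c1 z) (0, fderiv ℝ (fderiv ℝ (sz c1)) z ξ η) := by
  obtain ⟨C, -, hC⟩ := MM2_bd
  have h1 : fderiv ℝ (fderiv ℝ (mz c1)) z =
      fderiv ℝ (fderiv ℝ (fun y => MM2 (y, sz c1 y))) z := fderiv2_congr (SzSm_evEqM h z hz)
  have h2 := fderiv2_comp (f := MM2) (h := fun y => (y, sz c1 y)) (x := z)
    (hC z (sz c1 z) (SzSm_pos h z hz)).1 (SzSm_pair h z hz) ξ η
  rw [← h1, SzSm_pair_d h z hz, SzSm_pair_d h z hz, SzSm_pair_dd h z hz] at h2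
  exact h2

/-- rough bound for the first derivative -/
theorem sz_d_lip (h : XiOK c1 A) (z : Z8) (hz : sz c1 z ≠ 0) (ξ : Z8) :
    |fderiv ℝ (sz c1) z ξ| ≤ ‖ξ‖ / 32 := by
  have h1 := h.dXi z (sz c1 z) (ξ, fderiv ℝ (sz c1) z ξ) (SzSm_pos h z hz)
  rw [← sz_d h z hz ξ, Prod.norm_def, Real.norm_eq_abs] at h1
  have h2 := norm_nonneg ξ
  have h3 := abs_nonneg (fderiv ℝ (sz c1) z ξ)
  rcases max_cases ‖ξ‖ |fderiv ℝ (sz c1) z ξ| with h4 | h4 <;> rw [h4.1] at h1 <;> linarith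

end Pool.Agent.Wtw
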