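import Mathlib
import Pool.Agent.Wtw.SzSm
import Pool.Agent.Wtw.Abs

/-!
# SzBnd: bounds for the derivatives of the scale and of the centre (`dlt z <= 1`)

`δ = dlt z`, `s = sz c1 z`, `D = dv z (mu2 z s) s`; `δ/A <= D <= 2 A δ` (`ledv`, `dvle`, `sz_small`),
`s ~ δ^(5/4)` (`sz_up`, `sz_low`).  Since `|Ds ξ| <= |ξ|/32`, `|(ξ, Ds ξ)| = |ξ|`.
* `|Ds ξ| = |DXF (ξ, Ds ξ)| <= C D^(1/4) |ξ|`.
* `(1 - ∂_s XF) D^2s ξ η = D^2XF ...`, `|∂_s XF| <= 1/64` (`dXi`), `D^(-3/4) <= C δ^(1/4)/s`.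
* case B(x) (`GoodBut`): then `dlt z = infDist (z x)` (`sz_small`), `r = s/δ <= C δ^(1/4)`;
  `nuT x r (ξ, Ds ξ) <= C nuB x (δ^(1/4)) ξ` (as `δ^(1/4) |ξ| <= nuB x (δ^(1/4)) ξ`),
  `D^(-3/4)|ξ||η| <= C δ^(-3/4) δ^(-1/2) nuB nuB <= (C/s) nuB nuB`.
* the same for `mz` with `MM2_bd`, `MM2_B`.
-/

namespace Pool.Agent.Wtw

open MeasureTheory Set Filter Topology
open scoped ENNReal

variable {c1 A : ℝ}

theorem SzBnd_pos (h : XiOK c1 A) {z : Z8} (hz : sz c1 z ≠ 0) : 0 < sz c1 z :=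
  lt_of_le_of_ne (sz_nonneg h z) (Ne.symm hz)

theorem SzBnd_dlt_pos (h : XiOK c1 A) {z : Z8} (hz : sz c1 z ≠ 0) : 0 < dlt z := by
  have h1 := SzBnd_pos h hz
  have h2 := sz_small h z
  linarith

/-- `min 1 D <= 2 A dlt` to the power `1/4` -/
theorem SzBnd_D14 (h : XiOK c1 A) {z : Z8} (hz : sz c1 z ≠ 0) :
    (min 1 (dv z (mu2 z (sz c1 z)) (sz c1 z))) ^ (1 / 4 : ℝ) ≤
      (2 * A) ^ (1 / 4 : ℝ) * dlt z ^ (1 / 4 : ℝ) := by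
  have hs := SzBnd_pos h hz
  have hd := SzBnd_dlt_pos h hz
  have hA := h.one_le
  have h1 := h.dvle z (sz c1 z) hs
  have h2 := sz_small h z
  have h3 : min 1 (dv z (mu2 z (sz c1 z)) (sz c1 z)) ≤ 2 * A * dlt z := by
    refine (min_le_right _ _).trans (h1.trans ?_)
    have : dlt z + sz c1 z ≤ 2 * dlt z := by linarith
    nlinarith
  rw [← Real.mul_rpow (by positivity) hd.le]
  exact Real.rpow_le_rpow (le_min zero_le_one (XiOK_dv_nonneg _ _ _)) h3 (by norm_num)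

/-- `dlt^(-5/4) <= 3A/s` -/
theorem SzBnd_inv (h : XiOK c1 A) {z : Z8} (hz : sz c1 z ≠ 0) :
    dlt z ^ (-(5 / 4) : ℝ) ≤ 3 * A / sz c1 z := by
  have hs := SzBnd_pos h hz
  have hd := SzBnd_dlt_pos h hz
  have h1 := sz_up h z
  rw [le_div_iff₀ hs]
  have h2 : 0 < dlt z ^ (-(5 / 4) : ℝ) := Real.rpow_pos_of_pos hd _
  calc dlt z ^ (-(5 / 4) : ℝ) * sz c1 z
      ≤ dlt z ^ (-(5 / 4) : ℝ) * (3 * A * dlt z ^ (5 / 4 : ℝ)) :=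
        mul_le_mul_of_nonneg_left h1 h2.le
    _ = 3 * A * (dlt z ^ (-(5 / 4) : ℝ) * dlt z ^ (5 / 4 : ℝ)) := by ring
    _ = 3 * A := by
        rw [← Real.rpow_add hd]
        norm_num

/-- `(min 1 D)^(-3/4) <= A^(3/4) dlt^(-3/4)` -/
theorem SzBnd_D34 (h : XiOK c1 A) {z : Z8} (hz : sz c1 z ≠ 0) (hz1 : dlt z ≤ 1) :
    (min 1 (dv z (mu2 z (sz c1 z)) (sz c1 z))) ^ (-(3 / 4) : ℝ) ≤
      A ^ (3 / 4 : ℝ) * dlt z ^ (-(3 / 4) : ℝ) := by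
  have hs := SzBnd_pos h hz
  have hd := SzBnd_dlt_pos h hz
  have hA := h.one_le
  have hA0 : 0 < A := by linarith
  have h1 := h.ledv z (sz c1 z) hs
  have h3 : dlt z / A ≤ min 1 (dv z (mu2 z (sz c1 z)) (sz c1 z)) := by
    apply le_min
    · rw [div_le_one hA0]; linarith
    · rw [div_le_iff₀ hA0]; linarith
  have h4 : (min 1 (dv z (mu2 z (sz c1 z)) (sz c1 z))) ^ (-(3 / 4) : ℝ) ≤
      (dlt z / A) ^ (-(3 / 4) : ℝ) :=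
    Real.rpow_le_rpow_of_nonpos (by positivity) h3 (by norm_num)
  refine h4.trans (le_of_eq ?_)
  rw [Real.div_rpow hd.le hA0.le, Real.rpow_neg hA0.le, div_inv_eq_mul, mul_comm]

theorem SzBnd_p14_le (h : XiOK c1 A) {z : Z8} (hz : sz c1 z ≠ 0) (hz1 : dlt z ≤ 1) :
    dlt z ^ (1 / 4 : ℝ) ≤ 1 :=
  Real.rpow_le_one (SzBnd_dlt_pos h hz).le hz1 (by norm_num)

theorem SzBnd_norm (h : XiOK c1 A) {z : Z8} (hz : sz c1 z ≠ 0) (ξ : Z8) :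
    ‖((ξ, fderiv ℝ (sz c1) z ξ) : Z8 × ℝ)‖ = ‖ξ‖ := by
  rw [Prod.norm_mk, Real.norm_eq_abs]
  apply max_eq_left
  have h1 := sz_d_lip h z hz ξ
  have h2 := norm_nonneg ξ
  linarith

theorem SzBnd_norm_le (x : Idx) (ξ : Z8) : ‖ξ‖ ≤ max |ξ x| ‖Function.update ξ x 0‖ := by
  rw [pi_norm_le_iff_of_nonneg (le_max_of_le_left (abs_nonneg _))]
  intro k
  by_cases hk : k = x
  · subst hk
    exact le_max_left _ _
  · apply le_max_of_le_right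
    have h1 := norm_le_pi_norm (Function.update ξ x 0) k
    rwa [Function.update_of_ne hk] at h1

theorem SzBnd_nuB_nonneg (x : Idx) (r : ℝ) (ξ : Z8) : 0 ≤ nuB x r ξ :=
  le_max_of_le_right (norm_nonneg _)

theorem SzBnd_mul_norm_le (x : Idx) {r : ℝ} (hr0 : 0 ≤ r) (hr1 : r ≤ 1) (ξ : Z8) :
    r * ‖ξ‖ ≤ nuB x r ξ := by
  have h1 := SzBnd_norm_le x ξ
  have h2 : r * ‖ξ‖ ≤ r * max |ξ x| ‖Function.update ξ x 0‖ := mul_le_mul_of_nonneg_left h1 hr0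
  refine h2.trans ?_
  rw [mul_max_of_nonneg _ _ hr0]
  unfold nuB
  apply max_le_max (le_refl _)
  exact mul_le_of_le_one_left (norm_nonneg _) hr1

theorem sz_ds (h : XiOK c1 A) : ∃ C : ℝ, 0 < C ∧ ∀ z, sz c1 z ≠ 0 → dlt z ≤ 1 → ∀ ξ,
    |fderiv ℝ (sz c1) z ξ| ≤ C * dlt z ^ (1 / 4 : ℝ) * ‖ξ‖ := by
  obtain ⟨C1, hC1, h1⟩ := XF_bd
  have hA := h.one_le
  have hc := h.pos
  refine ⟨C1 * c1 * (2 * A) ^ (1 / 4 : ℝ), by positivity, fun z hz hz1 ξ => ?_⟩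
  have hs := SzBnd_pos h hz
  rw [sz_d h z hz ξ]
  refine ((h1 c1 h.pos z (sz c1 z) hs).1 _).trans ?_
  rw [SzBnd_norm h hz]
  apply mul_le_mul_of_nonneg_right _ (norm_nonneg _)
  rw [mul_assoc (C1 * c1)]
  exact mul_le_mul_of_nonneg_left (SzBnd_D14 h hz) (by positivity)

/-- absorbing the term with the derivative in `s` -/
theorem SzBnd_absorb (h : XiOK c1 A) {z : Z8} (hz : sz c1 z ≠ 0) (ξ η : Z8) :
    |fderiv ℝ (fderiv ℝ (sz c1)) z ξ η| ≤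
      2 * |fderiv ℝ (fderiv ℝ (XF c1)) (z, sz c1 z) (ξ, fderiv ℝ (sz c1) z ξ)
        (η, fderiv ℝ (sz c1) z η)| := by
  have hs := SzBnd_pos h hz
  have h1 := sz_dd h z hz ξ η
  have h2 := h.dXi z (sz c1 z) (0, fderiv ℝ (fderiv ℝ (sz c1)) z ξ η) hs
  have h3 : ‖((0, fderiv ℝ (fderiv ℝ (sz c1)) z ξ η) : Z8 × ℝ)‖ =
      |fderiv ℝ (fderiv ℝ (sz c1)) z ξ η| := by
    rw [Prod.norm_mk, norm_zero, Real.norm_eq_abs]
    exact max_eq_right (abs_nonneg _)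
  rw [h3] at h2
  have h4 := abs_add_le (fderiv ℝ (fderiv ℝ (XF c1)) (z, sz c1 z) (ξ, fderiv ℝ (sz c1) z ξ)
        (η, fderiv ℝ (sz c1) z η))
      (fderiv ℝ (XF c1) (z, sz c1 z) (0, fderiv ℝ (fderiv ℝ (sz c1)) z ξ η))
  rw [← h1] at h4
  have h5 := abs_nonneg (fderiv ℝ (fderiv ℝ (sz c1)) z ξ η)
  linarith

theorem sz_dds (h : XiOK c1 A) : ∃ C : ℝ, 0 < C ∧ ∀ z, sz c1 z ≠ 0 → dlt z ≤ 1 → ∀ ξ η,
    |fderiv ℝ (fderiv ℝ (sz c1)) z ξ η| ≤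
      C * dlt z ^ (1 / 4 : ℝ) / sz c1 z * ‖ξ‖ * ‖η‖ := by
  obtain ⟨C1, hC1, h1⟩ := XF_bd
  have hA := h.one_le
  have hc := h.pos
  refine ⟨2 * (C1 * c1 * (A ^ (3 / 4 : ℝ) * (3 * A) + (2 * A) ^ (1 / 4 : ℝ))), by positivity,
    fun z hz hz1 ξ η => ?_⟩
  have hs := SzBnd_pos h hz
  have hd := SzBnd_dlt_pos h hz
  have e1 := (h1 c1 h.pos z (sz c1 z) hs).2 (ξ, fderiv ℝ (sz c1) z ξ) (η, fderiv ℝ (sz c1) z η)
  rw [SzBnd_norm h hz, SzBnd_norm h hz] at e1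
  have e2 := SzBnd_absorb h hz ξ η
  have e3 : (min 1 (dv z (mu2 z (sz c1 z)) (sz c1 z))) ^ (-(3 / 4) : ℝ) ≤
      A ^ (3 / 4 : ℝ) * (3 * A) * (dlt z ^ (1 / 4 : ℝ) / sz c1 z) := by
    refine (SzBnd_D34 h hz hz1).trans ?_
    have f1 : dlt z ^ (-(3 / 4) : ℝ) = dlt z ^ (1 / 2 : ℝ) * dlt z ^ (-(5 / 4) : ℝ) := by
      rw [← Real.rpow_add hd]; norm_num
    have f2 : dlt z ^ (1 / 2 : ℝ) ≤ dlt z ^ (1 / 4 : ℝ) :=
      Real.rpow_le_rpow_of_exponent_ge hd hz1 (by norm_num)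
    have f3 : dlt z ^ (-(3 / 4) : ℝ) ≤ dlt z ^ (1 / 4 : ℝ) * (3 * A / sz c1 z) := by
      rw [f1]
      exact mul_le_mul f2 (SzBnd_inv h hz) (by positivity) (by positivity)
    calc A ^ (3 / 4 : ℝ) * dlt z ^ (-(3 / 4) : ℝ)
        ≤ A ^ (3 / 4 : ℝ) * (dlt z ^ (1 / 4 : ℝ) * (3 * A / sz c1 z)) :=
          mul_le_mul_of_nonneg_left f3 (by positivity)
      _ = _ := by ring
  have e4 : (min 1 (dv z (mu2 z (sz c1 z)) (sz c1 z))) ^ (1 / 4 : ℝ) / sz c1 z ≤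
      (2 * A) ^ (1 / 4 : ℝ) * (dlt z ^ (1 / 4 : ℝ) / sz c1 z) := by
    rw [← mul_div_assoc]
    exact div_le_div_of_nonneg_right (SzBnd_D14 h hz) hs.le
  have e5 : C1 * c1 * ((min 1 (dv z (mu2 z (sz c1 z)) (sz c1 z))) ^ (-(3 / 4) : ℝ) +
      (min 1 (dv z (mu2 z (sz c1 z)) (sz c1 z))) ^ (1 / 4 : ℝ) / sz c1 z) * ‖ξ‖ * ‖η‖ ≤
      C1 * c1 * (A ^ (3 / 4 : ℝ) * (3 * A) * (dlt z ^ (1 / 4 : ℝ) / sz c1 z) +
        (2 * A) ^ (1 / 4 : ℝ) * (dlt z ^ (1 / 4 : ℝ) / sz c1 z)) * ‖ξ‖ * ‖η‖ := by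
    apply mul_le_mul_of_nonneg_right _ (norm_nonneg _)
    apply mul_le_mul_of_nonneg_right _ (norm_nonneg _)
    exact mul_le_mul_of_nonneg_left (add_le_add e3 e4) (by positivity)
  calc _ ≤ 2 * (C1 * c1 * (A ^ (3 / 4 : ℝ) * (3 * A) * (dlt z ^ (1 / 4 : ℝ) / sz c1 z) +
        (2 * A) ^ (1 / 4 : ℝ) * (dlt z ^ (1 / 4 : ℝ) / sz c1 z)) * ‖ξ‖ * ‖η‖) := by linarith
    _ = _ := by ring

theorem sz_bs (h : XiOK c1 A) : ∃ C : ℝ, 0 < C ∧ ∀ z x, sz c1 z ≠ 0 → dlt z ≤ 1 →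
    GoodBut (sz c1) z x → ∀ ξ,
    |fderiv ℝ (sz c1) z ξ| ≤ C * nuB x (dlt z ^ (1 / 4 : ℝ)) ξ := by
  obtain ⟨C, hC, h1⟩ := sz_ds h
  refine ⟨C, hC, fun z x hz hz1 _ ξ => ?_⟩
  have hd := SzBnd_dlt_pos h hz
  refine (h1 z hz hz1 ξ).trans ?_
  rw [mul_assoc]
  exact mul_le_mul_of_nonneg_left
    (SzBnd_mul_norm_le x (by positivity) (SzBnd_p14_le h hz hz1) ξ) hC.le

/-- in case B the large coordinate is `x` -/
theorem SzBnd_caseB (h : XiOK c1 A) {z : Z8} {x : Idx} (hz : sz c1 z ≠ 0)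
    (hx : GoodBut (sz c1) z x) : Metric.infDist (z x) CC = dlt z := by
  have hs := SzBnd_pos h hz
  have hd := SzBnd_dlt_pos h hz
  obtain ⟨k, hk⟩ := dlt_attained z
  by_cases hkx : k = x
  · rw [← hkx, hk]
  · exfalso
    have h1 := hx k hkx
    have h2 := sz_small h z
    linarith

/-- the weights of case B -/
theorem SzBnd_nuT (h : XiOK c1 A) : ∃ K : ℝ, 0 < K ∧ ∀ z x, sz c1 z ≠ 0 → dlt z ≤ 1 →
    GoodBut (sz c1) z x → ∀ ξ : Z8,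
    nuT x (sz c1 z / Metric.infDist (z x) CC) (ξ, fderiv ℝ (sz c1) z ξ) ≤
      K * nuB x (dlt z ^ (1 / 4 : ℝ)) ξ := by
  obtain ⟨C, hC, h1⟩ := sz_bs h
  have hA := h.one_le
  refine ⟨3 * A + C, by positivity, fun z x hz hz1 hx ξ => ?_⟩
  have hs := SzBnd_pos h hz
  have hd := SzBnd_dlt_pos h hz
  have hn := SzBnd_nuB_nonneg x (dlt z ^ (1 / 4 : ℝ)) ξ
  rw [SzBnd_caseB h hz hx]
  have hr : sz c1 z / dlt z ≤ 3 * A * dlt z ^ (1 / 4 : ℝ) := by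
    rw [div_le_iff₀ hd]
    refine (sz_up h z).trans (le_of_eq ?_)
    have : dlt z ^ (5 / 4 : ℝ) = dlt z ^ (1 / 4 : ℝ) * dlt z := by
      conv_rhs => rw [← Real.rpow_one (dlt z), ← Real.rpow_mul hd.le, one_mul]
      rw [← Real.rpow_add hd]
      norm_num
    rw [this]
    ring
  unfold nuT
  apply max_le
  · apply max_le
    · show sz c1 z / dlt z * |ξ x| ≤ _
      have e1 : dlt z ^ (1 / 4 : ℝ) * |ξ x| ≤ nuB x (dlt z ^ (1 / 4 : ℝ)) ξ := le_max_left _ _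
      calc sz c1 z / dlt z * |ξ x| ≤ 3 * A * dlt z ^ (1 / 4 : ℝ) * |ξ x| :=
            mul_le_mul_of_nonneg_right hr (abs_nonneg _)
        _ = 3 * A * (dlt z ^ (1 / 4 : ℝ) * |ξ x|) := by ring
        _ ≤ 3 * A * nuB x (dlt z ^ (1 / 4 : ℝ)) ξ := mul_le_mul_of_nonneg_left e1 (by positivity)
        _ ≤ (3 * A + C) * nuB x (dlt z ^ (1 / 4 : ℝ)) ξ := by
            apply mul_le_mul_of_nonneg_right _ hn
            linarith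
    · show ‖Function.update ξ x 0‖ ≤ _
      have e1 : ‖Function.update ξ x 0‖ ≤ nuB x (dlt z ^ (1 / 4 : ℝ)) ξ := le_max_right _ _
      refine e1.trans ?_
      apply le_mul_of_one_le_left hn
      linarith
  · refine (h1 z x hz hz1 hx ξ).trans ?_
    apply mul_le_mul_of_nonneg_right _ hn
    linarith

/-- `‖ξ‖ ‖η‖ <= dlt^(-1/2) nuB ξ nuB η` -/
theorem SzBnd_norm_mul (h : XiOK c1 A) {z : Z8} (hz : sz c1 z ≠ 0) (hz1 : dlt z ≤ 1) (x : Idx)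
    (ξ η : Z8) : ‖ξ‖ * ‖η‖ ≤ dlt z ^ (-(1 / 2) : ℝ) *
      (nuB x (dlt z ^ (1 / 4 : ℝ)) ξ * nuB x (dlt z ^ (1 / 4 : ℝ)) η) := by
  have hd := SzBnd_dlt_pos h hz
  have e1 := SzBnd_mul_norm_le x (Real.rpow_nonneg hd.le (1 / 4 : ℝ)) (SzBnd_p14_le h hz hz1) ξ
  have e2 := SzBnd_mul_norm_le x (Real.rpow_nonneg hd.le (1 / 4 : ℝ)) (SzBnd_p14_le h hz hz1) η
  have e3 : (dlt z ^ (1 / 4 : ℝ) * ‖ξ‖) * (dlt z ^ (1 / 4 : ℝ) * ‖η‖) ≤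
      nuB x (dlt z ^ (1 / 4 : ℝ)) ξ * nuB x (dlt z ^ (1 / 4 : ℝ)) η :=
    mul_le_mul e1 e2 (by positivity) (SzBnd_nuB_nonneg _ _ _)
  have e4 : dlt z ^ (-(1 / 2) : ℝ) * ((dlt z ^ (1 / 4 : ℝ) * ‖ξ‖) * (dlt z ^ (1 / 4 : ℝ) * ‖η‖)) =
      ‖ξ‖ * ‖η‖ := by
    have f1 : dlt z ^ (-(1 / 2) : ℝ) * (dlt z ^ (1 / 4 : ℝ) * dlt z ^ (1 / 4 : ℝ)) = 1 := by
      rw [← Real.rpow_add hd, ← Real.rpow_add hd]
      norm_num
    linear_combination (‖ξ‖ * ‖η‖) * f1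
  rw [← e4]
  exact mul_le_mul_of_nonneg_left e3 (by positivity)

theorem sz_bbs (h : XiOK c1 A) : ∃ C : ℝ, 0 < C ∧ ∀ z x, sz c1 z ≠ 0 → dlt z ≤ 1 →
    GoodBut (sz c1) z x → ∀ ξ η,
    |fderiv ℝ (fderiv ℝ (sz c1)) z ξ η| ≤
      C / sz c1 z * nuB x (dlt z ^ (1 / 4 : ℝ)) ξ * nuB x (dlt z ^ (1 / 4 : ℝ)) η := by
  obtain ⟨C1, hC1, h1⟩ := XF_B
  obtain ⟨K, hK, h2⟩ := SzBnd_nuT h
  have hA := h.one_le
  have hc := h.pos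
  refine ⟨2 * (C1 * c1 * (A ^ (3 / 4 : ℝ) * (3 * A) + K * K)), by positivity,
    fun z x hz hz1 hx ξ η => ?_⟩
  have hs := SzBnd_pos h hz
  have hd := SzBnd_dlt_pos h hz
  have hcB := SzBnd_caseB h hz hx
  have hsm := sz_small h z
  have e1 := h1 c1 h.pos z (sz c1 z) x hs (by rw [hcB]; linarith) (by rw [hcB]; exact hz1) hx
    (ξ, fderiv ℝ (sz c1) z ξ) (η, fderiv ℝ (sz c1) z η)
  rw [SzBnd_norm h hz, SzBnd_norm h hz] at e1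
  have e2 := SzBnd_absorb h hz ξ η
  set N1 := nuB x (dlt z ^ (1 / 4 : ℝ)) ξ with hN1
  set N2 := nuB x (dlt z ^ (1 / 4 : ℝ)) η with hN2
  have hN10 : 0 ≤ N1 := SzBnd_nuB_nonneg _ _ _
  have hN20 : 0 ≤ N2 := SzBnd_nuB_nonneg _ _ _
  have e3 : (min 1 (dv z (mu2 z (sz c1 z)) (sz c1 z))) ^ (-(3 / 4) : ℝ) * ‖ξ‖ * ‖η‖ ≤
      A ^ (3 / 4 : ℝ) * (3 * A) / sz c1 z * (N1 * N2) := by
    have f0 := SzBnd_D34 h hz hz1
    have f1 := SzBnd_norm_mul h hz hz1 x ξ η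
    have f2 : dlt z ^ (-(3 / 4) : ℝ) * dlt z ^ (-(1 / 2) : ℝ) = dlt z ^ (-(5 / 4) : ℝ) := by
      rw [← Real.rpow_add hd]; norm_num
    have f3 := SzBnd_inv h hz
    calc (min 1 (dv z (mu2 z (sz c1 z)) (sz c1 z))) ^ (-(3 / 4) : ℝ) * ‖ξ‖ * ‖η‖
        = (min 1 (dv z (mu2 z (sz c1 z)) (sz c1 z))) ^ (-(3 / 4) : ℝ) * (‖ξ‖ * ‖η‖) := by ring
      _ ≤ (A ^ (3 / 4 : ℝ) * dlt z ^ (-(3 / 4) : ℝ)) *
          (dlt z ^ (-(1 / 2) : ℝ) * (N1 * N2)) :=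
          mul_le_mul f0 f1 (by positivity) (by positivity)
      _ = A ^ (3 / 4 : ℝ) * (dlt z ^ (-(3 / 4) : ℝ) * dlt z ^ (-(1 / 2) : ℝ)) * (N1 * N2) := by
          ring
      _ = A ^ (3 / 4 : ℝ) * dlt z ^ (-(5 / 4) : ℝ) * (N1 * N2) := by rw [f2]
      _ ≤ A ^ (3 / 4 : ℝ) * (3 * A / sz c1 z) * (N1 * N2) := by
          apply mul_le_mul_of_nonneg_right _ (mul_nonneg hN10 hN20)
          exact mul_le_mul_of_nonneg_left f3 (by positivity)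
      _ = _ := by ring
  have e4 : 1 / sz c1 z * nuT x (sz c1 z / Metric.infDist (z x) CC) (ξ, fderiv ℝ (sz c1) z ξ) *
      nuT x (sz c1 z / Metric.infDist (z x) CC) (η, fderiv ℝ (sz c1) z η) ≤
      K * K / sz c1 z * (N1 * N2) := by
    have f1 := h2 z x hz hz1 hx ξ
    have f2 := h2 z x hz hz1 hx η
    have f3 : 0 ≤ nuT x (sz c1 z / Metric.infDist (z x) CC) (η, fderiv ℝ (sz c1) z η) :=
      le_max_of_le_right (abs_nonneg _)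
    calc _ = 1 / sz c1 z * (nuT x (sz c1 z / Metric.infDist (z x) CC)
          (ξ, fderiv ℝ (sz c1) z ξ) *
          nuT x (sz c1 z / Metric.infDist (z x) CC) (η, fderiv ℝ (sz c1) z η)) := by ring
      _ ≤ 1 / sz c1 z * ((K * N1) * (K * N2)) := by
          apply mul_le_mul_of_nonneg_left _ (by positivity)
          exact mul_le_mul f1 f2 f3 (by positivity)
      _ = _ := by ring
  have e5 : C1 * c1 * ((min 1 (dv z (mu2 z (sz c1 z)) (sz c1 z))) ^ (-(3 / 4) : ℝ) * ‖ξ‖ * ‖η‖ +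
      1 / sz c1 z * nuT x (sz c1 z / Metric.infDist (z x) CC) (ξ, fderiv ℝ (sz c1) z ξ) *
      nuT x (sz c1 z / Metric.infDist (z x) CC) (η, fderiv ℝ (sz c1) z η)) ≤
      C1 * c1 * (A ^ (3 / 4 : ℝ) * (3 * A) / sz c1 z * (N1 * N2) +
        K * K / sz c1 z * (N1 * N2)) :=
    mul_le_mul_of_nonneg_left (add_le_add e3 e4) (by positivity)
  calc _ ≤ 2 * (C1 * c1 * (A ^ (3 / 4 : ℝ) * (3 * A) / sz c1 z * (N1 * N2) +
        K * K / sz c1 z * (N1 * N2))) := by linarith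
    _ = _ := by ring

end Pool.Agent.Wtw
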