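import Mathlib
import Pool.Agent.Wtw.SzBnd

/-!
# MzBnd: bounds for the centre `mz` and its derivatives

See the header of SzBnd. `mz z = mu2 z (sz z)`; `mz_d`, `mz_dd` with `MM2_bd`, `MM2_B`, `sz_d_lip`,
`sz_dds`, `sz_bs`, `sz_bbs`. `m_le`: `mu_le` with `D = dlt z`, `s <= dlt z`. `m_good`: `mu_good` in each group.
-/

namespace Pool.Agent.Wtw

open MeasureTheory Set Filter Topology
open scoped ENNReal

variable {c1 A : ℝ}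

theorem MzBnd_pos (h : XiOK c1 A) {z : Z8} (hz : sz c1 z ≠ 0) : 0 < sz c1 z :=
  lt_of_le_of_ne (sz_nonneg h z) (Ne.symm hz)

theorem MzBnd_mz {z : Z8} (hz : sz c1 z ≠ 0) : mz c1 z = mu2 z (sz c1 z) := by
  unfold mz
  rw [if_neg hz]

theorem mz_le (h : XiOK c1 A) : ∃ C : ℝ, 0 < C ∧ ∀ z, ‖mz c1 z‖ ≤ C * dlt z := by
  obtain ⟨C, hC, hmu⟩ := mu_le
  refine ⟨2 * C, by positivity, ?_⟩
  intro z
  have hd := dlt_nonneg z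
  by_cases hz : sz c1 z = 0
  · unfold mz
    rw [if_pos hz, norm_zero]
    positivity
  · rw [MzBnd_mz hz, pi_norm_le_iff_of_nonneg (by positivity)]
    intro g
    have hs := MzBnd_pos h hz
    have h1 := sz_small h z
    have h2 := hmu (grp z g) (sz c1 z) (dlt z) hs (fun i => le_dlt z (g, i))
    rw [Real.norm_eq_abs]
    show |mu (grp z g) (sz c1 z)| ≤ _
    nlinarith

theorem mz_good (h : XiOK c1 A) : ∃ C : ℝ, 0 < C ∧ ∀ z, GoodGrp (sz c1) z →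
    ‖mz c1 z‖ ≤ C * sz c1 z := by
  obtain ⟨C, hC, hmu⟩ := mu_good
  refine ⟨C, hC, ?_⟩
  intro z hg
  by_cases hz : sz c1 z = 0
  · unfold mz
    rw [if_pos hz, norm_zero, hz, mul_zero]
  · have hs := MzBnd_pos h hz
    rw [MzBnd_mz hz, pi_norm_le_iff_of_nonneg (by positivity)]
    intro g
    rw [Real.norm_eq_abs]
    exact hmu (grp z g) (sz c1 z) hs (hg g)

/-- the norm of `(ξ, Ds ξ)` -/
theorem MzBnd_nrm (h : XiOK c1 A) {z : Z8} (hz : sz c1 z ≠ 0) (ξ : Z8) :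
    ‖((ξ, fderiv ℝ (sz c1) z ξ) : Z8 × ℝ)‖ ≤ ‖ξ‖ := by
  rw [Prod.norm_mk]
  refine max_le le_rfl ?_
  rw [Real.norm_eq_abs]
  have h1 := sz_d_lip h z hz ξ
  have h2 := norm_nonneg ξ
  linarith

theorem MzBnd_nrm0 (t : ℝ) : ‖((0, t) : Z8 × ℝ)‖ = |t| := by
  rw [Prod.norm_mk, norm_zero, Real.norm_eq_abs]
  exact max_eq_right (abs_nonneg t)

theorem mz_dm (h : XiOK c1 A) : ∃ C : ℝ, 0 < C ∧ ∀ z, sz c1 z ≠ 0 → dlt z ≤ 1 → ∀ ξ,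
    ‖fderiv ℝ (mz c1) z ξ‖ ≤ C * ‖ξ‖ := by
  obtain ⟨C, hC, hM⟩ := MM2_bd
  refine ⟨C, hC, ?_⟩
  intro z hz _ ξ
  rw [mz_d h z hz ξ]
  refine ((hM z (sz c1 z) (MzBnd_pos h hz)).2.1 _).trans ?_
  exact mul_le_mul_of_nonneg_left (MzBnd_nrm h hz ξ) hC.le

theorem mz_ddm (h : XiOK c1 A) : ∃ C : ℝ, 0 < C ∧ ∀ z, sz c1 z ≠ 0 → dlt z ≤ 1 → ∀ ξ η,
    ‖fderiv ℝ (fderiv ℝ (mz c1)) z ξ η‖ ≤ C / sz c1 z * ‖ξ‖ * ‖η‖ := by
  obtain ⟨C, hC, hM⟩ := MM2_bd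
  obtain ⟨C', hC', hS⟩ := sz_dds h
  refine ⟨C + C * C', by positivity, ?_⟩
  intro z hz hd ξ η
  have hs := MzBnd_pos h hz
  obtain ⟨_, hM1, hM2⟩ := hM z (sz c1 z) hs
  rw [mz_dd h z hz ξ η]
  refine (norm_add_le _ _).trans ?_
  have h1 := hM2 (ξ, fderiv ℝ (sz c1) z ξ) (η, fderiv ℝ (sz c1) z η)
  have h2 := hM1 (0, fderiv ℝ (fderiv ℝ (sz c1)) z ξ η)
  rw [MzBnd_nrm0] at h2
  have h3 := hS z hz hd ξ η
  have h4 : dlt z ^ (1 / 4 : ℝ) ≤ 1 := Real.rpow_le_one (dlt_nonneg z) hd (by norm_num)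
  have h5 : C / sz c1 z * ‖((ξ, fderiv ℝ (sz c1) z ξ) : Z8 × ℝ)‖ *
      ‖((η, fderiv ℝ (sz c1) z η) : Z8 × ℝ)‖ ≤ C / sz c1 z * ‖ξ‖ * ‖η‖ := by
    refine mul_le_mul (mul_le_mul_of_nonneg_left (MzBnd_nrm h hz ξ) (by positivity))
      (MzBnd_nrm h hz η) (norm_nonneg _) (by positivity)
  have h6 : |fderiv ℝ (fderiv ℝ (sz c1)) z ξ η| ≤ C' / sz c1 z * ‖ξ‖ * ‖η‖ := by
    refine h3.trans ?_
    refine mul_le_mul_of_nonneg_right (mul_le_mul_of_nonneg_right ?_ (norm_nonneg _)) (norm_nonneg _)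
    refine div_le_div_of_nonneg_right ?_ hs.le
    exact mul_le_of_le_one_right hC'.le h4
  calc _ ≤ C / sz c1 z * ‖ξ‖ * ‖η‖ + C * (C' / sz c1 z * ‖ξ‖ * ‖η‖) :=
        add_le_add (h1.trans h5) (h2.trans (mul_le_mul_of_nonneg_left h6 hC.le))
    _ = (C + C * C') / sz c1 z * ‖ξ‖ * ‖η‖ := by ring

/-- in case B the distance `dlt` is attained at `x` -/
theorem MzBnd_att (h : XiOK c1 A) {z : Z8} {x : Idx} (hz : sz c1 z ≠ 0)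
    (hx : GoodBut (sz c1) z x) : Metric.infDist (z x) CC = dlt z := by
  obtain ⟨k, hk⟩ := dlt_attained z
  by_cases hkx : k = x
  · rw [← hkx, hk]
  · exfalso
    have h1 := hx k hkx
    have h2 := sz_small h z
    have h3 := MzBnd_pos h hz
    rw [← hk] at h1
    linarith

theorem MzBnd_nuB_nonneg (x : Idx) (r : ℝ) (ξ : Z8) : 0 ≤ nuB x r ξ :=
  (norm_nonneg _).trans (le_max_right _ _)

/-- `nuT` of `(ξ, Ds ξ)` is bounded by `nuB` -/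
theorem MzBnd_nuT (h : XiOK c1 A) : ∃ C : ℝ, 0 < C ∧ ∀ z x, sz c1 z ≠ 0 → dlt z ≤ 1 →
    GoodBut (sz c1) z x → ∀ ξ,
    nuT x (sz c1 z / dlt z) (ξ, fderiv ℝ (sz c1) z ξ) ≤ C * nuB x (dlt z ^ (1 / 4 : ℝ)) ξ := by
  obtain ⟨C, hC, hS⟩ := sz_bs h
  have hA : 0 < A := lt_of_lt_of_le one_pos h.one_le
  refine ⟨3 * A + 1 + C, by positivity, ?_⟩
  intro z x hz hd hx ξ
  have hs := MzBnd_pos h hz
  have hdp : 0 < dlt z := by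
    have := sz_small h z
    linarith
  have hn := MzBnd_nuB_nonneg x (dlt z ^ (1 / 4 : ℝ)) ξ
  have h1 : dlt z ^ (1 / 4 : ℝ) * |ξ x| ≤ nuB x (dlt z ^ (1 / 4 : ℝ)) ξ := le_max_left _ _
  have h2 : ‖Function.update ξ x 0‖ ≤ nuB x (dlt z ^ (1 / 4 : ℝ)) ξ := le_max_right _ _
  have h3 := hS z x hz hd hx ξ
  have h4 : sz c1 z / dlt z ≤ 3 * A * dlt z ^ (1 / 4 : ℝ) := by
    rw [div_le_iff₀ hdp]
    refine (sz_up h z).trans (le_of_eq ?_)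
    rw [mul_assoc (3 * A)]
    congr 1
    have : dlt z ^ (1 / 4 : ℝ) * dlt z = dlt z ^ (1 / 4 : ℝ) * dlt z ^ (1 : ℝ) := by
      rw [Real.rpow_one]
    rw [this, ← Real.rpow_add hdp]
    norm_num
  have hA' : 3 * A * nuB x (dlt z ^ (1 / 4 : ℝ)) ξ ≤
      (3 * A + 1 + C) * nuB x (dlt z ^ (1 / 4 : ℝ)) ξ :=
    mul_le_mul_of_nonneg_right (by linarith) hn
  have h1' : 1 * nuB x (dlt z ^ (1 / 4 : ℝ)) ξ ≤
      (3 * A + 1 + C) * nuB x (dlt z ^ (1 / 4 : ℝ)) ξ :=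
    mul_le_mul_of_nonneg_right (by linarith) hn
  have hC' : C * nuB x (dlt z ^ (1 / 4 : ℝ)) ξ ≤
      (3 * A + 1 + C) * nuB x (dlt z ^ (1 / 4 : ℝ)) ξ :=
    mul_le_mul_of_nonneg_right (by linarith) hn
  unfold nuT
  refine max_le (max_le ?_ ?_) ?_
  · refine le_trans ?_ hA'
    calc sz c1 z / dlt z * |ξ x| ≤ 3 * A * dlt z ^ (1 / 4 : ℝ) * |ξ x| :=
          mul_le_mul_of_nonneg_right h4 (abs_nonneg _)
      _ = 3 * A * (dlt z ^ (1 / 4 : ℝ) * |ξ x|) := by ring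
      _ ≤ _ := mul_le_mul_of_nonneg_left h1 (by positivity)
  · refine le_trans ?_ h1'
    rw [one_mul]
    exact h2
  · exact h3.trans hC'

theorem MzBnd_nuT_nonneg (x : Idx) (r : ℝ) (v : Z8 × ℝ) : 0 ≤ nuT x r v :=
  (abs_nonneg _).trans (le_max_right _ _)

theorem mz_bm (h : XiOK c1 A) : ∃ C : ℝ, 0 < C ∧ ∀ z x, sz c1 z ≠ 0 → dlt z ≤ 1 →
    GoodBut (sz c1) z x → ∀ ξ,
    ‖fderiv ℝ (mz c1) z ξ‖ ≤ C * nuB x (dlt z ^ (1 / 4 : ℝ)) ξ := by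
  obtain ⟨C, hC, hM⟩ := MM2_B
  obtain ⟨C', hC', hN⟩ := MzBnd_nuT h
  refine ⟨C * C', by positivity, ?_⟩
  intro z x hz hd hx ξ
  have hs := MzBnd_pos h hz
  have ha := MzBnd_att h hz hx
  have h1 := sz_small h z
  have h2 := (hM z (sz c1 z) x hs (by rw [ha]; linarith) (by rw [ha]; exact hd) hx).1
    (ξ, fderiv ℝ (sz c1) z ξ)
  rw [ha] at h2
  rw [mz_d h z hz ξ]
  refine h2.trans ?_
  rw [mul_assoc]
  exact mul_le_mul_of_nonneg_left (hN z x hz hd hx ξ) hC.le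

theorem mz_bbm (h : XiOK c1 A) : ∃ C : ℝ, 0 < C ∧ ∀ z x, sz c1 z ≠ 0 → dlt z ≤ 1 →
    GoodBut (sz c1) z x → ∀ ξ η,
    ‖fderiv ℝ (fderiv ℝ (mz c1)) z ξ η‖ ≤
      C / sz c1 z * nuB x (dlt z ^ (1 / 4 : ℝ)) ξ * nuB x (dlt z ^ (1 / 4 : ℝ)) η := by
  obtain ⟨C, hC, hM⟩ := MM2_B
  obtain ⟨C', hC', hN⟩ := MzBnd_nuT h
  obtain ⟨C2, hC2, hM2⟩ := MM2_bd
  obtain ⟨C3, hC3, hS⟩ := sz_bbs h
  refine ⟨C * C' ^ 2 + C2 * C3, by positivity, ?_⟩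
  intro z x hz hd hx ξ η
  have hs := MzBnd_pos h hz
  have ha := MzBnd_att h hz hx
  have h1 := sz_small h z
  have h2 := (hM z (sz c1 z) x hs (by rw [ha]; linarith) (by rw [ha]; exact hd) hx).2
    (ξ, fderiv ℝ (sz c1) z ξ) (η, fderiv ℝ (sz c1) z η)
  rw [ha] at h2
  have h3 := (hM2 z (sz c1 z) hs).2.1 (0, fderiv ℝ (fderiv ℝ (sz c1)) z ξ η)
  rw [MzBnd_nrm0] at h3
  have h4 := hS z x hz hd hx ξ η
  have n1 := MzBnd_nuB_nonneg x (dlt z ^ (1 / 4 : ℝ)) ξ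
  have n2 := MzBnd_nuB_nonneg x (dlt z ^ (1 / 4 : ℝ)) η
  rw [mz_dd h z hz ξ η]
  refine (norm_add_le _ _).trans ?_
  have h5 : C / sz c1 z * nuT x (sz c1 z / dlt z) (ξ, fderiv ℝ (sz c1) z ξ) *
      nuT x (sz c1 z / dlt z) (η, fderiv ℝ (sz c1) z η) ≤
      C / sz c1 z * (C' * nuB x (dlt z ^ (1 / 4 : ℝ)) ξ) * (C' * nuB x (dlt z ^ (1 / 4 : ℝ)) η) := by
    refine mul_le_mul (mul_le_mul_of_nonneg_left (hN z x hz hd hx ξ) (by positivity))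
      (hN z x hz hd hx η) (MzBnd_nuT_nonneg _ _ _) (by positivity)
  calc _ ≤ C / sz c1 z * (C' * nuB x (dlt z ^ (1 / 4 : ℝ)) ξ) *
        (C' * nuB x (dlt z ^ (1 / 4 : ℝ)) η) + C2 * (C3 / sz c1 z * nuB x (dlt z ^ (1 / 4 : ℝ)) ξ *
          nuB x (dlt z ^ (1 / 4 : ℝ)) η) :=
        add_le_add (h2.trans h5) (h3.trans (mul_le_mul_of_nonneg_left h4 hC2.le))
    _ = _ := by ring

end Pool.Agent.Wtw
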