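import Mathlib
import Pool.Agent.Wtw.SzSm

/-!
# SzEq: equivariance

`s = sz c1 z > 0`: `mu2 (z + shift c) s = mu2 z s + c` (`mu2_shift`) with `c = rot t m - m`, so
`mu2 = rot t m`; `sigma_inv`: `Xi c1 (z + shift c) s = Xi c1 z s = s`, `sz_uniq`. If `s = 0`: `m = 0`, `c = 0`.
-/

namespace Pool.Agent.Wtw

open MeasureTheory Set Filter Topology
open scoped ENNReal

variable {c1 A : ℝ}

private theorem SE_rot0 (t : ℝ) : rot t (0 : V2) = 0 := by
  ext i
  fin_cases i <;> simp [rot]

private theorem SE_shift0 : shift (0 : V2) = 0 := by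
  ext k
  simp [shift]

theorem sz_equiv (h : XiOK c1 A) (z : Z8) (t : ℝ) :
    sz c1 (z + shift (rot t (mz c1 z) - mz c1 z)) = sz c1 z ∧
      mz c1 (z + shift (rot t (mz c1 z) - mz c1 z)) = rot t (mz c1 z) := by
  by_cases hz : sz c1 z = 0
  · have hm : mz c1 z = 0 := by unfold mz; rw [if_pos hz]
    rw [hm, SE_rot0, sub_zero, SE_shift0, add_zero]
    exact ⟨rfl, hm⟩
  · have hpos := SzSm_pos h z hz
    have hm : mz c1 z = mu2 z (sz c1 z) := by unfold mz; rw [if_neg hz]
    set s := sz c1 z with hs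
    set m := mz c1 z with hm'
    have h1 : mu2 (z + shift (rot t m - m)) s = rot t m := by
      rw [mu2_shift z _ s hpos, ← hm]
      abel
    have h2 : Xi c1 (z + shift (rot t m - m)) s = s := by
      unfold Xi
      rw [h1, sigma_inv, hm]
      exact SzSm_eq h z hz
    have h3 : sz c1 (z + shift (rot t m - m)) = s := sz_uniq h _ s hpos h2
    refine ⟨h3, ?_⟩
    unfold mz
    rw [h3, if_neg hz, h1]

end Pool.Agent.Wtw
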