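import Mathlib
import Pool.Agent.Wtw.SzEq

/-!
# SzBase: a base point with centre 0 far away in the first coordinate

`z0 = 20 e_(0,0)`. All `vSq x z0 0 s >= QT univ (..) >= c > 0`, so `g s = sigma c1 z0 0 s - s` is continuous on
`(0,1]`, positive for small `s`, negative at 1: root `s*`, `s* <= c1`. `c = mu2 z0 s*`: in each group at
most one coordinate is not in `CC` (`0 ∈ CC`), so `|c_g| <= 1/2` (`XiOK.base`). `z = z0 - shift c`: `mu2 z s* = 0`,
`Xi c1 z s* = sigma c1 z 0 s* = sigma c1 z0 0 s* = s*` (`sigma_inv`, t = 0), so `sz z = s*`, `mz z = 0`.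
Derivatives: `sz_d` with `XF_d`: for `ξ = shift c`, `τ = Ds ξ`:
`τ = DSF(z,0,s)(ξ, DMM2(ξ,τ), τ) = DSF(ξ,0,0) + DSF(0,..,0) + DSF(0,0,τ) = DSF (0,0,τ)` (`dsig_shift`, `dsig_m`),
and `DSF(0,0,τ) = DXF(0,τ)` (same argument), `|DXF (0,τ)| <= |τ|/64`, so `τ = 0`; `mz_d`, `dmu2_shift`.
-/

namespace Pool.Agent.Wtw

open MeasureTheory Set Filter Topology
open scoped ENNReal

variable {c1 A : ℝ}

/-- the far point -/
private noncomputable def SzBase_z0 : Z8 := fun k => if k = (0, 0) then 20 else 0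

private theorem SzBase_dv (s : ℝ) : 1 ≤ dv SzBase_z0 0 s := by
  unfold dv
  apply le_ciInf
  intro x
  obtain ⟨_, _, h3⟩ := vSq_ge x SzBase_z0 0 s
  set r := Real.sqrt (vSq x SzBase_z0 0 s) with hr
  set l := lamT Finset.univ (fun j => SzBase_z0 (0, j) - beta (x (0, j))) with hl
  have ha := h3 0 0
  have hb := h3 0 1
  rw [← hl] at ha hb
  have hz0 : SzBase_z0 (0, 0) = 20 := by simp [SzBase_z0]
  have hz1 : SzBase_z0 (0, 1) = 0 := by simp [SzBase_z0]
  have hn0 : nn 0 = 1 := by simp [nn]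
  have hn1 : nn 1 = 2 := by simp [nn]; norm_num
  rw [hz0, hn0] at ha
  rw [hz1, hn1] at hb
  have hb0 := beta_mem (x (0, 0))
  have hb1 := beta_mem (x (0, 1))
  rw [abs_le] at ha hb
  obtain ⟨ha1, ha2⟩ := ha
  obtain ⟨hb1', hb2⟩ := hb
  have h4 := hb0.1
  have h5 := hb0.2
  have h6 := hb1.1
  have h7 := hb1.2
  by_contra hlt
  push Not at hlt
  norm_num at h5 h7
  linarith

private theorem SzBase_root (h : XiOK c1 A) :
    ∃ s, 0 < s ∧ sigma c1 SzBase_z0 0 s = s := by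
  obtain ⟨C, hC, hbd⟩ := sigma_bd
  have hc := h.pos
  have hle := h.le
  set ε : ℝ := min (c1 / C) (1 / 2) with hε
  have hε0 : 0 < ε := lt_min (div_pos hc hC) (by norm_num)
  have hε1 : ε ≤ 1 / 2 := min_le_right _ _
  have hεC : ε ≤ c1 / C := min_le_left _ _
  have hcont : ContinuousOn (fun s => s - sigma c1 SzBase_z0 0 s) (Icc ε 1) := by
    apply ContinuousOn.sub continuousOn_id
    intro s hs
    have hs0 : 0 < s := lt_of_lt_of_le hε0 hs.1
    have h1 : ContinuousAt (SF c1) (SzBase_z0, (0 : V2), s) :=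
      (SF_smooth c1 SzBase_z0 0 s hs0).continuousAt
    have h2 : ContinuousAt (fun s : ℝ => ((SzBase_z0, (0 : V2), s) : Z8 × V2 × ℝ)) s := by
      fun_prop
    have h3 : ContinuousAt (fun s : ℝ => SF c1 (SzBase_z0, (0 : V2), s)) s :=
      ContinuousAt.comp (f := fun s : ℝ => ((SzBase_z0, (0 : V2), s) : Z8 × V2 × ℝ)) h1 h2
    exact h3.continuousWithinAt
  have hlow : c1 / C ≤ sigma c1 SzBase_z0 0 ε := by
    obtain ⟨_, h2, _⟩ := hbd c1 hc SzBase_z0 0 ε hε0
    rw [min_eq_left (SzBase_dv ε), Real.one_rpow, mul_one] at h2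
    rw [div_le_iff₀ hC]
    linarith
  have hup := (sigma_pos c1 hc SzBase_z0 0 1 one_pos).2
  have hmem : (0 : ℝ) ∈ Icc (ε - sigma c1 SzBase_z0 0 ε) (1 - sigma c1 SzBase_z0 0 1) := by
    constructor
    · linarith
    · linarith
  obtain ⟨s, hs, hs0⟩ := intermediate_value_Icc (by linarith : ε ≤ 1) hcont hmem
  refine ⟨s, lt_of_lt_of_le hε0 hs.1, ?_⟩
  simp only at hs0
  linarith

theorem sz_base (h : XiOK c1 A) : ∃ z, sz c1 z ≠ 0 ∧ mz c1 z = 0 ∧ 10 ≤ z (0, 0) ∧ z (0, 0) ≤ 30 ∧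
    (∀ k, k ≠ (0, 0) → |z k| ≤ 3) ∧
    (∀ c, fderiv ℝ (sz c1) z (shift c) = 0) ∧ ∀ c, fderiv ℝ (mz c1) z (shift c) = c := by
  obtain ⟨s, hs, hroot⟩ := SzBase_root h
  have hsc : s ≤ c1 := by
    rw [← hroot]; exact (sigma_pos c1 h.pos SzBase_z0 0 s hs).2
  set c : V2 := mu2 SzBase_z0 s with hcdef
  have hcb : ∀ g, |c g| ≤ 1 / 2 := by
    intro g
    have h1 : c g = mu (grp SzBase_z0 g) s := rfl
    rw [h1]
    apply h.base _ s hs hsc
    refine ⟨0, fun i hi => ?_⟩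
    have h2 : grp SzBase_z0 g i = 0 := by
      unfold grp SzBase_z0
      rw [if_neg]
      intro h3
      apply hi
      exact (Prod.mk.inj h3).2
    rw [h2, Metric.infDist_zero_of_mem zero_mem_CC]
    exact hs.le
  set z : Z8 := SzBase_z0 + shift (-c) with hz
  have hmu : mu2 z s = 0 := by
    rw [hz, mu2_shift SzBase_z0 (-c) s hs, ← hcdef]
    simp
  have hXi : Xi c1 z s = s := by
    unfold Xi
    rw [hmu]
    have h1 := sigma_inv c1 SzBase_z0 0 s 0 (-c)
    rw [rot_zero, hroot] at h1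
    exact h1
  have hsz : sz c1 z = s := sz_uniq h z s hs hXi
  have hsz0 : sz c1 z ≠ 0 := by rw [hsz]; exact hs.ne'
  have hmz : mz c1 z = 0 := by
    unfold mz
    rw [if_neg hsz0, hsz, hmu]
  -- derivative in the direction of a shift
  have hds : ∀ d, fderiv ℝ (sz c1) z (shift d) = 0 := by
    intro d
    set τ := fderiv ℝ (sz c1) z (shift d) with hτ
    have h1 : τ = fderiv ℝ (XF c1) (z, s) (shift d, τ) := by
      have := sz_d h z hsz0 (shift d)
      rw [hsz] at this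
      exact this
    have h2 : ((shift d, τ) : Z8 × ℝ) = (shift d, 0) + (0, τ) := by simp
    rw [h2, map_add] at h1
    have h3 : fderiv ℝ (XF c1) (z, s) (shift d, 0) = 0 := by
      rw [XF_d c1 z s hs, hmu]
      have h4 : fderiv ℝ MM2 (z, s) (shift d, 0) = d := dmu2_shift z d s hs
      simp only
      rw [h4]
      have h5 : ((shift d, d, (0 : ℝ)) : Z8 × V2 × ℝ) = (shift d, 0, 0) + (0, d, 0) := by simp
      rw [h5, map_add, dsig_shift c1 z 0 s hs d, dsig_m c1 z s hs d, add_zero]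
    rw [h3, zero_add] at h1
    have h6 := h.dXi z s (0, τ) hs
    rw [← h1] at h6
    have h7 : ‖((0, τ) : Z8 × ℝ)‖ = |τ| := by simp [Prod.norm_def]
    rw [h7] at h6
    have h8 : |τ| ≤ 0 := by
      have := abs_nonneg τ
      linarith
    exact abs_nonpos_iff.mp h8
  refine ⟨z, hsz0, hmz, ?_, ?_, ?_, hds, ?_⟩
  · have h1 : z (0, 0) = 20 - c 0 := by
      rw [hz]
      simp [SzBase_z0, shift, nn]
      ring
    have h2 := abs_le.mp (hcb 0)
    rw [h1]; linarith [h2.2]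
  · have h1 : z (0, 0) = 20 - c 0 := by
      rw [hz]
      simp [SzBase_z0, shift, nn]
      ring
    have h2 := abs_le.mp (hcb 0)
    rw [h1]; linarith [h2.1]
  · intro k hk
    have h1 : z k = - (nn k.2 * c k.1) := by
      rw [hz]
      simp [SzBase_z0, shift, hk]
    rw [h1, abs_neg, abs_mul]
    have h2 := nn_bd k.2
    have h3 := hcb k.1
    rw [abs_of_nonneg (by linarith [h2.1] : 0 ≤ nn k.2)]
    have h4 := abs_nonneg (c k.1)
    nlinarith [h2.1, h2.2]
  · intro d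
    have h1 := mz_d h z hsz0 (shift d)
    rw [hds d, hsz] at h1
    rw [h1]
    exact dmu2_shift z d s hs

end Pool.Agent.Wtw
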