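import Mathlib
import Pool.Agent.Wtw.MzBnd
import Pool.Agent.Wtw.SzBase

/-!
# SzData: assembly of part I
-/

namespace Pool.Agent.Wtw

open MeasureTheory Set Filter Topology
open scoped ENNReal

theorem SzData_dlt_nonneg (z : Z8) : 0 ≤ dlt z := by
  unfold dlt
  exact le_trans (Metric.infDist_nonneg (x := z (0, 0)) (s := CC))
    (Finset.le_sup' (fun k : Idx => Metric.infDist (z k) CC) (Finset.mem_univ (0, 0)))

theorem SzData_nuB_nonneg (x : Idx) (r : ℝ) (ξ : Z8) : 0 ≤ nuB x r ξ :=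
  le_trans (norm_nonneg _) (le_max_right _ _)

theorem SzData_mono {a C B X : ℝ} (h : a ≤ C * X) (hC : C ≤ B) (hX : 0 ≤ X) : a ≤ B * X :=
  h.trans (mul_le_mul_of_nonneg_right hC hX)

theorem s_data : ∃ c1 A : ℝ, SData (sz c1) (mz c1) A := by
  obtain ⟨c1, A0, h⟩ := xi_ok
  obtain ⟨C1, p1, h1⟩ := sz_ds h
  obtain ⟨C2, p2, h2⟩ := sz_dds h
  obtain ⟨C3, p3, h3⟩ := sz_bs h
  obtain ⟨C4, p4, h4⟩ := sz_bbs h
  obtain ⟨C5, p5, h5⟩ := mz_le h
  obtain ⟨C6, p6, h6⟩ := mz_good h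
  obtain ⟨C7, p7, h7⟩ := mz_dm h
  obtain ⟨C8, p8, h8⟩ := mz_ddm h
  obtain ⟨C9, p9, h9⟩ := mz_bm h
  obtain ⟨C10, p10, h10⟩ := mz_bbm h
  have hA0 := h.one_le
  set A : ℝ := 3 * A0 + C1 + C2 + C3 + C4 + C5 + C6 + C7 + C8 + C9 + C10 with hA
  have hs0 : ∀ z, 0 ≤ sz c1 z := sz_nonneg h
  have hd0 := SzData_dlt_nonneg
  have hdr : ∀ z, 0 ≤ dlt z ^ (1 / 4 : ℝ) := fun z => Real.rpow_nonneg (hd0 z) _
  have hnu := SzData_nuB_nonneg
  refine ⟨c1, A, ?_⟩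
  constructor
  · linarith
  · exact hs0
  · exact fun z => (sz_le h z).1
  · exact fun z => sz_zero_iff h z
  · intro z hz
    unfold mz
    rw [if_pos hz]
  · exact sz_lip h
  · exact fun z hz => sz_smooth h z hz
  · exact fun z hz => mz_smooth h z hz
  · exact sz_small h
  · intro z
    exact SzData_mono (sz_up h z) (by linarith) (Real.rpow_nonneg (hd0 z) _)
  · intro z hz
    exact SzData_mono (sz_low h z hz) (by linarith) (hs0 z)
  · intro z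
    exact SzData_mono (h5 z) (by linarith) (hd0 z)
  · intro z hz
    exact SzData_mono (h6 z hz) (by linarith) (hs0 z)
  · intro z hz hd ξ
    have h' := h1 z hz hd ξ
    rw [mul_assoc] at h' ⊢
    exact SzData_mono h' (by linarith) (mul_nonneg (hdr z) (norm_nonneg _))
  · intro z hz hd ξ η
    have h' := h2 z hz hd ξ η
    have e : ∀ B : ℝ, B * dlt z ^ (1 / 4 : ℝ) / sz c1 z * ‖ξ‖ * ‖η‖
        = B * (dlt z ^ (1 / 4 : ℝ) / sz c1 z * ‖ξ‖ * ‖η‖) := fun B => by ring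
    rw [e] at h' ⊢
    exact SzData_mono h' (by linarith) (mul_nonneg (mul_nonneg (div_nonneg (hdr z) (hs0 z))
      (norm_nonneg _)) (norm_nonneg _))
  · intro z hz hd ξ
    exact SzData_mono (h7 z hz hd ξ) (by linarith) (norm_nonneg _)
  · intro z hz hd ξ η
    have h' := h8 z hz hd ξ η
    have e : ∀ B : ℝ, B / sz c1 z * ‖ξ‖ * ‖η‖ = B * (1 / sz c1 z * ‖ξ‖ * ‖η‖) := fun B => by ring
    rw [e] at h' ⊢
    exact SzData_mono h' (by linarith) (mul_nonneg (mul_nonneg (div_nonneg zero_le_one (hs0 z))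
      (norm_nonneg _)) (norm_nonneg _))
  · intro z x hz hd hg ξ
    exact SzData_mono (h3 z x hz hd hg ξ) (by linarith) (hnu _ _ _)
  · intro z x hz hd hg ξ η
    have h' := h4 z x hz hd hg ξ η
    have e : ∀ B : ℝ, B / sz c1 z * nuB x (dlt z ^ (1 / 4 : ℝ)) ξ * nuB x (dlt z ^ (1 / 4 : ℝ)) η
        = B * (1 / sz c1 z * nuB x (dlt z ^ (1 / 4 : ℝ)) ξ * nuB x (dlt z ^ (1 / 4 : ℝ)) η) :=
      fun B => by ring
    rw [e] at h' ⊢
    exact SzData_mono h' (by linarith) (mul_nonneg (mul_nonneg (div_nonneg zero_le_one (hs0 z))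
      (hnu _ _ _)) (hnu _ _ _))
  · intro z x hz hd hg ξ
    exact SzData_mono (h9 z x hz hd hg ξ) (by linarith) (hnu _ _ _)
  · intro z x hz hd hg ξ η
    have h' := h10 z x hz hd hg ξ η
    have e : ∀ B : ℝ, B / sz c1 z * nuB x (dlt z ^ (1 / 4 : ℝ)) ξ * nuB x (dlt z ^ (1 / 4 : ℝ)) η
        = B * (1 / sz c1 z * nuB x (dlt z ^ (1 / 4 : ℝ)) ξ * nuB x (dlt z ^ (1 / 4 : ℝ)) η) :=
      fun B => by ring
    rw [e] at h' ⊢
    exact SzData_mono h' (by linarith) (mul_nonneg (mul_nonneg (div_nonneg zero_le_one (hs0 z))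
      (hnu _ _ _)) (hnu _ _ _))
  · exact sz_equiv h
  · exact sz_base h

end Pool.Agent.Wtw
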