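import Mathlib
import Pool.Agent.Wtw.Int1
import Pool.Agent.Wtw.FLoop
import Pool.Agent.Wtw.FD
import Pool.Agent.Wtw.PpData
import Pool.Agent.Wtw.SzData

/-!
# MkFD: assembly of parts I-V

`smooth`, `inv` at `(u, y)` with `y ∈ KK`, `u /= 0`: `ff_near_K`; with `y ∉ KK`: `ff_smooth`, `ff_inv`.
-/

namespace Pool.Agent.Wtw

open MeasureTheory Set Filter Topology
open scoped ENNReal

theorem MkFD_id (f : E9 → E9) (t : E9) (h : f =ᶠ[𝓝 t] id) :
    HasFDerivAt f (ContinuousLinearMap.id ℝ E9) t :=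
  (hasFDerivAt_id t).congr_of_eventuallyEq h

theorem f_data : ∃ (f : E9 → E9) (K : Set Z8), FData f K := by
  obtain ⟨A, hp⟩ := p_data
  obtain ⟨c1, B, hs⟩ := s_data
  refine ⟨ff pp (sz c1) (mz c1), KK pp (sz c1), ?_⟩
  constructor
  · exact ff_homeo hp hs
  · exact KK_compact hp hs
  · exact KK_pos hp hs
  · exact fun y hy k => KK_sub hp hs y hy k
  · exact fun u y hu => ff_neg hp hs u y hu
  · exact fun u y hu => ff_one hp hs u y hu
  · exact fun u y hy => ff_K hp hs u y hy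
  · intro u y hn
    by_cases hy : y ∈ KK pp (sz c1)
    · have hu : u ≠ 0 := fun h => hn ⟨h, hy⟩
      exact contDiffAt_id.congr_of_eventuallyEq (ff_near_K hp hs u y hy hu)
    · exact ff_smooth hp hs u y hy
  · intro u y hn
    by_cases hy : y ∈ KK pp (sz c1)
    · have hu : u ≠ 0 := fun h => hn ⟨h, hy⟩
      refine ⟨ContinuousLinearEquiv.refl ℝ E9, ?_⟩
      exact MkFD_id _ _ (ff_near_K hp hs u y hy hu)
    · exact ff_inv hp hs u y hy
  · intro u y hy hu
    exact MkFD_id _ _ (ff_near_K hp hs u y hy hu)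
  · exact ff_int1 hp hs
  · exact ff_int2 hp hs
  · exact ff_loop hp hs

end Pool.Agent.Wtw
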