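import Mathlib
import Pool.Agent.Wtw.IntXX

/-!
# QBnd: the pointwise bounds for the power `r` of the second derivatives

`eps N^r = eps^(1-r) (eps N)^r`, `c δ <= eps` (`low`), `(C δ^(-a)/(ρ ρ'))^r <= C^r δ^(-a r)/(ρ ρ')` (`ρ >= 1`):
exponents `e1 = 349/256 r + (r - 1) < 7/4`, `e2 = 221/256 r + (r - 1) < 7/8` for `1 <= r < 480/477`.
-/

namespace Pool.Agent.Wtw

open MeasureTheory Set Filter Topology
open scoped ENNReal

variable {p : ℝ → ℝ → ℝ} {A B : ℝ} {s : Z8 → ℝ} {m : Z8 → V2}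

/-- pointwise bounds for the power `r` -/
def FBQ (p : ℝ → ℝ → ℝ) (s : Z8 → ℝ) (m : Z8 → V2) (r e1 e2 C δ0 : ℝ) : Prop :=
    ∀ y : Z8, s (Gi p s y) ≠ 0 → dlt (Gi p s y) ≤ δ0 → ∀ u : ℝ,
    (∀ x x', eps (s (Gi p s y)) *
        ‖fderiv ℝ (fderiv ℝ (ff p s m)) (u, y) (dir (some x)) (dir (some x'))‖ ^ r ≤
      C * dlt (Gi p s y) ^ (-e1) /
        (pz p (Gi p s y x) (s (Gi p s y)) * pz p (Gi p s y x') (s (Gi p s y)))) ∧
    (∀ x, GoodBut s (Gi p s y) x → eps (s (Gi p s y)) *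
        ‖fderiv ℝ (fderiv ℝ (ff p s m)) (u, y) (dir (some x)) (dir (some x))‖ ^ r ≤
      C * dlt (Gi p s y) ^ (-e2)) ∧
    (∀ x, eps (s (Gi p s y)) *
        ‖fderiv ℝ (fderiv ℝ (ff p s m)) (u, y) (dir none) (dir (some x))‖ ^ r ≤
      C * dlt (Gi p s y) ^ (-e1) / pz p (Gi p s y x) (s (Gi p s y))) ∧
    (∀ x, GoodBut s (Gi p s y) x → eps (s (Gi p s y)) *
        ‖fderiv ℝ (fderiv ℝ (ff p s m)) (u, y) (dir none) (dir (some x))‖ ^ r ≤
      C * dlt (Gi p s y) ^ (-e2)) ∧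
    (eps (s (Gi p s y)) *
        ‖fderiv ℝ (fderiv ℝ (ff p s m)) (u, y) (dir none) (dir none)‖ ^ r ≤
      C * dlt (Gi p s y) ^ (-e1)) ∧
    (GoodGrp s (Gi p s y) → eps (s (Gi p s y)) *
        ‖fderiv ℝ (fderiv ℝ (ff p s m)) (u, y) (dir none) (dir none)‖ ^ r ≤
      C * dlt (Gi p s y) ^ (-e2))

/-- the elementary step: `eps N <= C δ^(-a) / ρ` gives the bound for `eps N^r` -/
theorem QBnd_step (hs : SData s m B) (r a C : ℝ) (hr : 1 ≤ r) (hC : 0 ≤ C) (z : Z8) (hz : s z ≠ 0)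
    (hd : dlt z ≤ 1) (N ρ : ℝ) (hN : 0 ≤ N) (hρ : 1 ≤ ρ)
    (h : eps (s z) * N ≤ C * dlt z ^ (-a) / ρ) :
    eps (s z) * N ^ r ≤ (B ^ (4 / 5 : ℝ)) ^ (r - 1) * C ^ r * dlt z ^ (-(a * r + (r - 1))) / ρ := by
  have hspos : 0 < s z := lt_of_le_of_ne (hs.nonneg _) (Ne.symm hz)
  have hB : 1 ≤ B := hs.one_le
  have hdpos : 0 < dlt z := by
    rcases (dlt_nonneg z).lt_or_eq with h1 | h1
    · exact h1
    · exact absurd ((hs.zero_iff z).2 ((dlt_zero_iff z).1 h1.symm)) hz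
  have hepos : 0 < eps (s z) := Real.rpow_pos_of_pos hspos _
  -- lower bound of eps
  have hlow : dlt z ≤ B ^ (4 / 5 : ℝ) * eps (s z) := by
    have h1 := hs.low z hd
    have h2 : (dlt z ^ (5 / 4 : ℝ)) ^ (4 / 5 : ℝ) ≤ (B * s z) ^ (4 / 5 : ℝ) :=
      Real.rpow_le_rpow (Real.rpow_nonneg hdpos.le _) h1 (by norm_num)
    rw [← Real.rpow_mul hdpos.le, Real.mul_rpow (by linarith) hspos.le] at h2
    norm_num at h2
    exact h2
  have h1 : eps (s z) * N ^ r = eps (s z) ^ (1 - r) * (eps (s z) * N) ^ r := by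
    rw [Real.mul_rpow hepos.le hN, ← mul_assoc, ← Real.rpow_add hepos]
    norm_num
  have h2 : eps (s z) ^ (1 - r) ≤ (B ^ (4 / 5 : ℝ)) ^ (r - 1) * dlt z ^ (-(r - 1)) := by
    have hBp : 0 < B ^ (4 / 5 : ℝ) := Real.rpow_pos_of_pos (by linarith) _
    have h3 : dlt z / B ^ (4 / 5 : ℝ) ≤ eps (s z) := by
      rw [div_le_iff₀ hBp]; linarith
    have h4 : eps (s z) ^ (1 - r) ≤ (dlt z / B ^ (4 / 5 : ℝ)) ^ (1 - r) :=
      Real.rpow_le_rpow_of_nonpos (by positivity) h3 (by linarith)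
    refine h4.trans (le_of_eq ?_)
    rw [Real.div_rpow hdpos.le hBp.le, show (1 - r) = -(r - 1) by ring,
      Real.rpow_neg hBp.le (r - 1), div_inv_eq_mul, mul_comm]
  have h3 : (eps (s z) * N) ^ r ≤ C ^ r * dlt z ^ (-(a * r)) / ρ := by
    have h4 : (eps (s z) * N) ^ r ≤ (C * dlt z ^ (-a) / ρ) ^ r :=
      Real.rpow_le_rpow (by positivity) h (by linarith)
    refine h4.trans ?_
    rw [Real.div_rpow (by positivity) (by linarith), Real.mul_rpow hC (by positivity),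
      ← Real.rpow_mul hdpos.le, show -a * r = -(a * r) by ring]
    have h5 : ρ ≤ ρ ^ r := by
      calc ρ = ρ ^ (1 : ℝ) := (Real.rpow_one ρ).symm
        _ ≤ ρ ^ r := Real.rpow_le_rpow_of_exponent_le hρ hr
    exact div_le_div_of_nonneg_left (by positivity) (by linarith) h5
  rw [h1]
  calc eps (s z) ^ (1 - r) * (eps (s z) * N) ^ r
      ≤ ((B ^ (4 / 5 : ℝ)) ^ (r - 1) * dlt z ^ (-(r - 1))) * (C ^ r * dlt z ^ (-(a * r)) / ρ) :=
        mul_le_mul h2 h3 (by positivity) (by positivity)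
    _ = (B ^ (4 / 5 : ℝ)) ^ (r - 1) * C ^ r * dlt z ^ (-(a * r + (r - 1))) / ρ := by
        rw [show -(a * r + (r - 1)) = -(r - 1) + -(a * r) by ring, Real.rpow_add hdpos]
        ring

theorem fbq_all (hp : PData p A) (hs : SData s m B) (r : ℝ) (hr : 1 ≤ r) : ∃ C δ0 : ℝ,
    0 < δ0 ∧ δ0 ≤ 1 ∧ FBQ p s m r (349 / 256 * r + (r - 1)) (221 / 256 * r + (r - 1)) C δ0 := by
  obtain ⟨C, δ0, hC, h0, h1, hF⟩ := fb_all hp hs
  refine ⟨(B ^ (4 / 5 : ℝ)) ^ (r - 1) * C ^ r, δ0, h0, h1, ?_⟩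
  intro y hy hd u
  have hC0 : 0 ≤ C := by linarith
  have hspos : 0 < s (Gi p s y) := lt_of_le_of_ne (hs.nonneg _) (Ne.symm hy)
  have hd1 : dlt (Gi p s y) ≤ 1 := hd.trans h1
  have hz : ∀ k, 1 ≤ pz p (Gi p s y k) (s (Gi p s y)) := fun k => hp.ge_one _ _ hspos
  obtain ⟨f1, f2, f3, f4, f5, f6⟩ := hF y hy hd u
  refine ⟨fun x x' => ?_, fun x hx => ?_, fun x => ?_, fun x hx => ?_, ?_, fun hg => ?_⟩
  · exact QBnd_step hs r _ C hr hC0 _ hy hd1 _ _ (norm_nonneg _)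
      (by nlinarith [hz x, hz x']) (f1 x x')
  · have h2 := QBnd_step hs r (221 / 256) C hr hC0 _ hy hd1 _ 1 (norm_nonneg _) le_rfl
      (by simpa using f2 x hx)
    simpa using h2
  · exact QBnd_step hs r _ C hr hC0 _ hy hd1 _ _ (norm_nonneg _) (hz x) (f3 x)
  · have h2 := QBnd_step hs r (221 / 256) C hr hC0 _ hy hd1 _ 1 (norm_nonneg _) le_rfl
      (by simpa using f4 x hx)
    simpa using h2
  · have h2 := QBnd_step hs r (349 / 256) C hr hC0 _ hy hd1 _ 1 (norm_nonneg _) le_rfl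
      (by simpa using f5)
    simpa using h2
  · have h2 := QBnd_step hs r (221 / 256) C hr hC0 _ hy hd1 _ 1 (norm_nonneg _) le_rfl
      (by simpa using f6 hg)
    simpa using h2

end Pool.Agent.Wtw
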