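import Mathlib
import Pool.Agent.Wtw.QBnd
import Pool.Agent.Wtw.IntUU

/-!
# QInt: the integrals of the power `r` (same proofs as IntXX, IntUX, IntUU)
-/

namespace Pool.Agent.Wtw

open MeasureTheory Set Filter Topology
open scoped ENNReal

variable {p : ℝ → ℝ → ℝ} {A B : ℝ} {s : Z8 → ℝ} {m : Z8 → V2}

/-- the integrand -/
noncomputable def HQ (r : ℝ) (p : ℝ → ℝ → ℝ) (s : Z8 → ℝ) (m : Z8 → V2) (i j : Option Idx)
    (y : Z8) : ℝ≥0∞ :=
  ⨆ u : ℝ, ENNReal.ofReal (eps (s (Gi p s y)) *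
    ‖fderiv ℝ (fderiv ℝ (ff p s m)) (u, y) (dir i) (dir j)‖ ^ r)

theorem QInt_HQ_le {r : ℝ} {i j : Option Idx} {y : Z8} {b : ℝ}
    (h : ∀ u : ℝ, eps (s (Gi p s y)) *
      ‖fderiv ℝ (fderiv ℝ (ff p s m)) (u, y) (dir i) (dir j)‖ ^ r ≤ b) :
    HQ r p s m i j y ≤ ENNReal.ofReal b :=
  iSup_le fun u => ENNReal.ofReal_le_ofReal (h u)

/-- integral over the region where the other coordinates are close -/
theorem QInt_good (hp : PData p A) (hs : SData s m B) (r e1 e2 : ℝ) (he1 : 0 ≤ e1)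
    (he1' : e1 < 7 / 4) (he2 : 0 ≤ e2) (he2' : e2 < 7 / 8) (C δ0 : ℝ) (h1 : δ0 ≤ 1) (x : Idx)
    (H : Z8 → ℝ≥0∞)
    (hH : ∀ y, s (Gi p s y) ≠ 0 → dlt (Gi p s y) ≤ δ0 → GoodBut s (Gi p s y) x →
      H y ≤ ENNReal.ofReal (C * dlt (Gi p s y) ^ (-e2))) :
    ∫⁻ y in RG p s δ0 ∩ {y : Z8 | GoodBut s (Gi p s y) x}, H y < ∞ := by
  classical
  have hm : MeasurableSet (RG p s δ0 ∩ {y : Z8 | GoodBut s (Gi p s y) x}) :=
    (IntXX_RG_meas hp hs δ0).inter (IntXX_good_meas hp hs x)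
  have hreg := reg_fin hp hs {x} {x} e2 C δ0 he2 (by
      rw [Finset.union_self, Finset.card_singleton]
      norm_num; linarith) h1
    (fun y => if GoodBut s (Gi p s y) x then H y else 0) (by
      intro y hy1 hy2 hy3
      by_cases hg : GoodBut s (Gi p s y) x
      · simp only [if_pos hg]
        have h4 := hH y hy1 hy2 hg
        have h5 := (hp.far (Gi p s y x) (s (Gi p s y)) (s_pos hs _ hy1)
          (hy3 x (Finset.mem_singleton_self x))).1
        rw [Finset.prod_singleton, h5, div_one]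
        exact h4
      · simp only [if_neg hg]
        exact zero_le)
  have e : ∫⁻ y in RG p s δ0 ∩ {y : Z8 | GoodBut s (Gi p s y) x}, H y =
      ∫⁻ y in RG p s δ0 ∩ {y : Z8 | GoodBut s (Gi p s y) x},
        (if GoodBut s (Gi p s y) x then H y else 0) := by
    refine setLIntegral_congr_fun hm fun y hy => ?_
    exact (if_pos hy.2).symm
  rw [e]
  refine (lintegral_mono_set ?_).trans_lt hreg
  rintro y ⟨⟨hy1, hy2⟩, hy3⟩
  refine ⟨hy1, hy2, fun k hk => ?_⟩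
  rw [Finset.mem_singleton] at hk
  subst hk
  obtain ⟨k', hk'⟩ := IntXX_far hs _ hy1
  by_cases he : k' = k
  · rw [← he]
    exact hk'
  · exact absurd (hy3 k' he) (not_le.2 hk')

theorem intq_xx (hp : PData p A) (hs : SData s m B) (r e1 e2 : ℝ) (he1 : 0 ≤ e1)
    (he1' : e1 < 7 / 4) (he2 : 0 ≤ e2) (he2' : e2 < 7 / 8) (C δ0 : ℝ) (h0 : 0 < δ0) (h1 : δ0 ≤ 1)
    (hF : FBQ p s m r e1 e2 C δ0) (x x' : Idx) :
    ∫⁻ y in RG p s δ0, HQ r p s m (some x) (some x') y < ∞ := by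
  classical
  have _ := h0
  by_cases hx : x = x'
  · subst hx
    refine IntXX_cover (RG p s δ0) (RG p s δ0 ∩ {y : Z8 | GoodBut s (Gi p s y) x})
      (Finset.univ.erase x)
      (fun k => {y : Z8 | s (Gi p s y) ≠ 0 ∧ dlt (Gi p s y) ≤ δ0 ∧
        ∀ k' ∈ ({k} : Finset Idx), s (Gi p s y) < Metric.infDist (Gi p s y k') CC}) _ ?_ ?_ ?_
    · intro y hy
      by_cases hg : GoodBut s (Gi p s y) x
      · exact Or.inl ⟨hy, hg⟩
      · refine Or.inr ?_
        unfold GoodBut at hg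
        push Not at hg
        obtain ⟨k, hk, hlt⟩ := hg
        refine ⟨k, Finset.mem_erase.2 ⟨hk, Finset.mem_univ k⟩, hy.1, hy.2, fun k' hk' => ?_⟩
        rw [Finset.mem_singleton] at hk'
        rw [hk']
        exact hlt
    · refine QInt_good hp hs r e1 e2 he1 he1' he2 he2' C δ0 h1 x _ fun y hy1 hy2 hg => ?_
      exact QInt_HQ_le fun u => (hF y hy1 hy2 u).2.1 x hg
    · intro k hk
      have hkx : k ≠ x := (Finset.mem_erase.1 hk).1
      refine reg_fin hp hs {x} {k} e1 C δ0 he1 ?_ h1 _ ?_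
      · have hc : (({x} : Finset Idx) ∪ {k}).card = 2 := by
          rw [Finset.card_union_of_disjoint (Finset.disjoint_singleton.2 hkx.symm)]
          simp
        rw [hc]
        norm_num; linarith
      · intro y hy1 hy2 _
        have hsp := s_pos hs _ hy1
        have hz := hp.ge_one (Gi p s y x) (s (Gi p s y)) hsp
        rw [Finset.prod_singleton]
        refine QInt_HQ_le fun u => ((hF y hy1 hy2 u).1 x x).trans ?_
        have hd : 0 ≤ dlt (Gi p s y) ^ (-e1) :=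
          Real.rpow_nonneg (dlt_nonneg _) _
        have hE : 0 ≤ C * dlt (Gi p s y) ^ (-e1) / (pz p (Gi p s y x) (s (Gi p s y)) *
            pz p (Gi p s y x) (s (Gi p s y))) := by
          have h6 := (hF y hy1 hy2 0).1 x x
          refine le_trans ?_ h6
          have : 0 ≤ eps (s (Gi p s y)) := Real.rpow_nonneg hsp.le _
          positivity
        have hpz : 0 < pz p (Gi p s y x) (s (Gi p s y)) := by linarith
        have hE2 : 0 ≤ C * dlt (Gi p s y) ^ (-e1) := by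
          rw [le_div_iff₀ (by positivity), zero_mul] at hE
          exact hE
        rw [← div_div]
        refine div_le_self ?_ hz
        positivity
  · have hreg := reg_fin hp hs {x, x'} ∅ e1 C δ0 he1 (by
        rw [Finset.union_empty, Finset.card_pair hx]
        norm_num; linarith) h1 (HQ r p s m (some x) (some x')) (by
      intro y hy1 hy2 _
      rw [Finset.prod_pair hx]
      exact QInt_HQ_le fun u => (hF y hy1 hy2 u).1 x x')
    refine (lintegral_mono_set ?_).trans_lt hreg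
    rintro y ⟨hy1, hy2⟩
    exact ⟨hy1, hy2, fun k hk => absurd hk (Finset.notMem_empty k)⟩

theorem intq_ux (hp : PData p A) (hs : SData s m B) (r e1 e2 : ℝ) (he1 : 0 ≤ e1)
    (he1' : e1 < 7 / 4) (he2 : 0 ≤ e2) (he2' : e2 < 7 / 8) (C δ0 : ℝ) (h0 : 0 < δ0) (h1 : δ0 ≤ 1)
    (hF : FBQ p s m r e1 e2 C δ0) (x : Idx) :
    ∫⁻ y in RG p s δ0, HQ r p s m none (some x) y < ∞ := by
  classical
  have _ := h0
  refine IntXX_cover (RG p s δ0) (RG p s δ0 ∩ {y : Z8 | GoodBut s (Gi p s y) x})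
    (Finset.univ.erase x)
    (fun k => {y : Z8 | s (Gi p s y) ≠ 0 ∧ dlt (Gi p s y) ≤ δ0 ∧
      ∀ k' ∈ ({k} : Finset Idx), s (Gi p s y) < Metric.infDist (Gi p s y k') CC}) _ ?_ ?_ ?_
  · intro y hy
    by_cases hg : GoodBut s (Gi p s y) x
    · exact Or.inl ⟨hy, hg⟩
    · refine Or.inr ?_
      unfold GoodBut at hg
      push Not at hg
      obtain ⟨k, hk, hlt⟩ := hg
      refine ⟨k, Finset.mem_erase.2 ⟨hk, Finset.mem_univ k⟩, hy.1, hy.2, fun k' hk' => ?_⟩
      rw [Finset.mem_singleton] at hk'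
      rw [hk']
      exact hlt
  · refine QInt_good hp hs r e1 e2 he1 he1' he2 he2' C δ0 h1 x _ fun y hy1 hy2 hg => ?_
    exact QInt_HQ_le fun u => (hF y hy1 hy2 u).2.2.2.1 x hg
  · intro k hk
    have hkx : k ≠ x := (Finset.mem_erase.1 hk).1
    refine reg_fin hp hs {x} {k} e1 C δ0 he1 ?_ h1 _ ?_
    · have hc : (({x} : Finset Idx) ∪ {k}).card = 2 := by
        rw [Finset.card_union_of_disjoint (Finset.disjoint_singleton.2 hkx.symm)]
        simp
      rw [hc]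
      norm_num; linarith
    · intro y hy1 hy2 _
      rw [Finset.prod_singleton]
      exact QInt_HQ_le fun u => (hF y hy1 hy2 u).2.2.1 x

theorem QInt_grp (hp : PData p A) (hs : SData s m B) (r e1 e2 : ℝ) (he1 : 0 ≤ e1)
    (he1' : e1 < 7 / 4) (he2 : 0 ≤ e2) (he2' : e2 < 7 / 8) (C δ0 : ℝ) (h1 : δ0 ≤ 1)
    (H : Z8 → ℝ≥0∞)
    (hH : ∀ y, s (Gi p s y) ≠ 0 → dlt (Gi p s y) ≤ δ0 → GoodGrp s (Gi p s y) →
      H y ≤ ENNReal.ofReal (C * dlt (Gi p s y) ^ (-e2))) :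
    ∫⁻ y in RG p s δ0 ∩ {y : Z8 | GoodGrp s (Gi p s y)}, H y < ∞ := by
  classical
  have hm : MeasurableSet (RG p s δ0 ∩ {y : Z8 | GoodGrp s (Gi p s y)}) :=
    (IntXX_RG_meas hp hs δ0).inter (IntUU_grp_meas hp hs)
  have e : ∫⁻ y in RG p s δ0 ∩ {y : Z8 | GoodGrp s (Gi p s y)}, H y =
      ∫⁻ y in RG p s δ0 ∩ {y : Z8 | GoodGrp s (Gi p s y)},
        (if GoodGrp s (Gi p s y) then H y else 0) := by
    refine setLIntegral_congr_fun hm fun y hy => ?_
    exact (if_pos hy.2).symm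
  rw [e]
  refine IntXX_cover _ ∅ Finset.univ
    (fun k : Idx => {y : Z8 | s (Gi p s y) ≠ 0 ∧ dlt (Gi p s y) ≤ δ0 ∧
      ∀ k' ∈ ({k} : Finset Idx), s (Gi p s y) < Metric.infDist (Gi p s y k') CC}) _ ?_ ?_ ?_
  · rintro y ⟨⟨hy1, hy2⟩, _⟩
    refine Or.inr ?_
    obtain ⟨k, hk⟩ := IntXX_far hs _ hy1
    refine ⟨k, Finset.mem_univ k, hy1, hy2, fun k' hk' => ?_⟩
    rw [Finset.mem_singleton] at hk'
    rw [hk']
    exact hk
  · simp
  · intro k _
    refine reg_fin hp hs ∅ {k} e2 C δ0 he2 (by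
      rw [Finset.empty_union, Finset.card_singleton]
      norm_num; linarith) h1 _ ?_
    intro y hy1 hy2 _
    rw [Finset.prod_empty, div_one]
    by_cases hg : GoodGrp s (Gi p s y)
    · rw [if_pos hg]
      exact hH y hy1 hy2 hg
    · rw [if_neg hg]
      exact zero_le

theorem intq_uu (hp : PData p A) (hs : SData s m B) (r e1 e2 : ℝ) (he1 : 0 ≤ e1)
    (he1' : e1 < 7 / 4) (he2 : 0 ≤ e2) (he2' : e2 < 7 / 8) (C δ0 : ℝ) (h0 : 0 < δ0) (h1 : δ0 ≤ 1)
    (hF : FBQ p s m r e1 e2 C δ0) :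
    ∫⁻ y in RG p s δ0, HQ r p s m none none y < ∞ := by
  classical
  have _ := h0
  refine IntXX_cover (RG p s δ0) (RG p s δ0 ∩ {y : Z8 | GoodGrp s (Gi p s y)})
    (Finset.univ.filter fun kk : Idx × Idx => kk.1 ≠ kk.2)
    (fun kk => {y : Z8 | s (Gi p s y) ≠ 0 ∧ dlt (Gi p s y) ≤ δ0 ∧
      ∀ k' ∈ ({kk.1, kk.2} : Finset Idx), s (Gi p s y) < Metric.infDist (Gi p s y k') CC})
    _ ?_ ?_ ?_
  · intro y hy
    by_cases hg : GoodGrp s (Gi p s y)
    · exact Or.inl ⟨hy, hg⟩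
    · refine Or.inr ?_
      unfold GoodGrp at hg
      push Not at hg
      obtain ⟨g, hg⟩ := hg
      obtain ⟨i1, _, hlt1⟩ := hg 0
      obtain ⟨i2, hne, hlt2⟩ := hg i1
      refine ⟨((g, i1), (g, i2)), ?_, hy.1, hy.2, fun k' hk' => ?_⟩
      · rw [Finset.mem_filter]
        refine ⟨Finset.mem_univ _, fun h => hne ?_⟩
        exact (Prod.ext_iff.1 h).2.symm
      · rw [Finset.mem_insert, Finset.mem_singleton] at hk'
        rcases hk' with rfl | rfl
        · exact hlt1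
        · exact hlt2
  · refine QInt_grp hp hs r e1 e2 he1 he1' he2 he2' C δ0 h1 _ fun y hy1 hy2 hg => ?_
    exact QInt_HQ_le fun u => (hF y hy1 hy2 u).2.2.2.2.2 hg
  · intro kk hkk
    have hne : kk.1 ≠ kk.2 := (Finset.mem_filter.1 hkk).2
    refine reg_fin hp hs ∅ {kk.1, kk.2} e1 C δ0 he1 (by
      rw [Finset.empty_union, Finset.card_pair hne]
      norm_num; linarith) h1 _ ?_
    intro y hy1 hy2 _
    rw [Finset.prod_empty, div_one]
    exact QInt_HQ_le fun u => (hF y hy1 hy2 u).2.2.2.2.1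


end Pool.Agent.Wtw
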