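import Mathlib
import Pool.Agent.Wtw.QInt
import Pool.Agent.Wtw.Total
import Pool.Agent.Wtw.Int1

/-!
# QTot: powers `1 <= r < 480/477` of the first and second derivatives are integrable on balls
-/

namespace Pool.Agent.Wtw

open MeasureTheory Set Filter Topology
open scoped ENNReal

variable {p : ℝ → ℝ → ℝ} {A B : ℝ} {s : Z8 → ℝ} {m : Z8 → V2}

theorem QTot_enorm {F : Type*} [NormedAddCommGroup F] (x : F) (r : ℝ) (hr : 0 ≤ r) :
    ‖x‖ₑ ^ r = ENNReal.ofReal (‖x‖ ^ r) := by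
  rw [← ofReal_norm, ENNReal.ofReal_rpow_of_nonneg (norm_nonneg _) hr]

theorem QTot_sum {ι : Type*} (I : Finset ι) (a : ι → ℝ≥0∞) (r : ℝ) (hr : 0 < r) :
    (∑ i ∈ I, a i) ^ r ≤ (I.card : ℝ≥0∞) ^ r * ∑ i ∈ I, a i ^ r := by
  classical
  rcases I.eq_empty_or_nonempty with h | h
  · subst h
    simp [hr]
  obtain ⟨k, hk, hmax⟩ := Finset.exists_max_image I a h
  have h1 : ∑ i ∈ I, a i ≤ I.card * a k := by
    calc ∑ i ∈ I, a i ≤ ∑ i ∈ I, a k := Finset.sum_le_sum fun i hi => hmax i hi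
      _ = I.card * a k := by rw [Finset.sum_const, nsmul_eq_mul]
  calc (∑ i ∈ I, a i) ^ r ≤ (I.card * a k) ^ r := ENNReal.rpow_le_rpow h1 hr.le
    _ = (I.card : ℝ≥0∞) ^ r * a k ^ r := ENNReal.mul_rpow_of_nonneg _ _ hr.le
    _ ≤ _ := by
      gcongr
      exact Finset.single_le_sum (f := fun i => a i ^ r) (fun i _ => zero_le) hk

theorem QTot_inner (hp : PData p A) (hs : SData s m B) (r : ℝ) (hr : 1 ≤ r) (i j : Option Idx)
    (y : Z8) (hy : s (Gi p s y) ≠ 0) :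
    ∫⁻ u : ℝ, ‖fderiv ℝ (fderiv ℝ (ff p s m)) (u, y) (dir i) (dir j)‖ₑ ^ r ≤
      HQ r p s m i j y := by
  set e : ℝ := eps (s (Gi p s y)) with he
  have hspos : 0 < s (Gi p s y) := lt_of_le_of_ne (hs.nonneg _) (Ne.symm hy)
  have hepos : 0 < e := Real.rpow_pos_of_pos hspos _
  have h1 : ∀ u : ℝ, ‖fderiv ℝ (fderiv ℝ (ff p s m)) (u, y) (dir i) (dir j)‖ₑ ^ r ≤
      (Icc (0 : ℝ) e).indicator (fun _ => HQ r p s m i j y / ENNReal.ofReal e) u := by
    intro u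
    by_cases hu : u ∈ Icc (0 : ℝ) e
    · rw [indicator_of_mem hu]
      rw [ENNReal.le_div_iff_mul_le (Or.inl (by simpa using hepos)) (Or.inl ENNReal.ofReal_ne_top)]
      rw [QTot_enorm _ _ (by linarith), ← ENNReal.ofReal_mul (by positivity), mul_comm]
      exact le_iSup (fun u : ℝ => ENNReal.ofReal (eps (s (Gi p s y)) *
        ‖fderiv ℝ (fderiv ℝ (ff p s m)) (u, y) (dir i) (dir j)‖ ^ r)) u
    · rw [indicator_of_notMem hu]
      have h2 : u < 0 ∨ eps (s (Gi p s y)) < u := by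
        by_contra hcon
        push Not at hcon
        exact hu ⟨hcon.1, hcon.2⟩
      rw [Total_id (ff_near_out hp hs u y h2)]
      have h3 : (0 : ℝ) < r := by linarith
      simp [h3]
  calc ∫⁻ u : ℝ, ‖fderiv ℝ (fderiv ℝ (ff p s m)) (u, y) (dir i) (dir j)‖ₑ ^ r
      ≤ ∫⁻ u : ℝ, (Icc (0 : ℝ) e).indicator (fun _ => HQ r p s m i j y / ENNReal.ofReal e) u :=
        lintegral_mono h1
    _ = HQ r p s m i j y / ENNReal.ofReal e * ENNReal.ofReal e := by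
        rw [lintegral_indicator measurableSet_Icc, setLIntegral_const, Real.volume_Icc, sub_zero]
    _ ≤ HQ r p s m i j y := by
        rw [ENNReal.div_mul_cancel (by simpa using hepos) ENNReal.ofReal_ne_top]

theorem QTot_HQ_symm (hp : PData p A) (hs : SData s m B) (r : ℝ) (i j : Option Idx) (y : Z8)
    (hy : s (Gi p s y) ≠ 0) : HQ r p s m i j y = HQ r p s m j i y := by
  unfold HQ
  refine iSup_congr fun u => ?_
  rw [fderiv2_symm (ff_smooth hp hs u y hy)]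

theorem QTot_HQ_fin (hp : PData p A) (hs : SData s m B) (r e1 e2 : ℝ) (he1 : 0 ≤ e1)
    (he1' : e1 < 7 / 4) (he2 : 0 ≤ e2) (he2' : e2 < 7 / 8) (C δ0 : ℝ) (h0 : 0 < δ0) (h1 : δ0 ≤ 1)
    (hF : FBQ p s m r e1 e2 C δ0) (i j : Option Idx) :
    ∫⁻ y in RG p s δ0, HQ r p s m i j y < ∞ := by
  cases i with
  | none =>
    cases j with
    | none => exact intq_uu hp hs r e1 e2 he1 he1' he2 he2' C δ0 h0 h1 hF
    | some x => exact intq_ux hp hs r e1 e2 he1 he1' he2 he2' C δ0 h0 h1 hF x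
  | some x =>
    cases j with
    | none =>
      have h2 := intq_ux hp hs r e1 e2 he1 he1' he2 he2' C δ0 h0 h1 hF x
      have h3 : ∫⁻ y in RG p s δ0, HQ r p s m (some x) none y =
          ∫⁻ y in RG p s δ0, HQ r p s m none (some x) y := by
        apply setLIntegral_congr_fun (Total_RG_meas hp hs δ0)
        intro y hy
        exact QTot_HQ_symm hp hs _ _ _ y hy.1
      rw [h3]
      exact h2
    | some x' => exact intq_xx hp hs r e1 e2 he1 he1' he2 he2' C δ0 h0 h1 hF x x'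

theorem QTot_near (hp : PData p A) (hs : SData s m B) (r e1 e2 : ℝ) (hr : 1 ≤ r) (he1 : 0 ≤ e1)
    (he1' : e1 < 7 / 4) (he2 : 0 ≤ e2) (he2' : e2 < 7 / 8) (C δ0 : ℝ) (h0 : 0 < δ0) (h1 : δ0 ≤ 1)
    (hF : FBQ p s m r e1 e2 C δ0) (i j : Option Idx) :
    ∫⁻ t in {t : E9 | t.2 ∈ RG p s δ0},
      ‖fderiv ℝ (fderiv ℝ (ff p s m)) t (dir i) (dir j)‖ₑ ^ r < ∞ := by
  have e1 : {t : E9 | t.2 ∈ RG p s δ0} = univ ×ˢ RG p s δ0 := by
    ext t; simp
  have e2 : (volume : Measure E9).restrict (univ ×ˢ RG p s δ0) =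
      (volume : Measure ℝ).prod ((volume : Measure Z8).restrict (RG p s δ0)) := by
    rw [Measure.volume_eq_prod, ← Measure.prod_restrict, Measure.restrict_univ]
  rw [e1, e2, lintegral_prod_symm _
    ((Total_meas (ff p s m) (dir i) (dir j)).pow_const r).aemeasurable]
  refine lt_of_le_of_lt ?_ (QTot_HQ_fin hp hs _ _ _ he1 he1' he2 he2' C δ0 h0 h1 hF i j)
  apply setLIntegral_mono' (Total_RG_meas hp hs δ0)
  intro y hy
  exact QTot_inner hp hs r hr i j y hy.1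

theorem QTot_far (hp : PData p A) (hs : SData s m B) (r : ℝ) (hr : 0 ≤ r) (δ0 : ℝ) (h0 : 0 < δ0)
    (R : ℝ) :
    ∫⁻ t in Metric.closedBall (0 : E9) R ∩ {t : E9 | δ0 ≤ dlt (Gi p s t.2)},
      ‖fderiv ℝ (fderiv ℝ (ff p s m)) t‖ₑ ^ r < ∞ := by
  set K : Set E9 := Metric.closedBall (0 : E9) R ∩ {t : E9 | δ0 ≤ dlt (Gi p s t.2)} with hK
  have hcl : IsClosed {t : E9 | δ0 ≤ dlt (Gi p s t.2)} := by
    have h2 : Continuous fun t : E9 => dlt (Gi p s t.2) :=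
      dlt_cont.comp ((Gi_cont hp hs).comp continuous_snd)
    exact isClosed_le continuous_const h2
  have hKc : IsCompact K := (isCompact_closedBall (0 : E9) R).inter_right hcl
  have hcont : ContinuousOn (fun t => ‖fderiv ℝ (fderiv ℝ (ff p s m)) t‖) K := by
    intro t ht
    have h3 : s (Gi p s t.2) ≠ 0 := by
      intro h4
      have h5 := (hs.zero_iff _).1 h4
      have h6 := (dlt_zero_iff _).2 h5
      have h7 : δ0 ≤ dlt (Gi p s t.2) := ht.2
      rw [h6] at h7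
      linarith
    have h8 : ContDiffAt ℝ 2 (ff p s m) t := ff_smooth hp hs t.1 t.2 h3
    have h9 : ContDiffAt ℝ 1 (fderiv ℝ (ff p s m)) t := h8.fderiv_right (by norm_num)
    have h10 : ContDiffAt ℝ 0 (fderiv ℝ (fderiv ℝ (ff p s m))) t := h9.fderiv_right (by norm_num)
    exact (Total_norm_cont h10.continuousAt).continuousWithinAt
  obtain ⟨C, hC⟩ := hKc.bddAbove_image hcont
  calc ∫⁻ t in K, ‖fderiv ℝ (fderiv ℝ (ff p s m)) t‖ₑ ^ r ≤
      ∫⁻ _ in K, (ENNReal.ofReal C) ^ r := by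
        apply setLIntegral_mono' hKc.measurableSet
        intro t ht
        refine ENNReal.rpow_le_rpow ?_ hr
        rw [← ofReal_norm]
        exact ENNReal.ofReal_le_ofReal (hC (mem_image_of_mem _ ht))
    _ = (ENNReal.ofReal C) ^ r * volume K := by rw [setLIntegral_const]
    _ < ∞ := ENNReal.mul_lt_top (ENNReal.rpow_lt_top_of_nonneg hr ENNReal.ofReal_ne_top)
        hKc.measure_lt_top

theorem QTot_zero (hp : PData p A) (hs : SData s m B) (r : ℝ) (hr : 0 < r) :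
    ∫⁻ t in {t : E9 | s (Gi p s t.2) = 0}, ‖fderiv ℝ (fderiv ℝ (ff p s m)) t‖ₑ ^ r = 0 := by
  have h1 := tot_zero hp hs
  have hm2 : Measurable (fderiv ℝ (fderiv ℝ (ff p s m))) := measurable_fderiv ℝ _
  have hm : Measurable fun t : E9 => ‖fderiv ℝ (fderiv ℝ (ff p s m)) t‖ₑ := by
    simp only [← ofReal_norm]
    exact hm2.norm.ennreal_ofReal
  rw [lintegral_eq_zero_iff hm] at h1
  rw [lintegral_eq_zero_iff (hm.pow_const r)]
  filter_upwards [h1] with t ht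
  have ht' : ‖fderiv ℝ (fderiv ℝ (ff p s m)) t‖ₑ = 0 := ht
  show ‖fderiv ℝ (fderiv ℝ (ff p s m)) t‖ₑ ^ r = 0
  rw [ht', ENNReal.zero_rpow_of_pos hr]

theorem ff_intq (hp : PData p A) (hs : SData s m B) (r : ℝ) (hr : 1 ≤ r) (hr' : r < 480 / 477)
    (R : ℝ) :
    ∫⁻ t in Metric.closedBall (0 : E9) R, ‖fderiv ℝ (fderiv ℝ (ff p s m)) t‖ₑ ^ r < ∞ := by
  have hr0 : 0 < r := by linarith
  obtain ⟨C, δ0, h0, h1, hF⟩ := fbq_all (m := m) hp hs r hr
  set S1 : Set E9 := {t : E9 | t.2 ∈ RG p s δ0} with hS1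
  set S2 : Set E9 := Metric.closedBall (0 : E9) R ∩ {t : E9 | δ0 ≤ dlt (Gi p s t.2)} with hS2
  set S3 : Set E9 := {t : E9 | s (Gi p s t.2) = 0} with hS3
  have hsub : Metric.closedBall (0 : E9) R ⊆ S1 ∪ (S2 ∪ S3) := by
    intro t ht
    by_cases h3 : s (Gi p s t.2) = 0
    · exact Or.inr (Or.inr h3)
    · by_cases h4 : dlt (Gi p s t.2) ≤ δ0
      · exact Or.inl ⟨h3, h4⟩
      · exact Or.inr (Or.inl ⟨ht, (not_le.1 h4).le⟩)
  have hn : ∫⁻ t in S1, ‖fderiv ℝ (fderiv ℝ (ff p s m)) t‖ₑ ^ r < ∞ := by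
    set c : ℝ≥0∞ := ((Finset.univ : Finset (Option Idx × Option Idx)).card : ℝ≥0∞) ^ r with hc
    have hcfin : c ≠ ∞ := (ENNReal.rpow_lt_top_of_nonneg hr0.le (ENNReal.natCast_ne_top _)).ne
    have h5 : ∀ t : E9, ‖fderiv ℝ (fderiv ℝ (ff p s m)) t‖ₑ ^ r ≤
        c * ∑ ij : Option Idx × Option Idx,
          ‖fderiv ℝ (fderiv ℝ (ff p s m)) t (dir ij.1) (dir ij.2)‖ₑ ^ r := by
      intro t
      have h6 := opnorm (fderiv ℝ (fderiv ℝ (ff p s m)) t)
      refine le_trans ?_ (QTot_sum _ _ r hr0)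
      refine ENNReal.rpow_le_rpow ?_ hr0.le
      rw [← ofReal_norm]
      refine (ENNReal.ofReal_le_ofReal h6).trans ?_
      rw [ENNReal.ofReal_sum_of_nonneg (fun i _ => by positivity), Fintype.sum_prod_type]
      refine Finset.sum_le_sum fun i _ => ?_
      rw [ENNReal.ofReal_sum_of_nonneg (fun i _ => by positivity)]
      refine Finset.sum_le_sum fun j _ => ?_
      rw [ofReal_norm]
    refine lt_of_le_of_lt (lintegral_mono h5) ?_
    rw [lintegral_const_mul' _ _ hcfin,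
      lintegral_finsetSum _ (fun ij _ => (Total_meas _ _ _).pow_const r)]
    refine ENNReal.mul_lt_top hcfin.lt_top (ENNReal.sum_lt_top.2 fun ij _ => ?_)
    exact QTot_near hp hs r _ _ hr (by linarith) (by linarith) (by linarith) (by linarith)
      C δ0 h0 h1 hF ij.1 ij.2
  calc ∫⁻ t in Metric.closedBall (0 : E9) R, ‖fderiv ℝ (fderiv ℝ (ff p s m)) t‖ₑ ^ r
      ≤ ∫⁻ t in S1 ∪ (S2 ∪ S3), ‖fderiv ℝ (fderiv ℝ (ff p s m)) t‖ₑ ^ r := lintegral_mono_set hsub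
    _ ≤ (∫⁻ t in S1, ‖fderiv ℝ (fderiv ℝ (ff p s m)) t‖ₑ ^ r) +
        ∫⁻ t in S2 ∪ S3, ‖fderiv ℝ (fderiv ℝ (ff p s m)) t‖ₑ ^ r := lintegral_union_le _ _ _
    _ ≤ (∫⁻ t in S1, ‖fderiv ℝ (fderiv ℝ (ff p s m)) t‖ₑ ^ r) +
        ((∫⁻ t in S2, ‖fderiv ℝ (fderiv ℝ (ff p s m)) t‖ₑ ^ r) +
        ∫⁻ t in S3, ‖fderiv ℝ (fderiv ℝ (ff p s m)) t‖ₑ ^ r) :=
        add_le_add le_rfl (lintegral_union_le _ _ _)
    _ < ∞ := by
        rw [QTot_zero hp hs r hr0, add_zero]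
        exact ENNReal.add_lt_top.2 ⟨hn, QTot_far hp hs r hr0.le δ0 h0 R⟩

end Pool.Agent.Wtw
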