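import Mathlib
import Pool.Agent.Wtw.QTot

/-!
# QInt1: powers of the first derivative
-/

namespace Pool.Agent.Wtw

open MeasureTheory Set Filter Topology
open scoped ENNReal

variable {p : ℝ → ℝ → ℝ} {A B : ℝ} {s : Z8 → ℝ} {m : Z8 → V2}

/-- Hoelder on a finite measure space -/
theorem QInt1_holder {α F : Type*} [MeasurableSpace α] [NormedAddCommGroup F] (μ : Measure α)
    (g : α → F) (hg : AEStronglyMeasurable g μ) (r : ℝ) (hr : 1 ≤ r) :
    (∫⁻ t, ‖g t‖ₑ ∂μ) ^ r ≤ (μ univ ^ (1 - 1 / r)) ^ r * ∫⁻ t, ‖g t‖ₑ ^ r ∂μ := by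
  have hr0 : 0 < r := by linarith
  have h1 := eLpNorm'_le_eLpNorm'_mul_rpow_measure_univ (μ := μ) (f := g) one_pos hr hg
  have h2 : eLpNorm' g 1 μ = ∫⁻ t, ‖g t‖ₑ ∂μ := by
    rw [eLpNorm'_eq_lintegral_enorm]; simp
  rw [h2, eLpNorm'_eq_lintegral_enorm] at h1
  calc (∫⁻ t, ‖g t‖ₑ ∂μ) ^ r
      ≤ ((∫⁻ t, ‖g t‖ₑ ^ r ∂μ) ^ (1 / r) * μ univ ^ (1 / (1 : ℝ) - 1 / r)) ^ r :=
        ENNReal.rpow_le_rpow h1 hr0.le
    _ = (μ univ ^ (1 - 1 / r)) ^ r * ∫⁻ t, ‖g t‖ₑ ^ r ∂μ := by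
        rw [ENNReal.mul_rpow_of_nonneg _ _ hr0.le, ← ENNReal.rpow_mul, one_div_mul_cancel hr0.ne',
          ENNReal.rpow_one, mul_comm, div_one]

theorem QInt1_add (a b : ℝ≥0∞) (r : ℝ) (hr : 1 ≤ r) :
    (a + b) ^ r ≤ 2 ^ (r - 1) * (a ^ r + b ^ r) :=
  ENNReal.rpow_add_le_mul_rpow_add_rpow a b hr

theorem ff_intq1_big (hp : PData p A) (hs : SData s m B) (r : ℝ) (hr : 1 ≤ r)
    (hr' : r < 480 / 477) (R : ℝ) (hR : 1 ≤ R) :
    ∫⁻ t in Metric.closedBall (0 : E9) R, ‖fderiv ℝ (ff p s m) t‖ₑ ^ r < ∞ := by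
  have hr0 : 0 < r := by linarith
  set f := ff p s m with hf
  have hball : Metric.closedBall (0 : E9) R =
      Icc (-R) R ×ˢ Metric.closedBall (0 : Z8) R := by
    have h1 : (0 : E9) = ((0 : ℝ), (0 : Z8)) := rfl
    rw [h1, ← closedBall_prod_same, Real.closedBall_eq_Icc]
    simp
  have hm2 : Measurable (fderiv ℝ (fderiv ℝ f)) := measurable_fderiv ℝ _
  have hm2' : Measurable fun t : E9 => ‖fderiv ℝ (fderiv ℝ f) t‖ₑ ^ r := by
    have h1 : Measurable fun t : E9 => ‖fderiv ℝ (fderiv ℝ f) t‖ₑ := by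
      simp only [← ofReal_norm]
      exact hm2.norm.ennreal_ofReal
    exact h1.pow_const r
  have hh : Measurable fun y : Z8 => ∫⁻ t in Icc (-R) R, ‖fderiv ℝ (fderiv ℝ f) (t, y)‖ₑ ^ r :=
    hm2'.lintegral_prod_left'
  have hnull : (volume : Measure E9) {t : E9 | t.1 = 0} = 0 := by
    have h1 : {t : E9 | t.1 = 0} = ({0} : Set ℝ) ×ˢ (univ : Set Z8) := by
      ext t; simp
    rw [h1, Measure.volume_eq_prod, Measure.prod_prod]
    simp
  set c : ℝ≥0∞ := 2 ^ (r - 1) with hc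
  have hcfin : c ≠ ∞ := (ENNReal.rpow_lt_top_of_nonneg (by linarith) (by simp)).ne
  set d : ℝ≥0∞ := ((volume.restrict (Icc (-R) R)) univ ^ (1 - 1 / r)) ^ r with hd
  have hdfin : d ≠ ∞ := by
    refine (ENNReal.rpow_lt_top_of_nonneg hr0.le ?_).ne
    refine (ENNReal.rpow_lt_top_of_nonneg ?_ ?_).ne
    · rw [sub_nonneg, div_le_one hr0]; exact hr
    · rw [Measure.restrict_apply_univ, Real.volume_Icc]; exact ENNReal.ofReal_ne_top
  have hae : ∀ᵐ t ∂((volume : Measure E9).restrict (Metric.closedBall (0 : E9) R)),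
      ‖fderiv ℝ f t‖ₑ ^ r ≤
        c * (1 + d * ∫⁻ v in Icc (-R) R, ‖fderiv ℝ (fderiv ℝ f) (v, t.2)‖ₑ ^ r) := by
    rw [ae_restrict_iff' Metric.isClosed_closedBall.measurableSet]
    have h1 : ∀ᵐ t ∂(volume : Measure E9), t.1 ≠ 0 := by
      rw [ae_iff]
      simpa using hnull
    have hc1 : (1 : ℝ≥0∞) ≤ c := by
      rcases hr.eq_or_lt with h | h
      · rw [hc, ← h]; simp
      · exact ENNReal.one_le_rpow (by norm_num) (by linarith)
    filter_upwards [h1] with t ht1 ht2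
    rw [hball] at ht2
    obtain ⟨ht3, ht4⟩ := ht2
    by_cases hy : s (Gi p s t.2) = 0
    · have h2 : ‖fderiv ℝ f t‖ₑ ≤ 1 := ff_int1_id (ff_near_K hp hs t.1 t.2 hy ht1)
      calc ‖fderiv ℝ f t‖ₑ ^ r ≤ 1 ^ r := ENNReal.rpow_le_rpow h2 hr0.le
        _ = 1 * 1 := by simp
        _ ≤ _ := mul_le_mul' hc1 le_self_add
    · have h2 := ff_int1_key hp hs R hR t.1 t.2 hy ht3.1 ht3.2
      have hline : Measurable fun v : ℝ => fderiv ℝ (fderiv ℝ f) (v, t.2) :=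
        hm2.comp (measurable_id.prodMk measurable_const)
      calc ‖fderiv ℝ f t‖ₑ ^ r
          ≤ (1 + ∫⁻ v in Icc (-R) R, ‖fderiv ℝ (fderiv ℝ f) (v, t.2)‖ₑ) ^ r :=
            ENNReal.rpow_le_rpow h2 hr0.le
        _ ≤ c * (1 ^ r + (∫⁻ v in Icc (-R) R, ‖fderiv ℝ (fderiv ℝ f) (v, t.2)‖ₑ) ^ r) :=
            QInt1_add _ _ r hr
        _ ≤ c * (1 + d * ∫⁻ v in Icc (-R) R, ‖fderiv ℝ (fderiv ℝ f) (v, t.2)‖ₑ ^ r) := by
            gcongr
            · simp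
            · exact QInt1_holder (F := E9 →L[ℝ] E9 →L[ℝ] E9) _
                (fun v => fderiv ℝ (fderiv ℝ f) (v, t.2)) hline.aestronglyMeasurable r hr
  refine lt_of_le_of_lt (lintegral_mono_ae hae) ?_
  rw [lintegral_const_mul' _ _ hcfin]
  refine ENNReal.mul_lt_top hcfin.lt_top ?_
  rw [lintegral_add_left measurable_const, lintegral_const_mul' _ _ hdfin]
  refine ENNReal.add_lt_top.mpr ⟨?_, ENNReal.mul_lt_top hdfin.lt_top ?_⟩
  · rw [lintegral_const, one_mul, Measure.restrict_apply_univ]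
    exact Metric.isBounded_closedBall.measure_lt_top
  · have h2 := ff_intq (m := m) hp hs r hr hr' R
    rw [hball, Measure.volume_eq_prod, ← Measure.prod_restrict] at h2 ⊢
    rw [lintegral_prod_symm' _ hm2'] at h2
    rw [lintegral_prod_symm' _ (show Measurable fun t : E9 =>
      ∫⁻ v in Icc (-R) R, ‖fderiv ℝ (fderiv ℝ f) (v, t.2)‖ₑ ^ r from hh.comp measurable_snd)]
    simp only [lintegral_const, Measure.restrict_apply_univ]
    rw [lintegral_mul_const _ hh]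
    exact ENNReal.mul_lt_top h2 (by simp)

theorem ff_intq1 (hp : PData p A) (hs : SData s m B) (r : ℝ) (hr : 1 ≤ r) (hr' : r < 480 / 477)
    (R : ℝ) : ∫⁻ t in Metric.closedBall (0 : E9) R, ‖fderiv ℝ (ff p s m) t‖ₑ ^ r < ∞ :=
  lt_of_le_of_lt (lintegral_mono_set (Metric.closedBall_subset_closedBall (le_max_left R 1)))
    (ff_intq1_big hp hs r hr hr' (max R 1) (le_max_right R 1))

end Pool.Agent.Wtw
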