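import Mathlib
import Pool.Agent.Wtw.MkFD
import Pool.Agent.Wtw.FDQ
import Pool.Agent.Wtw.QInt1

/-!
# MkFDQ: assembly
-/

namespace Pool.Agent.Wtw

open MeasureTheory Set Filter Topology
open scoped ENNReal

theorem f_dataQ : ∃ (f : E9 → E9) (K : Set Z8), FDataQ f K := by
  obtain ⟨A, hp⟩ := p_data
  obtain ⟨c1, B, hs⟩ := s_data
  refine ⟨ff pp (sz c1) (mz c1), KK pp (sz c1), ?_⟩
  have h0 : FData (ff pp (sz c1) (mz c1)) (KK pp (sz c1)) := by
    constructor
    · exact ff_homeo hp hs
    · exact KK_compact hp hs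
    · exact KK_pos hp hs
    · exact fun y hy k => KK_sub hp hs y hy k
    · exact fun u y hu => ff_neg hp hs u y hu
    · exact fun u y hu => ff_one hp hs u y hu
    · exact fun u y hy => ff_K hp hs u y hy
    · intro u y hn
      by_cases hy : y ∈ KK pp (sz c1)
      · have hu : u ≠ 0 := fun h => hn ⟨h, hy⟩
        exact contDiffAt_id.congr_of_eventuallyEq (ff_near_K hp hs u y hy hu)
      · exact ff_smooth hp hs u y hy
    · intro u y hn
      by_cases hy : y ∈ KK pp (sz c1)
      · have hu : u ≠ 0 := fun h => hn ⟨h, hy⟩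
        refine ⟨ContinuousLinearEquiv.refl ℝ E9, ?_⟩
        exact MkFD_id _ _ (ff_near_K hp hs u y hy hu)
      · exact ff_inv hp hs u y hy
    · intro u y hy hu
      exact MkFD_id _ _ (ff_near_K hp hs u y hy hu)
    · exact ff_int1 hp hs
    · exact ff_int2 hp hs
    · exact ff_loop hp hs
  exact { toFData := h0, intq1 := fun r h1 h2 R => ff_intq1 hp hs r h1 h2 R,
          intq2 := fun r h1 h2 R => ff_intq hp hs r h1 h2 R }

end Pool.Agent.Wtw
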